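import Pool.Agent.Lib.MP_e2821c_ag.Dg.Core
import Pool.Agent.Lib.MP_e2821c_ag.Cy.Simp

namespace Pool.Agent.MP_e2821c_ag.Dg

open MvPolynomial

universe u v w

noncomputable section

section Cmap

variable {R : Type u} {R' : Type v} {R'' : Type w} [CommRing R] [CommRing R'] [CommRing R'']

theorem cmap_ringHom (f : R →+* R') (σ : Type*) (p : MvPolynomial σ R) :
    cmap f.toAddMonoidHom σ p = MvPolynomial.map f p := by
  ext m
  rw [coeff_cmap, coeff_map]
  rfl

theorem cmap_C (l : R →+ R') (σ : Type*) (a : R) : cmap l σ (C a) = C (l a) := by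
  classical
  ext m
  rw [coeff_cmap, coeff_C, coeff_C]
  split_ifs
  · rfl
  · exact map_zero l

theorem cmap_cmap (l : R →+ R') (l' : R' →+ R'') (σ : Type*) (p : MvPolynomial σ R) :
    cmap l' σ (cmap l σ p) = cmap (l'.comp l) σ p := by
  ext m
  rfl

theorem pmap_ringHom (f : R →+* R') (p : Polynomial R) :
    pmap f.toAddMonoidHom p = p.map f := by
  ext m
  rw [coeff_pmap, Polynomial.coeff_map]
  rfl

theorem pmap_monomial_Ops (l : R →+ R') (n : ℕ) (a : R) :
    pmap l (Polynomial.monomial n a) = Polynomial.monomial n (l a) := by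
  ext m
  rw [coeff_pmap, Polynomial.coeff_monomial, Polynomial.coeff_monomial]
  split_ifs
  · rfl
  · exact map_zero l

theorem cmap_mul_X_Ops (l : R →+ R') {σ : Type*} (p : MvPolynomial σ R) (k : σ) :
    cmap l σ (p * X k) = cmap l σ p * X k := by
  classical
  ext m
  rw [coeff_cmap, coeff_mul_X', coeff_mul_X']
  split_ifs
  · rfl
  · exact map_zero l

theorem eval_one_pmap (l : R →+ R') (p : Polynomial R) :
    (pmap l p).eval 1 = l (p.eval 1) := by
  induction p using Polynomial.induction_on' with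
  | add p q hp hq => rw [map_add, Polynomial.eval_add, Polynomial.eval_add, hp, hq, map_add]
  | monomial n a => rw [pmap_monomial_Ops]; simp

theorem eval_zero_pmap (l : R →+ R') (p : Polynomial R) :
    (pmap l p).eval 0 = l (p.eval 0) := by
  rw [← Polynomial.coeff_zero_eq_eval_zero, ← Polynomial.coeff_zero_eq_eval_zero, coeff_pmap]

end Cmap

variable {Γ : Type} {R R' R'' : Type u} [CommRing R] [CommRing R'] [CommRing R'']

theorem cmap_mul_bary_Ops (l : R →+ R') {a : ℕ} (p : Base R a) (i : Fin (a + 1)) :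
    cmap l (Fin a) (p * bary R a i) = cmap l (Fin a) p * bary R' a i := by
  refine Fin.cases ?_ (fun k => ?_) i
  · simp only [bary, Fin.cons_zero, mul_sub, mul_one, Finset.mul_sum, map_sub, map_sum,
      cmap_mul_X_Ops]
  · simp only [bary, Fin.cons_succ, cmap_mul_X_Ops]

theorem cmap_sm (l : R →+ R') {a b : ℕ} (f : Fin (a + 1) → Fin (b + 1)) (p : Base R b) :
    cmap l (Fin a) (Cy.sm R f p) = Cy.sm R' f (cmap l (Fin b) p) := by
  induction p using MvPolynomial.induction_on with
  | C c => rw [cmap_C, Cy.sm, Cy.sm, aeval_C, aeval_C, algebraMap_eq, algebraMap_eq, cmap_C]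
  | add p q hp hq => simp only [map_add, hp, hq]
  | mul_X p k hp =>
    rw [cmap_mul_X_Ops, map_mul (Cy.sm R f), map_mul (Cy.sm R' f), ← hp]
    generalize Cy.sm R f p = r
    rw [Cy.sm, Cy.sm, aeval_X, aeval_X, Finset.mul_sum, Finset.mul_sum, map_sum]
    exact Finset.sum_congr rfl fun i _ => cmap_mul_bary_Ops l _ i

theorem pushR_apply (f : R →+* R') (q : ℕ) (τ : Xq Γ R q) (γ : Γ) :
    pushR f q τ γ = MvPolynomial.map f (τ γ) := by
  exact cmap_ringHom f _ _

theorem push_push (l : R →+ R') (l' : R' →+ R'') (q : ℕ) (τ : Xq Γ R q) :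
    push l' q (push l q τ) = push (l'.comp l) q τ := by
  funext γ
  exact cmap_cmap l l' _ _

theorem pushR_pushR (f : R →+* R') (f' : R' →+* R'') (q : ℕ) (τ : Xq Γ R q) :
    pushR f' q (pushR f q τ) = pushR (f'.comp f) q τ := by
  funext γ
  ext m
  rfl

theorem push_id (q : ℕ) (τ : Xq Γ R q) : push (AddMonoidHom.id R) q τ = τ := by
  funext γ
  ext m
  rfl

theorem push_ext {l l' : R →+ R'} {q : ℕ} {τ : Xq Γ R q}
    (h : ∀ γ m, l (coeff m (τ γ)) = l' (coeff m (τ γ))) : push l q τ = push l' q τ := by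
  funext γ
  ext m
  exact h γ m

theorem push_eq_self {l : R →+ R} {q : ℕ} {τ : Xq Γ R q}
    (h : ∀ γ m, l (coeff m (τ γ)) = coeff m (τ γ)) : push l q τ = τ := by
  funext γ
  ext m
  exact h γ m

theorem add_push (l l' : R →+ R') (q : ℕ) (τ : Xq Γ R q) :
    push (l + l') q τ = push l q τ + push l' q τ := by
  funext γ
  ext m
  simp

theorem sub_push (l l' : R →+ R') (q : ℕ) (τ : Xq Γ R q) :
    push (l - l') q τ = push l q τ - push l' q τ := by
  funext γ
  ext m
  simp

theorem nsmul_push (N : ℕ) (l : R →+ R') (q : ℕ) (τ : Xq Γ R q) :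
    push (N • l) q τ = N • push l q τ := by
  induction N with
  | zero =>
    funext γ
    ext m
    simp
  | succ N ih => rw [succ_nsmul, succ_nsmul, add_push, ih]

theorem push_injective {l : R →+ R'} (hl : Function.Injective l) (q : ℕ) :
    Function.Injective (push (Γ := Γ) l q) := by
  intro u u' h
  funext γ
  ext m
  exact hl (congrArg (fun z : Xq Γ R' q => coeff m (z γ)) h)

theorem push_act (l : R →+ R') {a b : ℕ} (f : Fin (a + 1) → Fin (b + 1)) (τ : Xq Γ R b) :
    push l a (act R f τ) = act R' f (push l b τ) := by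
  funext γ
  exact cmap_sm l f _

theorem push_dX (l : R →+ R') (q : ℕ) (τ : Xq Γ R (q + 1)) :
    push l q (dX R q τ) = dX R' q (push l (q + 1) τ) := by
  rw [dX_apply, dX_apply, map_sum]
  exact Finset.sum_congr rfl fun i _ => by rw [map_zsmul, push_act]

theorem push_cst (l : R →+ R') (q : ℕ) (τ : Γ → R) :
    push l q (cst q τ) = cst q (fun γ => l (τ γ)) := by
  funext γ
  exact cmap_C l _ _

theorem act_id (q : ℕ) (τ : Xq Γ R q) : act R (id : Fin (q + 1) → Fin (q + 1)) τ = τ := by
  funext γ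
  rw [act_apply, Cy.sm_id]
  rfl

theorem act_act {a b c : ℕ} (f : Fin (a + 1) → Fin (b + 1)) (g : Fin (b + 1) → Fin (c + 1))
    (τ : Xq Γ R c) : act R f (act R g τ) = act R (g ∘ f) τ := by
  funext γ
  rw [act_apply, act_apply, act_apply, Cy.sm_comp]
  rfl

theorem act_cst {a b : ℕ} (f : Fin (a + 1) → Fin (b + 1)) (τ : Γ → R) :
    act R f (cst b τ) = cst a τ := by
  funext γ
  rw [act_apply, cst_apply, cst_apply, Cy.sm, aeval_C, algebraMap_eq]

/-- The chains as a simplicial abelian group. -/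
abbrev smod_Ops (Γ : Type) (R : Type u) [CommRing R] : Cy.SMod.{u} ℤ where
  obj m := Xq Γ R m
  act f := (act R f).toIntLinearMap
  act_id m x := act_id m x
  act_comp f g x := (act_act f g x).symm

theorem smod_d_Ops (q : ℕ) (τ : Xq Γ R (q + 1)) : (smod_Ops Γ R).d q τ = dX R q τ := by
  rw [Cy.SMod.d_apply, dX_apply]
  rfl

theorem dX_dX (q : ℕ) (τ : Xq Γ R (q + 2)) : dX R q (dX R (q + 1) τ) = 0 := by
  rw [← smod_d_Ops, ← smod_d_Ops]
  exact (smod_Ops Γ R).d_d q τ

theorem dX_cst (q : ℕ) (τ : Γ → R) : dX R q (cst (q + 1) τ) = eps q • cst q τ := by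
  rw [dX_apply, eps, Finset.sum_smul]
  exact Finset.sum_congr rfl fun i _ => by rw [act_cst]

theorem cst_injective (q : ℕ) : Function.Injective (cst (Γ := Γ) (R := R) q) := by
  intro u u' h
  funext γ
  exact C_injective (Fin q) R (congrFun h γ)

theorem dX_comp {Γ' : Type} (f : Γ' → Γ) (q : ℕ) (τ : Xq Γ R (q + 1)) :
    dX R q (fun γ => τ (f γ)) = fun γ => dX R q τ (f γ) := by
  funext γ
  rw [dX_apply, dX_apply, Finset.sum_apply, Finset.sum_apply]
  rfl

theorem dX_mul (c : Γ → R) (q : ℕ) (τ : Xq Γ R (q + 1)) :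
    dX R q (fun γ => C (c γ) * τ γ) = fun γ => C (c γ) * dX R q τ γ := by
  funext γ
  rw [dX_apply, dX_apply, Finset.sum_apply, Finset.sum_apply, Finset.mul_sum]
  refine Finset.sum_congr rfl fun i _ => ?_
  rw [Pi.smul_apply, Pi.smul_apply, act_apply, act_apply, map_mul, mul_smul_comm]
  congr 2
  rw [Cy.sm, aeval_C, algebraMap_eq]

theorem Cyc.zero (q : ℕ) : Cyc q (0 : Xq Γ R q) := by
  cases q with
  | zero => trivial
  | succ q => exact map_zero (dX R q)

theorem Cyc.add {q : ℕ} {u u' : Xq Γ R q} (h : Cyc q u) (h' : Cyc q u') : Cyc q (u + u') := by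
  cases q with
  | zero => trivial
  | succ q =>
    change dX R q _ = 0 at h h' ⊢
    rw [map_add, h, h', add_zero]

theorem Cyc.sub {q : ℕ} {u u' : Xq Γ R q} (h : Cyc q u) (h' : Cyc q u') : Cyc q (u - u') := by
  cases q with
  | zero => trivial
  | succ q =>
    change dX R q _ = 0 at h h' ⊢
    rw [map_sub, h, h', sub_zero]

theorem Cyc.push {q : ℕ} {u : Xq Γ R q} (h : Cyc q u) (l : R →+ R') : Cyc q (push l q u) := by
  cases q with
  | zero => trivial
  | succ q =>
    change dX R q _ = 0 at h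
    change dX R' q _ = 0
    rw [← push_dX, h, map_zero]

theorem Cyc.of_push {q : ℕ} {u : Xq Γ R q} {l : R →+ R'} (hl : Function.Injective l)
    (h : Cyc q (Dg.push l q u)) : Cyc q u := by
  cases q with
  | zero => trivial
  | succ q =>
    change dX R' q _ = 0 at h
    change dX R q _ = 0
    apply push_injective hl q
    rw [push_dX, h, map_zero]

theorem cyc_dX (q : ℕ) (y : Xq Γ R (q + 1)) : Cyc q (dX R q y) := by
  cases q with
  | zero => trivial
  | succ q => exact dX_dX q y

theorem xq_nsmul_injective [QAlg R] {q N : ℕ} (hN : N ≠ 0) {u u' : Xq Γ R q}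
    (h : N • u = N • u') : u = u' := by
  funext γ
  exact QAlg.nsmul_injective hN (congrFun h γ)

section Red

theorem red_red {S : Type*} [AddCommGroup S] (τ : G2 → S) : Red (red τ) := by
  refine ⟨fun b => ?_, fun a => ?_⟩
  · rw [red_apply]
    change τ (0, b) - τ (0, b) - τ 0 + τ 0 = 0
    abel
  · rw [red_apply]
    change τ (a, 0) - τ 0 - τ (a, 0) + τ 0 = 0
    abel

theorem Red.red_eq {S : Type*} [AddCommGroup S] {τ : G2 → S} (h : Red τ) : red τ = τ := by
  funext γ
  rw [red_apply, h.1, h.2, show τ 0 = 0 from h.1 0, sub_zero, sub_zero, add_zero]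

theorem Red.comp {S S' : Type*} [Zero S] [Zero S'] {τ : G2 → S} (h : Red τ) (f : S → S')
    (hf : f 0 = 0) : Red (fun γ => f (τ γ)) := by
  refine ⟨fun b => ?_, fun a => ?_⟩
  · change f (τ (0, b)) = 0
    rw [h.1, hf]
  · change f (τ (a, 0)) = 0
    rw [h.2, hf]

theorem Red.push {q : ℕ} {τ : Xq G2 R q} (h : Red τ) (l : R →+ R') : Red (push l q τ) := by
  exact h.comp (cmap l (Fin q)) (map_zero _)

theorem Red.act {a b : ℕ} {τ : Xq G2 R b} (h : Red τ) (f : Fin (a + 1) → Fin (b + 1)) :
    Red (act R f τ) := by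
  exact h.comp (Cy.sm R f) (map_zero _)

theorem Red.dX {q : ℕ} {τ : Xq G2 R (q + 1)} (h : Red τ) : Red (dX R q τ) := by
  rw [dX_apply]
  exact (RedSub (Base R q)).sum_mem fun i _ => (RedSub (Base R q)).zsmul_mem (h.act _) _

theorem push_red (l : R →+ R') (q : ℕ) (τ : Xq G2 R q) :
    push l q (red τ) = red (push l q τ) := by
  funext γ
  simp only [push_apply, red_apply, map_add, map_sub]

theorem act_red {a b : ℕ} (f : Fin (a + 1) → Fin (b + 1)) (τ : Xq G2 R b) :
    act R f (red τ) = red (act R f τ) := by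
  funext γ
  simp only [act_apply, red_apply, map_add, map_sub]

theorem dX_red (q : ℕ) (τ : Xq G2 R (q + 1)) : dX R q (red τ) = red (dX R q τ) := by
  rw [dX_apply, dX_apply, map_sum]
  exact Finset.sum_congr rfl fun i _ => by rw [map_zsmul, act_red]

theorem cst_red (q : ℕ) (τ : G2 → R) : cst q (red τ) = red (cst q τ) := by
  funext γ
  simp only [cst_apply, red_apply, map_add, map_sub]

end Red

section End

variable {F Ω : Type u} [Field F] [Field Ω] [Algebra F Ω]

end End

end

end Pool.Agent.MP_e2821c_ag.Dg
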