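import Pool.Agent.Lib.MP_e2821c_ag.Dg.REff
import Pool.Agent.Lib.MP_e2821c_ag.Dg.Ops

namespace Pool.Agent.MP_e2821c_ag.Dg

open MvPolynomial

universe u v w

noncomputable section

variable {Γ : Type} [AddCommGroup Γ] {R R' : Type u} [CommRing R] [CommRing R'] {q : ℕ}
  {A : Subring R} {A' : Subring R'}

theorem mem_range_map_Chn {σ : Type*} (f : R →+* R') (p : MvPolynomial σ R') :
    p ∈ (MvPolynomial.map (σ := σ) f).range ↔ ∀ m, coeff m p ∈ f.range := by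
  constructor
  · rintro ⟨p, rfl⟩ m
    rw [coeff_map]
    exact ⟨_, rfl⟩
  · intro h
    have h1 : p ∈ Set.range (MvPolynomial.map (σ := σ) f) := by
      rw [mem_range_map_iff_coeffs_subset]
      intro c hc
      obtain ⟨n, -, rfl⟩ := mem_coeffs_iff.1 hc
      exact h n
    exact h1

theorem mem_range_subtype_Chn {σ : Type*} (A : Subring R) (p : MvPolynomial σ R) :
    p ∈ (MvPolynomial.map (σ := σ) A.subtype).range ↔ ∀ m, coeff m p ∈ A := by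
  rw [mem_range_map_Chn, Subring.range_subtype]

theorem sm_coef_Chn {a b : ℕ} (f : Fin (a + 1) → Fin (b + 1)) {p : Base R b}
    (hp : ∀ m, coeff m p ∈ A) (m : Fin a →₀ ℕ) : coeff m (Cy.sm R f p) ∈ A := by
  obtain ⟨p₀, rfl⟩ := (mem_range_subtype_Chn A p).2 hp
  have h := cmap_sm A.subtype.toAddMonoidHom f p₀
  rw [cmap_ringHom, cmap_ringHom] at h
  rw [← h, coeff_map]
  exact (coeff m (Cy.sm A f p₀)).2

theorem mem_of_nsmul_Chn [QAlg A] {N : ℕ} (hN : N ≠ 0) {c : R} (h : N • c ∈ A) : c ∈ A := by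
  obtain ⟨u, hu⟩ := (QAlg.isUnit_natCast (S := A) N hN).exists_left_inv
  have h1 : (u : R) * (N : R) = 1 := by
    have := congrArg A.subtype hu
    simpa using this
  have h2 : c = (u : R) * (N • c) := by
    rw [nsmul_eq_mul, ← mul_assoc, h1, one_mul]
  rw [h2]
  exact A.mul_mem u.2 h

theorem comp_mem_ChD_Chn {Γ' : Type} [AddCommGroup Γ'] (f : Γ' →+ Γ) {d : ℕ} {τ : Xq Γ R q}
    (h : τ ∈ ChD Γ R q d) : (fun γ => τ (f γ) : Xq Γ' R q) ∈ ChD Γ' R q d := by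
  let F : Xq Γ R q →+ Xq Γ' R q :=
    { toFun := fun x γ => x (f γ), map_zero' := rfl, map_add' := fun _ _ => rfl }
  refine satClosure_map F (s := {τ | ∃ e, e ≤ d ∧ Eff e τ}) (t := {τ | ∃ e, e ≤ d ∧ Eff e τ})
    ?_ h
  rintro x ⟨e, he, hx⟩
  exact subset_satClosure ⟨e, he, hx.comp f⟩

theorem red_eq_Chn {S : Type*} [AddCommGroup S] (τ : G2 → S) :
    red τ = τ - (fun γ => τ (((AddMonoidHom.inr ℤ ℤ).comp (AddMonoidHom.snd ℤ ℤ)) γ))
      - (fun γ => τ (((AddMonoidHom.inl ℤ ℤ).comp (AddMonoidHom.fst ℤ ℤ)) γ))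
      + (fun γ => τ ((0 : G2 →+ G2) γ)) := by
  funext γ
  rfl

theorem coeff_mem_aux_Chn [QAlg A] {τ : Xq Γ R q} (h : τ ∈ Ch Γ A q) (γ : Γ)
    (m : Fin q →₀ ℕ) : coeff m (τ γ) ∈ A := by
  obtain ⟨N, hN, h⟩ := h
  let F : Xq Γ R q →+ R := (coeffAddMonoidHom m).comp (Pi.evalAddMonoidHom _ γ)
  have h1 : AddSubgroup.closure
      {x : Xq Γ R q | (∃ d, Eff d x) ∧ ∀ γ, x γ ∈ coefIn (A : Set R) (Fin q)} ≤
      A.toAddSubgroup.comap F := by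
    rw [AddSubgroup.closure_le]
    rintro x ⟨-, hx⟩
    exact hx γ m
  have h2 : F (N • τ) ∈ A := h1 h
  rw [map_nsmul] at h2
  exact mem_of_nsmul_Chn hN h2

theorem Ch_mono {A₁ A₂ : Subring R} (h : A₁ ≤ A₂) : Ch Γ A₁ q ≤ Ch Γ A₂ q := by
  refine satClosure_mono ?_
  rintro τ ⟨hd, hA⟩
  exact ⟨hd, fun γ m => h (hA γ m)⟩

theorem eff_mem_Ch {d : ℕ} {τ : Xq Γ R q} (h : Eff d τ) (hA : ∀ γ m, coeff m (τ γ) ∈ A) :
    τ ∈ Ch Γ A q := by
  exact subset_satClosure ⟨⟨d, h⟩, hA⟩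

theorem mem_Ch_top {τ : Xq Γ R q} :
    τ ∈ Ch Γ (⊤ : Subring R) q ↔ τ ∈ CorrIn Γ (Set.univ : Set (Base R q)) := by
  have h : coefIn ((⊤ : Subring R) : Set R) (Fin q) = Set.univ :=
    Set.eq_univ_of_forall fun p m => Subring.mem_top _
  rw [Ch, h]

theorem mem_Ch_of_nsmul {τ : Xq Γ R q} {N : ℕ} (hN : N ≠ 0) (h : N • τ ∈ Ch Γ A q) :
    τ ∈ Ch Γ A q := by
  exact mem_satClosure_of_nsmul hN h

theorem exists_sub_of_mem_Ch [IsDomain R] [QAlg R] {τ : Xq Γ R q} (h : τ ∈ Ch Γ A q) :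
    ∃ N : ℕ, N ≠ 0 ∧ ∃ (e e' : ℕ) (σ σ' : Xq Γ R q), Eff e σ ∧ Eff e' σ' ∧
      (∀ γ m, coeff m (σ γ) ∈ A) ∧ (∀ γ m, coeff m (σ' γ) ∈ A) ∧ N • τ = σ - σ' := by
  let M : AddSubmonoid (Base R q) :=
    { carrier := coefIn (A : Set R) (Fin q)
      zero_mem' := fun m => by
        rw [coeff_zero]; exact A.zero_mem
      add_mem' := fun {a b} ha hb m => by
        rw [coeff_add]; exact A.add_mem (ha m) (hb m) }
  exact exists_sub_of_mem_corrIn M h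

theorem act_mem_Ch [IsDomain R] [QAlg R] {a b : ℕ} (f : Fin (a + 1) → Fin (b + 1))
    {τ : Xq Γ R b} (h : τ ∈ Ch Γ A b) : act R f τ ∈ Ch Γ A a := by
  exact map_mem_corrIn (Cy.smR R f) (A := coefIn (A : Set R) (Fin b))
    (A' := coefIn (A : Set R) (Fin a)) (fun p hp m => sm_coef_Chn f hp m) h

theorem dX_mem_Ch [IsDomain R] [QAlg R] {τ : Xq Γ R (q + 1)} (h : τ ∈ Ch Γ A (q + 1)) :
    dX R q τ ∈ Ch Γ A q := by
  rw [dX_apply]
  exact sum_mem fun i _ => zsmul_mem (act_mem_Ch _ h) _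

theorem push_mem_of_rEff [QAlg R] {d : ℕ} {l : R →+ R'} (hl : REff d l)
    (hA : ∀ a ∈ A, l a ∈ A') {τ : Xq Γ R q} (h : τ ∈ Ch Γ A q) : push l q τ ∈ Ch Γ A' q := by
  refine satClosure_map (push l q) ?_ h
  rintro x ⟨⟨e, he⟩, hx⟩
  exact subset_satClosure ⟨⟨d * e, (hl.cmap (Fin q)).comp_eff he⟩, fun γ m => hA _ (hx γ m)⟩

theorem pushR_mem [QAlg R] [IsDomain R'] (f : R →+* R') (hA : ∀ a ∈ A, f a ∈ A')
    {τ : Xq Γ R q} (h : τ ∈ Ch Γ A q) : pushR f q τ ∈ Ch Γ A' q := by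
  exact push_mem_of_rEff (REff.ringHom f) hA h

theorem push_mem_of_rCorr [QAlg R] {l : R →+ R'} (hl : RCorr l) {τ : Xq Γ R q}
    (h : τ ∈ Ch Γ (⊤ : Subring R) q) : push l q τ ∈ Ch Γ (⊤ : Subring R') q := by
  rw [mem_Ch_top] at h ⊢
  exact (hl.cmap (Fin q)).comp_mem h

theorem exists_pushR_eq (f : R →+* R') (hf : Function.Injective f) (hA : A' ≤ f.range)
    {τ' : Xq Γ R' q} (h : τ' ∈ Ch Γ A' q) [QAlg A'] :
    ∃ τ ∈ Ch Γ (A'.comap f) q, pushR f q τ = τ' := by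
  have hinj : Function.Injective (pushR (Γ := Γ) f q) := push_injective hf q
  have hlift : ∀ x : Xq Γ R' q, (∀ γ m, coeff m (x γ) ∈ A') → ∃ y, pushR f q y = x := by
    intro x hx
    have h1 : ∀ γ, ∃ p, MvPolynomial.map f p = x γ := fun γ =>
      (mem_range_map_Chn f (x γ)).2 fun m => hA (hx γ m)
    choose y hy using h1
    exact ⟨y, funext fun γ => by rw [pushR_apply, hy]⟩
  obtain ⟨τ, rfl⟩ := hlift τ' fun γ m => coeff_mem_aux_Chn h γ m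
  refine ⟨τ, ?_, rfl⟩
  obtain ⟨N, hN, h⟩ := h
  have h1 : AddSubgroup.closure
      {x : Xq Γ R' q | (∃ d, Eff d x) ∧ ∀ γ, x γ ∈ coefIn (A' : Set R') (Fin q)} ≤
      (Ch Γ (A'.comap f) q).map (pushR f q) := by
    rw [AddSubgroup.closure_le]
    rintro x ⟨⟨e, he⟩, hx⟩
    obtain ⟨y, rfl⟩ := hlift x hx
    refine ⟨y, eff_mem_Ch (d := e) ?_ ?_, rfl⟩
    · refine Eff.of_injective (MvPolynomial.map f) (map_injective f hf) ?_
      have h2 : (fun γ => MvPolynomial.map f (y γ)) = pushR f q y :=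
        funext fun γ => (pushR_apply f q y γ).symm
      rw [h2]
      exact he
    · intro γ m
      exact hx γ m
  obtain ⟨y, hy, hy'⟩ := h1 h
  rw [← map_nsmul] at hy'
  refine mem_Ch_of_nsmul hN ?_
  rw [← hinj hy']
  exact hy

theorem push_mem_of_homOn [QAlg A] [IsDomain R'] {l : R →+ R'} (hl : HomOn l (A : Set R))
    (hA : ∀ a ∈ A, l a ∈ A') {τ : Xq Γ R q} (h : τ ∈ Ch Γ A q) : push l q τ ∈ Ch Γ A' q := by
  obtain ⟨τ₀, h₀, rfl⟩ := exists_pushR_eq A.subtype A.subtype_injective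
    (by rw [Subring.range_subtype]) h
  let g : A →+* R' :=
    { toFun := fun a => l a
      map_one' := hl.1
      map_mul' := fun a b => hl.2 a a.2 b b.2
      map_zero' := l.map_zero
      map_add' := fun a b => l.map_add a b }
  rw [push_push]
  exact pushR_mem g (fun a _ => hA a a.2) h₀

theorem coeff_mem_of_mem_Ch [QAlg A] {τ : Xq Γ R q} (h : τ ∈ Ch Γ A q) (γ : Γ)
    (m : Fin q →₀ ℕ) : coeff m (τ γ) ∈ A := by
  exact coeff_mem_aux_Chn h γ m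

theorem push_congr [QAlg A] {l l' : R →+ R'} (hl : ∀ a ∈ A, l a = l' a) {τ : Xq Γ R q}
    (h : τ ∈ Ch Γ A q) : push l q τ = push l' q τ := by
  exact push_ext fun γ m => hl _ (coeff_mem_of_mem_Ch h γ m)

theorem push_eq_self_of_mem [QAlg A] {l : R →+ R} (hl : ∀ a ∈ A, l a = a) {τ : Xq Γ R q}
    (h : τ ∈ Ch Γ A q) : push l q τ = τ := by
  exact push_eq_self fun γ m => hl _ (coeff_mem_of_mem_Ch h γ m)

theorem exists_div_mem_Ch [QAlg R] {N : ℕ} (hN : N ≠ 0) {τ : Xq Γ R q} (h : τ ∈ Ch Γ A q) :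
    ∃ τ' ∈ Ch Γ A q, N • τ' = τ := by
  obtain ⟨u, hu⟩ := (QAlg.isUnit_natCast (S := Base R q) N hN).exists_right_inv
  have h1 : N • (fun γ => u * τ γ : Xq Γ R q) = τ := by
    funext γ
    rw [Pi.smul_apply, nsmul_eq_mul, ← mul_assoc, hu, one_mul]
  refine ⟨fun γ => u * τ γ, mem_Ch_of_nsmul hN ?_, h1⟩
  rw [h1]
  exact h

theorem qsmul_mem_Ch {Ω : Type u} [Field Ω] [CharZero Ω] {A : Subring Ω} (c : ℚ) {τ : Xq Γ Ω q}
    (h : τ ∈ Ch Γ A q) : c • τ ∈ Ch Γ A q := by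
  refine mem_Ch_of_nsmul c.den_nz ?_
  have h1 : c.den • c • τ = c.num • τ := by
    rw [← Nat.cast_smul_eq_nsmul ℚ, smul_smul, Rat.den_mul_eq_num, Int.cast_smul_eq_zsmul]
  rw [h1]
  exact zsmul_mem h _

theorem comp_mem_Ch {Γ' : Type} [AddCommGroup Γ'] (f : Γ' →+ Γ) {τ : Xq Γ R q}
    (h : τ ∈ Ch Γ A q) : (fun γ => τ (f γ) : Xq Γ' R q) ∈ Ch Γ' A q := by
  exact comp_mem_corrIn f h

theorem mul_char_mem_Ch (χ : AddChar Γ R) (hχ : ∀ γ, χ γ ∈ A) {τ : Xq Γ R q}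
    (h : τ ∈ Ch Γ A q) : (fun γ => C (χ γ) * τ γ : Xq Γ R q) ∈ Ch Γ A q := by
  let F : Xq Γ R q →+ Xq Γ R q :=
    { toFun := fun x γ => C (χ γ) * x γ
      map_zero' := funext fun γ => mul_zero _
      map_add' := fun x y => funext fun γ => mul_add _ _ _ }
  refine satClosure_map F ?_ h
  rintro x ⟨⟨e, he⟩, hx⟩
  refine subset_satClosure ⟨⟨e, ?_⟩, fun γ m => ?_⟩
  · exact he.mul_char ((C : R →+* Base R q).toMonoidHom.compAddChar χ)
  · change coeff m (C (χ γ) * x γ) ∈ A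
    rw [coeff_C_mul]
    exact A.mul_mem (hχ γ) (hx γ m)

theorem cst_mem_Ch [IsDomain R] [QAlg R] {τ : Γ → R} (h : τ ∈ CorrIn Γ (A : Set R)) (q : ℕ) :
    cst q τ ∈ Ch Γ A q := by
  classical
  refine map_mem_corrIn (C : R →+* Base R q) (A := (A : Set R))
    (A' := coefIn (A : Set R) (Fin q)) (fun a ha m => ?_) h
  rw [coeff_C]
  split_ifs
  · exact ha
  · exact A.zero_mem

theorem exists_finset_of_mem_Ch [Module.Finite ℤ Γ] {τ : Xq Γ R q} (h : τ ∈ Ch Γ A q) :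
    ∃ s : Finset R, (∀ x ∈ s, x ∈ A) ∧ ∀ (A₁ : Subring R) [QAlg A₁], (∀ x ∈ s, x ∈ A₁) →
      τ ∈ Ch Γ A₁ q := by
  classical
  obtain ⟨N, hN, h⟩ := h
  have key : ∀ x ∈ AddSubgroup.closure
      {x : Xq Γ R q | (∃ d, Eff d x) ∧ ∀ γ, x γ ∈ coefIn (A : Set R) (Fin q)},
      ∃ s : Finset R, (∀ a ∈ s, a ∈ A) ∧ ∀ (A₁ : Subring R) [QAlg A₁], (∀ a ∈ s, a ∈ A₁) →
        x ∈ Ch Γ A₁ q := by
    intro x hx
    induction hx using AddSubgroup.closure_induction with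
    | mem x hx =>
      obtain ⟨⟨e, he⟩, hx⟩ := hx
      obtain ⟨t, ht⟩ := he.fg
      refine ⟨t.biUnion fun γ => (x γ).coeffs, fun a ha => ?_, fun A₁ _ hA₁ => ?_⟩
      · obtain ⟨γ, -, ha⟩ := Finset.mem_biUnion.1 ha
        obtain ⟨n, -, rfl⟩ := mem_coeffs_iff.1 ha
        exact hx γ n
      · refine eff_mem_Ch he fun γ => ?_
        refine (mem_range_subtype_Chn A₁ (x γ)).1
          (ht (MvPolynomial.map (σ := Fin q) A₁.subtype).range (fun γ' hγ' => ?_) γ)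
        refine (mem_range_subtype_Chn A₁ (x γ')).2 fun m => ?_
        by_cases hm : coeff m (x γ') = 0
        · rw [hm]; exact A₁.zero_mem
        · exact hA₁ _ (Finset.mem_biUnion.2 ⟨γ', hγ', coeff_mem_coeffs m hm⟩)
    | zero => exact ⟨∅, by simp, fun A₁ _ _ => zero_mem _⟩
    | add x y _ _ hx hy =>
      obtain ⟨s, hs, hx⟩ := hx
      obtain ⟨t, ht, hy⟩ := hy
      refine ⟨s ∪ t, fun a ha => ?_, fun A₁ _ hA₁ => add_mem
        (hx A₁ fun a ha => hA₁ a (Finset.mem_union_left _ ha))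
        (hy A₁ fun a ha => hA₁ a (Finset.mem_union_right _ ha))⟩
      rcases Finset.mem_union.1 ha with ha | ha
      · exact hs a ha
      · exact ht a ha
    | neg x _ hx =>
      obtain ⟨s, hs, hx⟩ := hx
      exact ⟨s, hs, fun A₁ _ hA₁ => neg_mem (hx A₁ hA₁)⟩
  obtain ⟨s, hs, hτ⟩ := key _ h
  exact ⟨s, hs, fun A₁ _ hA₁ => mem_Ch_of_nsmul hN (hτ A₁ hA₁)⟩

theorem ChD_le (d : ℕ) : ChD Γ R q d ≤ Ch Γ (⊤ : Subring R) q := by
  refine satClosure_mono ?_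
  rintro τ ⟨e, -, he⟩
  exact ⟨⟨e, he⟩, fun γ m => Subring.mem_top _⟩

theorem act_mem_ChD [IsDomain R] [QAlg R] {a b d : ℕ} (f : Fin (a + 1) → Fin (b + 1))
    {τ : Xq Γ R b} (h : τ ∈ ChD Γ R b d) : act R f τ ∈ ChD Γ R a d := by
  refine satClosure_map (act R f) ?_ h
  rintro x ⟨e, he, hx⟩
  exact subset_satClosure ⟨e, he, hx.map (Cy.smR R f)⟩

theorem pushR_mem_ChD [QAlg R] [IsDomain R'] (f : R →+* R') {d : ℕ} {τ : Xq Γ R q}
    (h : τ ∈ ChD Γ R q d) : pushR f q τ ∈ ChD Γ R' q d := by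
  refine satClosure_map (pushR f q) ?_ h
  rintro x ⟨e, he, hx⟩
  refine subset_satClosure ⟨e, he, ?_⟩
  have h2 : pushR f q x = fun γ => MvPolynomial.map f (x γ) :=
    funext fun γ => pushR_apply f q x γ
  rw [h2]
  exact hx.map (MvPolynomial.map f)

theorem red_mem_ChD {d : ℕ} {τ : Xq G2 R q} (h : τ ∈ ChD G2 R q d) : red τ ∈ ChD G2 R q d := by
  rw [red_eq_Chn]
  exact add_mem (sub_mem (sub_mem h (comp_mem_ChD_Chn _ h)) (comp_mem_ChD_Chn _ h))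
    (comp_mem_ChD_Chn _ h)

theorem red_mem_CR {τ : Xq G2 R q} (h : τ ∈ Ch G2 A q) : red τ ∈ CR A q := by
  refine mem_CR.2 ⟨?_, red_red τ⟩
  rw [red_eq_Chn]
  exact add_mem (sub_mem (sub_mem h (comp_mem_Ch _ h)) (comp_mem_Ch _ h))
    (comp_mem_Ch _ h)

theorem CR_mono {A₁ A₂ : Subring R} (h : A₁ ≤ A₂) : CR A₁ q ≤ CR A₂ q := by
  exact inf_le_inf_right _ (Ch_mono h)

theorem dX_mem_CR [IsDomain R] [QAlg R] {τ : Xq G2 R (q + 1)} (h : τ ∈ CR A (q + 1)) :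
    dX R q τ ∈ CR A q := by
  exact mem_CR.2 ⟨dX_mem_Ch (mem_CR.1 h).1, (mem_CR.1 h).2.dX⟩

theorem push_mem_CR_of_homOn [QAlg A] [IsDomain R'] {l : R →+ R'} (hl : HomOn l (A : Set R))
    (hA : ∀ a ∈ A, l a ∈ A') {τ : Xq G2 R q} (h : τ ∈ CR A q) : push l q τ ∈ CR A' q := by
  exact mem_CR.2 ⟨push_mem_of_homOn hl hA (mem_CR.1 h).1, (mem_CR.1 h).2.push l⟩

theorem qsmul_mem_CR {Ω : Type u} [Field Ω] [CharZero Ω] {A : Subring Ω} (c : ℚ)
    {τ : Xq G2 Ω q} (h : τ ∈ CR A q) : c • τ ∈ CR A q := by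
  exact mem_CR.2 ⟨qsmul_mem_Ch c (mem_CR.1 h).1,
    (mem_CR.1 h).2.comp (fun p => c • p) (smul_zero c)⟩

section Bd

variable {u u' : Xq Γ R q}

theorem Bd.zero : Bd A (0 : Xq Γ R q) := by
  exact ⟨0, zero_mem _, map_zero _⟩

theorem Bd.add (h : Bd A u) (h' : Bd A u') : Bd A (u + u') := by
  obtain ⟨y, hy, rfl⟩ := h
  obtain ⟨y', hy', rfl⟩ := h'
  exact ⟨y + y', add_mem hy hy', map_add _ _ _⟩

theorem Bd.neg (h : Bd A u) : Bd A (-u) := by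
  obtain ⟨y, hy, rfl⟩ := h
  exact ⟨-y, neg_mem hy, map_neg _ _⟩

theorem Bd.sub (h : Bd A u) (h' : Bd A u') : Bd A (u - u') := by
  rw [sub_eq_add_neg]
  exact h.add h'.neg

theorem Bd.zsmul (h : Bd A u) (z : ℤ) : Bd A (z • u) := by
  obtain ⟨y, hy, rfl⟩ := h
  exact ⟨z • y, zsmul_mem hy z, map_zsmul _ _ _⟩

theorem Bd.sum {ι : Type*} (s : Finset ι) (x : ι → Xq Γ R q) (h : ∀ i ∈ s, Bd A (x i)) :
    Bd A (∑ i ∈ s, x i) := by
  exact Finset.sum_induction x (Bd A) (fun _ _ h h' => h.add h') Bd.zero h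

theorem Bd.mono {A₁ : Subring R} (h : Bd A u) (hA : A ≤ A₁) : Bd A₁ u := by
  obtain ⟨y, hy, rfl⟩ := h
  exact ⟨y, Ch_mono hA hy, rfl⟩

theorem Bd.of_nsmul [QAlg R] {N : ℕ} (hN : N ≠ 0) (h : Bd A (N • u)) : Bd A u := by
  obtain ⟨y, hy, h⟩ := h
  obtain ⟨y', hy', rfl⟩ := exists_div_mem_Ch hN hy
  refine ⟨y', hy', xq_nsmul_injective hN ?_⟩
  rw [← h, map_nsmul]

theorem Bd.cyc (h : Bd A u) : Cyc q u := by
  obtain ⟨y, -, rfl⟩ := h
  exact cyc_dX q y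

theorem Bd.mem [IsDomain R] [QAlg R] (h : Bd A u) : u ∈ Ch Γ A q := by
  obtain ⟨y, hy, rfl⟩ := h
  exact dX_mem_Ch hy

theorem Bd.push_rEff [QAlg R] (h : Bd A u) {d : ℕ} {l : R →+ R'} (hl : REff d l)
    (hA : ∀ a ∈ A, l a ∈ A') : Bd A' (push l q u) := by
  obtain ⟨y, hy, rfl⟩ := h
  exact ⟨push l (q + 1) y, push_mem_of_rEff hl hA hy, (push_dX l q y).symm⟩

theorem Bd.pushR [QAlg R] [IsDomain R'] (h : Bd A u) (f : R →+* R') (hA : ∀ a ∈ A, f a ∈ A') :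
    Bd A' (pushR f q u) := by
  exact h.push_rEff (REff.ringHom f) hA

theorem Bd.push_homOn [QAlg A] [IsDomain R'] (h : Bd A u) {l : R →+ R'}
    (hl : HomOn l (A : Set R)) (hA : ∀ a ∈ A, l a ∈ A') : Bd A' (push l q u) := by
  obtain ⟨y, hy, rfl⟩ := h
  exact ⟨push l (q + 1) y, push_mem_of_homOn hl hA hy, (push_dX l q y).symm⟩

theorem Bd.of_pushR (f : R →+* R') (hf : Function.Injective f) (hA : A' ≤ f.range) [QAlg A']
    (h : Bd A' (Dg.pushR f q u)) : Bd (A'.comap f) u := by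
  obtain ⟨y, hy, h⟩ := h
  obtain ⟨y', hy', rfl⟩ := exists_pushR_eq f hf hA hy
  refine ⟨y', hy', push_injective (l := f.toAddMonoidHom) hf q ?_⟩
  rw [push_dX]
  exact h

theorem Bd.comp {Γ' : Type} [AddCommGroup Γ'] (h : Bd A u) (f : Γ' →+ Γ) :
    Bd A (fun γ => u (f γ) : Xq Γ' R q) := by
  obtain ⟨y, hy, rfl⟩ := h
  exact ⟨fun γ => y (f γ), comp_mem_Ch f hy, dX_comp f q y⟩

theorem Bd.mul_char (h : Bd A u) (χ : AddChar Γ R) (hχ : ∀ γ, χ γ ∈ A) :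
    Bd A (fun γ => C (χ γ) * u γ : Xq Γ R q) := by
  obtain ⟨y, hy, rfl⟩ := h
  exact ⟨fun γ => C (χ γ) * y γ, mul_char_mem_Ch χ hχ hy, dX_mul (fun γ => χ γ) q y⟩

theorem Bd.exists_CR {u : Xq G2 R q} (h : Bd A u) (hu : Red u) :
    ∃ y ∈ CR A (q + 1), dX R q y = u := by
  obtain ⟨y, hy, rfl⟩ := h
  exact ⟨red y, red_mem_CR hy, by rw [dX_red, hu.red_eq]⟩

theorem Bd.red {u : Xq G2 R q} (h : Bd A u) : Bd A (red u : Xq G2 R q) := by
  obtain ⟨y, hy, rfl⟩ := h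
  exact ⟨Dg.red y, (mem_CR.1 (red_mem_CR hy)).1, dX_red q y⟩

theorem bd_cst [IsDomain R] [QAlg R] {τ : Γ → R} (h : τ ∈ CorrIn Γ (A : Set R))
    (hc : dX R q (cst (q + 1) τ) = 0) : Bd A (cst (q + 1) τ) := by
  rw [dX_cst] at hc
  rcases eps_cases q with h0 | h0
  · refine ⟨cst (q + 2) τ, cst_mem_Ch h _, ?_⟩
    rw [dX_cst, eps_succ, h0, sub_zero, one_smul]
  · rw [h0, one_smul] at hc
    have h1 : τ = 0 := cst_injective q (by rw [hc, map_zero])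
    rw [h1, map_zero]
    exact Bd.zero

end Bd

section End

variable {F Ω : Type u} [Field F] [Field Ω] [Algebra F Ω]

theorem push_end_mul (θ θ' : Module.End F Ω) (τ : Xq Γ Ω q) :
    push (θ * θ').toAddMonoidHom q τ = push θ.toAddMonoidHom q (push θ'.toAddMonoidHom q τ) := by
  rw [push_push]
  rfl

theorem push_end_one (τ : Xq Γ Ω q) : push (1 : Module.End F Ω).toAddMonoidHom q τ = τ := by
  exact push_eq_self fun _ _ => rfl

theorem push_end_bot [CharZero F] {θ : Module.End F Ω} (h1 : θ 1 = 1) {τ : Xq Γ Ω q}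
    (h : τ ∈ Ch Γ (⊥ : Subalgebra F Ω).toSubring q) : push θ.toAddMonoidHom q τ = τ := by
  refine push_eq_self_of_mem (fun a ha => ?_) h
  obtain ⟨c, rfl⟩ := Algebra.mem_bot.1 ha
  change θ (algebraMap F Ω c) = _
  rw [Algebra.algebraMap_eq_smul_one, map_smul, h1]

end End

end

end Pool.Agent.MP_e2821c_ag.Dg
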