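import Pool.Agent.Lib.MP_e2821c_ag.Dg.YVal

namespace Pool.Agent.MP_e2821c_ag.Dg

open MvPolynomial

universe u v w

noncomputable section

theorem exists_indep_Adapt {X T V : Type*} [Fintype X] [Finite T] [AddCommGroup V] [Module ℚ V]
    (v : T → X → V) (e : ℕ)
    (hv : ∀ t, e ≤ Module.finrank ℚ (Submodule.span ℚ (Set.range (v t)))) :
    ∃ lam : Fin e → X → ℤ, ∀ t, LinearIndependent ℚ fun l => ∑ x, (lam l x : ℚ) • v t x := by
  induction e with
  | zero => exact ⟨Fin.elim0, fun t => linearIndependent_empty_type⟩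
  | succ e ih =>
    obtain ⟨lam, hlam⟩ := ih fun t => (Nat.le_succ e).trans (hv t)
    obtain ⟨c, hc⟩ := Submodule.exists_forall_notMem_of_forall_ne_top
      (fun t => (Submodule.span ℚ (Set.range fun l => ∑ x, (lam l x : ℚ) • v t x)).comap
        (Fintype.linearCombination ℚ (v t))) fun t ht => by
      have h1 : Submodule.span ℚ (Set.range (v t)) ≤
          Submodule.span ℚ (Set.range fun l => ∑ x, (lam l x : ℚ) • v t x) := by
        rw [← Fintype.range_linearCombination]
        rintro _ ⟨c, rfl⟩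
        exact (ht ▸ Submodule.mem_top : c ∈ Submodule.comap _ _)
      have : Module.Finite ℚ (Submodule.span ℚ
          (Set.range fun l => ∑ x, (lam l x : ℚ) • v t x)) :=
        Module.Finite.span_of_finite ℚ (Set.finite_range _)
      have h2 := Submodule.finrank_mono h1
      rw [finrank_span_eq_card (hlam t), Fintype.card_fin] at h2
      have := hv t
      omega
    obtain ⟨d, hd⟩ := IsLocalization.exist_integer_multiples_of_finite (nonZeroDivisors ℤ) c
    choose k hk using hd
    have hd0 : ((d : ℤ) : ℚ) ≠ 0 := by exact_mod_cast nonZeroDivisors.coe_ne_zero d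
    refine ⟨Fin.cons k lam, fun t => ?_⟩
    have h1 : ∑ x, (k x : ℚ) • v t x = ((d : ℤ) : ℚ) • Fintype.linearCombination ℚ (v t) c := by
      rw [Fintype.linearCombination_apply, Finset.smul_sum]
      refine Finset.sum_congr rfl fun x _ => ?_
      have h2 := hk x
      rw [eq_intCast, zsmul_eq_mul] at h2
      rw [h2, smul_smul]
    have h3 := (hlam t).finCons (x := ∑ x, (k x : ℚ) • v t x) fun h => hc t (by
      rw [h1, Submodule.smul_mem_iff _ hd0] at h
      exact h)
    have h4 : (fun l => ∑ x, ((Fin.cons k lam : Fin (e + 1) → X → ℤ) l x : ℚ) • v t x) =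
        Fin.cons (∑ x, (k x : ℚ) • v t x) fun l => ∑ x, (lam l x : ℚ) • v t x := by
      funext l
      exact Fin.cases rfl (fun l => rfl) l
    rw [h4]
    exact h3

theorem exists_generic_sublattice {X T : Type*} [Fintype X] [Finite T] {N e : ℕ}
    (v : T → X → Lat N)
    (hv : ∀ t, e ≤ Module.finrank ℚ (Submodule.span ℚ (Set.range fun x => toV (v t x)))) :
    ∃ lam : Fin e → X → ℤ, ∀ t (a : Fin e → ℤ), a ≠ 0 →
      ∑ l, ∑ x, (a l * lam l x) • v t x ≠ 0 := by
  obtain ⟨lam, hlam⟩ := exists_indep_Adapt (fun t x => toV (v t x)) e hv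
  refine ⟨lam, fun t a ha h => ha ?_⟩
  have h1 := Fintype.linearIndependent_iff.1 (hlam t) (fun l => (a l : ℚ)) (by
    have h2 := congrArg toV h
    simp only [map_sum, map_zsmul, map_zero] at h2
    rw [← h2]
    refine Finset.sum_congr rfl fun l _ => ?_
    rw [Finset.smul_sum]
    refine Finset.sum_congr rfl fun x _ => ?_
    rw [smul_smul, ← Int.cast_mul, Int.cast_smul_eq_zsmul])
  funext l
  exact_mod_cast h1 l

/-- A sum of terms with pairwise distinct values has the value of one of the terms. -/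
theorem val_sum_Adapt {K Γ κ : Type*} [Field K] [LinearOrderedCommGroupWithZero Γ]
    (v : Valuation K Γ) {s : Finset κ} (hs : s.Nonempty) (f : κ → K)
    (h : Set.InjOn (fun i => v (f i)) s) : ∃ i ∈ s, v (∑ j ∈ s, f j) = v (f i) := by
  classical
  obtain ⟨i, hi, hmax⟩ := s.exists_max_image (fun i => v (f i)) hs
  refine ⟨i, hi, v.map_sum_eq_of_lt hi fun j hj => ?_⟩
  rw [Finset.mem_sdiff, Finset.mem_singleton] at hj
  exact lt_of_le_of_ne (hmax j hj.1) fun he => hj.2 (h hj.1 hi he)

section Val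

variable {F : Type u} [Field F] {N : ℕ}

theorem toV_injective_Adapt : Function.Injective (toV : Lat N → Vec N) := by
  intro a b h
  funext i
  have := congrFun h i
  rw [toV_apply, toV_apply] at this
  exact_mod_cast this

theorem mono_zsmul_Adapt (k : ℤ) (m : Lat N) : mono F (k • m) = mono F m ^ k := by
  induction k using Int.induction_on with
  | zero => simp [mono_zero]
  | succ k ih => rw [add_smul, one_smul, mono_add, ih, zpow_add_one₀ (mono_ne_zero m)]
  | pred k ih =>
    rw [sub_smul, one_smul, sub_eq_add_neg, mono_add, ih, mono_neg,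
      zpow_sub_one₀ (mono_ne_zero m)]

theorem mono_sum_Adapt {κ : Type*} (s : Finset κ) (m : κ → Lat N) :
    mono F (∑ i ∈ s, m i) = ∏ i ∈ s, mono F (m i) := by
  classical
  induction s using Finset.induction_on with
  | empty => simp [mono_zero]
  | insert a s ha ih => rw [Finset.sum_insert ha, Finset.prod_insert ha, mono_add, ih]

theorem val_mono_lt_Adapt {w : Fn N} {m : Lat N} (h : 0 < w (toV m)) :
    (VV F w).valuation (mono F m) < 1 := by
  rw [← ValuationSubring.mem_nonunits_iff,
    mem_nonunits_div (P := AddMonoidAlgebra.single m 1) (Q := 1) one_ne_zero (by simp [mono])]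
  intro m' hm'
  have h1 : m' = m := by
    simpa using Finsupp.support_single_subset hm'
  refine ⟨0, by simp, ?_⟩
  rwa [h1, map_zero, map_zero]

theorem val_mono_or_Adapt {w : Fn N} (hw : Function.Injective w) {m : Lat N} (hm : m ≠ 0) :
    (VV F w).valuation (mono F m) < 1 ∨ (VV F w).valuation (mono F (-m)) < 1 := by
  have h1 : w (toV m) ≠ 0 := fun h => hm (toV_injective_Adapt (hw (by simpa using h)))
  rcases lt_or_gt_of_ne h1 with h | h
  · exact Or.inr (val_mono_lt_Adapt (by simpa using h))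
  · exact Or.inl (val_mono_lt_Adapt h)

theorem val_mono_inj_Adapt {w : Fn N} (hw : Function.Injective w) {m m' : Lat N}
    (h : (VV F w).valuation (mono F m) = (VV F w).valuation (mono F m')) : m = m' := by
  by_contra hne
  have h0 : (VV F w).valuation (mono F m') ≠ 0 := by simpa using mono_ne_zero m'
  have h1 : (VV F w).valuation (mono F (m - m')) = 1 := by
    rw [sub_eq_add_neg, mono_add, mono_neg, map_mul, map_inv₀, h, mul_inv_cancel₀ h0]
  rcases val_mono_or_Adapt (F := F) hw (sub_ne_zero.2 hne) with h2 | h2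
  · exact h2.ne h1
  · rw [mono_neg, map_inv₀, h1, inv_one] at h2
    exact h2.ne rfl

theorem val_const_Adapt (w : Fn N) {c : F} (hc : c ≠ 0) :
    (VV F w).valuation (algebraMap F (OmN F N) c) = 1 := by
  have h1 := ((VV F w).valuation_le_one_iff _).2 (algebraMap_mem_VV F w c)
  have h2 := ((VV F w).valuation_le_one_iff _).2 (algebraMap_mem_VV F w c⁻¹)
  have h0 : (VV F w).valuation (algebraMap F (OmN F N) c) ≠ 0 := by simpa using hc
  rw [map_inv₀, map_inv₀, inv_le_one₀ (zero_lt_iff.2 h0)] at h2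
  exact le_antisymm h1 h2

theorem val_iL_Adapt {w : Fn N} (hw : Function.Injective w) {P : LP F N} (hP : P ≠ 0) :
    ∃ m ∈ P.coeff.support, (VV F w).valuation (iL F N P) = (VV F w).valuation (mono F m) := by
  have h1 : ∀ m ∈ P.coeff.support, (VV F w).valuation
      (iL F N (AddMonoidAlgebra.single m (P.coeff m))) = (VV F w).valuation (mono F m) := by
    intro m hm
    have h2 : iL F N (AddMonoidAlgebra.single m (P.coeff m)) =
        algebraMap F (OmN F N) (P.coeff m) * mono F m := by
      rw [mono, IsScalarTower.algebraMap_apply F (LP F N) (OmN F N), ← map_mul]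
      congr 1
      rw [AddMonoidAlgebra.coe_algebraMap, Function.comp_apply,
        AddMonoidAlgebra.single_mul_single]
      simp
    rw [h2, map_mul, val_const_Adapt w (Finsupp.mem_support_iff.1 hm), one_mul]
  have hs : P.coeff.support.Nonempty := by
    rw [Finsupp.support_nonempty_iff]
    intro h
    exact hP (by ext m; simp [h])
  obtain ⟨m, hm, h2⟩ := val_sum_Adapt (VV F w).valuation hs
    (fun m => iL F N (AddMonoidAlgebra.single m (P.coeff m))) fun a ha b hb h =>
      val_mono_inj_Adapt hw (by rw [← h1 a ha, ← h1 b hb]; exact h)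
  refine ⟨m, hm, ?_⟩
  rw [← h1 m hm, ← h2, ← map_sum]
  congr 2
  exact (AddMonoidAlgebra.sum_coeff_single P).symm

/-- Leading exponents lie in a finite set that does not depend on the valuation. -/
theorem exists_lead_Adapt {y : OmN F N} (hy : y ≠ 0) : ∃ S : Finset (Lat N),
    ∀ w : Fn N, Function.Injective w →
      ∃ m ∈ S, (VV F w).valuation y = (VV F w).valuation (mono F m) := by
  classical
  obtain ⟨P, Q, hQ, rfl⟩ := IsFractionRing.div_surjective (LP F N) y
  have hP : P ≠ 0 := by
    rintro rfl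
    simp at hy
  refine ⟨(P.coeff.support ×ˢ Q.coeff.support).image fun x => x.1 - x.2, fun w hw => ?_⟩
  obtain ⟨a, ha, h1⟩ := val_iL_Adapt hw hP
  obtain ⟨b, hb, h2⟩ := val_iL_Adapt hw (nonZeroDivisors.ne_zero hQ)
  refine ⟨a - b, Finset.mem_image.2 ⟨(a, b), Finset.mem_product.2 ⟨ha, hb⟩, rfl⟩, ?_⟩
  rw [map_div₀, sub_eq_add_neg, mono_add, mono_neg, map_mul, map_inv₀, div_eq_mul_inv]
  exact congrArg₂ (fun x y => x * y⁻¹) h1 h2

variable {L : Type u} [Field L] [Algebra F L] {e : ℕ}

/-- Too many coordinates are algebraically dependent over the image of `L`. -/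
theorem exists_rel_Adapt {t : Fin e → L} (ht : AlgebraicIndependent F t) (θ : L →ₐ[F] OmN F N)
    (J : Finset (Fin N)) : ∃ p : MvPolynomial J L, N < J.card + e →
      p ≠ 0 ∧ eval₂ (θ : L →+* OmN F N) (fun j : J => mono F (Pi.single j.1 1)) p = 0 := by
  by_cases hJ : N < J.card + e
  swap
  · exact ⟨0, fun h => absurd h hJ⟩
  let _ : Algebra L (OmN F N) := (θ : L →+* OmN F N).toAlgebra
  have : IsScalarTower F L (OmN F N) := .of_algebraMap_eq fun x => (θ.commutes x).symm
  by_contra hc
  push Not at hc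
  have h1 : AlgebraicIndependent L fun j : J => mono F (Pi.single j.1 1 : Lat N) :=
    algebraicIndependent_iff.2 fun p hp => by_contra fun h0 => (hc p).2 h0 hp
  have h2 := (ht.sumElim_comp h1).lift_cardinalMk_le_trdeg
  have h3 : Algebra.IsAlgebraic (Algebra.adjoin F
      (Set.range fun i : Fin N => mono F (Pi.single i 1 : Lat N))) (OmN F N) := by
    rw [← IntermediateField.isAlgebraic_adjoin_iff_top, adjoin_mono_eq_top]
    exact ⟨fun x => isAlgebraic_algebraMap (⟨x, trivial⟩ : (⊤ : IntermediateField F (OmN F N)))⟩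
  have h4 := (algebraicIndependent_mono.isTranscendenceBasis_iff_isAlgebraic.2
    h3).lift_cardinalMk_eq_trdeg
  rw [← h4] at h2
  simp only [Cardinal.mk_fintype, Fintype.card_sum, Fintype.card_coe, Fintype.card_fin,
    Cardinal.lift_natCast, Nat.cast_le] at h2
  omega

/-- The leading exponents of the coefficients of the relations have large rank. -/
theorem rank_Adapt (θ : L →ₐ[F] OmN F N) (p : ∀ J : Finset (Fin N), MvPolynomial J L)
    (hp : ∀ J : Finset (Fin N), N < J.card + e → p J ≠ 0 ∧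
      eval₂ (θ : L →+* OmN F N) (fun j : J => mono F (Pi.single j.1 1)) (p J) = 0)
    {w : Fn N} (hw : Function.Injective w) (U : Sb N)
    (hU : ∀ J, ∀ β ∈ (p J).support, ∃ m : Lat N, toV m ∈ U ∧
      (VV F w).valuation (θ ((p J).coeff β)) = (VV F w).valuation (mono F m)) :
    e ≤ Module.finrank ℚ U := by
  classical
  by_contra hlt
  obtain ⟨b, -, -, hb1, hb2⟩ := exists_linearIndepOn_extension
    (linearIndepOn_empty ℚ fun j : Fin N => U.mkQ (toV (Pi.single j 1))) (Set.empty_subset Set.univ)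
  have hb3 : LinearIndependent ℚ fun j : b.toFinset => U.mkQ (toV (Pi.single j.1 1)) :=
    hb2.comp (fun j : b.toFinset => ⟨j.1, Set.mem_toFinset.1 j.2⟩)
      fun _ _ h => Subtype.ext (congrArg (fun x : b => x.1) h)
  have hb4 : Submodule.span ℚ
      (Set.range fun j : b.toFinset => U.mkQ (toV (Pi.single j.1 1))) = ⊤ := by
    refine eq_top_iff.2 fun x _ => ?_
    obtain ⟨x, rfl⟩ := U.mkQ_surjective x
    rw [pi_eq_sum_univ' x, map_sum]
    refine Submodule.sum_mem _ fun j _ => ?_
    rw [map_smul]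
    refine Submodule.smul_mem _ _ (Submodule.span_mono ?_ (?_ : _ ∈ Submodule.span ℚ
      ((fun j : Fin N => U.mkQ (toV (Pi.single j 1))) '' b)))
    · rintro _ ⟨j, hj, rfl⟩
      exact ⟨⟨j, Set.mem_toFinset.2 hj⟩, rfl⟩
    · refine hb1 ⟨j, trivial, congrArg U.mkQ ?_⟩
      funext i
      simp [Pi.single_apply]
  have h1 := finrank_span_eq_card hb3
  have h2 := U.finrank_quotient_add_finrank
  rw [hb4, finrank_top, Fintype.card_coe] at h1
  rw [h1, Module.finrank_fintype_fun_eq_card, Fintype.card_fin] at h2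
  obtain ⟨h3, h4⟩ := hp b.toFinset (by omega)
  choose! m hm1 hm2 using hU b.toFinset
  have h5 : ∀ β ∈ (p b.toFinset).support, (VV F w).valuation
      ((θ : L →+* OmN F N) ((p b.toFinset).coeff β) *
        ∏ j : b.toFinset, mono F (Pi.single j.1 1 : Lat N) ^ β j) =
      (VV F w).valuation (mono F (m β + ∑ j : b.toFinset, (β j : ℤ) • Pi.single j.1 1)) := by
    intro β hβ
    rw [map_mul, mono_add, map_mul, ← hm2 β hβ, mono_sum_Adapt]
    simp only [mono_zsmul_Adapt, zpow_natCast]
    rfl
  obtain ⟨β, hβ, h6⟩ := val_sum_Adapt (VV F w).valuation (support_nonempty.2 h3)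
    (fun β => (θ : L →+* OmN F N) ((p b.toFinset).coeff β) *
      ∏ j : b.toFinset, mono F (Pi.single j.1 1 : Lat N) ^ β j) fun β hβ β' hβ' h => by
      have h7 := congrArg (fun x => U.mkQ (toV x))
        (val_mono_inj_Adapt hw ((h5 β hβ).symm.trans (h.trans (h5 β' hβ'))))
      have h8 : ∀ β ∈ (p b.toFinset).support, U.mkQ (toV (m β)) = 0 := fun β hβ =>
        (Submodule.Quotient.mk_eq_zero U).2 (hm1 β hβ)
      simp only [map_add, map_sum, map_zsmul, h8 β hβ, h8 β' hβ', zero_add] at h7
      have h9 := Fintype.linearIndependent_iff.1 hb3 (fun j => (β j : ℚ) - β' j) (by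
        simp only [sub_smul, Finset.sum_sub_distrib, Nat.cast_smul_eq_nsmul, sub_eq_zero]
        simpa only [natCast_zsmul] using h7)
      ext j
      exact_mod_cast sub_eq_zero.1 (h9 j)
  rw [← eval₂_eq', h4, h5 β hβ, map_zero] at h6
  exact mono_ne_zero _ (by simpa using h6.symm)

theorem chi_sub_Adapt (b : Fin e → Lˣ) (a a' : Fin e → ℤ) :
    chi b (a - a') * chi b a' = chi b a := by
  rw [chi, chi, chi, ← Finset.prod_mul_distrib]
  exact Finset.prod_congr rfl fun l _ => by rw [← zpow_add, Pi.sub_apply, sub_add_cancel]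

theorem indep_Adapt (θ : L →ₐ[F] OmN F N) (w : Fn N) (b : Fin e → Lˣ)
    (h : ∀ a : Fin e → ℤ, a ≠ 0 →
      θ (chi b a : L) ∈ (VV F w).nonunits ∨ θ (chi b (-a) : L) ∈ (VV F w).nonunits) :
    AlgebraicIndependent F fun l => (b l : L) := by
  refine algebraicIndependent_iff.2 fun p hp => by_contra fun h0 => ?_
  have h1 : ∀ β ∈ p.support, (VV F w).valuation
      (θ (algebraMap F L (p.coeff β) * ∏ l, (b l : L) ^ β l)) =
      (VV F w).valuation (θ (chi b fun l => β l : Lˣ)) := by
    intro β hβ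
    rw [map_mul, map_mul, θ.commutes, val_const_Adapt w (mem_support_iff.1 hβ), one_mul]
    simp [chi]
  have h2 : ∀ a, (VV F w).valuation (θ (chi b a : L)) ≠ 0 := fun a => by simp
  have h3 : ∀ a a', (VV F w).valuation (θ (chi b a : L)) = (VV F w).valuation (θ (chi b a' : L)) →
      ¬ θ (chi b (a - a') : L) ∈ (VV F w).nonunits := by
    intro a a' he hm
    rw [← chi_sub_Adapt b a a', Units.val_mul, map_mul, map_mul] at he
    exact (ValuationSubring.mem_nonunits_iff _).1 hm |>.ne (mul_eq_right₀ (h2 a') |>.1 he)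
  obtain ⟨β, hβ, h4⟩ := val_sum_Adapt (VV F w).valuation (support_nonempty.2 h0)
    (fun β => θ (algebraMap F L (p.coeff β) * ∏ l, (b l : L) ^ β l)) fun β hβ β' hβ' he => by
      have h5 := (h1 β hβ).symm.trans (he.trans (h1 β' hβ'))
      by_contra hne
      rcases h ((fun l => (β l : ℤ)) - fun l => (β' l : ℤ)) (fun h6 => hne (by
        ext l
        have h7 : (β l : ℤ) = β' l := sub_eq_zero.1 (congrFun h6 l)
        exact_mod_cast h7)) with h6 | h6
      · exact h3 _ _ h5 h6
      · rw [neg_sub] at h6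
        exact h3 _ _ h5.symm h6
  rw [← map_sum, ← eval₂_eq', ← aeval_def, hp, h1 β hβ, map_zero, map_zero] at h4
  exact h2 _ h4.symm

end Val

theorem exists_adapted {F L : Type u} [Field F] [Field L] [Algebra F L] {N : ℕ}
    (hfg : ∃ s : Finset L, IntermediateField.adjoin F (s : Set L) = ⊤) {ι : Type u} [Finite ι]
    (θ : ι → L →ₐ[F] OmN F N) :
    ∃ (e : ℕ) (b : Fin e → Lˣ), IsTranscendenceBasis F (fun l => (b l : L)) ∧
      ∀ i (w : Fn N), Function.Injective w → ∀ a : Fin e → ℤ, a ≠ 0 →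
        θ i (chi b a : L) ∈ (VV F w).nonunits ∨ θ i (chi b (-a) : L) ∈ (VV F w).nonunits := by
  classical
  obtain ⟨s, hs⟩ := hfg
  have halg : Algebra.IsAlgebraic (Algebra.adjoin F (s : Set L)) L := by
    rw [← IntermediateField.isAlgebraic_adjoin_iff_top, hs]
    exact ⟨fun x => isAlgebraic_algebraMap (⟨x, trivial⟩ : (⊤ : IntermediateField F L))⟩
  obtain ⟨t0, ht0, ht1⟩ := exists_isTranscendenceBasis_subset (R := F) (s : Set L)
  have : Finite t0 := (s.finite_toSet.subset ht0).to_subtype
  obtain ⟨e, ⟨q⟩⟩ := Finite.exists_equiv_fin t0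
  have ht := ht1.comp_equiv q.symm
  rcases isEmpty_or_nonempty ι with hι | ⟨⟨i0⟩⟩
  · exact ⟨e, fun l => Units.mk0 _ (ht.1.ne_zero l), ht, fun i => isEmptyElim i⟩
  have := Fintype.ofFinite ι
  choose p hp using fun i => exists_rel_Adapt ht.1 (θ i)
  let X : Finset L := Finset.univ.biUnion fun z : ι × Finset (Fin N) => (p z.1 z.2).coeffs
  have hX : ∀ x : X, (x : L) ≠ 0 := fun x h => by
    obtain ⟨z, -, hz⟩ := Finset.mem_biUnion.1 x.2
    exact zero_notMem_coeffs _ (h ▸ hz)
  choose S hS using fun (i : ι) (x : X) => exists_lead_Adapt (y := θ i x) (by simpa using hX x)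
  let T := {z : ι × (X → Lat N) // (∀ x, z.2 x ∈ S z.1 x) ∧ ∃ w : Fn N, Function.Injective w ∧
    ∀ x : X, (VV F w).valuation (θ z.1 x) = (VV F w).valuation (mono F (z.2 x))}
  have hT : Finite T := by
    refine Set.Finite.to_subtype (Set.Finite.subset (Finset.finite_toSet (Finset.univ.biUnion
      fun i : ι => ({i} : Finset ι) ×ˢ Fintype.piFinset (S i))) fun z hz => ?_)
    exact Finset.mem_coe.2 (Finset.mem_biUnion.2 ⟨z.1, Finset.mem_univ _, Finset.mem_product.2
      ⟨Finset.mem_singleton_self _, Fintype.mem_piFinset.2 hz.1⟩⟩)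
  obtain ⟨lam, hlam⟩ := exists_generic_sublattice (e := e) (fun (z : T) x => z.1.2 x) fun z => by
    obtain ⟨w, hw, hz⟩ := z.2.2
    refine rank_Adapt (θ z.1.1) (p z.1.1) (hp z.1.1) hw _ fun J β hβ => ?_
    have h1 : (p z.1.1 J).coeff β ∈ X := Finset.mem_biUnion.2
      ⟨(z.1.1, J), Finset.mem_univ _, coeff_mem_coeffs β (mem_support_iff.1 hβ)⟩
    exact ⟨z.1.2 ⟨_, h1⟩, Submodule.subset_span ⟨_, rfl⟩, hz ⟨_, h1⟩⟩
  let b : Fin e → Lˣ := fun l => ∏ x : X, Units.mk0 (x : L) (hX x) ^ lam l x
  have hb : ∀ i (w : Fn N), Function.Injective w → ∀ a : Fin e → ℤ, a ≠ 0 →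
      θ i (chi b a : L) ∈ (VV F w).nonunits ∨ θ i (chi b (-a) : L) ∈ (VV F w).nonunits := by
    intro i w hw a ha
    choose f hf1 hf2 using fun x => hS i x w hw
    have h1 : ∀ a : Fin e → ℤ, (VV F w).valuation (θ i (chi b a : L)) =
        (VV F w).valuation (mono F (∑ l, ∑ x, (a l * lam l x) • f x)) := by
      intro a
      simp only [chi, b, mono_sum_Adapt, mono_zsmul_Adapt, Units.coe_prod,
        Units.val_zpow_eq_zpow_val, Units.val_mk0, map_prod, map_zpow₀, hf2, ← Finset.prod_zpow, ← zpow_mul, mul_comm]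
    have h2 := val_mono_or_Adapt (F := F) hw (hlam ⟨(i, f), hf1, w, hw, hf2⟩ a ha)
    rw [ValuationSubring.mem_nonunits_iff, ValuationSubring.mem_nonunits_iff, h1, h1]
    simpa only [Pi.neg_apply, neg_mul, neg_smul, Finset.sum_neg_distrib] using h2
  obtain ⟨w, hw, -⟩ := exists_injective_perturb (0 : Fn N) ∅
  exact ⟨e, b, (indep_Adapt (θ i0) w b (hb i0 w hw)).isTranscendenceBasis_of_lift_trdeg_le_of_finite
    ht.lift_cardinalMk_eq_trdeg.ge, hb⟩

end

end Pool.Agent.MP_e2821c_ag.Dg
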