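import Pool.Agent.Lib.MP_e2821c_ag.Dg.REff
import Pool.Agent.Lib.MP_e2821c_ag.Cy.Face

namespace Pool.Agent.MP_e2821c_ag.Dg

open MvPolynomial

universe u v w

noncomputable section

variable {R A : Type u} [CommRing R] [IsDomain R] [CommRing A] {g : R →+* A}

/-- The generic points of `V(P)`. -/
def homs (g : R →+* A) (P : Ideal A) : Set (A →+* Cy.Om R) :=
  {e | e.comp g = iOm R ∧ RingHom.ker e = P}

theorem iOm_injective (R : Type u) [CommRing R] [IsDomain R] : Function.Injective (iOm R) := by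
  rw [iOm, IsScalarTower.algebraMap_eq R (FractionRing R) (Cy.Om R)]
  exact (algebraMap (FractionRing R) (Cy.Om R)).injective.comp (IsFractionRing.injective R _)

theorem faithful_TrG (R : Type u) [CommRing R] [IsDomain R] : FaithfulSMul R (Cy.Om R) :=
  (faithfulSMul_iff_algebraMap_injective R _).2 (iOm_injective R)

open scoped nonZeroDivisors in
theorem homs_eq_TrG (P : ElemOf R A g) : ∃ (L : Type u) (_ : Field L)
    (_ : Algebra (FractionRing R) L) (_ : FiniteDimensional (FractionRing R) L)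
    (φ : (L →ₐ[FractionRing R] Cy.Om R) → (A →+* Cy.Om R)), Function.Injective φ ∧
      homs g P.1 = Set.range φ ∧ Module.finrank (FractionRing R) L = degree R A g P := by
  have : P.1.IsPrime := P.2.1
  let _ : Algebra R (A ⧸ P.1) := ((Ideal.Quotient.mk P.1).comp g).toAlgebra
  have : Module.Finite R (A ⧸ P.1) := P.2.2.1
  have : FaithfulSMul R (A ⧸ P.1) := by
    rw [faithfulSMul_iff_algebraMap_injective, RingHom.injective_iff_ker_eq_bot, ← P.2.2.2]
    ext r
    exact Ideal.Quotient.eq_zero_iff_mem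
  let K := FractionRing R
  let L := FractionRing (A ⧸ P.1)
  let _ : Algebra K L := FractionRing.liftAlgebra R L
  have : IsScalarTower R K L := FractionRing.isScalarTower_liftAlgebra R L
  have : FiniteDimensional K L := .of_isLocalization R (A ⧸ P.1) R⁰
  refine ⟨L, inferInstance, inferInstance, this, fun σ => ((σ : L →+* Cy.Om R).comp
    (algebraMap (A ⧸ P.1) L)).comp (Ideal.Quotient.mk P.1), fun σ τ h =>
    AlgHom.coe_ringHom_injective (IsLocalization.ringHom_ext (A ⧸ P.1)⁰
      (Ideal.Quotient.ringHom_ext h)), ?_, IsFractionRing.finrank_eq R K (A ⧸ P.1) L⟩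
  ext e
  constructor
  · rintro ⟨h1, h2⟩
    have h0 : ∀ a ∈ P.1, e a = 0 := fun a ha => by rwa [← h2] at ha
    have h4 : Function.Injective (Ideal.Quotient.lift P.1 e h0) := by
      rw [injective_iff_map_eq_zero]
      intro b hb
      obtain ⟨a, rfl⟩ := Ideal.Quotient.mk_surjective b
      rw [Ideal.Quotient.eq_zero_iff_mem, ← h2]
      exact hb
    have h3 : (IsFractionRing.lift h4 : L →+* Cy.Om R).comp (algebraMap K L) =
        algebraMap K (Cy.Om R) := by
      refine IsLocalization.ringHom_ext R⁰ (RingHom.ext fun r => ?_)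
      simp only [RingHom.comp_apply]
      rw [← IsScalarTower.algebraMap_apply, ← IsScalarTower.algebraMap_apply,
        IsScalarTower.algebraMap_apply R (A ⧸ P.1) L, IsFractionRing.lift_algebraMap]
      exact RingHom.congr_fun h1 r
    refine ⟨⟨IsFractionRing.lift h4, fun k => RingHom.congr_fun h3 k⟩, RingHom.ext fun b => ?_⟩
    change (IsFractionRing.lift h4 : L →+* Cy.Om R)
      (algebraMap (A ⧸ P.1) L (Ideal.Quotient.mk P.1 b)) = _
    rw [IsFractionRing.lift_algebraMap, Ideal.Quotient.lift_mk]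
  · rintro ⟨σ, rfl⟩
    refine ⟨RingHom.ext fun r => ?_, ?_⟩
    · change σ (algebraMap (A ⧸ P.1) L (algebraMap R (A ⧸ P.1) r)) = _
      rw [← IsScalarTower.algebraMap_apply, IsScalarTower.algebraMap_apply R K L, σ.commutes,
        ← IsScalarTower.algebraMap_apply]
    · have h1 : Function.Injective ((σ : L →+* Cy.Om R).comp (algebraMap (A ⧸ P.1) L)) :=
        (σ : L →+* Cy.Om R).injective.comp (IsFractionRing.injective (A ⧸ P.1) L)
      rw [← RingHom.comap_ker, (RingHom.injective_iff_ker_eq_bot _).1 h1]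
      exact Ideal.mk_ker

theorem homs_finite (P : ElemOf R A g) : (homs g P.1).Finite := by
  obtain ⟨L, _, _, _, φ, -, h, -⟩ := homs_eq_TrG P
  rw [h]
  exact Set.finite_range φ

theorem degree_pos (P : ElemOf R A g) : 0 < degree R A g P := by
  obtain ⟨L, _, _, _, φ, -, -, h⟩ := homs_eq_TrG P
  rw [← h]
  exact Module.finrank_pos

theorem homs_nonempty (P : ElemOf R A g) : (homs g P.1).Nonempty := by
  obtain ⟨L, _, _, _, φ, -, h, -⟩ := homs_eq_TrG P
  rw [h]
  exact ⟨_, IsAlgClosed.lift, rfl⟩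

theorem trF_eq_TrG {R A Ω : Type u} [CommRing R] [CommRing A] [Field Ω] [Algebra R A]
    [Algebra R Ω] (I : Ideal A) (y : A) :
    trF (algebraMap R A) (algebraMap R Ω) I y = Cy.trQ R A Ω I y := by
  change @Cy.trQ R A Ω _ _ _ (algebraMap R A).toAlgebra (algebraMap R Ω).toAlgebra I y = _
  rw [toAlgebra_algebraMap, toAlgebra_algebraMap]

theorem trG_eq_TrG {I : Ideal A} {y : A} {r : R} (h : iOm R r = trF g (iOm R) I y) :
    trG g I y = r :=
  iOm_injective R ((Classical.epsilon_spec
    (p := fun r => iOm R r = trF g (iOm R) I y) ⟨r, h⟩).trans h.symm)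

theorem trG_congr {I : Ideal A} {y y' : A} (h : y - y' ∈ I) : trG g I y = trG g I y' := by
  unfold trG trF Cy.trQ
  rw [Ideal.Quotient.eq.2 h]

theorem trG_comap {A' : Type u} [CommRing A'] (p : A' →+* A) (hp : Function.Surjective p)
    (g' : R →+* A') (I : Ideal A) (y : A') :
    trG g' (I.comap p) y = trG (p.comp g') I (p y) := by
  have h : trF g' (iOm R) (I.comap p) y = trF (p.comp g') (iOm R) I (p y) := by
    let _ := g'.toAlgebra
    let _ := (p.comp g').toAlgebra
    refine (trF_eq_TrG _ y).trans (Eq.trans ?_ (trF_eq_TrG I (p y)).symm)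
    let e : (A' ⧸ I.comap p) ≃ₐ[R] A ⧸ I := AlgEquiv.ofBijective
      ⟨Ideal.quotientMap I p le_rfl, fun _ => rfl⟩
      ⟨Ideal.quotientMap_injective, Ideal.quotientMap_surjective (H := le_rfl) hp⟩
    exact (Algebra.trace_eq_of_algEquiv
      (Algebra.TensorProduct.congr (AlgEquiv.refl (R := Cy.Om R) (A₁ := Cy.Om R)) e) _).symm
  unfold trG
  rw [h]

theorem isElem_comap {A' : Type u} [CommRing A'] (p : A' →+* A) (hp : Function.Surjective p)
    (g' : R →+* A') (I : Ideal A) :
    IsElem R A' g' (I.comap p) ↔ IsElem R A (p.comp g') I := by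
  let e : (A' ⧸ I.comap p) ≃+* A ⧸ I := RingEquiv.ofBijective (Ideal.quotientMap I p le_rfl)
    ⟨Ideal.quotientMap_injective, Ideal.quotientMap_surjective hp⟩
  refine and_congr ⟨fun h => ?_, fun h => Ideal.comap_isPrime p I⟩
    (and_congr ⟨fun h => ?_, fun h => ?_⟩ (by rw [Ideal.comap_comap]))
  · exact (Ideal.Quotient.isDomain_iff_prime I).1 e.symm.toMulEquiv.isDomain
  · have h1 := RingHom.Finite.comp (RingHom.Finite.of_surjective e.toRingHom e.surjective) h
    exact h1
  · have h1 := RingHom.Finite.comp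
      (RingHom.Finite.of_surjective e.symm.toRingHom e.symm.surjective) h
    unfold FiniteOver
    convert h1 using 1
    exact RingHom.ext fun r => (e.symm_apply_apply _).symm

theorem trG_ker (s : A →+* R) (hs : s.comp g = RingHom.id R) (y : A) :
    trG g (RingHom.ker s) y = s y := by
  have h := trG_comap s (fun r => ⟨g r, RingHom.congr_fun hs r⟩) g ⊥ y
  rw [hs] at h
  refine h.trans (trG_eq_TrG (Eq.trans ?_ (trF_eq_TrG (R := R) (A := R) ⊥ (s y)).symm))
  have h1 := Algebra.trace_eq_of_algEquiv ((Algebra.TensorProduct.congr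
    (AlgEquiv.refl (R := Cy.Om R) (A₁ := Cy.Om R)) (AlgEquiv.quotientBot R R)).trans
      (Algebra.TensorProduct.rid R (Cy.Om R) (Cy.Om R)))
    (TensorProduct.tmul R 1 (Ideal.Quotient.mk ⊥ (s y)))
  refine Eq.trans ?_ h1
  simp [Algebra.smul_def]

variable [QAlg R]

theorem ncard_homs (P : ElemOf R A g) : (homs g P.1).ncard = degree R A g P := by
  obtain ⟨L, _, _, _, φ, h1, h2, h3⟩ := homs_eq_TrG P
  have : QAlg (FractionRing R) := QAlg.of_algebra R _
  have := QAlg.charZero (FractionRing R)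
  rw [h2, ← h3, Set.ncard_range_of_injective h1, Nat.card_eq_fintype_card, AlgHom.card]

theorem trF_elem (P : ElemOf R A g) (y : A) :
    trF g (iOm R) P.1 y = ∑ᶠ e ∈ homs g P.1, e y := by
  let _ := g.toAlgebra
  have : QAlg (Cy.Om R) := QAlg.of_algebra R _
  have := QAlg.charZero (Cy.Om R)
  have := faithful_TrG R
  exact (trF_eq_TrG P.1 y).trans (Cy.trQ_elem R A (Cy.Om R) P y)

variable [IsIntegrallyClosed R]

theorem iOm_trG_elem (P : ElemOf R A g) (y : A) :
    iOm R (trG g P.1 y) = ∑ᶠ e ∈ homs g P.1, e y := by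
  let _ := g.toAlgebra
  have : Module.Finite R (A ⧸ P.1) := RingHom.finite_algebraMap.1 P.2.2.1
  have h1 : IsIntegral R (∑ᶠ e ∈ homs g P.1, e y) := by
    rw [finsum_mem_eq_finite_toFinset_sum _ (homs_finite P)]
    refine IsIntegral.sum _ fun e he => ?_
    obtain ⟨h1, h2⟩ := (homs_finite P).mem_toFinset.1 he
    have h0 : ∀ a ∈ P.1, e a = 0 := fun a ha => by rwa [← h2] at ha
    exact (Algebra.IsIntegral.isIntegral (R := R) (Ideal.Quotient.mk P.1 y)).map
      (⟨Ideal.Quotient.lift P.1 e h0, fun r => RingHom.congr_fun h1 r⟩ :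
        (A ⧸ P.1) →ₐ[R] Cy.Om R)
  have h2 := (trF_elem P y).symm.trans ((trF_eq_TrG P.1 y).trans
    (Cy.trace_bc_Face R (FractionRing R) (A ⧸ P.1) (Cy.Om R) _))
  rw [h2, isIntegral_algebraMap_iff (algebraMap (FractionRing R) (Cy.Om R)).injective] at h1
  obtain ⟨r, hr⟩ := IsIntegrallyClosed.isIntegral_iff.1 h1
  have h3 : iOm R r = ∑ᶠ e ∈ homs g P.1, e y := by
    rw [h2, ← hr, ← IsScalarTower.algebraMap_apply]
  rw [trG_eq_TrG (h3.trans (trF_elem P y).symm), h3]

theorem exists_rEff_trG_elem (P : ElemOf R A g) :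
    ∃ l : A →+ R, REff (degree R A g P) l ∧ ∀ y, l y = trG g P.1 y := by
  have h : ∀ y, iOm R (trG g P.1 y) = ∑ e ∈ (homs_finite P).toFinset, e y := fun y => by
    rw [iOm_trG_elem, finsum_mem_eq_finite_toFinset_sum _ (homs_finite P)]
  refine ⟨AddMonoidHom.mk' (trG g P.1) fun a b => iOm_injective R ?_,
    ⟨Cy.Om R, inferInstance, iOm R, iOm_injective R, (homs_finite P).toFinset.val, ?_, h⟩,
    fun _ => rfl⟩
  · simp only [map_add, h, Finset.sum_add_distrib]
  · rw [← ncard_homs, Set.ncard_eq_toFinset_card _ (homs_finite P)]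
    rfl

theorem trG_elem_mul (P : ElemOf R A g) (r : R) (y : A) :
    trG g P.1 (g r * y) = r * trG g P.1 y := by
  refine iOm_injective R ?_
  simp only [map_mul, iOm_trG_elem, finsum_mem_eq_finite_toFinset_sum _ (homs_finite P),
    Finset.mul_sum]
  refine Finset.sum_congr rfl fun e he => ?_
  rw [← ((homs_finite P).mem_toFinset.1 he).1]
  rfl

variable [IsNoetherianRing A]

theorem iOm_cyc_TrG {I : Ideal A} (hI : FiniteOver R A g I) (y : A) :
    iOm R ((cyc R A g I hI).sum fun Q c => c • trG g Q.1 y) = trF g (iOm R) I y := by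
  let _ := g.toAlgebra
  have := faithful_TrG R
  refine Eq.trans ?_ ((trF_eq_TrG I y).trans (Cy.trQ_cyc R A (Cy.Om R) I hI y)).symm
  rw [map_finsuppSum]
  refine Finsupp.sum_congr fun Q _ => ?_
  rw [map_zsmul, iOm_trG_elem, ← trF_elem, zsmul_eq_mul]
  exact congrArg _ (trF_eq_TrG Q.1 y)

theorem iOm_trG {I : Ideal A} (hI : FiniteOver R A g I) (y : A) :
    iOm R (trG g I y) = trF g (iOm R) I y := by
  rw [trG_eq_TrG (iOm_cyc_TrG hI y), iOm_cyc_TrG]

theorem map_trG {I : Ideal A} (hI : FiniteOver R A g I) {Ω : Type u} [Field Ω] (i : R →+* Ω)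
    (hi : Function.Injective i) (y : A) : i (trG g I y) = trF g i I y := by
  let _ := g.toAlgebra
  let _ := i.toAlgebra
  have : FaithfulSMul R Ω := (faithfulSMul_iff_algebraMap_injective R Ω).2 hi
  have : Module.Finite R (A ⧸ I) := RingHom.finite_algebraMap.1 hI
  let _ : Algebra (FractionRing R) Ω := FractionRing.liftAlgebra R Ω
  have : IsScalarTower R (FractionRing R) Ω := FractionRing.isScalarTower_liftAlgebra R Ω
  have h1 := (iOm_trG hI y).trans ((trF_eq_TrG I y).trans
    (Cy.trace_bc_Face R (FractionRing R) (A ⧸ I) (Cy.Om R) _))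
  rw [IsScalarTower.algebraMap_apply R (FractionRing R) (Cy.Om R)] at h1
  refine Eq.trans ?_ (Cy.trace_bc_Face R (FractionRing R) (A ⧸ I) Ω _).symm
  rw [← (algebraMap (FractionRing R) (Cy.Om R)).injective h1, ← IsScalarTower.algebraMap_apply]
  rfl

theorem trG_cyc {I : Ideal A} (hI : FiniteOver R A g I) (y : A) :
    trG g I y = (cyc R A g I hI).sum fun Q c => c • trG g Q.1 y := by
  exact trG_eq_TrG (iOm_cyc_TrG hI y)

omit [IsIntegrallyClosed R] [IsNoetherianRing A] in
theorem rEff_sum_TrG {ι : Type*} (s : Finset ι) (n : ι → ℕ) (l : ι → A →+ R)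
    (h : ∀ i, ∃ d, REff d (l i)) : ∃ d, REff d (∑ i ∈ s, n i • l i) := by
  classical
  refine Finset.sum_induction _ (fun l => ∃ d, REff d l)
    (fun _ _ ⟨_, a⟩ ⟨_, b⟩ => ⟨_, a.add b⟩) ⟨_, REff.zero⟩ fun i _ => ?_
  obtain ⟨d, hd⟩ := h i
  induction n i with
  | zero => exact ⟨_, by rw [zero_nsmul]; exact REff.zero⟩
  | succ k ih => exact ih.elim fun _ a => ⟨_, by rw [succ_nsmul]; exact a.add hd⟩

theorem exists_rEff_trG {I : Ideal A} (hI : FiniteOver R A g I) :
    ∃ (d : ℕ) (l : A →+ R), REff d l ∧ ∀ y, l y = trG g I y := by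
  choose l hl hl' using fun Q : ElemOf R A g => exists_rEff_trG_elem Q
  obtain ⟨d, hd⟩ := rEff_sum_TrG (cyc R A g I hI).support (fun Q => (cyc R A g I hI Q).toNat) l
    fun Q => ⟨_, hl Q⟩
  refine ⟨d, _, hd, fun y => ?_⟩
  rw [trG_cyc hI, AddMonoidHom.finsetSum_apply]
  refine Finset.sum_congr rfl fun Q _ => ?_
  rw [AddMonoidHom.nsmul_apply, hl', cyc_apply, Int.toNat_natCast]
  exact (natCast_zsmul _ _).symm

theorem exists_rEff_away {I : Ideal A} (hI : FiniteOver R A g I) {B : Type u} [CommRing B]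
    (j : B →+* A) (f : B) (hf : IsUnit (Ideal.Quotient.mk I (j f))) :
    ∃ (d : ℕ) (l : Localization.Away f →+ R), REff d l ∧
      ∀ b, l (algebraMap B (Localization.Away f) b) = trG g I (j b) := by
  obtain ⟨d, l, h1, h2⟩ := exists_rEff_trG (g := (Ideal.Quotient.mk I).comp g) (I := ⊥)
    (RingHom.Finite.comp (RingHom.Finite.of_surjective _ Ideal.Quotient.mk_surjective) hI)
  refine ⟨d, _, h1.comp_ringHom (IsLocalization.Away.lift f
    (g := (Ideal.Quotient.mk I).comp j) hf), fun b => ?_⟩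
  have h3 := trG_comap (Ideal.Quotient.mk I) Ideal.Quotient.mk_surjective g ⊥ (j b)
  rw [← RingHom.ker_eq_comap_bot, Ideal.mk_ker] at h3
  rw [h3, ← h2]
  exact congrArg l (IsLocalization.Away.lift_eq f hf b)

theorem trG_inf {I J : Ideal A} (hI : FiniteOver R A g I) (hJ : FiniteOver R A g J)
    (h : I ⊔ J = ⊤) (y : A) : trG g (I ⊓ J) y = trG g I y + trG g J y := by
  let _ := g.toAlgebra
  have : Module.Finite R (A ⧸ I) := RingHom.finite_algebraMap.1 hI
  have : Module.Finite R (A ⧸ J) := RingHom.finite_algebraMap.1 hJ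
  have h1 : FiniteOver R A g (I ⊓ J) := RingHom.finite_algebraMap.2 (Module.Finite.equiv
    (AlgEquiv.ofRingEquiv (R := R) (f := Ideal.quotientInfEquivQuotientProd I J
      (Ideal.isCoprime_iff_sup_eq.2 h)) fun _ => rfl).symm.toLinearEquiv)
  obtain ⟨a, ha, x, hx, e⟩ := Submodule.mem_sup.1 (h.ge (Submodule.mem_top (x := (1 : A))))
  have := faithful_TrG R
  refine trG_eq_TrG ?_
  rw [map_add, iOm_trG hI, iOm_trG hJ]
  refine ((congrArg₂ (· + ·) (trF_eq_TrG I y) (trF_eq_TrG J y)).trans ?_).trans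
    (trF_eq_TrG _ y).symm
  refine (Cy.trQ_add_trace R A (Cy.Om R) x (I := I ⊓ J) (fun z => ⟨fun hz => ?_, fun hz =>
    ⟨I.mul_mem_right x hz, J.mul_mem_left z hx⟩⟩) (le_antisymm (sup_le inf_le_right
      ((Ideal.span_singleton_le_iff_mem J).2 hx)) fun z hz => ?_) h1 hJ hI y).symm
  · rw [← mul_one z, ← e, mul_add]
    exact I.add_mem (I.mul_mem_left z ha) hz.1
  · rw [← mul_one z, ← e, mul_add]
    exact Submodule.add_mem_sup ⟨I.mul_mem_left z ha, J.mul_mem_right a hz⟩
      (Ideal.mul_mem_left _ z (Ideal.mem_span_singleton_self x))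

omit [IsDomain R] [QAlg R] [IsIntegrallyClosed R] [IsNoetherianRing A] in
theorem finiteOver_of_le {I J : Ideal A} (h : I ≤ J) (hI : FiniteOver R A g I) :
    FiniteOver R A g J := by
  have h1 := RingHom.Finite.comp (RingHom.Finite.of_surjective (Ideal.Quotient.factor h)
    (Ideal.Quotient.factor_surjective h)) hI
  exact h1

theorem rEff_trace (K L : Type u) [Field K] [CharZero K] [Field L] [Algebra K L]
    [FiniteDimensional K L] :
    REff (Module.finrank K L) (Algebra.trace K L).toAddMonoidHom := by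
  refine ⟨AlgebraicClosure K, inferInstance, algebraMap K _, (algebraMap K _).injective,
    Finset.univ.val.map fun σ : L →ₐ[K] AlgebraicClosure K => (σ : L →+* AlgebraicClosure K),
    ?_, fun b => ?_⟩
  · rw [Multiset.card_map, ← AlgHom.card K L (AlgebraicClosure K)]
    rfl
  · rw [Multiset.map_map]
    exact trace_eq_sum_embeddings (AlgebraicClosure K)

end

end Pool.Agent.MP_e2821c_ag.Dg
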