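import Pool.Agent.Lib.MP_e2821c_ag.Dg.Chn
import Pool.Agent.Lib.MP_e2821c_ag.Dg.TrG

namespace Pool.Agent.MP_e2821c_ag.Dg

open MvPolynomial

universe u v w

noncomputable section

variable {Γ : Type} [AddCommGroup Γ] [Module.Finite ℤ Γ] {q : ℕ}

omit [Module.Finite ℤ Γ] in
theorem bd_trace_III {K L : Type u} [Field K] [CharZero K] [Field L] [Algebra K L]
    [FiniteDimensional K L] {A : Subring K} {A' : Subring L}
    (hA : ∀ x ∈ A', Algebra.trace K L x ∈ A) {u : Xq Γ K q}
    (h : Bd A' (pushR (algebraMap K L) q u)) : Bd A u := by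
  haveI : QAlg L := QAlg.of_algebra K L
  have h1 := Bd.push_rEff (A' := A) h (rEff_trace K L) hA
  rw [push_push] at h1
  have h2 : (Algebra.trace K L).toAddMonoidHom.comp (algebraMap K L).toAddMonoidHom =
      Module.finrank K L • AddMonoidHom.id K := by
    ext x
    simp [Algebra.trace_algebraMap]
  rw [h2, nsmul_push, push_id] at h1
  exact Bd.of_nsmul Module.finrank_pos.ne' h1

theorem bd_of_field_ext {E K : Type u} [Field E] [CharZero E] [Field K] [Algebra E K]
    {u : Xq Γ E q} (h : Bd ⊤ (pushR (algebraMap E K) q u)) : Bd ⊤ u := by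
  obtain ⟨y, hy, hdy⟩ := h
  obtain ⟨s, -, hs⟩ := exists_finset_of_mem_Ch hy
  let A : Subalgebra E K := Algebra.adjoin E (s : Set K)
  have hyA : y ∈ Ch Γ A.toSubring (q + 1) :=
    hs A.toSubring fun x hx => Algebra.subset_adjoin (Finset.mem_coe.2 hx)
  let f : A →+* K := A.val.toRingHom
  have hf : Function.Injective f := Subtype.val_injective
  have hcomp : f.comp (algebraMap E A) = algebraMap E K := by
    ext x
    rfl
  have h1 : Bd A.toSubring (pushR f q (pushR (algebraMap E A) q u)) := by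
    rw [pushR_pushR, hcomp]
    exact ⟨y, hyA, hdy⟩
  have h2 : Bd (A.toSubring.comap f) (pushR (algebraMap E A) q u) :=
    Bd.of_pushR f hf (fun x hx => ⟨⟨x, hx⟩, rfl⟩) h1
  obtain ⟨m, hm⟩ := Ideal.exists_maximal A
  letI : Field (A ⧸ m) := Ideal.Quotient.field m
  haveI : Algebra.FiniteType E A := (Subalgebra.fg_iff_finiteType A).1 ⟨s, rfl⟩
  haveI : Algebra.FiniteType E (A ⧸ m) :=
    Algebra.FiniteType.of_surjective (Ideal.Quotient.mkₐ E m) (Ideal.Quotient.mkₐ_surjective E m)
  haveI : Module.Finite E (A ⧸ m) := finite_of_finite_type_of_isJacobsonRing E (A ⧸ m)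
  have h3 : Bd (⊤ : Subring (A ⧸ m))
      (pushR (Ideal.Quotient.mk m) q (pushR (algebraMap E A) q u)) :=
    Bd.pushR h2 _ fun _ _ => Subring.mem_top _
  rw [pushR_pushR] at h3
  exact bd_trace_III (K := E) (L := A ⧸ m) (A' := ⊤) (fun _ _ => Subring.mem_top _) h3

theorem bd_subfield {F Ω : Type u} [Field F] [CharZero F] [Field Ω] [Algebra F Ω]
    (L : IntermediateField F Ω) {u : Xq Γ Ω q} (hu : u ∈ Ch Γ L.toSubalgebra.toSubring q)
    (h : Bd ⊤ u) : Bd L.toSubalgebra.toSubring u := by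
  haveI : CharZero L := charZero_of_injective_algebraMap (algebraMap F L).injective
  obtain ⟨τ, -, rfl⟩ := exists_pushR_eq (algebraMap L Ω) (algebraMap L Ω).injective
    (A' := L.toSubalgebra.toSubring) (fun x hx => ⟨⟨x, hx⟩, rfl⟩) hu
  exact Bd.pushR (bd_of_field_ext h) _ fun a _ => a.2

theorem bd_trace {K L : Type u} [Field K] [CharZero K] [Field L] [Algebra K L]
    [FiniteDimensional K L] {A : Subring K} {A' : Subring L}
    (hA : ∀ x ∈ A', Algebra.trace K L x ∈ A) {u : Xq Γ K q}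
    (h : Bd A' (pushR (algebraMap K L) q u)) : Bd A u :=
  bd_trace_III hA h

end

end Pool.Agent.MP_e2821c_ag.Dg
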