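import Pool.Agent.Lib.MP_e2821c_ag.Dg.II0
import Pool.Agent.Lib.MP_e2821c_ag.Dg.III

namespace Pool.Agent.MP_e2821c_ag.Dg

open MvPolynomial

universe u v w

noncomputable section

/-- A field is algebraically closed in a simple transcendental extension. -/
theorem mem_range_of_isAlgebraic_II {E K : Type u} [Field E] [Field K] [Algebra E K] (t : K)
    (ht : Transcendental E t) (hK : IntermediateField.adjoin E {t} = ⊤) {x : K}
    (hx : IsAlgebraic E x) : x ∈ (algebraMap E K).range := by
  have hx' : x ∈ IntermediateField.adjoin E {t} := hK ▸ IntermediateField.mem_top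
  obtain ⟨p, r, hpr⟩ := (IntermediateField.mem_adjoin_simple_iff E x).1 hx'
  by_cases hr : r = 0
  · rw [hpr, hr, map_zero, div_zero]
    exact zero_mem _
  have hrt : Polynomial.aeval t r ≠ 0 := fun h => hr (transcendental_iff.1 ht r h)
  have ht' : Transcendental (algebraicClosure E K) t := ht.algebraicClosure
  let x' : algebraicClosure E K := ⟨x, mem_algebraicClosure_iff.2 hx⟩
  have h0 : p.map (algebraMap E (algebraicClosure E K)) -
      Polynomial.C x' * r.map (algebraMap E (algebraicClosure E K)) = 0 := by
    refine transcendental_iff.1 ht' _ ?_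
    rw [map_sub, map_mul, Polynomial.aeval_map_algebraMap, Polynomial.aeval_map_algebraMap,
      Polynomial.aeval_C]
    change _ - x * _ = 0
    rw [hpr, div_mul_cancel₀ _ hrt, sub_self]
  have h1 := congrArg (fun f => ((Polynomial.coeff f r.natDegree : algebraicClosure E K) : K)) h0
  simp only [Polynomial.coeff_sub, Polynomial.coeff_C_mul, Polynomial.coeff_map,
    Polynomial.coeff_zero] at h1
  have h2 : algebraMap E K (p.coeff r.natDegree) - x * algebraMap E K (r.coeff r.natDegree) = 0 :=
    h1
  have h3 : algebraMap E K (r.coeff r.natDegree) ≠ 0 := by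
    rw [map_ne_zero_iff _ (algebraMap E K).injective]
    exact Polynomial.leadingCoeff_ne_zero.2 hr
  refine ⟨p.coeff r.natDegree / r.coeff r.natDegree, ?_⟩
  rw [map_div₀, div_eq_iff h3]
  exact sub_eq_zero.1 h2

/-- A common denominator for finitely many elements of a simple extension. -/
theorem exists_denom_II {E K : Type u} [Field E] [Field K] [Algebra E K] (t : K)
    (hK : IntermediateField.adjoin E {t} = ⊤) (s : Finset K) :
    ∃ Q : Polynomial E, Q ≠ 0 ∧ ∀ x ∈ s, ∃ p r : Polynomial E, r ∣ Q ∧
      x = Polynomial.aeval t p / Polynomial.aeval t r := by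
  classical
  have h : ∀ x : K, ∃ p r : Polynomial E, r ≠ 0 ∧
      x = Polynomial.aeval t p / Polynomial.aeval t r := by
    intro x
    have hx' : x ∈ IntermediateField.adjoin E {t} := hK ▸ IntermediateField.mem_top
    obtain ⟨p, r, hpr⟩ := (IntermediateField.mem_adjoin_simple_iff E x).1 hx'
    by_cases hr : r = 0
    · refine ⟨0, 1, one_ne_zero, ?_⟩
      rw [hpr, hr]
      simp
    · exact ⟨p, r, hr, hpr⟩
  choose p r hr hpr using h
  exact ⟨∏ x ∈ s, r x, Finset.prod_ne_zero_iff.2 fun x _ => hr x,
    fun x hx => ⟨p x, r x, Finset.dvd_prod_of_mem _ hx, hpr x⟩⟩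

/-- Pulling a reduced cycle back along an injective ring map. -/
theorem exists_pull_II {R R' : Type u} [CommRing R] [CommRing R'] [QAlg R] (f : R →+* R')
    (hf : Function.Injective f) {q : ℕ} {u : Xq G2 R' (q + 1)}
    (hu : u ∈ Ch G2 f.range (q + 1)) (hr : Red u) (hc : dX R' q u = 0) :
    ∃ w ∈ CR (⊤ : Subring R) (q + 1), dX R q w = 0 ∧ pushR f (q + 1) w = u := by
  obtain ⟨w, hw, rfl⟩ := exists_pushR_eq f hf le_rfl hu
  have hinj : Function.Injective (MvPolynomial.map (σ := Fin (q + 1)) f) :=
    MvPolynomial.map_injective f hf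
  refine ⟨w, mem_CR.2 ⟨Ch_mono le_top hw, fun b => hinj ?_, fun a => hinj ?_⟩, ?_, rfl⟩
  · rw [map_zero, ← pushR_apply]
    exact hr.1 b
  · rw [map_zero, ← pushR_apply]
    exact hr.2 a
  · refine push_injective (l := f.toAddMonoidHom) hf q ?_
    rw [push_dX, map_zero]
    exact hc

/-- The case of a finite extension containing the roots of the denominators. -/
theorem onto_over_II {E K : Type u} [Field E] [CharZero E] [Field K] [Algebra E K] (t : K)
    (ht : Transcendental E t) (Q : Polynomial E) (hQ : Q ≠ 0)
    (hs : (Q.map (algebraMap E K)).Splits) {q : ℕ} {u : Xq G2 K (q + 1)} (hr : Red u)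
    (hc : dX K q u = 0)
    (hu : ∀ (A : Subring K) [QAlg A], (∀ p r : Polynomial E, r ∣ Q →
      Polynomial.aeval t p / Polynomial.aeval t r ∈ A) → u ∈ Ch G2 A (q + 1)) :
    ∃ c ∈ CR (⊤ : Subring (algebraicClosure E K)) (q + 1), dX _ q c = 0 ∧
      Bd ⊤ (u - pushR (algebraMap (algebraicClosure E K) K) (q + 1) c) := by
  classical
  set E' := algebraicClosure E K with hE'
  have : CharZero E' := charZero_of_injective_algebraMap (algebraMap E E').injective
  have ht' : Transcendental E' t := ht.algebraicClosure
  set T : Finset K := (Q.map (algebraMap E K)).roots.toFinset with hT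
  have hTE : ∀ x ∈ T, x ∈ E' := by
    intro x hx
    rw [hT, Multiset.mem_toFinset, Polynomial.mem_roots (Polynomial.map_ne_zero hQ),
      Polynomial.IsRoot.def, Polynomial.eval_map_algebraMap] at hx
    exact mem_algebraicClosure_iff.2 ⟨Q, hQ, hx⟩
  let a : Fin T.card → E' := fun i => ⟨(T.equivFin.symm i : K), hTE _ (T.equivFin.symm i).2⟩
  have ha : Function.Injective a := fun i j h =>
    T.equivFin.symm.injective (Subtype.ext (congrArg (fun z : E' => (z : K)) h))
  set P : Polynomial E' := ∏ i, (Polynomial.X - Polynomial.C (a i)) with hP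
  have hP0 : P ≠ 0 := Finset.prod_ne_zero_iff.2 fun i _ => Polynomial.X_sub_C_ne_zero _
  let g : Polynomial E' →+* K := (Polynomial.aeval t : Polynomial E' →ₐ[E'] K).toRingHom
  have hg : Function.Injective g := transcendental_iff_injective.1 ht'
  have hgP : IsUnit (g P) := IsUnit.mk0 _ ((map_ne_zero_iff g hg).2 hP0)
  let ev : Localization.Away P →+* K := IsLocalization.Away.lift P hgP
  have hev : ∀ p, ev (algebraMap (Polynomial E') _ p) = Polynomial.aeval t p := fun p =>
    IsLocalization.Away.lift_eq P hgP p
  have hj : Function.Injective (algebraMap (Polynomial E') (Localization.Away P)) :=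
    IsLocalization.injective _ (powers_le_nonZeroDivisors_of_noZeroDivisors hP0)
  have hinj : Function.Injective ev := by
    rw [IsLocalization.injective_iff_map_algebraMap_eq (Submonoid.powers P)]
    intro x y
    rw [hev, hev, hj.eq_iff]
    exact hg.eq_iff.symm
  have hpol : ∀ p : Polynomial E, Polynomial.aeval t p ∈ ev.range := fun p =>
    ⟨algebraMap (Polynomial E') _ (p.map (algebraMap E E')), by
      rw [hev, Polynomial.aeval_map_algebraMap]⟩
  have hunit : ∀ y, IsUnit y → (ev y)⁻¹ ∈ ev.range := by
    rintro _ ⟨y, rfl⟩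
    exact ⟨(y⁻¹ : (Localization.Away P)ˣ), by rw [map_units_inv]⟩
  have hroot : ∀ x ∈ (Q.map (algebraMap E K)).roots, (t - x)⁻¹ ∈ ev.range := by
    intro x hx
    have hxT : x ∈ T := Multiset.mem_toFinset.2 hx
    have h1 : (Polynomial.X - Polynomial.C (a (T.equivFin ⟨x, hxT⟩))) ∣ P :=
      Finset.dvd_prod_of_mem _ (Finset.mem_univ _)
    have h2 := hunit _ (IsLocalization.Away.isUnit_of_dvd (S := Localization.Away P) P h1)
    rw [hev, map_sub, Polynomial.aeval_X, Polynomial.aeval_C] at h2
    have h3 : algebraMap E' K (a (T.equivFin ⟨x, hxT⟩)) = x := by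
      change ((T.equivFin.symm (T.equivFin ⟨x, hxT⟩) : T) : K) = x
      rw [Equiv.symm_apply_apply]
    rwa [h3] at h2
  have hQinv : (Polynomial.aeval t Q)⁻¹ ∈ ev.range := by
    rw [← Polynomial.eval_map_algebraMap, hs.eval_eq_prod_roots, mul_inv,
      Polynomial.leadingCoeff_map]
    refine mul_mem ?_ ?_
    · have := hpol (Polynomial.C Q.leadingCoeff⁻¹)
      rwa [Polynomial.aeval_C, map_inv₀] at this
    · refine Multiset.prod_induction (fun z : K => z⁻¹ ∈ ev.range) _ ?_ ?_ ?_
      · intro x y hx hy
        rw [mul_inv]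
        exact mul_mem hx hy
      · rw [inv_one]
        exact one_mem _
      · intro z hz
        obtain ⟨x, hx, rfl⟩ := Multiset.mem_map.1 hz
        exact hroot x hx
  have hmem : u ∈ Ch G2 ev.range (q + 1) := by
    refine hu _ ?_
    rintro p r ⟨r', hr'⟩
    have hr0 : Polynomial.aeval t r' ≠ 0 := fun h =>
      hQ (by rw [hr', transcendental_iff.1 ht r' h, mul_zero])
    have : Polynomial.aeval t p / Polynomial.aeval t r =
        Polynomial.aeval t (p * r') * (Polynomial.aeval t Q)⁻¹ := by
      rw [hr', map_mul, map_mul, ← div_eq_mul_inv, mul_div_mul_right _ _ hr0]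
    rw [this]
    exact mul_mem (hpol _) hQinv
  obtain ⟨w, hw, hwc, rfl⟩ := exists_pull_II ev hinj hmem hr hc
  exact onto_split a ha ev (fun c => by rw [hev, Polynomial.aeval_C]) hw hwc

theorem onto_simple {E K : Type u} [Field E] [CharZero E] [Field K] [Algebra E K] (t : K)
    (ht : Transcendental E t) (hK : IntermediateField.adjoin E {t} = ⊤) {q : ℕ}
    {u : Xq G2 K (q + 1)} (hu : u ∈ CR ⊤ (q + 1)) (hc : dX K q u = 0) :
    ∃ c ∈ CR (⊤ : Subring E) (q + 1), dX E q c = 0 ∧
      Bd ⊤ (u - pushR (algebraMap E K) (q + 1) c) := by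
  have : CharZero K := charZero_of_injective_algebraMap (algebraMap E K).injective
  obtain ⟨s, -, hs⟩ := exists_finset_of_mem_Ch hu.1
  obtain ⟨Q, hQ, hQs⟩ := exists_denom_II t hK s
  let K' : Type u := (Q.map (algebraMap E K)).SplittingField
  have : CharZero K' := charZero_of_injective_algebraMap (algebraMap K K').injective
  have hspl : (Q.map (algebraMap E K')).Splits := by
    have := Polynomial.SplittingField.splits (Q.map (algebraMap E K))
    rwa [Polynomial.map_map, ← IsScalarTower.algebraMap_eq] at this
  have ht' : Transcendental E (algebraMap K K' t) :=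
    (transcendental_algebraMap_iff (algebraMap K K').injective).2 ht
  obtain ⟨c', hc', hcc', hb⟩ := onto_over_II (algebraMap K K' t) ht' Q hQ hspl
    (u := pushR (algebraMap K K') (q + 1) u) (Red.push hu.2 _)
    (by rw [← push_dX, hc, map_zero]) (by
      intro A _ hA
      have : QAlg (A.comap (algebraMap K K')) := by
        refine ⟨fun n hn => ?_⟩
        have h1 : ((n : K)⁻¹) ∈ A.comap (algebraMap K K') := by
          obtain ⟨y, hy⟩ := (QAlg.isUnit_natCast (S := A) n hn).exists_right_inv
          have hy' : (n : K') * (y : K') = 1 := by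
            simpa using congrArg (fun z : A => (z : K')) hy
          rw [Subring.mem_comap, map_inv₀, map_natCast, ← eq_inv_of_mul_eq_one_right hy']
          exact y.2
        refine IsUnit.of_mul_eq_one ⟨_, h1⟩ (Subtype.ext ?_)
        simpa using mul_inv_cancel₀ (Nat.cast_ne_zero.2 hn : (n : K) ≠ 0)
      refine pushR_mem (A := A.comap (algebraMap K K')) _ (fun a ha => ha) (hs _ ?_)
      intro x hx
      obtain ⟨p, r, hr, rfl⟩ := hQs x hx
      rw [Subring.mem_comap, map_div₀, ← Polynomial.aeval_algebraMap_apply,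
        ← Polynomial.aeval_algebraMap_apply]
      exact hA p r hr)
  let E' := algebraicClosure E K'
  have : CharZero E' := charZero_of_injective_algebraMap (algebraMap E E').injective
  have htr : ∀ x : E', ∃ y : E, algebraMap E K y = Algebra.trace K K' (x : K') := fun x =>
    mem_range_of_isAlgebraic_II t ht hK
      (Algebra.isIntegral_trace (mem_algebraicClosure_iff'.1 x.2)).isAlgebraic
  choose τ hτ using htr
  let l : E' →+ E := AddMonoidHom.mk' τ fun x y => (algebraMap E K).injective (by
    rw [map_add, hτ, hτ, hτ, IntermediateField.coe_add, map_add])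
  have hl : (algebraMap E K).toAddMonoidHom.comp l =
      (Algebra.trace K K').toAddMonoidHom.comp (algebraMap E' K').toAddMonoidHom :=
    AddMonoidHom.ext fun x => hτ x
  have hd : Module.finrank K K' ≠ 0 := Module.finrank_pos.ne'
  have hlE : REff (Module.finrank K K') l :=
    REff.of_injective (algebraMap E K) (algebraMap E K).injective
      (hl ▸ (rEff_trace K K').comp_ringHom (algebraMap E' K'))
  have hmem : push l (q + 1) c' ∈ CR (⊤ : Subring E) (q + 1) :=
    mem_CR.2 ⟨push_mem_of_rEff hlE (fun _ _ => Subring.mem_top _) hc'.1, Red.push hc'.2 _⟩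
  have hdq : (Module.finrank K K' : ℚ) ≠ 0 := Nat.cast_ne_zero.2 hd
  have hsm : Module.finrank K K' • ((Module.finrank K K' : ℚ)⁻¹ • push l (q + 1) c') =
      push l (q + 1) c' := by
    rw [← Nat.cast_smul_eq_nsmul ℚ, smul_smul, mul_inv_cancel₀ hdq, one_smul]
  refine ⟨(Module.finrank K K' : ℚ)⁻¹ • push l (q + 1) c', qsmul_mem_CR _ hmem, ?_, ?_⟩
  · refine xq_nsmul_injective hd ?_
    rw [← map_nsmul, hsm, ← push_dX, hcc', map_zero, smul_zero]
  · refine Bd.of_nsmul hd ?_
    have h1 := hb.push_rEff (rEff_trace K K') (A' := ⊤) fun _ _ => Subring.mem_top _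
    have h2 : (Algebra.trace K K').toAddMonoidHom.comp (algebraMap K K').toAddMonoidHom =
        Module.finrank K K' • AddMonoidHom.id K := by
      ext x
      simp [Algebra.trace_algebraMap]
    rw [map_sub, push_push, push_push, ← hl, h2, nsmul_push, push_id, ← push_push] at h1
    rw [smul_sub, ← map_nsmul, hsm]
    exact h1

theorem onto_pure {F K : Type u} [Field F] [CharZero F] [Field K] [Algebra F K] {N : ℕ}
    (b : Fin N → K) (hb : AlgebraicIndependent F b)
    (hK : IntermediateField.adjoin F (Set.range b) = ⊤) {q : ℕ}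
    {u : Xq G2 K (q + 1)} (hu : u ∈ CR ⊤ (q + 1)) (hc : dX K q u = 0) :
    ∃ c ∈ CR (⊤ : Subring F) (q + 1), dX F q c = 0 ∧
      Bd ⊤ (u - pushR (algebraMap F K) (q + 1) c) := by
  induction N generalizing K with
  | zero =>
    have hr : (algebraMap F K).range = ⊤ := by
      rw [Set.range_eq_empty, IntermediateField.adjoin_empty] at hK
      refine top_le_iff.1 fun x _ => ?_
      have hx : x ∈ (⊥ : IntermediateField F K) := hK ▸ IntermediateField.mem_top
      exact IntermediateField.mem_bot.1 hx
    obtain ⟨c, hc1, hc2, hc3⟩ := exists_pull_II (algebraMap F K) (algebraMap F K).injective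
      (hr ▸ hu.1) hu.2 hc
    exact ⟨c, hc1, hc2, by rw [hc3, sub_self]; exact Bd.zero⟩
  | succ N ih =>
    have : CharZero K := charZero_of_injective_algebraMap (algebraMap F K).injective
    set E := IntermediateField.adjoin F (Set.range fun i : Fin N => b i.castSucc) with hE
    have : CharZero E := charZero_of_injective_algebraMap (algebraMap F E).injective
    have hrange : (Set.range fun i : Fin N => b i.castSucc) = b '' Set.range Fin.castSucc := by
      rw [← Set.range_comp]
      rfl
    have ht : Transcendental E (b (Fin.last N)) := by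
      rw [hE, IntermediateField.transcendental_adjoin_iff, hrange]
      refine hb.transcendental_adjoin ?_
      rintro ⟨i, hi⟩
      exact (Fin.castSucc_lt_last i).ne hi
    have htop : IntermediateField.adjoin E {b (Fin.last N)} = ⊤ := by
      rw [← IntermediateField.restrictScalars_eq_top_iff (K := F), hE,
        IntermediateField.adjoin_adjoin_left, ← hK]
      congr 1
      ext x
      simp only [Set.mem_union, Set.mem_range, Set.mem_singleton_iff]
      constructor
      · rintro (⟨i, rfl⟩ | rfl)
        exacts [⟨_, rfl⟩, ⟨_, rfl⟩]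
      · rintro ⟨i, rfl⟩
        refine Fin.lastCases (Or.inr rfl) (fun j => Or.inl ⟨j, rfl⟩) i
    obtain ⟨c₁, hc₁, hcc₁, hb₁⟩ := onto_simple (b (Fin.last N)) ht htop hu hc
    let b' : Fin N → E := fun i =>
      ⟨b i.castSucc, IntermediateField.subset_adjoin F _ ⟨i, rfl⟩⟩
    have hb' : AlgebraicIndependent F b' :=
      AlgebraicIndependent.of_comp E.val (hb.comp Fin.castSucc (Fin.castSucc_injective N))
    have hK' : IntermediateField.adjoin F (Set.range b') = ⊤ := by
      apply IntermediateField.lift_injective E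
      rw [IntermediateField.lift_adjoin, IntermediateField.lift_top, ← Set.range_comp]
      rfl
    obtain ⟨c, hc1, hc2, hc3⟩ := ih b' hb' hK' hc₁ hcc₁
    refine ⟨c, hc1, hc2, ?_⟩
    have h1 := hc3.pushR (algebraMap E K) (A' := ⊤) fun _ _ => Subring.mem_top _
    rw [map_sub, pushR_pushR, ← IsScalarTower.algebraMap_eq] at h1
    have h2 := hb₁.add h1
    rwa [sub_add_sub_cancel] at h2

end

end Pool.Agent.MP_e2821c_ag.Dg
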