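import Pool.Agent.Lib.MP_e2821c_ag.Dg.GG
import Pool.Agent.Lib.MP_e2821c_ag.Dg.Adapt
import Pool.Agent.Lib.MP_e2821c_ag.Dg.II

namespace Pool.Agent.MP_e2821c_ag.Dg

open MvPolynomial

universe u v w

noncomputable section

theorem fg_adjoin_GInj {F Ω : Type u} [Field F] [Field Ω] [Algebra F Ω] (s : Finset Ω) :
    ∃ t : Finset (IntermediateField.adjoin F (s : Set Ω)),
      IntermediateField.adjoin F (t : Set (IntermediateField.adjoin F (s : Set Ω))) = ⊤ := by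
  classical
  refine ⟨s.preimage Subtype.val Subtype.val_injective.injOn, ?_⟩
  apply IntermediateField.lift_injective
  rw [IntermediateField.lift_adjoin, IntermediateField.lift_top, Finset.coe_preimage,
    Set.image_preimage_eq_of_subset]
  intro x hx
  exact ⟨⟨x, IntermediateField.subset_adjoin F _ hx⟩, rfl⟩

theorem mem_nonunits_comap_GInj {K L : Type u} [Field K] [Field L] (V : ValuationSubring L)
    (f : K →+* L) {x : K} (h : f x ∈ V.nonunits) : x ∈ (V.comap f).nonunits := by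
  rw [ValuationSubring.mem_nonunits_iff_or] at h ⊢
  rw [ValuationSubring.mem_comap, map_inv₀]
  exact h.imp_left fun h => (map_eq_zero f).1 h

variable {F : Type u} [Field F] [CharZero F] {N : ℕ}

theorem inj_Oh (L : IntermediateField F (OmN F N)) (Θ : Set (Module.End F (OmN F N)))
    (hΘ : Θ.Finite) (hh : ∀ θ ∈ Θ, HomOn θ (L : Set (OmN F N))) (R : Subalgebra F (OmN F N))
    (hR : ∀ x, x ∈ R ↔ x ∈ L ∧ ∀ θ ∈ Θ, θ x ∈ Oh F N) (q : ℕ) (u : Xq G2 (OmN F N) q)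
    (hu : u ∈ Ch G2 R.toSubring q) (h : Bd ⊤ u) : Bd R.toSubring u := by
  obtain ⟨s, hs, hs'⟩ := exists_finset_of_mem_Ch hu
  set L₁ := IntermediateField.adjoin F (s : Set (OmN F N)) with hL₁
  have hle : L₁ ≤ L := IntermediateField.adjoin_le_iff.2 fun x hx => ((hR x).1 (hs x hx)).1
  have hu₁ : u ∈ Ch G2 (R ⊓ L₁.toSubalgebra).toSubring q :=
    hs' _ fun x hx => ⟨hs x hx, IntermediateField.subset_adjoin F _ hx⟩
  obtain ⟨u', hu', rfl⟩ := exists_pushR_eq (A' := (R ⊓ L₁.toSubalgebra).toSubring)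
    (algebraMap L₁ (OmN F N)) (algebraMap L₁ (OmN F N)).injective
    (fun x hx => ⟨⟨x, hx.2⟩, rfl⟩) hu₁
  have : Finite Θ := hΘ.to_subtype
  let f : Θ → L₁ →ₐ[F] OmN F N := fun θ =>
    AlgHom.ofLinearMap (θ.1 ∘ₗ L₁.val.toLinearMap) (hh θ.1 θ.2).1
      fun x y => (hh θ.1 θ.2).2 x (hle x.2) y (hle y.2)
  obtain ⟨e, b, hb, hind⟩ := exists_adapted (fg_adjoin_GInj s) f
  have key := bd_of_valuations (fg_adjoin_GInj s) b hb
    {V | ∃ (i : Θ) (w : Fn N), Function.Injective w ∧ V = (VV F w).comap (f i).toRingHom}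
    (by
      rintro V ⟨i, w, -, rfl⟩ c
      rw [ValuationSubring.mem_comap]
      have := (f i).commutes c
      exact this ▸ algebraMap_mem_VV F w c)
    (by
      rintro V ⟨i, w, hw, rfl⟩ a ha
      exact (hind i w hw a ha).imp (mem_nonunits_comap_GInj _ _) (mem_nonunits_comap_GInj _ _))
    _ (by
      intro x
      constructor
      · rintro hx V ⟨i, w, -, rfl⟩
        exact ((hR x).1 hx.1).2 i.1 i.2 w
      · intro hx
        exact ⟨(hR x).2 ⟨hle x.2, fun θ hθ => mem_Oh_of_injective fun w hw =>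
          hx _ ⟨⟨θ, hθ⟩, w, hw, rfl⟩⟩, x.2⟩)
    hu' (bd_of_field_ext h)
  exact key.pushR _ fun a ha => ha.1

theorem onto_Om (q : ℕ) (u : Xq G2 (OmN F N) (q + 1)) (hu : u ∈ CR ⊤ (q + 1))
    (hc : dX _ q u = 0) : ∃ c ∈ CR (⊥ : Subalgebra F (OmN F N)).toSubring (q + 1),
      dX _ q c = 0 ∧ Bd ⊤ (u - c) := by
  obtain ⟨c, hc₁, hc₂, hc₃⟩ := onto_pure (F := F) (K := OmN F N)
    (fun i : Fin N => mono F (Pi.single i 1 : Lat N)) algebraicIndependent_mono
    adjoin_mono_eq_top hu hc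
  refine ⟨pushR (algebraMap F (OmN F N)) (q + 1) c,
    mem_CR.2 ⟨pushR_mem _ (fun a _ => ?_) (mem_CR.1 hc₁).1, (mem_CR.1 hc₁).2.push _⟩, ?_, hc₃⟩
  · exact (⊥ : Subalgebra F (OmN F N)).algebraMap_mem a
  · rw [← push_dX, hc₂, map_zero]

end

end Pool.Agent.MP_e2821c_ag.Dg
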