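import Pool.Agent.Lib.MP_e2821c_ag.Dg.CoreT

namespace Pool.Agent.MP_e2821c_ag.Dg

open MvPolynomial

universe u v w

noncomputable section

variable {F Ω : Type u} [Field F] [Field Ω] [Algebra F Ω]

theorem homOn_one (s : Set Ω) : HomOn (1 : Module.End F Ω) s :=
  ⟨rfl, fun _ _ _ _ => rfl⟩

theorem HomOn.mono {θ : Ω → Ω} {s t : Set Ω} (h : HomOn θ t) (hs : s ⊆ t) : HomOn θ s :=
  ⟨h.1, fun a ha b hb => h.2 a (hs ha) b (hs hb)⟩

theorem HomOn.mul {θ θ' : Module.End F Ω} {s t : Set Ω} (h : HomOn θ s) (h' : HomOn θ' t)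
    (hs : ∀ x ∈ s, θ x ∈ t) : HomOn (θ' * θ : Module.End F Ω) s := by
  refine ⟨?_, fun a ha b hb => ?_⟩
  · rw [Module.End.mul_apply, h.1, h'.1]
  · rw [Module.End.mul_apply, Module.End.mul_apply, Module.End.mul_apply, h.2 a ha b hb,
      h'.2 _ (hs a ha) _ (hs b hb)]

theorem HomOn.congr {θ θ' : Module.End F Ω} {L : IntermediateField F Ω}
    (h : HomOn θ (L : Set Ω)) (he : ∀ x ∈ L, θ x = θ' x) : HomOn θ' (L : Set Ω) := by
  refine ⟨?_, fun a ha b hb => ?_⟩
  · rw [← he 1 L.one_mem, h.1]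
  · rw [← he _ (L.mul_mem ha hb), ← he a ha, ← he b hb, h.2 a ha b hb]

theorem algebraMap_HomOn {θ : Module.End F Ω} {s : Set Ω} (h : HomOn θ s) (r : F) :
    θ (algebraMap F Ω r) = algebraMap F Ω r := by
  rw [Algebra.algebraMap_eq_smul_one, map_smul, h.1]

theorem HomOn.exists_algHom {θ : Module.End F Ω} {A : Subalgebra F Ω} (h : HomOn θ (A : Set Ω)) :
    ∃ f : A →ₐ[F] Ω, ∀ a : A, f a = θ a := by
  refine ⟨AlgHom.ofLinearMap (θ.comp A.val.toLinearMap) ?_ fun a b => ?_, fun a => rfl⟩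
  · exact h.1
  · exact h.2 a a.2 b b.2

theorem ne_zero_HomOn {θ : Module.End F Ω} {L : IntermediateField F Ω} (h : HomOn θ (L : Set Ω))
    {x : Ω} (hx : x ∈ L) (h0 : x ≠ 0) : θ x ≠ 0 := by
  intro e
  have := h.2 x hx x⁻¹ (L.inv_mem hx)
  rw [mul_inv_cancel₀ h0, h.1, e, zero_mul] at this
  exact one_ne_zero this

theorem div_HomOn {θ : Module.End F Ω} {L : IntermediateField F Ω} (h : HomOn θ (L : Set Ω))
    {x y : Ω} (hx : x ∈ L) (hy : y ∈ L) : θ (x / y) = θ x / θ y := by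
  by_cases h0 : y = 0
  · simp [h0]
  · rw [eq_div_iff (ne_zero_HomOn h hy h0), ← h.2 _ (L.div_mem hx hy) _ hy, div_mul_cancel₀ _ h0]

theorem HomOn.injOn {θ : Module.End F Ω} {L : IntermediateField F Ω} (h : HomOn θ (L : Set Ω)) :
    Set.InjOn θ (L : Set Ω) := by
  intro x hx y hy e
  by_contra hne
  exact ne_zero_HomOn h (L.sub_mem hx hy) (sub_ne_zero.mpr hne) (by rw [map_sub, e, sub_self])

theorem HomOn.image_adjoin {θ : Module.End F Ω} {s : Set Ω}
    (h : HomOn θ (Algebra.adjoin F s : Set Ω)) :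
    θ '' (Algebra.adjoin F s : Set Ω) = Algebra.adjoin F (θ '' s) := by
  apply Set.Subset.antisymm
  · rintro _ ⟨x, hx, rfl⟩
    have hx' : x ∈ Algebra.adjoin F s := hx
    clear hx
    show θ x ∈ Algebra.adjoin F (θ '' s)
    induction hx' using Algebra.adjoin_induction with
    | mem x hx => exact Algebra.subset_adjoin ⟨x, hx, rfl⟩
    | algebraMap r => rw [algebraMap_HomOn h]; exact Subalgebra.algebraMap_mem _ r
    | add x y hx hy ihx ihy => rw [map_add]; exact add_mem ihx ihy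
    | mul x y hx hy ihx ihy => rw [h.2 x hx y hy]; exact mul_mem ihx ihy
  · obtain ⟨f, hf⟩ := h.exists_algHom
    have : Algebra.adjoin F (θ '' s) ≤ f.range := by
      apply Algebra.adjoin_le
      rintro _ ⟨x, hx, rfl⟩
      exact ⟨⟨x, Algebra.subset_adjoin hx⟩, hf _⟩
    intro y hy
    obtain ⟨a, ha⟩ := this hy
    exact ⟨a, a.2, by rw [← hf]; exact ha⟩

theorem HomOn.image_adjoin_field {θ : Module.End F Ω} {s : Set Ω}
    (h : HomOn θ (IntermediateField.adjoin F s : Set Ω)) :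
    θ '' (IntermediateField.adjoin F s : Set Ω) = IntermediateField.adjoin F (θ '' s) := by
  have hsub : (Algebra.adjoin F s : Set Ω) ⊆ IntermediateField.adjoin F s :=
    IntermediateField.algebra_adjoin_le_adjoin F s
  have e := (h.mono hsub).image_adjoin
  apply Set.Subset.antisymm
  · rintro _ ⟨x, hx, rfl⟩
    obtain ⟨r, hr, t, ht, rfl⟩ := IntermediateField.mem_adjoin_iff_div.mp hx
    rw [div_HomOn h (hsub hr) (hsub ht)]
    refine IntermediateField.mem_adjoin_iff_div.mpr ⟨θ r, ?_, θ t, ?_, rfl⟩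
    · have : θ r ∈ θ '' (Algebra.adjoin F s : Set Ω) := ⟨r, hr, rfl⟩
      rwa [e] at this
    · have : θ t ∈ θ '' (Algebra.adjoin F s : Set Ω) := ⟨t, ht, rfl⟩
      rwa [e] at this
  · intro y hy
    obtain ⟨r, hr, t, ht, rfl⟩ := IntermediateField.mem_adjoin_iff_div.mp hy
    have hr' : r ∈ θ '' (Algebra.adjoin F s : Set Ω) := by rw [e]; exact hr
    have ht' : t ∈ θ '' (Algebra.adjoin F s : Set Ω) := by rw [e]; exact ht
    obtain ⟨r1, hr1, rfl⟩ := hr'
    obtain ⟨t1, ht1, rfl⟩ := ht'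
    exact ⟨r1 / t1, div_mem (hsub hr1) (hsub ht1), div_HomOn h (hsub hr1) (hsub ht1)⟩

theorem HomOn.eqOn_adjoin {θ θ' : Module.End F Ω} {s : Set Ω}
    (h : HomOn θ (Algebra.adjoin F s : Set Ω)) (h' : HomOn θ' (Algebra.adjoin F s : Set Ω))
    (he : ∀ x ∈ s, θ x = θ' x) : ∀ x ∈ Algebra.adjoin F s, θ x = θ' x := by
  intro x hx
  induction hx using Algebra.adjoin_induction with
  | mem x hx => exact he x hx
  | algebraMap r => rw [algebraMap_HomOn h, algebraMap_HomOn h']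
  | add x y hx hy ihx ihy => rw [map_add, map_add, ihx, ihy]
  | mul x y hx hy ihx ihy => rw [h.2 x hx y hy, h'.2 x hx y hy, ihx, ihy]

theorem HomOn.eqOn_adjoin_field {θ θ' : Module.End F Ω} {s : Set Ω}
    (h : HomOn θ (IntermediateField.adjoin F s : Set Ω))
    (h' : HomOn θ' (IntermediateField.adjoin F s : Set Ω)) (he : ∀ x ∈ s, θ x = θ' x) :
    ∀ x ∈ IntermediateField.adjoin F s, θ x = θ' x := by
  have hsub : (Algebra.adjoin F s : Set Ω) ⊆ IntermediateField.adjoin F s :=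
    IntermediateField.algebra_adjoin_le_adjoin F s
  have e := (h.mono hsub).eqOn_adjoin (h'.mono hsub) he
  intro x hx
  obtain ⟨r, hr, t, ht, rfl⟩ := IntermediateField.mem_adjoin_iff_div.mp hx
  rw [div_HomOn h (hsub hr) (hsub ht), div_HomOn h' (hsub hr) (hsub ht), e r hr, e t ht]

theorem HomOn.fg_adjoin_image {θ : Module.End F Ω} {A : Subalgebra F Ω}
    (h : HomOn θ (A : Set Ω)) (hA : A.FG) : (Algebra.adjoin F (θ '' (A : Set Ω))).FG := by
  classical
  obtain ⟨t, rfl⟩ := hA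
  rw [h.image_adjoin, Algebra.adjoin_eq]
  exact ⟨t.image θ, by rw [Finset.coe_image]⟩

theorem HomOn.exists_inv {θ : Module.End F Ω} {L : IntermediateField F Ω}
    (h : HomOn θ (L : Set Ω)) : ∃ θ' : Module.End F Ω, (∀ x ∈ L, θ' (θ x) = x) ∧
      HomOn θ' (θ '' (L : Set Ω)) := by
  let f : L →ₗ[F] Ω := θ.comp L.val.toLinearMap
  have hf : LinearMap.ker f = ⊥ := by
    rw [LinearMap.ker_eq_bot]
    intro x y e
    exact Subtype.ext (h.injOn x.2 y.2 e)
  obtain ⟨g, hg⟩ := f.exists_leftInverse_of_injective hf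
  have key : ∀ x ∈ L, (L.val.toLinearMap.comp g) (θ x) = x := by
    intro x hx
    have := LinearMap.congr_fun hg ⟨x, hx⟩
    exact congrArg Subtype.val this
  refine ⟨L.val.toLinearMap.comp g, key, ?_, ?_⟩
  · have := key 1 L.one_mem
    rwa [h.1] at this
  · rintro _ ⟨a, ha, rfl⟩ _ ⟨b, hb, rfl⟩
    rw [← h.2 a ha b hb, key _ (L.mul_mem ha hb), key a ha, key b hb]

open scoped IntermediateField.algebraAdjoinAdjoin in
theorem HomOn.exists_ext {φ : Module.End F Ω} {A : Subalgebra F Ω} (h : HomOn φ (A : Set Ω))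
    (hi : Set.InjOn φ (A : Set Ω)) : ∃ θ : Module.End F Ω,
      HomOn θ (IntermediateField.adjoin F (A : Set Ω) : Set Ω) ∧ ∀ a ∈ A, θ a = φ a := by
  have hA : Algebra.adjoin F (A : Set Ω) = A := Algebra.adjoin_eq A
  have h1 : HomOn φ (Algebra.adjoin F (A : Set Ω) : Set Ω) := by rw [hA]; exact h
  have hi1 : Set.InjOn φ (Algebra.adjoin F (A : Set Ω) : Set Ω) := by rw [hA]; exact hi
  obtain ⟨f, hf⟩ := h1.exists_algHom
  have hfi : Function.Injective f := fun x y e =>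
    Subtype.ext (hi1 x.2 y.2 (by rw [← hf, ← hf, e]))
  let g : IntermediateField.adjoin F (A : Set Ω) →ₐ[F] Ω := IsFractionRing.liftAlgHom hfi
  let p : Submodule F Ω := (IntermediateField.adjoin F (A : Set Ω)).toSubalgebra.toSubmodule
  let g' : p →ₗ[F] Ω := g.toLinearMap
  obtain ⟨θ, hθ⟩ := g'.exists_extend
  have key : ∀ x : IntermediateField.adjoin F (A : Set Ω), θ x = g x := fun x =>
    LinearMap.congr_fun hθ x
  refine ⟨θ, ⟨?_, fun a ha b hb => ?_⟩, fun a ha => ?_⟩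
  · exact (key 1).trans (map_one g)
  · have := key (⟨a, ha⟩ * ⟨b, hb⟩)
    rw [map_mul, ← key, ← key] at this
    exact this
  · have ha' : a ∈ Algebra.adjoin F (A : Set Ω) := Algebra.subset_adjoin ha
    have e := key (algebraMap (Algebra.adjoin F (A : Set Ω)) _ ⟨a, ha'⟩)
    have e2 : g (algebraMap (Algebra.adjoin F (A : Set Ω)) _ ⟨a, ha'⟩) = f ⟨a, ha'⟩ :=
      IsFractionRing.lift_algebraMap (g := (f : Algebra.adjoin F (A : Set Ω) →+* Ω)) hfi _
    rw [e2, hf] at e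
    exact e

theorem exists_subalgebra_preimage (L : IntermediateField F Ω) (Θ : Set (Module.End F Ω))
    (h : ∀ θ ∈ Θ, HomOn θ (L : Set Ω)) (O : Subalgebra F Ω) :
    ∃ R : Subalgebra F Ω, ∀ x, x ∈ R ↔ x ∈ L ∧ ∀ θ ∈ Θ, θ x ∈ O := by
  refine ⟨{ carrier := {x | x ∈ L ∧ ∀ θ ∈ Θ, θ x ∈ O}
            mul_mem' := ?_
            add_mem' := ?_
            algebraMap_mem' := ?_ }, fun x => Iff.rfl⟩
  · rintro a b ⟨ha, ha'⟩ ⟨hb, hb'⟩
    refine ⟨L.mul_mem ha hb, fun θ hθ => ?_⟩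
    rw [(h θ hθ).2 a ha b hb]
    exact O.mul_mem (ha' θ hθ) (hb' θ hθ)
  · rintro a b ⟨ha, ha'⟩ ⟨hb, hb'⟩
    refine ⟨L.add_mem ha hb, fun θ hθ => ?_⟩
    rw [map_add]
    exact O.add_mem (ha' θ hθ) (hb' θ hθ)
  · intro r
    refine ⟨L.algebraMap_mem r, fun θ hθ => ?_⟩
    rw [algebraMap_HomOn (h θ hθ)]
    exact O.algebraMap_mem r

theorem rk_mono {s t : Set Ω} (h : s ⊆ t) : rk F s ≤ rk F t :=
  Matroid.eRk_mono _ h

theorem rk_union_le (s t : Set Ω) : rk F (s ∪ t) ≤ rk F s + rk F t :=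
  Matroid.eRk_union_le_eRk_add_eRk _ s t

theorem rk_empty : rk F (∅ : Set Ω) = 0 :=
  Matroid.eRk_empty _

theorem mem_closure_HomOn {s : Set Ω} {x : Ω} :
    x ∈ (AlgebraicIndependent.matroid F Ω).closure s ↔ IsAlgebraic (Algebra.adjoin F s) x := by
  rw [AlgebraicIndependent.matroid_closure_eq]
  exact Iff.rfl

theorem rk_adjoin_field (s : Set Ω) : rk F (IntermediateField.adjoin F s : Set Ω) = rk F s := by
  apply le_antisymm
  · unfold rk
    rw [← Matroid.eRk_closure_eq _ s]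
    apply Matroid.eRk_mono
    intro x hx
    obtain ⟨r, hr, t, ht, rfl⟩ := IntermediateField.mem_adjoin_iff_div.mp hx
    rw [mem_closure_HomOn, div_eq_mul_inv]
    exact (isAlgebraic_algebraMap (⟨r, hr⟩ : Algebra.adjoin F s)).mul
      (isAlgebraic_algebraMap (⟨t, ht⟩ : Algebra.adjoin F s)).inv
  · exact rk_mono (IntermediateField.subset_adjoin F s)

theorem rk_drop {φ : Module.End F Ω} {A : Subalgebra F Ω} (h : HomOn φ (A : Set Ω))
    (hi : ¬ Set.InjOn φ (A : Set Ω)) : rk F (φ '' (A : Set Ω)) + 1 ≤ rk F (A : Set Ω) := by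
  obtain ⟨a, haA, ha0, hφa⟩ : ∃ a ∈ A, a ≠ 0 ∧ φ a = 0 := by
    by_contra hc
    apply hi
    intro x hx y hy e
    by_contra hne
    exact hc ⟨x - y, A.sub_mem hx hy, sub_ne_zero.mpr hne, by rw [map_sub, e, sub_self]⟩
  obtain ⟨J, hJ⟩ := (AlgebraicIndependent.matroid F Ω).exists_isBasis (φ '' (A : Set Ω))
  have hJi : AlgebraicIndependent F ((↑) : J → Ω) := hJ.indep
  have hch : ∀ y : J, ∃ x : A, φ x = y := fun y => by
    obtain ⟨x, hx, e⟩ := hJ.subset y.2
    exact ⟨⟨x, hx⟩, e⟩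
  choose x hx using hch
  obtain ⟨f, hf⟩ := h.exists_algHom
  have hfx : f ∘ x = ((↑) : J → Ω) := funext fun y => (hf _).trans (hx y)
  have hxi : AlgebraicIndependent F x := AlgebraicIndependent.of_comp f (by rw [hfx]; exact hJi)
  have hxi' : AlgebraicIndependent F (A.val ∘ x) := hxi.map' Subtype.val_injective
  set I : Set Ω := Set.range (A.val ∘ x) with hI
  have hIi : (AlgebraicIndependent.matroid F Ω).Indep I := hxi'.coe_range
  have hIA : I ⊆ A := by rintro _ ⟨y, rfl⟩; exact (x y).2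
  have hIc : I.encard = J.encard := by
    rw [hI, ← Set.image_univ, (hxi'.injective.injOn).encard_image, Set.encard_univ]
    rfl
  have hS : Algebra.adjoin F I ≤ A := Algebra.adjoin_le hIA
  have hinj : ∀ c ∈ Algebra.adjoin F I, φ c = 0 → c = 0 := by
    intro c hc e
    rw [hI, Algebra.adjoin_range_eq_range_aeval] at hc
    obtain ⟨p, rfl⟩ := hc
    have e1 : aeval (A.val ∘ x) p = A.val (aeval x p) := by
      rw [← AlgHom.comp_apply, comp_aeval]; rfl
    have e2 : aeval (f ∘ x) p = f (aeval x p) := by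
      rw [← AlgHom.comp_apply, comp_aeval]; rfl
    have e3 : aeval ((↑) : J → Ω) p = 0 := by
      rw [← hfx, e2, hf]
      change φ (aeval (A.val ∘ x) p) = 0 at e
      rw [e1] at e
      exact e
    have : p = 0 := hJi (by rw [e3, map_zero])
    rw [this]; exact map_zero _
  have hna : a ∉ (AlgebraicIndependent.matroid F Ω).closure I := by
    rw [mem_closure_HomOn]
    intro hal
    obtain ⟨q, hq0, hq⟩ := hal.exists_nonzero_coeff_and_aeval_eq_zero
      (mem_nonZeroDivisors_of_ne_zero ha0)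
    obtain ⟨p, hp⟩ := Polynomial.X_dvd_sub_C (p := q)
    have e := congrArg (Polynomial.aeval a) hp
    rw [map_sub, hq, zero_sub, map_mul, Polynomial.aeval_X, Polynomial.aeval_C] at e
    have hm : Polynomial.aeval a p ∈ A := by
      rw [Polynomial.aeval_eq_sum_range]
      refine A.sum_mem fun i _ => ?_
      rw [Algebra.smul_def]
      exact A.mul_mem (hS (p.coeff i).2) (A.pow_mem haA i)
    have e' := congrArg φ e
    rw [h.2 a haA _ hm, hφa, zero_mul, map_neg, neg_eq_zero] at e'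
    exact hq0 (Subtype.ext (hinj _ (q.coeff 0).2 e'))
  unfold rk
  rw [hJ.eRk_eq_encard, ← hIc, ← hIi.eRk_eq_encard,
    ← Matroid.eRk_insert_eq_add_one (e := a) ⟨Set.mem_univ a, hna⟩]
  exact Matroid.eRk_mono _ (Set.insert_subset haA hIA)

theorem isAlgebraic_of_rk_eq_zero {s : Set Ω} (h : rk F s = 0) {x : Ω} (hx : x ∈ s) :
    IsAlgebraic F x := by
  by_contra hc
  have h1 : (AlgebraicIndependent.matroid F Ω).Indep {x} := by
    have : AlgebraicIndependent F ((↑) : ({x} : Set Ω) → Ω) :=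
      (algebraicIndependent_singleton_iff (⟨x, rfl⟩ : ({x} : Set Ω))).mpr hc
    exact this
  have h2 := h1.encard_le_eRk_of_subset (Set.singleton_subset_iff.mpr hx)
  unfold rk at h
  rw [h, Set.encard_singleton] at h2
  exact absurd h2 (by norm_num)

end

end Pool.Agent.MP_e2821c_ag.Dg
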