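import Pool.Agent.Lib.MP_e2821c_ag.Dg.CoreY

namespace Pool.Agent.MP_e2821c_ag.Dg

open MvPolynomial

universe u v w

noncomputable section

variable {F : Type u} [Field F] {N : ℕ}

theorem iL_injective : Function.Injective (iL F N) :=
  IsFractionRing.injective (LP F N) (OmN F N)

theorem iL_ne_zero_YVal {Q : LP F N} (hQ : Q ≠ 0) : iL F N Q ≠ 0 :=
  fun h => hQ (iL_injective (h.trans (map_zero _).symm))

theorem mono_ne_zero (m : Lat N) : mono F m ≠ 0 := by
  intro h
  have h1 := mono_add F m (-m)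
  rw [add_neg_cancel, mono_zero, h, zero_mul] at h1
  exact one_ne_zero h1

theorem mono_neg (m : Lat N) : mono F (-m) = (mono F m)⁻¹ := by
  have h1 := mono_add F m (-m)
  rw [add_neg_cancel, mono_zero] at h1
  exact eq_inv_of_mul_eq_one_right h1.symm

theorem iL_single_YVal (m : Lat N) (c : F) :
    iL F N (AddMonoidAlgebra.single m c) = algebraMap F (OmN F N) c * mono F m := by
  rw [mono, IsScalarTower.algebraMap_apply F (LP F N) (OmN F N), ← map_mul]
  congr 1
  rw [AddMonoidAlgebra.coe_algebraMap, Function.comp_apply, AddMonoidAlgebra.single_mul_single]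
  simp

theorem coeff_mul_of_le_YVal {K : Type*} [Field K] {x y : HahnSeries ℝ K} {a b : ℝ}
    (hx : (a : WithTop ℝ) ≤ x.orderTop) (hy : (b : WithTop ℝ) ≤ y.orderTop) :
    (x * y).coeff (a + b) = x.coeff a * y.coeff b := by
  rw [HahnSeries.coeff_mul]
  refine Finset.sum_eq_single (a, b) ?_ ?_
  · rintro ⟨i, j⟩ hij hne
    rw [Finset.mem_antidiagonal] at hij
    obtain ⟨hi, hj, hs⟩ := hij
    exfalso
    have h1 : a ≤ i := WithTop.coe_le_coe.1 (hx.trans (HahnSeries.orderTop_le_of_coeff_ne_zero hi))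
    have h2 : b ≤ j := WithTop.coe_le_coe.1 (hy.trans (HahnSeries.orderTop_le_of_coeff_ne_zero hj))
    simp only at hs
    exact hne (Prod.ext (by simp only; linarith) (by simp only; linarith))
  · intro h
    rw [Finset.mem_antidiagonal] at h
    by_contra hc
    exact h ⟨left_ne_zero_of_mul hc, right_ne_zero_of_mul hc, rfl⟩

theorem mem_support_wpart_YVal {w : Fn N} {g : ℝ} {P : LP F N} {m : Lat N} :
    m ∈ (wpart F w g P).coeff.support ↔ m ∈ P.coeff.support ∧ w (toV m) = g := by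
  classical
  simp only [wpart, Finsupp.support_filter, Finset.mem_filter]

theorem ne_zero_iff_YVal {P : LP F N} : P ≠ 0 ↔ ∃ m, m ∈ P.coeff.support := by
  constructor
  · intro h
    by_contra hc
    apply h
    ext m
    by_contra hm
    exact hc ⟨m, Finsupp.mem_support_iff.2 (by simpa using hm)⟩
  · rintro ⟨m, hm⟩ rfl
    simp at hm

theorem coeff_sig0_ne_zero_YVal {w : Fn N} {g : ℝ} {P : LP F N} :
    (sig0 F w P).coeff g ≠ 0 ↔ ∃ m ∈ P.coeff.support, w (toV m) = g := by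
  rw [coeff_sig0, map_ne_zero_iff _ iL_injective, ne_zero_iff_YVal]
  simp only [mem_support_wpart_YVal]

theorem le_orderTop_sig0_YVal {w : Fn N} {g : ℝ} {P : LP F N} :
    (g : WithTop ℝ) ≤ (sig0 F w P).orderTop ↔ ∀ m ∈ P.coeff.support, g ≤ w (toV m) := by
  rw [HahnSeries.le_orderTop_iff_forall]
  constructor
  · intro h m hm
    by_contra hc
    exact (coeff_sig0_ne_zero_YVal.2 ⟨m, hm, rfl⟩) (h _ (WithTop.coe_lt_coe.2 (not_le.1 hc)))
  · intro h j hj
    by_contra hc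
    obtain ⟨m, hm, rfl⟩ := coeff_sig0_ne_zero_YVal.1 hc
    exact absurd (h m hm) (not_le.2 (WithTop.coe_lt_coe.1 hj))

theorem orderTop_sig0_YVal {w : Fn N} {Q : LP F N} {m₀ : Lat N} (hm : m₀ ∈ Q.coeff.support)
    (hmin : ∀ m ∈ Q.coeff.support, w (toV m₀) ≤ w (toV m)) :
    (sig0 F w Q).orderTop = (w (toV m₀) : ℝ) :=
  le_antisymm (HahnSeries.orderTop_le_of_coeff_ne_zero (coeff_sig0_ne_zero_YVal.2 ⟨m₀, hm, rfl⟩))
    (le_orderTop_sig0_YVal.2 hmin)

theorem exists_min_YVal (w : Fn N) {Q : LP F N} (hQ : Q ≠ 0) :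
    ∃ m₀ ∈ Q.coeff.support, ∀ m ∈ Q.coeff.support, w (toV m₀) ≤ w (toV m) :=
  Finset.exists_min_image _ (fun m => w (toV m)) (ne_zero_iff_YVal.1 hQ)

theorem lt_orderTop_sig0_YVal {w : Fn N} {g : ℝ} {P : LP F N} :
    (g : WithTop ℝ) < (sig0 F w P).orderTop ↔ ∀ m ∈ P.coeff.support, g < w (toV m) := by
  rcases eq_or_ne P 0 with rfl | hP
  · simp
  · obtain ⟨m₀, hm, hmin⟩ := exists_min_YVal w hP
    rw [orderTop_sig0_YVal hm hmin, WithTop.coe_lt_coe]
    exact ⟨fun h m hm' => h.trans_le (hmin m hm'), fun h => h m₀ hm⟩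

theorem sig_mul_YVal (w : Fn N) {x : OmN F N} {P Q : LP F N} (h : x * iL F N Q = iL F N P) :
    sig F w x * sig0 F w Q = sig0 F w P := by
  rw [← sig_iL, ← sig_iL, ← map_mul, h]

theorem mem_nonunits_YVal {w : Fn N} {x : OmN F N} :
    x ∈ (VV F w).nonunits ↔ 0 < (sig F w x).orderTop := by
  rw [ValuationSubring.mem_nonunits_iff_or]
  rcases eq_or_ne x 0 with rfl | hx
  · simp
  · have h := HahnSeries.orderTop_mul (sig F w x) (sig F w x⁻¹)
    rw [← map_mul, mul_inv_cancel₀ hx, map_one, HahnSeries.orderTop_one] at h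
    rw [mem_VV, not_le]
    have h1 : (sig F w x).orderTop ≠ ⊤ := fun hc => by simp [hc] at h
    have h2 : (sig F w x⁻¹).orderTop ≠ ⊤ := fun hc => by
      rw [hc, add_top] at h
      exact WithTop.zero_ne_top h
    obtain ⟨a, ha⟩ := WithTop.ne_top_iff_exists.1 h1
    obtain ⟨b, hb⟩ := WithTop.ne_top_iff_exists.1 h2
    rw [← ha, ← hb] at h ⊢
    have h3 : (0 : ℝ) = a + b := by exact_mod_cast h
    simp only [hx, false_or]
    rw [← WithTop.coe_zero, WithTop.coe_lt_coe, WithTop.coe_lt_coe]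
    constructor <;> intro h4 <;> linarith

theorem mem_VV_div {w : Fn N} {x : OmN F N} {P Q : LP F N} (hQ : Q ≠ 0)
    (h : x * iL F N Q = iL F N P) : x ∈ VV F w ↔
      ∀ m ∈ P.coeff.support, ∃ m' ∈ Q.coeff.support, w (toV m') ≤ w (toV m) := by
  obtain ⟨m₀, hm, hmin⟩ := exists_min_YVal w hQ
  have h1 := HahnSeries.orderTop_mul (sig F w x) (sig0 F w Q)
  rw [sig_mul_YVal w h, orderTop_sig0_YVal hm hmin] at h1
  have h2 : x ∈ VV F w ↔ ((w (toV m₀) : ℝ) : WithTop ℝ) ≤ (sig0 F w P).orderTop := by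
    rw [mem_VV, h1]
    conv_rhs => lhs; rw [← zero_add ((w (toV m₀) : ℝ) : WithTop ℝ)]
    exact (WithTop.add_le_add_iff_right WithTop.coe_ne_top).symm
  rw [h2, le_orderTop_sig0_YVal]
  exact ⟨fun h m hm' => ⟨m₀, hm, h m hm'⟩, fun h m hm' => by
    obtain ⟨m', h1, h2⟩ := h m hm'
    exact (hmin m' h1).trans h2⟩

theorem mem_nonunits_div {w : Fn N} {x : OmN F N} {P Q : LP F N} (hQ : Q ≠ 0)
    (h : x * iL F N Q = iL F N P) : x ∈ (VV F w).nonunits ↔
      ∀ m ∈ P.coeff.support, ∃ m' ∈ Q.coeff.support, w (toV m') < w (toV m) := by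
  obtain ⟨m₀, hm, hmin⟩ := exists_min_YVal w hQ
  have h1 := HahnSeries.orderTop_mul (sig F w x) (sig0 F w Q)
  rw [sig_mul_YVal w h, orderTop_sig0_YVal hm hmin] at h1
  have h2 : x ∈ (VV F w).nonunits ↔ ((w (toV m₀) : ℝ) : WithTop ℝ) < (sig0 F w P).orderTop := by
    rw [mem_nonunits_YVal, h1]
    conv_rhs => lhs; rw [← zero_add ((w (toV m₀) : ℝ) : WithTop ℝ)]
    exact (WithTop.add_lt_add_iff_right WithTop.coe_ne_top).symm
  rw [h2, lt_orderTop_sig0_YVal]
  exact ⟨fun h m hm' => ⟨m₀, hm, h m hm'⟩, fun h m hm' => by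
    obtain ⟨m', h1, h2⟩ := h m hm'
    exact (hmin m' h1).trans_lt h2⟩

theorem res_one (w : Fn N) : res F w 1 = 1 := by
  rw [res_apply, map_one, HahnSeries.coeff_one, if_pos rfl]

theorem res_mul {w : Fn N} {x y : OmN F N} (hx : x ∈ VV F w) (hy : y ∈ VV F w) :
    res F w (x * y) = res F w x * res F w y := by
  have h := coeff_mul_of_le_YVal (a := 0) (b := 0) (x := sig F w x) (y := sig F w y) hx hy
  rw [add_zero, ← map_mul] at h
  exact h

theorem res_eq_zero {w : Fn N} {x : OmN F N} (hx : x ∈ (VV F w).nonunits) : res F w x = 0 :=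
  HahnSeries.coeff_eq_zero_of_lt_orderTop (mem_nonunits_YVal.1 hx)

theorem homOn_res (w : Fn N) : HomOn (res F w) (Oh F N : Set (OmN F N)) :=
  ⟨res_one w, fun _ ha _ hb => res_mul (ha w) (hb w)⟩

theorem res_div {w : Fn N} {x : OmN F N} {P Q : LP F N} (h : x * iL F N Q = iL F N P)
    (hx : x ∈ VV F w) {m₀ : Lat N} (hm : m₀ ∈ Q.coeff.support)
    (hmin : ∀ m ∈ Q.coeff.support, w (toV m₀) ≤ w (toV m)) :
    wpart F w (w (toV m₀)) Q ≠ 0 ∧ res F w x * iL F N (wpart F w (w (toV m₀)) Q) =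
      iL F N (wpart F w (w (toV m₀)) P) := by
  refine ⟨ne_zero_iff_YVal.2 ⟨m₀, mem_support_wpart_YVal.2 ⟨hm, rfl⟩⟩, ?_⟩
  have h1 := coeff_mul_of_le_YVal (a := 0) (b := w (toV m₀)) (x := sig F w x) (y := sig0 F w Q) hx
    (orderTop_sig0_YVal hm hmin).ge
  rw [zero_add, sig_mul_YVal w h, coeff_sig0, coeff_sig0] at h1
  exact h1.symm

theorem exists_div_YVal (x : OmN F N) : ∃ P Q : LP F N, Q ≠ 0 ∧ x * iL F N Q = iL F N P := by
  obtain ⟨P, Q, hQ, rfl⟩ := IsFractionRing.div_surjective (A := LP F N) x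
  have hQ' : Q ≠ 0 := nonZeroDivisors.ne_zero hQ
  exact ⟨P, Q, hQ', div_mul_cancel₀ _ (iL_ne_zero_YVal hQ')⟩

theorem eventually_pos_YVal {a : ℝ} (b : ℝ) (ha : 0 < a) :
    ∀ᶠ ε in nhds (0 : ℝ), 0 < a + ε * b := by
  have h : Filter.Tendsto (fun ε : ℝ => a + ε * b) (nhds 0) (nhds (a + 0 * b)) :=
    (continuous_const.add (continuous_id.mul continuous_const)).tendsto 0
  rw [zero_mul, add_zero] at h
  exact h.eventually (lt_mem_nhds ha)

theorem res_mem_Oh (w : Fn N) {x : OmN F N} (hx : x ∈ Oh F N) : res F w x ∈ Oh F N := by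
  obtain ⟨P, Q, hQ, h⟩ := exists_div_YVal x
  obtain ⟨m₀, hm, hmin⟩ := exists_min_YVal w hQ
  obtain ⟨hQ₀, h₀⟩ := res_div h (hx w) hm hmin
  intro w'
  rw [mem_VV_div hQ₀ h₀]
  intro m hmP
  obtain ⟨hmP, hmw⟩ := mem_support_wpart_YVal.1 hmP
  by_contra hc
  have hev : ∀ᶠ ε in nhdsWithin (0 : ℝ) (Set.Ioi 0), ∀ m' ∈ Q.coeff.support,
      0 < (w (toV m') - w (toV m)) + ε * (w' (toV m') - w' (toV m)) := by
    rw [Filter.eventually_all_finset]
    intro m' hm'
    rcases (hmin m' hm').lt_or_eq with h1 | h1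
    · exact (eventually_pos_YVal _ (by rw [hmw]; linarith)).filter_mono nhdsWithin_le_nhds
    · filter_upwards [self_mem_nhdsWithin] with ε hε
      have h2 : w' (toV m) < w' (toV m') := by
        by_contra h3
        exact hc ⟨m', mem_support_wpart_YVal.2 ⟨hm', h1.symm⟩, not_lt.1 h3⟩
      rw [hmw, h1, sub_self, zero_add]
      exact mul_pos hε (sub_pos.2 h2)
  obtain ⟨ε, hε⟩ := hev.exists
  obtain ⟨m', hm', hle⟩ := (mem_VV_div hQ h).1 (hx (w + ε • w')) m hmP
  have h3 := hε m' hm'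
  simp only [LinearMap.add_apply, LinearMap.smul_apply, smul_eq_mul] at hle
  linarith

theorem mono_mem_KW_YVal {W : Sb N} {m : Lat N} (hm : toV m ∈ W) : mono F m ∈ KW F W :=
  IntermediateField.subset_adjoin _ _ ⟨m, hm, rfl⟩

theorem iL_mul_mem_KW_YVal {W : Sb N} {P : LP F N} (m₀ : Lat N)
    (hP : ∀ m ∈ P.coeff.support, toV m - toV m₀ ∈ W) : iL F N P * mono F (-m₀) ∈ KW F W := by
  rw [← AddMonoidAlgebra.sum_coeff_single P, Finsupp.sum, map_sum, Finset.sum_mul]
  refine sum_mem fun m hm => ?_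
  rw [iL_single_YVal, mul_assoc, ← mono_add]
  refine mul_mem (IntermediateField.algebraMap_mem _ _) (mono_mem_KW_YVal ?_)
  rw [← sub_eq_add_neg, map_sub]
  exact hP m hm

theorem mem_KW_of_div_YVal {W : Sb N} {x : OmN F N} {P Q : LP F N} (hQ : Q ≠ 0) (m₀ : Lat N)
    (hP : ∀ m ∈ P.coeff.support, toV m - toV m₀ ∈ W)
    (hQ' : ∀ m ∈ Q.coeff.support, toV m - toV m₀ ∈ W) (h : x * iL F N Q = iL F N P) :
    x ∈ KW F W := by
  have h1 : x = (iL F N P * mono F (-m₀)) / (iL F N Q * mono F (-m₀)) := by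
    rw [eq_div_iff (mul_ne_zero (iL_ne_zero_YVal hQ) (mono_ne_zero _)), ← mul_assoc, h]
  rw [h1]
  exact div_mem (iL_mul_mem_KW_YVal m₀ hP) (iL_mul_mem_KW_YVal m₀ hQ')

theorem supp_mul_YVal {W : Sb N} {P Q : LP F N} (hP : ∀ m ∈ P.coeff.support, toV m ∈ W)
    (hQ : ∀ m ∈ Q.coeff.support, toV m ∈ W) : ∀ m ∈ (P * Q).coeff.support, toV m ∈ W := by
  classical
  intro m hm
  obtain ⟨a, ha, b, hb, rfl⟩ := Finset.mem_add.1 (AddMonoidAlgebra.support_coeff_mul_subset P Q hm)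
  rw [map_add]
  exact add_mem (hP a ha) (hQ b hb)

theorem supp_add_YVal {W : Sb N} {P Q : LP F N} (hP : ∀ m ∈ P.coeff.support, toV m ∈ W)
    (hQ : ∀ m ∈ Q.coeff.support, toV m ∈ W) : ∀ m ∈ (P + Q).coeff.support, toV m ∈ W := by
  classical
  intro m hm
  rw [AddMonoidAlgebra.coeff_add] at hm
  rcases Finset.mem_union.1 (Finsupp.support_add hm) with h | h
  · exact hP m h
  · exact hQ m h

theorem supp_single_YVal {W : Sb N} {m₀ : Lat N} (h : toV m₀ ∈ W) (c : F) :
    ∀ m ∈ (AddMonoidAlgebra.single m₀ c : LP F N).coeff.support, toV m ∈ W := by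
  intro m hm
  rw [AddMonoidAlgebra.coeff_single] at hm
  rw [Finset.mem_singleton.1 (Finsupp.support_single_subset hm)]
  exact h

theorem supp_one_YVal {W : Sb N} : ∀ m ∈ (1 : LP F N).coeff.support, toV m ∈ W :=
  supp_single_YVal (m₀ := 0) (by rw [map_zero]; exact W.zero_mem) 1

theorem mem_KW_iff {W : Sb N} {x : OmN F N} : x ∈ KW F W ↔ ∃ P Q : LP F N, Q ≠ 0 ∧
    (∀ m ∈ P.coeff.support, toV m ∈ W) ∧ (∀ m ∈ Q.coeff.support, toV m ∈ W) ∧
    x * iL F N Q = iL F N P := by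
  constructor
  · intro hx
    induction hx using IntermediateField.adjoin_induction with
    | mem x hx =>
      obtain ⟨m, hm, rfl⟩ := hx
      exact ⟨AddMonoidAlgebra.single m 1, 1, one_ne_zero, supp_single_YVal hm 1, supp_one_YVal,
        by rw [map_one, mul_one, mono]⟩
    | algebraMap c =>
      exact ⟨AddMonoidAlgebra.single 0 c, 1, one_ne_zero,
        supp_single_YVal (by rw [map_zero]; exact W.zero_mem) c, supp_one_YVal,
        by rw [map_one, mul_one, iL_single_YVal, mono_zero, mul_one]⟩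
    | add x y _ _ hx hy =>
      obtain ⟨P, Q, hQ, h1, h2, h3⟩ := hx
      obtain ⟨P', Q', hQ', h1', h2', h3'⟩ := hy
      exact ⟨P * Q' + P' * Q, Q * Q', mul_ne_zero hQ hQ',
        supp_add_YVal (supp_mul_YVal h1 h2') (supp_mul_YVal h1' h2), supp_mul_YVal h2 h2', by
          rw [map_add, map_mul, map_mul, map_mul, ← h3, ← h3']; ring⟩
    | inv x _ hx =>
      obtain ⟨P, Q, hQ, h1, h2, h3⟩ := hx
      rcases eq_or_ne x 0 with rfl | hx0
      · exact ⟨P, Q, hQ, h1, h2, by rw [inv_zero, h3]⟩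
      · refine ⟨Q, P, ?_, h2, h1, by rw [← h3, inv_mul_cancel_left₀ hx0]⟩
        rintro rfl
        rw [map_zero] at h3
        exact mul_ne_zero hx0 (iL_ne_zero_YVal hQ) h3
    | mul x y _ _ hx hy =>
      obtain ⟨P, Q, hQ, h1, h2, h3⟩ := hx
      obtain ⟨P', Q', hQ', h1', h2', h3'⟩ := hy
      exact ⟨P * P', Q * Q', mul_ne_zero hQ hQ', supp_mul_YVal h1 h1', supp_mul_YVal h2 h2', by
        rw [map_mul, map_mul, ← h3, ← h3']; ring⟩
  · rintro ⟨P, Q, hQ, h1, h2, h3⟩
    exact mem_KW_of_div_YVal hQ 0 (by simpa only [map_zero, sub_zero] using h1)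
      (by simpa only [map_zero, sub_zero] using h2) h3

theorem KW_mono {W W' : Sb N} (h : W ≤ W') : KW F W ≤ KW F W' :=
  IntermediateField.adjoin.mono _ _ _ fun _ ⟨m, hm, hx⟩ => ⟨m, h hm, hx⟩

theorem OW_mono {W W' : Sb N} (h : W ≤ W') : OW F W ≤ OW F W' :=
  fun _ hx => ⟨hx.1, KW_mono h hx.2⟩

theorem mem_OW {W : Sb N} {x : OmN F N} : x ∈ OW F W ↔ x ∈ Oh F N ∧ x ∈ KW F W :=
  Iff.rfl

theorem KW_bot : KW F (⊥ : Sb N) = ⊥ := by
  rw [eq_bot_iff, KW, IntermediateField.adjoin_le_iff]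
  rintro x ⟨m, hm, rfl⟩
  have h : m = 0 := by
    funext i
    have := congrFun ((Submodule.mem_bot ℚ).1 hm) i
    simpa using this
  rw [h, mono_zero]
  exact one_mem (⊥ : IntermediateField F (OmN F N))

theorem OW_bot : OW F (⊥ : Sb N) = ⊥ := by
  rw [OW, KW_bot, IntermediateField.bot_toSubalgebra, inf_bot_eq]

theorem res_eq_self {w : Fn N} {W : Sb N} (hW : W ≤ LinearMap.ker w) {x : OmN F N}
    (hx : x ∈ KW F W) : res F w x = x := by
  have h : sig F w x = HahnSeries.C x := by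
    induction hx using IntermediateField.adjoin_induction with
    | mem x hx =>
      obtain ⟨m, hm, rfl⟩ := hx
      rw [mono, sig_iL, sig0_single, LinearMap.mem_ker.1 (hW hm), HahnSeries.C_apply]
    | algebraMap c => exact sig_algebraMap F w c
    | add x y _ _ hx hy => rw [map_add, map_add, hx, hy]
    | inv x _ hx => rw [map_inv₀, map_inv₀, hx]
    | mul x y _ _ hx hy => rw [map_mul, map_mul, hx, hy]
  rw [res_apply, h, HahnSeries.C_apply, HahnSeries.coeff_single_same]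

theorem res_mem_OW (w : Fn N) {W : Sb N} {x : OmN F N} (hx : x ∈ OW F W) :
    res F w x ∈ OW F (W ⊓ LinearMap.ker w) := by
  refine ⟨res_mem_Oh w hx.1, ?_⟩
  obtain ⟨P, Q, hQ, h1, h2, h3⟩ := mem_KW_iff.1 hx.2
  obtain ⟨m₀, hm, hmin⟩ := exists_min_YVal w hQ
  obtain ⟨hQ₀, h₀⟩ := res_div h3 (hx.1 w) hm hmin
  refine mem_KW_of_div_YVal hQ₀ m₀ (fun m hm' => ?_) (fun m hm' => ?_) h₀
  · obtain ⟨ha, hb⟩ := mem_support_wpart_YVal.1 hm'
    exact ⟨sub_mem (h1 m ha) (h2 m₀ hm), by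
      change w (toV m - toV m₀) = 0
      rw [map_sub, hb, sub_self]⟩
  · obtain ⟨ha, hb⟩ := mem_support_wpart_YVal.1 hm'
    exact ⟨sub_mem (h2 m ha) (h2 m₀ hm), by
      change w (toV m - toV m₀) = 0
      rw [map_sub, hb, sub_self]⟩

theorem exists_fn_ker (W : Sb N) : ∃ w : Fn N, LinearMap.ker w = W := by
  have h1 : ((Module.finrank ℚ (Vec N ⧸ W) : ℕ) : Cardinal) ≤ Module.rank ℚ ℝ := by
    rw [Real.rank_rat_real]
    exact Cardinal.natCast_le_aleph0.trans Cardinal.aleph0_le_continuum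
  obtain ⟨f, hf⟩ := Module.le_rank_iff_exists_linearMap.1 h1
  let e := (Module.finBasis ℚ (Vec N ⧸ W)).equivFun
  refine ⟨(f.comp e.toLinearMap).comp W.mkQ, ?_⟩
  have h2 : LinearMap.ker (f.comp e.toLinearMap) = ⊥ :=
    LinearMap.ker_eq_bot.2 fun a b hab => e.injective (hf hab)
  rw [LinearMap.ker_comp, h2, Submodule.comap_bot, Submodule.ker_mkQ]

theorem exists_injective_perturb (w : Fn N) (E : Finset (Vec N)) :
    ∃ w' : Fn N, Function.Injective w' ∧ ∀ e ∈ E, 0 < w e → 0 < w' e := by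
  obtain ⟨w₀, hw₀⟩ := exists_fn_ker (⊥ : Sb N)
  have hev : ∀ᶠ ε in nhds (0 : ℝ), ∀ e ∈ E, 0 < w e → 0 < w e + ε * w₀ e := by
    rw [Filter.eventually_all_finset]
    intro e _
    by_cases h : 0 < w e
    · exact (eventually_pos_YVal _ h).mono fun ε hε _ => hε
    · exact Filter.Eventually.of_forall fun ε h' => absurd h' h
  have hc : (Set.range fun v : Vec N => -w v / w₀ v).Countable := Set.countable_range _
  obtain ⟨ε, hε₁, hε₂⟩ := (hc.dense_compl ℝ).inter_nhds_nonempty hev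
  refine ⟨w + ε • w₀, ?_, fun e he h => by simpa using hε₂ e he h⟩
  rw [injective_iff_map_eq_zero]
  intro v hv
  by_contra hv0
  have h1 : w₀ v ≠ 0 := fun h => hv0 (by
    have : v ∈ LinearMap.ker w₀ := h
    rwa [hw₀, Submodule.mem_bot] at this)
  refine hε₁ ⟨v, ?_⟩
  simp only [LinearMap.add_apply, LinearMap.smul_apply, smul_eq_mul] at hv
  change -w v / w₀ v = ε
  rw [div_eq_iff h1]
  linarith

theorem mem_Oh_of_injective {x : OmN F N}
    (h : ∀ w : Fn N, Function.Injective w → x ∈ VV F w) : x ∈ Oh F N := by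
  classical
  obtain ⟨P, Q, hQ, hx⟩ := exists_div_YVal x
  intro w
  rw [mem_VV_div hQ hx]
  intro m hm
  by_contra hc
  obtain ⟨w', h1, h2⟩ := exists_injective_perturb w
    (Q.coeff.support.image fun m' => toV m' - toV m)
  obtain ⟨m', hm', hle⟩ := (mem_VV_div hQ hx).1 (h w' h1) m hm
  have h3 := h2 _ (Finset.mem_image_of_mem _ hm') (by
    rw [map_sub, sub_pos]
    by_contra h4
    exact hc ⟨m', hm', not_lt.1 h4⟩)
  rw [map_sub, sub_pos] at h3
  exact absurd hle (not_le.2 h3)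

theorem KW_top_YVal (x : OmN F N) : x ∈ KW F (⊤ : Sb N) := by
  obtain ⟨P, Q, hQ, hx⟩ := exists_div_YVal x
  exact mem_KW_iff.2 ⟨P, Q, hQ, fun _ _ => trivial, fun _ _ => trivial, hx⟩

theorem mem_VV_of_isAlgebraic_YVal (w : Fn N) {x : OmN F N} (h : IsAlgebraic F x) :
    x ∈ VV F w := by
  obtain ⟨p, hp, hx⟩ := h.isIntegral
  let φ : F →+* VV F w := (algebraMap F (OmN F N)).codRestrict (VV F w) (algebraMap_mem_VV F w)
  have h1 : IsIntegral (VV F w) x := ⟨p.map φ, hp.map φ, by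
    rw [Polynomial.eval₂_map]
    exact hx⟩
  obtain ⟨y, rfl⟩ := IsIntegrallyClosed.isIntegral_iff.1 h1
  exact y.2

theorem mem_bot_of_isAlgebraic {x : OmN F N} (h : IsAlgebraic F x) :
    x ∈ (⊥ : Subalgebra F (OmN F N)) := by
  obtain ⟨w, hw⟩ := exists_fn_ker (⊥ : Sb N)
  have h1 : res F w x ∈ OW F (⊤ ⊓ LinearMap.ker w) :=
    res_mem_OW w ⟨fun w' => mem_VV_of_isAlgebraic_YVal w' h, KW_top_YVal x⟩
  rw [top_inf_eq, hw, OW_bot] at h1
  obtain ⟨c, hc⟩ := Algebra.mem_bot.1 h1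
  have h2 : res F w (algebraMap F (OmN F N) c) = algebraMap F (OmN F N) c :=
    res_eq_self (W := ⊥) bot_le (IntermediateField.algebraMap_mem _ c)
  have h3 : IsAlgebraic F (x - algebraMap F (OmN F N) c) :=
    (h.isIntegral.sub isIntegral_algebraMap).isAlgebraic
  by_cases h4 : x - algebraMap F (OmN F N) c = 0
  · rw [sub_eq_zero.1 h4]
    exact Subalgebra.algebraMap_mem _ c
  · have h5 := res_mul (mem_VV_of_isAlgebraic_YVal w h3) (mem_VV_of_isAlgebraic_YVal w h3.inv)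
    rw [mul_inv_cancel₀ h4, res_one, map_sub, h2, hc, sub_self, zero_mul] at h5
    exact absurd h5 one_ne_zero

/-- The inclusion of natural exponents into integral exponents. -/
def natLat_YVal (N : ℕ) : (Fin N →₀ ℕ) →+ Lat N where
  toFun s i := (s i : ℤ)
  map_zero' := by funext i; simp
  map_add' a b := by funext i; simp

theorem algebraicIndependent_mono :
    AlgebraicIndependent F fun i : Fin N => mono F (Pi.single i 1 : Lat N) := by
  have h : (aeval fun i : Fin N => mono F (Pi.single i 1 : Lat N)) =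
      (IsScalarTower.toAlgHom F (LP F N) (OmN F N)).comp
        (AddMonoidAlgebra.mapDomainAlgHom F F (natLat_YVal N)) := by
    refine MvPolynomial.algHom_ext fun i => ?_
    rw [aeval_X, AlgHom.comp_apply, AddMonoidAlgebra.mapDomainAlgHom_apply]
    change _ = iL F N (AddMonoidAlgebra.mapDomain (natLat_YVal N)
      (AddMonoidAlgebra.single (Finsupp.single i 1) 1))
    rw [AddMonoidAlgebra.mapDomain_single, mono]
    congr 2
    funext j
    simp [natLat_YVal, Finsupp.single_apply, Pi.single_apply, eq_comm]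
  rw [AlgebraicIndependent, h, AlgHom.coe_comp]
  refine Function.Injective.comp iL_injective (AddMonoidAlgebra.mapDomain_injective ?_)
  intro a b hab
  ext i
  have := congrFun hab i
  simpa [natLat_YVal] using this

theorem adjoin_mono_eq_top :
    IntermediateField.adjoin F (Set.range fun i : Fin N => mono F (Pi.single i 1 : Lat N)) = ⊤ := by
  set K := IntermediateField.adjoin F (Set.range fun i : Fin N => mono F (Pi.single i 1 : Lat N))
  let G : AddSubgroup (Lat N) :=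
    { carrier := {m | mono F m ∈ K}
      zero_mem' := by
        change mono F 0 ∈ K
        rw [mono_zero]
        exact one_mem K
      add_mem' := fun {a b} ha hb => by
        change mono F (a + b) ∈ K
        rw [mono_add]
        exact mul_mem ha hb
      neg_mem' := fun {a} ha => by
        change mono F (-a) ∈ K
        rw [mono_neg]
        exact inv_mem ha }
  have hG : ∀ m : Lat N, m ∈ G := fun m => by
    have h : m = ∑ i, m i • (Pi.single i 1 : Lat N) := by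
      funext j
      simp [Finset.sum_apply, Pi.single_apply]
    rw [h]
    refine sum_mem fun i _ => zsmul_mem ?_ _
    change mono F (Pi.single i 1) ∈ K
    exact IntermediateField.subset_adjoin _ _ (Set.mem_range_self i)
  rw [eq_top_iff]
  intro x _
  have h : KW F (⊤ : Sb N) ≤ K := by
    rw [KW, IntermediateField.adjoin_le_iff]
    rintro y ⟨m, -, rfl⟩
    exact hG m
  exact h (KW_top_YVal x)

end

end Pool.Agent.MP_e2821c_ag.Dg
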