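import Pool.Agent.Lib.MP_e2821c_ag.Dg.YCx
import Pool.Agent.Lib.MP_e2821c_ag.Dg.GInj
import Pool.Agent.Lib.MP_e2821c_ag.Dg.YVal
import Pool.Agent.Lib.MP_e2821c_ag.Dg.Chn
import Pool.Agent.Lib.MP_e2821c_ag.Dg.Ops
import Pool.Agent.Lib.MP_e2821c_ag.Dg.HomOn

namespace Pool.Agent.MP_e2821c_ag.Dg

open MvPolynomial

universe u v w

noncomputable section

variable {F : Type u} [Field F] [CharZero F] {N q : ℕ}

theorem exists_finsupp_Acyc {G ι : Type*} [AddCommGroup G] {H : ι → AddSubgroup G} {x : G}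
    (hx : x ∈ ⨆ i, H i) : ∃ d : ι →₀ G, (∀ i, d i ∈ H i) ∧ x = ∑ i ∈ d.support, d i := by
  classical
  refine AddSubgroup.iSup_induction H
    (C := fun x => ∃ d : ι →₀ G, (∀ i, d i ∈ H i) ∧ x = d.sum fun _ a => a) hx ?_ ?_ ?_
  · intro i x hx
    refine ⟨Finsupp.single i x, fun j => ?_, by rw [Finsupp.sum_single_index rfl]⟩
    rw [Finsupp.single_apply]
    split_ifs with h
    · subst h; exact hx
    · exact zero_mem _
  · exact ⟨0, fun i => zero_mem _, by rw [Finsupp.sum_zero_index]⟩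
  · rintro x y ⟨d, hd, rfl⟩ ⟨d', hd', rfl⟩
    exact ⟨d + d', fun i => add_mem (hd i) (hd' i),
      (Finsupp.sum_add_index' (fun _ => rfl) (fun _ _ _ => rfl)).symm⟩

theorem exists_cycle_Acyc {W : Sb N} (S : Finset {W' // W' < W}) :
    ∀ d : {W' // W' < W} → Xq G2 (OmN F N) q, (∀ i, d i ∈ CW F i.1 q) →
      ∀ c ∈ CW F W (q + 1), dX _ q c = ∑ i ∈ S, d i →
        ∃ c' ∈ CW F W (q + 1), c - c' ∈ Deg F W (q + 1) ∧ dX _ q c' = 0 := by
  classical
  induction S using Finset.induction_on with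
  | empty =>
    intro d _ c hc h
    exact ⟨c, hc, by rw [sub_self]; exact zero_mem _, by simpa using h⟩
  | insert i S hi ih =>
    intro d hd c hc h
    obtain ⟨w, hw⟩ := exists_fn_ker i.1
    have h1 : pE (res F w) (q + 1) c ∈ CW F i.1 (q + 1) :=
      CW_mono (inf_le_right.trans hw.le) (res_mem_CW w hc)
    obtain ⟨c', hc', h2, h3⟩ := ih (fun j => d j - pE (res F w) q (d j))
      (fun j => sub_mem (hd j) (CW_mono inf_le_left (res_mem_CW w (hd j))))
      (c - pE (res F w) (q + 1) c) (sub_mem hc (CW_mono i.2.le h1)) (by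
        rw [map_sub, ← push_dX, h, Finset.sum_insert hi, map_add, map_sum,
          res_eq_self_CW hw.ge (hd i), Finset.sum_sub_distrib]
        abel)
    refine ⟨c', hc', ?_, h3⟩
    have e : c - c' = pE (res F w) (q + 1) c + (c - pE (res F w) (q + 1) c - c') := by abel
    rw [e]
    exact add_mem (CW_le_Deg i.2 h1) h2

theorem acyc {W : Sb N} (hW : W ≠ ⊥) {c : Xq G2 (OmN F N) (q + 1)} (hc : c ∈ CW F W (q + 1))
    (hd : dX _ q c ∈ Deg F W q) :
    ∃ e ∈ CW F W (q + 2), c - dX _ (q + 1) e ∈ Deg F W (q + 1) := by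
  unfold Deg at hd
  obtain ⟨d, hd1, hd2⟩ := exists_finsupp_Acyc hd
  obtain ⟨c', hc', h1, h2⟩ := exists_cycle_Acyc d.support d hd1 c hc hd2
  obtain ⟨c0, h3, -, h4⟩ := onto_Om q c' (CR_mono le_top hc') h2
  have h5 : c0 ∈ Deg F W (q + 1) := const_mem_Deg hW h3
  have h6 : c' - c0 ∈ CW F W (q + 1) := sub_mem hc' (Deg_le_CW W h5)
  have h7 := inj_Oh (KW F W) {1} (Set.finite_singleton _)
    (fun θ hθ => by rw [Set.mem_singleton_iff.1 hθ]; exact homOn_one _) (OW F W)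
    (fun x => by
      rw [mem_OW]
      constructor
      · rintro ⟨a, b⟩
        exact ⟨b, fun θ hθ => by rw [Set.mem_singleton_iff.1 hθ]; exact a⟩
      · rintro ⟨a, b⟩
        exact ⟨b 1 rfl, a⟩) (q + 1) (c' - c0) h6.1 h4
  obtain ⟨e, he, h8⟩ := h7.exists_CR h6.2
  refine ⟨e, he, ?_⟩
  have e1 : c - dX _ (q + 1) e = (c - c') + c0 := by rw [h8]; abel
  rw [e1]
  exact add_mem h1 h5

end

end Pool.Agent.MP_e2821c_ag.Dg
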