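import Pool.Agent.Lib.MP_e2821c_ag.Dg.TrG

namespace Pool.Agent.MP_e2821c_ag.Dg

open MvPolynomial
open scoped TensorProduct

universe u v w

noncomputable section

theorem sat_TrSpec {R A : Type u} [CommRing R] [IsDomain R] [IsNoetherianRing R] [CommRing A]
    [Algebra R A] (I : Ideal A) (t : R) (p : Ideal R) [hp : p.IsPrime] (ht : p = Ideal.span {t})
    (htf : ∀ x, algebraMap R A t * x ∈ I → ∃ s, s ∉ p ∧ algebraMap R A s * x ∈ I)
    (r : R) (hr : r ≠ 0) (x : A) (hx : algebraMap R A r * x ∈ I) :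
    ∃ s, s ∉ p ∧ algebraMap R A s * x ∈ I := by
  have htu : ¬ IsUnit t := fun h => hp.ne_top (by rw [ht]; exact Ideal.span_singleton_eq_top.2 h)
  obtain ⟨n, r', hr', rfl⟩ := WfDvdMonoid.max_power_factor' hr htu
  have key : ∀ (n : ℕ) (y : A), algebraMap R A (t ^ n) * y ∈ I →
      ∃ s, s ∉ p ∧ algebraMap R A s * y ∈ I := by
    intro n
    induction n with
    | zero => exact fun y hy => ⟨1, (Ideal.ne_top_iff_one p).1 hp.ne_top, by simpa using hy⟩
    | succ n ih =>
      intro y hy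
      obtain ⟨s, hs, h1⟩ := ih (algebraMap R A t * y) (by
        rw [← mul_assoc, ← map_mul, ← pow_succ]; exact hy)
      obtain ⟨s', hs', h2⟩ := htf (algebraMap R A s * y) (by rw [mul_left_comm]; exact h1)
      refine ⟨s' * s, fun h => (hp.mem_or_mem h).elim hs' hs, ?_⟩
      rw [map_mul, mul_assoc]; exact h2
  obtain ⟨s, hs, h⟩ := key n (algebraMap R A r' * x) (by rw [← mul_assoc, ← map_mul]; exact hx)
  refine ⟨s * r', fun h => (hp.mem_or_mem h).elim hs fun h' => hr' ?_, ?_⟩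
  · rw [ht] at h'; exact Ideal.mem_span_singleton.1 h'
  · rw [map_mul, mul_assoc]; exact h

theorem torsionFree_TrSpec {R D M N : Type u} [CommRing R] [CommRing D] [IsDomain D]
    [Algebra R D] [AddCommGroup M] [Module R M] [AddCommGroup N] [Module R N] [Module D N]
    [IsScalarTower R D N] (S : Submonoid R) [IsLocalization S D] (f : M →ₗ[R] N)
    [IsLocalizedModule S f]
    (h : ∀ r : R, r ≠ 0 → ∀ x : M, r • x = 0 → ∃ s ∈ S, s • x = 0) :
    Module.IsTorsionFree D N := by
  refine Module.IsTorsionFree.of_smul_eq_zero fun d m hdm => ?_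
  obtain ⟨⟨r, s⟩, rfl⟩ := IsLocalization.mk'_surjective S d
  obtain ⟨⟨x, u⟩, rfl⟩ := IsLocalizedModule.mk'_surjective S f m
  simp only [Function.uncurry_apply_pair] at hdm ⊢
  rw [IsLocalizedModule.mk'_smul_mk', IsLocalizedModule.mk'_eq_zero'] at hdm
  obtain ⟨v, hv⟩ := hdm
  by_cases hr : (v : R) * r = 0
  · left
    rw [IsLocalization.mk'_eq_zero_iff]
    exact ⟨v, hr⟩
  · right
    obtain ⟨w, hw, h1⟩ := h _ hr x (by rw [mul_smul]; exact hv)
    rw [IsLocalizedModule.mk'_eq_zero']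
    exact ⟨⟨w, hw⟩, h1⟩

theorem trace_loc_TrSpec (R A Ω Ω' : Type u) [CommRing R] [IsDomain R] [IsNoetherianRing R]
    [CommRing A] [Field Ω] [Field Ω'] [Algebra R A] [Algebra R Ω] [FaithfulSMul R Ω]
    [Algebra R Ω'] (I : Ideal A) (hI : FiniteOver R A (algebraMap R A) I) (t : R)
    (ht : RingHom.ker (algebraMap R Ω') = Ideal.span {t})
    (htf : ∀ x, algebraMap R A t * x ∈ I →
      ∃ s, algebraMap R Ω' s ≠ 0 ∧ algebraMap R A s * x ∈ I) (y : A) :
    ∃ r s : R, algebraMap R Ω' s ≠ 0 ∧ algebraMap R Ω s * Cy.trQ R A Ω I y = algebraMap R Ω r ∧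
      algebraMap R Ω' s * Cy.trQ R A Ω' I y = algebraMap R Ω' r := by
  obtain ⟨p, hp⟩ : ∃ p : Ideal R, p = RingHom.ker (algebraMap R Ω') := ⟨_, rfl⟩
  have : p.IsPrime := hp ▸ RingHom.ker_isPrime _
  let D := Localization.AtPrime p
  have : Module.Finite R (A ⧸ I) := RingHom.finite_algebraMap.1 hI
  have : IsNoetherianRing D := IsLocalization.isNoetherianRing p.primeCompl D inferInstance
  have hm : (IsLocalRing.maximalIdeal D).IsPrincipal := by
    have e : p.map (algebraMap R D) = Ideal.span {algebraMap R D t} :=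
      (congrArg (Ideal.map _) (hp.trans ht)).trans (by rw [Ideal.map_span, Set.image_singleton])
    rw [← Localization.AtPrime.map_eq_maximalIdeal, e]
    infer_instance
  have : IsPrincipalIdealRing D :=
    ((tfae_of_isNoetherianRing_of_isLocalRing_of_isDomain D).out 4 0).1 hm
  have : Module.IsTorsionFree D (D ⊗[R] (A ⧸ I)) :=
    torsionFree_TrSpec p.primeCompl (TensorProduct.mk R D (A ⧸ I) 1) fun r hr x hx => by
      obtain ⟨x, rfl⟩ := Ideal.Quotient.mk_surjective x
      have e : ∀ r : R, r • Ideal.Quotient.mk I x = 0 ↔ algebraMap R A r * x ∈ I := fun r => by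
        rw [← Ideal.Quotient.eq_zero_iff_mem, map_mul, Ideal.Quotient.mk_algebraMap,
          Algebra.smul_def]
      obtain ⟨s, hs, h⟩ := sat_TrSpec I t p (hp.trans ht)
        (fun x hx => by
          obtain ⟨s, hs, h⟩ := htf x hx
          exact ⟨s, fun h' => hs (hp.le h'), h⟩) r hr x ((e r).1 hx)
      exact ⟨s, hs, (e s).2 h⟩
  have h1 : ∀ s : p.primeCompl, IsUnit (algebraMap R Ω s) := fun s => IsUnit.mk0 _ fun h =>
    s.2 (by rw [FaithfulSMul.algebraMap_eq_zero_iff] at h; rw [h]; exact p.zero_mem)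
  have h2 : ∀ s : p.primeCompl, IsUnit (algebraMap R Ω' s) := fun s => IsUnit.mk0 _ fun h =>
    s.2 (hp.ge h)
  let : Algebra D Ω := (IsLocalization.lift h1).toAlgebra
  have : IsScalarTower R D Ω := .of_algebraMap_eq fun x => (IsLocalization.lift_eq h1 x).symm
  let : Algebra D Ω' := (IsLocalization.lift h2).toAlgebra
  have : IsScalarTower R D Ω' := .of_algebraMap_eq fun x => (IsLocalization.lift_eq h2 x).symm
  obtain ⟨⟨r, s⟩, h⟩ := IsLocalization.surj p.primeCompl
    (Algebra.trace D (D ⊗[R] (A ⧸ I)) ((1 : D) ⊗ₜ[R] Ideal.Quotient.mk I y))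
  refine ⟨r, s, (h2 s).ne_zero, ?_, ?_⟩
  · rw [Cy.trQ, Cy.trace_bc_Face R D, IsScalarTower.algebraMap_apply R D Ω,
      IsScalarTower.algebraMap_apply R D Ω r, ← map_mul, mul_comm]
    exact congrArg _ h
  · rw [Cy.trQ, Cy.trace_bc_Face R D, IsScalarTower.algebraMap_apply R D Ω',
      IsScalarTower.algebraMap_apply R D Ω' r, ← map_mul, mul_comm]
    exact congrArg _ h

theorem trF_spec_TrSpec {R A R' A' Ω Ω' : Type u} [CommRing R] [IsDomain R] [IsNoetherianRing R]
    [CommRing A] [CommRing R'] [CommRing A'] [Field Ω] [Field Ω'] {g : R →+* A} {g' : R' →+* A'}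
    (i : R →+* Ω) (hi : Function.Injective i) (i' : R' →+* Ω') (hi' : Function.Injective i')
    (a : R →+* R') (ha : Function.Surjective a) (t : R)
    (hk : RingHom.ker a = Ideal.span {t}) (b : A →+* A') (hb : Function.Surjective b)
    (hkb : ∀ y, b y = 0 → g t ∣ y) (hc : ∀ r, b (g r) = g' (a r)) {I : Ideal A}
    (hI : FiniteOver R A g I) (htf : ∀ x, g t * x ∈ I → ∃ s, a s ≠ 0 ∧ g s * x ∈ I) (y : A) :
    ∃ r s : R, a s ≠ 0 ∧ i s * trF g i I y = i r ∧
      i' (a s) * trF g' i' (I.map b) (b y) = i' (a r) := by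
  let : Algebra R A := g.toAlgebra
  let : Algebra R' A' := g'.toAlgebra
  let : Algebra R R' := a.toAlgebra
  let : Algebra R A' := (g'.comp a).toAlgebra
  have : IsScalarTower R R' A' := .of_algebraMap_eq fun _ => rfl
  let : Algebra R Ω := i.toAlgebra
  let : Algebra R' Ω' := i'.toAlgebra
  let : Algebra R Ω' := (i'.comp a).toAlgebra
  have : IsScalarTower R R' Ω' := .of_algebraMap_eq fun _ => rfl
  have : FaithfulSMul R Ω := (faithfulSMul_iff_algebraMap_injective _ _).2 hi
  have hm : ∀ r, algebraMap R Ω' r = i' (a r) := fun _ => rfl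
  have ht : RingHom.ker (algebraMap R Ω') = Ideal.span {t} := by
    rw [← hk]
    ext r
    rw [RingHom.mem_ker, hm, map_eq_zero_iff _ hi', RingHom.mem_ker]
  have ht0 : a t = 0 := by
    rw [← RingHom.mem_ker, hk]; exact Ideal.mem_span_singleton_self t
  let b' : A →ₐ[R] A' := { b with commutes' := fun r => hc r }
  obtain ⟨r, s, hs, h1, h2⟩ := trace_loc_TrSpec R A Ω Ω' I hI t ht
    (fun x hx => by
      obtain ⟨s, hs, h⟩ := htf x hx
      exact ⟨s, by rw [hm, Ne, map_eq_zero_iff _ hi']; exact hs, h⟩) y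
  rw [Cy.trQ_map_Face R R' A A' Ω' b' ha hb t (by rw [hm, ht0, map_zero]) hkb] at h2
  exact ⟨r, s, fun h => hs (by rw [hm, h, map_zero]), h1, h2⟩

variable {R A R' A' : Type u} [CommRing R] [IsDomain R] [QAlg R] [IsIntegrallyClosed R]
  [IsNoetherianRing R] [CommRing A] [IsNoetherianRing A] [CommRing R'] [IsDomain R']
  [IsIntegrallyClosed R'] [CommRing A'] {g : R →+* A} {g' : R' →+* A'}

theorem trG_spec (a : R →+* R') (ha : Function.Surjective a) (t : R)
    (hk : RingHom.ker a = Ideal.span {t}) (b : A →+* A') (hb : Function.Surjective b)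
    (hkb : ∀ y, b y = 0 → g t ∣ y) (hc : ∀ r, b (g r) = g' (a r)) {I : Ideal A}
    (hI : FiniteOver R A g I) (htf : ∀ x, g t * x ∈ I → ∃ s, a s ≠ 0 ∧ g s * x ∈ I) (y : A) :
    a (trG g I y) = trG g' (I.map b) (b y) := by
  have : QAlg R' := QAlg.of_ringHom a
  have : IsNoetherianRing A' := isNoetherianRing_of_surjective A A' b hb
  obtain ⟨r, s, hs, h1, h2⟩ := trF_spec_TrSpec (iOm R) (iOm_injective R) (iOm R')
    (iOm_injective R') a ha t hk b hb hkb hc hI htf y
  rw [← iOm_trG hI y, ← map_mul] at h1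
  rw [← iOm_trG (finiteOver_map g g' a b hb hc I hI) (b y), ← map_mul] at h2
  refine mul_left_cancel₀ hs ?_
  rw [iOm_injective R' h2, ← map_mul, iOm_injective R h1]

theorem trG_spec_elem (a : R →+* R') (ha : Function.Surjective a) (t : R) (ht : t ≠ 0)
    (hk : RingHom.ker a = Ideal.span {t}) (b : A →+* A') (hb : Function.Surjective b)
    (hkb : ∀ y, b y = 0 → g t ∣ y) (hc : ∀ r, b (g r) = g' (a r)) (P : ElemOf R A g) (y : A) :
    a (trG g P.1 y) = (cyc R' A' g' (P.1.map b) (finiteOver_map g g' a b hb hc P.1 P.2.2.1)).sum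
      fun Q c => c • trG g' Q.1 (b y) := by
  have : QAlg R' := QAlg.of_ringHom a
  have : IsNoetherianRing A' := isNoetherianRing_of_surjective A A' b hb
  rw [trG_spec a ha t hk b hb hkb hc P.2.2.1 (fun x hx => ?_) y]
  · exact trG_cyc _ _
  · refine ⟨1, by rw [map_one]; exact one_ne_zero, ?_⟩
    rw [map_one, one_mul]
    refine (P.2.1.mem_or_mem hx).resolve_left fun h => ht ?_
    exact P.2.2.2.le (show t ∈ P.1.comap g from h)

end

end Pool.Agent.MP_e2821c_ag.Dg
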