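import Pool.Agent.Lib.MP_e2821c_ag.Dg.Struct
import Pool.Agent.Lib.MP_e2821c_ag.Dg.TrSpec
import Pool.Agent.Lib.MP_e2821c_ag.Dg.Chn

namespace Pool.Agent.MP_e2821c_ag.Dg

open MvPolynomial

universe u v w

noncomputable section

variable (O : Type u) [CommRing O]

/-- The coordinate characters of the torus. -/
def iotaAmb (j : ℕ) : AddChar G2 (Amb O 2 j) where
  toFun γ := C (AddMonoidAlgebra.single ![γ.1, γ.2] 1)
  map_zero_eq_one' := by
    have h : (![(0 : G2).1, (0 : G2).2] : Fin 2 → ℤ) = 0 := by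
      ext i; fin_cases i <;> rfl
    rw [h]; exact map_one C
  map_add_eq_mul' a b := by
    have h : (![(a + b).1, (a + b).2] : Fin 2 → ℤ) = ![a.1, a.2] + ![b.1, b.2] := by
      ext i; fin_cases i <;> rfl
    rw [h, ← map_mul, AddMonoidAlgebra.single_mul_single, one_mul]

theorem iotaAmb_apply_Bridge (j : ℕ) (γ : G2) :
    iotaAmb O j γ = C (AddMonoidAlgebra.single ![γ.1, γ.2] 1) := rfl

theorem vec_eta_Bridge (v : Fin 2 → ℤ) : (![v 0, v 1] : Fin 2 → ℤ) = v := by
  ext i; fin_cases i <;> rfl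

theorem push_amb (j : ℕ) : Push (proj O 2 j) (iotaAmb O j) := by
  refine ⟨?_, fun E _ f ψ => ?_⟩
  · refine eq_top_iff.2 fun p _ => ?_
    have h1 : ∀ r, proj O 2 j r ∈
        Subring.closure (Set.range (proj O 2 j) ∪ Set.range (iotaAmb O j)) :=
      fun r => Subring.subset_closure (Or.inl ⟨r, rfl⟩)
    have h2 : ∀ γ, iotaAmb O j γ ∈
        Subring.closure (Set.range (proj O 2 j) ∪ Set.range (iotaAmb O j)) :=
      fun γ => Subring.subset_closure (Or.inr ⟨γ, rfl⟩)
    induction p using MvPolynomial.induction_on with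
    | C a =>
      induction a using AddMonoidAlgebra.induction_linear with
      | zero => rw [map_zero]; exact zero_mem _
      | add a b ha hb => rw [map_add]; exact add_mem (ha trivial) (hb trivial)
      | single v c =>
        have h : (C (AddMonoidAlgebra.single v c) : Amb O 2 j) =
            proj O 2 j (C c) * iotaAmb O j (v 0, v 1) := by
          rw [proj_C, iotaAmb_apply_Bridge, vec_eta_Bridge, ← map_mul,
            AddMonoidAlgebra.coe_algebraMap, Function.comp_apply,
            AddMonoidAlgebra.single_mul_single, zero_add, mul_one]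
          rfl
        rw [h]
        exact mul_mem (h1 _) (h2 _)
    | add p q hp hq => exact add_mem (hp trivial) (hq trivial)
    | mul_X p k hp =>
      refine mul_mem (hp trivial) ?_
      have h : (X k : Amb O 2 j) = proj O 2 j (X k) := by rw [proj, map_X]
      rw [h]
      exact h1 _
  · let χ : Multiplicative (Fin 2 → ℤ) →* E :=
      { toFun := fun v => ψ (v.toAdd 0, v.toAdd 1)
        map_one' := ψ.map_zero_eq_one
        map_mul' := fun a b => ψ.map_add_eq_mul (a.toAdd 0, a.toAdd 1) (b.toAdd 0, b.toAdd 1) }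
    let φ : Torus O 2 →+* E :=
      AddMonoidAlgebra.liftNCRingHom (f.comp C) χ fun _ _ => Commute.all _ _
    have hφ : ∀ v c, φ (AddMonoidAlgebra.single v c) = f (C c) * ψ (v 0, v 1) := fun v c =>
      AddMonoidAlgebra.liftNC_single _ _ v c
    refine ⟨eval₂Hom φ fun k => f (X k), ?_, fun γ => ?_⟩
    · refine MvPolynomial.ringHom_ext (fun c => ?_) fun k => ?_
      · rw [RingHom.comp_apply, proj_C, eval₂Hom_C, AddMonoidAlgebra.coe_algebraMap,
          Function.comp_apply, hφ]
        change f (C c) * ψ 0 = _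
        rw [ψ.map_zero_eq_one, mul_one]
      · rw [RingHom.comp_apply, proj, map_X, eval₂Hom_X']
    · rw [iotaAmb_apply_Bridge, eval₂Hom_C, hφ, map_one, map_one, one_mul]
      rfl

theorem iota_fst_Bridge (j : ℕ) :
    (C (coordSubOne O 2 0) : Amb O 2 j) = iotaAmb O j (1, 0) - 1 := by
  have h : (Pi.single 0 1 : Fin 2 → ℤ) = ![1, 0] := by ext i; fin_cases i <;> rfl
  rw [coordSubOne, map_sub, map_one, h]
  rfl

theorem iota_snd_Bridge (j : ℕ) :
    (C (coordSubOne O 2 1) : Amb O 2 j) = iotaAmb O j (0, 1) - 1 := by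
  have h : (Pi.single 1 1 : Fin 2 → ℤ) = ![0, 1] := by ext i; fin_cases i <;> rfl
  rw [coordSubOne, map_sub, map_one, h]
  rfl

theorem degenerate_iff_Bridge (j : ℕ) (P : Elem O 2 j) :
    Degenerate O 2 j P ↔ iotaAmb O j (1, 0) - 1 ∈ P.1 ∨ iotaAmb O j (0, 1) - 1 ∈ P.1 := by
  rw [Degenerate, Fin.exists_fin_two, iota_fst_Bridge, iota_snd_Bridge]
  rfl

theorem char_sub_mem_Bridge {Γ A : Type*} [AddCommGroup Γ] [CommRing A] (χ : AddChar Γ A)
    (I : Ideal A) {x : Γ} (h : χ x - 1 ∈ I) (a : ℤ) (y : Γ) : χ (y + a • x) - χ y ∈ I := by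
  have key : ∀ y, χ (y + x) - χ y ∈ I := fun y => by
    have e : χ (y + x) - χ y = χ y * (χ x - 1) := by rw [χ.map_add_eq_mul]; ring
    rw [e]
    exact I.mul_mem_left _ h
  induction a using Int.induction_on with
  | zero => simp
  | succ n ih =>
    have e : y + ((n : ℤ) + 1) • x = (y + (n : ℤ) • x) + x := by rw [add_smul, one_smul, add_assoc]
    have h1 := add_mem (key (y + (n : ℤ) • x)) ih
    rwa [sub_add_sub_cancel, ← e] at h1
  | pred n ih =>
    have e : y + (-(n : ℤ)) • x = (y + (-(n : ℤ) - 1) • x) + x := by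
      rw [sub_smul, one_smul, add_assoc, sub_add_cancel]
    have h1 := sub_mem ih (key (y + (-(n : ℤ) - 1) • x))
    rwa [← e, sub_sub_sub_cancel_left] at h1

theorem face_iota_Bridge (j : ℕ) (i : Fin (j + 2)) (γ : G2) :
    (face (Torus O 2) j i).toRingHom (iotaAmb O (j + 1) γ) = iotaAmb O j γ := by
  simp [iotaAmb_apply_Bridge, face]

theorem bary_ne_zero_Bridge [Nontrivial O] (j : ℕ) (i : Fin (j + 2)) : bary O (j + 1) i ≠ 0 := by
  refine Fin.cases ?_ (fun k => ?_) i
  · intro h
    have h1 := congrArg constantCoeff h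
    simp [bary] at h1
  · simp [bary]

variable [IsDomain O]

/-- The trace function of a correspondence. -/
def trC (j : ℕ) : Cor O 2 j →ₗ[ℤ] Xq G2 O j :=
  Finsupp.linearCombination ℤ fun P γ => trG (proj O 2 j) P.1 (iotaAmb O j γ)

theorem trC_single_Bridge (j : ℕ) (P : Elem O 2 j) (z : ℤ) :
    trC O j (Finsupp.single P z) = z • fun γ => trG (proj O 2 j) P.1 (iotaAmb O j γ) :=
  Finsupp.linearCombination_single _ _ _

theorem trC_apply_Bridge (j : ℕ) (c : Cor O 2 j) (γ : G2) :
    trC O j c γ = c.sum fun P z => z • trG (proj O 2 j) P.1 (iotaAmb O j γ) := by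
  rw [trC, Finsupp.linearCombination_apply, Finsupp.sum, Finsupp.sum, Finset.sum_apply]
  rfl

theorem red_trG_degenerate_Bridge (j : ℕ) (P : Elem O 2 j) (h : Degenerate O 2 j P) :
    red (fun γ => trG (proj O 2 j) P.1 (iotaAmb O j γ)) = 0 := by
  funext γ
  rw [red_apply, Pi.zero_apply]
  rcases (degenerate_iff_Bridge O j P).1 h with h | h
  · have key : ∀ a b : ℤ, trG (proj O 2 j) P.1 (iotaAmb O j (a, b)) =
        trG (proj O 2 j) P.1 (iotaAmb O j (0, b)) := fun a b => trG_congr (by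
      simpa using char_sub_mem_Bridge (iotaAmb O j) P.1 h a (0, b))
    rw [key γ.1 γ.2, key γ.1 0, sub_self, zero_sub]
    exact neg_add_cancel _
  · have key : ∀ a b : ℤ, trG (proj O 2 j) P.1 (iotaAmb O j (a, b)) =
        trG (proj O 2 j) P.1 (iotaAmb O j (a, 0)) := fun a b => trG_congr (by
      simpa using char_sub_mem_Bridge (iotaAmb O j) P.1 h b (a, 0))
    rw [key γ.1 γ.2, key 0 γ.2, sub_sub_cancel_left]
    exact neg_add_cancel _

theorem red_trC_degen_Bridge (j : ℕ) {c : Cor O 2 j} (hc : c ∈ degen O 2 j) :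
    red (trC O j c) = 0 := by
  rw [trC, Finsupp.linearCombination_apply, Finsupp.sum, map_sum]
  refine Finset.sum_eq_zero fun P hP => ?_
  rw [map_zsmul, red_trG_degenerate_Bridge O j P ((Finsupp.mem_supported _ _).1 hc hP), smul_zero]

theorem diff_of_red_Bridge {S : Type*} [AddCommGroup S] {τ : G2 → S} (h : red τ = 0) (γ : G2) :
    τ (γ + (1, 0) + (0, 1)) - τ (γ + (1, 0)) - τ (γ + (0, 1)) + τ γ = 0 := by
  have key : ∀ x : G2, τ x = τ (0, x.2) + τ (x.1, 0) - τ 0 := fun x => by
    have h1 := congrFun h x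
    rw [red_apply, Pi.zero_apply] at h1
    rw [← sub_eq_zero, ← h1]
    abel
  rw [key (γ + (1, 0) + (0, 1)), key (γ + (1, 0)), key (γ + (0, 1)), key γ]
  simp only [Prod.fst_add, Prod.snd_add, add_zero]
  abel

variable [QAlg O] [IsIntegrallyClosed O] [IsNoetherianRing O]

theorem trC_pull_Bridge (j : ℕ) (i : Fin (j + 2)) (c : Cor O 2 (j + 1)) :
    trC O j (pull O 2 j i c) = act O i.succAbove (trC O (j + 1) c) := by
  have := base_isIntegrallyClosed O j
  have := base_isIntegrallyClosed O (j + 1)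
  have : IsNoetherianRing (Torus O 2) := Algebra.FiniteType.isNoetherianRing O _
  induction c using Finsupp.induction_linear with
  | zero => simp only [map_zero]
  | add a b ha hb => simp only [map_add, ha, hb]
  | single P z =>
    rw [← Finsupp.smul_single_one, map_smul, map_smul, map_smul, map_zsmul]
    congr 1
    funext γ
    rw [act_apply, trC_single_Bridge, one_smul, ← Cy.face_eq_sm, pull_single, trC_apply_Bridge]
    have ht0 : face O j i (bary O (j + 1) i) = 0 := by
      rw [face_bary, Fin.insertNth_apply_same]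
    have hk : RingHom.ker (face O j i).toRingHom = Ideal.span {bary O (j + 1) i} := by
      ext r
      rw [RingHom.mem_ker, Ideal.mem_span_singleton]
      refine ⟨Cy.dvd_of_face_Face O j i r, ?_⟩
      rintro ⟨w, rfl⟩
      rw [map_mul]
      exact mul_eq_zero_of_left ht0 _
    have h := trG_spec_elem (g := proj O 2 (j + 1)) (g' := proj O 2 j) (face O j i).toRingHom
      (face_surjective O j i) (bary O (j + 1) i) (bary_ne_zero_Bridge O j i) hk
      (face (Torus O 2) j i).toRingHom (face_surjective _ j i)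
      (fun y hy => by
        have h1 := Cy.dvd_of_face_Face (Torus O 2) j i y hy
        rwa [← map_bary (algebraMap O (Torus O 2))] at h1)
      (fun r => face_map _ j i r) P (iotaAmb O (j + 1) γ)
    rw [face_iota_Bridge] at h
    exact h.symm

theorem trC_bd (j : ℕ) (c : Cor O 2 (j + 1)) :
    trC O j (bd O 2 j c) = dX O j (trC O (j + 1) c) := by
  rw [bd_apply, dX_apply, map_sum]
  refine Finset.sum_congr rfl fun i _ => ?_
  rw [map_smul, trC_pull_Bridge]

omit [IsNoetherianRing O] in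
theorem iOm_trC_Bridge (j : ℕ) (c : Cor O 2 j) (γ : G2) :
    iOm (Base O j) (trC O j c γ) = ∑ P ∈ c.support, ∑ e ∈ (homs_finite P).toFinset,
      (c P : Cy.Om (Base O j)) * e (iotaAmb O j γ) := by
  have := base_isIntegrallyClosed O j
  rw [trC_apply_Bridge, Finsupp.sum, map_sum]
  refine Finset.sum_congr rfl fun P _ => ?_
  rw [map_zsmul, iOm_trG_elem, finsum_mem_eq_finite_toFinset_sum _ (homs_finite P), zsmul_eq_mul,
    Finset.mul_sum]

theorem red_trC_eq_zero_iff (j : ℕ) (c : Cor O 2 j) :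
    red (trC O j c) = 0 ↔ c ∈ degen O 2 j := by
  classical
  refine ⟨fun h => ?_, red_trC_degen_Bridge O j⟩
  refine (Finsupp.mem_supported _ _).2 fun P₀ hP₀ => ?_
  by_contra hnd
  have : CharZero (Base O j) := QAlg.charZero _
  have : CharZero (Cy.Om (Base O j)) := charZero_of_injective_ringHom (iOm_injective (Base O j))
  let χ : (Amb O 2 j →+* Cy.Om (Base O j)) → AddChar G2 (Cy.Om (Base O j)) := fun e =>
    (e : Amb O 2 j →* Cy.Om (Base O j)).compAddChar (iotaAmb O j)
  have hχ : ∀ e γ, χ e γ = e (iotaAmb O j γ) := fun _ _ => rfl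
  let w : (Amb O 2 j →+* Cy.Om (Base O j)) → Cy.Om (Base O j) := fun e =>
    e (iotaAmb O j (1, 0) - 1) * e (iotaAmb O j (0, 1) - 1)
  have hz := dedekind_finsupp (∑ P ∈ c.support, ∑ e ∈ (homs_finite P).toFinset,
    Finsupp.single (χ e) ((c P : Cy.Om (Base O j)) * w e)) fun γ => by
      change Finsupp.linearCombination (Cy.Om (Base O j))
        (fun ψ : AddChar G2 (Cy.Om (Base O j)) => ψ γ) _ = 0
      have h1 := congrArg (iOm (Base O j)) (diff_of_red_Bridge h γ)
      rw [map_add, map_sub, map_sub, map_zero, iOm_trC_Bridge, iOm_trC_Bridge, iOm_trC_Bridge,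
        iOm_trC_Bridge, ← Finset.sum_sub_distrib, ← Finset.sum_sub_distrib,
        ← Finset.sum_add_distrib] at h1
      rw [map_sum, ← h1]
      refine Finset.sum_congr rfl fun P _ => ?_
      rw [map_sum, ← Finset.sum_sub_distrib, ← Finset.sum_sub_distrib, ← Finset.sum_add_distrib]
      refine Finset.sum_congr rfl fun e _ => ?_
      rw [Finsupp.linearCombination_single, smul_eq_mul, hχ]
      simp only [w, AddChar.map_add_eq_mul, map_mul, map_sub, map_one]
      ring
  obtain ⟨e₀, he₀⟩ := homs_nonempty P₀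
  have hinj : ∀ P : Elem O 2 j, ∀ e ∈ (homs_finite P).toFinset, χ e = χ e₀ → e = e₀ :=
    fun P e he hh => (push_amb O j).hom_ext
      (((Set.Finite.mem_toFinset _).1 he).1.trans he₀.1.symm) fun γ => by
        rw [← hχ, ← hχ, hh]
  have h2 := DFunLike.congr_fun hz (χ e₀)
  rw [Finsupp.finsetSum_apply, Finset.sum_eq_single_of_mem P₀ hP₀, Finsupp.finsetSum_apply,
    Finset.sum_eq_single_of_mem e₀ ((Set.Finite.mem_toFinset _).2 he₀), Finsupp.single_eq_same,
    Finsupp.zero_apply] at h2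
  · rcases mul_eq_zero.1 h2 with h3 | h3
    · exact Finsupp.mem_support_iff.1 hP₀ (Int.cast_eq_zero.1 h3)
    · refine hnd ((degenerate_iff_Bridge O j P₀).2 ?_)
      rw [← he₀.2]
      exact mul_eq_zero.1 h3
  · intro e he hne
    exact Finsupp.single_eq_of_ne' fun hh => hne (hinj P₀ e he hh)
  · intro P _ hne
    rw [Finsupp.finsetSum_apply]
    refine Finset.sum_eq_zero fun e he => Finsupp.single_eq_of_ne' fun hh => hne ?_
    have h3 := ((Set.Finite.mem_toFinset _).1 he).2
    rw [hinj P e he hh, he₀.2] at h3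
    exact Subtype.ext h3.symm

theorem red_trC_mem (j d : ℕ) (c : Cor O 2 j)
    (hc : ∀ P ∈ c.support, Degenerate O 2 j P ∨ deg O 2 j P ≤ d) :
    red (trC O j c) ∈ ChD G2 O j d := by
  have := base_isIntegrallyClosed O j
  rw [trC, Finsupp.linearCombination_apply, Finsupp.sum, map_sum]
  refine sum_mem fun P hP => ?_
  rw [map_zsmul]
  refine zsmul_mem ?_ _
  rcases hc P hP with h | h
  · rw [red_trG_degenerate_Bridge O j P h]
    exact zero_mem _
  · exact red_mem_ChD (subset_satClosure ⟨_, h, eff_trG (iotaAmb O j) P⟩)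

theorem exists_trC (j : ℕ) {y : Xq G2 O j} (hy : y ∈ Ch G2 (⊤ : Subring O) j) :
    ∃ N : ℕ, N ≠ 0 ∧ ∃ b, trC O j b = N • y := by
  have := base_isIntegrallyClosed O j
  obtain ⟨N, hN, b, hb⟩ := exists_finsupp_of_corr (push_amb O j) (mem_Ch_top.1 hy)
  exact ⟨N, hN, b, funext fun γ => by rw [trC_apply_Bridge, ← hb γ, Pi.smul_apply]⟩

theorem bridge (j d : ℕ)
    (hm : ∀ ξ ∈ ChD G2 O (j + 1) d, Red ξ → dX O j ξ = 0 → Bd ⊤ ξ) (c : Cor O 2 (j + 1))
    (hc : ∀ P ∈ c.support, Degenerate O 2 (j + 1) P ∨ deg O 2 (j + 1) P ≤ d)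
    (hb : SameClass O 2 j (bd O 2 j c) 0) :
    ∃ N : ℕ, 0 < N ∧ ∃ b : Cor O 2 (j + 2),
      SameClass O 2 (j + 1) (bd O 2 (j + 1) b) ((N : ℤ) • c) := by
  have h0 : dX O j (red (trC O (j + 1) c)) = 0 := by
    rw [dX_red, ← trC_bd, red_trC_eq_zero_iff]
    simpa [SameClass] using hb
  obtain ⟨y, hy, hdy⟩ := hm _ (red_trC_mem O (j + 1) d c hc) (red_red _) h0
  obtain ⟨N, hN, b, hb'⟩ := exists_trC O (j + 2) hy
  refine ⟨N, Nat.pos_of_ne_zero hN, b, (red_trC_eq_zero_iff O (j + 1) _).1 ?_⟩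
  rw [map_sub, map_smul, trC_bd, hb', map_nsmul, hdy, map_sub, map_nsmul, (red_red _).red_eq,
    natCast_zsmul, map_nsmul, sub_self]

end

end Pool.Agent.MP_e2821c_ag.Dg
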