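import Pool.Agent.Lib.MP_e2821c_ag.Dg.Chn
import Pool.Agent.Lib.MP_e2821c_ag.Cy.Simp

namespace Pool.Agent.MP_e2821c_ag.Dg

open MvPolynomial

universe u v w

noncomputable section

variable {Γ : Type} {R R' : Type u} [CommRing R] [CommRing R']

/-- Substitution of a function on the simplex for the homotopy variable. -/
def evσ (R : Type u) [CommRing R] {q : ℕ} (σ : Base R q) : Base (Polynomial R) q →+* Base R q :=
  MvPolynomial.eval₂Hom (Polynomial.eval₂RingHom C σ) X

/-- The prism operator. -/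
def prism (R : Type u) [CommRing R] (q : ℕ) : Xq Γ (Polynomial R) q →+ Xq Γ R (q + 1) :=
  ∑ i : Fin (q + 1), ((-1 : ℤ) ^ (i : ℕ)) •
    ((evσ R (Cy.prismσ R q i)).toAddMonoidHom.compLeft Γ).comp (act (Polynomial R) i.predAbove)

theorem prism_apply_Simp (q : ℕ) (W : Xq Γ (Polynomial R) q) :
    prism R q W = ∑ i : Fin (q + 1), ((-1 : ℤ) ^ (i : ℕ)) •
      (fun γ => evσ R (Cy.prismσ R q i) (act (Polynomial R) i.predAbove W γ) : Xq Γ R (q + 1)) := by
  simp only [prism, AddMonoidHom.finsetSum_apply, AddMonoidHom.smul_apply]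
  rfl

theorem evσ_C_Simp {q : ℕ} (σ : Base R q) (p : Polynomial R) :
    evσ R σ (C p) = Polynomial.eval₂ C σ p := by
  simp [evσ]

theorem evσ_X_Simp {q : ℕ} (σ : Base R q) (k : Fin q) : evσ R σ (X k) = X k := by
  simp [evσ]

theorem evσ_bary_Simp {q : ℕ} (σ : Base R q) (k : Fin (q + 1)) :
    evσ R σ (bary (Polynomial R) q k) = bary R q k := by
  refine Fin.cases ?_ (fun k => ?_) k <;> simp [bary, evσ_X_Simp]

theorem sm_evσ_Simp {a b : ℕ} (f : Fin (a + 1) → Fin (b + 1)) (σ : Base R b)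
    (p : Base (Polynomial R) b) :
    Cy.sm R f (evσ R σ p) = evσ R (Cy.sm R f σ) (Cy.sm (Polynomial R) f p) := by
  have h : (Cy.smR R f).comp (evσ R σ) =
      (evσ R (Cy.sm R f σ)).comp (Cy.smR (Polynomial R) f) := by
    refine MvPolynomial.ringHom_ext' (Polynomial.ringHom_ext (fun c => ?_) ?_) fun k => ?_
    · simp [evσ_C_Simp]
    · simp [evσ_C_Simp]
    · simp only [RingHom.comp_apply, evσ_X_Simp, Cy.smR_apply, Cy.sm, aeval_X, map_sum,
        evσ_bary_Simp]
  exact RingHom.congr_fun h p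

theorem evσ_const_Simp {q : ℕ} (c : R) (p : Base (Polynomial R) q) :
    evσ R (C c) p = MvPolynomial.map (Polynomial.evalRingHom c) p := by
  have h : evσ R (C c : Base R q) = MvPolynomial.map (Polynomial.evalRingHom c) := by
    refine MvPolynomial.ringHom_ext' (Polynomial.ringHom_ext (fun c => ?_) ?_) fun k => ?_
    · simp [evσ_C_Simp]
    · simp [evσ_C_Simp]
    · simp [evσ_X_Simp]
  exact RingHom.congr_fun h p

theorem map_evσ_Simp (f : R →+* R') {q : ℕ} (σ : Base R q) (p : Base (Polynomial R) q) :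
    MvPolynomial.map f (evσ R σ p) =
      evσ R' (MvPolynomial.map f σ) (MvPolynomial.map (Polynomial.mapRingHom f) p) := by
  have h : (MvPolynomial.map f).comp (evσ R σ) =
      (evσ R' (MvPolynomial.map f σ)).comp (MvPolynomial.map (Polynomial.mapRingHom f)) := by
    refine MvPolynomial.ringHom_ext' (Polynomial.ringHom_ext (fun c => ?_) ?_) fun k => ?_
    · simp [evσ_C_Simp]
    · simp [evσ_C_Simp]
    · simp [evσ_X_Simp]
  exact RingHom.congr_fun h p

theorem map_prismσ_Simp (f : R →+* R') (q : ℕ) (i : Fin (q + 1)) :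
    MvPolynomial.map f (Cy.prismσ R q i) = Cy.prismσ R' q i := by
  simp only [Cy.prismσ, map_sum, map_bary]

/-- The simplicial group of functions. -/
def xs_Simp (Γ : Type) (R : Type u) [CommRing R] : Cy.SMod.{u} ℤ where
  obj q := Xq Γ R q
  mod _ := AddCommGroup.toIntModule _
  act f := (act R f).toIntLinearMap
  act_id m x := act_id m x
  act_comp f g x := (act_act f g x).symm

theorem xs_d_Simp (q : ℕ) (x : Xq Γ R (q + 1)) : (xs_Simp Γ R).d q x = dX R q x :=
  (Cy.SMod.d_apply (xs_Simp Γ R) q x).trans (dX_apply q x).symm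

/-- The homotopy. -/
def hs_Simp (Γ : Type) (R : Type u) [CommRing R] (m : ℕ) (σ : Base R m) :
    (xs_Simp Γ (Polynomial R)).obj m →ₗ[ℤ] (xs_Simp Γ R).obj m :=
  ((evσ R σ).toAddMonoidHom.compLeft Γ).toIntLinearMap

/-- The homotopy on functions. -/
def hx_Simp {m : ℕ} (σ : Base R m) (x : Xq Γ (Polynomial R) m) : Xq Γ R m :=
  fun γ => evσ R σ (x γ)

theorem xs_act_Simp {a b : ℕ} (f : Fin (a + 1) → Fin (b + 1)) (x : Xq Γ R b) :
    (xs_Simp Γ R).act f x = act R f x := rfl

theorem hs_apply_Simp (m : ℕ) (σ : Base R m) (x : Xq Γ (Polynomial R) m) :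
    hs_Simp Γ R m σ x = hx_Simp σ x := rfl

theorem hx_act_Simp {a b : ℕ} (f : Fin (a + 1) → Fin (b + 1)) (σ : Base R b)
    (x : Xq Γ (Polynomial R) b) :
    act R f (hx_Simp σ x) = hx_Simp (Cy.sm R f σ) (act (Polynomial R) f x) := by
  funext γ
  simp only [act_apply, hx_Simp]
  exact sm_evσ_Simp f σ (x γ)

theorem hs_act_Simp {a b : ℕ} (f : Fin (a + 1) → Fin (b + 1)) (σ : Base R b)
    (x : (xs_Simp Γ (Polynomial R)).obj b) :
    (xs_Simp Γ R).act f (hs_Simp Γ R b σ x) =
      hs_Simp Γ R a (Cy.sm R f σ) ((xs_Simp Γ (Polynomial R)).act f x) :=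
  hx_act_Simp f σ x

theorem hs_prism_Simp (q : ℕ) (W : Xq Γ (Polynomial R) q) :
    Cy.prismOp (xs_Simp Γ (Polynomial R)) (xs_Simp Γ R) (hs_Simp Γ R) q W = prism R q W :=
  (Cy.prismOp_apply _ _ (hs_Simp Γ R) q W).trans (prism_apply_Simp q W).symm

theorem hx_const_Simp (q : ℕ) (c : R) (W : Xq Γ (Polynomial R) q) :
    hx_Simp (C c) W = pushR (Polynomial.evalRingHom c) q W := by
  funext γ
  rw [pushR_apply, hx_Simp, evσ_const_Simp]

theorem hx_one_Simp (q : ℕ) (W : Xq Γ (Polynomial R) q) :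
    hx_Simp 1 W = pushR (Polynomial.evalRingHom 1) q W := by
  rw [← hx_const_Simp, C_1]

theorem hx_zero_Simp (q : ℕ) (W : Xq Γ (Polynomial R) q) :
    hx_Simp 0 W = pushR (Polynomial.evalRingHom 0) q W := by
  rw [← hx_const_Simp, C_0]

theorem dX_prism_zero (W : Xq Γ (Polynomial R) 0) :
    dX R 0 (prism R 0 W) =
      pushR (Polynomial.evalRingHom 1) 0 W - pushR (Polynomial.evalRingHom 0) 0 W := by
  have h := Cy.prism_zero (xs_Simp Γ (Polynomial R)) (xs_Simp Γ R) (hs_Simp Γ R) hs_act_Simp W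
  rw [← hx_one_Simp, ← hx_zero_Simp, ← hs_prism_Simp]
  exact (xs_d_Simp 0 _).symm.trans h

theorem dX_prism_succ (q : ℕ) (W : Xq Γ (Polynomial R) (q + 1)) :
    dX R (q + 1) (prism R (q + 1) W) + prism R q (dX (Polynomial R) q W) =
      pushR (Polynomial.evalRingHom 1) (q + 1) W - pushR (Polynomial.evalRingHom 0) (q + 1) W := by
  have h := Cy.prism_succ (xs_Simp Γ (Polynomial R)) (xs_Simp Γ R) (hs_Simp Γ R) hs_act_Simp q W
  rw [← hx_one_Simp, ← hx_zero_Simp, ← hs_prism_Simp q, ← xs_d_Simp q W, ← xs_d_Simp (q + 1),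
    ← hs_prism_Simp]
  exact h

theorem dX_prism {q : ℕ} {W : Xq Γ (Polynomial R) q} (hW : Cyc q W) :
    dX R q (prism R q W) =
      pushR (Polynomial.evalRingHom 1) q W - pushR (Polynomial.evalRingHom 0) q W := by
  cases q with
  | zero => exact dX_prism_zero W
  | succ q =>
    have h : dX (Polynomial R) q W = 0 := hW
    rw [← dX_prism_succ, h, map_zero, add_zero]

theorem pushR_prism (f : R →+* R') (q : ℕ) (W : Xq Γ (Polynomial R) q) :
    pushR f (q + 1) (prism R q W) = prism R' q (pushR (Polynomial.mapRingHom f) q W) := by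
  rw [prism_apply_Simp, prism_apply_Simp, map_sum]
  refine Finset.sum_congr rfl fun i _ => ?_
  rw [map_zsmul]
  congr 1
  funext γ
  rw [pushR_apply, map_evσ_Simp, map_prismσ_Simp, ← push_act, pushR_apply]

theorem Red.prism {q : ℕ} {W : Xq G2 (Polynomial R) q} (h : Red W) : Red (prism R q W) := by
  rw [prism_apply_Simp]
  refine (RedSub (Base R (q + 1))).sum_mem fun i _ => (RedSub _).zsmul_mem ?_ _
  exact (h.act i.predAbove).comp (evσ R (Cy.prismσ R q i)) (map_zero _)

theorem moore_gen_Simp {𝕂 : Type w} [CommRing 𝕂] (Y : Cy.SMod.{v} 𝕂)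
    (P : ∀ m, Y.obj m → Prop) (P0 : ∀ m, P m 0) (Pa : ∀ m x y, P m x → P m y → P m (x + y))
    (Ps : ∀ m x y, P m x → P m y → P m (x - y)) (Pm : ∀ m (c : 𝕂) x, P m x → P m (c • x))
    (hS : ∀ {a b : ℕ} (f : Fin (a + 1) → Fin (b + 1)) x, P b x → P a (Y.act f x)) {q : ℕ}
    (u : Y.obj (q + 1)) (hu : P _ u) (hc : Y.d q u = 0) :
    ∃ y : Y.obj (q + 2), P _ y ∧
      ∀ i : Fin (q + 2), Y.act i.succAbove (u - Y.d (q + 1) y) = 0 := by
  have key : ∀ k, k ≤ q + 1 → ∀ x : Y.obj (q + 1), P _ x → Y.d q x = 0 →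
      (∀ i, k < i → i ≤ q + 1 → Y.act (Cy.dNSimp q i) x = 0) →
      ∃ y : Y.obj (q + 2), P _ y ∧ ∀ i : Fin (q + 2),
        Y.act i.succAbove (x - Y.d (q + 1) y) = 0 := by
    intro k
    induction k with
    | zero =>
      intro _ x _ hx hf
      have h0 : Y.act (Cy.dNSimp q 0) x = 0 := by
        rw [Cy.SMod.d_range_Simp, Finset.sum_range_succ', Finset.sum_eq_zero, zero_add, pow_zero,
          one_smul] at hx
        · exact hx
        · intro i hi
          rw [hf _ (by omega) (by have := Finset.mem_range.1 hi; omega), smul_zero]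
      refine ⟨0, P0 _, fun i => ?_⟩
      rw [map_zero, sub_zero, Cy.succAbove_eq_Simp]
      rcases Nat.eq_zero_or_pos i with h1 | h1
      · rw [h1, h0]
      · exact hf _ h1 (by have := i.2; omega)
    | succ k ih =>
      intro hk x hxS hx hf
      have hd := Y.d_deg_Simp q k hk x hx hf
      obtain ⟨y, hyS, hy⟩ := ih (by omega)
        (x - Y.act (Cy.sNSimp q k) (Y.act (Cy.dNSimp q (k + 1)) x))
        (Ps _ _ _ hxS (hS _ _ (hS _ _ hxS)))
        (by rw [map_sub, hx, ← hd, Cy.SMod.d_d, sub_zero]) (by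
          intro i hi hi'
          rw [map_sub, ← Y.act_comp, ← Y.act_comp]
          rcases Nat.lt_or_ge (k + 1) i with h1 | h1
          · obtain ⟨j, rfl⟩ : ∃ j, i = j + 1 := ⟨i - 1, by omega⟩
            rw [hf _ h1 hi', Y.act_miss_Simp x j hi' (hf _ h1 hi'), sub_zero]
            intro l
            have := l.2
            simp only [Function.comp, Cy.dNSimp_val, Cy.sNSimp_val]
            split_ifs <;> omega
          · obtain rfl : i = k + 1 := by omega
            rw [sub_eq_zero]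
            congr 2
            funext l
            ext
            have := l.2
            simp only [Function.comp, Cy.dNSimp_val, Cy.sNSimp_val]
            split_ifs <;> omega)
      refine ⟨y + ((-1 : 𝕂) ^ k) • Y.act (Cy.sNSimp (q + 1) (k + 1)) x,
        Pa _ _ _ hyS (Pm _ _ _ (hS _ _ hxS)), fun i => ?_⟩
      rw [map_add, hd, ← sub_sub, sub_right_comm]
      exact hy i
  exact key (q + 1) le_rfl u hu hc fun i h1 h2 => absurd h1 (by omega)

theorem moore (S : ∀ q, AddSubgroup (Xq Γ R q))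
    (hS : ∀ {a b : ℕ} (f : Fin (a + 1) → Fin (b + 1)), ∀ τ ∈ S b, act R f τ ∈ S a) {q : ℕ}
    {u : Xq Γ R (q + 1)} (hu : u ∈ S (q + 1)) (hc : dX R q u = 0) :
    ∃ y ∈ S (q + 2), ∀ i : Fin (q + 2), act R i.succAbove (u - dX R (q + 1) y) = 0 := by
  obtain ⟨y, hyS, hy⟩ := moore_gen_Simp (xs_Simp Γ R) (fun m x => (x : Xq Γ R m) ∈ S m)
    (fun m => (S m).zero_mem) (fun m _ _ => (S m).add_mem) (fun m _ _ => (S m).sub_mem)
    (fun m c _ h => (S m).zsmul_mem h c) (fun f x => hS f x) u hu ((xs_d_Simp q u).trans hc)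
  refine ⟨y, hyS, fun i => ?_⟩
  rw [← xs_d_Simp (q + 1) y]
  exact hy i

variable [AddCommGroup Γ]

theorem polySub_top : polySub (⊤ : Subring R) = ⊤ := by
  rw [polySub, RingHom.range_eq_top]
  exact Polynomial.map_surjective _ fun x => ⟨⟨x, trivial⟩, rfl⟩

theorem prism_mem [IsDomain R] [QAlg R] {A : Subring R} {q : ℕ} {W : Xq Γ (Polynomial R) q}
    (hW : W ∈ Ch Γ (polySub A) q) : prism R q W ∈ Ch Γ A (q + 1) := by
  rw [prism_apply_Simp]
  refine (Ch Γ A (q + 1)).sum_mem fun i _ => (Ch Γ A (q + 1)).zsmul_mem ?_ _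
  refine map_mem_corrIn (evσ R (Cy.prismσ R q i)) ?_ (act_mem_Ch i.predAbove hW)
  intro p hp m
  have h1 : p ∈ Set.range (MvPolynomial.map (σ := Fin (q + 1))
      (Polynomial.mapRingHom A.subtype)) := by
    rw [MvPolynomial.mem_range_map_iff_coeffs_subset]
    intro c hc
    obtain ⟨n, -, rfl⟩ := MvPolynomial.mem_coeffs_iff.1 (Finset.mem_coe.1 hc)
    exact hp n
  obtain ⟨p', rfl⟩ := h1
  rw [← map_prismσ_Simp A.subtype, ← map_evσ_Simp, coeff_map]
  exact Subtype.property _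

theorem bd_ev_sub [IsDomain R] [QAlg R] {q : ℕ} {W : Xq Γ (Polynomial R) q}
    (hW : W ∈ Ch Γ (⊤ : Subring (Polynomial R)) q) (hc : Cyc q W) :
    Bd ⊤ (pushR (Polynomial.evalRingHom 1) q W - pushR (Polynomial.evalRingHom 0) q W) := by
  refine ⟨prism R q W, prism_mem ?_, dX_prism hc⟩
  rw [polySub_top]
  exact hW

theorem bd_homotopy [QAlg R] [IsDomain R'] [QAlg R'] {l : R →+ Polynomial R'} (hl : RCorr l)
    {q : ℕ} {u : Xq Γ R q} (hu : u ∈ Ch Γ (⊤ : Subring R) q) (hc : Cyc q u) :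
    Bd ⊤ (push ((Polynomial.evalRingHom 1).toAddMonoidHom.comp l) q u -
      push ((Polynomial.evalRingHom 0).toAddMonoidHom.comp l) q u) := by
  rw [← push_push, ← push_push]
  exact bd_ev_sub (push_mem_of_rCorr hl hu) (hc.push l)

theorem bd_contract [IsDomain R] [QAlg R] {σ : Type} {q : ℕ} {u : Xq Γ (MvPolynomial σ R) q}
    (hu : u ∈ Ch Γ (⊤ : Subring (MvPolynomial σ R)) q) (hc : Cyc q u) :
    Bd ⊤ (u - pushR ((C : R →+* MvPolynomial σ R).comp constantCoeff) q u) := by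
  let φ : MvPolynomial σ R →+* Polynomial (MvPolynomial σ R) :=
    MvPolynomial.eval₂Hom (Polynomial.C.comp C) fun s => Polynomial.X * Polynomial.C (X s)
  have h1 : (Polynomial.evalRingHom 1).comp φ = RingHom.id _ := by
    refine MvPolynomial.ringHom_ext (fun c => ?_) fun s => ?_ <;> simp [φ]
  have h0 : (Polynomial.evalRingHom 0).comp φ =
      (C : R →+* MvPolynomial σ R).comp constantCoeff := by
    refine MvPolynomial.ringHom_ext (fun c => ?_) fun s => ?_ <;> simp [φ]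
  have h := bd_ev_sub (pushR_mem (A' := ⊤) φ (fun _ _ => trivial) hu) (hc.push φ.toAddMonoidHom)
  rw [pushR_pushR, pushR_pushR, h1, h0] at h
  have h2 : pushR (RingHom.id (MvPolynomial σ R)) q u = u := push_id q u
  rwa [h2] at h

end

end Pool.Agent.MP_e2821c_ag.Dg
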