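import Pool.Agent.Lib.MP_e2821c_ag.Dg.Skew
import Pool.Agent.Lib.MP_e2821c_ag.Dg.Simp

namespace Pool.Agent.MP_e2821c_ag.Dg

open MvPolynomial

universe u v w

noncomputable section

variable {K : Type u} [Field K]

/-- The product of a chain with target coordinates `x, y` with the point `z = a`. -/
def tensU (a : Kˣ) {q : ℕ} (W : Xq G2 (Lau K) q) : Xq (G2 × ℤ) (Lau K) q :=
  fun γ => C (algebraMap K (Lau K) ((a ^ γ.1.2 : Kˣ) : K)) * W (γ.1.1, γ.2)

/-- The product of a chain with target coordinates `x, z` with the graph `y = u ^ e`. -/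
def diagU (e : ℕ) {q : ℕ} (W : Xq G2 K q) : Xq (G2 × ℤ) (Lau K) q :=
  fun γ => C (AddMonoidAlgebra.single ((e : ℤ) * γ.2) 1) *
    MvPolynomial.map (algebraMap K (Lau K)) (W γ.1)

/-- The monomial of a group element as a unit of the group ring. -/
def unit_CancA (K : Type u) [CommRing K] {G : Type} [AddCommGroup G] (g : G) :
    (AddMonoidAlgebra K G)ˣ := (AddMonoidAlgebra.of K G).toHomUnits (Multiplicative.ofAdd g)

theorem unit_zpow_CancA (K : Type u) [CommRing K] {G : Type} [AddCommGroup G] (g : G) (m : ℤ) :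
    ((unit_CancA K g ^ m : (AddMonoidAlgebra K G)ˣ) : AddMonoidAlgebra K G) =
      AddMonoidAlgebra.single (m • g) 1 := by
  rw [unit_CancA, ← map_zpow, MonoidHom.coe_toHomUnits, ← ofAdd_zsmul]
  rfl

theorem md_CancA (K : Type u) [CommRing K] {G G' : Type} [AddCommGroup G] [AddCommGroup G']
    (f : G →+ G') (g : G) (c : K) : AddMonoidAlgebra.mapDomainRingHom K f
      (AddMonoidAlgebra.single g c) = AddMonoidAlgebra.single (f g) c :=
  AddMonoidAlgebra.mapDomain_single

theorem skew_CancA (K : Type u) [CommRing K] {G : Type} [AddCommGroup G] (g x y : G) (m m' : ℤ) :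
    AddMonoidAlgebra.single g (1 : K) *
      ((((unit_CancA K x ^ m : (AddMonoidAlgebra K G)ˣ) : AddMonoidAlgebra K G) - 1) *
        (((unit_CancA K y ^ m' : (AddMonoidAlgebra K G)ˣ) : AddMonoidAlgebra K G) - 1) +
      (((unit_CancA K y ^ m : (AddMonoidAlgebra K G)ˣ) : AddMonoidAlgebra K G) - 1) *
        (((unit_CancA K x ^ m' : (AddMonoidAlgebra K G)ˣ) : AddMonoidAlgebra K G) - 1)) =
    AddMonoidAlgebra.single (g + m • x + m' • y) 1 + AddMonoidAlgebra.single (g + m' • x + m • y) 1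
      + (AddMonoidAlgebra.single g 1 - AddMonoidAlgebra.single (g + m • x) 1 -
        AddMonoidAlgebra.single (g + m • y) 1)
      + (AddMonoidAlgebra.single g 1 - AddMonoidAlgebra.single (g + m' • x) 1 -
        AddMonoidAlgebra.single (g + m' • y) 1) := by
  have h : ∀ a b : G, AddMonoidAlgebra.single (a + b) (1 : K) =
      AddMonoidAlgebra.single a 1 * AddMonoidAlgebra.single b 1 := fun a b => by
    rw [AddMonoidAlgebra.single_mul_single, one_mul]
  simp only [unit_zpow_CancA, h]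
  ring

/-- The exchange of the simplex variables and the homotopy variable. -/
def kap_CancA (R : Type u) [CommRing R] (q : ℕ) :
    Polynomial (Base R q) →+* Base (Polynomial R) q :=
  Polynomial.eval₂RingHom (MvPolynomial.map Polynomial.C) (C Polynomial.X)

theorem ev_kap_CancA {R : Type u} [CommRing R] {q : ℕ} (t : R) (P : Polynomial (Base R q)) :
    MvPolynomial.map (Polynomial.evalRingHom t) (kap_CancA R q P) = P.eval (C t) := by
  have : (MvPolynomial.map (Polynomial.evalRingHom t)).comp (kap_CancA R q) =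
      Polynomial.evalRingHom (C t) := by
    refine Polynomial.ringHom_ext (fun p => ?_) (by simp [kap_CancA])
    have h : (Polynomial.evalRingHom t).comp Polynomial.C = RingHom.id R := by
      ext; simp
    simp [kap_CancA, MvPolynomial.map_map, h, MvPolynomial.map_id]
  exact RingHom.congr_fun this P

theorem sm_kap_CancA {R : Type u} [CommRing R] {a b : ℕ} (f : Fin (a + 1) → Fin (b + 1))
    (P : Polynomial (Base R b)) :
    Cy.sm (Polynomial R) f (kap_CancA R b P) = kap_CancA R a (P.map (Cy.smR R f)) := by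
  have : (Cy.smR (Polynomial R) f).comp (kap_CancA R b) =
      (kap_CancA R a).comp (Polynomial.mapRingHom (Cy.smR R f)) := by
    refine Polynomial.ringHom_ext (fun p => ?_) ?_
    · simp [kap_CancA, Cy.map_sm]
    · simp [kap_CancA, Cy.sm]
  exact RingHom.congr_fun this P

theorem sm_lin_CancA {G : Type} {R : Type u} [CommRing R] [Algebra K R] {a b : ℕ}
    (f : Fin (a + 1) → Fin (b + 1)) (u : Xq G R b) (s : AddMonoidAlgebra K G) :
    Cy.sm R f (lin K u s) = lin K (act R f u) s := by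
  induction s using AddMonoidAlgebra.induction_linear with
  | zero => simp
  | add x y hx hy => rw [map_add, map_add, map_add, hx, hy]
  | single g c =>
    rw [lin_single, lin_single, act_apply, ← algebraMap_smul R c, map_smul, algebraMap_smul]

/-- The composition of a chain with a homotopy. -/
def wop_CancA (K : Type u) [Field K] {G : Type} [AddCommGroup G] (R : Type u) [CommRing R]
    [Algebra K R] (q : ℕ) (P : Polynomial (AddMonoidAlgebra K G)) :
    Xq G R q →+ Base (Polynomial R) q :=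
  AddMonoidHom.mk' (fun u => kap_CancA R q (pmap (lin K u) P)) (fun u u' => by
    rw [← map_add]
    congr 1
    refine Polynomial.ext (fun n => ?_)
    rw [Polynomial.coeff_add, coeff_pmap, coeff_pmap, coeff_pmap]
    induction P.coeff n using AddMonoidAlgebra.induction_linear with
    | zero => simp
    | add x y hx hy => rw [map_add, map_add, map_add, hx, hy]; abel
    | single g c => rw [lin_single, lin_single, lin_single, Pi.add_apply, smul_add])

theorem sm_wop_CancA {G : Type} [AddCommGroup G] {R : Type u} [CommRing R] [Algebra K R]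
    {a b : ℕ} (f : Fin (a + 1) → Fin (b + 1)) (u : Xq G R b)
    (P : Polynomial (AddMonoidAlgebra K G)) :
    Cy.sm (Polynomial R) f (wop_CancA K R b P u) = wop_CancA K R a P (act R f u) := by
  refine (sm_kap_CancA f _).trans (congrArg (kap_CancA R a) (Polynomial.ext (fun n => ?_)))
  rw [Polynomial.coeff_map, coeff_pmap, coeff_pmap, Cy.smR_apply, sm_lin_CancA]

theorem cyc_wop_CancA {G G' : Type} [AddCommGroup G] {R : Type u} [CommRing R] [Algebra K R]
    {q : ℕ} {u : Xq G R q} (hc : Cyc q u) (Λ : G' → Polynomial (AddMonoidAlgebra K G)) :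
    Cyc q (fun γ => wop_CancA K R q (Λ γ) u : Xq G' (Polynomial R) q) := by
  cases q with
  | zero => trivial
  | succ q =>
    funext γ
    have h := congrArg (wop_CancA K R q (Λ γ)) hc
    rw [dX_apply, map_sum, map_zero] at h
    rw [dX_apply, Finset.sum_apply, Pi.zero_apply, ← h]
    refine Finset.sum_congr rfl (fun i _ => ?_)
    rw [map_zsmul, Pi.smul_apply, act_apply, sm_wop_CancA]

theorem cyc_comp_CancA {G G' : Type} {R : Type u} [CommRing R] {q : ℕ} {u : Xq G R q}
    (hc : Cyc q u) (f : G' → G) (c : G' → R) :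
    Cyc q (fun γ => C (c γ) * u (f γ) : Xq G' R q) := by
  cases q with
  | zero => trivial
  | succ q =>
    have h : dX R q u = 0 := hc
    change dX R q _ = 0
    rw [dX_mul c q (fun γ => u (f γ)), dX_comp, h]
    funext γ
    simp

theorem mem_comp_CancA {G G' : Type} [AddCommGroup G] [AddCommGroup G'] {R : Type u} [CommRing R]
    {q : ℕ} {u : Xq G R q} (hu : u ∈ Ch G (⊤ : Subring R) q) (f : G' →+ G) (χ : AddChar G' R) :
    (fun γ => C (χ γ - 1) * u (f γ) : Xq G' R q) ∈ Ch G' (⊤ : Subring R) q := by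
  have h := sub_mem (mul_char_mem_Ch χ (fun _ => Subring.mem_top _) (comp_mem_Ch f hu))
    (comp_mem_Ch f hu)
  convert h using 1
  funext γ
  simp only [Pi.sub_apply, map_sub, map_one]
  ring

theorem bd_swap_target {R : Type u} [CommRing R] [IsDomain R] [CharZero K] [Algebra K R] {q : ℕ}
    {u : Xq (ℤ × ℤ × ℤ) R q} (hu : u ∈ Ch (ℤ × ℤ × ℤ) (⊤ : Subring R) q) (hc : Cyc q u)
    (h1 : ∀ x m, u (x, m, 0) = 0) (h2 : ∀ x m, u (x, 0, m) = 0) :
    Bd ⊤ (u + fun γ => u (γ.1, γ.2.2, γ.2.1)) := by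
  have : QAlg R := QAlg.of_algebra K R
  obtain ⟨Λ, hΛ, hev⟩ := exists_skew (taut K (AddMonoidHom.inl ℤ (ℤ × ℤ)))
    (unit_CancA K ((0, 1, 0) : ℤ × ℤ × ℤ)) (unit_CancA K ((0, 0, 1) : ℤ × ℤ × ℤ))
  have hW : (fun γ => wop_CancA K R q (Λ γ) u : Xq (ℤ × ℤ × ℤ) (Polynomial R) q) ∈
      Ch (ℤ × ℤ × ℤ) (⊤ : Subring (Polynomial R)) q :=
    mem_Ch_top.2 (map_mem_corrIn (kap_CancA R q) (fun _ _ => Set.mem_univ _)
      ((rCorr_lin K (mem_Ch_top.1 hu)).pmap.comp_mem hΛ))
  convert bd_ev_sub hW (cyc_wop_CancA hc Λ) using 1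
  funext ⟨x, m, m'⟩
  rw [Pi.sub_apply, pushR_apply, pushR_apply]
  change _ = MvPolynomial.map _ (kap_CancA R q _) - MvPolynomial.map _ (kap_CancA R q _)
  rw [ev_kap_CancA, ev_kap_CancA, map_one, map_zero, eval_one_pmap, eval_zero_pmap, ← map_sub, hev,
    taut_apply, skew_CancA]
  simp only [map_add, map_sub, lin_single]
  simp [h1, h2, ← Prod.mk_zero_zero]

theorem bd_swap_source [CharZero K] {Γ : Type} [AddCommGroup Γ] {q : ℕ}
    {u : Xq Γ (AddMonoidAlgebra K G2) q}
    (hu : u ∈ Ch Γ (⊤ : Subring (AddMonoidAlgebra K G2)) q) (hc : Cyc q u)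
    (h1 : pushR (AddMonoidAlgebra.mapDomainRingHom K (AddMonoidHom.fst ℤ ℤ)) q u = 0)
    (h2 : pushR (AddMonoidAlgebra.mapDomainRingHom K (AddMonoidHom.snd ℤ ℤ)) q u = 0) :
    Bd ⊤ (u + pushR (AddMonoidAlgebra.mapDomainRingHom K
      (AddEquiv.prodComm : ℤ × ℤ ≃+ ℤ × ℤ).toAddMonoidHom) q u) := by
  obtain ⟨Λ, hΛ, hev⟩ := exists_skew (1 : AddChar Unit (AddMonoidAlgebra K G2))
    (unit_CancA K ((1, 0) : G2)) (unit_CancA K ((0, 1) : G2))
  have h := bd_homotopy (rCorr_lin K (comp_mem_corrIn (AddMonoidHom.inr Unit G2) hΛ)) hu hc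
  obtain ⟨E, hE⟩ : ∃ E : Lau K →+ AddMonoidAlgebra K G2, ∀ m c, E (AddMonoidAlgebra.single m c) =
      AddMonoidAlgebra.single (0, 0) c - AddMonoidAlgebra.single (m, 0) c -
        AddMonoidAlgebra.single (0, m) c :=
    ⟨(AddMonoidAlgebra.mapDomainRingHom K (0 : ℤ →+ G2)).toAddMonoidHom -
      (AddMonoidAlgebra.mapDomainRingHom K (AddMonoidHom.inl ℤ ℤ)).toAddMonoidHom -
      (AddMonoidAlgebra.mapDomainRingHom K (AddMonoidHom.inr ℤ ℤ)).toAddMonoidHom,
      fun m c => by
        simp only [AddMonoidHom.sub_apply, RingHom.toAddMonoidHom_eq_coe, AddMonoidHom.coe_coe,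
          md_CancA]
        rfl⟩
  have hD : (Polynomial.evalRingHom 1).toAddMonoidHom.comp
        (lin K fun γ => Λ (AddMonoidHom.inr Unit G2 γ)) -
      (Polynomial.evalRingHom 0).toAddMonoidHom.comp
        (lin K fun γ => Λ (AddMonoidHom.inr Unit G2 γ)) =
      AddMonoidHom.id _ + (AddMonoidAlgebra.mapDomainRingHom K
        (AddEquiv.prodComm : ℤ × ℤ ≃+ ℤ × ℤ).toAddMonoidHom).toAddMonoidHom +
      E.comp (AddMonoidAlgebra.mapDomainRingHom K (AddMonoidHom.fst ℤ ℤ)).toAddMonoidHom +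
      E.comp (AddMonoidAlgebra.mapDomainRingHom K (AddMonoidHom.snd ℤ ℤ)).toAddMonoidHom := by
    refine AddMonoidAlgebra.addMonoidHom_ext (fun ⟨m, m'⟩ c => ?_)
    have h3 := congrArg (fun x => c • x)
      ((hev 0 m m').trans (skew_CancA K (0 : G2) (1, 0) (0, 1) m m'))
    simp only [smul_add, smul_sub, AddMonoidAlgebra.smul_single] at h3
    simp only [AddMonoidHom.sub_apply, AddMonoidHom.add_apply, AddMonoidHom.comp_apply,
      RingHom.toAddMonoidHom_eq_coe, AddMonoidHom.coe_coe, md_CancA, hE, lin_single]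
    simpa [← Prod.mk_zero_zero] using h3
  rw [← sub_push, hD, add_push, add_push, add_push, push_id, ← push_push, ← push_push, h1, h2,
    map_zero, add_zero, add_zero] at h
  exact h

theorem cancA [CharZero K] {q : ℕ} {W : Xq G2 (Lau K) q} (hW : W ∈ CR ⊤ q) (hc : Cyc q W)
    (h1 : pushR (evL (1 : Kˣ)).toRingHom q W = 0) (a : Kˣ) :
    Bd ⊤ ((tensU a W - tensU 1 W) -
      (diagU 1 (pushR (evL a).toRingHom q W) - diagU 0 (pushR (evL a).toRingHom q W))) := by
  obtain ⟨i₁, hi₁⟩ : ∃ i : Lau K →+* AddMonoidAlgebra K G2,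
    i = AddMonoidAlgebra.mapDomainRingHom K (AddMonoidHom.inl ℤ ℤ) := ⟨_, rfl⟩
  obtain ⟨i₂, hi₂⟩ : ∃ i : Lau K →+* AddMonoidAlgebra K G2,
    i = AddMonoidAlgebra.mapDomainRingHom K (AddMonoidHom.inr ℤ ℤ) := ⟨_, rfl⟩
  obtain ⟨π, hπ⟩ : ∃ π : AddMonoidAlgebra K G2 →+* Lau K, ∀ m m' c,
      π (AddMonoidAlgebra.single (m, m') c) =
        AddMonoidAlgebra.single m (c * ((a ^ m' : Kˣ) : K)) := by
    refine ⟨(AddMonoidAlgebra.lift K (Lau K) G2
      { toFun := fun g => AddMonoidAlgebra.single g.toAdd.1 ((a ^ g.toAdd.2 : Kˣ) : K)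
        map_one' := by simp [AddMonoidAlgebra.one_def, -LaurentPolynomial.single_eq_C_mul_T]
        map_mul' := fun g g' => by
          simp [AddMonoidAlgebra.single_mul_single, zpow_add,
            -LaurentPolynomial.single_eq_C_mul_T] }).toRingHom, fun m m' c => ?_⟩
    rw [AlgHom.toRingHom_eq_coe, AlgHom.coe_toRingHom, AddMonoidAlgebra.lift_single]
    exact AddMonoidAlgebra.smul_single _ _ _
  have hev : ∀ (b : Kˣ) (m : ℤ) (c : K), ((algebraMap K (Lau K)).comp (evL b).toRingHom)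
      (AddMonoidAlgebra.single m c) = AddMonoidAlgebra.single 0 (c * ((b ^ m : Kˣ) : K)) := by
    intro b m c
    rw [RingHom.comp_apply, AlgHom.toRingHom_eq_coe, AlgHom.coe_toRingHom, evL_single]
    rfl
  have hext : ∀ {f g : Lau K →+* Lau K}, (∀ m c, f (AddMonoidAlgebra.single m c) =
      g (AddMonoidAlgebra.single m c)) → f = g := fun h =>
    RingHom.coe_addMonoidHom_injective (AddMonoidAlgebra.addMonoidHom_ext h)
  have e1 : π.comp i₁ = RingHom.id _ := hext (fun m c => by
    rw [RingHom.comp_apply, hi₁, md_CancA, AddMonoidHom.inl_apply, hπ]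
    simp)
  have e2 : π.comp i₂ = (algebraMap K (Lau K)).comp (evL a).toRingHom := hext (fun m c => by
    rw [RingHom.comp_apply, hi₂, md_CancA, AddMonoidHom.inr_apply, hπ, hev])
  have e3 : (AddMonoidAlgebra.mapDomainRingHom K (AddMonoidHom.snd ℤ ℤ)).comp i₁ =
      (algebraMap K (Lau K)).comp (evL 1).toRingHom := hext (fun m c => by
    rw [RingHom.comp_apply, hi₁, md_CancA, md_CancA, hev]
    simp)
  have e4 : (AddMonoidAlgebra.mapDomainRingHom K
      (AddEquiv.prodComm : ℤ × ℤ ≃+ ℤ × ℤ).toAddMonoidHom).comp i₁ = i₂ := by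
    rw [hi₁, hi₂, ← AddMonoidAlgebra.mapDomainRingHom_comp]
    rfl
  have m1 := pushR_mem i₁ (A' := ⊤) (fun _ _ => Subring.mem_top _) hW.1
  have m2 := pushR_mem i₂ (A' := ⊤) (fun _ _ => Subring.mem_top _) hW.1
  have s1 := bd_swap_source (K := K) (mem_comp_CancA m1
    (((AddMonoidHom.fst ℤ ℤ).comp (AddMonoidHom.fst G2 ℤ)).prod (AddMonoidHom.snd G2 ℤ))
    (taut K ((AddMonoidHom.inr ℤ ℤ).comp ((AddMonoidHom.snd ℤ ℤ).comp (AddMonoidHom.fst G2 ℤ)))))
    (cyc_comp_CancA (hc.push _) _ _)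
    (by
      funext γ
      rw [pushR_apply, map_mul, map_C, map_sub, map_one, taut_apply, md_CancA]
      simp [AddMonoidAlgebra.one_def, -LaurentPolynomial.single_eq_C_mul_T])
    (by
      funext γ
      rw [pushR_apply, map_mul, ← pushR_apply, pushR_pushR, e3, ← pushR_pushR, h1, map_zero]
      simp)
  have s2 := (bd_swap_target (K := K) (mem_comp_CancA m2
    ((AddMonoidHom.fst ℤ G2).prod ((AddMonoidHom.snd ℤ ℤ).comp (AddMonoidHom.snd ℤ G2)))
    (taut K ((AddMonoidHom.inl ℤ ℤ).comp ((AddMonoidHom.fst ℤ ℤ).comp (AddMonoidHom.snd ℤ G2)))))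
    (cyc_comp_CancA (hc.push _) _ _)
    (fun x m => by
      have h : pushR i₂ q W (x, 0) = 0 := (hW.2.push _).2 x
      exact mul_eq_zero_of_right _ h)
    (fun x m => by
      refine mul_eq_zero_of_left ?_ _
      simp [AddMonoidAlgebra.one_def, ← Prod.mk_zero_zero])).comp
    (AddEquiv.prodAssoc : G2 × ℤ ≃+ ℤ × ℤ × ℤ).toAddMonoidHom
  convert (s1.sub s2).pushR π (A' := ⊤) (fun _ _ => Subring.mem_top _) using 1
  funext ⟨⟨x, z⟩, y⟩
  have e5 : ∀ p, MvPolynomial.map π (MvPolynomial.map i₁ p) = (p : Base (Lau K) q) := fun p => by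
    rw [MvPolynomial.map_map, e1, MvPolynomial.map_id]
  have e6 : ∀ p : Base (Lau K) q, MvPolynomial.map π (MvPolynomial.map i₂ p) =
      MvPolynomial.map (algebraMap K (Lau K)) (MvPolynomial.map (evL a).toRingHom p) := fun p => by
    rw [MvPolynomial.map_map, e2, MvPolynomial.map_map]
  have e7 : ∀ p : Base (Lau K) q, MvPolynomial.map (AddMonoidAlgebra.mapDomainRingHom K
      (AddEquiv.prodComm : ℤ × ℤ ≃+ ℤ × ℤ).toAddMonoidHom) (MvPolynomial.map i₁ p) =
      MvPolynomial.map i₂ p := fun p => by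
    rw [MvPolynomial.map_map, e4]
  simp only [Pi.sub_apply, Pi.add_apply, pushR_apply, tensU, diagU, map_sub, map_add, map_mul,
    map_C, map_one, taut_apply, md_CancA, e7, e5, e6]
  change _ = (C (π (AddMonoidAlgebra.single (0, z) 1)) - 1) * W (x, y) +
    (C (π (AddMonoidAlgebra.single (z, 0) 1)) - 1) *
      MvPolynomial.map _ (MvPolynomial.map _ (W (x, y))) -
    ((C (π (AddMonoidAlgebra.single (z, 0) 1)) - 1) *
      MvPolynomial.map _ (MvPolynomial.map _ (W (x, y))) +
    (C (π (AddMonoidAlgebra.single (y, 0) 1)) - 1) *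
      MvPolynomial.map _ (MvPolynomial.map _ (W (x, z))))
  have e8 : ∀ c : K, AddMonoidAlgebra.single 0 c = algebraMap K (Lau K) c := fun _ => rfl
  rw [hπ 0 z, hπ y 0, Nat.cast_one, Nat.cast_zero, one_mul, one_mul, zero_mul, e8, e8, one_zpow,
    zpow_zero, Units.val_one, mul_one, map_one, map_one]
  ring

end

end Pool.Agent.MP_e2821c_ag.Dg
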