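import Pool.Agent.Lib.MP_e2821c_ag.Dg.RhoA
import Pool.Agent.Lib.MP_e2821c_ag.Dg.TrSpec

namespace Pool.Agent.MP_e2821c_ag.Dg

open MvPolynomial

universe u v w

noncomputable section

theorem aeval_T_RhoC {S D : Type u} [CommRing S] [CommRing D] [Algebra S D] (φ : Lau S →ₐ[S] D)
    (p : Polynomial S) :
    Polynomial.aeval (φ (LaurentPolynomial.T 1)) p = φ (Polynomial.toLaurent p) := by
  have : Polynomial.aeval (φ (LaurentPolynomial.T 1)) = φ.comp Polynomial.toLaurentAlg := by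
    ext
    simp
  rw [this]
  rfl

theorem inj_RhoC {S D : Type u} [CommRing S] [IsDomain S] [CommRing D] [IsDomain D] [Algebra S D]
    (φ ψ : Lau S →ₐ[S] D) (hψ : ψ.toRingHom.Finite) (hφ : Function.Injective φ) :
    Function.Injective ψ := by
  by_contra hn
  rw [injective_iff_map_eq_zero] at hn
  push Not at hn
  obtain ⟨f, h0, hf⟩ := hn
  obtain ⟨k, p, hp⟩ := LaurentPolynomial.exists_T_pow f
  have h1 : IsAlgebraic S (ψ (LaurentPolynomial.T 1)) := by
    refine ⟨p, fun e => hf ?_, by rw [aeval_T_RhoC, hp, map_mul, h0, zero_mul]⟩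
    rw [e, map_zero] at hp
    exact (LaurentPolynomial.isUnit_T k).mul_left_eq_zero.1 hp.symm
  have h2 : ∀ m : ℕ, IsAlgebraic S (ψ (LaurentPolynomial.T m)) := fun m => by
    have := h1.pow m
    rwa [← map_pow, LaurentPolynomial.T_pow, mul_one] at this
  have h3 : ∀ m : ℤ, IsAlgebraic S (ψ (LaurentPolynomial.T m)) := fun m => by
    obtain ⟨m, rfl | rfl⟩ := m.eq_nat_or_neg
    · exact h2 m
    · refine IsAlgebraic.of_mul ((LaurentPolynomial.isUnit_T m).map ψ).mem_nonZeroDivisors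
        (h2 m) ?_
      rw [← map_mul, ← LaurentPolynomial.T_add, add_neg_cancel, LaurentPolynomial.T_zero, map_one]
      exact isAlgebraic_one
  have h4 : ∀ x, ψ x ∈ Subalgebra.algebraicClosure S D := fun x => by
    induction x using AddMonoidAlgebra.induction_on with
    | of m => exact h3 m
    | add x y hx hy => rw [map_add]; exact add_mem hx hy
    | smul r x hx => rw [map_smul]; exact Subalgebra.smul_mem _ hx r
  obtain ⟨q, q1, q2⟩ := hψ.to_isIntegral (φ (LaurentPolynomial.T 1))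
  have h5 : IsIntegral (Subalgebra.algebraicClosure S D) (φ (LaurentPolynomial.T 1)) :=
    ⟨q.map (ψ.codRestrict _ h4).toRingHom, q1.map _, by rw [Polynomial.eval₂_map]; exact q2⟩
  obtain ⟨r, r0, r1⟩ := h5.trans_isAlgebraic S
  rw [aeval_T_RhoC] at r1
  exact r0 (Polynomial.toLaurent_injective (hφ (by rw [r1, map_zero, map_zero])))

theorem comap_RhoC {S : Type u} [CommRing S] [IsDomain S] {Γ : Type} [AddCommGroup Γ]
    {m m' : ℤ × Γ × ℤ} {Q : Ideal (BB S Γ)} (hQ : Q.IsPrime)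
    (h : FiniteOver (Lau S) (BB S Γ) (gM S Γ m') Q) (h0 : Q.comap (gM S Γ m) = ⊥) :
    Q.comap (gM S Γ m') = ⊥ := by
  let φ : (ℤ × Γ × ℤ) → (Lau S →ₐ[S] BB S Γ ⧸ Q) := fun m =>
    { (Ideal.Quotient.mk Q).comp (gM S Γ m) with
      commutes' := fun c => by
        change Ideal.Quotient.mk Q (gM S Γ m (AddMonoidAlgebra.single 0 c)) = _
        rw [gM_single, zero_smul]
        rfl }
  have e : ∀ m, Function.Injective (φ m) ↔ Q.comap (gM S Γ m) = ⊥ := fun m => by
    have := RingHom.comap_ker (Ideal.Quotient.mk Q) (gM S Γ m)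
    rw [Ideal.mk_ker] at this
    rw [this, ← RingHom.injective_iff_ker_eq_bot]
    exact Iff.rfl
  exact (e m').1 (inj_RhoC (φ m) (φ m') h ((e m).2 h0))

theorem dvd_RhoC {S S' : Type u} [CommRing S] [CommRing S'] (a : S →+* S') {t : S}
    (hk : RingHom.ker a = Ideal.span {t}) {M : Type} [AddCommMonoid M] (y : AddMonoidAlgebra S M)
    (hy : AddMonoidAlgebra.mapRingHom M a y = 0) : AddMonoidAlgebra.single 0 t ∣ y := by
  rw [← AddMonoidAlgebra.sum_coeff_single y]
  refine Finset.dvd_sum fun m _ => ?_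
  have h1 : y.coeff m ∈ RingHom.ker a := by
    rw [RingHom.mem_ker, ← AddMonoidAlgebra.coeff_mapRingHom, hy]
    rfl
  rw [hk, Ideal.mem_span_singleton] at h1
  obtain ⟨c, hc⟩ := h1
  exact ⟨AddMonoidAlgebra.single m c, by rw [AddMonoidAlgebra.single_mul_single, zero_add, hc]⟩

theorem map_gM_RhoC {S S' : Type u} [CommRing S] [CommRing S'] (a : S →+* S') {Γ : Type}
    [AddCommGroup Γ] (m : ℤ × Γ × ℤ) (r : Lau S) :
    AddMonoidAlgebra.mapRingHom _ a (gM S Γ m r) =
      gM S' Γ m (AddMonoidAlgebra.mapRingHom ℤ a r) := by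
  induction r using AddMonoidAlgebra.induction_linear with
  | zero => simp
  | add x y hx hy => simp only [map_add, hx, hy]
  | single k c => simp only [gM_single, AddMonoidAlgebra.mapRingHom_single]

theorem evL_RhoC {S S' : Type u} [CommRing S] [CommRing S'] (a : S →+* S') (r : Lau S) :
    a (evL 1 r) = evL 1 (AddMonoidAlgebra.mapRingHom ℤ a r) := by
  induction r using AddMonoidAlgebra.induction_linear with
  | zero => simp
  | add x y hx hy => simp only [map_add, hx, hy]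
  | single k c =>
    rw [AddMonoidAlgebra.mapRingHom_single, evL_single, evL_single, one_zpow, one_zpow,
      Units.val_one, Units.val_one, mul_one, mul_one]

section CycI

variable {R A : Type u} [CommRing R] [CommRing A] {g : R →+* A} {I : Ideal A}

/-- The cycle of an ideal as a function on ideals. -/
def cycI_RhoC (h : FiniteOver R A g I) : Ideal A →₀ ℤ :=
  (cyc R A g I h).mapDomain fun Q : ElemOf R A g => Q.1

theorem cycI_sum_RhoC (h : FiniteOver R A g I) {M : Type*} [AddCommMonoid M]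
    (F : Ideal A → ℤ → M) : (cycI_RhoC h).sum F = (cyc R A g I h).sum fun Q c => F Q.1 c :=
  Finsupp.sum_mapDomain_index_inj fun _ _ h => Subtype.ext h

theorem cycI_supp_RhoC (h : FiniteOver R A g I) {Q : Ideal A} (hQ : Q ∈ (cycI_RhoC h).support) :
    I ≤ Q ∧ IsElem R A g Q := by
  classical
  obtain ⟨Q', hQ', rfl⟩ := Finset.mem_image.1 (Finsupp.mapDomain_support hQ)
  exact ⟨le_of_mem_support_cyc hQ', Q'.2⟩

theorem cycI_apply_RhoC (h : FiniteOver R A g I) {Q : Ideal A} [Q.IsPrime] (hQ : IsElem R A g Q) :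
    cycI_RhoC h Q = ((len I Q).toNat : ℤ) :=
  (Finsupp.mapDomain_apply (f := fun Q : ElemOf R A g => Q.1) (fun _ _ h => Subtype.ext h) _
    ⟨Q, hQ⟩).trans (cyc_apply I h ⟨Q, hQ⟩)

end CycI

variable {S : Type u} [CommRing S] [IsDomain S] [QAlg S] [IsIntegrallyClosed S]
  [IsNoetherianRing S] {Γ : Type} [AddCommGroup Γ] [Module.Finite ℤ Γ] {n : ℕ}

theorem isElem_iff_of_finite {Q : Ideal (BB S Γ)}
    (h1 : FiniteOver (Lau S) (BB S Γ) (gU S Γ) Q) (h2 : FiniteOver (Lau S) (BB S Γ) (gN S Γ n) Q) :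
    IsElem (Lau S) (BB S Γ) (gU S Γ) Q ↔ IsElem (Lau S) (BB S Γ) (gN S Γ n) Q := by
  exact ⟨fun h => ⟨h.1, h2, comap_RhoC h.1 h2 h.2.2⟩, fun h => ⟨h.1, h1, comap_RhoC h.1 h1 h.2.2⟩⟩

theorem spec_gM_RhoC {S' : Type u} [CommRing S'] [IsDomain S'] [IsIntegrallyClosed S']
    (a : S →+* S') (ha : Function.Surjective a) (t : S) (ht : t ≠ 0)
    (hk : RingHom.ker a = Ideal.span {t}) (m : ℤ × Γ × ℤ) {P : Ideal (BB S Γ)}
    (hP : IsElem (Lau S) (BB S Γ) (gM S Γ m) P) :
    ∃ h : FiniteOver (Lau S') (BB S' Γ) (gM S' Γ m) (P.map (AddMonoidAlgebra.mapRingHom _ a)),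
      ∀ y, AddMonoidAlgebra.mapRingHom ℤ a (trG (gM S Γ m) P y) = (cycI_RhoC h).sum
        fun Q c => c • trG (gM S' Γ m) Q (AddMonoidAlgebra.mapRingHom _ a y) := by
  have := lau_isIntegrallyClosed S
  have := lau_isIntegrallyClosed S'
  have := lau_isNoetherianRing S
  have := bb_isNoetherianRing S Γ
  have hb : Function.Surjective (AddMonoidAlgebra.mapRingHom (ℤ × Γ × ℤ) a) :=
    AddMonoidAlgebra.map_surjective a.toAddMonoidHom ha
  refine ⟨finiteOver_map _ _ _ _ hb (map_gM_RhoC a m) P hP.2.1, fun y => ?_⟩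
  rw [cycI_sum_RhoC]
  refine trG_spec_elem (AddMonoidAlgebra.mapRingHom ℤ a)
    (AddMonoidAlgebra.map_surjective a.toAddMonoidHom ha) (AddMonoidAlgebra.single 0 t)
    (fun e => ht (AddMonoidAlgebra.single_eq_zero.1 e)) ?_ _ hb (fun y hy => ?_)
    (map_gM_RhoC a m) ⟨P, hP⟩ y
  · refine le_antisymm (fun x hx => Ideal.mem_span_singleton.2 (dvd_RhoC a hk x hx)) ?_
    rw [Ideal.span_singleton_le_iff_mem, RingHom.mem_ker, AddMonoidAlgebra.mapRingHom_single,
      show a t = 0 from RingHom.mem_ker.1 (hk ▸ Ideal.mem_span_singleton_self t),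
      AddMonoidAlgebra.single_zero]
  · rw [gM_single, zero_smul]
    exact dvd_RhoC a hk y hy

theorem cyc_eq_RhoC {I : Ideal (BB S Γ)}
    (h1 : FiniteOver (Lau S) (BB S Γ) (gU S Γ) I)
    (h2 : FiniteOver (Lau S) (BB S Γ) (gN S Γ n) I) : cycI_RhoC h1 = cycI_RhoC h2 := by
  ext Q
  by_cases hQ : I ≤ Q ∧ IsElem (Lau S) (BB S Γ) (gU S Γ) Q
  · have hQ' := (isElem_iff_of_finite (finiteOver_of_le hQ.1 h1) (finiteOver_of_le hQ.1 h2)).1 hQ.2
    have := hQ.2.1
    rw [cycI_apply_RhoC h1 hQ.2, cycI_apply_RhoC h2 hQ']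
  · rw [Finsupp.notMem_support_iff.1 fun h => hQ (cycI_supp_RhoC h1 h),
      Finsupp.notMem_support_iff.1 fun h => hQ ?_]
    have h := cycI_supp_RhoC h2 h
    exact ⟨h.1, (isElem_iff_of_finite (finiteOver_of_le h.1 h1) (finiteOver_of_le h.1 h2)).2 h.2⟩

theorem sum_RhoC {ι : Type*} (s : Finset ι) (τ : ι → Γ × ℤ → Lau S) (σ : ι → Γ → S)
    (h : ∀ i ∈ s, RhoRel n (τ i) (σ i)) : RhoRel n (∑ i ∈ s, τ i) (∑ i ∈ s, σ i) := by
  classical
  induction s using Finset.induction_on with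
  | empty => exact RhoRel.zero
  | insert i s hi ih =>
    rw [Finset.sum_insert hi, Finset.sum_insert hi]
    exact (h i (Finset.mem_insert_self _ _)).add
      (ih fun j hj => h j (Finset.mem_insert_of_mem hj))

theorem RhoRel.spec {S' : Type u} [CommRing S'] [IsDomain S'] [IsIntegrallyClosed S']
    (a : S →+* S') (ha : Function.Surjective a) (t : S) (ht : t ≠ 0)
    (hk : RingHom.ker a = Ideal.span {t}) {τ : Γ × ℤ → Lau S} {σ : Γ → S} (h : RhoRel n τ σ) :
    RhoRel n (fun γ => AddMonoidAlgebra.mapRingHom ℤ a (τ γ)) fun γ => a (σ γ) := by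
  have : QAlg S' := QAlg.of_ringHom a
  have : IsNoetherianRing S' := isNoetherianRing_of_surjective S S' a ha
  obtain ⟨N, hN, c, h1, h2, h3⟩ := h
  have key : ∀ P ∈ c.support, RhoRel n
      (fun γ : Γ × ℤ => AddMonoidAlgebra.mapRingHom ℤ a
        (trG (gU S Γ) P (AddMonoidAlgebra.single (0, γ) 1)))
      fun γ => a (evL 1 (trG (gN S Γ n) P (AddMonoidAlgebra.single (0, γ, 0) 1))) := fun P hP => by
    obtain ⟨f1, e1⟩ := spec_gM_RhoC a ha t ht hk _ (h1 P hP).1
    obtain ⟨f2, e2⟩ := spec_gM_RhoC a ha t ht hk _ (h1 P hP).2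
    refine ⟨1, one_ne_zero, cycI_RhoC f1, fun Q hQ => ?_, fun γ => ?_, fun γ => ?_⟩
    · have h := cycI_supp_RhoC f1 hQ
      exact ⟨h.2, (isElem_iff_of_finite (finiteOver_of_le h.1 f1) (finiteOver_of_le h.1 f2)).1 h.2⟩
    · beta_reduce
      rw [one_smul, e1, AddMonoidAlgebra.mapRingHom_single, map_one]
    · beta_reduce
      rw [one_smul, evL_RhoC, e2, AddMonoidAlgebra.mapRingHom_single, map_one,
        cyc_eq_RhoC f1 f2, map_finsuppSum]
      simp only [map_zsmul]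
  refine RhoRel.of_nsmul hN ?_
  have := sum_RhoC c.support _ _ fun P hP => (key P hP).zsmul (c P)
  convert this using 1
  · funext γ
    rw [Pi.smul_apply, ← map_nsmul, h2, map_finsuppSum, Finset.sum_apply]
    simp only [map_zsmul, Pi.smul_apply, Finsupp.sum]
  · funext γ
    rw [Pi.smul_apply, ← map_nsmul, h3, map_finsuppSum, Finset.sum_apply]
    simp only [map_zsmul, Pi.smul_apply, Finsupp.sum]

end

end Pool.Agent.MP_e2821c_ag.Dg
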