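import Pool.Agent.Lib.MP_e2821c_ag.Dg.RhoA

namespace Pool.Agent.MP_e2821c_ag.Dg

open MvPolynomial

universe u v w

noncomputable section

/-- The map of coordinate rings that puts the second torus variable equal to `a`. -/
def pr_RhoD {S : Type u} [CommRing S] (a : Sˣ) : BB S G2 →+* BB S ℤ :=
  (AddMonoidAlgebra.lift S (BB S ℤ) (ℤ × G2 × ℤ)
    { toFun := fun m => AddMonoidAlgebra.single
        (m.toAdd.1, m.toAdd.2.1.1, m.toAdd.2.2) ((a ^ m.toAdd.2.1.2 : Sˣ) : S)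
      map_one' := by simp [AddMonoidAlgebra.one_def]; rfl
      map_mul' := fun x y => by
        simp [AddMonoidAlgebra.single_mul_single, zpow_add] }).toRingHom

theorem pr_single_RhoD {S : Type u} [CommRing S] (a : Sˣ) (m : ℤ × G2 × ℤ) (c : S) :
    pr_RhoD a (AddMonoidAlgebra.single m c) =
      AddMonoidAlgebra.single (m.1, m.2.1.1, m.2.2) (c * ((a ^ m.2.1.2 : Sˣ) : S)) := by
  change AddMonoidAlgebra.lift S (BB S ℤ) (ℤ × G2 × ℤ) _ _ = _
  rw [AddMonoidAlgebra.lift_single]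
  simp

theorem pr_surj_RhoD {S : Type u} [CommRing S] (a : Sˣ) : Function.Surjective (pr_RhoD a) := by
  intro y
  induction y using AddMonoidAlgebra.induction_linear with
  | zero => exact ⟨0, map_zero _⟩
  | add f g hf hg =>
    obtain ⟨f', rfl⟩ := hf
    obtain ⟨g', rfl⟩ := hg
    exact ⟨f' + g', map_add _ _ _⟩
  | single m c => exact ⟨AddMonoidAlgebra.single (m.1, (m.2.1, 0), m.2.2) c, by
      rw [pr_single_RhoD]; simp⟩

theorem pr_comp_RhoD {S : Type u} [CommRing S] (a : Sˣ) (k l : ℤ) :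
    (pr_RhoD a).comp (gM S G2 (k, 0, l)) = gM S ℤ (k, 0, l) := by
  refine RingHom.ext fun y => ?_
  induction y using AddMonoidAlgebra.induction_linear with
  | zero => simp
  | add f g hf hg => rw [map_add, map_add, hf, hg]
  | single m c =>
    rw [RingHom.comp_apply, gM_single, gM_single, pr_single_RhoD]
    simp

variable {S : Type u} [CommRing S] [IsDomain S] [QAlg S] [IsIntegrallyClosed S]
  [IsNoetherianRing S] {Γ : Type} [AddCommGroup Γ] [Module.Finite ℤ Γ] {n : ℕ}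

theorem RhoRel.tens {τ : ℤ × ℤ → Lau S} {σ : ℤ → S} (h : RhoRel n τ σ) (a : Sˣ) :
    RhoRel (Γ := G2) n
      (fun γ => algebraMap S (Lau S) ((a ^ γ.1.2 : Sˣ) : S) * τ (γ.1.1, γ.2))
      fun γ => ((a ^ γ.2 : Sˣ) : S) * σ γ.1 := by
  classical
  obtain ⟨N, hN, c, h1, h2, h3⟩ := h
  have := lau_isIntegrallyClosed S
  have hs := pr_surj_RhoD a
  have hi := Ideal.comap_injective_of_surjective (pr_RhoD a) hs
  have key : ∀ (k l : ℤ) (P : Ideal (BB S ℤ)), IsElem (Lau S) (BB S ℤ) (gM S ℤ (k, 0, l)) P →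
      ∀ (γ : G2) (r : ℤ), trG (gM S G2 (k, 0, l)) (P.comap (pr_RhoD a))
        (AddMonoidAlgebra.single (0, γ, r) 1) =
      algebraMap S (Lau S) ((a ^ γ.2 : Sˣ) : S) *
        trG (gM S ℤ (k, 0, l)) P (AddMonoidAlgebra.single (0, γ.1, r) 1) := by
    intro k l P hP γ r
    rw [trG_comap _ hs, pr_comp_RhoD, pr_single_RhoD, ← trG_elem_mul ⟨P, hP⟩]
    congr 1
    change _ = gM S ℤ (k, 0, l) (AddMonoidAlgebra.single 0 _) * _
    rw [gM_single, AddMonoidAlgebra.single_mul_single]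
    simp
  refine ⟨N, hN, c.mapDomain (Ideal.comap (pr_RhoD a)), fun P hP => ?_, fun γ => ?_, fun γ => ?_⟩
  · obtain ⟨Q, hQ, rfl⟩ := Finset.mem_image.1 (Finsupp.mapDomain_support hP)
    rw [isElem_comap _ hs, isElem_comap _ hs, pr_comp_RhoD, pr_comp_RhoD]
    exact h1 Q hQ
  · rw [Finsupp.sum_mapDomain_index_inj hi, ← mul_smul_comm, h2, Finsupp.mul_sum]
    refine Finsupp.sum_congr fun P hP => ?_
    rw [mul_smul_comm, ← key 1 0 P (h1 P hP).1]
  · rw [Finsupp.sum_mapDomain_index_inj hi, ← mul_smul_comm, h3, Finsupp.mul_sum]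
    refine Finsupp.sum_congr fun P hP => ?_
    rw [mul_smul_comm, key _ _ P (h1 P hP).2, map_mul, AlgHom.commutes]
    rfl

end

end Pool.Agent.MP_e2821c_ag.Dg
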