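import Pool.Agent.Lib.MP_e2821c_ag.Dg.RhoA

namespace Pool.Agent.MP_e2821c_ag.Dg

open MvPolynomial

universe u v w

noncomputable section

section Aux

open AddMonoidAlgebra

/-- The map of Laurent rings given by `f` on coefficients and by `u ↦ u ^ r`. -/
def phi_RhoE {S B : Type u} [CommRing S] [CommRing B] (f : S →+* B) (r : ℕ) : Lau S →+* Lau B :=
  (mapDomainRingHom B (zmultiplesHom ℤ (r : ℤ))).comp (mapRingHom ℤ f)

theorem phi_single_RhoE {S B : Type u} [CommRing S] [CommRing B] (f : S →+* B) (r : ℕ) (k : ℤ)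
    (c : S) : phi_RhoE f r (single k c) = single (k * r) (f c) := by
  rw [phi_RhoE, RingHom.comp_apply, mapRingHom_single, mapDomainRingHom_apply, mapDomain_single]
  rfl

theorem lau_ext_RhoE {B E : Type*} [CommRing B] [CommRing E] {e e' : AddMonoidAlgebra B ℤ →+* E}
    (h0 : ∀ b, e (single 0 b) = e' (single 0 b)) (h1 : e (single 1 1) = e' (single 1 1)) :
    e = e' :=
  AddMonoidAlgebra.ringHom_ext' (RingHom.ext h0) (MonoidHom.ext_mint h1)

theorem phi_injective_RhoE {S B : Type u} [CommRing S] [CommRing B] {f : S →+* B}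
    (hf : Function.Injective f) {r : ℕ} (hr : r ≠ 0) : Function.Injective (phi_RhoE f r) := by
  refine (AddMonoidAlgebra.mapDomain_injective (R := B) (f := zmultiplesHom ℤ (r : ℤ)) ?_).comp
    (AddMonoidAlgebra.map_injective (M := ℤ) (f : S →+ B) hf)
  intro a b h
  exact mul_right_cancel₀ (Int.natCast_ne_zero.2 hr) h

theorem phi_isIntegral_RhoE {S B : Type u} [CommRing S] [CommRing B] {f : S →+* B}
    (hf : f.IsIntegral) {r : ℕ} (hr : r ≠ 0) : (phi_RhoE f r).IsIntegral := by
  let := (phi_RhoE f r).toAlgebra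
  intro x
  change IsIntegral (Lau S) x
  induction x using AddMonoidAlgebra.induction_linear with
  | zero => exact isIntegral_zero
  | add x y hx hy => exact hx.add hy
  | single k b =>
    have h1 : (single k b : Lau B) = single 0 b * single k 1 := by
      rw [single_mul_single, zero_add, mul_one]
    rw [h1]
    refine IsIntegral.mul ?_ (IsIntegral.of_pow (Nat.pos_of_ne_zero hr) ?_)
    · obtain ⟨p, hp, h⟩ := hf b
      refine ⟨p.map singleZeroRingHom, hp.map _, ?_⟩
      have h2 : (algebraMap (Lau S) (Lau B)).comp singleZeroRingHom =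
          (singleZeroRingHom : B →+* Lau B).comp f := RingHom.ext fun s => by
        change phi_RhoE f r (single 0 s) = single 0 (f s)
        rw [phi_single_RhoE, zero_mul]
      rw [Polynomial.eval₂_map, h2]
      have h3 := Polynomial.hom_eval₂ p f (singleZeroRingHom : B →+* Lau B) b
      rw [h, map_zero] at h3
      exact h3.symm
    · have h2 : (single k 1 : Lau B) ^ r = algebraMap (Lau S) (Lau B) (single k 1) := by
        change _ = phi_RhoE f r (single k 1)
        rw [phi_single_RhoE, single_pow, one_pow, map_one, nsmul_eq_mul, mul_comm]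
      rw [h2]
      exact isIntegral_algebraMap

theorem phi_finite_RhoE {S B : Type u} [CommRing S] [CommRing B] {f : S →+* B}
    (hf : f.Finite) {r : ℕ} (hr : r ≠ 0) : (phi_RhoE f r).Finite := by
  refine (phi_isIntegral_RhoE hf.to_isIntegral hr).to_finite
    (RingHom.FiniteType.of_comp_finiteType (f := algebraMap S (Lau S)) ?_)
  have h2 : (phi_RhoE f r).comp (algebraMap S (Lau S)) = (algebraMap B (Lau B)).comp f :=
    RingHom.ext fun s => by
      change phi_RhoE f r (single 0 s) = single 0 (f s)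
      rw [phi_single_RhoE, zero_mul]
  rw [h2]
  exact RingHom.FiniteType.comp (RingHom.finiteType_algebraMap.2 inferInstance)
    (RingHom.FiniteType.of_finite hf)

theorem isElem_bot_RhoE {R A : Type u} [CommRing R] [CommRing A] [IsDomain A] {g : R →+* A}
    (h1 : g.Finite) (h2 : Function.Injective g) : IsElem R A g ⊥ :=
  ⟨Ideal.isPrime_bot, RingHom.Finite.comp
    (RingHom.Finite.of_surjective _ Ideal.Quotient.mk_surjective) h1,
    (RingHom.injective_iff_ker_eq_bot g).1 h2⟩

theorem trF_field_RhoE {R A Ω : Type u} [CommRing R] [IsDomain R] [CommRing A] [Field Ω]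
    [IsAlgClosed Ω] [CharZero Ω] {g : R →+* A} {i : R →+* Ω} (hi : Function.Injective i)
    (P : ElemOf R A g) (y : A) :
    trF g i P.1 y = ∑ᶠ e ∈ {e : A →+* Ω | e.comp g = i ∧ RingHom.ker e = P.1}, e y := by
  let := g.toAlgebra
  let := i.toAlgebra
  have : FaithfulSMul R Ω := (faithfulSMul_iff_algebraMap_injective _ _).2 hi
  exact Cy.trQ_elem R A Ω P y

theorem trG_phi_RhoE {S B : Type u} [CommRing S] [IsDomain S] [QAlg S] [IsIntegrallyClosed S]
    [CommRing B] [IsDomain B] [IsNoetherianRing B] {f : S →+* B} (hf : f.Finite)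
    (hi : Function.Injective f) {r : ℕ} (hr : r ≠ 0) (b : B) :
    trG (phi_RhoE f r) ⊥ (single 0 b) = single 0 (r • trG f ⊥ b) := by
  classical
  have := lau_isIntegrallyClosed S
  have : QAlg (Cy.Om (Lau S)) := QAlg.of_ringHom (iOm (Lau S))
  have := QAlg.charZero (Cy.Om (Lau S))
  let P : ElemOf (Lau S) (Lau B) (phi_RhoE f r) :=
    ⟨⊥, isElem_bot_RhoE (phi_finite_RhoE hf hr) (phi_injective_RhoE hi hr)⟩
  let i₀ : S →+* Cy.Om (Lau S) := (iOm (Lau S)).comp singleZeroRingHom
  have hi₀ : Function.Injective i₀ := (iOm_injective _).comp (single_right_injective)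
  let U : Cy.Om (Lau S) := iOm (Lau S) (single 1 1)
  have hU : U ≠ 0 := fun h => one_ne_zero (single_eq_zero.1
    ((map_eq_zero_iff _ (iOm_injective (Lau S))).1 h))
  let H₀ : Set (B →+* Cy.Om (Lau S)) := {e | e.comp f = i₀ ∧ RingHom.ker e = ⊥}
  let T : Finset (Cy.Om (Lau S)) := Polynomial.nthRootsFinset r U
  have hT : T.card = r := by
    have : NeZero r := ⟨hr⟩
    obtain ⟨ζ, hζ⟩ := HasEnoughRootsOfUnity.exists_primitiveRoot (Cy.Om (Lau S)) r
    simp only [T]
    rw [Polynomial.nthRootsFinset_def, Multiset.toFinset_card_of_nodup (hζ.nthRoots_nodup hU),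
      hζ.card_nthRoots, if_pos (IsAlgClosed.exists_pow_nat_eq U (Nat.pos_of_ne_zero hr))]
  have hmem : ∀ x, x ∈ T ↔ x ^ r = U := fun x =>
    Polynomial.mem_nthRootsFinset (Nat.pos_of_ne_zero hr) U
  have hbij : Set.BijOn (fun e : Lau B →+* Cy.Om (Lau S) =>
      (e.comp singleZeroRingHom, e (single 1 1))) (homs (phi_RhoE f r) ⊥) (H₀ ×ˢ (T : Set _)) := by
    refine ⟨?_, ?_, ?_⟩
    · rintro e ⟨h1, h2⟩
      refine ⟨⟨RingHom.ext fun s => ?_, ?_⟩, (hmem _).2 ?_⟩
      · have h3 := RingHom.congr_fun h1 (single 0 s)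
        rw [RingHom.comp_apply, phi_single_RhoE, zero_mul] at h3
        exact h3
      · exact (RingHom.injective_iff_ker_eq_bot _).1
          (((RingHom.injective_iff_ker_eq_bot e).2 h2).comp single_right_injective)
      · have h3 := RingHom.congr_fun h1 (single 1 1)
        rw [RingHom.comp_apply, phi_single_RhoE, one_mul, map_one] at h3
        rw [← map_pow, single_pow, one_pow, nsmul_eq_mul, mul_one]
        exact h3
    · intro e _ e' _ h
      exact lau_ext_RhoE (RingHom.congr_fun (congrArg Prod.fst h)) (congrArg Prod.snd h)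
    · rintro ⟨e₀, x⟩ ⟨⟨h1, h2⟩, h3⟩
      have h4 : x ^ r = U := (hmem x).1 h3
      have hx : x ≠ 0 := fun h => hU (by rw [← h4, h, zero_pow hr])
      let e : Lau B →+* Cy.Om (Lau S) := liftNCRingHom e₀
        ((Units.coeHom _).comp (zpowersHom _ (Units.mk0 x hx))) fun _ _ => Commute.all _ _
      have he : ∀ k c, e (single k c) = e₀ c * x ^ k := fun k c => by
        simp only [e]
        rw [liftNCRingHom_single]
        simp
      have h5 : e.comp (phi_RhoE f r) = iOm (Lau S) := by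
        refine lau_ext_RhoE (fun s => ?_) ?_
        · rw [RingHom.comp_apply, phi_single_RhoE, he, zero_mul, zpow_zero, mul_one]
          exact RingHom.congr_fun h1 s
        · rw [RingHom.comp_apply, phi_single_RhoE, he, map_one, map_one, one_mul, one_mul,
            zpow_natCast, h4]
      refine ⟨e, ⟨h5, ?_⟩, Prod.ext (RingHom.ext fun c => ?_) ?_⟩
      · let := (phi_RhoE f r).toAlgebra
        have : Algebra.IsIntegral (Lau S) (Lau B) := ⟨phi_isIntegral_RhoE hf.to_isIntegral hr⟩
        refine Ideal.eq_bot_of_comap_eq_bot (R := Lau S) ?_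
        change (RingHom.ker e).comap (phi_RhoE f r) = ⊥
        rw [RingHom.comap_ker, h5]
        exact (RingHom.injective_iff_ker_eq_bot _).1 (iOm_injective _)
      · change e (single 0 c) = e₀ c
        rw [he, zpow_zero, mul_one]
      · change e (single 1 1) = x
        rw [he, map_one, one_mul, zpow_one]
  have hfin : H₀.Finite := by
    refine Set.Finite.of_prod_left (hbij.finite_iff_finite.1 (homs_finite P)) ?_
    rw [Finset.coe_nonempty, ← Finset.card_pos, hT]
    exact Nat.pos_of_ne_zero hr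
  have h0 : i₀ (trG f ⊥ b) = ∑ᶠ e ∈ H₀, e b := by
    rw [map_trG (isElem_bot_RhoE hf hi).2.1 i₀ hi₀]
    exact trF_field_RhoE hi₀ ⟨⊥, isElem_bot_RhoE hf hi⟩ b
  apply iOm_injective
  change iOm (Lau S) (trG (phi_RhoE f r) P.1 _) = i₀ (r • trG f ⊥ b)
  have h1 : ∑ᶠ e ∈ homs (phi_RhoE f r) P.1, e (single 0 b) =
      ∑ᶠ p ∈ H₀ ×ˢ (T : Set (Cy.Om (Lau S))), p.1 b :=
    finsum_mem_eq_of_bijOn _ hbij fun _ _ => rfl
  rw [iOm_trG_elem, map_nsmul, h0, h1,
    ← hfin.coe_toFinset, ← Finset.coe_product, finsum_mem_coe_finset, finsum_mem_coe_finset,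
    Finset.sum_product, Finset.smul_sum]
  simp only [Finset.sum_const, hT]

/-- The graph of `y = u ^ e` over a quotient of the group ring. -/
def pQ_RhoE {S : Type u} [CommRing S] {Γ : Type} [AddCommGroup Γ] (e : ℕ)
    (Q : Ideal (AddMonoidAlgebra S Γ)) : BB S Γ →+* Lau (AddMonoidAlgebra S Γ ⧸ Q) :=
  liftNCRingHom (singleZeroRingHom.comp ((Ideal.Quotient.mk Q).comp (algebraMap S _)))
    { toFun := fun m => single ((Multiplicative.toAdd m).1 + e * (Multiplicative.toAdd m).2.2)
        (Ideal.Quotient.mk Q (single (Multiplicative.toAdd m).2.1 1))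
      map_one' := by
        change single ((0 : ℤ) + (e : ℤ) * (0 : ℤ)) (Ideal.Quotient.mk Q 1) = _
        rw [map_one, mul_zero, add_zero]
        rfl
      map_mul' := fun a b => by
        rw [single_mul_single, ← map_mul, single_mul_single, one_mul]
        congr 1
        simp only [toAdd_mul, Prod.fst_add, Prod.snd_add]
        ring }
    fun _ _ => Commute.all _ _

theorem pQ_single_RhoE {S : Type u} [CommRing S] {Γ : Type} [AddCommGroup Γ] (e : ℕ)
    (Q : Ideal (AddMonoidAlgebra S Γ)) (m : ℤ × Γ × ℤ) (c : S) :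
    pQ_RhoE e Q (single m c) = single (m.1 + e * m.2.2) (Ideal.Quotient.mk Q (single m.2.1 c)) := by
  rw [pQ_RhoE, liftNCRingHom_single]
  change single 0 (Ideal.Quotient.mk Q (single 0 c)) *
    single (m.1 + e * m.2.2) (Ideal.Quotient.mk Q (single m.2.1 1)) = _
  rw [single_mul_single, ← map_mul, single_mul_single, zero_add, zero_add, mul_one]

theorem pQ_surjective_RhoE {S : Type u} [CommRing S] {Γ : Type} [AddCommGroup Γ] (e : ℕ)
    (Q : Ideal (AddMonoidAlgebra S Γ)) : Function.Surjective (pQ_RhoE e Q) := by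
  intro x
  change x ∈ (pQ_RhoE e Q).range
  induction x using AddMonoidAlgebra.induction_linear with
  | zero => exact zero_mem _
  | add x y hx hy => exact add_mem hx hy
  | single k b =>
    obtain ⟨b, rfl⟩ := Ideal.Quotient.mk_surjective b
    induction b using AddMonoidAlgebra.induction_linear with
    | zero => simp
    | add x y hx hy => rw [map_add, single_add]; exact add_mem hx hy
    | single γ c => exact ⟨single (k, γ, 0) c, by rw [pQ_single_RhoE]; simp⟩

theorem pQ_gM_RhoE {S : Type u} [CommRing S] {Γ : Type} [AddCommGroup Γ] (e : ℕ)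
    (Q : Ideal (AddMonoidAlgebra S Γ)) {a l : ℤ} {r : ℕ} (h : a + e * l = r) :
    (pQ_RhoE e Q).comp (gM S Γ (a, 0, l)) =
      phi_RhoE ((Ideal.Quotient.mk Q).comp (algebraMap S _)) r := by
  refine lau_ext_RhoE (fun s => ?_) ?_
  · rw [RingHom.comp_apply, gM_single, pQ_single_RhoE, phi_single_RhoE, zero_smul, zero_mul]
    exact congrArg₂ single (by simp) rfl
  · rw [RingHom.comp_apply, gM_single, pQ_single_RhoE, phi_single_RhoE, one_smul, h, one_mul]
    rfl

theorem sum_mapDomain_RhoE {α β M : Type*} [AddCommGroup M] (f : α → β) (c : α →₀ ℤ) (g : β → M) :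
    ((c.mapDomain f).sum fun P z => z • g P) = c.sum fun Q z => z • g (f Q) :=
  Finsupp.sum_mapDomain_index (fun _ => zero_smul ℤ _) fun _ _ _ => add_smul _ _ _

end Aux

variable {S : Type u} [CommRing S] [IsDomain S] [QAlg S] [IsIntegrallyClosed S]
  [IsNoetherianRing S] {Γ : Type} [AddCommGroup Γ] [Module.Finite ℤ Γ] {n : ℕ}

theorem rhoRel_diag {W : Γ → S} (hW : W ∈ CorrIn Γ (Set.univ : Set S)) {e : ℕ} (he : e ≤ n) :
    RhoRel n (fun γ : Γ × ℤ => AddMonoidAlgebra.single ((e : ℤ) * γ.2) (W γ.1))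
      ((n + 1 - e) • W) := by
  classical
  obtain ⟨N, hN, c, hc⟩ := exists_finsupp_of_corr (push_taut S Γ) hW
  have := lau_isIntegrallyClosed S
  have : AddGroup.FG Γ := Module.Finite.iff_addGroup_fg.1 inferInstance
  have : IsNoetherianRing (AddMonoidAlgebra S Γ) := Algebra.FiniteType.isNoetherianRing S _
  have hr : n + 1 - e ≠ 0 := by omega
  have hU : ((1 : ℤ) + e * 0 : ℤ) = (1 : ℕ) := by simp
  have hN' : ((n : ℤ) + 1 + e * (-1) : ℤ) = (n + 1 - e : ℕ) := by omega
  have key : ∀ Q : ElemOf S (AddMonoidAlgebra S Γ) (algebraMap S _),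
      (IsElem (Lau S) (BB S Γ) (gU S Γ) (Ideal.comap (pQ_RhoE e Q.1) ⊥) ∧
        IsElem (Lau S) (BB S Γ) (gN S Γ n) (Ideal.comap (pQ_RhoE e Q.1) ⊥)) ∧
      (∀ γ : Γ × ℤ, trG (gU S Γ) (Ideal.comap (pQ_RhoE e Q.1) ⊥)
        (AddMonoidAlgebra.single (0, γ) 1) = AddMonoidAlgebra.single ((e : ℤ) * γ.2)
          (trG (algebraMap S _) Q.1 (AddMonoidAlgebra.single γ.1 1))) ∧
      ∀ γ : Γ, evL 1 (trG (gN S Γ n) (Ideal.comap (pQ_RhoE e Q.1) ⊥)
        (AddMonoidAlgebra.single (0, γ, 0) 1)) =
          (n + 1 - e) • trG (algebraMap S _) Q.1 (AddMonoidAlgebra.single γ 1) := by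
    rintro ⟨Q, hQ, hf, hi⟩
    have := Ideal.Quotient.isDomain Q
    have hi' : Function.Injective ((Ideal.Quotient.mk Q).comp (algebraMap S _)) := by
      rw [RingHom.injective_iff_ker_eq_bot, ← RingHom.comap_ker, Ideal.mk_ker]
      exact hi
    have htr : ∀ y, trG (algebraMap S _) Q y =
        trG ((Ideal.Quotient.mk Q).comp (algebraMap S _)) ⊥ (Ideal.Quotient.mk Q y) := fun y => by
      rw [← trG_comap _ Ideal.Quotient.mk_surjective, ← RingHom.ker_eq_comap_bot, Ideal.mk_ker]
    have hel : ∀ r : ℕ, r ≠ 0 → IsElem (Lau S) _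
        (phi_RhoE ((Ideal.Quotient.mk Q).comp (algebraMap S _)) r) ⊥ := fun r hr =>
      isElem_bot_RhoE (phi_finite_RhoE hf hr) (phi_injective_RhoE hi' hr)
    refine ⟨⟨?_, ?_⟩, fun γ => ?_, fun γ => ?_⟩
    · rw [isElem_comap _ (pQ_surjective_RhoE e Q), pQ_gM_RhoE e Q hU]
      exact hel 1 one_ne_zero
    · rw [isElem_comap _ (pQ_surjective_RhoE e Q), pQ_gM_RhoE e Q hN']
      exact hel _ hr
    · rw [trG_comap _ (pQ_surjective_RhoE e Q), pQ_gM_RhoE e Q hU, pQ_single_RhoE, htr]
      have h1 := trG_elem_mul ⟨⊥, hel 1 one_ne_zero⟩ (AddMonoidAlgebra.single ((e : ℤ) * γ.2) 1)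
        (AddMonoidAlgebra.single 0 (Ideal.Quotient.mk Q (AddMonoidAlgebra.single γ.1 1)))
      rw [trG_phi_RhoE hf hi' one_ne_zero, phi_single_RhoE, AddMonoidAlgebra.single_mul_single,
        AddMonoidAlgebra.single_mul_single, map_one, one_mul, one_mul, one_smul, add_zero,
        add_zero, Nat.cast_one, mul_one] at h1
      rw [zero_add]
      exact h1
    · rw [trG_comap _ (pQ_surjective_RhoE e Q), pQ_gM_RhoE e Q hN', pQ_single_RhoE, htr, mul_zero,
        add_zero, trG_phi_RhoE hf hi' hr, evL_single]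
      simp
  refine ⟨N, hN, c.mapDomain fun Q => Ideal.comap (pQ_RhoE e Q.1) ⊥, fun P hP => ?_,
    fun γ => ?_, fun γ => ?_⟩
  · obtain ⟨Q, -, rfl⟩ := Finset.mem_image.1 (Finsupp.mapDomain_support hP)
    exact (key Q).1
  · rw [sum_mapDomain_RhoE]
    have h1 := congrArg (AddMonoidAlgebra.singleAddHom (R := S) ((e : ℤ) * γ.2)) (hc γ.1)
    rw [map_nsmul, map_finsuppSum] at h1
    refine h1.trans (Finsupp.sum_congr fun Q _ => ?_)
    rw [map_zsmul, (key Q).2.1]
    rfl
  · rw [sum_mapDomain_RhoE, Pi.smul_apply, smul_comm, hc γ, Finsupp.smul_sum]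
    refine Finsupp.sum_congr fun Q _ => ?_
    rw [(key Q).2.2, smul_comm]
    rfl

end

end Pool.Agent.MP_e2821c_ag.Dg
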