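import Pool.Agent.Lib.MP_e2821c_ag.Dg.Root
import Pool.Agent.Lib.MP_e2821c_ag.Dg.Simp

namespace Pool.Agent.MP_e2821c_ag.Dg

open MvPolynomial

universe u v w

noncomputable section

theorem interp_W1 {S T : Type u} [CommRing S] [CommRing T] [Nontrivial T] (g : S →+* T) (θ : T)
    {p p' : Polynomial S} (hm : p.Monic) (hm' : p'.Monic) (hd : p.natDegree = p'.natDegree) :
    (Polynomial.C θ * p.map g + Polynomial.C (1 - θ) * p'.map g).Monic := by
  have h1 : (p.map g).natDegree = p.natDegree := hm.natDegree_map g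
  have h2 : (p'.map g).natDegree = p.natDegree := (hm'.natDegree_map g).trans hd.symm
  refine Polynomial.monic_of_natDegree_le_of_coeff_eq_one p.natDegree ?_ ?_
  · exact (Polynomial.natDegree_add_le _ _).trans (max_le
      ((Polynomial.natDegree_C_mul_le _ _).trans h1.le)
      ((Polynomial.natDegree_C_mul_le _ _).trans h2.le))
  · rw [Polynomial.coeff_add, Polynomial.coeff_C_mul, Polynomial.coeff_C_mul, Polynomial.coeff_map,
      Polynomial.coeff_map, hm.coeff_natDegree, hd, hm'.coeff_natDegree, map_one]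
    ring

theorem norm_W1 (K : Type u) [Field K] [CharZero K] {q e e' : ℕ} {σ σ' : Xq ℤ K (q + 1)}
    (h : Eff e σ) (h' : Eff e' σ')
    (hf : ∀ i : Fin (q + 2), act K i.succAbove σ = act K i.succAbove σ') : Bd ⊤ (σ - σ') := by
  obtain ⟨p, hm, hd, hu, hp⟩ := h.exists_isRootPow
  obtain ⟨p', hm', hd', hu', hp'⟩ := h'.exists_isRootPow
  have hface : ∀ i : Fin (q + 2), p.map (Cy.smR K i.succAbove) = p'.map (Cy.smR K i.succAbove) := by
    intro i
    refine IsRootPow.poly_unique (hm.map _) (hm'.map _) ?_ ?_ (hp.map _) ?_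
    · rw [Polynomial.coeff_map]; exact hu.map _
    · rw [Polynomial.coeff_map]; exact hu'.map _
    · have e1 : (fun m => Cy.smR K i.succAbove (σ m)) = fun m => Cy.smR K i.succAbove (σ' m) :=
        hf i
      rw [e1]
      exact hp'.map _
  have hdd : p.natDegree = p'.natDegree := by
    rw [← hm.natDegree_map (Cy.smR K (0 : Fin (q + 2)).succAbove), hface 0, hm'.natDegree_map]
  have h0 : p.coeff 0 = p'.coeff 0 := by
    obtain ⟨c, -, hc⟩ := MvPolynomial.isUnit_iff_eq_C_of_isReduced.1 hu
    obtain ⟨c', -, hc'⟩ := MvPolynomial.isUnit_iff_eq_C_of_isReduced.1 hu'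
    have e1 := congrArg (fun r => r.coeff 0) (hface 0)
    simp only [Polynomial.coeff_map, hc, hc'] at e1
    have e2 : ∀ a : K, Cy.smR K (0 : Fin (q + 2)).succAbove (C a) = C a := fun a =>
      (Cy.sm K (0 : Fin (q + 2)).succAbove).commutes a
    rw [e2, e2] at e1
    rw [hc, hc', C_injective _ _ e1]
  obtain ⟨g, hg⟩ : ∃ g : ∀ a, Base K a →+* Base (Polynomial K) a,
      ∀ a, g a = MvPolynomial.map Polynomial.C := ⟨_, fun _ => rfl⟩
  obtain ⟨H, hH⟩ : ∃ H : Polynomial (Base (Polynomial K) (q + 1)),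
      H = Polynomial.C (C Polynomial.X) * p.map (g _) +
        Polynomial.C (1 - C Polynomial.X) * p'.map (g _) := ⟨_, rfl⟩
  have Hm : H.Monic := hH ▸ interp_W1 _ _ hm hm' hdd
  have Hu : IsUnit (H.coeff 0) := by
    rw [hH, Polynomial.coeff_add, Polynomial.coeff_C_mul, Polynomial.coeff_C_mul,
      Polynomial.coeff_map, Polynomial.coeff_map, ← h0, ← add_mul, add_sub_cancel, one_mul]
    exact hu.map _
  obtain ⟨Λ, hΛ⟩ := exists_isRootPow Hm Hu
  have hΛm : (Λ : Xq ℤ (Polynomial K) (q + 1)) ∈ Ch ℤ (⊤ : Subring (Polynomial K)) (q + 1) :=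
    eff_mem_Ch (hΛ.eff Hm Hu) fun _ _ => Subring.mem_top _
  have hσ' : σ' ∈ Ch ℤ (⊤ : Subring K) (q + 1) := eff_mem_Ch h' fun _ _ => Subring.mem_top _
  have hW : Λ - pushR Polynomial.C (q + 1) σ' ∈ Ch ℤ (⊤ : Subring (Polynomial K)) (q + 1) :=
    sub_mem hΛm (pushR_mem _ (fun _ _ => Subring.mem_top _) hσ')
  have hcomm : ∀ i : Fin (q + 2), (Cy.smR (Polynomial K) i.succAbove).comp (g _) =
      (g _).comp (Cy.smR K i.succAbove) := by
    intro i
    refine RingHom.ext fun x => ?_
    have := cmap_sm (Polynomial.C : K →+* Polynomial K).toAddMonoidHom i.succAbove x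
    rw [cmap_ringHom, cmap_ringHom] at this
    rw [hg, hg]
    exact this.symm
  have hfW : ∀ i : Fin (q + 2),
      act (Polynomial K) i.succAbove (Λ - pushR Polynomial.C (q + 1) σ') = 0 := by
    intro i
    rw [map_sub, sub_eq_zero]
    have a1 := hΛ.map (Cy.smR (Polynomial K) i.succAbove)
    have a2 := (hp'.map (g _)).map (Cy.smR (Polynomial K) i.succAbove)
    have e1 : H.map (Cy.smR (Polynomial K) i.succAbove) =
        (p'.map (g _)).map (Cy.smR (Polynomial K) i.succAbove) := by
      have e2 : (p.map (g _)).map (Cy.smR (Polynomial K) i.succAbove) =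
          (p'.map (g _)).map (Cy.smR (Polynomial K) i.succAbove) := by
        rw [Polynomial.map_map, Polynomial.map_map, hcomm, ← Polynomial.map_map,
          ← Polynomial.map_map, hface]
      rw [hH, Polynomial.map_add, Polynomial.map_mul, Polynomial.map_mul, e2, ← add_mul,
        ← Polynomial.map_add, ← Polynomial.C_add, add_sub_cancel, Polynomial.C_1,
        Polynomial.map_one, one_mul]
    rw [e1] at a1
    funext m
    have := congrFun (a1.unique a2) m
    rw [act_apply, act_apply, pushR_apply, ← hg]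
    exact this
  have hcyc : Cyc (q + 1) (Λ - pushR Polynomial.C (q + 1) σ') := by
    show dX _ q _ = 0
    rw [dX_apply]
    exact Finset.sum_eq_zero fun i _ => by rw [hfW i, smul_zero]
  have hev : ∀ c : K, (MvPolynomial.map (Polynomial.evalRingHom c)).comp (g (q + 1)) =
      RingHom.id _ := by
    intro c
    refine RingHom.ext fun x => ?_
    have e1 : (Polynomial.evalRingHom c).comp Polynomial.C = RingHom.id K := by
      ext a; simp
    rw [hg, RingHom.comp_apply, MvPolynomial.map_map, e1, MvPolynomial.map_id]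
    rfl
  have hevH : ∀ c : K, H.map (MvPolynomial.map (Polynomial.evalRingHom c)) =
      Polynomial.C (C c) * p + Polynomial.C (1 - C c) * p' := by
    intro c
    rw [hH, Polynomial.map_add, Polynomial.map_mul, Polynomial.map_mul, Polynomial.map_map,
      Polynomial.map_map, hev, Polynomial.map_id, Polynomial.map_id, Polynomial.map_C,
      Polynomial.map_C, map_sub, map_one, MvPolynomial.map_C]
    simp
  have hpush : ∀ c : K, pushR (Polynomial.evalRingHom c) (q + 1)
      (pushR Polynomial.C (q + 1) σ') = σ' := by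
    intro c
    funext m
    rw [pushR_apply, pushR_apply, ← hg]
    exact RingHom.congr_fun (hev c) (σ' m)
  have e1 : pushR (Polynomial.evalRingHom 1) (q + 1) Λ = σ := by
    have a1 := hΛ.map (MvPolynomial.map (Polynomial.evalRingHom (1 : K)))
    rw [hevH, map_one, sub_self, map_one, map_zero, one_mul, zero_mul, add_zero] at a1
    funext m
    rw [pushR_apply]
    exact congrFun (a1.unique hp) m
  have e0 : pushR (Polynomial.evalRingHom 0) (q + 1) Λ = σ' := by
    have a1 := hΛ.map (MvPolynomial.map (Polynomial.evalRingHom (0 : K)))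
    rw [hevH, map_zero, sub_zero, map_one, map_zero, one_mul, zero_mul, zero_add] at a1
    funext m
    rw [pushR_apply]
    exact congrFun (a1.unique hp') m
  have := bd_ev_sub hW hcyc
  rwa [map_sub, map_sub, e1, e0, hpush, hpush, sub_self, sub_zero] at this

theorem weight_one (K : Type u) [Field K] [CharZero K] {q : ℕ} {z : Xq ℤ K (q + 1)}
    (hz : z ∈ Ch ℤ (⊤ : Subring K) (q + 1)) (hc : dX K q z = 0) : Bd ⊤ z := by
  obtain ⟨y, hy, hf⟩ := moore (fun q => Ch ℤ (⊤ : Subring K) q)
    (fun f _ hτ => act_mem_Ch f hτ) hz hc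
  obtain ⟨N, hN, e, e', σ, σ', h, h', -, -, hs⟩ := exists_sub_of_mem_Ch (sub_mem hz (dX_mem_Ch hy))
  have h1 : Bd ⊤ (σ - σ') := norm_W1 K h h' fun i => by
    rw [← sub_eq_zero, ← map_sub, ← hs, map_nsmul, hf i, smul_zero]
  rw [← hs] at h1
  have h2 : Bd ⊤ (dX K (q + 1) y) := ⟨y, hy, rfl⟩
  simpa using (h1.of_nsmul hN).add h2

end

end Pool.Agent.MP_e2821c_ag.Dg
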