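import Pool.Agent.Lib.MP_e2821c_ag.Dg.RhoB
import Pool.Agent.Lib.MP_e2821c_ag.Dg.RhoC
import Pool.Agent.Lib.MP_e2821c_ag.Dg.RhoD
import Pool.Agent.Lib.MP_e2821c_ag.Dg.RhoE
import Pool.Agent.Lib.MP_e2821c_ag.Dg.CancA
import Pool.Agent.Lib.MP_e2821c_ag.Dg.W1

namespace Pool.Agent.MP_e2821c_ag.Dg

open MvPolynomial

universe u v w

noncomputable section

section Aux

variable {F : Type u} [CommRing F]

theorem swL_C_Canc (q : ℕ) (c : Lau F) :
    swL F q (C c) = AddMonoidAlgebra.mapRingHom ℤ (C : F →+* Base F q) c := by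
  rw [swL, MvPolynomial.eval₂Hom_C]

theorem swL_X_Canc (q : ℕ) (k : Fin q) :
    swL F q (X k) = AddMonoidAlgebra.single 0 (X k) := by
  rw [swL, MvPolynomial.eval₂Hom_X']

theorem swL_C_single_Canc (q : ℕ) (m : ℤ) (c : F) :
    swL F q (C (AddMonoidAlgebra.single m c)) = AddMonoidAlgebra.single m (C c) := by
  rw [swL_C_Canc, AddMonoidAlgebra.mapRingHom_single]

theorem swL_map_Canc (q : ℕ) (p : Base F q) :
    swL F q (MvPolynomial.map (algebraMap F (Lau F)) p) = AddMonoidAlgebra.single 0 p := by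
  induction p using MvPolynomial.induction_on with
  | C c =>
    rw [map_C]
    exact swL_C_single_Canc q 0 c
  | add p p' hp hp' => rw [map_add, map_add, hp, hp', AddMonoidAlgebra.single_add]
  | mul_X p k hp =>
    rw [map_mul, map_mul, hp, map_X, swL_X_Canc, AddMonoidAlgebra.single_mul_single, add_zero]

theorem swL_sm_Canc {a b : ℕ} (f : Fin (a + 1) → Fin (b + 1)) (x : Base (Lau F) b) :
    swL F a (Cy.sm (Lau F) f x) =
      AddMonoidAlgebra.mapRingHom ℤ (Cy.smR F f) (swL F b x) := by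
  induction x using MvPolynomial.induction_on with
  | C c =>
    have h1 : Cy.sm (Lau F) f (C c) = C c := (Cy.sm (Lau F) f).commutes c
    rw [h1]
    clear h1
    induction c using AddMonoidAlgebra.induction_linear with
    | zero => simp only [map_zero]
    | add c c' hc hc' => simp only [map_add, hc, hc']
    | single m c =>
      have h2 : Cy.smR F f (C c) = C c := (Cy.sm F f).commutes c
      rw [swL_C_single_Canc, swL_C_single_Canc, AddMonoidAlgebra.mapRingHom_single, h2]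
  | add p p' hp hp' => simp only [map_add, hp, hp']
  | mul_X p k hp =>
    have h1 : Cy.sm (Lau F) f (X k) =
        MvPolynomial.map (algebraMap F (Lau F)) (Cy.sm F f (X k)) := by
      rw [Cy.map_sm, map_X]
    rw [map_mul, map_mul, map_mul, map_mul, hp, h1, swL_map_Canc, swL_X_Canc,
      AddMonoidAlgebra.mapRingHom_single, Cy.smR_apply]

theorem bary_ne_zero_Canc [Nontrivial F] (q : ℕ) (i : Fin (q + 1)) : bary F q i ≠ 0 := by
  refine Fin.cases ?_ (fun k => ?_) i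
  · intro h
    have h1 := congrArg (constantCoeff : Base F q →+* F) h
    simp [bary] at h1
  · simp [bary]

theorem ker_face_Canc (q : ℕ) (i : Fin (q + 2)) :
    RingHom.ker (Cy.smR F i.succAbove) = Ideal.span {bary F (q + 1) i} := by
  ext r
  rw [RingHom.mem_ker, Cy.smR_apply, ← Cy.face_eq_sm, Ideal.mem_span_singleton]
  refine ⟨Cy.dvd_of_face_Face F q i r, ?_⟩
  rintro ⟨w, rfl⟩
  rw [map_mul, face_bary, Fin.insertNth_apply_same, zero_mul]

theorem face_surj_Canc (q : ℕ) (i : Fin (q + 2)) :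
    Function.Surjective (Cy.smR F i.succAbove) := fun y => by
  obtain ⟨x, hx⟩ := face_surjective F q i y
  exact ⟨x, by rw [Cy.smR_apply, ← Cy.face_eq_sm, hx]⟩

theorem rhoRel_sum_Canc {S : Type u} [CommRing S] [IsDomain S] [QAlg S] [IsIntegrallyClosed S]
    [IsNoetherianRing S] {Γ : Type} [AddCommGroup Γ] [Module.Finite ℤ Γ] {n : ℕ} {ι : Type*}
    (s : Finset ι) (τ : ι → Γ × ℤ → Lau S) (σ : ι → Γ → S) (h : ∀ i ∈ s, RhoRel n (τ i) (σ i)) :
    RhoRel n (∑ i ∈ s, τ i) (∑ i ∈ s, σ i) := by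
  classical
  induction s using Finset.induction_on with
  | empty => simpa only [Finset.sum_empty] using RhoRel.zero
  | insert i s hi ih =>
    rw [Finset.sum_insert hi, Finset.sum_insert hi]
    exact (h i (Finset.mem_insert_self _ _)).add
      (ih fun j hj => h j (Finset.mem_insert_of_mem hj))

end Aux

variable {K : Type u} [Field K] [CharZero K]

theorem RhoX.dX {Γ : Type} [AddCommGroup Γ] [Module.Finite ℤ Γ] {n q : ℕ}
    {τ : Xq (Γ × ℤ) (Lau K) (q + 1)} {σ : Xq Γ K (q + 1)} (h : RhoX n (q + 1) τ σ) :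
    RhoX n q (dX (Lau K) q τ) (dX K q σ) := by
  have := base_isIntegrallyClosed K (q + 1)
  have := base_isIntegrallyClosed K q
  have h1 := rhoRel_sum_Canc (n := n) (Finset.univ : Finset (Fin (q + 2))) _ _ fun i _ =>
    (RhoRel.spec (Cy.smR K i.succAbove) (face_surj_Canc q i) _ (bary_ne_zero_Canc (q + 1) i)
      (ker_face_Canc q i) h).zsmul ((-1 : ℤ) ^ (i : ℕ))
  have h2 : (fun γ => swL K q (Dg.dX (Lau K) q τ γ)) =
      ∑ i : Fin (q + 2), ((-1 : ℤ) ^ (i : ℕ)) • fun γ =>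
        AddMonoidAlgebra.mapRingHom ℤ (Cy.smR K i.succAbove) (swL K (q + 1) (τ γ)) := by
    funext γ
    simp only [dX_apply, Finset.sum_apply, Pi.smul_apply, map_sum, map_zsmul, act_apply,
      swL_sm_Canc]
  have h3 : Dg.dX K q σ =
      ∑ i : Fin (q + 2), ((-1 : ℤ) ^ (i : ℕ)) • fun γ => Cy.smR K i.succAbove (σ γ) := by
    funext γ
    simp only [dX_apply, Finset.sum_apply, Pi.smul_apply, act_apply, Cy.smR_apply]
  rw [RhoX, h2, h3]
  exact h1

omit [CharZero K] in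
theorem swL_tensU_Canc (a : Kˣ) {q : ℕ} (W : Xq G2 (Lau K) q) (γ : G2 × ℤ) :
    swL K q (tensU a W γ) = algebraMap (Base K q) (Lau (Base K q))
      ((Units.map (C : K →+* Base K q).toMonoidHom a ^ γ.1.2 : (Base K q)ˣ) : Base K q) *
        swL K q (W (γ.1.1, γ.2)) := by
  rw [tensU, map_mul, ← map_zpow]
  congr 1
  exact swL_C_single_Canc q 0 _

omit [CharZero K] in
theorem swL_diagU_Canc (e : ℕ) {q : ℕ} (V : Xq G2 K q) (γ : G2 × ℤ) :
    swL K q (diagU e V γ) = AddMonoidAlgebra.single ((e : ℤ) * γ.2) (V γ.1) := by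
  rw [diagU, map_mul, swL_C_single_Canc, swL_map_Canc, AddMonoidAlgebra.single_mul_single,
    add_zero, map_one, one_mul]

/-- The character given by the powers of a unit in the second coordinate. -/
def powChar_Canc (a : Kˣ) : AddChar G2 K where
  toFun γ := ((a ^ γ.2 : Kˣ) : K)
  map_zero_eq_one' := by simp
  map_add_eq_mul' x y := by rw [Prod.snd_add, zpow_add, Units.val_mul]

theorem exists_rhoX_Canc {Γ : Type} [AddCommGroup Γ] [Module.Finite ℤ Γ] {q : ℕ}
    {τ : Xq (Γ × ℤ) (Lau K) q} (h : τ ∈ Ch (Γ × ℤ) (⊤ : Subring (Lau K)) q) :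
    ∃ n₀ : ℕ, ∀ n, n₀ ≤ n → ∃ σ, RhoX n q τ σ := by
  have := base_isIntegrallyClosed K q
  exact exists_rhoRel (map_mem_corrIn (swL K q) (fun _ _ => Set.mem_univ _) (mem_Ch_top.1 h))

theorem canc {q : ℕ} {W : Xq G2 (Lau K) (q + 1)} (hW : W ∈ CR ⊤ (q + 1))
    (hc : dX (Lau K) q W = 0) (h1 : pushR (evL (1 : Kˣ)).toRingHom (q + 1) W = 0) (a : Kˣ) :
    Bd ⊤ (pushR (evL a).toRingHom (q + 1) W) := by
  have := base_isIntegrallyClosed K (q + 2)
  have := base_isIntegrallyClosed K (q + 1)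
  have := base_isIntegrallyClosed K q
  obtain ⟨Y, hY, hdY⟩ := cancA hW hc h1 a
  have hV : pushR (evL a).toRingHom (q + 1) W ∈ Ch G2 (⊤ : Subring K) (q + 1) :=
    pushR_mem _ (fun _ _ => Subring.mem_top _) hW.1
  generalize pushR (evL a).toRingHom (q + 1) W = V at hdY hV ⊢
  obtain ⟨n₀, hn₀⟩ := exists_rhoX_Canc hY
  obtain ⟨n₁, hn₁⟩ := exists_rhoX_Canc (Γ := ℤ) hW.1
  obtain ⟨σ, hσ⟩ := hn₀ (n₀ + n₁ + 1) (by omega)
  obtain ⟨ρ, hρ⟩ := hn₁ (n₀ + n₁ + 1) (by omega)
  have hρ0 : dX K q ρ = 0 := by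
    have h2 := hρ.dX
    rw [hc, RhoX] at h2
    refine h2.unique ?_
    simp only [Pi.zero_apply, map_zero]
    exact RhoRel.zero
  have hρ1 : Bd ⊤ ρ := weight_one K (mem_Ch_top.2 (RhoRel.mem hρ)) hρ0
  have hb : ∀ b : Kˣ, Bd (⊤ : Subring K) (fun γ : G2 =>
      ((Units.map (C : K →+* Base K (q + 1)).toMonoidHom b ^ γ.2 : (Base K (q + 1))ˣ) :
        Base K (q + 1)) * ρ γ.1 : Xq G2 K (q + 1)) := fun b => by
    have h2 := (hρ1.comp (AddMonoidHom.fst ℤ ℤ)).mul_char (powChar_Canc b)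
      fun _ => Subring.mem_top _
    convert h2 using 3 with γ
    · rw [← map_zpow]
      rfl
    · rfl
  have h3 := ((RhoRel.tens hρ (Units.map (C : K →+* Base K (q + 1)).toMonoidHom a)).sub
    (RhoRel.tens hρ (Units.map (C : K →+* Base K (q + 1)).toMonoidHom 1))).sub
    ((rhoRel_diag (n := n₀ + n₁ + 1) (mem_Ch_top.1 hV) (e := 1) (by omega)).sub
      (rhoRel_diag (n := n₀ + n₁ + 1) (mem_Ch_top.1 hV) (e := 0) (by omega)))
  have h4 := hσ.dX
  rw [hdY, RhoX] at h4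
  have h5 := h4.unique (by
    convert h3 using 1
    funext γ
    simp only [Pi.sub_apply, map_sub, swL_tensU_Canc, swL_diagU_Canc])
  have h6 : Bd (⊤ : Subring K) (dX K (q + 1) σ) := ⟨σ, mem_Ch_top.2 (RhoRel.mem hσ), rfl⟩
  rw [h5] at h6
  convert h6.sub ((hb a).sub (hb 1)) using 1
  rw [Nat.add_sub_cancel, Nat.sub_zero, succ_nsmul V (n₀ + n₁ + 1)]
  abel

end

end Pool.Agent.MP_e2821c_ag.Dg
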