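import Pool.Agent.Lib.MP_e2821c_ag.Dg.CoreY

namespace Pool.Agent.MP_e2821c_ag.Dg

open MvPolynomial

universe u v w

noncomputable section

variable {F L : Type u} [Field F] [Field L] [Algebra F L] {e : ℕ}

theorem chi_zero (b : Fin e → Lˣ) : chi b 0 = 1 := by
  simp [chi]

theorem chi_add (b : Fin e → Lˣ) (m m' : Fin e → ℤ) : chi b (m + m') = chi b m * chi b m' := by
  simp [chi, zpow_add, Finset.prod_mul_distrib]

theorem chi_neg_Chart (b : Fin e → Lˣ) (m : Fin e → ℤ) : chi b (-m) = (chi b m)⁻¹ := by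
  rw [eq_inv_iff_mul_eq_one, ← chi_add, neg_add_cancel, chi_zero]

theorem chi_zsmul_Chart (b : Fin e → Lˣ) (k : ℤ) (m : Fin e → ℤ) :
    chi b (k • m) = chi b m ^ k := by
  simp only [chi, Pi.smul_apply, smul_eq_mul, ← Finset.prod_zpow]
  refine Finset.prod_congr rfl fun l _ => ?_
  rw [mul_comm, zpow_mul]

theorem chi_sum_Chart {ι : Type} (b : Fin e → Lˣ) (s : Finset ι) (f : ι → Fin e → ℤ) :
    chi b (∑ i ∈ s, f i) = ∏ i ∈ s, chi b (f i) := by
  classical
  induction s using Finset.induction_on with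
  | empty => simp [chi_zero]
  | insert a s ha ih => rw [Finset.sum_insert ha, Finset.prod_insert ha, chi_add, ih]

theorem chi_single_Chart (b : Fin e → Lˣ) (l : Fin e) : chi b (Pi.single l 1) = b l := by
  unfold chi
  rw [Finset.prod_eq_single l]
  · simp
  · intro l' _ h
    simp [h]
  · simp

theorem aeval_monomial_Chart (b : Fin e → Lˣ) (d : Fin e →₀ ℕ) (c : F) :
    aeval (fun l => (b l : L)) (monomial d c) = c • (chi b (fun l => (d l : ℤ)) : L) := by
  rw [aeval_monomial, Finsupp.prod_fintype _ _ (by simp), Algebra.smul_def]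
  simp [chi]

theorem aeval_eq_sum_Chart (b : Fin e → Lˣ) (p : MvPolynomial (Fin e) F) :
    aeval (fun l => (b l : L)) p =
      ∑ d ∈ p.support, coeff d p • (chi b (fun l => (d l : ℤ)) : L) := by
  conv_lhs => rw [p.as_sum]
  rw [map_sum]
  exact Finset.sum_congr rfl fun d _ => aeval_monomial_Chart b d _

/-- Natural exponent vector attached to an integer vector. -/
def toF_Chart (m : Fin e → ℤ) : Fin e →₀ ℕ :=
  Finsupp.equivFunOnFinite.symm fun l => (m l).toNat

theorem toF_cast_Chart {m : Fin e → ℤ} (hm : ∀ l, 0 ≤ m l) :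
    (fun l => ((toF_Chart m l : ℕ) : ℤ)) = m := by
  funext l
  simp [toF_Chart, hm l]

theorem toF_inj_Chart {m m' : Fin e → ℤ} (hm : ∀ l, 0 ≤ m l) (hm' : ∀ l, 0 ≤ m' l)
    (h : toF_Chart m = toF_Chart m') : m = m' := by
  rw [← toF_cast_Chart hm, ← toF_cast_Chart hm', h]

theorem exists_shift_Chart (s : Finset (Fin e → ℤ)) :
    ∃ N : ℕ, ∀ m ∈ s, ∀ l, 0 ≤ m l + N := by
  classical
  refine ⟨∑ m ∈ s, ∑ l, (m l).natAbs, fun m hm l => ?_⟩
  have h1 : (m l).natAbs ≤ ∑ l, (m l).natAbs :=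
    Finset.single_le_sum (f := fun l => (m l).natAbs) (fun _ _ => Nat.zero_le _)
      (Finset.mem_univ l)
  have h2 : ∑ l, (m l).natAbs ≤ ∑ m ∈ s, ∑ l, (m l).natAbs :=
    Finset.single_le_sum (f := fun m : Fin e → ℤ => ∑ l, (m l).natAbs)
      (fun _ _ => Nat.zero_le _) hm
  omega

theorem linInd_chi_Chart {b : Fin e → Lˣ} (hb : AlgebraicIndependent F fun l => (b l : L)) :
    LinearIndependent F fun m : Fin e → ℤ => (chi b m : L) := by
  classical
  rw [linearIndependent_iff']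
  intro s g hg m0 hm0
  obtain ⟨N, hN⟩ := exists_shift_Chart s
  set P : MvPolynomial (Fin e) F :=
    ∑ m ∈ s, monomial (toF_Chart (m + fun _ => (N : ℤ))) (g m) with hP
  have h0 : aeval (fun l => (b l : L)) P = 0 := by
    rw [hP, map_sum]
    have : ∀ m ∈ s, aeval (fun l => (b l : L))
        (monomial (toF_Chart (m + fun _ => (N : ℤ))) (g m)) =
        (g m • (chi b m : L)) * (chi b (fun _ => (N : ℤ)) : L) := by
      intro m hm
      rw [aeval_monomial_Chart, toF_cast_Chart (fun l => by simpa using hN m hm l), chi_add,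
        Units.val_mul, smul_mul_assoc]
    rw [Finset.sum_congr rfl this, ← Finset.sum_mul, hg, zero_mul]
  have hP0 : P = 0 := algebraicIndependent_iff.1 hb P h0
  have h1 : coeff (toF_Chart (m0 + fun _ => (N : ℤ))) P = g m0 := by
    rw [hP, coeff_sum, Finset.sum_eq_single m0]
    · simp
    · intro m hm hne
      rw [coeff_monomial, if_neg]
      intro h
      apply hne
      have := toF_inj_Chart (fun l => by simpa using hN m hm l)
        (fun l => by simpa using hN m0 hm0 l) h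
      exact add_right_cancel this
    · intro h
      exact absurd hm0 h
  rw [← h1, hP0, coeff_zero]

theorem algInd_of_linInd_Chart {b : Fin e → Lˣ}
    (hb : LinearIndependent F fun m : Fin e → ℤ => (chi b m : L)) :
    AlgebraicIndependent F fun l => (b l : L) := by
  rw [algebraicIndependent_iff]
  intro p hp
  rw [aeval_eq_sum_Chart] at hp
  have hinj : Function.Injective fun (d : Fin e →₀ ℕ) (l : Fin e) => (d l : ℤ) := by
    intro d d' h
    ext l
    have h3 : (d l : ℤ) = d' l := congrFun h l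
    exact_mod_cast h3
  have h2 := linearIndependent_iff'.1 (hb.comp _ hinj) p.support (fun d => coeff d p) hp
  ext d
  by_cases hd : d ∈ p.support
  · exact h2 d hd
  · simpa using hd

theorem chi_mem_adjoin_Chart (b : Fin e → Lˣ) (m : Fin e → ℤ) :
    (chi b m : L) ∈ IntermediateField.adjoin F (Set.range fun l => (b l : L)) := by
  simp only [chi, Units.coe_prod, Units.val_zpow_eq_zpow_val]
  exact prod_mem fun l _ => zpow_mem
    (IntermediateField.subset_adjoin F (Set.range fun l => (b l : L)) ⟨l, rfl⟩) _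

theorem aeval_mem_Oc_Chart (X : Fin e → L) (p : MvPolynomial (Fin e) F) :
    aeval X p ∈ Oc F X := ⟨p, 1, by simp, by simp⟩

theorem chi_mem_Oc_Chart (b : Fin e → Lˣ) {m : Fin e → ℤ} (hm : ∀ i, 0 ≤ m i) :
    (chi b m : L) ∈ Oc F (fun i => (b i : L)) := by
  have h := aeval_mem_Oc_Chart (F := F) (fun i => (b i : L)) (monomial (toF_Chart m) 1)
  rwa [aeval_monomial_Chart, toF_cast_Chart hm, one_smul] at h

theorem chi_repr (b : Fin e → Lˣ) (x : Module.Basis (Fin e) ℤ (Fin e → ℤ)) (m : Fin e → ℤ) :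
    chi b m = chi (fun i => chi b (x i)) (x.repr m) := by
  conv_lhs => rw [← x.sum_repr m]
  rw [chi_sum_Chart]
  exact Finset.prod_congr rfl fun i _ => chi_zsmul_Chart b _ _

theorem exists_poly_Chart (b : Fin e → Lˣ) (x : Module.Basis (Fin e) ℤ (Fin e → ℤ))
    {ι : Type} (T : Finset ι) (f : ι → Fin e → ℤ) (g : ι → F) {i0 : ι} (hi0 : i0 ∈ T)
    (hinj : ∀ i ∈ T, f i = f i0 → i = i0) (hT : ∀ i ∈ T, ∀ l, 0 ≤ x.repr (f i - f i0) l) :
    ∃ P : MvPolynomial (Fin e) F, constantCoeff P = g i0 ∧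
      aeval (fun i => (chi b (x i) : L)) P =
        (∑ i ∈ T, g i • (chi b (f i) : L)) * (chi b (-f i0) : L) := by
  classical
  refine ⟨∑ i ∈ T, monomial (toF_Chart (x.repr (f i - f i0))) (g i), ?_, ?_⟩
  · rw [map_sum, Finset.sum_eq_single i0]
    · rw [constantCoeff_monomial, if_pos]
      ext l
      simp [toF_Chart]
    · intro i hi hne
      rw [constantCoeff_monomial, if_neg]
      intro h
      apply hne
      apply hinj i hi
      have h1 := toF_cast_Chart (hT i hi)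
      rw [h] at h1
      have h2 : x.repr (f i - f i0) = 0 := by
        ext l
        simpa using (congrFun h1 l).symm
      exact sub_eq_zero.1 (x.repr.map_eq_zero_iff.1 h2)
    · intro h
      exact absurd hi0 h
  · rw [map_sum, Finset.sum_mul]
    refine Finset.sum_congr rfl fun i hi => ?_
    rw [aeval_monomial_Chart (fun i => chi b (x i)), toF_cast_Chart (hT i hi), ← chi_repr,
      sub_eq_add_neg, chi_add, Units.val_mul, smul_mul_assoc]

theorem exists_min_Chart (x : Module.Basis (Fin e) ℤ (Fin e → ℤ)) {ι : Type} (T : Finset ι)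
    (hne : T.Nonempty) (f : ι → Fin e → ℤ)
    (h : ∀ i ∈ T, ∀ j ∈ T, (∀ l, 0 ≤ x.repr (f i - f j) l) ∨ ∀ l, x.repr (f i - f j) l ≤ 0) :
    ∃ i0 ∈ T, ∀ i ∈ T, ∀ l, 0 ≤ x.repr (f i - f i0) l := by
  obtain ⟨i0, hi0, hmin⟩ := T.exists_min_image (fun i => ∑ l, x.repr (f i) l) hne
  refine ⟨i0, hi0, fun i hi => ?_⟩
  rcases h i hi i0 hi0 with h1 | h1
  · exact h1
  · have h2 : ∑ l, x.repr (f i - f i0) l = 0 := by
      apply le_antisymm (Finset.sum_nonpos fun l _ => h1 l)
      have := hmin i hi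
      simp only [map_sub, Finsupp.sub_apply, Finset.sum_sub_distrib]
      linarith
    intro l
    exact ((Finset.sum_eq_zero_iff_of_nonpos fun l _ => h1 l).1 h2 l (Finset.mem_univ l)).ge

theorem exists_unit_form_Chart (b : Fin e → Lˣ) (x : Module.Basis (Fin e) ℤ (Fin e → ℤ))
    {p : MvPolynomial (Fin e) F} (hp : p ≠ 0)
    (h : ∀ d ∈ p.support, ∀ d' ∈ p.support,
      (∀ l, 0 ≤ x.repr ((fun l => (d l : ℤ)) - fun l => (d' l : ℤ)) l) ∨
        ∀ l, x.repr ((fun l => (d l : ℤ)) - fun l => (d' l : ℤ)) l ≤ 0) :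
    ∃ d ∈ p.support, ∃ P : MvPolynomial (Fin e) F, constantCoeff P ≠ 0 ∧
      aeval (fun i => (chi b (x i) : L)) P =
        aeval (fun l => (b l : L)) p * (chi b (-fun l => (d l : ℤ)) : L) := by
  obtain ⟨d, hd, hmin⟩ := exists_min_Chart x p.support (support_nonempty.2 hp)
    (fun d l => (d l : ℤ)) h
  obtain ⟨P, hP, hP'⟩ := exists_poly_Chart b x p.support (fun d l => (d l : ℤ))
    (fun d => coeff d p) hd (fun d' _ h' => by
      ext l
      exact_mod_cast congrFun h' l) hmin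
  refine ⟨d, hd, P, ?_, ?_⟩
  · rw [hP]
    exact mem_support_iff.1 hd
  · rw [hP', aeval_eq_sum_Chart]

theorem algebraicIndependent_chi {b : Fin e → Lˣ} (hb : AlgebraicIndependent F fun l => (b l : L))
    (x : Module.Basis (Fin e) ℤ (Fin e → ℤ)) :
    AlgebraicIndependent F fun i => (chi b (x i) : L) := by
  apply algInd_of_linInd_Chart (b := fun i => chi b (x i))
  have h := (linInd_chi_Chart hb).comp x.equivFun.symm x.equivFun.symm.injective
  have h2 : (fun m : Fin e → ℤ => (chi (fun i => chi b (x i)) m : L)) =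
      (fun m : Fin e → ℤ => (chi b m : L)) ∘ x.equivFun.symm := by
    funext m
    simp only [Function.comp]
    rw [chi_repr b x (x.equivFun.symm m)]
    have : ⇑(x.repr (x.equivFun.symm m)) = m := by
      rw [← x.equivFun_apply, LinearEquiv.apply_symm_apply]
    rw [this]
  rw [h2]
  exact h

theorem adjoin_chi (b : Fin e → Lˣ) (x : Module.Basis (Fin e) ℤ (Fin e → ℤ)) :
    IntermediateField.adjoin F (Set.range fun i => (chi b (x i) : L)) =
      IntermediateField.adjoin F (Set.range fun l => (b l : L)) := by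
  apply le_antisymm
  · rw [IntermediateField.adjoin_le_iff]
    rintro _ ⟨i, rfl⟩
    exact chi_mem_adjoin_Chart b _
  · rw [IntermediateField.adjoin_le_iff]
    rintro _ ⟨l, rfl⟩
    have h := chi_mem_adjoin_Chart (F := F) (fun i => chi b (x i)) (x.repr (Pi.single l 1))
    rw [← chi_repr, chi_single_Chart] at h
    exact h

theorem exists_exponents {b : Fin e → Lˣ} (hb : AlgebraicIndependent F fun l => (b l : L))
    (s : Finset L) (hs : ∀ κ ∈ s, κ ∈ IntermediateField.adjoin F (Set.range fun l => (b l : L))) :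
    ∃ E : Finset (Fin e → ℤ), ∀ x : Module.Basis (Fin e) ℤ (Fin e → ℤ), Adapted E x →
      ∃ μ : L → Fin e → ℤ,
        (∀ κ ∈ s, κ ≠ 0 → κ * (chi b (-μ κ) : L) ∈ Oc F (fun i => (chi b (x i) : L)) ∧
          κ⁻¹ * (chi b (μ κ) : L) ∈ Oc F (fun i => (chi b (x i) : L))) ∧
        ∀ κ ∈ s, ∀ κ' ∈ s, κ ≠ 0 → κ' ≠ 0 →
          (∀ i, 0 ≤ x.repr (μ κ - μ κ') i) ∨ ∀ i, x.repr (μ κ - μ κ') i ≤ 0 := by
  classical
  have h1 : ∀ κ : L, ∃ p q : MvPolynomial (Fin e) F, κ ∈ s →
      κ = aeval (fun l => (b l : L)) p / aeval (fun l => (b l : L)) q := by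
    intro κ
    by_cases hκ : κ ∈ s
    · obtain ⟨p, q, h⟩ := (IntermediateField.mem_adjoin_range_iff F _ κ).1 (hs κ hκ)
      exact ⟨p, q, fun _ => h⟩
    · exact ⟨0, 0, fun h => absurd h hκ⟩
  choose p q hpq using h1
  set D : Finset (Fin e → ℤ) := s.biUnion fun κ =>
    ((p κ).support ∪ (q κ).support).image fun d l => (d l : ℤ) with hD
  have hDp : ∀ κ ∈ s, ∀ d ∈ (p κ).support, (fun l => (d l : ℤ)) ∈ D := fun κ hκ d hd =>
    Finset.mem_biUnion.2 ⟨κ, hκ, Finset.mem_image.2 ⟨d, Finset.mem_union_left _ hd, rfl⟩⟩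
  have hDq : ∀ κ ∈ s, ∀ d ∈ (q κ).support, (fun l => (d l : ℤ)) ∈ D := fun κ hκ d hd =>
    Finset.mem_biUnion.2 ⟨κ, hκ, Finset.mem_image.2 ⟨d, Finset.mem_union_right _ hd, rfl⟩⟩
  refine ⟨((D ×ˢ D) ×ˢ (D ×ˢ D)).image fun z => (z.1.1 - z.1.2) - (z.2.1 - z.2.2),
    fun x hx => ?_⟩
  have h4 : ∀ a ∈ D, ∀ a' ∈ D, ∀ c ∈ D, ∀ c' ∈ D,
      (∀ l, 0 ≤ x.repr ((a - a') - (c - c')) l) ∨ ∀ l, x.repr ((a - a') - (c - c')) l ≤ 0 :=
    fun a ha a' ha' c hc c' hc' => hx _ (Finset.mem_image.2 ⟨((a, a'), (c, c')),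
      by simp [ha, ha', hc, hc'], rfl⟩)
  have h2 : ∀ a ∈ D, ∀ a' ∈ D,
      (∀ l, 0 ≤ x.repr (a - a') l) ∨ ∀ l, x.repr (a - a') l ≤ 0 := fun a ha a' ha' => by
    simpa using h4 a ha a' ha' a ha a ha
  have h3 : ∀ κ : L, ∃ μ : Fin e → ℤ, κ ∈ s → κ ≠ 0 →
      (κ * (chi b (-μ) : L) ∈ Oc F (fun i => (chi b (x i) : L)) ∧
        κ⁻¹ * (chi b μ : L) ∈ Oc F (fun i => (chi b (x i) : L))) ∧
      ∃ a ∈ D, ∃ a' ∈ D, μ = a - a' := by
    intro κ
    by_cases hκ : κ ∈ s ∧ κ ≠ 0
    · obtain ⟨hκ, h0⟩ := hκ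
      have hk := hpq κ hκ
      have hA : aeval (fun l => (b l : L)) (p κ) ≠ 0 := fun h => h0 (by rw [hk, h, zero_div])
      have hB : aeval (fun l => (b l : L)) (q κ) ≠ 0 := fun h => h0 (by rw [hk, h, div_zero])
      obtain ⟨d, hd, P, hP, hP'⟩ := exists_unit_form_Chart b x (p := p κ)
        (fun h => hA (by rw [h, map_zero]))
        (fun d hd d' hd' => h2 _ (hDp κ hκ d hd) _ (hDp κ hκ d' hd'))
      obtain ⟨d', hd', Q, hQ, hQ'⟩ := exists_unit_form_Chart b x (p := q κ)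
        (fun h => hB (by rw [h, map_zero]))
        (fun d hd d' hd' => h2 _ (hDq κ hκ d hd) _ (hDq κ hκ d' hd'))
      refine ⟨(fun l => (d l : ℤ)) - fun l => (d' l : ℤ), fun _ _ =>
        ⟨⟨⟨P, Q, hQ, ?_⟩, ⟨Q, P, hP, ?_⟩⟩, _, hDp κ hκ d hd, _, hDq κ hκ d' hd', rfl⟩⟩
      · rw [hP', hQ', neg_sub, sub_eq_add_neg, chi_add, chi_neg_Chart, chi_neg_Chart]
        generalize aeval (fun l => (b l : L)) (p κ) = A at *
        generalize aeval (fun l => (b l : L)) (q κ) = B at *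
        rw [hk]
        simp only [Units.val_mul, Units.val_inv_eq_inv_val]
        field_simp
      · rw [hP', hQ', sub_eq_add_neg, chi_add, chi_neg_Chart, chi_neg_Chart]
        generalize aeval (fun l => (b l : L)) (p κ) = A at *
        generalize aeval (fun l => (b l : L)) (q κ) = B at *
        rw [hk]
        simp only [Units.val_mul, Units.val_inv_eq_inv_val]
        field_simp
    · exact ⟨0, fun h h' => absurd ⟨h, h'⟩ hκ⟩
  choose μ hμ using h3
  refine ⟨μ, fun κ hκ h0 => (hμ κ hκ h0).1, fun κ hκ κ' hκ' h0 h0' => ?_⟩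
  obtain ⟨a, ha, a', ha', h⟩ := (hμ κ hκ h0).2
  obtain ⟨c, hc, c', hc', h'⟩ := (hμ κ' hκ' h0').2
  rw [h, h']
  exact h4 a ha a' ha' c hc c' hc'

theorem chi_mem_Oc (b : Fin e → Lˣ) (x : Module.Basis (Fin e) ℤ (Fin e → ℤ)) {m : Fin e → ℤ}
    (hm : ∀ i, 0 ≤ x.repr m i) : (chi b m : L) ∈ Oc F (fun i => (chi b (x i) : L)) := by
  rw [chi_repr b x m]
  exact chi_mem_Oc_Chart (fun i => chi b (x i)) hm

theorem exists_pow_mul_chi_mem_Oc (b : Fin e → Lˣ) (x : Module.Basis (Fin e) ℤ (Fin e → ℤ))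
    (m : Fin e → ℤ) : ∃ k : ℕ, (∏ i, (chi b (x i) : L)) ^ k * (chi b m : L) ∈
      Oc F (fun i => (chi b (x i) : L)) := by
  obtain ⟨N, hN⟩ := exists_shift_Chart {(x.repr m : Fin e → ℤ)}
  refine ⟨N, ?_⟩
  have h := chi_mem_Oc_Chart (F := F) (fun i => chi b (x i))
    (m := (x.repr m : Fin e → ℤ) + fun _ => (N : ℤ))
    (fun l => by simpa using hN _ (Finset.mem_singleton_self _) l)
  rw [chi_add, ← chi_repr, mul_comm, Units.val_mul] at h
  have h2 : (chi (fun i => chi b (x i)) (fun _ => (N : ℤ)) : L) =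
      (∏ i, (chi b (x i) : L)) ^ N := by
    have h3 : ∀ b' : Fin e → Lˣ, (chi b' (fun _ => (N : ℤ)) : L) = (∏ i, (b' i : L)) ^ N := by
      intro b'
      simp only [chi, Units.coe_prod, zpow_natCast, Units.val_pow_eq_pow_val, Finset.prod_pow]
    exact h3 _
  rwa [h2] at h

theorem val_aeval_Chart {V : ValuationSubring L} (hF : ∀ c : F, algebraMap F L c ∈ V)
    {X : Fin e → L} (hX : ∀ i, X i ∈ V.nonunits) (q : MvPolynomial (Fin e) F) :
    aeval X q ∈ V ∧ aeval X q - algebraMap F L (constantCoeff q) ∈ V.nonunits := by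
  induction q using MvPolynomial.induction_on with
  | C a => simp [hF a]
  | add p q hp hq =>
    refine ⟨by rw [map_add]; exact add_mem hp.1 hq.1, ?_⟩
    have := add_mem hp.2 hq.2
    rw [map_add, map_add, map_add]
    rwa [← add_sub_add_comm] at this
  | mul_X p i hp =>
    have h1 : aeval X (p * MvPolynomial.X i) ∈ V.nonunits := by
      rw [map_mul, aeval_X, ValuationSubring.mem_nonunits_iff, map_mul]
      exact mul_lt_one_of_nonneg_of_lt_one_right ((V.valuation_le_one_iff _).2 hp.1) zero_le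
        (V.mem_nonunits_iff.1 (hX i))
    refine ⟨V.nonunits_le h1, ?_⟩
    simpa using h1

theorem val_const_Chart {V : ValuationSubring L} (hF : ∀ c : F, algebraMap F L c ∈ V) {c : F}
    (hc : c ≠ 0) : algebraMap F L c ∉ V.nonunits := by
  rw [ValuationSubring.mem_nonunits_iff_or, not_or, not_not, ← map_inv₀]
  exact ⟨(map_ne_zero _).2 hc, hF _⟩

section Val

variable {V : ValuationSubring L} (hF : ∀ c : F, algebraMap F L c ∈ V) {X : Fin e → L}
  (hX : ∀ i, X i ∈ V.nonunits)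

include hF hX in
theorem aeval_not_mem_nonunits {q : MvPolynomial (Fin e) F} (hq : constantCoeff q ≠ 0) :
    aeval X q ∈ V ∧ aeval X q ∉ V.nonunits := by
  obtain ⟨h1, h2⟩ := val_aeval_Chart hF hX q
  refine ⟨h1, fun h => val_const_Chart hF hq ?_⟩
  simpa using sub_mem h h2

include hF hX in
theorem val_eq_one_Chart {q : MvPolynomial (Fin e) F} (hq : constantCoeff q ≠ 0) :
    V.valuation (aeval X q) = 1 := by
  obtain ⟨h1, h2⟩ := aeval_not_mem_nonunits hF hX hq
  rw [ValuationSubring.mem_nonunits_iff, not_lt] at h2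
  exact le_antisymm ((V.valuation_le_one_iff _).2 h1) h2

include hF hX in
theorem Oc_le_valuation {r : L} (hr : r ∈ Oc F X) : r ∈ V := by
  obtain ⟨p, q, hq, h⟩ := hr
  have h1 := congrArg V.valuation h
  rw [map_mul, val_eq_one_Chart hF hX hq, mul_one] at h1
  rw [← V.valuation_le_one_iff, h1, V.valuation_le_one_iff]
  exact (val_aeval_Chart hF hX p).1

include hF hX in
theorem inv_mem_Oc {r : L} (hr : r ∈ Oc F X) (hu : r ∉ V.nonunits) : r⁻¹ ∈ Oc F X := by
  obtain ⟨p, q, hq, h⟩ := hr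
  have h1 := congrArg V.valuation h
  rw [map_mul, val_eq_one_Chart hF hX hq, mul_one] at h1
  have hr0 : r ≠ 0 := fun h0 => hu (h0 ▸ V.nonunits.zero_mem)
  refine ⟨q, p, fun hp => hu ?_, by rw [← h, inv_mul_cancel_left₀ hr0]⟩
  have h2 := (val_aeval_Chart hF hX p).2
  rw [hp, map_zero, sub_zero] at h2
  rwa [ValuationSubring.mem_nonunits_iff, h1, ← ValuationSubring.mem_nonunits_iff]

end Val

section AS

variable {b : Fin e → Lˣ} (hb : AlgebraicIndependent F fun l => (b l : L))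
  {S : Finset (Fin e → ℤ)} {v : Fin e → ℤ} {x : Module.Basis (Fin e) ℤ (Fin e → ℤ)}
  (hc : IsChart S v x)

theorem AS_fg (b : Fin e → Lˣ) (S : Finset (Fin e → ℤ)) : (AS F b S).FG := by
  exact Subalgebra.fg_def.2 ⟨_, (S.finite_toSet.image _), rfl⟩

include hb hc in
theorem vertex_poly_Chart : ∃ q : MvPolynomial (Fin e) F, constantCoeff q ≠ 0 ∧
    aeval (fun i => (chi b (x i) : L)) q ≠ 0 ∧
    (chi b v : L) / ∑ m ∈ S, (chi b m : L) = (aeval (fun i => (chi b (x i) : L)) q)⁻¹ := by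
  obtain ⟨q, hq, hq'⟩ := exists_poly_Chart (F := F) b x S (fun m => m) (fun _ => 1) hc.1
    (fun _ _ h => h) hc.2.2
  have hq0 : constantCoeff q ≠ 0 := by rw [hq]; exact one_ne_zero
  refine ⟨q, hq0, fun h => hq0 ?_, ?_⟩
  · rw [algebraicIndependent_iff.1 (algebraicIndependent_chi hb x) q h, map_zero]
  · rw [hq', chi_neg_Chart]
    simp only [one_smul, Units.val_inv_eq_inv_val, mul_inv_rev, inv_inv, div_eq_mul_inv]

theorem inv_aeval_mem_Oc_Chart {X : Fin e → L} {q : MvPolynomial (Fin e) F}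
    (hq : constantCoeff q ≠ 0) (h0 : aeval X q ≠ 0) : (aeval X q)⁻¹ ∈ Oc F X :=
  ⟨1, q, hq, by rw [inv_mul_cancel₀ h0, map_one]⟩

theorem gen_mem_AS_Chart (b : Fin e → Lˣ) {m : Fin e → ℤ} (hm : m ∈ S) :
    (chi b m : L) / ∑ m' ∈ S, (chi b m' : L) ∈ AS F b S :=
  Algebra.subset_adjoin ⟨m, hm, rfl⟩

include hc in
theorem mul_X_mem_AS_Chart (b : Fin e → Lˣ) (i : Fin e) :
    ((chi b v : L) / ∑ m' ∈ S, (chi b m' : L)) * (chi b (x i) : L) ∈ AS F b S := by
  have h := gen_mem_AS_Chart (F := F) b (hc.2.1 i)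
  rwa [chi_add, Units.val_mul, mul_div_right_comm] at h

include hc in
theorem exists_pow_mem_AS_Chart (b : Fin e → Lˣ) (p : MvPolynomial (Fin e) F) :
    ∃ k : ℕ, ∀ k', k ≤ k' → ((chi b v : L) / ∑ m' ∈ S, (chi b m' : L)) ^ k' *
      aeval (fun i => (chi b (x i) : L)) p ∈ AS F b S := by
  have ht := gen_mem_AS_Chart (F := F) b hc.1
  induction p using MvPolynomial.induction_on with
  | C a =>
    refine ⟨0, fun k' _ => mul_mem (pow_mem ht _) ?_⟩
    rw [aeval_C]
    exact Subalgebra.algebraMap_mem _ _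
  | add p q hp hq =>
    obtain ⟨k, hk⟩ := hp
    obtain ⟨l, hl⟩ := hq
    refine ⟨max k l, fun k' h => ?_⟩
    rw [map_add, mul_add]
    exact add_mem (hk k' (le_trans (le_max_left _ _) h)) (hl k' (le_trans (le_max_right _ _) h))
  | mul_X p i hp =>
    obtain ⟨k, hk⟩ := hp
    refine ⟨k + 1, fun k' h => ?_⟩
    obtain ⟨j, rfl⟩ : ∃ j, k' = j + 1 := ⟨k' - 1, by omega⟩
    have h1 := mul_mem (hk j (by omega)) (mul_X_mem_AS_Chart (F := F) hc b i)
    rw [map_mul, aeval_X, pow_succ]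
    rwa [mul_mul_mul_comm] at h1

include hb hc in
theorem AS_le_Oc : AS F b S ≤ Oc F (fun i => (chi b (x i) : L)) := by
  obtain ⟨q, hq, h0, h⟩ := vertex_poly_Chart hb hc
  refine Algebra.adjoin_le ?_
  rintro _ ⟨m, hm, rfl⟩
  have h1 : (chi b m : L) / ∑ m' ∈ S, (chi b m' : L) =
      (chi b (m - v) : L) * ((chi b v : L) / ∑ m' ∈ S, (chi b m' : L)) := by
    rw [← mul_div_assoc, ← Units.val_mul, ← chi_add, sub_add_cancel]
  show (chi b m : L) / ∑ m' ∈ S, (chi b m' : L) ∈ Oc F _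
  rw [h1, h]
  exact mul_mem (chi_mem_Oc b x (hc.2.2 m hm)) (inv_aeval_mem_Oc_Chart hq h0)

include hb hc in
theorem vertex_unit : (chi b v : L) / ∑ m ∈ S, (chi b m : L) ≠ 0 ∧
    ((chi b v : L) / ∑ m ∈ S, (chi b m : L))⁻¹ ∈ Oc F (fun i => (chi b (x i) : L)) := by
  obtain ⟨q, hq, h0, h⟩ := vertex_poly_Chart hb hc
  rw [h, inv_inv]
  exact ⟨inv_ne_zero h0, aeval_mem_Oc_Chart _ _⟩

include hb hc in
theorem exists_mul_mem_AS {r : L} (hr : r ∈ Oc F (fun i => (chi b (x i) : L))) :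
    ∃ s ∈ AS F b S, s ≠ 0 ∧ s⁻¹ ∈ Oc F (fun i => (chi b (x i) : L)) ∧ s * r ∈ AS F b S := by
  obtain ⟨p, q, hq, h⟩ := hr
  obtain ⟨k, hk⟩ := exists_pow_mem_AS_Chart hc b p
  obtain ⟨l, hl⟩ := exists_pow_mem_AS_Chart hc b q
  obtain ⟨ht0, ht⟩ := vertex_unit hb hc
  have h0 : aeval (fun i => (chi b (x i) : L)) q ≠ 0 := fun h => hq (by
    rw [algebraicIndependent_iff.1 (algebraicIndependent_chi hb x) q h, map_zero])
  refine ⟨_, hl (max k l) (le_max_right _ _), mul_ne_zero (pow_ne_zero _ ht0) h0, ?_, ?_⟩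
  · rw [mul_inv, ← inv_pow]
    exact mul_mem (pow_mem ht _) (inv_aeval_mem_Oc_Chart hq h0)
  · rw [mul_assoc, mul_comm _ r, h]
    exact hk _ (le_max_left _ _)

include hb hc in
theorem exists_sub_const {r : L} (hr : r ∈ Oc F (fun i => (chi b (x i) : L))) :
    ∃ c : F, ∀ V : ValuationSubring L, (∀ c : F, algebraMap F L c ∈ V) →
      (∀ i, (chi b (x i) : L) ∈ V.nonunits) → r - algebraMap F L c ∈ V.nonunits := by
  obtain ⟨p, q, hq, h⟩ := hr
  refine ⟨constantCoeff p / constantCoeff q, fun V hF hX => ?_⟩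
  have h1 := (val_aeval_Chart hF hX (p - C (constantCoeff p / constantCoeff q) * q)).2
  have h2 : constantCoeff (p - C (constantCoeff p / constantCoeff q) * q) = 0 := by
    rw [map_sub, map_mul, constantCoeff_C, div_mul_cancel₀ _ hq, sub_self]
  rw [h2, map_zero, sub_zero, map_sub, map_mul, aeval_C, ← h, ← sub_mul,
    ValuationSubring.mem_nonunits_iff, map_mul, val_eq_one_Chart hF hX hq, mul_one] at h1
  exact V.mem_nonunits_iff.2 h1

include hb hc in
theorem adjoin_AS : IntermediateField.adjoin F (AS F b S : Set L) =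
    IntermediateField.adjoin F (Set.range fun l => (b l : L)) := by
  apply le_antisymm
  · rw [IntermediateField.adjoin_le_iff]
    have h : AS F b S ≤
        (IntermediateField.adjoin F (Set.range fun l => (b l : L))).toSubalgebra := by
      refine Algebra.adjoin_le ?_
      rintro _ ⟨m, _, rfl⟩
      exact IntermediateField.div_mem _ (chi_mem_adjoin_Chart b m)
        (sum_mem fun m' _ => chi_mem_adjoin_Chart b m')
    exact h
  · rw [← adjoin_chi b x, IntermediateField.adjoin_le_iff]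
    rintro _ ⟨i, rfl⟩
    have h1 := IntermediateField.subset_adjoin F (AS F b S : Set L)
      (mul_X_mem_AS_Chart (F := F) hc b i)
    have h2 := IntermediateField.subset_adjoin F (AS F b S : Set L)
      (gen_mem_AS_Chart (F := F) b hc.1)
    have h3 := div_mem h1 h2
    rwa [mul_div_cancel_left₀ _ (vertex_unit hb hc).1] at h3

end AS

end

end Pool.Agent.MP_e2821c_ag.Dg
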