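import Pool.Agent.Lib.MP_e2821c_ag.Cy.Core
import Pool.Agent.Lib.MP_e2821c_ag.Cy.Trace

/-!
# The trace model of finite correspondences into a torus
-/

namespace Pool.Agent.MP_e2821c_ag.Dg

open MvPolynomial

universe u v

noncomputable section

/-- Rings in which the positive integers are invertible. -/
class QAlg (S : Type*) [CommRing S] : Prop where
  isUnit_natCast : ∀ n : ℕ, n ≠ 0 → IsUnit (n : S)

theorem QAlg.of_ringHom {S S' : Type*} [CommRing S] [CommRing S'] [QAlg S] (f : S →+* S') :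
    QAlg S' :=
  ⟨fun n hn => by simpa using (QAlg.isUnit_natCast (S := S) n hn).map f⟩

theorem QAlg.of_algebra (S S' : Type*) [CommRing S] [CommRing S'] [QAlg S] [Algebra S S'] :
    QAlg S' := QAlg.of_ringHom (algebraMap S S')

instance (priority := 100) QAlg.field (K : Type*) [Field K] [CharZero K] : QAlg K :=
  ⟨fun _ hn => IsUnit.mk0 _ (Nat.cast_ne_zero.2 hn)⟩

instance QAlg.mvPolynomial (S : Type*) [CommRing S] [QAlg S] (σ : Type*) :
    QAlg (MvPolynomial σ S) := QAlg.of_algebra S _

instance QAlg.addMonoidAlgebra (S : Type*) [CommRing S] [QAlg S] (M : Type*) [AddCommMonoid M] :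
    QAlg (AddMonoidAlgebra S M) := QAlg.of_algebra S _

instance QAlg.polynomial (S : Type*) [CommRing S] [QAlg S] : QAlg (Polynomial S) :=
  QAlg.of_algebra S _

instance QAlg.localization (S : Type*) [CommRing S] [QAlg S] (T : Submonoid S) :
    QAlg (Localization T) := QAlg.of_algebra S _

instance QAlg.top (S : Type*) [CommRing S] [QAlg S] : QAlg (⊤ : Subring S) :=
  QAlg.of_ringHom (Subring.topEquiv.symm : S ≃+* (⊤ : Subring S)).toRingHom

instance QAlg.subalgebra (F S : Type*) [CommRing F] [QAlg F] [CommRing S] [Algebra F S]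
    (A : Subalgebra F S) : QAlg A := QAlg.of_algebra F _

instance QAlg.subalgebra_toSubring (F S : Type*) [CommRing F] [QAlg F] [CommRing S] [Algebra F S]
    (A : Subalgebra F S) : QAlg A.toSubring := QAlg.subalgebra F S A

instance QAlg.range {S S' : Type*} [CommRing S] [CommRing S'] [QAlg S] (f : S →+* S') :
    QAlg f.range := QAlg.of_ringHom f.rangeRestrict

theorem QAlg.charZero (S : Type*) [CommRing S] [Nontrivial S] [QAlg S] : CharZero S :=
  ⟨fun a b h => by
    by_contra hne
    wlog hab : a < b generalizing a b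
    · exact this b a h.symm (Ne.symm hne) (lt_of_le_of_ne (not_lt.1 hab) (Ne.symm hne))
    obtain ⟨c, rfl⟩ := Nat.exists_eq_add_of_lt hab
    have h1 : ((c + 1 : ℕ) : S) = 0 := by
      have h2 : ((a + c + 1 : ℕ) : S) = (a : S) + ((c + 1 : ℕ) : S) := by push_cast; ring
      rw [h2] at h
      exact left_eq_add.1 h
    exact (QAlg.isUnit_natCast (S := S) (c + 1) (Nat.succ_ne_zero c)).ne_zero h1⟩

theorem QAlg.nsmul_injective {S : Type*} [CommRing S] [QAlg S] {N : ℕ} (hN : N ≠ 0) {x y : S}
    (h : N • x = N • y) : x = y := by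
  rw [nsmul_eq_mul, nsmul_eq_mul] at h
  exact (QAlg.isUnit_natCast N hN).mul_left_cancel h

/-- `τ` is a sum of `d` characters with values in a field containing `S`. -/
def Eff {Γ : Type v} [AddCommMonoid Γ] {S : Type u} [CommRing S] (d : ℕ) (τ : Γ → S) : Prop :=
  ∃ (E : Type u) (_ : Field E) (i : S →+* E), Function.Injective i ∧
    ∃ s : Multiset (AddChar Γ E), s.card = d ∧ ∀ γ, i (τ γ) = (s.map fun ψ => ψ γ).sum

/-- `l` is a sum of `d` ring maps with values in a field containing `S`. -/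
def REff {B : Type v} [CommRing B] {S : Type u} [CommRing S] (d : ℕ) (l : B →+ S) : Prop :=
  ∃ (E : Type u) (_ : Field E) (i : S →+* E), Function.Injective i ∧
    ∃ s : Multiset (B →+* E), s.card = d ∧ ∀ b, i (l b) = (s.map fun ψ => ψ b).sum

/-- A multiple of `l` is a difference of two sums of ring maps. -/
def RCorr {B : Type v} [CommRing B] {S : Type u} [CommRing S] (l : B →+ S) : Prop :=
  ∃ N : ℕ, N ≠ 0 ∧ ∃ (d d' : ℕ) (l₁ l₂ : B →+ S), REff d l₁ ∧ REff d' l₂ ∧ N • l = l₁ - l₂

/-- The saturation of the subgroup generated by a set. -/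
def satClosure {G : Type*} [AddCommGroup G] (s : Set G) : AddSubgroup G where
  carrier := {x | ∃ N : ℕ, N ≠ 0 ∧ N • x ∈ AddSubgroup.closure s}
  zero_mem' := ⟨1, one_ne_zero, by simp⟩
  add_mem' := by
    rintro a b ⟨N, hN, ha⟩ ⟨M, hM, hb⟩
    refine ⟨N * M, mul_ne_zero hN hM, ?_⟩
    rw [nsmul_add]
    refine add_mem ?_ ?_
    · rw [mul_nsmul]; exact nsmul_mem ha M
    · rw [mul_nsmul']; exact nsmul_mem hb N
  neg_mem' := by
    rintro a ⟨N, hN, ha⟩
    exact ⟨N, hN, by rw [smul_neg]; exact neg_mem ha⟩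

theorem mem_satClosure {G : Type*} [AddCommGroup G] {s : Set G} {x : G} :
    x ∈ satClosure s ↔ ∃ N : ℕ, N ≠ 0 ∧ N • x ∈ AddSubgroup.closure s := Iff.rfl

theorem subset_satClosure {G : Type*} [AddCommGroup G] {s : Set G} {x : G} (h : x ∈ s) :
    x ∈ satClosure s := ⟨1, one_ne_zero, by simpa using AddSubgroup.subset_closure h⟩

theorem satClosure_mono {G : Type*} [AddCommGroup G] {s t : Set G} (h : s ⊆ t) :
    satClosure s ≤ satClosure t := fun _ ⟨N, hN, hx⟩ => ⟨N, hN, AddSubgroup.closure_mono h hx⟩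

theorem satClosure_map {G G' : Type*} [AddCommGroup G] [AddCommGroup G'] (f : G →+ G')
    {s : Set G} {t : Set G'} (h : ∀ x ∈ s, f x ∈ satClosure t) {x : G} (hx : x ∈ satClosure s) :
    f x ∈ satClosure t := by
  obtain ⟨N, hN, hx⟩ := hx
  have h1 : AddSubgroup.closure s ≤ (satClosure t).comap f := (AddSubgroup.closure_le _).2 h
  obtain ⟨M, hM, h2⟩ := h1 hx
  refine ⟨M * N, mul_ne_zero hM hN, ?_⟩
  rwa [map_nsmul, ← mul_nsmul'] at h2

theorem mem_satClosure_of_nsmul {G : Type*} [AddCommGroup G] {s : Set G} {x : G} {N : ℕ}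
    (hN : N ≠ 0) (h : N • x ∈ satClosure s) : x ∈ satClosure s := by
  obtain ⟨M, hM, h⟩ := h
  exact ⟨M * N, mul_ne_zero hM hN, by rwa [mul_nsmul']⟩

/-- Correspondences with values in the set `A`. -/
def CorrIn (Γ : Type v) [AddCommMonoid Γ] {S : Type u} [CommRing S] (A : Set S) :
    AddSubgroup (Γ → S) :=
  satClosure {τ | (∃ d, Eff d τ) ∧ ∀ γ, τ γ ∈ A}

/-- The coefficientwise action of an additive map on polynomials. -/
def cmap {R : Type u} {R' : Type v} [CommRing R] [CommRing R'] (l : R →+ R') (σ : Type*) :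
    MvPolynomial σ R →+ MvPolynomial σ R' where
  toFun := AddMonoidAlgebra.map l
  map_zero' := AddMonoidAlgebra.map_zero l
  map_add' := AddMonoidAlgebra.map_add l

@[simp] theorem coeff_cmap {R : Type u} {R' : Type v} [CommRing R] [CommRing R'] (l : R →+ R')
    {σ : Type*} (p : MvPolynomial σ R) (m : σ →₀ ℕ) : coeff m (cmap l σ p) = l (coeff m p) := rfl

/-- The coefficientwise action of an additive map on polynomials in one variable. -/
def pmap {R : Type u} {R' : Type v} [CommRing R] [CommRing R'] (l : R →+ R') :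
    Polynomial R →+ Polynomial R' where
  toFun p := ⟨AddMonoidAlgebra.map l p.toFinsupp⟩
  map_zero' := by ext; simp [Polynomial.coeff]
  map_add' p q := by ext; simp [Polynomial.coeff, Polynomial.toFinsupp_add]

@[simp] theorem coeff_pmap {R : Type u} {R' : Type v} [CommRing R] [CommRing R'] (l : R →+ R')
    (p : Polynomial R) (n : ℕ) : (pmap l p).coeff n = l (p.coeff n) := rfl

/-- Functions on `Γ` with values in the coordinate ring of the simplex. -/
abbrev Xq (Γ : Type) (R : Type u) [CommRing R] (q : ℕ) : Type u := Γ → Base R q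

section Ops

variable {Γ : Type} {R : Type u} {R' : Type u} [CommRing R] [CommRing R']

/-- The coefficientwise action on chains. -/
def push (l : R →+ R') (q : ℕ) : Xq Γ R q →+ Xq Γ R' q := (cmap l (Fin q)).compLeft Γ

@[simp] theorem push_apply (l : R →+ R') (q : ℕ) (τ : Xq Γ R q) (γ : Γ) :
    push l q τ γ = cmap l (Fin q) (τ γ) := rfl

/-- The action of a ring map on chains. -/
abbrev pushR (f : R →+* R') (q : ℕ) : Xq Γ R q →+ Xq Γ R' q := push f.toAddMonoidHom q

/-- The simplicial operators. -/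
def act (R : Type u) [CommRing R] {a b : ℕ} (f : Fin (a + 1) → Fin (b + 1)) :
    Xq Γ R b →+ Xq Γ R a := (Cy.smR R f).toAddMonoidHom.compLeft Γ

@[simp] theorem act_apply {a b : ℕ} (f : Fin (a + 1) → Fin (b + 1)) (τ : Xq Γ R b) (γ : Γ) :
    act R f τ γ = Cy.sm R f (τ γ) := rfl

/-- The differential. -/
def dX (R : Type u) [CommRing R] (q : ℕ) : Xq Γ R (q + 1) →+ Xq Γ R q :=
  ∑ i : Fin (q + 2), ((-1 : ℤ) ^ (i : ℕ)) • act R i.succAbove

theorem dX_apply (q : ℕ) (τ : Xq Γ R (q + 1)) :
    dX R q τ = ∑ i : Fin (q + 2), ((-1 : ℤ) ^ (i : ℕ)) • act R i.succAbove τ := by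
  simp only [dX, AddMonoidHom.finsetSum_apply, AddMonoidHom.smul_apply]

/-- Cycles. -/
def Cyc : ∀ q : ℕ, Xq Γ R q → Prop
  | 0, _ => True
  | q + 1, u => dX R q u = 0

/-- Constant chains. -/
def cst (q : ℕ) : (Γ → R) →+ Xq Γ R q := (C : R →+* Base R q).toAddMonoidHom.compLeft Γ

@[simp] theorem cst_apply (q : ℕ) (τ : Γ → R) (γ : Γ) : cst q τ γ = C (τ γ) := rfl

/-- Polynomials with all coefficients in `A`. -/
def coefIn (A : Set R) (σ : Type*) : Set (MvPolynomial σ R) := {p | ∀ m, coeff m p ∈ A}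

/-- Polynomials in one variable with coefficients in a subring. -/
def polySub (A : Subring R) : Subring (Polynomial R) := (Polynomial.mapRingHom A.subtype).range

/-- `l` is multiplicative on `A`. -/
def HomOn {R : Type u} {R' : Type v} [CommRing R] [CommRing R'] (l : R → R') (A : Set R) : Prop :=
  l 1 = 1 ∧ ∀ a ∈ A, ∀ b ∈ A, l (a * b) = l a * l b

end Ops

section Chains

variable (Γ : Type) [AddCommGroup Γ] {R : Type u} [CommRing R]

/-- Chains with coefficients in the subring `A`. -/
def Ch (A : Subring R) (q : ℕ) : AddSubgroup (Xq Γ R q) := CorrIn Γ (coefIn (A : Set R) (Fin q))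

variable (R) in
/-- Chains generated by effective chains of degree at most `d`. -/
def ChD (q d : ℕ) : AddSubgroup (Xq Γ R q) := satClosure {τ | ∃ e, e ≤ d ∧ Eff e τ}

variable {Γ}

/-- Boundaries of chains with coefficients in `A`. -/
def Bd (A : Subring R) {q : ℕ} (u : Xq Γ R q) : Prop := ∃ y ∈ Ch Γ A (q + 1), dX R q y = u

end Chains

/-- The character group of the two dimensional torus. -/
abbrev G2 : Type := ℤ × ℤ

/-- Functions killed by both unit sections. -/
def Red {S : Type*} [Zero S] (τ : G2 → S) : Prop := (∀ b, τ (0, b) = 0) ∧ ∀ a, τ (a, 0) = 0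

/-- The projector onto the functions killed by both unit sections. -/
def red {S : Type*} [AddCommGroup S] : (G2 → S) →+ (G2 → S) where
  toFun τ γ := τ γ - τ (0, γ.2) - τ (γ.1, 0) + τ 0
  map_zero' := by ext; simp
  map_add' a b := by ext; simp only [Pi.add_apply]; abel

theorem red_apply {S : Type*} [AddCommGroup S] (τ : G2 → S) (γ : G2) :
    red τ γ = τ γ - τ (0, γ.2) - τ (γ.1, 0) + τ 0 := rfl

/-- The subgroup of functions killed by both unit sections. -/
def RedSub (S : Type*) [AddCommGroup S] : AddSubgroup (G2 → S) where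
  carrier := {τ | Red τ}
  zero_mem' := ⟨fun _ => rfl, fun _ => rfl⟩
  add_mem' ha hb := ⟨fun b => by simp [ha.1 b, hb.1 b], fun a => by simp [ha.2 a, hb.2 a]⟩
  neg_mem' ha := ⟨fun b => by simp [ha.1 b], fun a => by simp [ha.2 a]⟩

/-- Reduced chains with coefficients in `A`. -/
def CR {R : Type u} [CommRing R] (A : Subring R) (q : ℕ) : AddSubgroup (Xq G2 R q) :=
  Ch G2 A q ⊓ RedSub (Base R q)

theorem mem_CR {R : Type u} [CommRing R] {A : Subring R} {q : ℕ} {u : Xq G2 R q} :
    u ∈ CR A q ↔ u ∈ Ch G2 A q ∧ Red u := Iff.rfl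

/-- The linear extension of a function on `Γ` to the group ring. -/
def lin (K : Type u) [CommRing K] {Γ : Type} {S : Type u} [CommRing S] [Algebra K S]
    (τ : Γ → S) : AddMonoidAlgebra K Γ →+ S where
  toFun x := Finsupp.linearCombination K τ x.coeff
  map_zero' := by simp
  map_add' x y := by simp

@[simp] theorem lin_single (K : Type u) [CommRing K] {Γ : Type} {S : Type u} [CommRing S]
    [Algebra K S] (τ : Γ → S) (γ : Γ) (c : K) :
    lin K τ (AddMonoidAlgebra.single γ c) = c • τ γ := by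
  simp [lin]

/-! ### Traces -/

/-- The trace of multiplication by `y` on `A / I` at the generic point of `Spec R`, computed
in a field `Ω` over `R`. -/
def trF {R A Ω : Type u} [CommRing R] [CommRing A] [Field Ω] (g : R →+* A) (i : R →+* Ω)
    (I : Ideal A) (y : A) : Ω :=
  letI := g.toAlgebra
  letI := i.toAlgebra
  Cy.trQ R A Ω I y

/-- The structure map to the algebraic closure of the fraction field. -/
abbrev iOm (R : Type u) [CommRing R] [IsDomain R] : R →+* Cy.Om R := algebraMap R (Cy.Om R)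

/-- The trace of multiplication by `y` on `A / I` as an element of `R`. -/
def trG {R A : Type u} [CommRing R] [IsDomain R] [CommRing A] (g : R →+* A) (I : Ideal A)
    (y : A) : R :=
  Classical.epsilon fun r => iOm R r = trF g (iOm R) I y

/-- `A` is the group ring of `Γ` over `R`. -/
structure Push {Γ : Type} [AddCommGroup Γ] {R A : Type u} [CommRing R] [CommRing A]
    (g : R →+* A) (ι : AddChar Γ A) : Prop where
  gen : Subring.closure (Set.range g ∪ Set.range ι) = ⊤
  univ : ∀ (E : Type u) [Field E] (f : R →+* E) (ψ : AddChar Γ E),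
    ∃ e : A →+* E, e.comp g = f ∧ ∀ γ, e (ι γ) = ψ γ

/-- The tautological character of a group ring, composed with an additive map. -/
def taut (R : Type u) [CommRing R] {Γ M : Type} [AddCommGroup Γ] [AddCommGroup M] (f : Γ →+ M) :
    AddChar Γ (AddMonoidAlgebra R M) where
  toFun γ := AddMonoidAlgebra.single (f γ) 1
  map_zero_eq_one' := by rw [map_zero]; rfl
  map_add_eq_mul' a b := by rw [map_add, AddMonoidAlgebra.single_mul_single, one_mul]

@[simp] theorem taut_apply (R : Type u) [CommRing R] {Γ M : Type} [AddCommGroup Γ]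
    [AddCommGroup M] (f : Γ →+ M) (γ : Γ) :
    taut R f γ = AddMonoidAlgebra.single (f γ) 1 := rfl

/-- The sum of a polynomial over the roots of the monic polynomial `h`. -/
def rootSum {S : Type u} [CommRing S] (h p : Polynomial S) : S :=
  ((p * Polynomial.derivative h) %ₘ h).coeff (h.natDegree - 1)

/-- The cotangent space at `𝔪` is generated by `d` differentials. -/
def SmAt (F : Type u) [Field F] {B : Type u} [CommRing B] [Algebra F B] (d : ℕ) (𝔪 : Ideal B) :
    Prop :=
  ∃ z : Fin d → B, ∀ D : Derivation F B (B ⧸ 𝔪), (∀ l, D (z l) = 0) → D = 0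

/-- The transcendence rank of a subset. -/
def rk (F : Type u) {Ω : Type u} [Field F] [Field Ω] [Algebra F Ω] (s : Set Ω) : ℕ∞ :=
  (AlgebraicIndependent.matroid F Ω).eRk s

/-! ### Laurent polynomials and the cancellation operator -/

/-- Laurent polynomials in one variable. -/
abbrev Lau (S : Type u) [CommRing S] : Type u := AddMonoidAlgebra S ℤ

/-- Evaluation of a Laurent polynomial at a unit. -/
def evL {S : Type u} [CommRing S] (a : Sˣ) : Lau S →ₐ[S] S :=
  AddMonoidAlgebra.lift S S ℤ ((Units.coeHom S).comp (zpowersHom Sˣ a))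

@[simp] theorem evL_single {S : Type u} [CommRing S] (a : Sˣ) (m : ℤ) (c : S) :
    evL a (AddMonoidAlgebra.single m c) = c * ((a ^ m : Sˣ) : S) := by
  rw [evL, AddMonoidAlgebra.lift_single]; rfl

/-- The exchange of the simplex variables and the Laurent variable. -/
def swL (K : Type u) [CommRing K] (q : ℕ) : Base (Lau K) q →+* Lau (Base K q) :=
  MvPolynomial.eval₂Hom (AddMonoidAlgebra.mapRingHom ℤ (C : K →+* Base K q))
    fun k => AddMonoidAlgebra.single 0 (X k)

/-- The coordinate ring of `G_m × T × G_m`. -/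
abbrev BB (S : Type u) [CommRing S] (Γ : Type) : Type u := AddMonoidAlgebra S (ℤ × Γ × ℤ)

/-- The structure map sending the variable to the monomial `m`. -/
def gM (S : Type u) [CommRing S] (Γ : Type) [AddCommGroup Γ] (m : ℤ × Γ × ℤ) :
    Lau S →+* BB S Γ :=
  AddMonoidAlgebra.mapDomainRingHom S (zmultiplesHom (ℤ × Γ × ℤ) m)

/-- The projection to the source. -/
abbrev gU (S : Type u) [CommRing S] (Γ : Type) [AddCommGroup Γ] : Lau S →+* BB S Γ :=
  gM S Γ (1, 0, 0)

/-- The projection given by `u ^ (n + 1) / y`. -/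
abbrev gN (S : Type u) [CommRing S] (Γ : Type) [AddCommGroup Γ] (n : ℕ) : Lau S →+* BB S Γ :=
  gM S Γ ((n : ℤ) + 1, 0, -1)

/-- `σ` is the fibre of `τ` over `u ^ (n + 1) = y`. -/
def RhoRel {S : Type u} [CommRing S] [IsDomain S] {Γ : Type} [AddCommGroup Γ] (n : ℕ)
    (τ : Γ × ℤ → Lau S) (σ : Γ → S) : Prop :=
  ∃ N : ℕ, N ≠ 0 ∧ ∃ c : Ideal (BB S Γ) →₀ ℤ,
    (∀ P ∈ c.support, IsElem (Lau S) (BB S Γ) (gU S Γ) P ∧ IsElem (Lau S) (BB S Γ) (gN S Γ n) P) ∧
    (∀ γ : Γ × ℤ, N • τ γ =
      c.sum fun P z => z • trG (gU S Γ) P (AddMonoidAlgebra.single (0, γ) 1)) ∧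
    ∀ γ : Γ, N • σ γ =
      c.sum fun P z => z • evL 1 (trG (gN S Γ n) P (AddMonoidAlgebra.single (0, γ, 0) 1))

/-- The relation `RhoRel` on chains. -/
def RhoX {K : Type u} [Field K] {Γ : Type} [AddCommGroup Γ] (n q : ℕ)
    (τ : Xq (Γ × ℤ) (Lau K) q) (σ : Xq Γ K q) : Prop :=
  RhoRel n (fun γ => swL K q (τ γ)) σ

/-! ### Horizontal faces -/

/-- The horizontal face operators on chains over a simplex. -/
abbrev hface {Γ : Type} (F : Type u) [CommRing F] (p q : ℕ) (i : Fin (p + 2)) :
    Xq Γ (Base F (p + 1)) q →+ Xq Γ (Base F p) q := pushR (Cy.smR F i.succAbove) q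

/-- All horizontal faces vanish. -/
def HNorm {Γ : Type} (F : Type u) [CommRing F] : ∀ (p q : ℕ), Xq Γ (Base F p) q → Prop
  | 0, _, _ => True
  | p + 1, q, z => ∀ i, hface F p q i z = 0

/-- Reduced cycles over a simplex with vanishing horizontal faces. -/
def GoodZ (F : Type u) [CommRing F] (p q : ℕ) (z : Xq G2 (Base F p) q) : Prop :=
  z ∈ CR ⊤ q ∧ Cyc q z ∧ HNorm F p q z

end

end Pool.Agent.MP_e2821c_ag.Dg
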