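import Pool.Agent.Lib.MP_e2821c_ag.Dg.Tree
import Pool.Agent.Lib.MP_e2821c_ag.Dg.Chn

namespace Pool.Agent.MP_e2821c_ag.Dg

open MvPolynomial

universe u v w

noncomputable section

variable {F Ω : Type u} [Field F] [Field Ω] [Algebra F Ω]

theorem tact_tact (θ θ' : Ω → Ω) (k : ℕ) (b : Tr (G2 → Ω) k) :
    tact θ' k (tact θ k b) = tact (θ' ∘ θ) k b := by
  exact Tr.map_map _ _ k b

theorem tact_congr {θ θ' : Ω → Ω} {k : ℕ} {b : Tr (G2 → Ω) k}
    (h : ∀ x ∈ vals k b, θ x = θ' x) : tact θ k b = tact θ' k b := by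
  exact Tr.map_congr fun τ hτ => funext fun γ => h _ ⟨τ, hτ, γ, rfl⟩

theorem vals_tact (θ : Ω → Ω) (k : ℕ) (b : Tr (G2 → Ω) k) :
    vals k (tact θ k b) = θ '' vals k b := by
  ext x
  simp only [vals, tact, Tr.leaves_map, Multiset.mem_map, Set.mem_ofPred_eq, Set.mem_image]
  constructor
  · rintro ⟨_, ⟨τ, hτ, rfl⟩, γ, rfl⟩
    exact ⟨τ γ, ⟨τ, hτ, γ, rfl⟩, rfl⟩
  · rintro ⟨_, ⟨τ, hτ, γ, rfl⟩, rfl⟩
    exact ⟨_, ⟨τ, hτ, rfl⟩, γ, rfl⟩

theorem DT_tact (θ : Module.End F Ω) (k : ℕ) (b : Tr (G2 → Ω) (k + 1)) :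
    Tr.DT k (tact θ (k + 1) b) = (Tr.DT k b).map fun p => (p.1, tact θ k p.2) := by
  exact Tr.DT_map (θ.toAddMonoidHom.compLeft G2) k b

theorem delta_tact (θ : Module.End F Ω) (k : ℕ) (c : Tr (G2 → Ω) (k + 1) →₀ ℚ) :
    Tr.delta k (c.mapDomain (tact θ (k + 1))) = (Tr.delta k c).mapDomain (tact θ k) := by
  exact Tr.delta_mapDomain (θ.toAddMonoidHom.compLeft G2) k c

theorem vals_DT {k : ℕ} {b : Tr (G2 → Ω) (k + 1)} {p : ℤ × Tr (G2 → Ω) k} (hp : p ∈ Tr.DT k b) :
    vals k p.2 ⊆ Algebra.adjoin F (vals (k + 1) b) := by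
  rintro _ ⟨τ, hτ, γ, rfl⟩
  obtain ⟨s, hs, rfl⟩ := Tr.leaves_DT hp τ hτ
  have h1 : s.sum ∈ (Algebra.adjoin F (vals (k + 1) b)).toSubring.toAddSubgroup.comap
      (Pi.evalAddMonoidHom (fun _ : G2 => Ω) γ) := by
    refine AddSubgroup.multiset_sum_mem _ s fun σ hσ => ?_
    exact Algebra.subset_adjoin ⟨σ, Multiset.mem_of_le hs hσ, γ, rfl⟩
  exact h1

theorem fg_adjoin_vals [CharZero F] {k : ℕ} {b : Tr (G2 → Ω) k}
    (h : ∀ τ ∈ Tr.leaves k b, ∃ d, Eff d τ) : (Algebra.adjoin F (vals k b)).FG := by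
  classical
  have h1 : ∀ τ : G2 → Ω, ∃ t : Finset G2, τ ∈ Tr.leaves k b → ∀ (A : Subring Ω) [QAlg A],
      (∀ γ ∈ t, τ γ ∈ A) → ∀ γ, τ γ ∈ A := by
    intro τ
    by_cases hτ : τ ∈ Tr.leaves k b
    · obtain ⟨d, hd⟩ := h τ hτ
      obtain ⟨t, ht⟩ := hd.fg
      exact ⟨t, fun _ => ht⟩
    · exact ⟨∅, fun h' => absurd h' hτ⟩
  choose t ht using h1
  refine ⟨(Tr.leaves k b).toFinset.biUnion fun τ => (t τ).image τ, le_antisymm ?_ ?_⟩
  · refine Algebra.adjoin_mono fun x hx => ?_
    simp only [Finset.coe_biUnion, Finset.mem_coe, Multiset.mem_toFinset, Finset.coe_image,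
      Set.mem_iUnion, Set.mem_image] at hx
    obtain ⟨τ, hτ, γ, -, rfl⟩ := hx
    exact ⟨τ, hτ, γ, rfl⟩
  · refine Algebra.adjoin_le ?_
    rintro _ ⟨τ, hτ, γ, rfl⟩
    refine ht τ hτ (Algebra.adjoin F
      (((Tr.leaves k b).toFinset.biUnion fun τ => (t τ).image τ : Finset Ω) : Set Ω)).toSubring
      (fun γ' hγ' => ?_) γ
    refine Algebra.subset_adjoin ?_
    simp only [Finset.coe_biUnion, Finset.mem_coe, Multiset.mem_toFinset, Finset.coe_image,
      Set.mem_iUnion, Set.mem_image]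
    exact ⟨τ, hτ, γ', hγ', rfl⟩

namespace Inst

theorem lev_smul (θ : Module.End F Ω) (o : Inst F Ω) : (o.smul θ).lev = o.lev := by
  cases o <;> rfl

theorem lev_eq (o : Inst F Ω) : o.lev = o.root.1 + o.len := by
  induction o with
  | base k b => rfl
  | cons φ o ih =>
    change o.lev + 1 = o.root.1 + (o.len + 1)
    omega

theorem smul_smul (θ θ' : Module.End F Ω) (o : Inst F Ω) :
    (o.smul θ).smul θ' = o.smul (θ' * θ) := by
  cases o with
  | base k b => exact congrArg (base k) (tact_tact θ θ' k b)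
  | cons φ o => exact congrArg (fun ψ => cons ψ o) (mul_assoc θ' θ φ).symm

theorem smul_one (o : Inst F Ω) : o.smul 1 = o := by
  cases o with
  | base k b => exact congrArg (base k) (Tr.map_id k b)
  | cons φ o => exact congrArg (fun ψ => cons ψ o) (one_mul φ)

theorem DL_base_zero_CoreA (b : Tr (G2 → Ω) 0) : (base 0 b : Inst F Ω).DL = 0 := rfl

theorem DL_base_succ_CoreA (k : ℕ) (b : Tr (G2 → Ω) (k + 1)) :
    (base (k + 1) b : Inst F Ω).DL = (Tr.DT k b).map fun p => (p.1, base k p.2) := rfl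

theorem DL_cons_CoreA (φ : Module.End F Ω) (o : Inst F Ω) :
    (cons φ o).DL = (-1, o.smul φ) ::ₘ o.DL.map fun p => (-p.1, cons φ p.2) := rfl

theorem lev_DL {o : Inst F Ω} {p : ℤ × Inst F Ω} (hp : p ∈ o.DL) : p.2.lev + 1 = o.lev := by
  induction o generalizing p with
  | base k b =>
    cases k with
    | zero => exact absurd hp (Multiset.notMem_zero p)
    | succ k =>
      rw [DL_base_succ_CoreA, Multiset.mem_map] at hp
      obtain ⟨q, -, rfl⟩ := hp
      rfl
  | cons φ o ih =>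
    rw [DL_cons_CoreA, Multiset.mem_cons, Multiset.mem_map] at hp
    rcases hp with rfl | ⟨q, hq, rfl⟩
    · exact congrArg (· + 1) (lev_smul φ o)
    · exact congrArg (· + 1) (ih hq)

theorem DL_smul (θ : Module.End F Ω) (o : Inst F Ω) :
    (o.smul θ).DL = o.DL.map fun p => (p.1, p.2.smul θ) := by
  cases o with
  | base k b =>
    cases k with
    | zero => rfl
    | succ k =>
      change (base (k + 1) (tact θ (k + 1) b) : Inst F Ω).DL = _
      rw [DL_base_succ_CoreA, DL_base_succ_CoreA, DT_tact, Multiset.map_map, Multiset.map_map]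
      rfl
  | cons φ o =>
    change (cons (θ * φ) o).DL = _
    rw [DL_cons_CoreA, DL_cons_CoreA, Multiset.map_cons, Multiset.map_map, ← smul_smul]
    rfl

theorem D_single (o : Inst F Ω) (c : ℚ) : D (Finsupp.single o c) = c • sgnSum o.DL := by
  exact Finsupp.linearCombination_single ℚ c o

theorem D_base_zero (c : Tr (G2 → Ω) 0 →₀ ℚ) :
    D (c.mapDomain (base 0 : _ → Inst F Ω)) = 0 := by
  induction c using Finsupp.induction_linear with
  | zero => rw [Finsupp.mapDomain_zero, map_zero]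
  | add a b ha hb => rw [Finsupp.mapDomain_add, map_add, ha, hb, add_zero]
  | single b c =>
    rw [Finsupp.mapDomain_single, D_single, DL_base_zero_CoreA, sgnSum_zero, smul_zero]

theorem D_base_succ (k : ℕ) (c : Tr (G2 → Ω) (k + 1) →₀ ℚ) :
    D (c.mapDomain (base (k + 1) : _ → Inst F Ω)) = (Tr.delta k c).mapDomain (base k) := by
  induction c using Finsupp.induction_linear with
  | zero => rw [Finsupp.mapDomain_zero, map_zero, map_zero, Finsupp.mapDomain_zero]
  | add a b ha hb => rw [Finsupp.mapDomain_add, map_add, ha, hb, map_add, Finsupp.mapDomain_add]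
  | single b c =>
    rw [Finsupp.mapDomain_single, D_single, DL_base_succ_CoreA, sgnSum_map, Tr.delta,
      Finsupp.linearCombination_single, Finsupp.mapDomain_smul]

theorem D_cons (φ : Module.End F Ω) (c : Inst F Ω →₀ ℚ) :
    D (c.mapDomain (cons φ)) = -c.mapDomain (smul φ) - (D c).mapDomain (cons φ) := by
  induction c using Finsupp.induction_linear with
  | zero => simp only [Finsupp.mapDomain_zero, map_zero, neg_zero, sub_zero]
  | add a b ha hb =>
    simp only [Finsupp.mapDomain_add, map_add, ha, hb]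
    abel
  | single o c =>
    rw [Finsupp.mapDomain_single, D_single, DL_cons_CoreA, sgnSum_cons, sgnSum_map_neg,
      Finsupp.mapDomain_single, D_single, Finsupp.mapDomain_smul, smul_add, smul_neg,
      Finsupp.smul_single, sub_eq_add_neg, ← Finsupp.single_neg]
    simp

theorem D_smul (φ : Module.End F Ω) (c : Inst F Ω →₀ ℚ) :
    D (c.mapDomain (smul φ)) = (D c).mapDomain (smul φ) := by
  induction c using Finsupp.induction_linear with
  | zero => simp only [Finsupp.mapDomain_zero, map_zero]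
  | add a b ha hb => simp only [Finsupp.mapDomain_add, map_add, ha, hb]
  | single o c =>
    rw [Finsupp.mapDomain_single, D_single, DL_smul, sgnSum_map, D_single,
      Finsupp.mapDomain_smul]

theorem D_D (c : Inst F Ω →₀ ℚ) : D (D c) = 0 := by
  induction c using Finsupp.induction_linear with
  | zero => rw [map_zero, map_zero]
  | add a b ha hb => rw [map_add, map_add, ha, hb, add_zero]
  | single o c =>
    induction o with
    | base k b =>
      rw [← Finsupp.mapDomain_single (f := (base k : _ → Inst F Ω))]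
      rcases k with _ | _ | k
      · rw [D_base_zero, map_zero]
      · rw [D_base_succ, D_base_zero]
      · rw [D_base_succ, D_base_succ, Tr.delta_delta, Finsupp.mapDomain_zero]
    | cons φ o ih =>
      rw [← Finsupp.mapDomain_single (f := cons φ), D_cons, map_sub, map_neg, D_smul, D_cons, ih,
        Finsupp.mapDomain_zero, sub_zero, sub_self]

end Inst

variable [CharZero Ω]

theorem Ctx.valid_smul (C : Ctx F Ω) {o : Inst F Ω} (ho : C.Valid o) {φ : Module.End F Ω}
    (hφ : φ ∈ C.EE) : C.Valid (o.smul φ) := by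
  cases o with
  | base k b => exact C.bact k b ho φ hφ
  | cons ψ o => exact ⟨C.EE.mul_mem hφ ho.1, ho.2⟩

theorem Ctx.valid_DL (C : Ctx F Ω) {o : Inst F Ω} (ho : C.Valid o) {p : ℤ × Inst F Ω}
    (hp : p ∈ o.DL) : C.Valid p.2 := by
  induction o generalizing p with
  | base k b =>
    cases k with
    | zero => exact absurd hp (Multiset.notMem_zero p)
    | succ k =>
      rw [Inst.DL_base_succ_CoreA, Multiset.mem_map] at hp
      obtain ⟨q, hq, rfl⟩ := hp
      exact C.bface k b ho q hq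
  | cons φ o ih =>
    rw [Inst.DL_cons_CoreA, Multiset.mem_cons, Multiset.mem_map] at hp
    rcases hp with rfl | ⟨q, hq, rfl⟩
    · exact C.valid_smul ho.2 ho.1
    · exact ⟨ho.1, ih ho.2 hq⟩

theorem Ctx.valid_root (C : Ctx F Ω) {o : Inst F Ω} (ho : C.Valid o) :
    o.root.2 ∈ C.BB o.root.1 := by
  induction o with
  | base k b => exact ho
  | cons φ o ih => exact ih ho.2

theorem pE_qsmul {Γ : Type} (θ : Module.End F Ω) (q : ℕ) (c : ℚ) (x : Xq Γ Ω q) :
    pE θ q (c • x) = c • pE θ q x := by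
  exact map_rat_smul (pE θ q) c x

theorem dX_qsmul {Γ : Type} (q : ℕ) (c : ℚ) (x : Xq Γ Ω (q + 1)) :
    dX Ω q (c • x) = c • dX Ω q x := by
  exact map_rat_smul (dX Ω q) c x

omit [CharZero Ω] in
theorem VF_smul (H : HF F Ω) (φ : Module.End F Ω) (n : ℕ) (o : Inst F Ω) :
    VF H n (o.smul φ) = pE φ n (VF H n o) := by
  cases n with
  | zero =>
    cases o with
    | base k b =>
      cases k with
      | zero =>
        change red (cst 0 (fun γ => φ (b.val γ))) = push φ.toAddMonoidHom 0 (red (cst 0 b.val))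
        rw [push_red, push_cst]
        rfl
      | succ k => exact (map_zero (pE φ 0)).symm
    | cons ψ o => exact (map_zero (pE φ 0)).symm
  | succ n =>
    cases o with
    | base k b => exact (map_zero (pE φ (n + 1))).symm
    | cons ψ o => exact push_end_mul φ ψ (H n o)

theorem lc_UF_succ_CoreA (H : HF F Ω) (n : ℕ) (x : Inst F Ω →₀ ℚ) :
    Finsupp.linearCombination ℚ (UF H (n + 1)) x =
      Finsupp.linearCombination ℚ (VF H (n + 1)) x + HL H n (Inst.D x) := by
  induction x using Finsupp.induction_linear with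
  | zero => simp only [map_zero, add_zero]
  | add a b ha hb =>
    simp only [map_add, ha, hb]
    abel
  | single o c =>
    rw [Finsupp.linearCombination_single, Finsupp.linearCombination_single, Inst.D_single,
      map_smul, ← smul_add]
    rfl

omit [CharZero Ω] in
theorem D_sgnSum_DL_CoreA (o : Inst F Ω) : Inst.D (sgnSum o.DL) = 0 := by
  have h := Inst.D_D (Finsupp.single o (1 : ℚ))
  rwa [Inst.D_single, one_smul] at h

theorem lc_VF_base_CoreA (H : HF F Ω) (n k : ℕ) (x : Tr (G2 → Ω) k →₀ ℚ) :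
    Finsupp.linearCombination ℚ (VF H (n + 1)) (x.mapDomain (Inst.base k)) = 0 := by
  induction x using Finsupp.induction_linear with
  | zero => rw [Finsupp.mapDomain_zero, map_zero]
  | add a b ha hb => rw [Finsupp.mapDomain_add, map_add, ha, hb, add_zero]
  | single b c =>
    rw [Finsupp.mapDomain_single, Finsupp.linearCombination_single]
    exact smul_zero c

theorem lc_VF_cons_zero_CoreA (H : HF F Ω) (φ : Module.End F Ω) (x : Inst F Ω →₀ ℚ) :
    Finsupp.linearCombination ℚ (VF H 0) (x.mapDomain (Inst.cons φ)) = 0 := by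
  induction x using Finsupp.induction_linear with
  | zero => rw [Finsupp.mapDomain_zero, map_zero]
  | add a b ha hb => rw [Finsupp.mapDomain_add, map_add, ha, hb, add_zero]
  | single b c =>
    rw [Finsupp.mapDomain_single, Finsupp.linearCombination_single]
    exact smul_zero c

theorem lc_VF_cons_succ_CoreA (H : HF F Ω) (φ : Module.End F Ω) (n : ℕ) (x : Inst F Ω →₀ ℚ) :
    Finsupp.linearCombination ℚ (VF H (n + 1)) (x.mapDomain (Inst.cons φ)) =
      pE φ (n + 1) (HL H n x) := by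
  induction x using Finsupp.induction_linear with
  | zero => rw [Finsupp.mapDomain_zero, map_zero, map_zero, map_zero]
  | add a b ha hb => rw [Finsupp.mapDomain_add, map_add, ha, hb, map_add, map_add]
  | single b c =>
    rw [Finsupp.mapDomain_single, Finsupp.linearCombination_single, HL,
      Finsupp.linearCombination_single, pE_qsmul]
    rfl

theorem lc_VF_DL_cons_CoreA (H : HF F Ω) (φ : Module.End F Ω) (n : ℕ) (o : Inst F Ω) :
    Finsupp.linearCombination ℚ (VF H n) (sgnSum (Inst.cons φ o).DL) =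
      -pE φ n (VF H n o) -
        Finsupp.linearCombination ℚ (VF H n) ((sgnSum o.DL).mapDomain (Inst.cons φ)) := by
  rw [Inst.DL_cons_CoreA, sgnSum_cons, sgnSum_map_neg, map_add, map_neg,
    Finsupp.linearCombination_single, VF_smul, sub_eq_add_neg]
  simp

theorem UF_rel_cons_CoreA (H : HF F Ω) (φ : Module.End F Ω) (n : ℕ) (o : Inst F Ω) :
    pE φ n (UF H n o) +
      Finsupp.linearCombination ℚ (UF H n) (sgnSum (Inst.cons φ o).DL) = 0 := by
  cases n with
  | zero =>
    change pE φ 0 (VF H 0 o) +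
      Finsupp.linearCombination ℚ (VF H 0) (sgnSum (Inst.cons φ o).DL) = 0
    rw [lc_VF_DL_cons_CoreA, lc_VF_cons_zero_CoreA, sub_zero, add_neg_cancel]
  | succ n =>
    rw [lc_UF_succ_CoreA, D_sgnSum_DL_CoreA, map_zero, add_zero, lc_VF_DL_cons_CoreA,
      lc_VF_cons_succ_CoreA]
    change pE φ (n + 1) (VF H (n + 1) o + HL H n (sgnSum o.DL)) + _ = 0
    rw [map_add]
    abel

theorem UF_congr_CoreA {H H' : HF F Ω} (n : ℕ) (o : Inst F Ω) (h : ∀ m, m < n → H m = H' m) :
    UF H n o = UF H' n o := by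
  cases n with
  | zero =>
    cases o with
    | base k b => cases k <;> rfl
    | cons φ o => rfl
  | succ n =>
    have h1 := h n (Nat.lt_succ_self n)
    change VF H (n + 1) o + HL H n (sgnSum o.DL) = VF H' (n + 1) o + HL H' n (sgnSum o.DL)
    have h2 : HL H n = HL H' n := by rw [HL, HL, h1]
    have h3 : VF H (n + 1) o = VF H' (n + 1) o := by
      cases o with
      | base k b => rfl
      | cons φ o =>
        change pE φ (n + 1) (H n o) = pE φ (n + 1) (H' n o)
        rw [h1]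
    rw [h2, h3]

theorem UF_rel_base (H : HF F Ω) (n : ℕ) (b : Tr (G2 → Ω) (n + 1)) :
    Finsupp.linearCombination ℚ (UF H n) (sgnSum (Inst.base (n + 1) b : Inst F Ω).DL) = 0 := by
  cases n with
  | zero =>
    rw [linearCombination_sgnSum, Inst.DL_base_succ_CoreA, Multiset.map_map]
    exact Tr.aug_DT ((red : Xq G2 Ω 0 →+ Xq G2 Ω 0).comp (cst 0)) b
  | succ n =>
    rw [lc_UF_succ_CoreA, D_sgnSum_DL_CoreA, map_zero, add_zero, Inst.DL_base_succ_CoreA,
      sgnSum_map, lc_VF_base_CoreA]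

theorem UF_rel_cons (H : HF F Ω) (φ : Module.End F Ω) (o : Inst F Ω) :
    pE φ o.lev (UF H o.lev o) +
      Finsupp.linearCombination ℚ (UF H o.lev) (sgnSum (Inst.cons φ o).DL) = 0 := by
  exact UF_rel_cons_CoreA H φ o.lev o

theorem UF_congr {H H' : HF F Ω} (o : Inst F Ω) (h : ∀ n, n < o.lev → H n = H' n) :
    UF H o.lev o = UF H' o.lev o := by
  exact UF_congr_CoreA o.lev o h

/-- Reduced cycles with coefficients in a subring. -/
def cycs_CoreA (A : Subring Ω) (q : ℕ) : Submodule ℚ (Xq G2 Ω q) where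
  carrier := {c | c ∈ CR A q ∧ Cyc q c}
  zero_mem' := ⟨zero_mem _, Cyc.zero q⟩
  add_mem' ha hb := ⟨add_mem ha.1 hb.1, ha.2.add hb.2⟩
  smul_mem' c x hx := ⟨qsmul_mem_CR c hx.1, by
    cases q with
    | zero => trivial
    | succ q =>
      have h : dX Ω q x = 0 := hx.2
      change dX Ω q (c • x) = 0
      rw [dX_qsmul, h, smul_zero]⟩

/-- Boundaries of reduced chains with coefficients in a subring. -/
def bds_CoreA (A : Subring Ω) (q : ℕ) : Submodule ℚ (Xq G2 Ω q) where
  carrier := {c | ∃ y ∈ CR A (q + 1), c = dX Ω q y}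
  zero_mem' := ⟨0, zero_mem _, (map_zero _).symm⟩
  add_mem' := by
    rintro _ _ ⟨y, hy, rfl⟩ ⟨y', hy', rfl⟩
    exact ⟨y + y', add_mem hy hy', (map_add _ _ _).symm⟩
  smul_mem' := by
    rintro c _ ⟨y, hy, rfl⟩
    exact ⟨c • y, qsmul_mem_CR c hy, (dX_qsmul q c y).symm⟩

theorem exists_isCompl0 (F : Type u) [Field F] [CharZero F] [Algebra F Ω] :
    ∃ S : ∀ q, Submodule ℚ (Xq G2 Ω q), IsCompl0 F S := by
  have h : ∀ q, ∃ S : Submodule ℚ (Xq G2 Ω q),
      Disjoint (bds_CoreA (⊥ : Subalgebra F Ω).toSubring q ⊓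
        cycs_CoreA (⊥ : Subalgebra F Ω).toSubring q) S ∧
      (bds_CoreA (⊥ : Subalgebra F Ω).toSubring q ⊓
        cycs_CoreA (⊥ : Subalgebra F Ω).toSubring q) ⊔ S =
        cycs_CoreA (⊥ : Subalgebra F Ω).toSubring q := fun q =>
    IsModularLattice.exists_disjoint_and_sup_eq inf_le_right
  choose S hd hs using h
  have hle : ∀ q, S q ≤ cycs_CoreA (⊥ : Subalgebra F Ω).toSubring q := fun q =>
    (hs q) ▸ le_sup_right
  refine ⟨S, fun q s h => hle q h, fun q s h hb => ?_, fun q c hc hc' => ?_⟩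
  · have h1 := hle q h
    obtain ⟨y, hy, hy'⟩ := hb.exists_CR h1.1.2
    exact Submodule.disjoint_def.1 (hd q) s ⟨⟨y, hy, hy'.symm⟩, h1⟩ h
  · have h1 : c ∈ cycs_CoreA (⊥ : Subalgebra F Ω).toSubring q := ⟨hc, hc'⟩
    rw [← hs q, Submodule.mem_sup] at h1
    obtain ⟨x, ⟨⟨y, hy, rfl⟩, -⟩, s, hs', rfl⟩ := h1
    exact ⟨s, hs', y, hy, add_sub_cancel_right _ _⟩

end

end Pool.Agent.MP_e2821c_ag.Dg
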