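import Pool.Agent.Lib.MP_e2821c_ag.Dg.CoreA
import Pool.Agent.Lib.MP_e2821c_ag.Dg.HomOn

namespace Pool.Agent.MP_e2821c_ag.Dg

open MvPolynomial

universe u v w

noncomputable section

variable {F Ω : Type u} [Field F] [Field Ω] [Algebra F Ω]
variable [CharZero F] [CharZero Ω] {C : Ctx F Ω} {A : Inst F Ω → Subalgebra F Ω} {m : ℕ}
  {o o' o'' : Inst F Ω} {θ θ' : Module.End F Ω}

section Basic

omit [CharZero F] [CharZero Ω]

theorem gens_congr {A' : Inst F Ω → Subalgebra F Ω} (h : ∀ x, x.lev < o.lev → A x = A' x) :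
    Inst.gens A o = Inst.gens A' o := by
  cases o with
  | base k b => rfl
  | cons φ o => simp only [Inst.gens, h o (Nat.lt_succ_self _)]

theorem LL_congr {A' : Inst F Ω → Subalgebra F Ω} (h : ∀ x, x.lev < o.lev → A x = A' x) :
    Inst.LL A o = Inst.LL A' o := by
  unfold Inst.LL
  rw [gens_congr h]

theorem A0_congr {A' : Inst F Ω → Subalgebra F Ω} (h : ∀ x, x.lev < o.lev → A x = A' x) :
    Inst.A0 A o = Inst.A0 A' o := by
  unfold Inst.A0
  rw [gens_congr h]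
  congr 2
  ext x
  refine exists_congr fun p => and_congr_right fun hp => ?_
  rw [h p.2 (by have := Inst.lev_DL hp; omega)]

theorem Degen_congr {A' : Inst F Ω → Subalgebra F Ω} (h : ∀ x, x.lev < o.lev → A x = A' x) :
    Inst.Degen A o ↔ Inst.Degen A' o := by
  induction o with
  | base k b => exact Iff.rfl
  | cons φ o ih =>
    simp only [Inst.Degen]
    rw [ih fun x hx => h x (Nat.lt_succ_of_lt hx), h o (Nat.lt_succ_self _)]

theorem Tp_congr {A' : Inst F Ω → Subalgebra F Ω} (h : ∀ x, x.lev < o.lev → A x = A' x) :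
    Inst.Tp A o o' θ ↔ Inst.Tp A' o o' θ := by
  induction o generalizing o' θ with
  | base k b =>
    simp only [Inst.Tp]
    rw [LL_congr h]
  | cons φ o ih =>
    simp only [Inst.Tp]
    rw [LL_congr h, h o (Nat.lt_succ_self _)]
    refine and_congr_right fun _ => exists_congr fun φ' => exists_congr fun o₁ =>
      exists_congr fun η => ?_
    rw [ih fun x hx => h x (Nat.lt_succ_of_lt hx)]

theorem Inst.Tp.lev_eq (h : Inst.Tp A o o' θ) : o'.lev = o.lev := by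
  induction o generalizing o' θ with
  | base k b => rw [h.2, Inst.lev_smul]
  | cons φ o ih =>
    obtain ⟨-, φ', o₁, η, rfl, h1, -⟩ := h
    exact congrArg (· + 1) (ih h1)

theorem Inst.Tp.homOn (h : Inst.Tp A o o' θ) : HomOn θ (Inst.LL A o : Set Ω) := by
  cases o with
  | base k b => exact h.1
  | cons φ o => exact h.1

theorem Inst.Tp.refl (A : Inst F Ω → Subalgebra F Ω) (o : Inst F Ω) : Inst.Tp A o o 1 := by
  induction o with
  | base k b => exact ⟨homOn_one _, (Inst.smul_one _).symm⟩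
  | cons φ o ih => exact ⟨homOn_one _, φ, o, 1, rfl, ih, fun _ _ => rfl⟩

theorem Inst.Tp.congr (h : Inst.Tp A o o' θ) (he : ∀ x ∈ Inst.LL A o, θ x = θ' x) :
    Inst.Tp A o o' θ' := by
  cases o with
  | base k b =>
    refine ⟨h.1.congr he, h.2.trans (congrArg (Inst.base k) (tact_congr fun x hx => ?_))⟩
    exact he x (IntermediateField.subset_adjoin F _ hx)
  | cons φ o =>
    obtain ⟨h0, φ', o₁, η, rfl, h1, h2⟩ := h
    refine ⟨h0.congr he, φ', o₁, η, rfl, h1, fun a ha => ?_⟩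
    rw [← h2 a ha]
    exact (he _ (IntermediateField.subset_adjoin F _ ⟨a, ha, rfl⟩)).symm

theorem tp_cons_of_eqOn {φ φ' : Module.End F Ω} (h : ∀ a ∈ A o, φ a = φ' a) :
    Inst.Tp A (.cons φ o) (.cons φ' o) 1 := by
  exact ⟨homOn_one _, φ', o, 1, rfl, Inst.Tp.refl A o, h⟩

theorem tp_cons (φ : Module.End F Ω) (h : Inst.Tp A o o' 1) :
    Inst.Tp A (.cons φ o) (.cons φ o') 1 := by
  exact ⟨homOn_one _, φ, o', 1, rfl, h, fun _ _ => rfl⟩

theorem gens_smul_CoreB (A : Inst F Ω → Subalgebra F Ω) (φ : Module.End F Ω) (o : Inst F Ω) :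
    Inst.gens A (o.smul φ) = φ '' Inst.gens A o := by
  cases o with
  | base k b => exact vals_tact φ k b
  | cons ψ o =>
    simp only [Inst.smul, Inst.gens]
    rw [Set.image_image]
    rfl

theorem fg_faces_CoreB (s : Multiset (ℤ × Inst F Ω)) (h : ∀ p ∈ s, (A p.2).FG) :
    (Algebra.adjoin F {x | ∃ p ∈ s, x ∈ A p.2}).FG := by
  induction s using Multiset.induction_on with
  | empty => simpa using Subalgebra.fg_bot
  | cons p s ih =>
    have e : {x | ∃ q ∈ p ::ₘ s, x ∈ A q.2} = (A p.2 : Set Ω) ∪ {x | ∃ q ∈ s, x ∈ A q.2} := by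
      ext x
      simp
    rw [e, Algebra.adjoin_union, Algebra.adjoin_eq]
    exact Subalgebra.FG.sup (h p (Multiset.mem_cons_self _ _))
      (ih fun q hq => h q (Multiset.mem_cons_of_mem hq))

end Basic

theorem PreA.mono (hP : PreA C A m) {m' : ℕ} (h : m' ≤ m) : PreA C A m' := by
  exact ⟨fun o ho hl => hP.fg o ho (hl.trans_le h), fun o ho hl => hP.le_Oh o ho (hl.trans_le h),
    fun o ho hl => hP.le_LL o ho (hl.trans_le h), fun o ho hl => hP.gens_le o ho (hl.trans_le h),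
    fun o ho hl => hP.face_le o ho (hl.trans_le h),
    fun o o' θ ho ho' hl => hP.inv o o' θ ho ho' (hl.trans_le h)⟩

theorem PreA.adjoin_eq (hP : PreA C A m) (ho : C.Valid o) (hl : o.lev < m) :
    IntermediateField.adjoin F (A o : Set Ω) = Inst.LL A o := by
  exact le_antisymm (IntermediateField.adjoin_le_iff.2 fun x hx => hP.le_LL o ho hl hx)
    (IntermediateField.adjoin.mono _ _ _ (hP.gens_le o ho hl))

theorem PreA.LL_face (hP : PreA C A m) (ho : C.Valid o) (hl : o.lev ≤ m) {p : ℤ × Inst F Ω}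
    (hp : p ∈ o.DL) : Inst.LL A p.2 ≤ Inst.LL A o := by
  refine IntermediateField.adjoin_le_iff.2 ?_
  rcases o with ⟨_ | k, b⟩ | ⟨φ, o⟩
  · simp [Inst.DL] at hp
  · obtain ⟨q, hq, rfl⟩ := Multiset.mem_map.1 hp
    exact (vals_DT (F := F) hq).trans (IntermediateField.algebra_adjoin_le_adjoin F _)
  · have hl' : o.lev < m := hl
    refine Set.Subset.trans ?_ (IntermediateField.subset_adjoin F _)
    rcases Multiset.mem_cons.1 hp with rfl | hp
    · rw [gens_smul_CoreB]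
      exact Set.image_mono (hP.gens_le o ho.2 hl')
    · obtain ⟨q, hq, rfl⟩ := Multiset.mem_map.1 hp
      exact Set.image_mono (hP.face_le o ho.2 hl' q hq)

theorem PreA.A0_le_LL (hP : PreA C A m) (ho : C.Valid o) (hl : o.lev ≤ m) :
    Inst.A0 A o ≤ (Inst.LL A o).toSubalgebra := by
  refine Algebra.adjoin_le (Set.union_subset (IntermediateField.subset_adjoin F _) ?_)
  rintro x ⟨p, hp, hx⟩
  exact hP.LL_face ho hl hp
    (hP.le_LL p.2 (C.valid_DL ho hp) (by have := Inst.lev_DL hp; omega) hx)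

theorem PreA.A0_le_Oh (hP : PreA C A m) (ho : C.Valid o) (hl : o.lev ≤ m) :
    Inst.A0 A o ≤ C.Oh := by
  refine Algebra.adjoin_le (Set.union_subset ?_ ?_)
  · cases o with
    | base k b =>
      rintro x ⟨τ, hτ, γ, rfl⟩
      exact (C.beff k b ho τ hτ).2 γ
    | cons φ o =>
      rintro x ⟨a, ha, rfl⟩
      exact C.maps φ ho.1 a (hP.le_Oh o ho.2 hl ha)
  · rintro x ⟨p, hp, hx⟩
    exact hP.le_Oh p.2 (C.valid_DL ho hp) (by have := Inst.lev_DL hp; omega) hx

theorem PreA.A0_fg (hP : PreA C A m) (ho : C.Valid o) (hl : o.lev ≤ m) : (Inst.A0 A o).FG := by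
  unfold Inst.A0
  rw [Algebra.adjoin_union]
  refine Subalgebra.FG.sup ?_ (fg_faces_CoreB _ fun p hp =>
    hP.fg p.2 (C.valid_DL ho hp) (by have := Inst.lev_DL hp; omega))
  cases o with
  | base k b => exact fg_adjoin_vals fun τ hτ => (C.beff k b ho τ hτ).1
  | cons φ o =>
    exact ((C.hom φ ho.1).mono (hP.le_Oh o ho.2 hl)).fg_adjoin_image (hP.fg o ho.2 hl)

theorem PreA.image_gens (hP : PreA C A m) (ho : C.Valid o) (ho' : C.Valid o') (hl : o.lev ≤ m)
    (h : Inst.Tp A o o' θ) : θ '' Inst.gens A o = Inst.gens A o' := by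
  cases o with
  | base k b => rw [h.2, gens_smul_CoreB]
  | cons φ o =>
    obtain ⟨-, φ', o₁, η, rfl, h1, h2⟩ := h
    simp only [Inst.gens]
    rw [← hP.inv o o₁ η ho.2 ho'.2 hl h1, Set.image_image, Set.image_image]
    exact Set.image_congr h2

theorem PreA.image_LL (hP : PreA C A m) (ho : C.Valid o) (ho' : C.Valid o') (hl : o.lev ≤ m)
    (h : Inst.Tp A o o' θ) : θ '' (Inst.LL A o : Set Ω) = Inst.LL A o' := by
  unfold Inst.LL
  rw [HomOn.image_adjoin_field h.homOn, hP.image_gens ho ho' hl h]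

theorem PreA.tp_trans (hP : PreA C A m) (ho : C.Valid o) (ho' : C.Valid o') (hl : o.lev ≤ m)
    (h : Inst.Tp A o o' θ) (h' : Inst.Tp A o' o'' θ') : Inst.Tp A o o'' (θ' * θ) := by
  have hom : HomOn (θ' * θ : Module.End F Ω) (Inst.LL A o : Set Ω) :=
    h.homOn.mul h'.homOn fun x hx => hP.image_LL ho ho' hl h ▸ Set.mem_image_of_mem _ hx
  induction o generalizing o' o'' θ θ' with
  | base k b =>
    obtain ⟨-, rfl⟩ := h
    exact ⟨hom, h'.2.trans (Inst.smul_smul θ θ' (.base k b))⟩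
  | cons φ o ih =>
    obtain ⟨-, φ', o₁, η, rfl, h1, h2⟩ := h
    obtain ⟨-, φ'', o₂, η', rfl, h3, h4⟩ := h'
    have hl' : o.lev < m := hl
    refine ⟨hom, φ'', o₂, η' * η, rfl, ih ho.2 ho'.2 hl'.le h1 h3 (h1.homOn.mul h3.homOn
      fun x hx => hP.image_LL ho.2 ho'.2 hl'.le h1 ▸ Set.mem_image_of_mem _ hx), fun a ha => ?_⟩
    rw [Module.End.mul_apply, Module.End.mul_apply, h2 a ha]
    exact h4 _ (by
      have := Set.mem_image_of_mem η (show a ∈ (A o : Set Ω) from ha)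
      rwa [hP.inv o o₁ η ho.2 ho'.2 hl' h1] at this)

theorem PreA.tp_symm (hP : PreA C A m) (ho : C.Valid o) (ho' : C.Valid o') (hl : o.lev ≤ m)
    (h : Inst.Tp A o o' θ) :
    ∃ θ', Inst.Tp A o' o θ' ∧ (∀ x ∈ Inst.LL A o, θ' (θ x) = x) ∧
      ∀ x ∈ Inst.LL A o', θ (θ' x) = x := by
  induction o generalizing o' θ with
  | base k b =>
    obtain ⟨θ', h1, h2⟩ := h.homOn.exists_inv
    have hi := hP.image_LL ho ho' hl h
    rw [hi] at h2
    refine ⟨θ', ?_, h1, fun x hx => ?_⟩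
    · obtain ⟨-, rfl⟩ := h
      refine ⟨h2, ?_⟩
      refine ((Inst.smul_smul θ θ' (.base k b)).trans ?_).symm
      refine Eq.trans ?_ (Inst.smul_one (.base k b))
      exact congrArg (Inst.base k) (tact_congr fun x hx =>
        h1 x (IntermediateField.subset_adjoin F _ hx))
    · obtain ⟨y, hy, rfl⟩ : x ∈ θ '' (Inst.LL A (.base k b) : Set Ω) := hi ▸ hx
      rw [h1 y hy]
  | cons φ o ih =>
    obtain ⟨θ', h1, h2⟩ := h.homOn.exists_inv
    have hi := hP.image_LL ho ho' hl h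
    rw [hi] at h2
    refine ⟨θ', ?_, h1, fun x hx => ?_⟩
    · obtain ⟨-, φ', o₁, η, rfl, h3, h4⟩ := h
      have hl' : o.lev < m := hl
      obtain ⟨η', h5, h6, -⟩ := ih ho.2 ho'.2 hl'.le h3
      refine ⟨h2, φ, o, η', rfl, h5, fun a ha => ?_⟩
      obtain ⟨y, hy, rfl⟩ : a ∈ η '' (A o : Set Ω) := by
        rw [hP.inv o o₁ η ho.2 ho'.2 hl' h3]
        exact ha
      rw [← h4 y hy, h6 y (hP.le_LL o ho.2 hl' hy)]
      exact h1 _ (IntermediateField.subset_adjoin F _ ⟨y, hy, rfl⟩)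
    · obtain ⟨y, hy, rfl⟩ : x ∈ θ '' (Inst.LL A (.cons φ o) : Set Ω) := hi ▸ hx
      rw [h1 y hy]

theorem PreA.tp_DL (hP : PreA C A m) (ho : C.Valid o) (ho' : C.Valid o') (hl : o.lev ≤ m)
    (h : Inst.Tp A o o' θ) :
    Multiset.Rel (fun p p' => p.1 = p'.1 ∧ Inst.Tp A p.2 p'.2 θ) o.DL o'.DL := by
  induction o generalizing o' θ with
  | base k b =>
    have hh : ∀ p ∈ (Inst.base k b : Inst F Ω).DL, HomOn θ (Inst.LL A p.2 : Set Ω) :=
      fun p hp => h.homOn.mono (hP.LL_face ho hl hp)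
    rw [h.2, Inst.DL_smul, Multiset.rel_map_right]
    refine Multiset.rel_refl_of_refl_on fun p hp => ⟨rfl, ?_⟩
    have h1 := hh p hp
    rcases k with _ | k
    · simp [Inst.DL] at hp
    · obtain ⟨q, -, rfl⟩ := Multiset.mem_map.1 hp
      exact ⟨h1, rfl⟩
  | cons φ o ih =>
    have hh : ∀ p ∈ (Inst.cons φ o).DL, HomOn θ (Inst.LL A p.2 : Set Ω) :=
      fun p hp => h.homOn.mono (hP.LL_face ho hl hp)
    obtain ⟨-, φ', o₁, η, rfl, h1, h2⟩ := h
    have hl' : o.lev < m := hl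
    have hg := hP.gens_le o ho.2 hl'
    refine Multiset.Rel.cons ⟨rfl, ?_⟩ ?_
    · have h3 := hh _ (Multiset.mem_cons_self _ _)
      cases o with
      | base k b =>
        obtain ⟨-, rfl⟩ := h1
        refine ⟨h3, congrArg (Inst.base k) ?_⟩
        rw [tact_tact, tact_tact]
        exact tact_congr fun x hx => (h2 x (hg hx)).symm
      | cons ψ o =>
        obtain ⟨-, ψ', o₂, ζ, rfl, h4, h5⟩ := h1
        refine ⟨h3, φ' * ψ', o₂, ζ, rfl, h4, fun a ha => ?_⟩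
        rw [Module.End.mul_apply, Module.End.mul_apply, ← h5 a ha]
        exact h2 _ (hg ⟨a, ha, rfl⟩)
    · refine Multiset.rel_map.2 ((ih ho.2 ho'.2 hl'.le h1).mono fun p hp p' _ hr => ?_)
      refine ⟨congrArg Neg.neg hr.1, hh (-p.1, .cons φ p.2)
        (Multiset.mem_cons_of_mem (Multiset.mem_map_of_mem _ hp)), φ', p'.2, η, rfl, hr.2,
        fun a ha => h2 a (hP.face_le o ho.2 hl' p hp ha)⟩

theorem PreA.image_A0 (hP : PreA C A m) (ho : C.Valid o) (ho' : C.Valid o') (hl : o.lev ≤ m)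
    (h : Inst.Tp A o o' θ) : θ '' (Inst.A0 A o : Set Ω) = Inst.A0 A o' := by
  have hom : HomOn θ (Inst.A0 A o : Set Ω) := h.homOn.mono (hP.A0_le_LL ho hl)
  have hr := hP.tp_DL ho ho' hl h
  have hi : ∀ p ∈ o.DL, ∀ p' ∈ o'.DL, Inst.Tp A p.2 p'.2 θ → θ '' (A p.2 : Set Ω) = A p'.2 :=
    fun p hp p' hp' => hP.inv p.2 p'.2 θ (C.valid_DL ho hp) (C.valid_DL ho' hp')
      (by have := Inst.lev_DL hp; omega)
  unfold Inst.A0 at hom ⊢
  rw [hom.image_adjoin, Set.image_union, hP.image_gens ho ho' hl h]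
  congr 3
  apply Set.Subset.antisymm
  · rintro _ ⟨x, ⟨p, hp, hx⟩, rfl⟩
    obtain ⟨p', hp', -, ht⟩ := Multiset.exists_mem_of_rel_of_mem hr hp
    refine ⟨p', hp', ?_⟩
    have := Set.mem_image_of_mem θ (show x ∈ (A p.2 : Set Ω) from hx)
    rwa [hi p hp p' hp' ht] at this
  · rintro x ⟨p', hp', hx⟩
    obtain ⟨p, hp, -, ht⟩ := Multiset.exists_mem_of_rel_of_mem (Multiset.rel_flip.2 hr) hp'
    obtain ⟨y, hy, rfl⟩ : x ∈ θ '' (A p.2 : Set Ω) := by
      rw [hi p hp p' hp' ht]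
      exact hx
    exact ⟨y, ⟨p, hp, hy⟩, rfl⟩

theorem PreA.tp_smul (hP : PreA C A m) (ho : C.Valid o) (hl : o.lev < m) {φ : Module.End F Ω}
    (hφ : φ ∈ C.EE) (hi : Set.InjOn φ (A o : Set Ω)) :
    ∃ θ, Inst.Tp A o (o.smul φ) θ ∧ ∀ a ∈ A o, θ a = φ a := by
  obtain ⟨θ, h1, h2⟩ := ((C.hom φ hφ).mono (hP.le_Oh o ho hl)).exists_ext hi
  rw [hP.adjoin_eq ho hl] at h1
  have hg := hP.gens_le o ho hl
  refine ⟨θ, ?_, h2⟩
  cases o with
  | base k b =>
    exact ⟨h1, congrArg (Inst.base k) (tact_congr fun x hx => (h2 x (hg hx)).symm)⟩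
  | cons ψ o =>
    exact ⟨h1, φ * ψ, o, 1, rfl, Inst.Tp.refl A o, fun a ha => h2 _ (hg ⟨a, ha, rfl⟩)⟩

end

end Pool.Agent.MP_e2821c_ag.Dg
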