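import Pool.Agent.Lib.MP_e2821c_ag.Dg.CoreU

namespace Pool.Agent.MP_e2821c_ag.Dg

open MvPolynomial

universe u v w

noncomputable section

variable {F Ω : Type u} [Field F] [Field Ω] [Algebra F Ω]
variable [CharZero F] [CharZero Ω] {C : Ctx F Ω} {A : Inst F Ω → Subalgebra F Ω} {m : ℕ}
  {o o' o'' : Inst F Ω} {θ θ' : Module.End F Ω}
variable {S : ∀ q, Submodule ℚ (Xq G2 Ω q)} {H : HF F Ω}

omit [CharZero F] [CharZero Ω] in
theorem fg_adjoin_union_CoreC {ι : Type*} {T : Set ι} (hT : T.Finite) (s : ι → Set Ω)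
    (h : ∀ i ∈ T, (Algebra.adjoin F (s i)).FG) :
    (Algebra.adjoin F {x | ∃ i ∈ T, x ∈ s i}).FG := by
  induction T, hT using Set.Finite.induction_on with
  | empty =>
    have h0 : {x | ∃ i ∈ (∅ : Set ι), x ∈ s i} = ∅ := by ext x; simp
    rw [h0, Algebra.adjoin_empty]
    exact Subalgebra.fg_bot
  | @insert a T _ _ ih =>
    have h0 : {x | ∃ i ∈ insert a T, x ∈ s i} = s a ∪ {x | ∃ i ∈ T, x ∈ s i} := by
      ext x; simp
    rw [h0, Algebra.adjoin_union]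
    exact (h a (Set.mem_insert _ _)).sup (ih fun i hi => h i (Set.mem_insert_of_mem _ hi))

open Classical in
/-- The average of a finite set. -/
def avg_CoreC {V : Type u} [AddCommGroup V] [Module ℚ V] (Y : Set V) : V :=
  if h : Y.Finite then ((h.toFinset.card : ℚ)⁻¹) • ∑ z ∈ h.toFinset, z else 0

theorem avg_mem_CoreC {V : Type u} [AddCommGroup V] [Module ℚ V] {Y : Set V}
    (G : AddSubgroup V) (hG : ∀ (c : ℚ), ∀ x ∈ G, c • x ∈ G) (h : ∀ z ∈ Y, z ∈ G) :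
    avg_CoreC Y ∈ G := by
  unfold avg_CoreC
  split_ifs with hY
  · exact hG _ _ (sum_mem fun z hz => h z (hY.mem_toFinset.1 hz))
  · exact zero_mem _

theorem avg_eq_zero_CoreC {V : Type u} [AddCommGroup V] [Module ℚ V] {Y : Set V}
    (h : ∀ z ∈ Y, z = 0) : avg_CoreC Y = 0 := by
  have := avg_mem_CoreC (Y := Y) ⊥ (fun c x hx => by
    rw [AddSubgroup.mem_bot] at hx ⊢
    rw [hx, smul_zero]) (fun z hz => AddSubgroup.mem_bot.2 (h z hz))
  exact AddSubgroup.mem_bot.1 this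

theorem avg_sub_mem_CoreC {V W : Type u} [AddCommGroup V] [Module ℚ V] [AddCommGroup W]
    [Module ℚ W] {Y : Set V} (hY : Y.Finite) (hne : Y.Nonempty) (f : V →+ W) (x : W)
    (T : Submodule ℚ W) (h : ∀ z ∈ Y, x - f z ∈ T) : x - f (avg_CoreC Y) ∈ T := by
  have hc : (hY.toFinset.card : ℚ) ≠ 0 := by
    rw [Nat.cast_ne_zero, Finset.card_ne_zero]
    exact hY.toFinset_nonempty.2 hne
  have h1 : x - f (avg_CoreC Y) =
      ((hY.toFinset.card : ℚ)⁻¹) • ∑ z ∈ hY.toFinset, (x - f z) := by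
    rw [avg_CoreC, dif_pos hY, map_rat_smul, map_sum, Finset.sum_sub_distrib, smul_sub,
      Finset.sum_const, ← Nat.cast_smul_eq_nsmul ℚ, smul_smul, inv_mul_cancel₀ hc, one_smul]
  rw [h1]
  exact T.smul_mem _ (sum_mem fun z hz => h z (hY.mem_toFinset.1 hz))

theorem avg_map_CoreC {V : Type u} [AddCommGroup V] [Module ℚ V] {Y Y' : Set V}
    (hY : Y.Finite) (hY' : Y'.Finite) (f : V →+ V) (hb : Set.BijOn f Y Y') :
    f (avg_CoreC Y) = avg_CoreC Y' := by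
  have hb' : Set.BijOn f (hY.toFinset : Set V) (hY'.toFinset : Set V) := by
    simpa only [Set.Finite.coe_toFinset] using hb
  rw [avg_CoreC, avg_CoreC, dif_pos hY, dif_pos hY', map_rat_smul, map_sum,
    Finset.card_nbij f hb'.mapsTo hb'.injOn hb'.surjOn]
  congr 1
  exact Finset.sum_nbij f hb'.mapsTo hb'.injOn hb'.surjOn fun _ _ => rfl

theorem exists_fill_CoreC (hS : IsCompl0 F S) (hP : Pre C S A H m) (r : Inst F Ω) :
    ∃ (B : Subalgebra F Ω) (y : Xq G2 Ω (m + 1)), C.Valid r → r.lev = m → B.FG ∧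
      B ≤ (Inst.LL A r).toSubalgebra ∧
      (∀ o' θ, C.Valid o' → Inst.Tp A r o' θ → ∀ x ∈ B, θ x ∈ C.Oh) ∧
      y ∈ CR B.toSubring (m + 1) ∧ UF H m r - dX Ω m y ∈ S m ∧
      (UF H m r = 0 → y = 0) := by
  by_cases h : C.Valid r ∧ r.lev = m
  · obtain ⟨hr, rfl⟩ := h
    obtain ⟨B, y, h⟩ := hP.exists_fill hS hr le_rfl
    exact ⟨B, y, fun _ _ => h⟩
  · exact ⟨⊥, 0, fun h1 h2 => absurd ⟨h1, h2⟩ h⟩

theorem UF_inv_CoreC (hP : Pre C S A H m) (ho : C.Valid o) (ho' : C.Valid o') (hl : o.lev = m)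
    (h : Inst.Tp A o o' θ) : pE θ m (UF H m o) = UF H m o' := by
  subst hl
  exact hP.UF_inv ho ho' le_rfl h

theorem UF_degen_CoreC (hP : Pre C S A H m) (ho : C.Valid o) (hl : o.lev = m)
    (hd : Inst.Degen A o) : UF H m o = 0 := by
  subst hl
  exact hP.UF_degen ho le_rfl hd

theorem exists_rep_CoreC (hP : PreA C A m) : ∃ r : Inst F Ω → Inst F Ω,
    (∀ o, C.Valid o → C.Valid (r o) ∧ ∃ θ, Inst.Tp A (r o) o θ) ∧
    ∀ o o' η, C.Valid o → C.Valid o' → o.lev = m → Inst.Tp A o o' η → r o = r o' := by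
  have : Nonempty (Inst F Ω) := ⟨.base 0 (Tr.leaf 0)⟩
  refine ⟨fun o => Classical.epsilon fun r => C.Valid r ∧ ∃ θ, Inst.Tp A r o θ, ?_, ?_⟩
  · intro o ho
    exact Classical.epsilon_spec (p := fun r => C.Valid r ∧ ∃ θ, Inst.Tp A r o θ)
      ⟨o, ho, 1, Inst.Tp.refl A o⟩
  · intro o o' η ho ho' hl hη
    have h : (fun r => C.Valid r ∧ ∃ θ, Inst.Tp A r o θ) =
        fun r => C.Valid r ∧ ∃ θ, Inst.Tp A r o' θ := by
      funext r
      refine propext ⟨?_, ?_⟩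
      · rintro ⟨hr, θ, hθ⟩
        exact ⟨hr, _, hP.tp_trans hr ho (by rw [← hθ.lev_eq, hl]) hθ hη⟩
      · rintro ⟨hr, θ, hθ⟩
        obtain ⟨η', hη', -⟩ := hP.tp_symm ho ho' hl.le hη
        exact ⟨hr, _, hP.tp_trans hr ho' (by rw [← hθ.lev_eq, hη.lev_eq, hl]) hθ hη'⟩
    simp only [h]

theorem exists_new_CoreC (hS : IsCompl0 F S) (hP : Pre C S A H m) :
    ∃ (A₁ : Inst F Ω → Subalgebra F Ω) (H₁ : Inst F Ω → Xq G2 Ω (m + 1)),
      ∀ o, C.Valid o → o.lev = m → (A₁ o).FG ∧ A₁ o ≤ C.Oh ∧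
        A₁ o ≤ (Inst.LL A o).toSubalgebra ∧ Inst.A0 A o ≤ A₁ o ∧
        H₁ o ∈ CR (A₁ o).toSubring (m + 1) ∧ UF H m o - dX Ω m (H₁ o) ∈ S m ∧
        (Inst.Degen A o → H₁ o = 0) ∧
        ∀ o' η, C.Valid o' → Inst.Tp A o o' η →
          η '' (A₁ o : Set Ω) = A₁ o' ∧ pE η (m + 1) (H₁ o) = H₁ o' := by
  have hA : PreA C A m := hP.toPreA
  choose B y hBy using exists_fill_CoreC hS hP
  obtain ⟨r, hr, hrr⟩ := exists_rep_CoreC hA
  -- the sets used in the construction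
  let Z : Inst F Ω → Set Ω := fun o => {x | ∃ θ, Inst.Tp A (r o) o θ ∧ x ∈ θ '' (B (r o) : Set Ω)}
  let Y : Inst F Ω → Set (Xq G2 Ω (m + 1)) := fun o =>
    {z | ∃ θ, Inst.Tp A (r o) o θ ∧ z = pE θ (m + 1) (y (r o))}
  have hlev : ∀ o, C.Valid o → o.lev = m → (r o).lev = m := by
    intro o ho hl
    obtain ⟨θ, hθ⟩ := (hr o ho).2
    rw [← hθ.lev_eq, hl]
  have hZL : ∀ o, C.Valid o → o.lev = m → Z o ⊆ (Inst.LL A o : Set Ω) := by
    rintro o ho hl x ⟨θ, hθ, b, hb, rfl⟩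
    have hl' := hlev o ho hl
    rw [← hA.image_LL (hr o ho).1 ho hl'.le hθ]
    exact ⟨b, (hBy _ (hr o ho).1 hl').2.1 hb, rfl⟩
  have hA1L : ∀ o, C.Valid o → o.lev = m →
      Algebra.adjoin F ((Inst.A0 A o : Set Ω) ∪ Z o) ≤ (Inst.LL A o).toSubalgebra := by
    intro o ho hl
    exact Algebra.adjoin_le (Set.union_subset (hA.A0_le_LL ho hl.le) (hZL o ho hl))
  have hYmem : ∀ o, C.Valid o → o.lev = m → ∀ z ∈ Y o,
      z ∈ CR (Algebra.adjoin F ((Inst.A0 A o : Set Ω) ∪ Z o)).toSubring (m + 1) := by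
    rintro o ho hl z ⟨θ, hθ, rfl⟩
    have hl' := hlev o ho hl
    obtain ⟨-, h2, -, h4, -⟩ := hBy _ (hr o ho).1 hl'
    refine push_mem_CR_of_homOn (A := (B (r o)).toSubring) ?_ ?_ h4
    · exact hθ.homOn.mono fun x hx => h2 hx
    · intro a ha
      exact Algebra.subset_adjoin (Or.inr ⟨θ, hθ, a, ha, rfl⟩)
  have hfin : ∀ o, C.Valid o → o.lev = m → ∃ T : Set (Module.End F Ω), T.Finite ∧
      (∀ θ ∈ T, Inst.Tp A (r o) o θ) ∧
      ∀ θ, Inst.Tp A (r o) o θ → ∃ θ' ∈ T, ∀ x ∈ B (r o), θ x = θ' x := by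
    intro o ho hl
    have hl' := hlev o ho hl
    obtain ⟨Θ, hΘ, -, h3⟩ := hA.finite_tp (hr o ho).1 hl'.le
    refine ⟨{θ ∈ Θ | Inst.Tp A (r o) o θ}, hΘ.subset fun _ h => h.1, fun _ h => h.2, ?_⟩
    intro θ hθ
    obtain ⟨θ', h1, h2⟩ := h3 o θ ho hθ
    exact ⟨θ', ⟨h1, hθ.congr h2⟩, fun x hx => h2 x ((hBy _ (hr o ho).1 hl').2.1 hx)⟩
  have hYfin : ∀ o, C.Valid o → o.lev = m → (Y o).Finite := by
    intro o ho hl
    have hl' := hlev o ho hl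
    obtain ⟨T, hT, -, h3⟩ := hfin o ho hl
    refine (hT.image fun θ => pE θ (m + 1) (y (r o))).subset ?_
    rintro z ⟨θ, hθ, rfl⟩
    obtain ⟨θ', h1, h2⟩ := h3 θ hθ
    refine ⟨θ', h1, ?_⟩
    exact (push_congr (A := (B (r o)).toSubring) (fun a ha => h2 a ha)
      (hBy _ (hr o ho).1 hl').2.2.2.1.1).symm
  -- a transport maps the sets into each other
  have hZmap : ∀ o o' η, C.Valid o → C.Valid o' → o.lev = m → Inst.Tp A o o' η →
      ∀ x ∈ Z o, η x ∈ Z o' := by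
    rintro o o' η ho ho' hl hη x ⟨θ, hθ, b, hb, rfl⟩
    have h1 := hA.tp_trans (hr o ho).1 ho (hlev o ho hl).le hθ hη
    have h2 := hrr o o' η ho ho' hl hη
    refine ⟨η * θ, h2 ▸ h1, b, h2 ▸ hb, rfl⟩
  have hYmap : ∀ o o' η, C.Valid o → C.Valid o' → o.lev = m → Inst.Tp A o o' η →
      ∀ z ∈ Y o, pE η (m + 1) z ∈ Y o' := by
    rintro o o' η ho ho' hl hη z ⟨θ, hθ, rfl⟩
    have h1 := hA.tp_trans (hr o ho).1 ho (hlev o ho hl).le hθ hη
    have h2 := hrr o o' η ho ho' hl hη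
    refine ⟨η * θ, h2 ▸ h1, ?_⟩
    rw [← h2]
    exact (push_end_mul η θ _).symm
  have hYinv : ∀ o, C.Valid o → o.lev = m → ∀ η η' : Module.End F Ω,
      (∀ x ∈ Inst.LL A o, η' (η x) = x) → ∀ z ∈ Y o, pE η' (m + 1) (pE η (m + 1) z) = z := by
    intro o ho hl η η' h z hz
    refine (push_end_mul η' η z).symm.trans ?_
    exact push_eq_self_of_mem (fun a ha => h a (hA1L o ho hl ha)) (hYmem o ho hl z hz).1
  refine ⟨fun o => Algebra.adjoin F ((Inst.A0 A o : Set Ω) ∪ Z o), fun o => avg_CoreC (Y o), ?_⟩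
  intro o ho hl
  have hl' := hlev o ho hl
  obtain ⟨hB1, hB2, hB3, hB4, hB5, hB6⟩ := hBy _ (hr o ho).1 hl'
  refine ⟨?_, ?_, hA1L o ho hl, fun x hx => Algebra.subset_adjoin (Or.inl hx), ?_, ?_, ?_, ?_⟩
  · obtain ⟨T, hT, h2, h3⟩ := hfin o ho hl
    have hZ : Z o = {x | ∃ θ ∈ T, x ∈ θ '' (B (r o) : Set Ω)} := by
      ext x
      constructor
      · rintro ⟨θ, hθ, b, hb, rfl⟩
        obtain ⟨θ', h4, h5⟩ := h3 θ hθ
        exact ⟨θ', h4, b, hb, (h5 b hb).symm⟩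
      · rintro ⟨θ, hθ, hx⟩
        exact ⟨θ, h2 θ hθ, hx⟩
    change (Algebra.adjoin F ((Inst.A0 A o : Set Ω) ∪ Z o)).FG
    rw [Algebra.adjoin_union, Algebra.adjoin_eq, hZ]
    refine (hA.A0_fg ho hl.le).sup (fg_adjoin_union_CoreC hT _ fun θ hθ => ?_)
    exact ((h2 θ hθ).homOn.mono fun x hx => hB2 hx).fg_adjoin_image hB1
  · refine Algebra.adjoin_le (Set.union_subset (hA.A0_le_Oh ho hl.le) ?_)
    rintro x ⟨θ, hθ, b, hb, rfl⟩
    exact hB3 o θ ho hθ b hb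
  · exact avg_mem_CoreC _ (fun c x hx => qsmul_mem_CR c hx) (hYmem o ho hl)
  · obtain ⟨θ₀, hθ₀⟩ := (hr o ho).2
    refine avg_sub_mem_CoreC (hYfin o ho hl) ⟨_, θ₀, hθ₀, rfl⟩ (dX Ω m) _ (S m) ?_
    rintro z ⟨θ, hθ, rfl⟩
    have h1 := UF_inv_CoreC hP (hr o ho).1 ho hl' hθ
    have h2 : pE θ m (UF H m (r o) - dX Ω m (y (r o))) = UF H m (r o) - dX Ω m (y (r o)) :=
      push_end_bot hθ.homOn.1 (hS.le m _ hB5).1.1
    rw [← h1, ← push_dX, ← map_sub, h2]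
    exact hB5
  · intro hd
    obtain ⟨θ₀, hθ₀⟩ := (hr o ho).2
    obtain ⟨θ₁, hθ₁, -⟩ := hA.tp_symm (hr o ho).1 ho hl'.le hθ₀
    have h1 := UF_inv_CoreC hP ho (hr o ho).1 hl hθ₁
    rw [UF_degen_CoreC hP ho hl hd, map_zero] at h1
    refine avg_eq_zero_CoreC ?_
    rintro z ⟨θ, -, rfl⟩
    rw [hB6 h1.symm, map_zero]
  · intro o' η ho' hη
    have hlo' : o'.lev = m := hη.lev_eq.trans hl
    obtain ⟨η', hη', h1, h2⟩ := hA.tp_symm ho ho' hl.le hη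
    constructor
    · have h3 : η '' Z o = Z o' := by
        apply Set.Subset.antisymm
        · rintro _ ⟨x, hx, rfl⟩
          exact hZmap o o' η ho ho' hl hη x hx
        · intro x hx
          exact ⟨η' x, hZmap o' o η' ho' ho hlo' hη' x hx, h2 x (hZL o' ho' hlo' hx)⟩
      change η '' (Algebra.adjoin F ((Inst.A0 A o : Set Ω) ∪ Z o) : Set Ω) =
        (Algebra.adjoin F ((Inst.A0 A o' : Set Ω) ∪ Z o') : Set Ω)
      rw [HomOn.image_adjoin (hη.homOn.mono fun x hx => hA1L o ho hl hx), Set.image_union,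
        hA.image_A0 ho ho' hl.le hη, h3]
    · refine avg_map_CoreC (hYfin o ho hl) (hYfin o' ho' hlo') (pE η (m + 1)) ?_
      refine Set.InvOn.bijOn (f' := pE η' (m + 1)) ⟨?_, ?_⟩ ?_ ?_
      · exact fun z hz => hYinv o ho hl η η' h1 z hz
      · exact fun z hz => hYinv o' ho' hlo' η' η h2 z hz
      · exact fun z hz => hYmap o o' η ho ho' hl hη z hz
      · exact fun z hz => hYmap o' o η' ho' ho hlo' hη' z hz

theorem Pre.step (hS : IsCompl0 F S) (hP : Pre C S A H m) :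
    ∃ A' H', Pre C S A' H' (m + 1) := by
  classical
  have hA : PreA C A m := hP.toPreA
  obtain ⟨A₁, H₁, h⟩ := exists_new_CoreC hS hP
  obtain ⟨A', hA1, hA2⟩ : ∃ A' : Inst F Ω → Subalgebra F Ω,
      (∀ o, o.lev = m → A' o = A₁ o) ∧ ∀ o, o.lev < m → A' o = A o :=
    ⟨fun o => if o.lev = m then A₁ o else A o, fun o ho => if_pos ho, fun o ho => if_neg ho.ne⟩
  obtain ⟨H', hH1, hH2⟩ : ∃ H' : HF F Ω, H' m = H₁ ∧ ∀ n, n < m → H' n = H n :=
    ⟨Function.update H m H₁, Function.update_self _ _ _,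
      fun n hn => Function.update_of_ne hn.ne _ _⟩
  have hc : ∀ o : Inst F Ω, o.lev < m + 1 → ∀ x : Inst F Ω, x.lev < o.lev → A' x = A x :=
    fun o ho x hx => hA2 x (by omega)
  have hU : ∀ o : Inst F Ω, o.lev < m + 1 → UF H' o.lev o = UF H o.lev o :=
    fun o ho => UF_congr o fun n hn => hH2 n (by omega)
  refine ⟨A', H', ⟨?_, ?_, ?_, ?_, ?_, ?_⟩, ?_, ?_, ?_, ?_⟩
  · intro o ho hl
    rcases Nat.lt_succ_iff_lt_or_eq.1 hl with hl' | hl'
    · rw [hA2 o hl']; exact hA.fg o ho hl'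
    · rw [hA1 o hl']; exact (h o ho hl').1
  · intro o ho hl
    rcases Nat.lt_succ_iff_lt_or_eq.1 hl with hl' | hl'
    · rw [hA2 o hl']; exact hA.le_Oh o ho hl'
    · rw [hA1 o hl']; exact (h o ho hl').2.1
  · intro o ho hl
    rw [LL_congr (hc o hl)]
    rcases Nat.lt_succ_iff_lt_or_eq.1 hl with hl' | hl'
    · rw [hA2 o hl']; exact hA.le_LL o ho hl'
    · rw [hA1 o hl']; exact (h o ho hl').2.2.1
  · intro o ho hl
    rw [gens_congr (hc o hl)]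
    rcases Nat.lt_succ_iff_lt_or_eq.1 hl with hl' | hl'
    · rw [hA2 o hl']; exact hA.gens_le o ho hl'
    · rw [hA1 o hl']
      exact fun x hx => (h o ho hl').2.2.2.1 (Algebra.subset_adjoin (Or.inl hx))
  · intro o ho hl p hp
    have hp' := Inst.lev_DL hp
    rw [hA2 p.2 (by omega)]
    rcases Nat.lt_succ_iff_lt_or_eq.1 hl with hl' | hl'
    · rw [hA2 o hl']; exact hA.face_le o ho hl' p hp
    · rw [hA1 o hl']
      exact fun x hx => (h o ho hl').2.2.2.1 (Algebra.subset_adjoin (Or.inr ⟨p, hp, hx⟩))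
  · intro o o' θ ho ho' hl hθ
    rw [Tp_congr (hc o hl)] at hθ
    have hl2 := hθ.lev_eq
    rcases Nat.lt_succ_iff_lt_or_eq.1 hl with hl' | hl'
    · rw [hA2 o hl', hA2 o' (by omega)]; exact hA.inv o o' θ ho ho' hl' hθ
    · rw [hA1 o hl', hA1 o' (by omega)]
      exact ((h o ho hl').2.2.2.2.2.2.2 o' θ ho' hθ).1
  · intro o ho hl
    rcases Nat.lt_succ_iff_lt_or_eq.1 hl with hl' | hl'
    · rw [hA2 o hl', hH2 _ hl']; exact hP.mem o ho hl'
    · rw [hA1 o hl']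
      subst hl'
      rw [hH1]
      exact (h o ho rfl).2.2.2.2.1
  · intro o ho hl
    rw [hU o hl]
    rcases Nat.lt_succ_iff_lt_or_eq.1 hl with hl' | hl'
    · rw [hH2 _ hl']; exact hP.bd o ho hl'
    · subst hl'
      rw [hH1]
      exact (h o ho rfl).2.2.2.2.2.1
  · intro o o' θ ho ho' hl hθ
    rw [Tp_congr (hc o hl)] at hθ
    rcases Nat.lt_succ_iff_lt_or_eq.1 hl with hl' | hl'
    · rw [hH2 _ hl']; exact hP.invH o o' θ ho ho' hl' hθ
    · subst hl'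
      rw [hH1]
      exact ((h o ho rfl).2.2.2.2.2.2.2 o' θ ho' hθ).2
  · intro o ho hl hd
    rw [Degen_congr (hc o hl)] at hd
    rcases Nat.lt_succ_iff_lt_or_eq.1 hl with hl' | hl'
    · rw [hH2 _ hl']; exact hP.degen o ho hl' hd
    · subst hl'
      rw [hH1]
      exact (h o ho rfl).2.2.2.2.2.2.1 hd

theorem exists_pre (C : Ctx F Ω) (m : ℕ) :
    ∃ S A H, IsCompl0 F S ∧ Pre C S A H m := by
  obtain ⟨S, hS⟩ := exists_isCompl0 (Ω := Ω) F
  refine ⟨S, ?_⟩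
  induction m with
  | zero =>
    refine ⟨fun _ => ⊥, fun _ _ => 0, hS, ⟨?_, ?_, ?_, ?_, ?_, ?_⟩, ?_, ?_, ?_, ?_⟩ <;>
      intros <;> omega
  | succ m ih =>
    obtain ⟨A, H, -, hP⟩ := ih
    obtain ⟨A', H', hP'⟩ := hP.step hS
    exact ⟨A', H', hS, hP'⟩

end

end Pool.Agent.MP_e2821c_ag.Dg
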