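import Pool.Agent.Lib.MP_e2821c_ag.Dg.CoreB

namespace Pool.Agent.MP_e2821c_ag.Dg

open MvPolynomial

universe u v w

noncomputable section

variable {F Ω : Type u} [Field F] [Field Ω] [Algebra F Ω]
variable [CharZero F] [CharZero Ω] {C : Ctx F Ω} {A : Inst F Ω → Subalgebra F Ω} {m : ℕ}
  {o o' o'' : Inst F Ω} {θ θ' : Module.End F Ω}

theorem exists_rep_CoreF {α β : Type*} {S : Set α} (g : α → β) (hg : (g '' S).Finite)
    (E : α → α → Prop) (h : ∀ a ∈ S, ∀ b ∈ S, g a = g b → E a b) :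
    ∃ Θ : Set α, Θ.Finite ∧ (∀ a ∈ Θ, a ∈ S) ∧ ∀ a ∈ S, ∃ b ∈ Θ, E a b := by
  obtain ⟨t, ht, hf, he⟩ := hg.exists_subset_finite_image_eq subset_rfl
  refine ⟨t, hf, ht, fun a ha => ?_⟩
  obtain ⟨b, hb, hab⟩ : g a ∈ g '' t := he ▸ Set.mem_image_of_mem g ha
  exact ⟨b, hb, h a ha b (ht hb) hab.symm⟩

theorem mapDomain_sgnSum_mem_CoreF {α β : Type u} (f : α → β) (N : Submodule ℚ (β →₀ ℚ))
    (s : Multiset (ℤ × α)) (h : ∀ p ∈ s, Finsupp.single (f p.2) (1 : ℚ) ∈ N) :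
    (sgnSum s).mapDomain f ∈ N := by
  induction s using Multiset.induction_on with
  | empty => rw [sgnSum_zero, Finsupp.mapDomain_zero]; exact N.zero_mem
  | cons p s ih =>
    rw [sgnSum_cons, Finsupp.mapDomain_add, Finsupp.mapDomain_single]
    refine N.add_mem ?_ (ih fun q hq => h q (Multiset.mem_cons_of_mem hq))
    simpa using N.smul_mem (p.1 : ℚ) (h p (Multiset.mem_cons_self p s))

omit [CharZero F] in
theorem PreA.eq_of_tp_one_CoreF (hP : PreA C A m) (ho : C.Valid o) (ho' : C.Valid o')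
    (hl : o.lev < m) (h : Inst.Tp A o o' 1) : A o = A o' := by
  have := hP.inv o o' 1 ho ho' hl h
  apply SetLike.coe_injective
  simpa using this

omit [CharZero F] in
theorem single_mem_CoreF {P : Inst F Ω → Prop} {n : ℕ} (ho : C.Valid o) (hn : o.lev = n)
    (hd : Inst.Degen A o ∨ P o) : Finsupp.single o (1 : ℚ) ∈ NullSpan C A P n :=
  Submodule.subset_span (Or.inl ⟨o, ho, hn, hd, rfl⟩)

theorem PreA.finite_classes (hP : PreA C A m) {n : ℕ} (hn : n ≤ m) :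
    ∃ R : Set (Inst F Ω), R.Finite ∧ (∀ r ∈ R, C.Valid r ∧ r.lev = n) ∧
      ∀ o, C.Valid o → o.lev = n → ∃ r ∈ R, Inst.Tp A o r 1 := by
  induction n with
  | zero =>
    refine ⟨Inst.base 0 '' C.BB 0, (C.fin 0).image _, ?_, ?_⟩
    · rintro _ ⟨b, hb, rfl⟩
      exact ⟨hb, rfl⟩
    · rintro (⟨k, b⟩ | ⟨φ, o⟩) ho hl
      · obtain rfl : k = 0 := hl
        exact ⟨_, ⟨b, ho, rfl⟩, Inst.Tp.refl A _⟩
      · exact absurd hl (Nat.succ_ne_zero _)
  | succ n ih =>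
    obtain ⟨R, hR, hv, hc⟩ := ih (Nat.le_of_succ_le hn)
    have hΦ : ∀ r ∈ R, ∃ Φ : Set (Module.End F Ω), Φ.Finite ∧ (∀ φ ∈ Φ, φ ∈ C.EE) ∧
        ∀ φ ∈ C.EE, ∃ φ' ∈ Φ, ∀ a ∈ A r, φ a = φ' a := fun r hr =>
      C.finres (A r) (hP.fg r (hv r hr).1 ((hv r hr).2 ▸ hn))
        (hP.le_Oh r (hv r hr).1 ((hv r hr).2 ▸ hn))
    choose! Φ h1 h2 h3 using hΦ
    refine ⟨Inst.base (n + 1) '' C.BB (n + 1) ∪ ⋃ r ∈ R, (fun φ => Inst.cons φ r) '' Φ r,
      ((C.fin _).image _).union (hR.biUnion fun r hr => (h1 r hr).image _), ?_, ?_⟩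
    · rintro _ (⟨b, hb, rfl⟩ | h)
      · exact ⟨hb, rfl⟩
      · obtain ⟨r, hr, φ, hφ, rfl⟩ := Set.mem_iUnion₂.1 h
        exact ⟨⟨h2 r hr φ hφ, (hv r hr).1⟩, congrArg (· + 1) (hv r hr).2⟩
    · rintro (⟨k, b⟩ | ⟨φ, o⟩) ho hl
      · obtain rfl : k = n + 1 := hl
        exact ⟨_, Or.inl ⟨b, ho, rfl⟩, Inst.Tp.refl A _⟩
      · have hl' : o.lev = n := Nat.succ_injective hl
        obtain ⟨r, hr, ht⟩ := hc o ho.2 hl'
        obtain ⟨φ', hφ', he⟩ := h3 r hr φ ho.1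
        have hA := hP.eq_of_tp_one_CoreF ho.2 (hv r hr).1 (hl' ▸ hn) ht
        exact ⟨.cons φ' r, Or.inr (Set.mem_iUnion₂.2 ⟨r, hr, φ', hφ', rfl⟩), homOn_one _,
          φ', r, 1, rfl, ht, fun a ha => he a (hA ▸ ha)⟩

theorem PreA.finite_A (hP : PreA C A m) :
    {B | ∃ o, C.Valid o ∧ o.lev < m ∧ B = A o}.Finite := by
  choose! R h1 h2 h3 using fun n (hn : n ≤ m) => hP.finite_classes hn
  refine ((Set.finite_lt_nat m).biUnion fun n hn => (h1 n (le_of_lt hn)).image A).subset ?_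
  rintro _ ⟨o, ho, hl, rfl⟩
  obtain ⟨r, hr, ht⟩ := h3 _ hl.le o ho rfl
  exact Set.mem_iUnion₂.2 ⟨o.lev, hl, r, hr,
    (hP.eq_of_tp_one_CoreF ho (h2 _ hl.le r hr).1 hl ht).symm⟩

theorem PreA.finite_tp (hP : PreA C A m) (ho : C.Valid o) (hl : o.lev ≤ m) :
    ∃ Θ : Set (Module.End F Ω), Θ.Finite ∧ (∀ θ ∈ Θ, ∃ o', C.Valid o' ∧ Inst.Tp A o o' θ) ∧
      ∀ o' θ, C.Valid o' → Inst.Tp A o o' θ → ∃ θ' ∈ Θ, ∀ x ∈ Inst.LL A o, θ x = θ' x := by
  suffices h : ∃ Θ : Set (Module.End F Ω), Θ.Finite ∧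
      (∀ θ ∈ Θ, θ ∈ {θ | ∃ o', C.Valid o' ∧ Inst.Tp A o o' θ}) ∧
      ∀ θ ∈ {θ | ∃ o', C.Valid o' ∧ Inst.Tp A o o' θ}, ∃ θ' ∈ Θ,
        ∀ x ∈ Inst.LL A o, θ x = θ' x by
    obtain ⟨Θ, h1, h2, h3⟩ := h
    exact ⟨Θ, h1, h2, fun o' θ ho' ht => h3 θ ⟨o', ho', ht⟩⟩
  induction o with
  | base k b =>
    refine exists_rep_CoreF
      (fun (θ : Module.End F Ω) (τ : {τ // τ ∈ Tr.leaves k b}) (γ : G2) => θ (τ.1 γ)) ?_ _ ?_
    · have hf : (⋃ b' ∈ C.BB k, {τ | τ ∈ Tr.leaves k b'}).Finite :=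
        (C.fin k).biUnion fun b' _ => Multiset.finite_toSet _
      have : Finite {τ // τ ∈ Tr.leaves k b} := Multiset.finite_toSet _
      refine (Set.Finite.pi' fun _ => hf).subset ?_
      rintro _ ⟨θ, ⟨o', ho', -, rfl⟩, rfl⟩ τ
      refine Set.mem_iUnion₂.2 ⟨tact θ k b, ho', ?_⟩
      rw [tact, Set.mem_ofPred_eq, Tr.leaves_map]
      exact Multiset.mem_map_of_mem _ τ.2
    · rintro θ ⟨o₁, -, h₁⟩ θ' ⟨o₂, -, h₂⟩ he
      refine HomOn.eqOn_adjoin_field h₁.1 h₂.1 ?_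
      rintro _ ⟨τ, hτ, γ, rfl⟩
      exact congrFun (congrFun he ⟨τ, hτ⟩) γ
  | cons φ o ih =>
    have hl' : o.lev < m := hl
    obtain ⟨Θ, h1, h2, h3⟩ := ih ho.2 hl'.le
    have hΦ : ∀ η ∈ Θ, ∃ Φ : Set (Module.End F Ω), Φ.Finite ∧
        ∀ ψ ∈ C.EE, ∃ ψ' ∈ Φ, ∀ a ∈ A o, ψ (η a) = ψ' (η a) := by
      intro η hη
      obtain ⟨o', ho', ht⟩ := h2 η hη
      have hl'' : o'.lev < m := ht.lev_eq ▸ hl'
      obtain ⟨Φ, h4, -, h5⟩ := C.finres (A o') (hP.fg o' ho' hl'') (hP.le_Oh o' ho' hl'')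
      refine ⟨Φ, h4, fun ψ hψ => ?_⟩
      obtain ⟨ψ', hψ', he⟩ := h5 ψ hψ
      refine ⟨ψ', hψ', fun a ha => he _ ?_⟩
      have h6 : η a ∈ η '' (A o : Set Ω) := Set.mem_image_of_mem η ha
      rwa [hP.inv o o' η ho.2 ho' hl' ht] at h6
    choose! Φ h4 h5 using hΦ
    refine exists_rep_CoreF (fun (θ : Module.End F Ω) (a : A o) => θ (φ a)) ?_ _ ?_
    · refine (h1.biUnion fun η hη => (h4 η hη).image
        fun (ψ : Module.End F Ω) (a : A o) => ψ (η a)).subset ?_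
      rintro _ ⟨θ, ⟨_, ho', -, φ', o', η, rfl, ht, he⟩, rfl⟩
      obtain ⟨η', hη', he'⟩ := h3 η ⟨o', ho'.2, ht⟩
      obtain ⟨ψ, hψ, he''⟩ := h5 η' hη' φ' ho'.1
      refine Set.mem_iUnion₂.2 ⟨η', hη', ψ, hψ, funext fun a => ?_⟩
      simp only
      rw [he a a.2, he' a (hP.le_LL o ho.2 hl' a.2), he'' a a.2]
    · rintro θ ⟨o₁, -, h₁⟩ θ' ⟨o₂, -, h₂⟩ he
      refine HomOn.eqOn_adjoin_field h₁.1 h₂.1 ?_
      rintro _ ⟨a, ha, rfl⟩
      exact congrFun he ⟨a, ha⟩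

theorem PreA.rk_le (hP : PreA C A m) (ho : C.Valid o) (hl : o.lev ≤ m) (hd : ¬ Inst.Degen A o) :
    ¬ Tr.TDeg o.root.1 o.root.2 ∧
      rk F (Inst.LL A o : Set Ω) + o.len ≤ rk F (vals o.root.1 o.root.2) := by
  induction o with
  | base k b =>
    refine ⟨hd, ?_⟩
    simp only [Inst.LL, Inst.gens, Inst.len, Inst.root, rk_adjoin_field, Nat.cast_zero, add_zero,
      le_refl]
  | cons φ o ih =>
    have hl' : o.lev < m := hl
    obtain ⟨h1, h2⟩ := not_or.1 hd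
    obtain ⟨h3, h4⟩ := ih ho.2 hl'.le h1
    refine ⟨h3, le_trans ?_ h4⟩
    have h5 := (rk_drop ((C.hom φ ho.1).mono (hP.le_Oh o ho.2 hl')) h2).trans
      (rk_mono (hP.le_LL o ho.2 hl'))
    have h6 : rk F (Inst.LL A (.cons φ o) : Set Ω) = rk F (φ '' (A o : Set Ω)) :=
      rk_adjoin_field _
    have h7 : ((Inst.cons φ o).len : ℕ∞) = 1 + o.len := by
      simp only [Inst.len, Nat.cast_add, Nat.cast_one, add_comm]
    rw [h6, h7, ← add_assoc]
    exact add_le_add h5 le_rfl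

omit [CharZero F] in
theorem NullSpan_mono {P P' : Inst F Ω → Prop} {n : ℕ}
    (h : ∀ o, C.Valid o → o.lev = n → P o → P' o) : NullSpan C A P n ≤ NullSpan C A P' n := by
  refine Submodule.span_mono ?_
  rintro x (⟨o, ho, hn, hd, rfl⟩ | hx)
  · exact Or.inl ⟨o, ho, hn, hd.imp_right (h o ho hn), rfl⟩
  · exact Or.inr hx

omit [CharZero F] in
theorem NullSpan_cons {P P' : Inst F Ω → Prop} {n : ℕ} {φ : Module.End F Ω} (hφ : φ ∈ C.EE)
    (h : ∀ o, C.Valid o → o.lev = n → P o → Inst.Degen A (.cons φ o) ∨ P' (.cons φ o))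
    {x : Inst F Ω →₀ ℚ} (hx : x ∈ NullSpan C A P n) :
    x.mapDomain (.cons φ) ∈ NullSpan C A P' (n + 1) := by
  induction hx using Submodule.span_induction with
  | mem x hx =>
    rcases hx with ⟨o, ho, hn, hd, rfl⟩ | ⟨o, o', ho, ho', hn, ht, rfl⟩
    · rw [Finsupp.mapDomain_single]
      refine single_mem_CoreF (o := .cons φ o) ⟨hφ, ho⟩ (congrArg (· + 1) hn) ?_
      rcases hd with hd | hd
      · exact Or.inl (Or.inl hd)
      · exact h o ho hn hd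
    · rw [Finsupp.mapDomain_sub, Finsupp.mapDomain_single, Finsupp.mapDomain_single]
      exact Submodule.subset_span (Or.inr ⟨.cons φ o, .cons φ o', ⟨hφ, ho⟩, ⟨hφ, ho'⟩,
        congrArg (· + 1) hn, tp_cons φ ht, rfl⟩)
  | zero => rw [Finsupp.mapDomain_zero]; exact Submodule.zero_mem _
  | add x y _ _ hx hy => rw [Finsupp.mapDomain_add]; exact Submodule.add_mem _ hx hy
  | smul c x _ hx => rw [Finsupp.mapDomain_smul]; exact Submodule.smul_mem _ c hx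

theorem PreA.null_DL (hP : PreA C A m) {n : ℕ} (ho : C.Valid o) (hn : o.lev = n + 1)
    (hl : n ≤ m) (hd : Inst.DegenIn A o) : sgnSum o.DL ∈ NullSpan C A (fun _ => False) n := by
  have hcons : ∀ (φ : Module.End F Ω) (o : Inst F Ω), sgnSum (Inst.cons φ o).DL =
      -Finsupp.single (o.smul φ) 1 - (sgnSum o.DL).mapDomain (.cons φ) := by
    intro φ o
    rw [Inst.DL, sgnSum_cons, sgnSum_map_neg, sub_eq_add_neg, ← Finsupp.single_neg]
    simp
  induction o generalizing n with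
  | base k b =>
    obtain rfl : k = n + 1 := hn
    rw [Inst.DL, sgnSum_map]
    have h1 := Submodule.mem_map_of_mem (f := Finsupp.lmapDomain ℚ ℚ (Inst.base n : _ → Inst F Ω))
      (Tr.TDeg.sgnSum_mem hd)
    rw [Submodule.map_span] at h1
    refine Submodule.span_le.2 ?_ h1
    rintro _ ⟨_, ⟨p, hp, hp', rfl⟩, rfl⟩
    rw [Finsupp.lmapDomain_apply, Finsupp.mapDomain_single]
    exact single_mem_CoreF (o := .base n p.2) (C.bface n b ho p hp) rfl (Or.inl hp')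
  | cons φ o ih =>
    obtain rfl : o.lev = n := Nat.succ_injective hn
    rw [hcons]
    have hv := C.valid_smul ho.2 ho.1
    have hin : ∀ k, o.lev = k + 1 → Inst.DegenIn A o →
        (sgnSum o.DL).mapDomain (.cons φ) ∈ NullSpan C A (fun _ => False) o.lev := by
      intro k hk hd'
      rw [hk]
      exact NullSpan_cons ho.1 (fun _ _ _ h => h.elim) (ih ho.2 hk (by omega) hd')
    rcases o with ⟨k, b⟩ | ⟨ψ, o⟩
    · refine Submodule.sub_mem _ (Submodule.neg_mem _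
        (single_mem_CoreF hv (Inst.lev_smul _ _) (Or.inl (Tr.TDeg.map _ hd)))) ?_
      rcases k with _ | k
      · rw [Inst.DL, sgnSum_zero, Finsupp.mapDomain_zero]
        exact Submodule.zero_mem _
      · exact hin k rfl hd
    · rcases hd with hd | hd
      · exact Submodule.sub_mem _ (Submodule.neg_mem _
          (single_mem_CoreF hv (Inst.lev_smul _ _) (Or.inl (Or.inl hd)))) (hin _ rfl hd)
      · have hl' : o.lev < m := hl
        obtain ⟨η, h1, h2⟩ := hP.tp_smul ho.2.2 hl' ho.2.1 hd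
        have h3 : Inst.Tp A ((Inst.cons ψ o).smul φ) (.cons φ (o.smul ψ)) 1 :=
          ⟨homOn_one _, φ, o.smul ψ, η, rfl, h1, fun a ha => by rw [h2 a ha]; rfl⟩
        have h4 : Finsupp.single ((Inst.cons ψ o).smul φ) (1 : ℚ) -
            Finsupp.single (.cons φ (o.smul ψ)) 1 ∈
              NullSpan C A (fun _ => False) (Inst.cons ψ o).lev :=
          Submodule.subset_span (Or.inr ⟨_, .cons φ (o.smul ψ), hv, ⟨ho.1, C.valid_smul ho.2.2 ho.2.1⟩,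
            Inst.lev_smul _ _, h3, rfl⟩)
        have h5 := mapDomain_sgnSum_mem_CoreF (Inst.cons φ ∘ Inst.cons ψ)
          (NullSpan C A (fun _ => False) (Inst.cons ψ o).lev) o.DL fun p hp =>
          single_mem_CoreF (o := .cons φ (.cons ψ p.2)) ⟨ho.1, ho.2.1, C.valid_DL ho.2.2 hp⟩
            (congrArg (· + 1) (Inst.lev_DL hp))
            (Or.inl (Or.inl (Or.inr (hd.mono (hP.face_le o ho.2.2 hl' p hp)))))
        rw [hcons, Finsupp.mapDomain_sub, ← zero_sub (Finsupp.single (o.smul ψ) 1),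
          Finsupp.mapDomain_sub, Finsupp.mapDomain_zero, Finsupp.mapDomain_single,
          ← Finsupp.mapDomain_comp]
        convert Submodule.sub_mem _ h5 h4 using 1
        abel

end

end Pool.Agent.MP_e2821c_ag.Dg
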