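import Pool.Agent.Lib.MP_e2821c_ag.Dg.CoreY

/-!
# Trees, instances and the data of the inductive construction
-/

namespace Pool.Agent.MP_e2821c_ag.Dg

open MvPolynomial

universe u v

noncomputable section

/-- Iterated multisets. -/
def Tr (M : Type u) : ℕ → Type u
  | 0 => M
  | k + 1 => Multiset (Tr M k)

namespace Tr

variable {M M' : Type u}

/-- The additive structure of iterated multisets. -/
instance acm [h : AddCommMonoid M] : ∀ k, AddCommMonoid (Tr M k)
  | 0 => h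
  | k + 1 => inferInstanceAs (AddCommMonoid (Multiset (Tr M k)))

/-- The identification of trees of depth `k + 1` with multisets. -/
def out {k : ℕ} (b : Tr M (k + 1)) : Multiset (Tr M k) := b

/-- The identification of multisets with trees of depth `k + 1`. -/
def mk {k : ℕ} (b : Multiset (Tr M k)) : Tr M (k + 1) := b

/-- The identification of trees of depth zero with leaves. -/
def val (b : Tr M 0) : M := b

/-- The identification of leaves with trees of depth zero. -/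
def leaf (x : M) : Tr M 0 := x

/-- Functoriality. -/
def map (f : M → M') : ∀ k, Tr M k → Tr M' k
  | 0, b => leaf (f b.val)
  | k + 1, b => mk (b.out.map (map f k))

/-- The multiset of leaves. -/
def leaves : ∀ k, Tr M k → Multiset M
  | 0, b => {b.val}
  | k + 1, b => b.out.bind (leaves k)

/-- The faces that merge two consecutive levels. -/
def face [AddCommMonoid M] : ∀ k, ℕ → Tr M (k + 1) → Tr M k
  | 0, _, b => b.out.sum
  | _ + 1, 0, b => b.out.sum
  | k + 1, i + 1, b => mk (b.out.map (face k i))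

/-- The signed faces of a tree. -/
def DT [AddCommMonoid M] (k : ℕ) (b : Tr M (k + 1)) : Multiset (ℤ × Tr M k) :=
  b.out.map (fun x => ((1 : ℤ), x)) +
    (Multiset.range (k + 1)).map fun i => (-(-1 : ℤ) ^ i, face k i b)

/-- All nodes of level `i` have exactly one successor. -/
def TD : ∀ k, ℕ → Tr M k → Prop
  | 0, _, _ => False
  | _ + 1, 0, b => b.out.card = 1
  | k + 1, i + 1, b => ∀ x ∈ b.out, TD k i x

/-- Degenerate trees. -/
def TDeg (k : ℕ) (b : Tr M k) : Prop := ∃ i < k, TD k i b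

/-- All nodes have a successor and all leaves satisfy `P`. -/
def Pos (P : M → Prop) : ∀ k, Tr M k → Prop
  | 0, b => P b.val
  | k + 1, b => b.out ≠ 0 ∧ ∀ x ∈ b.out, Pos P k x

end Tr

/-- The formal sum of a multiset of signed elements. -/
def sgnSum {α : Type u} (s : Multiset (ℤ × α)) : α →₀ ℚ :=
  (s.map fun p => Finsupp.single p.2 (p.1 : ℚ)).sum

/-- The differential on formal sums of trees. -/
def Tr.delta {M : Type u} [AddCommMonoid M] (k : ℕ) :
    (Tr M (k + 1) →₀ ℚ) →ₗ[ℚ] (Tr M k →₀ ℚ) :=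
  Finsupp.linearCombination ℚ fun b => sgnSum (Tr.DT k b)

/-- The set of values of the leaves of a tree. -/
def vals {Ω : Type u} (k : ℕ) (b : Tr (G2 → Ω) k) : Set Ω :=
  {x | ∃ τ ∈ Tr.leaves k b, ∃ γ, x = τ γ}

/-- The action of a map on trees of functions. -/
def tact {Ω : Type u} (θ : Ω → Ω) (k : ℕ) (b : Tr (G2 → Ω) k) : Tr (G2 → Ω) k :=
  Tr.map (fun τ γ => θ (τ γ)) k b

section Inst

variable (F Ω : Type u) [Field F] [Field Ω] [Algebra F Ω]

/-- A tree followed by a list of endomorphisms. -/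
inductive Inst : Type u
  | base (k : ℕ) (b : Tr (G2 → Ω) k) : Inst
  | cons (φ : Module.End F Ω) (o : Inst) : Inst

variable {F Ω}

namespace Inst

/-- The total degree. -/
def lev : Inst F Ω → ℕ
  | base k _ => k
  | cons _ o => o.lev + 1

/-- The number of endomorphisms. -/
def len : Inst F Ω → ℕ
  | base _ _ => 0
  | cons _ o => o.len + 1

/-- The underlying tree. -/
def root : Inst F Ω → Σ k, Tr (G2 → Ω) k
  | base k b => ⟨k, b⟩
  | cons _ o => o.root

/-- The action of an endomorphism on the last step. -/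
def smul (θ : Module.End F Ω) : Inst F Ω → Inst F Ω
  | base k b => base k (tact θ k b)
  | cons φ o => cons (θ * φ) o

/-- The signed inner faces. -/
def DL : Inst F Ω → Multiset (ℤ × Inst F Ω)
  | base 0 _ => 0
  | base (k + 1) b => (Tr.DT k b).map fun p => (p.1, base k p.2)
  | cons φ o => (-1, o.smul φ) ::ₘ o.DL.map fun p => (-p.1, cons φ p.2)

/-- The inner differential. -/
def D : (Inst F Ω →₀ ℚ) →ₗ[ℚ] (Inst F Ω →₀ ℚ) :=
  Finsupp.linearCombination ℚ fun o => sgnSum o.DL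

/-- The generators of the field of definition. -/
def gens (A : Inst F Ω → Subalgebra F Ω) : Inst F Ω → Set Ω
  | base k b => vals k b
  | cons φ o => φ '' (A o : Set Ω)

/-- The field of definition. -/
def LL (A : Inst F Ω → Subalgebra F Ω) (o : Inst F Ω) : IntermediateField F Ω :=
  IntermediateField.adjoin F (gens A o)

/-- The ring generated by the generators and the rings of the faces. -/
def A0 (A : Inst F Ω → Subalgebra F Ω) (o : Inst F Ω) : Subalgebra F Ω :=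
  Algebra.adjoin F (gens A o ∪ {x | ∃ p ∈ o.DL, x ∈ A p.2})

/-- Degenerate instances. -/
def Degen (A : Inst F Ω → Subalgebra F Ω) : Inst F Ω → Prop
  | base k b => Tr.TDeg k b
  | cons φ o => Degen A o ∨ Set.InjOn φ (A o : Set Ω)

/-- Instances that are degenerate before the last step. -/
def DegenIn (A : Inst F Ω → Subalgebra F Ω) : Inst F Ω → Prop
  | base k b => Tr.TDeg k b
  | cons _ o => Degen A o

/-- There is a transport from `o` to `o'` with last map `θ`. -/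
def Tp (A : Inst F Ω → Subalgebra F Ω) : Inst F Ω → Inst F Ω → Module.End F Ω → Prop
  | base k b, o', θ => HomOn θ (LL A (base k b) : Set Ω) ∧ o' = smul θ (base k b)
  | cons φ o, o'', θ => HomOn θ (LL A (cons φ o) : Set Ω) ∧
      ∃ φ' o' η, o'' = cons φ' o' ∧ Tp A o o' η ∧ ∀ a ∈ A o, θ (φ a) = φ' (η a)

end Inst

/-- A family of chains indexed by instances. -/
abbrev HF (F Ω : Type u) [Field F] [Field Ω] [Algebra F Ω] : Type u :=
  ∀ n : ℕ, Inst F Ω → Xq G2 Ω (n + 1)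

/-- The outer face. -/
def VF (H : HF F Ω) : ∀ n : ℕ, Inst F Ω → Xq G2 Ω n
  | 0, .base 0 b => red (cst 0 b.val)
  | 0, .base (_ + 1) _ => 0
  | 0, .cons _ _ => 0
  | _ + 1, .base _ _ => 0
  | n + 1, .cons φ o => pE φ (n + 1) (H n o)

variable [CharZero Ω]

/-- The linear extension of a family of chains. -/
def HL (H : HF F Ω) (n : ℕ) : (Inst F Ω →₀ ℚ) →ₗ[ℚ] Xq G2 Ω (n + 1) :=
  Finsupp.linearCombination ℚ (H n)

/-- The alternating sum of the faces. -/
def UF (H : HF F Ω) : ∀ n : ℕ, Inst F Ω → Xq G2 Ω n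
  | 0, o => VF H 0 o
  | n + 1, o => VF H (n + 1) o + HL H n (sgnSum o.DL)

variable (F Ω) in
/-- The setting of the inductive construction. -/
structure Ctx where
  Oh : Subalgebra F Ω
  EE : Submonoid (Module.End F Ω)
  BB : ∀ k, Set (Tr (G2 → Ω) k)
  hom : ∀ φ ∈ EE, HomOn φ (Oh : Set Ω)
  maps : ∀ φ ∈ EE, ∀ x ∈ Oh, φ x ∈ Oh
  finres : ∀ A : Subalgebra F Ω, A.FG → A ≤ Oh → ∃ Φ : Set (Module.End F Ω), Φ.Finite ∧
    (∀ φ ∈ Φ, φ ∈ EE) ∧ ∀ φ ∈ EE, ∃ φ' ∈ Φ, ∀ a ∈ A, φ a = φ' a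
  fin : ∀ k, (BB k).Finite
  bact : ∀ k, ∀ b ∈ BB k, ∀ φ ∈ EE, tact φ k b ∈ BB k
  bface : ∀ k, ∀ b ∈ BB (k + 1), ∀ p ∈ Tr.DT k b, p.2 ∈ BB k
  beff : ∀ k, ∀ b ∈ BB k, ∀ τ ∈ Tr.leaves k b, (∃ d, Eff d τ) ∧ ∀ γ, τ γ ∈ Oh
  inj : ∀ (L : IntermediateField F Ω) (Θ : Set (Module.End F Ω)), Θ.Finite →
    (∀ θ ∈ Θ, HomOn θ (L : Set Ω)) → ∀ R : Subalgebra F Ω,
    (∀ x, x ∈ R ↔ x ∈ L ∧ ∀ θ ∈ Θ, θ x ∈ Oh) →
    ∀ (q : ℕ) (u : Xq G2 Ω q), u ∈ Ch G2 R.toSubring q → Bd ⊤ u → Bd R.toSubring u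
  onto : ∀ (q : ℕ) (u : Xq G2 Ω (q + 1)), u ∈ CR ⊤ (q + 1) → dX Ω q u = 0 →
    ∃ c ∈ CR (⊥ : Subalgebra F Ω).toSubring (q + 1), dX Ω q c = 0 ∧ Bd ⊤ (u - c)
  onto0 : ∀ b ∈ BB 0, ∃ c ∈ CR (⊥ : Subalgebra F Ω).toSubring 0,
    Bd ⊤ (red (cst 0 b.val) - c)

/-- Instances built from the data of the setting. -/
def Ctx.Valid (C : Ctx F Ω) : Inst F Ω → Prop
  | .base k b => b ∈ C.BB k
  | .cons φ o => φ ∈ C.EE ∧ C.Valid o

/-- A complement of the boundaries in the constant cycles. -/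
structure IsCompl0 (F : Type u) [Field F] [Algebra F Ω] (S : ∀ q, Submodule ℚ (Xq G2 Ω q)) :
    Prop where
  le : ∀ q, ∀ s ∈ S q, s ∈ CR (⊥ : Subalgebra F Ω).toSubring q ∧ Cyc q s
  disj : ∀ q, ∀ s ∈ S q, Bd (⊥ : Subalgebra F Ω).toSubring s → s = 0
  span : ∀ q, ∀ c ∈ CR (⊥ : Subalgebra F Ω).toSubring q, Cyc q c →
    ∃ s ∈ S q, ∃ y ∈ CR (⊥ : Subalgebra F Ω).toSubring (q + 1), c - s = dX Ω q y

/-- The properties of the rings `A` below level `m`. -/
structure PreA (C : Ctx F Ω) (A : Inst F Ω → Subalgebra F Ω) (m : ℕ) : Prop where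
  fg : ∀ o, C.Valid o → o.lev < m → (A o).FG
  le_Oh : ∀ o, C.Valid o → o.lev < m → A o ≤ C.Oh
  le_LL : ∀ o, C.Valid o → o.lev < m → A o ≤ (Inst.LL A o).toSubalgebra
  gens_le : ∀ o, C.Valid o → o.lev < m → Inst.gens A o ⊆ A o
  face_le : ∀ o, C.Valid o → o.lev < m → ∀ p ∈ o.DL, A p.2 ≤ A o
  inv : ∀ o o' θ, C.Valid o → C.Valid o' → o.lev < m → Inst.Tp A o o' θ →
    θ '' (A o : Set Ω) = A o'

/-- The properties of the rings `A` and the chains `H` below level `m`. -/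
structure Pre (C : Ctx F Ω) (S : ∀ q, Submodule ℚ (Xq G2 Ω q))
    (A : Inst F Ω → Subalgebra F Ω) (H : HF F Ω) (m : ℕ) : Prop extends PreA C A m where
  mem : ∀ o, C.Valid o → o.lev < m → H o.lev o ∈ CR (A o).toSubring (o.lev + 1)
  bd : ∀ o, C.Valid o → o.lev < m → UF H o.lev o - dX Ω o.lev (H o.lev o) ∈ S o.lev
  invH : ∀ o o' θ, C.Valid o → C.Valid o' → o.lev < m → Inst.Tp A o o' θ →
    pE θ (o.lev + 1) (H o.lev o) = H o.lev o'
  degen : ∀ o, C.Valid o → o.lev < m → Inst.Degen A o → H o.lev o = 0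

/-- The span of the degenerate instances, of the differences of identified instances and of the
instances satisfying `P`, in level `n`. -/
def NullSpan (C : Ctx F Ω) (A : Inst F Ω → Subalgebra F Ω) (P : Inst F Ω → Prop) (n : ℕ) :
    Submodule ℚ (Inst F Ω →₀ ℚ) :=
  Submodule.span ℚ {x | (∃ o, C.Valid o ∧ o.lev = n ∧ (Inst.Degen A o ∨ P o) ∧
      x = Finsupp.single o 1) ∨
    ∃ o o', C.Valid o ∧ C.Valid o' ∧ o.lev = n ∧ Inst.Tp A o o' 1 ∧
      x = Finsupp.single o 1 - Finsupp.single o' 1}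

end Inst

section Good

variable (F : Type u) [Field F] {N : ℕ}

/-- Effective correspondences of positive degree defined over a face. -/
def LeafOk (I : Finset (Fin N)) (τ : G2 → OmN F N) : Prop :=
  (∃ e, 1 ≤ e ∧ Eff e τ) ∧ ∀ γ, τ γ ∈ PI F I

/-- Trees of effective correspondences over a face of total degree at most `d`. -/
def GT (I : Finset (Fin N)) (d k : ℕ) (b : Tr (G2 → OmN F N) k) : Prop :=
  Tr.Pos (LeafOk F I) k b ∧ ∃ e : ℕ, e ≤ d ∧ (Tr.leaves k b).sum 0 = (e : OmN F N)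

open Classical in
/-- The lifts sitting at a subspace. -/
def baseP (Ξ : ∀ k, Finset (Fin N) → (Tr (G2 → OmN F N) k →₀ ℚ)) (k : ℕ) (W : Sb N) :
    Inst F (OmN F N) →₀ ℚ :=
  ∑ I ∈ Finset.univ.filter (fun I : Finset (Fin N) => I.card + k = N ∧ WI I = W),
    (Ξ k I).mapDomain (Inst.base k)

open Classical in
/-- The sum over all flags of flats ending at a subspace. -/
def Gam (𝒮 : Finset (Sb N)) (Ξ : ∀ k, Finset (Fin N) → (Tr (G2 → OmN F N) k →₀ ℚ)) :
    ℕ → Sb N → (Inst F (OmN F N) →₀ ℚ)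
  | 0, W => baseP F Ξ 0 W
  | n + 1, W' => ∑ W ∈ 𝒮.filter (fun W => Hyp W' W),
      ((Gam 𝒮 Ξ n W).mapDomain (Inst.cons (res F (cut W W'))) -
        (Gam 𝒮 Ξ n W).mapDomain (Inst.cons (res F (-cut W W')))) + baseP F Ξ (n + 1) W'

/-- A compatible system of lifts over the faces. -/
structure IsLift (d : ℕ) (Ξ : ∀ k, Finset (Fin N) → (Tr (G2 → OmN F N) k →₀ ℚ)) : Prop where
  good : ∀ k I, I.card + k = N → I.Nonempty → ∀ b ∈ (Ξ k I).support, GT F I d k b
  step : ∀ k I, I.card + k + 1 = N → I.Nonempty → Tr.delta k (Ξ (k + 1) I) =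
    ∑ i ∈ Iᶜ, epsI I i • (Ξ k (insert i I)).mapDomain (tact (res F (crd i)) k)

/-- The setting uses the monomial valuations. -/
structure IsStd [CharZero F] (C : Ctx F (OmN F N)) (d : ℕ) : Prop where
  oh : C.Oh = Oh F N
  ee : C.EE = EE F N
  good : ∀ k, ∀ b ∈ C.BB k, ∃ I : Finset (Fin N), I.Nonempty ∧ GT F I d k b

end Good

end

end Pool.Agent.MP_e2821c_ag.Dg
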