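import Pool.Agent.Lib.MP_e2821c_ag.Dg.CoreF

namespace Pool.Agent.MP_e2821c_ag.Dg

open MvPolynomial

universe u v w

noncomputable section

variable {F Ω : Type u} [Field F] [Field Ω] [Algebra F Ω]
variable [CharZero F] [CharZero Ω] {C : Ctx F Ω} {A : Inst F Ω → Subalgebra F Ω} {m : ℕ}
  {o o' o'' : Inst F Ω} {θ θ' : Module.End F Ω}
variable {S : ∀ q, Submodule ℚ (Xq G2 Ω q)} {H : HF F Ω}

theorem Pre.mem' (hP : Pre C S A H m) {n : ℕ} (ho : C.Valid o) (hn : o.lev = n) (hl : n < m) :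
    H n o ∈ CR (A o).toSubring (n + 1) := by
  subst hn
  exact hP.mem o ho hl

theorem Pre.bd' (hP : Pre C S A H m) {n : ℕ} (ho : C.Valid o) (hn : o.lev = n) (hl : n < m) :
    UF H n o - dX Ω n (H n o) ∈ S n := by
  subst hn
  exact hP.bd o ho hl

theorem Pre.HL_null (hP : Pre C S A H m) {P : Inst F Ω → Prop} {n : ℕ} (hl : n < m)
    (G : AddSubgroup (Xq G2 Ω (n + 1))) (hG : ∀ (c : ℚ), ∀ x ∈ G, c • x ∈ G)
    (h : ∀ o, C.Valid o → o.lev = n → P o → H n o ∈ G) {x : Inst F Ω →₀ ℚ}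
    (hx : x ∈ NullSpan C A P n) : HL H n x ∈ G := by
  induction hx using Submodule.span_induction with
  | mem x hx =>
    rcases hx with ⟨o, ho, hn, hd, rfl⟩ | ⟨o, o', ho, ho', hn, ht, rfl⟩
    · rw [HL, Finsupp.linearCombination_single, one_smul]
      rcases hd with hd | hd
      · subst hn
        rw [hP.degen o ho hl hd]
        exact G.zero_mem
      · exact h o ho hn hd
    · rw [map_sub, HL, Finsupp.linearCombination_single, Finsupp.linearCombination_single,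
        one_smul, one_smul]
      subst hn
      rw [← hP.invH o o' 1 ho ho' hl ht, push_end_one, sub_self]
      exact G.zero_mem
  | zero => rw [map_zero]; exact G.zero_mem
  | add x y _ _ hx hy => rw [map_add]; exact G.add_mem hx hy
  | smul c x _ hx => rw [map_smul]; exact hG c _ hx

omit [CharZero F] in
theorem HL_sgnSum_CoreU (H : HF F Ω) (n : ℕ) (s : Multiset (ℤ × Inst F Ω)) :
    HL H n (sgnSum s) = (s.map fun p => p.1 • H n p.2).sum :=
  linearCombination_sgnSum (H n) s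

omit [CharZero F] [CharZero Ω] in
theorem gens_le_A0_CoreU (A : Inst F Ω → Subalgebra F Ω) (o : Inst F Ω) :
    Inst.gens A o ⊆ Inst.A0 A o := fun _ hx => Algebra.subset_adjoin (Or.inl hx)

omit [CharZero F] [CharZero Ω] in
theorem face_le_A0_CoreU (A : Inst F Ω → Subalgebra F Ω) {o : Inst F Ω} {p : ℤ × Inst F Ω}
    (hp : p ∈ o.DL) : A p.2 ≤ Inst.A0 A o :=
  fun _ hx => Algebra.subset_adjoin (Or.inr ⟨p, hp, hx⟩)

theorem HL_mem_CoreU (hP : Pre C S A H m) {n : ℕ} (ho : C.Valid o) (hn : o.lev = n + 1)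
    (hl : n < m) : HL H n (sgnSum o.DL) ∈ CR (Inst.A0 A o).toSubring (n + 1) := by
  rw [HL_sgnSum_CoreU]
  refine multiset_sum_mem _ fun x hx => ?_
  obtain ⟨p, hp, rfl⟩ := Multiset.mem_map.1 hx
  refine zsmul_mem ?_ _
  have h1 : p.2.lev = n := by have := Inst.lev_DL hp; omega
  exact CR_mono (fun x hx => face_le_A0_CoreU A hp hx) (hP.mem' (C.valid_DL ho hp) h1 hl)

theorem HL_dX_CoreU (hP : Pre C S A H m) {n : ℕ} (ho : C.Valid o) (hn : o.lev = n + 1)
    (hl : n < m) : Finsupp.linearCombination ℚ (UF H n) (sgnSum o.DL) -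
      dX Ω n (HL H n (sgnSum o.DL)) ∈ S n := by
  rw [HL_sgnSum_CoreU, linearCombination_sgnSum, map_multiset_sum, Multiset.map_map,
    ← Multiset.sum_map_sub]
  refine multiset_sum_mem _ fun x hx => ?_
  obtain ⟨p, hp, rfl⟩ := Multiset.mem_map.1 hx
  have h1 : p.2.lev = n := by have := Inst.lev_DL hp; omega
  rw [Function.comp_apply, map_zsmul, ← smul_sub]
  exact zsmul_mem (hP.bd' (C.valid_DL ho hp) h1 hl) _

theorem HL_inv_CoreU (hP : Pre C S A H m) {n : ℕ} (ho : C.Valid o) (ho' : C.Valid o')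
    (hn : o.lev = n + 1) (hl : n < m) (h : Inst.Tp A o o' θ) :
    pE θ (n + 1) (HL H n (sgnSum o.DL)) = HL H n (sgnSum o'.DL) := by
  have hr := hP.toPreA.tp_DL ho ho' (by omega) h
  rw [HL_sgnSum_CoreU, HL_sgnSum_CoreU, map_multiset_sum, Multiset.map_map]
  congr 1
  refine Multiset.rel_eq.1 (Multiset.rel_map.2 (hr.mono fun p hp p' hp' hpp => ?_))
  have h1 : p.2.lev = n := by have := Inst.lev_DL hp; omega
  rw [Function.comp_apply, map_zsmul, ← hpp.1]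
  congr 1
  subst h1
  exact hP.invH _ _ _ (C.valid_DL ho hp) (C.valid_DL ho' hp') hl hpp.2

theorem HL_zero_CoreU (hP : Pre C S A H m) {n : ℕ} (ho : C.Valid o) (hn : o.lev = n + 1)
    (hl : n < m) (hd : Inst.DegenIn A o) : HL H n (sgnSum o.DL) = 0 :=
  AddSubgroup.mem_bot.1 (hP.HL_null hl ⊥
    (fun c x hx => by rw [AddSubgroup.mem_bot.1 hx, smul_zero]; exact zero_mem _)
    (fun _ _ _ h => h.elim) (hP.toPreA.null_DL ho hn hl.le hd))

theorem zero_of_bd_CoreU (C : Ctx F Ω) (hS : IsCompl0 F S) {n : ℕ} {t : Xq G2 Ω n}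
    (ht : t ∈ S n) (hb : Bd ⊤ t) : t = 0 := by
  refine hS.disj n t ht (C.inj ⊥ ∅ Set.finite_empty (fun _ h => h.elim) ⊥ (fun x => ?_) n t
    (hS.le n t ht).1.1 hb)
  rw [Algebra.mem_bot, IntermediateField.mem_bot]
  exact ⟨fun h => ⟨h, fun _ h => h.elim⟩, fun h => h.1⟩

theorem Pre.UF_mem (hP : Pre C S A H m) (ho : C.Valid o) (hl : o.lev ≤ m) :
    UF H o.lev o ∈ CR (Inst.A0 A o).toSubring o.lev := by
  match o, ho, hl with
  | .base 0 b, ho, _ =>
    have h1 := C.beff 0 b ho b.val (Multiset.mem_singleton_self _)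
    refine red_mem_CR (cst_mem_Ch (subset_satClosure ⟨h1.1, fun γ => ?_⟩) 0)
    exact gens_le_A0_CoreU A (.base 0 b) ⟨b.val, Multiset.mem_singleton_self _, γ, rfl⟩
  | .base (k + 1) b, ho, hl =>
    exact add_mem (zero_mem _) (HL_mem_CoreU hP ho rfl hl)
  | .cons φ o1, ho, hl =>
    refine add_mem ?_ (HL_mem_CoreU hP ho rfl hl)
    refine push_mem_CR_of_homOn (A := (A o1).toSubring)
      ((C.hom φ ho.1).mono (hP.le_Oh o1 ho.2 hl)) (fun a ha => ?_) (hP.mem o1 ho.2 hl)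
    exact gens_le_A0_CoreU A (.cons φ o1) ⟨a, ha, rfl⟩

theorem Pre.UF_cyc (hS : IsCompl0 F S) (hP : Pre C S A H m) (ho : C.Valid o) (hl : o.lev ≤ m) :
    Cyc o.lev (UF H o.lev o) := by
  have hm := hP.UF_mem ho hl
  match o, ho, hl, hm with
  | .base 0 b, _, _, _ => trivial
  | .base (k + 1) b, ho, hl, hm =>
    refine zero_of_bd_CoreU C hS ?_ ⟨_, Ch_mono le_top hm.1, rfl⟩
    have h1 := HL_dX_CoreU hP ho rfl hl
    rw [UF_rel_base, zero_sub, neg_mem_iff] at h1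
    change dX Ω k (0 + HL H k (sgnSum (Inst.base (k + 1) b : Inst F Ω).DL)) ∈ S k
    rw [zero_add]
    exact h1
  | .cons φ o1, ho, hl, hm =>
    refine zero_of_bd_CoreU C hS ?_ ⟨_, Ch_mono le_top hm.1, rfl⟩
    have h1 := HL_dX_CoreU hP ho rfl hl
    have h2 := hP.bd o1 ho.2 hl
    have h3 := UF_rel_cons H φ o1
    have h4 : pE φ o1.lev (UF H o1.lev o1 - dX Ω o1.lev (H o1.lev o1)) =
        UF H o1.lev o1 - dX Ω o1.lev (H o1.lev o1) :=
      push_end_bot (C.hom φ ho.1).1 (hS.le _ _ h2).1.1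
    rw [← h4, map_sub, push_dX] at h2
    change dX Ω o1.lev (pE φ (o1.lev + 1) (H o1.lev o1) +
      HL H o1.lev (sgnSum (Inst.cons φ o1).DL)) ∈ S o1.lev
    have h5 := neg_mem (add_mem h1 h2)
    rw [map_add]
    convert h5 using 1
    rw [eq_neg_of_add_eq_zero_left h3]
    abel

theorem Pre.UF_inv (hP : Pre C S A H m) (ho : C.Valid o) (ho' : C.Valid o') (hl : o.lev ≤ m)
    (h : Inst.Tp A o o' θ) : pE θ o.lev (UF H o.lev o) = UF H o.lev o' := by
  match o, ho, hl, h with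
  | .base 0 b, _, _, h =>
    rw [h.2]
    exact (VF_smul H θ 0 _).symm
  | .base (k + 1) b, ho, hl, h =>
    have h1 := HL_inv_CoreU hP ho ho' rfl hl h
    change pE θ (k + 1) (VF H (k + 1) (.base (k + 1) b) +
      HL H k (sgnSum (Inst.base (k + 1) b : Inst F Ω).DL)) =
        VF H (k + 1) o' + HL H k (sgnSum o'.DL)
    rw [map_add, h1, ← VF_smul, ← h.2]
  | .cons φ o1, ho, hl, h =>
    have h1 := HL_inv_CoreU hP ho ho' rfl hl h
    obtain ⟨φ', o1', η, rfl, ht, he⟩ := h.2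
    change pE θ (o1.lev + 1) (pE φ (o1.lev + 1) (H o1.lev o1) +
      HL H o1.lev (sgnSum (Inst.cons φ o1).DL)) =
        pE φ' (o1.lev + 1) (H o1.lev o1') + HL H o1.lev (sgnSum (Inst.cons φ' o1').DL)
    rw [map_add, h1, ← hP.invH o1 o1' η ho.2 ho'.2 hl ht, ← push_end_mul, ← push_end_mul]
    congr 1
    exact push_congr (A := (A o1).toSubring) (fun a ha => he a ha) (hP.mem o1 ho.2 hl).1

theorem Pre.UF_degen (hP : Pre C S A H m) (ho : C.Valid o) (hl : o.lev ≤ m)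
    (hd : Inst.Degen A o) : UF H o.lev o = 0 := by
  match o, ho, hl, hd with
  | .base 0 b, _, _, hd =>
    obtain ⟨i, hi, _⟩ := hd
    omega
  | .base (k + 1) b, ho, hl, hd =>
    change 0 + HL H k (sgnSum (Inst.base (k + 1) b : Inst F Ω).DL) = 0
    rw [HL_zero_CoreU hP ho rfl hl hd, add_zero]
  | .cons φ o1, ho, hl, hd =>
    change pE φ (o1.lev + 1) (H o1.lev o1) + HL H o1.lev (sgnSum (Inst.cons φ o1).DL) = 0
    rcases hd with hd | hd
    · rw [HL_zero_CoreU hP ho rfl hl hd, hP.degen o1 ho.2 hl hd, map_zero, add_zero]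
    · obtain ⟨θ, ht, he⟩ := hP.toPreA.tp_smul ho.2 hl ho.1 hd
      have h1 := hP.invH o1 _ θ ho.2 (C.valid_smul ho.2 ho.1) hl ht
      have h2 : pE θ (o1.lev + 1) (H o1.lev o1) = pE φ (o1.lev + 1) (H o1.lev o1) :=
        push_congr (A := (A o1).toSubring) (fun a ha => he a ha) (hP.mem o1 ho.2 hl).1
      rw [HL_sgnSum_CoreU]
      change _ + (((-1, o1.smul φ) ::ₘ o1.DL.map fun p => (-p.1, Inst.cons φ p.2)).map
        fun p : ℤ × Inst F Ω => p.1 • H o1.lev p.2).sum = 0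
      rw [Multiset.map_cons, Multiset.sum_cons, Multiset.map_map, Multiset.sum_eq_zero, ← h1, h2]
      · simp
      · intro x hx
        obtain ⟨p, hp, rfl⟩ := Multiset.mem_map.1 hx
        have h3 : (Inst.cons φ p.2).lev = o1.lev := Inst.lev_DL hp
        have h4 : C.Valid (Inst.cons φ p.2) := ⟨ho.1, C.valid_DL ho.2 hp⟩
        have h5 := hP.degen _ h4 (by rw [h3]; exact hl)
          (Or.inr (hd.mono (hP.face_le o1 ho.2 hl p hp)))
        have h6 : ∀ n, (Inst.cons φ p.2).lev = n → H n (Inst.cons φ p.2) = 0 := by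
          intro n hn
          subst hn
          exact h5
        rw [Function.comp_apply, h6 _ h3, smul_zero]

theorem Pre.exists_fill (hS : IsCompl0 F S) (hP : Pre C S A H m) (ho : C.Valid o)
    (hl : o.lev ≤ m) : ∃ (B : Subalgebra F Ω) (y : Xq G2 Ω (o.lev + 1)), B.FG ∧
      B ≤ (Inst.LL A o).toSubalgebra ∧
      (∀ o' θ, C.Valid o' → Inst.Tp A o o' θ → ∀ x ∈ B, θ x ∈ C.Oh) ∧
      y ∈ CR B.toSubring (o.lev + 1) ∧ UF H o.lev o - dX Ω o.lev y ∈ S o.lev ∧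
      (UF H o.lev o = 0 → y = 0) := by
  by_cases h0 : UF H o.lev o = 0
  · refine ⟨⊥, 0, Subalgebra.fg_bot, bot_le, fun o' θ _ ht x hx => ?_, zero_mem _, ?_,
      fun _ => rfl⟩
    · obtain ⟨r, rfl⟩ := Algebra.mem_bot.1 hx
      rw [Algebra.algebraMap_eq_smul_one, map_smul, ht.homOn.1]
      exact C.Oh.smul_mem (one_mem _) r
    · rw [h0, map_zero, sub_zero]
      exact zero_mem _
  have hm := hP.UF_mem ho hl
  have hc := hP.UF_cyc hS ho hl
  have hex : ∃ c ∈ CR (⊥ : Subalgebra F Ω).toSubring o.lev, Cyc o.lev c ∧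
      Bd ⊤ (UF H o.lev o - c) := by
    match o, ho, hm, hc with
    | .base 0 b, ho, _, _ =>
      obtain ⟨c, h1, h2⟩ := C.onto0 b ho
      exact ⟨c, h1, trivial, h2⟩
    | .base (k + 1) b, _, hm, hc => exact C.onto k _ (CR_mono le_top hm) hc
    | .cons φ o1, _, hm, hc => exact C.onto o1.lev _ (CR_mono le_top hm) hc
  obtain ⟨c, hc1, hc2, hc3⟩ := hex
  obtain ⟨s, hs, y0, hy0, he⟩ := hS.span _ c hc1 hc2
  have hb : Bd ⊤ (UF H o.lev o - s) := by
    have h1 : Bd ⊤ (c - s) := ⟨y0, Ch_mono le_top hy0.1, he.symm⟩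
    have h2 := hc3.add h1
    rwa [sub_add_sub_cancel] at h2
  obtain ⟨Θ, hΘ, hΘ1, hΘ2⟩ := hP.toPreA.finite_tp ho hl
  have hh : ∀ θ ∈ Θ, HomOn θ (Inst.LL A o : Set Ω) := fun θ hθ => by
    obtain ⟨o', _, ht⟩ := hΘ1 θ hθ
    exact ht.homOn
  obtain ⟨R, hR⟩ := exists_subalgebra_preimage (Inst.LL A o) Θ hh C.Oh
  have hA0 : Inst.A0 A o ≤ R := fun x hx => by
    refine (hR x).2 ⟨hP.toPreA.A0_le_LL ho hl hx, fun θ hθ => ?_⟩
    obtain ⟨o', ho', ht⟩ := hΘ1 θ hθ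
    have h1 : θ x ∈ (Inst.A0 A o' : Set Ω) := by
      rw [← hP.toPreA.image_A0 ho ho' hl ht]
      exact ⟨x, hx, rfl⟩
    exact hP.toPreA.A0_le_Oh ho' (by rw [ht.lev_eq]; exact hl) h1
  have hu : UF H o.lev o - s ∈ CR R.toSubring o.lev :=
    sub_mem (CR_mono (fun x hx => hA0 hx) hm)
      (CR_mono (fun x hx => (bot_le : (⊥ : Subalgebra F Ω) ≤ R) hx) (hS.le _ s hs).1)
  obtain ⟨y, hy, hy'⟩ := (C.inj _ Θ hΘ hh R hR _ _ hu.1 hb).exists_CR hu.2
  obtain ⟨t, ht1, ht2⟩ := exists_finset_of_mem_Ch hy.1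
  have hB : Algebra.adjoin F (t : Set Ω) ≤ R := Algebra.adjoin_le fun x hx => ht1 x hx
  refine ⟨Algebra.adjoin F (t : Set Ω), y, ⟨t, rfl⟩, fun x hx => ((hR x).1 (hB hx)).1,
    fun o' θ ho' ht x hx => ?_, ⟨ht2 _ fun x hx => Algebra.subset_adjoin hx, hy.2⟩, ?_,
    fun h => absurd h h0⟩
  · obtain ⟨θ', hθ', he'⟩ := hΘ2 o' θ ho' ht
    have h1 := (hR x).1 (hB hx)
    rw [he' x h1.1]
    exact h1.2 θ' hθ'
  · rw [hy', sub_sub_cancel]
    exact hs

end

end Pool.Agent.MP_e2821c_ag.Dg
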