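import Pool.Agent.Lib.MP_e2821c_ag.Dg.Core

/-!
# Monomial valuations and the complex of rational subspaces
-/

namespace Pool.Agent.MP_e2821c_ag.Dg

open MvPolynomial

universe u v

noncomputable section

/-- The lattice of exponents. -/
abbrev Lat (N : ℕ) : Type := Fin N → ℤ

/-- The rational vector space of exponents. -/
abbrev Vec (N : ℕ) : Type := Fin N → ℚ

/-- Real valued linear functionals. -/
abbrev Fn (N : ℕ) : Type := Vec N →ₗ[ℚ] ℝ

/-- Rational subspaces. -/
abbrev Sb (N : ℕ) : Type := Submodule ℚ (Vec N)

/-- The lattice inside the vector space. -/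
def toV {N : ℕ} : Lat N →+ Vec N := (Int.castAddHom ℚ).compLeft (Fin N)

@[simp] theorem toV_apply {N : ℕ} (m : Lat N) (i : Fin N) : toV m i = (m i : ℚ) := rfl

variable (F : Type u) [Field F] (N : ℕ)

/-- Laurent polynomials in `N` variables. -/
abbrev LP : Type u := AddMonoidAlgebra F (Lat N)

/-- Rational functions in `N` variables. -/
abbrev OmN : Type u := FractionRing (LP F N)

/-- The inclusion of Laurent polynomials into rational functions. -/
abbrev iL : LP F N →+* OmN F N := algebraMap (LP F N) (OmN F N)

instance [CharZero F] : CharZero (OmN F N) :=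
  charZero_of_injective_algebraMap (algebraMap F (OmN F N)).injective

variable {N}

/-- Monomials. -/
def mono (m : Lat N) : OmN F N := iL F N (AddMonoidAlgebra.single m 1)

theorem mono_zero : mono F (0 : Lat N) = 1 := map_one (iL F N)

theorem mono_add (m m' : Lat N) : mono F (m + m') = mono F m * mono F m' := by
  rw [mono, mono, mono, ← map_mul, AddMonoidAlgebra.single_mul_single, one_mul]

/-- The graded expansion of a Laurent polynomial along a functional. -/
def sig0 (w : Fn N) : LP F N →+* HahnSeries ℝ (OmN F N) :=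
  AddMonoidAlgebra.liftNCRingHom (HahnSeries.C.comp (algebraMap F (OmN F N)))
    { toFun := fun m => HahnSeries.single (w (toV m.toAdd)) (mono F m.toAdd)
      map_one' := by simp [mono_zero]
      map_mul' := fun a b => by
        rw [toAdd_mul, map_add, map_add, mono_add, HahnSeries.single_mul_single] }
    fun _ _ => Commute.all _ _

theorem sig0_single (w : Fn N) (m : Lat N) (c : F) :
    sig0 F w (AddMonoidAlgebra.single m c) =
      HahnSeries.single (w (toV m)) (iL F N (AddMonoidAlgebra.single m c)) := by
  have h1 : iL F N (AddMonoidAlgebra.single m c) = algebraMap F (OmN F N) c * mono F m := by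
    rw [mono, IsScalarTower.algebraMap_apply F (LP F N) (OmN F N), ← map_mul]
    congr 1
    rw [AddMonoidAlgebra.coe_algebraMap, Function.comp_apply, AddMonoidAlgebra.single_mul_single]
    simp
  rw [h1, sig0, AddMonoidAlgebra.liftNCRingHom_single]
  change HahnSeries.C (algebraMap F (OmN F N) c) *
    HahnSeries.single (w (toV m)) (mono F m) = _
  rw [HahnSeries.C_apply, HahnSeries.single_mul_single, zero_add]

open Classical in
/-- The part of a Laurent polynomial of a given weight. -/
def wpart (w : Fn N) (g : ℝ) (P : LP F N) : LP F N :=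
  .ofCoeff (P.coeff.filter fun m => w (toV m) = g)

theorem coeff_sig0 (w : Fn N) (P : LP F N) (g : ℝ) :
    (sig0 F w P).coeff g = iL F N (wpart F w g P) := by
  classical
  induction P using AddMonoidAlgebra.induction_linear with
  | zero =>
    have h : wpart F w g 0 = 0 := by ext m; simp [wpart, Finsupp.filter_apply]
    rw [h, map_zero, map_zero, HahnSeries.coeff_zero]
  | add a b ha hb =>
    have h : wpart F w g (a + b) = wpart F w g a + wpart F w g b := by
      ext m; simp only [wpart, AddMonoidAlgebra.coeff_add, Finsupp.filter_add]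
    rw [map_add, HahnSeries.coeff_add, ha, hb, h, map_add]
  | single m c =>
    rw [sig0_single, HahnSeries.coeff_single]
    split_ifs with h
    · congr 1
      ext m'
      simp only [wpart, AddMonoidAlgebra.coeff_single]
      rw [Finsupp.filter_single_of_pos (fun m => w (toV m) = g) h.symm]
    · have : wpart F w g (AddMonoidAlgebra.single m c) = 0 := by
        ext m'
        simp only [wpart, AddMonoidAlgebra.coeff_single]
        rw [Finsupp.filter_single_of_neg (fun m => w (toV m) = g) (fun h' => h h'.symm)]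
        rfl
      rw [this, map_zero]

theorem sig0_injective (w : Fn N) : Function.Injective (sig0 F w) := by
  classical
  rw [injective_iff_map_eq_zero]
  intro P hP
  ext m
  have h := coeff_sig0 F w P (w (toV m))
  rw [hP, HahnSeries.coeff_zero, eq_comm, map_eq_zero_iff _ (IsFractionRing.injective _ _)] at h
  have h2 := congrArg (fun x : LP F N => x.coeff m) h
  simpa [wpart] using h2

/-- The graded expansion of a rational function along a functional. -/
def sig (w : Fn N) : OmN F N →+* HahnSeries ℝ (OmN F N) :=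
  IsFractionRing.lift (sig0_injective F w)

theorem sig_iL (w : Fn N) (P : LP F N) : sig F w (iL F N P) = sig0 F w P :=
  IsFractionRing.lift_algebraMap _ P

theorem sig_algebraMap (w : Fn N) (c : F) :
    sig F w (algebraMap F (OmN F N) c) = HahnSeries.C (algebraMap F (OmN F N) c) := by
  rw [IsScalarTower.algebraMap_apply F (LP F N) (OmN F N), sig_iL,
    AddMonoidAlgebra.coe_algebraMap, Function.comp_apply, sig0_single, HahnSeries.C_apply]
  simp

/-- The valuation ring of the monomial valuation of a functional. -/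
def VV (w : Fn N) : ValuationSubring (OmN F N) where
  carrier := {x | 0 ≤ (sig F w x).orderTop}
  mul_mem' {a b} ha hb := by
    change 0 ≤ (sig F w (a * b)).orderTop
    rw [map_mul, HahnSeries.orderTop_mul]
    exact add_nonneg ha hb
  one_mem' := by simp
  add_mem' {a b} ha hb := by
    change 0 ≤ (sig F w (a + b)).orderTop
    rw [map_add]
    exact (le_min ha hb).trans HahnSeries.min_orderTop_le_orderTop_add
  zero_mem' := by simp
  neg_mem' {a} ha := by
    change 0 ≤ (sig F w (-a)).orderTop
    rw [map_neg, HahnSeries.orderTop_neg]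
    exact ha
  mem_or_inv_mem' x := by
    rcases eq_or_ne x 0 with rfl | hx
    · left; simp
    · have h := HahnSeries.orderTop_mul (sig F w x) (sig F w x⁻¹)
      rw [← map_mul, mul_inv_cancel₀ hx, map_one, HahnSeries.orderTop_one] at h
      by_contra hc
      rw [not_or] at hc
      have h1 : (sig F w x).orderTop < 0 := not_le.1 hc.1
      have h2 : (sig F w x⁻¹).orderTop < 0 := not_le.1 hc.2
      have h4 : (sig F w x).orderTop + (sig F w x⁻¹).orderTop < 0 + 0 :=
        WithTop.add_lt_add_of_lt_of_le h2.ne_top h1 h2.le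
      rw [← h, add_zero] at h4
      exact lt_irrefl _ h4

theorem mem_VV {w : Fn N} {x : OmN F N} : x ∈ VV F w ↔ 0 ≤ (sig F w x).orderTop := Iff.rfl

theorem algebraMap_mem_VV (w : Fn N) (c : F) : algebraMap F (OmN F N) c ∈ VV F w := by
  rw [mem_VV, sig_algebraMap, HahnSeries.C_apply]
  exact HahnSeries.orderTop_single_le

/-- The residue map of the monomial valuation, as a linear map. -/
def res (w : Fn N) : Module.End F (OmN F N) where
  toFun x := (sig F w x).coeff 0
  map_add' a b := by rw [map_add, HahnSeries.coeff_add]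
  map_smul' c a := by
    rw [Algebra.smul_def, map_mul, sig_algebraMap, HahnSeries.C_mul_eq_smul, HahnSeries.coeff_smul,
      RingHom.id_apply, smul_eq_mul, Algebra.smul_def]

theorem res_apply (w : Fn N) (x : OmN F N) : res F w x = (sig F w x).coeff 0 := rfl

variable (N) in
/-- The intersection of all monomial valuation rings. -/
def Oh : Subalgebra F (OmN F N) where
  carrier := {x | ∀ w : Fn N, x ∈ VV F w}
  mul_mem' ha hb w := mul_mem (ha w) (hb w)
  add_mem' ha hb w := add_mem (ha w) (hb w)
  algebraMap_mem' c w := algebraMap_mem_VV F w c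

theorem mem_Oh {x : OmN F N} : x ∈ Oh F N ↔ ∀ w : Fn N, x ∈ VV F w := Iff.rfl

variable (N) in
/-- The monoid generated by the residue maps. -/
def EE : Submonoid (Module.End F (OmN F N)) := Submonoid.closure (Set.range (res F))

/-- The field generated by the monomials in a subspace. -/
def KW (W : Sb N) : IntermediateField F (OmN F N) :=
  IntermediateField.adjoin F {x | ∃ m : Lat N, toV m ∈ W ∧ x = mono F m}

/-- The functions in `KW W` that are regular for all monomial valuations. -/
def OW (W : Sb N) : Subalgebra F (OmN F N) := Oh F N ⊓ (KW F W).toSubalgebra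

/-- `x` is a quotient all of whose exponent differences lie in `E`. -/
def Ctrl (E : Set (Vec N)) (x : OmN F N) : Prop :=
  x ∈ Oh F N ∧ ∃ P Q : LP F N, Q ≠ 0 ∧ x * iL F N Q = iL F N P ∧
    ∀ a ∈ P.coeff.support ∪ Q.coeff.support, ∀ b ∈ P.coeff.support ∪ Q.coeff.support,
      toV a - toV b ∈ E

/-- The algebra generated by the functions controlled by `E`. -/
def CA (E : Set (Vec N)) : Subalgebra F (OmN F N) := Algebra.adjoin F {x | Ctrl F E x}

/-- The lexicographic sign of a pair of functionals. -/
def lexSign (w₁ w₂ : Fn N) (e : Vec N) : SignType :=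
  if w₁ e = 0 then SignType.sign (w₂ e) else SignType.sign (w₁ e)

/-- `W'` is a hyperplane of `W`. -/
def Hyp (W' W : Sb N) : Prop := W' ≤ W ∧ Module.finrank ℚ W = Module.finrank ℚ W' + 1

/-- A compatible choice of cooriented equations for all hyperplanes. -/
structure IsCut (cut : Sb N → Sb N → Fn N) : Prop where
  ker : ∀ W W', Hyp W' W → W ⊓ LinearMap.ker (cut W W') = W'
  two : ∀ W W'' : Sb N, W'' ≤ W → Module.finrank ℚ W = Module.finrank ℚ W'' + 2 →
    ∃ ω : Vec N →ₗ[ℚ] Vec N →ₗ[ℚ] ℚ, (∀ x, ω x x = 0) ∧ (∀ x ∈ W'', ∀ y, ω x y = 0) ∧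
      ∀ W', Hyp W'' W' → Hyp W' W → ∀ x ∈ W, ∀ y ∈ W',
        SignType.sign (cut W W' x) * SignType.sign (cut W' W'' y) = SignType.sign (ω x y)

/-- The chosen equations. -/
def cut : Sb N → Sb N → Fn N := Classical.epsilon IsCut

/-- The action of a linear endomorphism on chains. -/
abbrev pE {F Ω : Type u} [Field F] [Field Ω] [Algebra F Ω] {Γ : Type} (θ : Module.End F Ω)
    (q : ℕ) : Xq Γ Ω q →+ Xq Γ Ω q := push θ.toAddMonoidHom q

/-- Reduced chains over `OW W`. -/
def CW (W : Sb N) (q : ℕ) : AddSubgroup (Xq G2 (OmN F N) q) := CR (OW F W).toSubring q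

/-- Chains coming from proper subspaces. -/
def Deg (W : Sb N) (q : ℕ) : AddSubgroup (Xq G2 (OmN F N) q) := ⨆ W' : {W' // W' < W}, CW F W' q

/-- The difference of the two residue maps along a hyperplane. -/
def jump (W W' : Sb N) (q : ℕ) : Xq G2 (OmN F N) q →+ Xq G2 (OmN F N) q :=
  pE (res F (cut W W')) q - pE (res F (-cut W W')) q

/-- Finitely supported families of chains indexed by subspaces. -/
abbrev Fam (N q : ℕ) : Type u := Sb N →₀ Xq G2 (OmN F N) q

open Classical in
/-- The differential in the direction of the subspaces. -/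
def dY {q : ℕ} (c : Fam F N q) (W' : Sb N) : Xq G2 (OmN F N) q :=
  c.sum fun W x => if Hyp W' W then jump F W W' q x else 0

/-- Families supported in dimension `p`. -/
def YG (p : ℕ) {q : ℕ} (c : Fam F N q) : Prop :=
  ∀ W, c W ∈ CW F W q ∧ (Module.finrank ℚ W ≠ p → c W = 0)

/-- Families from which a staircase leads to a boundary. -/
def Ynull : ∀ (_ q : ℕ), Fam F N q → Prop
  | 0, _, c => Bd (⊥ : Subalgebra F (OmN F N)).toSubring (c ⊥)
  | p + 1, q, c => ∃ Θ : Fam F N (q + 1), YG F (p + 1) Θ ∧
      (∀ W, dX _ q (Θ W) - c W ∈ Deg F W q) ∧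
      ∃ c' : Fam F N (q + 1), YG F p c' ∧ (∀ W, c' W - dY F Θ W ∈ Deg F W (q + 1)) ∧
        Ynull p (q + 1) c'

/-! ### Faces of the simplex -/

/-- The barycentric coordinate of the vertex `i` on the face `I`. -/
def tI (I : Finset (Fin N)) (i : Fin N) : OmN F N :=
  mono F (Pi.single i 1) / ∑ l ∈ I, mono F (Pi.single l 1)

/-- The coordinate ring of a face. -/
def PI (I : Finset (Fin N)) : Subalgebra F (OmN F N) := Algebra.adjoin F (tI F I '' (I : Set _))

/-- The subspace of a face. -/
def WI (I : Finset (Fin N)) : Sb N :=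
  Submodule.span ℚ {x | ∃ a ∈ I, ∃ b ∈ I, x = Pi.single a 1 - Pi.single b 1}

/-- The embedding of the coordinate ring of a simplex attached to a family of vertices. -/
def emb {p : ℕ} (f : Fin (p + 1) → Fin N) : Base F p →ₐ[F] OmN F N :=
  aeval fun k : Fin p => tI F (Finset.univ.image f) (f k.succ)

/-- The coordinate functional. -/
def crd (i : Fin N) : Fn N := (Algebra.linearMap ℚ ℝ).comp (LinearMap.proj i)

open Classical in
/-- The vertices of a face on which a functional is minimal. -/
def amin (I : Finset (Fin N)) (w : Fn N) : Finset (Fin N) :=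
  I.filter fun i => ∀ l ∈ I, w (Pi.single i 1) ≤ w (Pi.single l 1)

/-- A vector pointing from the face `I` to the vertex `i`. -/
def vI (I : Finset (Fin N)) (i : Fin N) : Vec N := ∑ l ∈ I, (Pi.single i 1 - Pi.single l 1)

/-- The orientation sign of a facet. -/
def epsI (I : Finset (Fin N)) (i : Fin N) : ℚ :=
  (SignType.sign (cut (WI (insert i I)) (WI I) (vI I i)) : ℚ)

/-! ### Toric charts -/

section Toric

variable {L : Type u} [Field L] [Algebra F L] {e : ℕ}

/-- Laurent monomials in a family of units. -/
def chi (b : Fin e → Lˣ) (m : Fin e → ℤ) : Lˣ := ∏ l, b l ^ m l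

/-- The local ring of the origin in the coordinates `x`. -/
def Oc (x : Fin e → L) : Subalgebra F L where
  carrier := {r | ∃ p q : MvPolynomial (Fin e) F, constantCoeff q ≠ 0 ∧
    r * aeval x q = aeval x p}
  mul_mem' := by
    rintro a b ⟨p, q, hq, h⟩ ⟨p', q', hq', h'⟩
    exact ⟨p * p', q * q', by simp [hq, hq'], by rw [map_mul, map_mul, ← h, ← h']; ring⟩
  add_mem' := by
    rintro a b ⟨p, q, hq, h⟩ ⟨p', q', hq', h'⟩
    exact ⟨p * q' + p' * q, q * q', by simp [hq, hq'], by
      rw [map_add, map_mul, map_mul, map_mul, ← h, ← h']; ring⟩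
  algebraMap_mem' c := ⟨C c, 1, by simp, by simp⟩

/-- The ring generated by the quotients of the monomials of `S` by their sum. -/
def AS (b : Fin e → Lˣ) (S : Finset (Fin e → ℤ)) : Subalgebra F L :=
  Algebra.adjoin F ((fun m => (chi b m : L) / ∑ m' ∈ S, (chi b m' : L)) '' (S : Set _))

/-- The point `v` is a smooth vertex of `S` with edge directions `x`. -/
def IsChart (S : Finset (Fin e → ℤ)) (v : Fin e → ℤ) (x : Module.Basis (Fin e) ℤ (Fin e → ℤ)) :
    Prop :=
  v ∈ S ∧ (∀ i, v + x i ∈ S) ∧ ∀ m ∈ S, ∀ i, 0 ≤ x.repr (m - v) i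

/-- Every element of `E` is a nonnegative or a nonpositive combination of the basis. -/
def Adapted (E : Finset (Fin e → ℤ)) (x : Module.Basis (Fin e) ℤ (Fin e → ℤ)) : Prop :=
  ∀ ε ∈ E, (∀ i, 0 ≤ x.repr ε i) ∨ ∀ i, x.repr ε i ≤ 0

end Toric

end

end Pool.Agent.MP_e2821c_ag.Dg
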