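import Pool.Agent.Lib.MP_e2821c_ag.Dg.Acyc

namespace Pool.Agent.MP_e2821c_ag.Dg

open MvPolynomial

universe u v w

noncomputable section

variable {F : Type u} [Field F] [CharZero F] {N q : ℕ}

theorem Ynull.congr {p : ℕ} {c c' : Fam F N q} (h : Ynull F p q c)
    (hc : ∀ W, c' W - c W ∈ Deg F W q) : Ynull F p q c' := by
  cases p with
  | zero =>
    have h1 := hc ⊥
    rw [Deg_bot, AddSubgroup.mem_bot, sub_eq_zero] at h1
    change Bd _ (c' ⊥)
    rw [h1]
    exact h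
  | succ p =>
    obtain ⟨Θ, h1, h2, h3⟩ := h
    refine ⟨Θ, h1, fun W => ?_, h3⟩
    convert sub_mem (h2 W) (hc W) using 1
    abel

omit [CharZero F] in
theorem YG.neg_Detect {p : ℕ} {c : Fam F N q} (h : YG F p c) : YG F p (-c) := fun W =>
  ⟨neg_mem (h W).1, fun e => by rw [Finsupp.neg_apply, (h W).2 e, neg_zero]⟩

omit [CharZero F] in
theorem YG.add_Detect {p : ℕ} {c c' : Fam F N q} (h : YG F p c) (h' : YG F p c') :
    YG F p (c + c') := fun W =>
  ⟨add_mem (h W).1 (h' W).1, fun e => by rw [Finsupp.add_apply, (h W).2 e, (h' W).2 e, add_zero]⟩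

theorem Ynull.neg {p : ℕ} {c : Fam F N q} (h : Ynull F p q c) : Ynull F p q (-c) := by
  induction p generalizing q with
  | zero => exact Bd.neg h
  | succ p ih =>
    obtain ⟨Θ, h1, h2, c', h3, h4, h5⟩ := h
    refine ⟨-Θ, h1.neg_Detect, fun W => ?_, -c', h3.neg_Detect, fun W => ?_, ih h5⟩
    · convert neg_mem (h2 W) using 1
      rw [Finsupp.neg_apply, Finsupp.neg_apply, map_neg]
      abel
    · convert neg_mem (h4 W) using 1
      rw [Finsupp.neg_apply, dY_neg]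
      abel

theorem Ynull.shift_Detect {p : ℕ} {c c' : Fam F N q} (h : Ynull F p q c) {e : Fam F N (q + 1)}
    (he : YG F p e) (hd : ∀ W, dY F e W ∈ Deg F W (q + 1))
    (hc : ∀ W, c' W - (c W + dX _ q (e W)) ∈ Deg F W q) : Ynull F p q c' := by
  cases p with
  | zero =>
    have h1 := hc ⊥
    rw [Deg_bot, AddSubgroup.mem_bot, sub_eq_zero] at h1
    have h2 := (he ⊥).1
    rw [CW_bot] at h2
    change Bd _ (c' ⊥)
    rw [h1]
    exact Bd.add h ⟨e ⊥, h2.1, rfl⟩
  | succ p =>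
    obtain ⟨Θ, h1, h2, c'', h3, h4, h5⟩ := h
    refine ⟨Θ + e, h1.add_Detect he, fun W => ?_, c'', h3, fun W => ?_, h5⟩
    · convert sub_mem (h2 W) (hc W) using 1
      rw [Finsupp.add_apply, map_add]
      abel
    · convert sub_mem (h4 W) (hd W) using 1
      rw [dY_add]
      abel

theorem Ynull.detect {p : ℕ} {c : Fam F N q} (h : Ynull F (p + 1) q c) {Θ c' : Fam F N (q + 1)}
    (hΘ : YG F (p + 1) Θ) (hd : ∀ W, dX _ q (Θ W) - c W ∈ Deg F W q)
    (hc' : ∀ W, c' W - dY F Θ W ∈ Deg F W (q + 1)) : Ynull F p (q + 1) c' := by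
  obtain ⟨Θ₀, h1, h2, c₀, h3, h4, h5⟩ := h
  have hD := hΘ.add_Detect h1.neg_Detect
  have key : ∀ W, ∃ e ∈ CW F W (q + 2), (Θ + -Θ₀) W - dX _ (q + 1) e ∈ Deg F W (q + 1) ∧
      ((Θ + -Θ₀) W = 0 → e = 0) := fun W => by
    by_cases h0 : (Θ + -Θ₀) W = 0
    · exact ⟨0, zero_mem _, by rw [h0, map_zero, sub_zero]; exact zero_mem _, fun _ => rfl⟩
    · have hW : W ≠ ⊥ := by
        rintro rfl
        exact h0 ((hD ⊥).2 (by simp))
      obtain ⟨e, a, b⟩ := acyc hW (hD W).1 (by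
        convert sub_mem (hd W) (h2 W) using 1
        rw [Finsupp.add_apply, Finsupp.neg_apply, map_add, map_neg]
        abel)
      exact ⟨e, a, b, fun h => absurd h h0⟩
  choose e e1 e2 e3 using key
  let E : Fam F N (q + 2) := Finsupp.onFinset (Θ + -Θ₀).support e fun W hW =>
    Finsupp.mem_support_iff.2 fun h0 => hW (e3 W h0)
  have hE : YG F (p + 1) E := fun W => ⟨e1 W, fun h0 => e3 W ((hD W).2 h0)⟩
  obtain ⟨e', a1, a2⟩ := exists_dY hE
  refine h5.shift_Detect a1 (dY_dY (fun W => (hE W).1) a2) fun W => ?_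
  have b1 := dX_mem_Deg (a2 W)
  have b2 := dY_deg (c := Θ + -Θ₀ + -E.mapRange (dX _ (q + 1)) (map_zero _)) (fun W => by
    convert e2 W using 1
    rw [Finsupp.add_apply (Θ + -Θ₀), Finsupp.neg_apply, Finsupp.mapRange_apply, sub_eq_add_neg]
    rfl) W
  rw [map_sub, dX_dY] at b1
  rw [dY_add, dY_add, dY_neg, dY_neg] at b2
  convert add_mem (sub_mem (sub_mem (hc' W) (h4 W)) b1) b2 using 1
  abel

theorem ynull_of_stair {j : ℕ} (Θ : ∀ n, Fam F N (n + 1))
    (hG : ∀ n p, n + p = j → YG F (p + 1) (Θ n))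
    (hstep : ∀ n, n < j → ∀ W, dX _ (n + 1) (Θ (n + 1) W) - dY F (Θ n) W ∈ Deg F W (n + 1))
    (hlast : ∀ W, Θ j W ∈ CR (⊥ : Subalgebra F (OmN F N)).toSubring (j + 1)) {c : Fam F N 0}
    (hc : ∀ W, dX _ 0 (Θ 0 W) - c W ∈ Deg F W 0) : Ynull F (j + 1) 0 c := by
  have key : ∀ p n, n + p = j → ∀ c : Fam F N n, (∀ W, dX _ n (Θ n W) - c W ∈ Deg F W n) →
      Ynull F (p + 1) n c := by
    intro p
    induction p with
    | zero =>
      intro n hn c hc
      obtain rfl : n = j := hn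
      refine ⟨Θ n, hG n 0 rfl, hc, 0, fun W => ⟨zero_mem _, fun _ => rfl⟩, fun W => ?_, Bd.zero⟩
      have : dY F (Θ n) W = 0 := Finset.sum_eq_zero fun W' _ => by
        simp only [jump_const W' W (hlast W'), ite_self]
      rw [this, Finsupp.zero_apply, sub_zero]
      exact zero_mem _
    | succ p ih =>
      intro n hn c hc
      have hn' : n + 1 + p = j := by omega
      have h1 := hG _ _ hn'
      refine ⟨Θ n, hG n _ hn, hc, (Θ (n + 1)).mapRange (dX _ (n + 1)) (map_zero _),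
        fun W => ⟨dX_mem_CR (h1 W).1, fun e => ?_⟩, hstep n (by omega), ih _ hn' _ fun W => ?_⟩
      · rw [Finsupp.mapRange_apply, (h1 W).2 e, map_zero]
      · rw [Finsupp.mapRange_apply, sub_self]
        exact zero_mem _
  exact key j 0 (zero_add j) c hc

end

end Pool.Agent.MP_e2821c_ag.Dg
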