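import Pool.Agent.Lib.MP_e2821c_ag.Dg.Simp

namespace Pool.Agent.MP_e2821c_ag.Dg

open MvPolynomial

universe u v w

noncomputable section

section Aux

variable (F : Type u) [CommRing F]

theorem sm_X_EZ {a b : ℕ} {f : Fin (a + 1) → Fin (b + 1)} (hf : f 0 = 0) (k : Fin b) :
    Cy.sm F f (X k) = ∑ i ∈ Finset.univ.filter (fun i : Fin a => f i.succ = k.succ), X i := by
  rw [Cy.sm, aeval_X, Finset.sum_filter, Finset.sum_filter, Fin.sum_univ_succ, hf,
    if_neg (Fin.succ_ne_zero k).symm, zero_add]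
  simp [bary]

theorem gam_sm_EZ {a b : ℕ} {f : Fin (a + 1) → Fin (b + 1)} (hf : f 0 = 0) :
    (Polynomial.mapRingHom (Cy.smR F f)).comp (gam F b).toRingHom =
      (gam F a).toRingHom.comp (Cy.smR F f) := by
  refine MvPolynomial.ringHom_ext (fun c => ?_) fun k => ?_
  · simp [gam, Cy.sm]
  · simp [gam, sm_X_EZ F hf, Finset.sum_mul]

theorem cc_sm_EZ {a b : ℕ} {f : Fin (a + 1) → Fin (b + 1)} (hf : f 0 = 0) :
    (constantCoeff : Base F a →+* F).comp (Cy.smR F f) = constantCoeff := by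
  refine MvPolynomial.ringHom_ext (fun c => ?_) fun k => ?_
  · simp [Cy.sm]
  · simp [sm_X_EZ F hf]

theorem ev_one_gam_EZ (p : ℕ) :
    (Polynomial.evalRingHom 1).comp (gam F p).toRingHom = RingHom.id _ :=
  RingHom.ext fun f => eval_one_gam F p f

theorem ev_zero_gam_EZ (p : ℕ) :
    (Polynomial.evalRingHom 0).comp (gam F p).toRingHom =
      (C : F →+* Base F p).comp constantCoeff :=
  RingHom.ext fun f => eval_zero_gam F p f

theorem gam_C_EZ (p : ℕ) : (gam F p).toRingHom.comp (C : F →+* Base F p) =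
    (Polynomial.mapRingHom (C : F →+* Base F p)).comp Polynomial.C :=
  RingHom.ext fun f => by simp

/-- The exchange of the two groups of simplex variables. -/
def sw_EZ (p q : ℕ) : Base (Base F p) q →+* Base (Base F q) p :=
  eval₂Hom (MvPolynomial.map C) fun k => C (X k)

theorem sw_C_EZ (p q : ℕ) (a : Base F p) : sw_EZ F p q (C a) = MvPolynomial.map C a := by
  simp [sw_EZ]

theorem sw_X_EZ (p q : ℕ) (k : Fin q) : sw_EZ F p q (X k) = C (X k) := by
  simp [sw_EZ]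

theorem sw_map_C_EZ (p q : ℕ) (a : Base F q) : sw_EZ F p q (MvPolynomial.map C a) = C a := by
  induction a using MvPolynomial.induction_on with
  | C c => simp [sw_C_EZ]
  | add a b ha hb => simp only [map_add, ha, hb]
  | mul_X a k ha => simp only [map_mul, ha, map_X, sw_X_EZ]

theorem sw_sw_EZ (p q : ℕ) (a : Base (Base F p) q) : sw_EZ F q p (sw_EZ F p q a) = a := by
  induction a using MvPolynomial.induction_on with
  | C c => rw [sw_C_EZ, sw_map_C_EZ]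
  | add a b ha hb => simp only [map_add, ha, hb]
  | mul_X a k ha => simp only [map_mul, ha, sw_X_EZ, sw_C_EZ, map_X]

theorem sw_map_sm_EZ {a b : ℕ} (f : Fin (a + 1) → Fin (b + 1)) (q : ℕ) (x : Base (Base F b) q) :
    sw_EZ F a q (MvPolynomial.map (Cy.smR F f) x) = Cy.sm (Base F q) f (sw_EZ F b q x) := by
  induction x using MvPolynomial.induction_on with
  | C c => rw [map_C, sw_C_EZ, sw_C_EZ, Cy.smR_apply, Cy.map_sm]
  | add a b ha hb => simp only [map_add, ha, hb]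
  | mul_X a k ha => simp only [map_mul, ha, sw_X_EZ, map_X, algHom_C, algebraMap_eq]

variable {Γ : Type}

/-- The exchange on chains. -/
def swX_EZ (p q : ℕ) : Xq Γ (Base F p) q →+ Xq Γ (Base F q) p :=
  (sw_EZ F p q).toAddMonoidHom.compLeft Γ

theorem swX_apply_EZ (p q : ℕ) (x : Xq Γ (Base F p) q) (γ : Γ) :
    swX_EZ F p q x γ = sw_EZ F p q (x γ) := rfl

theorem swX_swX_EZ (p q : ℕ) (x : Xq Γ (Base F p) q) : swX_EZ F q p (swX_EZ F p q x) = x :=
  funext fun γ => by rw [swX_apply_EZ, swX_apply_EZ, sw_sw_EZ]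

theorem swX_cst_EZ (p q : ℕ) (η : Xq Γ F p) :
    swX_EZ F p q (cst q η) = pushR (C : F →+* Base F q) p η :=
  funext fun γ => by rw [swX_apply_EZ, cst_apply, sw_C_EZ, pushR_apply]

/-- The horizontal differential. -/
def dh_EZ (p q : ℕ) : Xq Γ (Base F (p + 1)) q →+ Xq Γ (Base F p) q :=
  ∑ i : Fin (p + 2), ((-1 : ℤ) ^ (i : ℕ)) • hface F p q i

theorem dh_apply_EZ (p q : ℕ) (x : Xq Γ (Base F (p + 1)) q) :
    dh_EZ F p q x = ∑ i : Fin (p + 2), ((-1 : ℤ) ^ (i : ℕ)) • hface F p q i x := by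
  simp only [dh_EZ, AddMonoidHom.finsetSum_apply, AddMonoidHom.smul_apply]

theorem swX_dh_EZ (p q : ℕ) (x : Xq Γ (Base F (p + 1)) q) :
    swX_EZ F p q (dh_EZ F p q x) = dX (Base F q) p (swX_EZ F (p + 1) q x) := by
  rw [dh_apply_EZ, dX_apply, map_sum]
  refine Finset.sum_congr rfl fun i _ => ?_
  rw [map_zsmul]
  congr 1
  funext γ
  rw [swX_apply_EZ, pushR_apply, sw_map_sm_EZ, act_apply, swX_apply_EZ]

theorem dX_dh_EZ (p q : ℕ) (x : Xq Γ (Base F (p + 1)) (q + 1)) :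
    dX (Base F p) q (dh_EZ F p (q + 1) x) = dh_EZ F p q (dX (Base F (p + 1)) q x) := by
  rw [dh_apply_EZ, dh_apply_EZ, map_sum]
  refine Finset.sum_congr rfl fun i _ => ?_
  rw [map_zsmul, push_dX]

theorem pushR_id_EZ {R : Type u} [CommRing R] (q : ℕ) (x : Xq Γ R q) :
    pushR (RingHom.id R) q x = x := push_id q x

theorem hface_prism_EZ (p q : ℕ) (i : Fin (p + 1)) (z : Xq Γ (Base F (p + 1)) q) :
    hface F p (q + 1) i.succ (prism _ q (pushR (gam F (p + 1)).toRingHom q z)) =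
      prism _ q (pushR (gam F p).toRingHom q (hface F p q i.succ z)) := by
  rw [pushR_prism, pushR_pushR, pushR_pushR, gam_sm_EZ F (Fin.succ_succAbove_zero i)]

theorem hface_hface_EZ (p q : ℕ) (i : Fin (p + 2)) (y : Xq Γ (Base F (p + 2)) q) :
    hface F p q i (hface F (p + 1) q 0 y) = hface F p q 0 (hface F (p + 1) q i.succ y) := by
  rw [pushR_pushR, pushR_pushR, ← Cy.smR_comp, ← Cy.smR_comp]
  congr 3
  funext j
  simp

end Aux

section Aux2

variable (F : Type u) [Field F] [CharZero F] {Γ : Type} [AddCommGroup Γ]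

theorem swX_mem_EZ (p q : ℕ) {x : Xq Γ (Base F p) q} (hx : x ∈ Ch Γ ⊤ q) :
    swX_EZ F p q x ∈ Ch Γ (⊤ : Subring (Base F q)) p :=
  mem_Ch_top.2 (map_mem_corrIn (sw_EZ F p q) (fun _ _ => Set.mem_univ _) (mem_Ch_top.1 hx))

theorem prism_gam_mem_EZ (p q : ℕ) {x : Xq Γ (Base F p) q} (hx : x ∈ Ch Γ ⊤ q) :
    prism _ q (pushR (gam F p).toRingHom q x) ∈ Ch Γ (⊤ : Subring (Base F p)) (q + 1) :=
  prism_mem (pushR_mem _ (fun _ _ => by rw [polySub_top]; trivial) hx)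

theorem contr_zero_EZ (b : ℕ) {x : Xq Γ (Base F b) 0} (hx : x ∈ Ch Γ ⊤ 0) :
    ∃ y ∈ Ch Γ (⊤ : Subring (Base F b)) 1, ∃ η : Xq Γ F 0,
      x = dX _ 0 y + pushR (C : F →+* Base F b) 0 η := by
  refine ⟨_, prism_gam_mem_EZ F b 0 hx, pushR constantCoeff 0 x, ?_⟩
  rw [dX_prism_zero, pushR_pushR, pushR_pushR, pushR_pushR, ev_one_gam_EZ, ev_zero_gam_EZ,
    pushR_id_EZ, sub_add_cancel]

theorem contr_succ_EZ (a b : ℕ) {x : Xq Γ (Base F b) (a + 1)} (hx : x ∈ Ch Γ ⊤ (a + 1))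
    {η' : Xq Γ F a} (h : dX _ a x = pushR (C : F →+* Base F b) a η') :
    ∃ y ∈ Ch Γ (⊤ : Subring (Base F b)) (a + 2), ∃ η : Xq Γ F (a + 1),
      x = dX _ (a + 1) y + pushR (C : F →+* Base F b) (a + 1) η := by
  refine ⟨_, prism_gam_mem_EZ F b (a + 1) hx,
    prism F a (pushR Polynomial.C a η') + pushR constantCoeff (a + 1) x, ?_⟩
  have h1 := dX_prism_succ a (pushR (gam F b).toRingHom (a + 1) x)
  rw [← push_dX, h, pushR_pushR, pushR_pushR, pushR_pushR, ev_one_gam_EZ, ev_zero_gam_EZ,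
    pushR_id_EZ, gam_C_EZ, ← pushR_pushR, ← pushR_prism] at h1
  rw [map_add, pushR_pushR, ← add_assoc, h1, sub_add_cancel]

theorem hor_of_EZ {a b : ℕ} {x : Xq Γ (Base F a) b}
    (h : ∃ y ∈ Ch Γ (⊤ : Subring (Base F b)) (a + 1), ∃ η : Xq Γ F a,
      swX_EZ F a b x = dX _ a y + pushR (C : F →+* Base F b) a η) :
    ∃ y ∈ Ch Γ (⊤ : Subring (Base F (a + 1))) b, ∃ η : Xq Γ F a,
      x = dh_EZ F a b y + cst b η := by
  obtain ⟨y, hy, η, h⟩ := h
  refine ⟨_, swX_mem_EZ F b (a + 1) hy, η, ?_⟩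
  rw [← swX_swX_EZ F a b x, ← swX_swX_EZ F a b (_ + _), map_add (swX_EZ F a b), swX_dh_EZ,
    swX_swX_EZ F b (a + 1), swX_cst_EZ, h]

/-- The inductive notion of a null staircase. -/
def Nn_EZ : ∀ p q : ℕ, Xq Γ (Base F p) q → Prop
  | 0, _, z => Bd ⊤ z
  | p + 1, q, z => ∃ y ∈ Ch Γ (⊤ : Subring (Base F (p + 1))) (q + 1), dX _ q y = z ∧
      Nn_EZ p (q + 1) (dh_EZ F p (q + 1) y)

theorem claim_EZ : ∀ (p q : ℕ) (z : Xq Γ (Base F p) q), Nn_EZ F p q z →
    ∃ y ∈ Ch Γ (⊤ : Subring (Base F (p + 1))) (q + 1), ∃ η : Xq Γ F p,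
      z = dh_EZ F p q (dX _ q y) + eps q • cst q η
  | 0, q, z, ⟨y₀, hy₀, h⟩ => by
    obtain ⟨y, hy, η, h1⟩ := hor_of_EZ F (contr_zero_EZ F (q + 1) (swX_mem_EZ F 0 (q + 1) hy₀))
    exact ⟨y, hy, η, by rw [← h, h1, map_add, dX_dh_EZ, dX_cst]⟩
  | p + 1, q, z, ⟨y₀, hy₀, h, hN⟩ => by
    obtain ⟨y₁, hy₁, η₁, h1⟩ := claim_EZ p (q + 1) _ hN
    obtain ⟨y, hy, η, h2⟩ := hor_of_EZ F (contr_succ_EZ F p (q + 1)
      (swX_mem_EZ F (p + 1) (q + 1) (sub_mem hy₀ (dX_mem_Ch hy₁))) (η' := eps (q + 1) • η₁) (by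
        rw [← swX_dh_EZ, map_sub, h1, add_sub_cancel_left, ← swX_cst_EZ, map_zsmul, map_zsmul,
          map_zsmul]))
    refine ⟨y, hy, η, ?_⟩
    have h3 := congrArg (dX _ q) h2
    rwa [map_sub, dX_dX, sub_zero, h, map_add, dX_dh_EZ, dX_cst] at h3

end Aux2

theorem exists_poly (F : Type u) [Field F] [CharZero F] :
    ∃ Nn : ∀ p q : ℕ, Xq G2 (Base F p) q → Prop,
      (∀ q (z : Xq G2 (Base F 0) q), Bd ⊤ z → Nn 0 q z) ∧
      (∀ p q (z : Xq G2 (Base F (p + 1)) q), GoodZ F (p + 1) q z →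
        ∃ y ∈ CR (⊤ : Subring (Base F (p + 1))) (q + 1), dX _ q y = z ∧
          (∀ i : Fin (p + 1), hface F p (q + 1) i.succ y = 0) ∧
          GoodZ F p (q + 1) (hface F p (q + 1) 0 y) ∧
          (Nn p (q + 1) (hface F p (q + 1) 0 y) → Nn (p + 1) q z)) ∧
      ∀ p (ξ : Xq G2 F p), Nn p 0 (cst 0 ξ) → Bd ⊤ ξ := by
  refine ⟨Nn_EZ F, fun _ _ h => h, fun p q z ⟨⟨hz, hr⟩, hc, hn⟩ => ?_, fun p ξ h => ?_⟩
  · have hm := prism_gam_mem_EZ F (p + 1) q hz
    have hR : Red (prism _ q (pushR (gam F (p + 1)).toRingHom q z)) := Red.prism (Red.push hr _)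
    have hd : dX _ q (prism _ q (pushR (gam F (p + 1)).toRingHom q z)) = z := by
      rw [dX_prism (hc.push _), pushR_pushR, pushR_pushR, ev_one_gam_EZ, ev_zero_gam_EZ,
        pushR_id_EZ, ← cc_sm_EZ F (Fin.succ_succAbove_zero (0 : Fin (p + 1))),
        ← RingHom.comp_assoc, ← pushR_pushR, hn, map_zero, sub_zero]
    have hf : ∀ i : Fin (p + 1), hface F p (q + 1) i.succ
        (prism _ q (pushR (gam F (p + 1)).toRingHom q z)) = 0 := fun i => by
      rw [hface_prism_EZ, hn, map_zero, map_zero]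
    refine ⟨_, ⟨hm, hR⟩, hd, hf,
      ⟨⟨pushR_mem _ (fun _ _ => Subring.mem_top _) hm, Red.push hR _⟩, ?_, ?_⟩,
      fun h => ⟨_, hm, hd, ?_⟩⟩
    · show dX _ q _ = 0
      rw [← push_dX, hd]
      exact hn 0
    · cases p with
      | zero => trivial
      | succ p => exact fun i => by rw [hface_hface_EZ, hf, map_zero]
    · rw [dh_apply_EZ, Fin.sum_univ_succ]
      simpa only [hf, smul_zero, Finset.sum_const_zero, add_zero, Fin.val_zero, pow_zero, one_smul]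
        using h
  · obtain ⟨y, hy, η, h1⟩ := claim_EZ F p 0 _ h
    have h2 := congrArg (fun x => pushR (constantCoeff : Base F 0 →+* F) p (swX_EZ F p 0 x)) h1
    have h3 : eps 0 = 0 := by simp [eps]
    have h4 : (constantCoeff : Base F 0 →+* F).comp C = RingHom.id F := RingHom.ext fun _ => by simp
    simp only [h3, zero_smul, add_zero, swX_cst_EZ, swX_dh_EZ, pushR_pushR, h4, pushR_id_EZ] at h2
    rw [h2]
    exact Bd.pushR ⟨_, swX_mem_EZ F (p + 1) 0 (dX_mem_Ch hy), rfl⟩ _ fun _ _ => trivial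

end

end Pool.Agent.MP_e2821c_ag.Dg
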