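import Pool.Agent.Lib.MP_e2821c_ag.Dg.Core

namespace Pool.Agent.MP_e2821c_ag.Dg

open MvPolynomial

universe u v w

noncomputable section

theorem esymm_bdd_Eff {E : Type u} [Field E] (A : Subring E) [QAlg A] (m : Multiset E) (n : ℕ)
    (h : ∀ k : ℕ, 0 < k → k ≤ n → (m.map fun x => x ^ k).sum ∈ A) :
    ∀ k : ℕ, k ≤ n → m.esymm k ∈ A := by
  classical
  have hm : (Finset.univ : Finset m.ToType).val.map (fun x : m.ToType => (x : E)) = m :=
    Multiset.map_univ_coe m
  have he : ∀ k, aeval (fun x : m.ToType => (x : E)) (esymm m.ToType ℤ k) = m.esymm k := by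
    intro k
    rw [aeval_esymm_eq_multiset_esymm, hm]
  have hp : ∀ k, aeval (fun x : m.ToType => (x : E)) (psum m.ToType ℤ k) =
      (m.map fun x => x ^ k).sum := by
    intro k
    conv_rhs => rw [← hm, Multiset.map_map]
    simp only [psum, map_sum, map_pow, aeval_X]
    rfl
  intro k
  induction k using Nat.strong_induction_on with
  | _ k ih =>
    intro hk
    rcases Nat.eq_zero_or_pos k with rfl | hk0
    · simp only [Multiset.esymm, Multiset.powersetCard_zero_left, Multiset.map_singleton,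
        Multiset.prod_zero, Multiset.sum_singleton]
      exact A.one_mem
    have h1 := congrArg (aeval (fun x : m.ToType => (x : E))) (mul_esymm_eq_sum m.ToType ℤ k)
    simp only [map_mul, map_natCast, map_pow, map_neg, map_one, map_sum, he, hp] at h1
    have h2 : (k : E) * m.esymm k ∈ A := by
      rw [h1]
      refine A.mul_mem (A.pow_mem (A.neg_mem A.one_mem) _) (A.sum_mem fun a ha => ?_)
      rw [Finset.mem_filter, Finset.HasAntidiagonal.mem_antidiagonal] at ha
      refine A.mul_mem (A.mul_mem (A.pow_mem (A.neg_mem A.one_mem) _) (ih _ ha.2 ?_))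
        (h _ ?_ ?_) <;> omega
    obtain ⟨w, hw⟩ := (QAlg.isUnit_natCast (S := A) k hk0.ne').exists_left_inv
    have hw' : (w : E) * k = 1 := by
      have := congrArg A.subtype hw
      simpa using this
    have h3 : m.esymm k = (w : E) * ((k : E) * m.esymm k) := by
      rw [← mul_assoc, hw', one_mul]
    rw [h3]
    exact A.mul_mem w.2 h2

theorem coeff_prod_mem_Eff {E : Type u} [Field E] (A : Subring E) [QAlg A] (m : Multiset E)
    (h : ∀ k : ℕ, 0 < k → k ≤ m.card → (m.map fun x => x ^ k).sum ∈ A) (j : ℕ) :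
    (m.map fun t => Polynomial.X - Polynomial.C t).prod.coeff j ∈ A := by
  by_cases hj : j ≤ m.card
  · rw [Multiset.prod_X_sub_C_coeff m hj]
    exact A.mul_mem (A.pow_mem (A.neg_mem A.one_mem) _)
      (esymm_bdd_Eff A m m.card h _ (Nat.sub_le _ _))
  · rw [Polynomial.coeff_eq_zero_of_natDegree_lt]
    · exact A.zero_mem
    · rw [Polynomial.natDegree_multiset_prod_X_sub_C_eq_card]
      omega

theorem eval_prod_Eff {E : Type u} [Field E] (m : Multiset E) {x : E} (hx : x ∈ m) :
    (m.map fun t => Polynomial.X - Polynomial.C t).prod.eval x = 0 := by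
  rw [Polynomial.eval_multiset_prod, Multiset.prod_eq_zero_iff, Multiset.map_map,
    Multiset.mem_map]
  exact ⟨x, hx, by simp⟩

theorem ext_hom_Eff {S : Type u} {B : Type v} {E : Type w} [CommRing S] [CommRing B] [Field E]
    [IsAlgClosed E] [Algebra S B] [Algebra.IsIntegral S B]
    (hi : Function.Injective (algebraMap S B)) (φ : S →+* E) :
    ∃ φ' : B →+* E, ∀ s, φ' (algebraMap S B s) = φ s := by
  have : (RingHom.ker φ).IsPrime := RingHom.ker_isPrime φ
  obtain ⟨Q, -, hQ, hQP⟩ := Ideal.exists_ideal_over_prime_of_isIntegral (S := B) (RingHom.ker φ) ⊥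
    (by
      rw [← RingHom.ker_eq_comap_bot, (RingHom.injective_iff_ker_eq_bot _).1 hi]
      exact bot_le)
  let f : S ⧸ Q.comap (algebraMap S B) →+* E :=
    Ideal.Quotient.lift _ φ fun a ha => by rwa [hQP] at ha
  have hf : Function.Injective f := by
    rw [injective_iff_map_eq_zero]
    intro a ha
    obtain ⟨a, rfl⟩ := Ideal.Quotient.mk_surjective a
    rw [Ideal.Quotient.eq_zero_iff_mem, hQP]
    exact ha
  let : Algebra (S ⧸ Q.comap (algebraMap S B)) E := f.toAlgebra
  have : FaithfulSMul (S ⧸ Q.comap (algebraMap S B)) E :=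
    (faithfulSMul_iff_algebraMap_injective _ _).2 hf
  have : FaithfulSMul (S ⧸ Q.comap (algebraMap S B)) (B ⧸ Q) :=
    (faithfulSMul_iff_algebraMap_injective _ _).2 Ideal.algebraMap_quotient_injective
  let g : (B ⧸ Q) →ₐ[S ⧸ Q.comap (algebraMap S B)] E := IsAlgClosed.lift
  refine ⟨g.toRingHom.comp (Ideal.Quotient.mk Q), fun s => ?_⟩
  exact g.commutes (Ideal.Quotient.mk _ s)

theorem li_Eff {Γ : Type v} [AddCommMonoid Γ] (E : Type u) [Field E] :
    LinearIndependent E (fun ψ : AddChar Γ E => (fun γ => ψ γ : Γ → E)) :=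
  (linearIndependent_monoidHom (Multiplicative Γ) E).comp
    (AddChar.toMonoidHomEquiv : AddChar Γ E ≃ (Multiplicative Γ →* E))
    AddChar.toMonoidHomEquiv.injective

theorem iOm_injective_Eff (S : Type u) [CommRing S] [IsDomain S] :
    Function.Injective (iOm S) := fun a b h => by
  have h' : algebraMap S (Cy.Om S) a = algebraMap S (Cy.Om S) b := h
  rw [IsScalarTower.algebraMap_apply S (FractionRing S) (Cy.Om S),
    IsScalarTower.algebraMap_apply S (FractionRing S) (Cy.Om S)] at h'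
  exact IsFractionRing.injective S (FractionRing S) ((algebraMap _ (Cy.Om S)).injective h')

theorem psum_char_Eff {Γ : Type v} [AddCommMonoid Γ] {E : Type u} [Field E]
    (s : Multiset (AddChar Γ E)) (g : Γ) (k : ℕ) :
    ((s.map fun ψ => ψ g).map fun x => x ^ k).sum = (s.map fun ψ => ψ (k • g)).sum := by
  rw [Multiset.map_map]
  simp only [Function.comp_def, AddChar.map_nsmul_eq_pow]

theorem sum_comm_Eff {α : Type v} {E : Type u} [Field E] (s : Multiset α) (t : Finset ℕ)
    (c : ℕ → E) (f : α → ℕ → E) :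
    (s.map fun a => ∑ j ∈ t, c j * f a j).sum = ∑ j ∈ t, c j * (s.map fun a => f a j).sum := by
  induction s using Multiset.induction_on with
  | empty => simp
  | cons a s ih => simp [ih, mul_add, Finset.sum_add_distrib]

theorem esymm_mem_of_psum {E : Type u} [Field E] (A : Subring E) [QAlg A] (m : Multiset E)
    (h : ∀ k : ℕ, 0 < k → (m.map fun x => x ^ k).sum ∈ A) (k : ℕ) : m.esymm k ∈ A := by
  exact esymm_bdd_Eff A m k (fun j hj _ => h j hj) k le_rfl

theorem isIntegralElem_of_psum {S : Type u} {E : Type v} [CommRing S] [QAlg S] [Field E]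
    (i : S →+* E) (m : Multiset E) (h : ∀ k : ℕ, 0 < k → (m.map fun x => x ^ k).sum ∈ i.range)
    {x : E} (hx : x ∈ m) : i.IsIntegralElem x := by
  have hl : (m.map fun t => Polynomial.X - Polynomial.C t).prod ∈ Polynomial.lifts i := by
    rw [Polynomial.lifts_iff_coeff_lifts]
    intro n
    exact coeff_prod_mem_Eff i.range m (fun k hk _ => h k hk) n
  obtain ⟨q, hq, -, hm⟩ := Polynomial.lifts_and_natDegree_eq_and_monic hl
    (Polynomial.monic_multiset_prod_of_monic _ _ fun t _ => Polynomial.monic_X_sub_C t)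
  refine ⟨q, hm, ?_⟩
  rw [← Polynomial.eval_map, hq]
  exact eval_prod_Eff m hx

theorem exists_ext_integral {S : Type u} {E₀ : Type v} {E : Type w} [CommRing S] [Field E₀]
    [Field E] [IsAlgClosed E] (i : S →+* E₀) (hi : Function.Injective i) (φ : S →+* E) :
    ∃ (C : Subring E₀) (φ' : C →+* E), (∀ x, x ∈ C ↔ i.IsIntegralElem x) ∧
      ∀ (s : S) (h : i s ∈ C), φ' ⟨i s, h⟩ = φ s := by
  let := i.toAlgebra
  obtain ⟨φ', hφ'⟩ := ext_hom_Eff (B := integralClosure S E₀)
    (fun a b hab => hi (congrArg Subtype.val hab)) φ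
  exact ⟨(integralClosure S E₀).toSubring, φ', fun x => Iff.rfl, fun s _ => hφ' s⟩

theorem dedekind_finsupp {Γ : Type v} [AddCommMonoid Γ] {E : Type u} [Field E]
    (c : AddChar Γ E →₀ E) (h : ∀ γ, (c.sum fun ψ a => a * ψ γ) = 0) : c = 0 := by
  refine linearIndependent_iff.1 (li_Eff (Γ := Γ) E) c ?_
  funext γ
  rw [Finsupp.linearCombination_apply, Finsupp.sum, Finset.sum_apply]
  exact h γ

theorem dedekind_multiset {Γ : Type v} [AddCommMonoid Γ] {E : Type u} [Field E] [CharZero E]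
    {s t : Multiset (AddChar Γ E)}
    (h : ∀ γ, (s.map fun ψ => ψ γ).sum = (t.map fun ψ => ψ γ).sum) : s = t := by
  classical
  have key : ∀ (m : Multiset (AddChar Γ E)) (γ : Γ), m.toFinset ⊆ s.toFinset ∪ t.toFinset →
      (m.map fun ψ => ψ γ).sum = ∑ ψ ∈ s.toFinset ∪ t.toFinset, (m.count ψ : E) * ψ γ := by
    intro m γ hm
    rw [Finset.sum_multiset_map_count]
    simp only [nsmul_eq_mul]
    refine Finset.sum_subset hm fun ψ _ hψ => ?_
    rw [Multiset.mem_toFinset] at hψ
    rw [Multiset.count_eq_zero_of_notMem hψ, Nat.cast_zero, zero_mul]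
  have h0 := linearIndependent_iff'.1 (li_Eff (Γ := Γ) E) (s.toFinset ∪ t.toFinset)
    (fun ψ => (s.count ψ : E) - t.count ψ) (by
      funext γ
      rw [Finset.sum_apply]
      simp only [Pi.smul_apply, smul_eq_mul, sub_mul, Finset.sum_sub_distrib, Pi.zero_apply]
      rw [← key s γ Finset.subset_union_left, ← key t γ Finset.subset_union_right, h γ, sub_self])
  ext ψ
  by_cases hψ : ψ ∈ s.toFinset ∪ t.toFinset
  · exact_mod_cast sub_eq_zero.1 (h0 ψ hψ)
  · rw [Finset.mem_union, not_or, Multiset.mem_toFinset, Multiset.mem_toFinset] at hψ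
    rw [Multiset.count_eq_zero_of_notMem hψ.1, Multiset.count_eq_zero_of_notMem hψ.2]

section Eff

variable {Γ : Type v} [AddCommMonoid Γ] {S S' : Type u} [CommRing S] [CommRing S'] {d d' : ℕ}
  {τ τ' : Γ → S}

theorem Eff.isDomain (h : Eff d τ) : IsDomain S := by
  obtain ⟨E, _, i, hi, -⟩ := h
  exact hi.isDomain i

theorem Eff.master [QAlg S] (h : Eff d τ) {E : Type w} [Field E] [IsAlgClosed E] (φ : S →+* E) :
    ∃ s : Multiset (AddChar Γ E), s.card = d ∧ (∀ ψ ∈ s, ∀ γ, φ.IsIntegralElem (ψ γ)) ∧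
      ∀ γ, φ (τ γ) = (s.map fun ψ => ψ γ).sum := by
  obtain ⟨E₀, _, i, hi, s, hcard, hs⟩ := h
  obtain ⟨C, φ', hC, hφ'⟩ := exists_ext_integral i hi φ
  have hint : ∀ ψ ∈ s, ∀ γ, i.IsIntegralElem (ψ γ) := by
    intro ψ hψ γ
    refine isIntegralElem_of_psum i (s.map fun ψ => ψ γ) (fun k _ => ?_)
      (Multiset.mem_map_of_mem _ hψ)
    rw [psum_char_Eff, ← hs]
    exact ⟨_, rfl⟩
  have hiC : ∀ a, i a ∈ C := fun a => (hC _).2 i.isIntegralElem_map
  let χ : {ψ // ψ ∈ s} → AddChar Γ C := fun ψ =>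
    { toFun := fun γ => ⟨ψ.1 γ, (hC _).2 (hint ψ.1 ψ.2 γ)⟩
      map_zero_eq_one' := Subtype.ext ψ.1.map_zero_eq_one
      map_add_eq_mul' := fun a b => Subtype.ext (ψ.1.map_add_eq_mul a b) }
  have hcomp : φ'.comp (i.codRestrict C hiC) = φ := RingHom.ext fun a => hφ' a (hiC a)
  refine ⟨s.attach.map fun ψ => φ'.toMonoidHom.compAddChar (χ ψ), ?_, ?_, fun γ => ?_⟩
  · rw [Multiset.card_map, Multiset.card_attach, hcard]
  · intro ψ' hψ' γ
    obtain ⟨ψ, -, rfl⟩ := Multiset.mem_map.1 hψ'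
    obtain ⟨p, hp, hp0⟩ := hint ψ.1 ψ.2 γ
    refine ⟨p, hp, ?_⟩
    have h1 : Polynomial.eval₂ (i.codRestrict C hiC) (χ ψ γ) p = 0 := by
      apply C.subtype_injective
      rw [Polynomial.hom_eval₂, map_zero]
      exact hp0
    have h2 := congrArg φ' h1
    rw [Polynomial.hom_eval₂, map_zero, hcomp] at h2
    exact h2
  · have h1 : (⟨i (τ γ), hiC _⟩ : C) = (s.attach.map fun ψ => χ ψ γ).sum := by
      apply C.subtype_injective
      rw [map_multiset_sum, Multiset.map_map]
      exact (hs γ).trans (congrArg Multiset.sum (Multiset.attach_map_val' s fun ψ => ψ γ).symm)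
    rw [← hφ' _ (hiC _), h1, map_multiset_sum, Multiset.map_map, Multiset.map_map]
    rfl

theorem Eff.zero [IsDomain S] : Eff 0 (0 : Γ → S) := by
  exact ⟨FractionRing S, inferInstance, algebraMap S _, IsFractionRing.injective S _, 0, rfl,
    fun γ => by simp⟩

theorem Eff.add [QAlg S] (h : Eff d τ) (h' : Eff d' τ') : Eff (d + d') (τ + τ') := by
  have := h.isDomain
  obtain ⟨s, hs, -, h1⟩ := h.master (iOm S)
  obtain ⟨s', hs', -, h2⟩ := h'.master (iOm S)
  refine ⟨Cy.Om S, inferInstance, iOm S, iOm_injective_Eff S, s + s', ?_, fun γ => ?_⟩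
  · rw [Multiset.card_add, hs, hs']
  · rw [Pi.add_apply, map_add, h1, h2, Multiset.map_add, Multiset.sum_add]

theorem Eff.apply_zero (h : Eff d τ) : τ 0 = (d : S) := by
  obtain ⟨E, _, i, hi, s, hcard, hs⟩ := h
  apply hi
  rw [hs, map_natCast, ← hcard]
  simp

theorem Eff.eq_zero (h : Eff 0 τ) : τ = 0 := by
  obtain ⟨E, _, i, hi, s, hcard, hs⟩ := h
  funext γ
  apply hi
  rw [hs, Multiset.card_eq_zero.1 hcard]
  simp

theorem Eff.char [IsDomain S] (ψ : AddChar Γ S) : Eff 1 (fun γ => ψ γ) := by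
  refine ⟨FractionRing S, inferInstance, algebraMap S _, IsFractionRing.injective S _,
    {(algebraMap S (FractionRing S)).toMonoidHom.compAddChar ψ}, rfl, fun γ => ?_⟩
  rw [Multiset.map_singleton, Multiset.sum_singleton]
  rfl

theorem Eff.map [QAlg S] [IsDomain S'] (h : Eff d τ) (φ : S →+* S') :
    Eff d (fun γ => φ (τ γ)) := by
  obtain ⟨s, hs, -, h1⟩ := h.master ((iOm S').comp φ)
  exact ⟨Cy.Om S', inferInstance, iOm S', iOm_injective_Eff S', s, hs, h1⟩

theorem Eff.of_injective (φ : S →+* S') (hφ : Function.Injective φ)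
    (h : Eff d (fun γ => φ (τ γ))) : Eff d τ := by
  obtain ⟨E, _, i, hi, s, hcard, hs⟩ := h
  exact ⟨E, inferInstance, i.comp φ, hi.comp hφ, s, hcard, hs⟩

theorem Eff.comp {Γ' : Type w} [AddCommMonoid Γ'] (h : Eff d τ) (f : Γ' →+ Γ) :
    Eff d (fun γ => τ (f γ)) := by
  obtain ⟨E, _, i, hi, s, hcard, hs⟩ := h
  refine ⟨E, inferInstance, i, hi, s.map fun ψ => ψ.compAddMonoidHom f, ?_, fun γ => ?_⟩
  · rw [Multiset.card_map, hcard]
  · rw [hs, Multiset.map_map]
    rfl

theorem Eff.mul_char (h : Eff d τ) (χ : AddChar Γ S) : Eff d (fun γ => χ γ * τ γ) := by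
  obtain ⟨E, _, i, hi, s, hcard, hs⟩ := h
  refine ⟨E, inferInstance, i, hi, s.map fun ψ => i.toMonoidHom.compAddChar χ * ψ, ?_,
    fun γ => ?_⟩
  · rw [Multiset.card_map, hcard]
  · rw [map_mul, hs, Multiset.map_map, ← Multiset.sum_map_mul_left]
    rfl

theorem Eff.multiset_sum [IsDomain S] [QAlg S] (m : Multiset (Γ → S))
    (h : ∀ x ∈ m, ∃ e, Eff e x) : ∃ e, Eff e m.sum := by
  induction m using Multiset.induction_on with
  | empty => exact ⟨0, Eff.zero⟩
  | cons a m ih =>
    obtain ⟨e, he⟩ := h a (Multiset.mem_cons_self _ _)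
    obtain ⟨e', he'⟩ := ih fun x hx => h x (Multiset.mem_cons_of_mem hx)
    rw [Multiset.sum_cons]
    exact ⟨e + e', he.add he'⟩

end Eff

theorem rec_Eff {Γ : Type v} [AddCommMonoid Γ] {S : Type u} [CommRing S] {d : ℕ} {τ : Γ → S}
    (h : Eff d τ) (A : Subring S) [QAlg A] (g : Γ) (hg : ∀ k : ℕ, 0 < k → k ≤ d → τ (k • g) ∈ A)
    (γ : Γ) (hγ : ∀ j : ℕ, j < d → τ (γ + j • g) ∈ A) : τ (γ + d • g) ∈ A := by
  obtain ⟨E, _, i, hi, s, hcard, hs⟩ := h
  have : QAlg (A.map i) :=
    QAlg.of_ringHom (i.restrict A (A.map i) fun x hx => Subring.mem_map.2 ⟨x, hx, rfl⟩)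
  have hmem : ∀ x, x ∈ A → i x ∈ A.map i := fun x hx => Subring.mem_map.2 ⟨x, hx, rfl⟩
  obtain ⟨p, hp⟩ : ∃ p : Polynomial E,
      p = ((s.map fun ψ => ψ g).map fun t => Polynomial.X - Polynomial.C t).prod := ⟨_, rfl⟩
  have hc : ∀ j, p.coeff j ∈ A.map i := by
    intro j
    rw [hp]
    refine coeff_prod_mem_Eff (A.map i) _ (fun k hk hkd => ?_) j
    rw [psum_char_Eff, ← hs]
    rw [Multiset.card_map, hcard] at hkd
    exact hmem _ (hg k hk hkd)
  have hdeg : p.natDegree = d := by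
    rw [hp, Polynomial.natDegree_multiset_prod_X_sub_C_eq_card, Multiset.card_map, hcard]
  have hmon : p.Monic := by
    rw [hp]
    exact Polynomial.monic_multiset_prod_of_monic _ _ fun t _ => Polynomial.monic_X_sub_C t
  have hroot : ∀ ψ ∈ s, ψ (γ + d • g) =
      ∑ j ∈ Finset.range d, (-p.coeff j) * ψ (γ + j • g) := by
    intro ψ hψ
    have h0 : p.eval (ψ g) = 0 := by
      rw [hp]
      exact eval_prod_Eff _ (Multiset.mem_map_of_mem _ hψ)
    rw [Polynomial.eval_eq_sum_range, Finset.sum_range_succ, hmon.coeff_natDegree, hdeg,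
      one_mul] at h0
    have h1 : ∑ j ∈ Finset.range d, (-p.coeff j) * ψ (γ + j • g) =
        -(ψ γ * ∑ j ∈ Finset.range d, p.coeff j * ψ g ^ j) := by
      rw [Finset.mul_sum, ← Finset.sum_neg_distrib]
      refine Finset.sum_congr rfl fun j _ => ?_
      rw [AddChar.map_add_eq_mul, AddChar.map_nsmul_eq_pow]
      ring
    rw [h1, AddChar.map_add_eq_mul, AddChar.map_nsmul_eq_pow]
    linear_combination (ψ γ) * h0
  have h2 : i (τ (γ + d • g)) ∈ A.map i := by
    rw [hs, Multiset.map_congr rfl hroot,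
      sum_comm_Eff s (Finset.range d) (fun j => -p.coeff j) fun ψ j => ψ (γ + j • g)]
    refine (A.map i).sum_mem fun j hj => (A.map i).mul_mem ((A.map i).neg_mem (hc j)) ?_
    rw [← hs]
    exact hmem _ (hγ j (Finset.mem_range.1 hj))
  obtain ⟨x, hx, hx'⟩ := Subring.mem_map.1 h2
  rwa [← hi hx']

theorem Eff.fg {Γ : Type} [AddCommGroup Γ] [Module.Finite ℤ Γ] {S : Type u} [CommRing S] {d : ℕ}
    {τ : Γ → S} (h : Eff d τ) : ∃ t : Finset Γ, ∀ (A : Subring S) [QAlg A],
      (∀ γ ∈ t, τ γ ∈ A) → ∀ γ, τ γ ∈ A := by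
  classical
  have key : ∀ (G : Finset Γ) (b : Γ), ∃ t : Finset Γ, ∀ (A : Subring S) [QAlg A],
      (∀ γ ∈ t, τ γ ∈ A) → ∀ γ ∈ AddSubmonoid.closure (G : Set Γ), τ (b + γ) ∈ A := by
    intro G
    induction G using Finset.induction_on with
    | empty =>
      intro b
      refine ⟨{b}, fun A _ hA γ hγ => ?_⟩
      rw [Finset.coe_empty, AddSubmonoid.closure_empty, AddSubmonoid.mem_bot] at hγ
      rw [hγ, add_zero]
      exact hA b (Finset.mem_singleton_self b)
    | insert g G _ ih =>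
      intro b
      choose T hT using ih
      refine ⟨(Finset.range d).biUnion (fun j => T (b + j • g)) ∪
        (Finset.range (d + 1)).image (fun k => k • g), fun A _ hA γ hγ => ?_⟩
      rw [Finset.coe_insert, Set.insert_eq, AddSubmonoid.closure_union,
        AddSubmonoid.mem_sup] at hγ
      obtain ⟨y, hy, z, hz, rfl⟩ := hγ
      obtain ⟨n, rfl⟩ := AddSubmonoid.mem_closure_singleton.1 hy
      clear hy
      induction n using Nat.strong_induction_on with
      | _ n ihn =>
        by_cases hn : n < d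
        · rw [← add_assoc]
          exact hT _ A (fun γ hγ => hA γ (Finset.mem_union_left _
            (Finset.mem_biUnion.2 ⟨n, Finset.mem_range.2 hn, hγ⟩))) z hz
        · obtain ⟨k, rfl⟩ := Nat.exists_eq_add_of_le (not_lt.1 hn)
          have e : ∀ j : ℕ, b + ((j + k) • g + z) = (b + z + k • g) + j • g := by
            intro j
            rw [add_nsmul]
            abel
          rw [e]
          refine rec_Eff h A g (fun j _ hj => hA _ (Finset.mem_union_right _
            (Finset.mem_image.2 ⟨j, Finset.mem_range.2 (by omega), rfl⟩))) _ fun j hj => ?_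
          rw [← e]
          exact ihn _ (by omega)
  have hfg : AddMonoid.FG Γ :=
    AddGroup.fg_iff_addMonoid_fg.1 (Module.Finite.iff_addGroup_fg.1 inferInstance)
  obtain ⟨G, hG⟩ := hfg.fg_top
  obtain ⟨t, ht⟩ := key G 0
  refine ⟨t, fun A _ hA γ => ?_⟩
  have := ht A hA γ (by rw [hG]; trivial)
  rwa [zero_add] at this

end

end Pool.Agent.MP_e2821c_ag.Dg
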