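import Pool.Agent.Lib.MP_e2821c_ag.Dg.CoreY

namespace Pool.Agent.MP_e2821c_ag.Dg

open MvPolynomial

universe u v w

noncomputable section

variable {N : ℕ}

theorem Hyp.lt {W' W : Sb N} (h : Hyp W' W) : W' < W := by
  refine lt_of_le_of_ne h.1 ?_
  rintro rfl
  have := h.2
  omega

theorem Hyp.eq_of_le_of_lt {W' W V : Sb N} (h : Hyp W' W) (h1 : W' ≤ V) (h2 : V < W) :
    V = W' := by
  have h3 := Submodule.finrank_lt_finrank_of_lt h2
  have h4 := h.2
  exact (Submodule.eq_of_le_of_finrank_le h1 (by omega)).symm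

/-- A frame of a subspace together with a normalised volume form. -/
structure IsOr_Orient (W : Sb N) (k : ℕ) (β : Fin k → Vec N)
    (o : Vec N [⋀^Fin k]→ₗ[ℚ] ℚ) : Prop where
  mem : ∀ i, β i ∈ W
  span : Submodule.span ℚ (Set.range β) = W
  indep : LinearIndependent ℚ β
  univ : ∀ (f : Vec N [⋀^Fin k]→ₗ[ℚ] ℚ) (v : Fin k → Vec N), (∀ i, v i ∈ W) → f v = f β * o v
  ne : ∀ v : Fin k → Vec N, (∀ i, v i ∈ W) → LinearIndependent ℚ v → o v ≠ 0

theorem exists_isOr_Orient (W : Sb N) (k : ℕ) :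
    ∃ (β : Fin k → Vec N) (o : Vec N [⋀^Fin k]→ₗ[ℚ] ℚ),
      Module.finrank ℚ W = k → IsOr_Orient W k β o := by
  classical
  by_cases hk : Module.finrank ℚ W = k
  swap
  · exact ⟨0, 0, fun h => absurd h hk⟩
  let b : Module.Basis (Fin k) ℚ W := Module.finBasisOfFinrankEq ℚ W hk
  obtain ⟨p, hp⟩ := LinearMap.exists_leftInverse_of_injective W.subtype W.ker_subtype
  have hp' : ∀ x : W, p (x : Vec N) = x := fun x => LinearMap.congr_fun hp x
  have key : ∀ v : Fin k → W, (b.det.compLinearMap p) (fun i => (v i : Vec N)) = b.det v := by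
    intro v
    rw [AlternatingMap.compLinearMap_apply]
    congr 1
    funext i
    exact hp' (v i)
  refine ⟨fun i => (b i : Vec N), b.det.compLinearMap p, fun _ => ⟨fun i => (b i).2, ?_, ?_, ?_, ?_⟩⟩
  · have h1 : Submodule.map W.subtype (Submodule.span ℚ (Set.range b)) = W := by
      rw [b.span_eq, Submodule.map_top, Submodule.range_subtype]
    rw [Submodule.map_span, ← Set.range_comp] at h1
    exact h1
  · exact b.linearIndependent.map' W.subtype W.ker_subtype
  · intro f v hv
    have h1 := (f.compLinearMap W.subtype).eq_smul_basis_det b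
    have h2 := congrArg (fun g : W [⋀^Fin k]→ₗ[ℚ] ℚ => g fun i => ⟨v i, hv i⟩) h1
    have h3 := key fun i => ⟨v i, hv i⟩
    simp only [AlternatingMap.smul_apply, smul_eq_mul] at h2
    rw [← h3] at h2
    exact h2
  · intro v hv hli
    have h3 := key fun i => ⟨v i, hv i⟩
    have hli' : LinearIndependent ℚ fun i => (⟨v i, hv i⟩ : W) :=
      LinearIndependent.of_comp W.subtype hli
    have hsp : Submodule.span ℚ (Set.range fun i => (⟨v i, hv i⟩ : W)) = ⊤ :=
      hli'.span_eq_top_of_card_eq_finrank' (by rw [Fintype.card_fin, hk])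
    have h4 := (b.is_basis_iff_det.1 ⟨hli', hsp⟩).ne_zero
    rw [← h3] at h4
    exact h4

theorem curry_eq_zero_Orient {W : Sb N} {k : ℕ} {β : Fin k → Vec N}
    (hβ : Submodule.span ℚ (Set.range β) = W) (f : Vec N [⋀^Fin (k + 1)]→ₗ[ℚ] ℚ)
    {x : Vec N} (hx : x ∈ W) : f (Matrix.vecCons x β) = 0 := by
  rw [← hβ] at hx
  have h : ∀ y ∈ Submodule.span ℚ (Set.range β), f.curryLeft y β = 0 := by
    intro y hy
    induction hy using Submodule.span_induction with
    | mem y hy =>
      obtain ⟨i, rfl⟩ := hy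
      rw [AlternatingMap.curryLeft_apply_apply]
      exact f.map_eq_zero_of_eq _ (i := 0) (j := i.succ) (by simp) (Fin.succ_ne_zero i).symm
    | zero => rw [map_zero, AlternatingMap.zero_apply]
    | add a b _ _ ha hb => rw [map_add, AlternatingMap.add_apply, ha, hb, add_zero]
    | smul c a _ ha => rw [map_smul, AlternatingMap.smul_apply, ha, smul_zero]
  exact h x hx

/-- Evaluation of an alternating form on a fixed family. -/
def evA_Orient {k : ℕ} (β : Fin k → Vec N) : (Vec N [⋀^Fin k]→ₗ[ℚ] ℚ) →ₗ[ℚ] ℚ where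
  toFun f := f β
  map_add' _ _ := rfl
  map_smul' _ _ := rfl

theorem sign_cast_Orient (a : ℚ) : SignType.sign (algebraMap ℚ ℝ a) = SignType.sign a :=
  StrictMono.sign_comp (f := algebraMap ℚ ℝ) (fun _ _ h => by simpa using h) a

theorem exists_isCut (N : ℕ) : ∃ ct : Sb N → Sb N → Fn N, IsCut ct := by
  classical
  choose β o hβ using exists_isOr_Orient (N := N)
  let c : Sb N → Sb N → ℕ → Vec N →ₗ[ℚ] ℚ := fun W W' k =>
    (evA_Orient (β W' k)).comp (o W (k + 1)).curryLeft
  have hc : ∀ W W' k x, c W W' k x = o W (k + 1) (Matrix.vecCons x (β W' k)) :=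
    fun _ _ _ _ => rfl
  refine ⟨fun W W' => (Algebra.linearMap ℚ ℝ).comp (c W W' (Module.finrank ℚ W')), ?_, ?_⟩
  · intro W W' h
    have h1 := hβ W' _ rfl
    have h2 := hβ W _ h.2
    refine h.eq_of_le_of_lt (le_inf h.1 fun x hx => ?_) (lt_of_le_of_ne inf_le_left fun heq => ?_)
    · rw [LinearMap.mem_ker, LinearMap.comp_apply, hc, curry_eq_zero_Orient h1.span _ hx, map_zero]
    · obtain ⟨e, heW, heW'⟩ := SetLike.exists_of_lt h.lt
      have he : e ∈ W ⊓ LinearMap.ker
          ((Algebra.linearMap ℚ ℝ).comp (c W W' (Module.finrank ℚ W'))) := by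
        rw [heq]; exact heW
      have h3 := he.2
      rw [SetLike.mem_coe, LinearMap.mem_ker, LinearMap.comp_apply, hc, Algebra.linearMap_apply,
        map_eq_zero_iff _ (algebraMap ℚ ℝ).injective] at h3
      refine h2.ne _ (fun i => ?_) ?_ h3
      · refine Fin.cases ?_ (fun j => ?_) i
        · exact heW
        · exact h.1 (h1.mem j)
      · refine linearIndependent_finCons.2 ⟨h1.indep, ?_⟩
        rw [h1.span]
        exact heW'
  · intro W W'' hle hdim
    set k := Module.finrank ℚ W'' with hk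
    have h1 := hβ W'' k rfl
    let ω : Vec N →ₗ[ℚ] Vec N →ₗ[ℚ] ℚ :=
      ((LinearMap.llcomp ℚ (Vec N) _ ℚ (evA_Orient (β W'' k))).comp
        AlternatingMap.curryLeftLinearMap).comp (o W (k + 2)).curryLeft
    have hω : ∀ x y, ω x y = o W (k + 2) (Matrix.vecCons x (Matrix.vecCons y (β W'' k))) :=
      fun _ _ => rfl
    have halt : ∀ x, ω x x = 0 := fun x => by
      rw [hω]
      exact (o W (k + 2)).map_eq_zero_of_eq _ (i := 0) (j := 1) (by simp) Fin.zero_ne_one
    have hright : ∀ x, ∀ y ∈ W'', ω x y = 0 := fun x y hy =>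
      curry_eq_zero_Orient h1.span ((o W (k + 2)).curryLeft x) hy
    refine ⟨ω, halt, fun x hx y => ?_, fun W' h' h x hx y hy => ?_⟩
    · have h3 := halt (x + y)
      simp only [map_add, LinearMap.add_apply, halt, hright y x hx, zero_add, add_zero] at h3
      exact h3
    · have hk' : Module.finrank ℚ W' = k + 1 := h'.2
      have h2 := hβ W' (k + 1) hk'
      have h3 := h2.univ ((o W (k + 2)).curryLeft x) (Matrix.vecCons y (β W'' k)) fun i => by
        refine Fin.cases ?_ (fun j => ?_) i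
        · exact hy
        · exact h'.1 (h1.mem j)
      simp only [LinearMap.comp_apply, Algebra.linearMap_apply, sign_cast_Orient]
      rw [hk', hc, hc, ← sign_mul, hω]
      exact congrArg _ h3.symm

theorem isCut_cut : IsCut (cut (N := N)) :=
  Classical.epsilon_spec (exists_isCut N)

theorem Hyp.inf_ker {W' W : Sb N} (h : Hyp W' W) : W ⊓ LinearMap.ker (cut W W') = W' :=
  isCut_cut.ker W W' h

theorem Hyp.inf_ker_neg {W' W : Sb N} (h : Hyp W' W) :
    W ⊓ LinearMap.ker (-cut W W') = W' := by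
  rw [LinearMap.ker_neg]
  exact h.inf_ker

theorem hyp_sup_span {W : Sb N} {e : Vec N} (he : e ∉ W) :
    Hyp W (W ⊔ Submodule.span ℚ {e}) :=
  ⟨le_sup_left, Submodule.finrank_sup_span_singleton he⟩

end

end Pool.Agent.MP_e2821c_ag.Dg
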