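import Pool.Agent.Lib.MP_e2821c_ag.Dg.YVal
import Pool.Agent.Lib.MP_e2821c_ag.Dg.Orient

namespace Pool.Agent.MP_e2821c_ag.Dg

open MvPolynomial

universe u v w

noncomputable section

variable {F : Type u} [Field F] {N : ℕ}

/-- The sum of the variables of a face. -/
def sI_FaceP (F : Type u) [Field F] (I : Finset (Fin N)) : LP F N :=
  ∑ l ∈ I, AddMonoidAlgebra.single (Pi.single l 1) 1

theorem toV_single_FaceP (i : Fin N) : toV (Pi.single i 1 : Lat N) = Pi.single i 1 := by
  funext j
  by_cases h : j = i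
  · subst h
    simp
  · simp [h]

theorem single_inj_FaceP {a b : Fin N} (h : (Pi.single a 1 : Lat N) = Pi.single b 1) : a = b := by
  by_contra hne
  have := congrFun h a
  simp [hne] at this

theorem iL_sI_FaceP (I : Finset (Fin N)) :
    iL F N (sI_FaceP F I) = ∑ l ∈ I, mono F (Pi.single l 1) := by
  rw [sI_FaceP, map_sum]
  rfl

theorem coeff_sI_FaceP (I : Finset (Fin N)) (m : Lat N) :
    (sI_FaceP F I).coeff m = ∑ l ∈ I, if Pi.single l 1 = m then 1 else 0 := by
  classical
  unfold sI_FaceP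
  induction I using Finset.induction_on with
  | empty => simp
  | insert a s ha ih =>
    rw [Finset.sum_insert ha, Finset.sum_insert ha, AddMonoidAlgebra.coeff_add, Finsupp.add_apply,
      ih, AddMonoidAlgebra.coeff_single, Finsupp.single_apply]

theorem mem_support_sI_FaceP {I : Finset (Fin N)} {m : Lat N} :
    m ∈ (sI_FaceP F I).coeff.support ↔ ∃ l ∈ I, Pi.single l 1 = m := by
  rw [Finsupp.mem_support_iff, coeff_sI_FaceP]
  constructor
  · intro h
    obtain ⟨l, hl, h'⟩ := Finset.exists_ne_zero_of_sum_ne_zero h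
    exact ⟨l, hl, by_contra fun hn => h' (if_neg hn)⟩
  · rintro ⟨l, hl, rfl⟩
    rw [Finset.sum_eq_single_of_mem l hl fun b _ hb => if_neg fun h => hb (single_inj_FaceP h),
      if_pos rfl]
    exact one_ne_zero

theorem sI_ne_zero_FaceP {I : Finset (Fin N)} (hI : I.Nonempty) : sI_FaceP F I ≠ 0 := by
  obtain ⟨l, hl⟩ := hI
  intro h
  have := (mem_support_sI_FaceP (F := F)).2 ⟨l, hl, rfl⟩
  rw [h] at this
  simp at this

theorem sum_mono_ne_zero_FaceP {I : Finset (Fin N)} (hI : I.Nonempty) :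
    ∑ l ∈ I, mono F (Pi.single l 1 : Lat N) ≠ 0 := by
  rw [← iL_sI_FaceP]
  exact fun h => sI_ne_zero_FaceP hI (iL_injective (h.trans (map_zero _).symm))

theorem tI_mul_FaceP {I : Finset (Fin N)} (hI : I.Nonempty) (i : Fin N) :
    tI F I i * iL F N (sI_FaceP F I) = iL F N (AddMonoidAlgebra.single (Pi.single i 1) 1) := by
  rw [iL_sI_FaceP, tI, div_mul_cancel₀ _ (sum_mono_ne_zero_FaceP hI)]
  rfl

theorem tI_mem_VV_FaceP (w : Fn N) {I : Finset (Fin N)} {i : Fin N} (hi : i ∈ I) :
    tI F I i ∈ VV F w := by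
  rw [mem_VV_div (sI_ne_zero_FaceP ⟨i, hi⟩) (tI_mul_FaceP ⟨i, hi⟩ i)]
  intro m hm
  rw [AddMonoidAlgebra.coeff_single] at hm
  have h := Finset.mem_singleton.1 (Finsupp.support_single_subset hm)
  exact ⟨m, mem_support_sI_FaceP.2 ⟨i, hi, h.symm⟩, le_rfl⟩

theorem tI_mem_OW {I : Finset (Fin N)} {i : Fin N} (hi : i ∈ I) : tI F I i ∈ OW F (WI I) := by
  refine mem_OW.2 ⟨fun w => tI_mem_VV_FaceP w hi, ?_⟩
  have e : tI F I i = (∑ l ∈ I, mono F (Pi.single l 1 - Pi.single i 1 : Lat N))⁻¹ := by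
    simp only [sub_eq_add_neg, mono_add, mono_neg]
    rw [← Finset.sum_mul, mul_inv, inv_inv, tI, div_eq_mul_inv, mul_comm]
  rw [e]
  refine inv_mem (sum_mem fun l hl => IntermediateField.subset_adjoin F _ ⟨_, ?_, rfl⟩)
  rw [map_sub, toV_single_FaceP, toV_single_FaceP]
  exact Submodule.subset_span ⟨l, hl, i, hi, rfl⟩

theorem PI_le_OW (I : Finset (Fin N)) : PI F I ≤ OW F (WI I) := by
  refine Algebra.adjoin_le ?_
  rintro _ ⟨i, hi, rfl⟩
  exact tI_mem_OW hi

theorem mem_VV_of_PI_FaceP (w : Fn N) {I : Finset (Fin N)} {x : OmN F N} (hx : x ∈ PI F I) :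
    x ∈ VV F w := (mem_OW.1 (PI_le_OW I hx)).1 w

theorem sum_tI {I : Finset (Fin N)} (hI : I.Nonempty) : ∑ i ∈ I, tI F I i = 1 := by
  simp only [tI]
  rw [← Finset.sum_div, div_self (sum_mono_ne_zero_FaceP hI)]

theorem mem_amin_FaceP {I : Finset (Fin N)} {w : Fn N} {i : Fin N} :
    i ∈ amin I w ↔ i ∈ I ∧ ∀ l ∈ I, w (Pi.single i 1) ≤ w (Pi.single l 1) := by
  unfold amin
  exact Finset.mem_filter

theorem amin_subset (I : Finset (Fin N)) (w : Fn N) : amin I w ⊆ I :=
  fun _ hi => (mem_amin_FaceP.1 hi).1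

theorem amin_nonempty {I : Finset (Fin N)} (hI : I.Nonempty) (w : Fn N) : (amin I w).Nonempty := by
  obtain ⟨i, hi, h⟩ := Finset.exists_min_image I (fun i => w (Pi.single i 1)) hI
  exact ⟨i, mem_amin_FaceP.2 ⟨hi, h⟩⟩

theorem crd_single_FaceP (i l : Fin N) : crd i (Pi.single l 1) = if i = l then 1 else 0 := by
  by_cases h : i = l
  · subst h
    simp [crd]
  · simp [crd, h]

theorem amin_crd {I : Finset (Fin N)} (hI : I.Nonempty) {i : Fin N} (hi : i ∉ I) :
    amin (insert i I) (crd i) = I := by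
  ext l
  rw [mem_amin_FaceP]
  constructor
  · rintro ⟨h1, h2⟩
    rcases Finset.mem_insert.1 h1 with rfl | h1
    · obtain ⟨a, ha⟩ := hI
      have h3 := h2 a (Finset.mem_insert_of_mem ha)
      rw [crd_single_FaceP, crd_single_FaceP, if_pos rfl,
        if_neg fun h : l = a => hi (h ▸ ha)] at h3
      exact absurd h3 (by norm_num)
    · exact h1
  · intro hl
    refine ⟨Finset.mem_insert_of_mem hl, fun a _ => ?_⟩
    rw [crd_single_FaceP, crd_single_FaceP, if_neg fun h : i = l => hi (h ▸ hl)]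
    split_ifs <;> norm_num

theorem wpart_single_FaceP (w : Fn N) (g : ℝ) (m : Lat N) (c : F) [Decidable (w (toV m) = g)] :
    wpart F w g (AddMonoidAlgebra.single m c) =
      if w (toV m) = g then AddMonoidAlgebra.single m c else 0 := by
  classical
  split_ifs with h
  · ext m'
    simp only [wpart, AddMonoidAlgebra.coeff_single]
    rw [Finsupp.filter_single_of_pos (fun m => w (toV m) = g) h]
  · ext m'
    simp only [wpart, AddMonoidAlgebra.coeff_single]
    rw [Finsupp.filter_single_of_neg (fun m => w (toV m) = g) h]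
    rfl

theorem wpart_sum_FaceP (w : Fn N) (g : ℝ) {ι : Type} (s : Finset ι) (P : ι → LP F N) :
    wpart F w g (∑ l ∈ s, P l) = ∑ l ∈ s, wpart F w g (P l) := by
  classical
  induction s using Finset.induction_on with
  | empty =>
    ext m
    simp [wpart, Finsupp.filter_apply]
  | insert a s ha ih =>
    rw [Finset.sum_insert ha, Finset.sum_insert ha, ← ih]
    ext m
    simp only [wpart, AddMonoidAlgebra.coeff_add, Finsupp.filter_add]

theorem res_tI (w : Fn N) {I : Finset (Fin N)} {i : Fin N} (hi : i ∈ I) :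
    res F w (tI F I i) = if i ∈ amin I w then tI F (amin I w) i else 0 := by
  classical
  obtain ⟨l₀, hl₀⟩ := amin_nonempty ⟨i, hi⟩ w
  obtain ⟨h1, h2⟩ := mem_amin_FaceP.1 hl₀
  have hiff : ∀ l ∈ I, (w (toV (Pi.single l 1 : Lat N)) = w (toV (Pi.single l₀ 1 : Lat N)) ↔
      l ∈ amin I w) := fun l hl => by
    rw [toV_single_FaceP, toV_single_FaceP, mem_amin_FaceP]
    exact ⟨fun h => ⟨hl, fun a ha => h ▸ h2 a ha⟩, fun h => le_antisymm (h.2 l₀ h1) (h2 l hl)⟩
  have key := (res_div (tI_mul_FaceP (F := F) ⟨i, hi⟩ i) (tI_mem_VV_FaceP w hi)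
    (m₀ := Pi.single l₀ 1) (mem_support_sI_FaceP.2 ⟨l₀, h1, rfl⟩) (fun m hm => by
      obtain ⟨l, hl, rfl⟩ := mem_support_sI_FaceP.1 hm
      rw [toV_single_FaceP, toV_single_FaceP]
      exact h2 l hl)).2
  have e : wpart F w (w (toV (Pi.single l₀ 1 : Lat N))) (sI_FaceP F I) =
      sI_FaceP F (amin I w) := by
    rw [sI_FaceP, wpart_sum_FaceP, sI_FaceP,
      ← Finset.sum_subset (amin_subset I w) fun l hl hn => ?_]
    · refine Finset.sum_congr rfl fun l hl => ?_
      rw [wpart_single_FaceP, if_pos ((hiff l (amin_subset I w hl)).2 hl)]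
    · rw [wpart_single_FaceP, if_neg fun h => hn ((hiff l hl).1 h)]
  rw [e, wpart_single_FaceP, iL_sI_FaceP] at key
  have hne := sum_mono_ne_zero_FaceP (F := F) ⟨l₀, hl₀⟩
  split_ifs with h
  · rw [if_pos ((hiff i hi).2 h)] at key
    exact (eq_div_iff hne).2 key
  · rw [if_neg fun h' => h ((hiff i hi).1 h'), map_zero] at key
    exact (mul_eq_zero.1 key).resolve_right hne

theorem res_algebraMap_FaceP (w : Fn N) (c : F) :
    res F w (algebraMap F (OmN F N) c) = algebraMap F (OmN F N) c := by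
  rw [Algebra.algebraMap_eq_smul_one, map_smul, res_one]

theorem res_mem_PI (w : Fn N) {I : Finset (Fin N)} {x : OmN F N} (hx : x ∈ PI F I) :
    res F w x ∈ PI F (amin I w) := by
  induction hx using Algebra.adjoin_induction with
  | mem x hx =>
    obtain ⟨i, hi, rfl⟩ := hx
    rw [res_tI w hi]
    split_ifs with h
    · exact Algebra.subset_adjoin ⟨i, h, rfl⟩
    · exact zero_mem _
  | algebraMap c =>
    rw [res_algebraMap_FaceP]
    exact Subalgebra.algebraMap_mem _ c
  | add x y _ _ hx hy =>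
    rw [map_add]
    exact add_mem hx hy
  | mul x y hx' hy' hx hy =>
    rw [res_mul (mem_VV_of_PI_FaceP w hx') (mem_VV_of_PI_FaceP w hy')]
    exact mul_mem hx hy

theorem res_congr_PI {w w' : Fn N} {I : Finset (Fin N)} (h : amin I w = amin I w') {x : OmN F N}
    (hx : x ∈ PI F I) : res F w x = res F w' x := by
  induction hx using Algebra.adjoin_induction with
  | mem x hx =>
    obtain ⟨i, hi, rfl⟩ := hx
    rw [res_tI w hi, res_tI w' hi, h]
  | algebraMap c => rw [res_algebraMap_FaceP, res_algebraMap_FaceP]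
  | add x y _ _ hx hy => rw [map_add, map_add, hx, hy]
  | mul x y hx' hy' hx hy =>
    rw [res_mul (mem_VV_of_PI_FaceP w hx') (mem_VV_of_PI_FaceP w hy'),
      res_mul (mem_VV_of_PI_FaceP w' hx') (mem_VV_of_PI_FaceP w' hy'), hx, hy]

theorem EE_maps_PI {φ : Module.End F (OmN F N)} (hφ : φ ∈ EE F N) {I : Finset (Fin N)}
    (hI : I.Nonempty) : ∃ J : Finset (Fin N), J.Nonempty ∧ ∀ x ∈ PI F I, φ x ∈ PI F J := by
  induction hφ using Submonoid.closure_induction generalizing I with
  | mem φ hφ =>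
    obtain ⟨w, rfl⟩ := hφ
    exact ⟨amin I w, amin_nonempty hI w, fun x hx => res_mem_PI w hx⟩
  | one => exact ⟨I, hI, fun x hx => hx⟩
  | mul φ ψ _ _ hφ hψ =>
    obtain ⟨J, hJ, h1⟩ := hψ hI
    obtain ⟨J', hJ', h2⟩ := hφ hJ
    exact ⟨J', hJ', fun x hx => h2 _ (h1 x hx)⟩

section Emb

variable {p : ℕ} {f : Fin (p + 1) → Fin N}

theorem emb_bary (hf : Function.Injective f) (k : Fin (p + 1)) :
    emb F f (bary F p k) = tI F (Finset.univ.image f) (f k) := by
  refine Fin.cases ?_ (fun k => ?_) k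
  · have h := sum_tI (F := F) (Finset.univ_nonempty.image f)
    rw [Finset.sum_image fun a _ b _ hab => hf hab, Fin.sum_univ_succ] at h
    have h0 : bary F p 0 = 1 - ∑ k, X k := by simp [bary]
    rw [h0, map_sub, map_one, map_sum, ← h]
    simp [emb]
  · simp [bary, emb]

theorem emb_injective (hf : Function.Injective f) : Function.Injective (emb F f) := by
  have hind : AlgebraicIndependent F fun k => mono F (Pi.single (f k) 1 : Lat N) :=
    (algebraicIndependent_mono (F := F) (N := N)).comp f hf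
  set x : Fin (p + 1) → OmN F N := fun k => mono F (Pi.single (f k) 1 : Lat N) with hx
  set s : MvPolynomial (Fin (p + 1)) F := ∑ k, X k with hs
  have hs1 : aeval (bary F p) s = 1 := by simp [hs, sum_bary]
  have hs2 : ∀ k : Fin p, emb F f (X k) * aeval x s = x k.succ := fun k => by
    have h1 : aeval x s = ∑ l ∈ Finset.univ.image f, mono F (Pi.single l 1 : Lat N) := by
      rw [Finset.sum_image fun a _ b _ hab => hf hab]
      simp [hs, hx]
    rw [h1, emb, aeval_X, tI,
      div_mul_cancel₀ _ (sum_mono_ne_zero_FaceP (Finset.univ_nonempty.image f))]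
  have key : ∀ P : Base F p, ∃ (D : ℕ) (H : MvPolynomial (Fin (p + 1)) F),
      emb F f P * aeval x s ^ D = aeval x H ∧ aeval (bary F p) H = P := by
    intro P
    induction P using MvPolynomial.induction_on with
    | C a => exact ⟨0, C a, by simp [emb], by simp⟩
    | add P Q hP hQ =>
      obtain ⟨D, H, h1, h2⟩ := hP
      obtain ⟨D', H', h1', h2'⟩ := hQ
      refine ⟨D + D', H * s ^ D' + H' * s ^ D, ?_, ?_⟩
      · simp only [map_add, map_mul, map_pow]
        rw [← h1, ← h1']
        ring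
      · simp only [map_add, map_mul, map_pow, hs1, h2, h2', one_pow, mul_one]
    | mul_X P k hP =>
      obtain ⟨D, H, h1, h2⟩ := hP
      refine ⟨D + 1, H * X k.succ, ?_, ?_⟩
      · rw [map_mul, map_mul, aeval_X, ← h1, ← hs2 k]
        ring
      · rw [map_mul, aeval_X, h2]
        simp [bary]
  rw [injective_iff_map_eq_zero]
  intro P hP
  obtain ⟨D, H, h1, h2⟩ := key P
  rw [hP, zero_mul] at h1
  rw [← h2, hind.eq_zero_of_aeval_eq_zero H h1.symm, map_zero]

theorem range_emb (hf : Function.Injective f) :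
    (emb F f).range = PI F (Finset.univ.image f) := by
  refine le_antisymm ?_ (Algebra.adjoin_le ?_)
  · rw [emb, ← Algebra.adjoin_range_eq_range_aeval]
    refine Algebra.adjoin_mono ?_
    rintro _ ⟨k, rfl⟩
    exact ⟨f k.succ, by simp, rfl⟩
  · rintro _ ⟨i, hi, rfl⟩
    obtain ⟨k, -, rfl⟩ := Finset.mem_image.1 (Finset.mem_coe.1 hi)
    exact ⟨bary F p k, emb_bary hf k⟩

theorem res_emb {f : Fin (p + 2) → Fin N} (hf : Function.Injective f) (i : Fin (p + 2))
    {w : Fn N} (hw : amin (Finset.univ.image f) w = Finset.univ.image (f ∘ i.succAbove))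
    (x : Base F (p + 1)) :
    res F w (emb F f x) = emb F (f ∘ i.succAbove) (Cy.sm F i.succAbove x) := by
  have hf' : Function.Injective (f ∘ i.succAbove) := hf.comp Fin.succAbove_right_injective
  have hV : ∀ x, emb F f x ∈ VV F w := fun x =>
    mem_VV_of_PI_FaceP w ((range_emb (F := F) hf).le ⟨x, rfl⟩)
  have hb : ∀ k, res F w (emb F f (bary F (p + 1) k)) =
      emb F (f ∘ i.succAbove) (Cy.sm F i.succAbove (bary F (p + 1) k)) := fun k => by
    rw [emb_bary hf, res_tI w (Finset.mem_image_of_mem f (Finset.mem_univ k)), hw, Cy.sm_bary]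
    rcases eq_or_ne k i with rfl | hk
    · rw [if_neg, Finset.filter_false_of_mem fun j _ => Fin.succAbove_ne k j, Finset.sum_empty,
        map_zero]
      intro h
      obtain ⟨j, -, hj⟩ := Finset.mem_image.1 h
      exact Fin.succAbove_ne k j (hf hj)
    · obtain ⟨j, rfl⟩ := Fin.exists_succAbove_eq hk
      have hm : f (i.succAbove j) ∈ Finset.univ.image (f ∘ i.succAbove) :=
        Finset.mem_image.2 ⟨j, Finset.mem_univ j, rfl⟩
      rw [if_pos hm]
      have e : (Finset.univ.filter fun j' => i.succAbove j' = i.succAbove j) = {j} := by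
        ext j'
        simp
      rw [e, Finset.sum_singleton, emb_bary hf']
      rfl
  induction x using MvPolynomial.induction_on with
  | C a => rw [← algebraMap_eq, AlgHom.commutes, AlgHom.commutes, AlgHom.commutes,
      res_algebraMap_FaceP]
  | add P Q hP hQ => simp only [map_add, hP, hQ]
  | mul_X P k hP =>
    have e : (X k : Base F (p + 1)) = bary F (p + 1) k.succ := by simp [bary]
    rw [map_mul, res_mul (hV _) (hV _), map_mul, map_mul, hP, e, hb]

theorem exists_emb {I : Finset (Fin N)} (hI : I.Nonempty) :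
    ∃ (p : ℕ) (f : Fin (p + 1) → Fin N), Function.Injective f ∧ Finset.univ.image f = I := by
  obtain ⟨p, hp⟩ := Nat.exists_eq_succ_of_ne_zero hI.card_ne_zero
  exact ⟨p, I.orderEmbOfFin hp, (I.orderEmbOfFin hp).injective, I.image_orderEmbOfFin_univ hp⟩

end Emb

end

end Pool.Agent.MP_e2821c_ag.Dg
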