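import Pool.Agent.Lib.MP_e2821c_ag.Dg.Orient

namespace Pool.Agent.MP_e2821c_ag.Dg

open MvPolynomial

universe u v w

noncomputable section

variable {N : ℕ}

theorem gen_mem_FaceW {I : Finset (Fin N)} {a b : Fin N} (ha : a ∈ I) (hb : b ∈ I) :
    (Pi.single a 1 - Pi.single b 1 : Vec N) ∈ WI I :=
  Submodule.subset_span ⟨a, ha, b, hb, rfl⟩

theorem WI_le_FaceW {I : Finset (Fin N)} {V : Sb N}
    (h : ∀ a ∈ I, ∀ b ∈ I, (Pi.single a 1 - Pi.single b 1 : Vec N) ∈ V) : WI I ≤ V := by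
  refine Submodule.span_le.2 ?_
  rintro _ ⟨a, ha, b, hb, rfl⟩
  exact h a ha b hb

theorem coord_FaceW {I : Finset (Fin N)} {j : Fin N} (hj : j ∉ I) {x : Vec N} (hx : x ∈ WI I) :
    x j = 0 := by
  have : WI I ≤ LinearMap.ker (LinearMap.proj (R := ℚ) (φ := fun _ : Fin N => ℚ) j) :=
    WI_le_FaceW fun a ha b hb => by
      have h1 : j ≠ a := fun e => hj (e ▸ ha)
      have h2 : j ≠ b := fun e => hj (e ▸ hb)
      simp [h1, h2]
  exact this hx

theorem not_mem_FaceW {I : Finset (Fin N)} {a b : Fin N} (ha : a ∉ I) (hab : a ≠ b) :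
    (Pi.single a 1 - Pi.single b 1 : Vec N) ∉ WI I := fun h => by
  have := coord_FaceW ha h
  simp [hab] at this

theorem WI_mono {I J : Finset (Fin N)} (h : I ⊆ J) : WI I ≤ WI J :=
  WI_le_FaceW fun _ ha _ hb => gen_mem_FaceW (h ha) (h hb)

theorem WI_insert_FaceW {I : Finset (Fin N)} {l : Fin N} (hl : l ∈ I) (i : Fin N) :
    WI (insert i I) = WI I ⊔ Submodule.span ℚ {(Pi.single i 1 - Pi.single l 1 : Vec N)} := by
  refine le_antisymm (WI_le_FaceW fun a ha b hb => ?_) (sup_le (WI_mono (Finset.subset_insert _ _))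
    ((Submodule.span_singleton_le_iff_mem _ _).2
      (gen_mem_FaceW (Finset.mem_insert_self _ _) (Finset.mem_insert_of_mem hl))))
  have key : ∀ c ∈ insert i I, (Pi.single c 1 - Pi.single l 1 : Vec N) ∈
      WI I ⊔ Submodule.span ℚ {(Pi.single i 1 - Pi.single l 1 : Vec N)} := fun c hc => by
    rcases Finset.mem_insert.1 hc with rfl | hc
    · exact Submodule.mem_sup_right (Submodule.mem_span_singleton_self _)
    · exact Submodule.mem_sup_left (gen_mem_FaceW hc hl)
  have := sub_mem (key a ha) (key b hb)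
  rwa [sub_sub_sub_cancel_right] at this

theorem hyp_FaceW {I : Finset (Fin N)} (hI : I.Nonempty) {i : Fin N} (hi : i ∉ I) :
    Hyp (WI I) (WI (insert i I)) := by
  obtain ⟨l, hl⟩ := hI
  rw [WI_insert_FaceW hl]
  exact hyp_sup_span (not_mem_FaceW hi fun e => hi (e ▸ hl))

theorem single_FaceW (i : Fin N) : WI ({i} : Finset (Fin N)) = ⊥ :=
  le_bot_iff.1 (WI_le_FaceW fun a ha b hb => by
    rw [Finset.mem_singleton.1 ha, Finset.mem_singleton.1 hb, sub_self]
    exact zero_mem _)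

theorem finrank_WI {I : Finset (Fin N)} (hI : I.Nonempty) :
    Module.finrank ℚ (WI I) + 1 = I.card := by
  induction hI using Finset.Nonempty.cons_induction with
  | singleton a => rw [single_FaceW, finrank_bot, Finset.card_singleton]
  | cons a s ha hs ih => rw [Finset.card_cons, Finset.cons_eq_insert, (hyp_FaceW hs ha).2, ih]

theorem WI_singleton (i : Fin N) : WI ({i} : Finset (Fin N)) = ⊥ := single_FaceW i

theorem hyp_WI {I : Finset (Fin N)} (hI : I.Nonempty) {i : Fin N} (hi : i ∉ I) :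
    Hyp (WI I) (WI (insert i I)) := hyp_FaceW hI hi

theorem subset_of_WI_le {I J : Finset (Fin N)} (hI : 2 ≤ I.card) (h : WI I ≤ WI J) : I ⊆ J := by
  intro a ha
  obtain ⟨b, hb, hab⟩ := Finset.exists_mem_ne hI a
  by_contra hn
  exact not_mem_FaceW hn hab.symm (h (gen_mem_FaceW ha hb))

theorem WI_amin_le (I : Finset (Fin N)) (w : Fn N) :
    WI (amin I w) ≤ WI I ⊓ LinearMap.ker w := by
  refine WI_le_FaceW fun a ha b hb => ?_
  simp only [amin, Finset.mem_filter] at ha hb
  refine ⟨gen_mem_FaceW ha.1 hb.1, ?_⟩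
  change w _ = 0
  rw [map_sub, sub_eq_zero]
  exact le_antisymm (ha.2 b hb.1) (hb.2 a ha.1)

theorem cut_zero_FaceW {W' W : Sb N} (h : Hyp W' W) {x : Vec N} (hx : x ∈ W') :
    cut W W' x = 0 := (h.inf_ker.ge hx).2

theorem cut_eq_FaceW {I : Finset (Fin N)} {i a b : Fin N} (hi : i ∉ I) (ha : a ∈ I) (hb : b ∈ I) :
    cut (WI (insert i I)) (WI I) (Pi.single a 1) = cut (WI (insert i I)) (WI I) (Pi.single b 1) := by
  rw [← sub_eq_zero, ← map_sub]
  exact cut_zero_FaceW (hyp_WI ⟨a, ha⟩ hi) (gen_mem_FaceW ha hb)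

theorem epsI_eq_FaceW {I : Finset (Fin N)} {i l : Fin N} (hi : i ∉ I) (hl : l ∈ I) :
    epsI I i = (SignType.sign (cut (WI (insert i I)) (WI I)
      (Pi.single i 1 - Pi.single l 1)) : ℚ) := by
  have h : cut (WI (insert i I)) (WI I) (vI I i) =
      (I.card : ℝ) * cut (WI (insert i I)) (WI I) (Pi.single i 1 - Pi.single l 1) := by
    rw [vI, map_sum, Finset.sum_congr rfl fun a ha => by
      rw [map_sub, cut_eq_FaceW hi ha hl, ← map_sub], Finset.sum_const, nsmul_eq_mul]
  have hc : (0 : ℝ) < I.card := by exact_mod_cast Finset.card_pos.2 ⟨l, hl⟩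
  rw [epsI, h, sign_mul, sign_pos hc, one_mul]

theorem epsI_cases {I : Finset (Fin N)} (hI : I.Nonempty) {i : Fin N} (hi : i ∉ I) :
    epsI I i = 1 ∨ epsI I i = -1 := by
  obtain ⟨l, hl⟩ := hI
  have h : cut (WI (insert i I)) (WI I) (Pi.single i 1 - Pi.single l 1) ≠ 0 := fun e =>
    not_mem_FaceW hi (fun e => hi (e ▸ hl)) ((hyp_WI ⟨l, hl⟩ hi).inf_ker.le
      ⟨gen_mem_FaceW (Finset.mem_insert_self _ _) (Finset.mem_insert_of_mem hl), e⟩)
  rw [epsI_eq_FaceW hi hl]
  rcases lt_or_gt_of_ne h with h | h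
  · right; rw [sign_neg h]; simp
  · left; rw [sign_pos h]; simp

theorem epsI_anti {I : Finset (Fin N)} (hI : I.Nonempty) {i i' : Fin N} (hi : i ∉ I)
    (hi' : i' ∉ I) (hne : i ≠ i') :
    epsI I i * epsI (insert i I) i' = -(epsI I i' * epsI (insert i' I) i) := by
  obtain ⟨l, hl⟩ := hI
  have h1 : i' ∉ insert i I := by simp [hne.symm, hi']
  have h2 : i ∉ insert i' I := by simp [hne, hi]
  have g1 := hyp_WI ⟨l, hl⟩ hi
  have g2 := hyp_WI ⟨l, hl⟩ hi'
  have g3 := hyp_WI (Finset.insert_nonempty i I) h1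
  have g4 := hyp_WI (Finset.insert_nonempty i' I) h2
  rw [epsI_eq_FaceW hi hl, epsI_eq_FaceW hi' hl, epsI_eq_FaceW h1 (Finset.mem_insert_of_mem hl),
    epsI_eq_FaceW h2 (Finset.mem_insert_of_mem hl)]
  rw [Finset.insert_comm i i'] at g4 ⊢
  obtain ⟨ω, w1, -, w3⟩ := isCut_cut.two _ _ (g1.1.trans g3.1) (by rw [g3.2, g1.2])
  have m1 : (Pi.single i 1 - Pi.single l 1 : Vec N) ∈ WI (insert i I) :=
    gen_mem_FaceW (Finset.mem_insert_self _ _) (Finset.mem_insert_of_mem hl)
  have m2 : (Pi.single i' 1 - Pi.single l 1 : Vec N) ∈ WI (insert i' I) :=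
    gen_mem_FaceW (Finset.mem_insert_self _ _) (Finset.mem_insert_of_mem hl)
  have e1 := w3 _ g1 g3 _ (g4.1 m2) _ m1
  have e2 := w3 _ g2 g4 _ (g3.1 m1) _ m2
  have e3 : ∀ x y, ω x y = -ω y x := fun x y => by
    have := w1 (x + y)
    simp only [map_add, LinearMap.add_apply, w1] at this
    linarith
  rw [e3, Left.sign_neg, ← e1] at e2
  have e4 := congrArg (fun s : SignType => (s : ℚ)) e2
  simp only [SignType.coe_mul, SignType.coe_neg] at e4
  linear_combination e4

theorem amin_FaceW {I : Finset (Fin N)} (hI : I.Nonempty) {i : Fin N} {w : Fn N}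
    (h1 : ∀ a ∈ I, ∀ b ∈ I, w (Pi.single a 1) = w (Pi.single b 1))
    (h2 : ∀ a ∈ I, w (Pi.single a 1) < w (Pi.single i 1)) :
    amin (insert i I) w = I ∧ amin (insert i I) (-w) = {i} := by
  obtain ⟨l, hl⟩ := hI
  constructor
  · ext j
    simp only [amin, Finset.mem_filter, Finset.mem_insert]
    refine ⟨fun ⟨hj, h⟩ => hj.resolve_left ?_, fun hj => ⟨Or.inr hj, ?_⟩⟩
    · rintro rfl
      exact absurd (h l (Or.inr hl)) (not_le.2 (h2 l hl))
    · rintro a (rfl | ha)
      · exact (h2 j hj).le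
      · exact (h1 j hj a ha).le
  · ext j
    simp only [amin, Finset.mem_filter, Finset.mem_insert, Finset.mem_singleton,
      LinearMap.neg_apply, neg_le_neg_iff]
    refine ⟨fun ⟨hj, h⟩ => hj.resolve_right fun hj =>
      absurd (h i (Or.inl rfl)) (not_le.2 (h2 j hj)), ?_⟩
    rintro rfl
    refine ⟨Or.inl rfl, ?_⟩
    rintro a (rfl | ha)
    · exact le_rfl
    · exact (h2 a ha).le

theorem sgn_FaceW {s : SignType} (h : (s : ℚ) = 1) : s = 1 := by
  cases s <;> first | rfl | (exfalso; revert h; norm_num [SignType.cast])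

theorem sgn'_FaceW {s : SignType} (h : (s : ℚ) = -1) : s = -1 := by
  cases s <;> first | rfl | (exfalso; revert h; norm_num [SignType.cast])

theorem amin_cut_pos {I : Finset (Fin N)} (hI : I.Nonempty) {i : Fin N} (hi : i ∉ I)
    (h : epsI I i = 1) : amin (insert i I) (cut (WI (insert i I)) (WI I)) = I ∧
      amin (insert i I) (-cut (WI (insert i I)) (WI I)) = {i} := by
  refine amin_FaceW hI (fun a ha b hb => cut_eq_FaceW hi ha hb) fun a ha => ?_
  rw [epsI_eq_FaceW hi ha] at h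
  rw [← sub_pos, ← map_sub, ← sign_eq_one_iff]
  exact sgn_FaceW h

theorem amin_cut_neg {I : Finset (Fin N)} (hI : I.Nonempty) {i : Fin N} (hi : i ∉ I)
    (h : epsI I i = -1) : amin (insert i I) (cut (WI (insert i I)) (WI I)) = {i} ∧
      amin (insert i I) (-cut (WI (insert i I)) (WI I)) = I := by
  have := amin_FaceW hI (i := i) (w := -cut (WI (insert i I)) (WI I))
    (fun a ha b hb => by simp only [LinearMap.neg_apply, cut_eq_FaceW hi ha hb]) fun a ha => by
      rw [epsI_eq_FaceW hi ha] at h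
      rw [LinearMap.neg_apply, LinearMap.neg_apply, neg_lt_neg_iff, ← sub_neg, ← map_sub,
        ← sign_eq_neg_one_iff]
      exact sgn'_FaceW h
  rw [neg_neg] at this
  exact this.symm

theorem amin_cases {I : Finset (Fin N)} (hI : I.Nonempty) {W : Sb N} (hW : Hyp W (WI I))
    {w : Fn N} (hw : WI I ⊓ LinearMap.ker w = W) :
    WI (amin I w) < W ∨ ∃ i ∈ I, amin I w = I.erase i ∧ W = WI (I.erase i) := by
  rcases ((WI_amin_le I w).trans hw.le).lt_or_eq with h | h
  · exact Or.inl h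
  right
  have hs : amin I w ⊆ I := by
    intro a ha
    simp only [amin, Finset.mem_filter] at ha
    exact ha.1
  have hn : (amin I w).Nonempty := by
    obtain ⟨a, ha, h⟩ := I.exists_min_image (fun a => w (Pi.single a 1)) hI
    exact ⟨a, by simp only [amin, Finset.mem_filter]; exact ⟨ha, h⟩⟩
  have h1 := finrank_WI hn
  have h2 := finrank_WI hI
  rw [hW.2] at h2
  rw [h] at h1
  obtain ⟨i, hi, hi'⟩ := Finset.exists_mem_notMem_of_card_lt_card
    (s := amin I w) (t := I) (by omega)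
  have e : amin I w = I.erase i := Finset.eq_of_subset_of_card_le
    (Finset.subset_erase.2 ⟨hs, hi'⟩) (by rw [Finset.card_erase_of_mem hi]; omega)
  exact ⟨i, hi, e, by rw [← e, h]⟩

end

end Pool.Agent.MP_e2821c_ag.Dg
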