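import Pool.Agent.Lib.MP_e2821c_ag.Dg.CoreY
import Pool.Agent.Lib.MP_e2821c_ag.Cy.Small

namespace Pool.Agent.MP_e2821c_ag.Dg

open MvPolynomial

universe u v w

noncomputable section

/-- The commutator with `x`. -/
def ad_Seid {R : Type*} [Ring R] (x T : R) : R := T * x - x * T

theorem ad_mul_Seid {R : Type*} [Ring R] {x d m : R} (h1 : d * x = x * d + m)
    (h2 : m * x = x * m) (T : R) (n : ℕ) :
    (ad_Seid x)^[n + 1] (T * d) =
      (ad_Seid x)^[n + 1] T * d + (n + 1) • ((ad_Seid x)^[n] T * m) := by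
  induction n with
  | zero =>
    simp only [zero_add, Function.iterate_one, Function.iterate_zero, id, ad_Seid, one_smul]
    rw [mul_assoc T d x, h1]
    noncomm_ring
  | succ n ih =>
    rw [Function.iterate_succ_apply', ih, Function.iterate_succ_apply' _ (n + 1),
      Function.iterate_succ_apply' _ n]
    generalize (ad_Seid x)^[n] T = a
    have e : ad_Seid x a * m = a * m * x - x * (a * m) := by
      rw [mul_assoc a m x, h2, ad_Seid]
      noncomm_ring
    generalize ad_Seid x a = b at e ⊢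
    rw [succ_nsmul _ (n + 1), ad_Seid, ad_Seid, add_mul, mul_add, smul_mul_assoc, mul_smul_comm,
      mul_assoc b d x, h1]
    have e2 := congrArg ((n + 1) • ·) e
    simp only [smul_sub] at e2
    rw [e2]
    noncomm_ring

theorem ad_pow_Seid {R : Type*} [Ring R] {x d m : R} (h1 : d * x = x * d + m)
    (h2 : m * x = x * m) (k : ℕ) : (ad_Seid x)^[k] (d ^ k) = k.factorial • m ^ k ∧
      ∀ n, k < n → (ad_Seid x)^[n] (d ^ k) = 0 := by
  induction k with
  | zero =>
    refine ⟨by simp, fun n hn => ?_⟩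
    obtain ⟨n, rfl⟩ := Nat.exists_eq_succ_of_ne_zero hn.ne'
    rw [Function.iterate_succ_apply, Function.iterate_fixed] <;> simp [ad_Seid]
  | succ k ih =>
    refine ⟨?_, fun n hn => ?_⟩
    · rw [pow_succ, ad_mul_Seid h1 h2, ih.1, ih.2 _ (Nat.lt_succ_self k), zero_mul, zero_add,
        smul_mul_assoc, smul_smul, Nat.factorial_succ, pow_succ]
    · obtain ⟨n, rfl⟩ := Nat.exists_eq_succ_of_ne_zero (n := n) (by omega)
      rw [pow_succ, ad_mul_Seid h1 h2, ih.2 _ (by omega), ih.2 _ (by omega)]
      simp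

theorem conductor_Seid {L : Type u} [Field L] (A : Subring L)
    (hfr : ∀ x : L, ∃ c ∈ A, c ≠ 0 ∧ c * x ∈ A) {x : L} (hx : IsIntegral A x) :
    ∃ c : L, c ≠ 0 ∧ ∀ j : ℕ, x ^ j * c ∈ A := by
  classical
  obtain ⟨s, hs⟩ := hx.fg_adjoin_singleton
  have h1 : ∀ s : Finset L, ∃ c ∈ A, c ≠ 0 ∧ ∀ y ∈ s, c * y ∈ A := fun s => by
    induction s using Finset.induction_on with
    | empty => exact ⟨1, one_mem _, one_ne_zero, by simp⟩
    | insert y s _ ih =>
      obtain ⟨c, h1, h2, h3⟩ := ih
      obtain ⟨c', h4, h5, h6⟩ := hfr y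
      refine ⟨c * c', mul_mem h1 h4, mul_ne_zero h2 h5, fun z hz => ?_⟩
      rcases Finset.mem_insert.1 hz with rfl | hz
      · rw [mul_assoc]
        exact mul_mem h1 h6
      · rw [mul_right_comm]
        exact mul_mem (h3 z hz) h4
  obtain ⟨c, -, h2, h3⟩ := h1 s
  refine ⟨c, h2, fun j => ?_⟩
  have h4 : x ^ j ∈ Submodule.span A (s : Set L) := by
    rw [hs]
    exact pow_mem (Algebra.self_mem_adjoin_singleton A x) j
  rw [mul_comm]
  generalize x ^ j = y at h4
  induction h4 using Submodule.span_induction with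
  | mem y hy => exact h3 y hy
  | zero => simp
  | add y z _ _ hy hz => rw [mul_add]; exact add_mem hy hz
  | smul a y _ hy => rw [mul_smul_comm]; exact mul_mem a.2 hy

theorem seidenberg {k L : Type u} [CommRing k] [Field L] [Algebra k L] (D : Derivation k L L)
    (A : Subring L) [QAlg A] (hD : ∀ a ∈ A, D a ∈ A)
    (hfr : ∀ x : L, ∃ c ∈ A, c ≠ 0 ∧ c * x ∈ A) {x : L} (hx : IsIntegral A x) :
    ∃ c : L, c ≠ 0 ∧ ∀ n : ℕ, IsIntegral A (c * D x ^ n) := by
  obtain ⟨c, hc, hc'⟩ := conductor_Seid A hfr hx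
  refine ⟨c, hc, fun n => ?_⟩
  let d : Module.End k L := D.toLinearMap
  let ml : L →ₐ[k] Module.End k L := Algebra.lmul k L
  have hml : ∀ a b : L, ml a b = a * b := fun a b => rfl
  have h1 : d * ml x = ml x * d + ml (D x) := LinearMap.ext fun y => by
    change D (x * y) = x * D y + D x * y
    rw [Derivation.leibniz, smul_eq_mul, smul_eq_mul, mul_comm y]
  have h2 : ml (D x) * ml x = ml x * ml (D x) := by rw [← map_mul, ← map_mul, mul_comm]
  have h3 : ∀ a ∈ A, (d ^ n) a ∈ A := by
    induction n with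
    | zero => exact fun a ha => ha
    | succ n ih => exact fun a ha => by rw [pow_succ]; exact ih _ (hD a ha)
  have h4 : ∀ i j : ℕ, IsIntegral A ((ad_Seid (ml x))^[i] (d ^ n) (x ^ j * c)) := fun i => by
    induction i with
    | zero => exact fun j => isIntegral_algebraMap (x := (⟨_, h3 _ (hc' j)⟩ : A))
    | succ i ih =>
      intro j
      rw [Function.iterate_succ_apply', ad_Seid, LinearMap.sub_apply, Module.End.mul_apply,
        Module.End.mul_apply, hml, hml, ← mul_assoc, ← pow_succ']
      exact (ih (j + 1)).sub (hx.mul (ih j))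
  have h5 := h4 n 0
  rw [(ad_pow_Seid h1 h2 n).1, ← map_pow, pow_zero, one_mul, LinearMap.smul_apply, hml] at h5
  obtain ⟨b, hb⟩ := (QAlg.isUnit_natCast (S := A) _ n.factorial_ne_zero).exists_left_inv
  have h6 := h5.smul b
  have h7 : (b : L) * (n.factorial : L) = 1 := by exact_mod_cast congrArg Subtype.val hb
  rwa [nsmul_eq_mul, Subring.smul_def, smul_eq_mul, ← mul_assoc, h7, one_mul, mul_comm] at h6

theorem mem_of_isIntegral_Seid {L : Type u} [Field L] {A : Subring L} {V : ValuationSubring L}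
    (hAV : ∀ a ∈ A, a ∈ V) {x : L} (hx : IsIntegral A x) : x ∈ V := by
  let f : A →+* V := Subring.inclusion (S := A) (T := V.toSubring) hAV
  obtain ⟨p, h1, h2⟩ := hx
  obtain ⟨y, rfl⟩ := (IsIntegrallyClosed.isIntegral_iff (R := V) (K := L)).1
    ⟨p.map f, h1.map f, by rw [Polynomial.eval₂_map]; exact h2⟩
  exact y.2

theorem derivation_mem_of_isOrd {k L : Type u} [CommRing k] [Field L] [Algebra k L]
    (D : Derivation k L L) (A : Subring L) [QAlg A] (hD : ∀ a ∈ A, D a ∈ A)
    (hfr : ∀ x : L, ∃ c ∈ A, c ≠ 0 ∧ c * x ∈ A) {V : ValuationSubring L}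
    {ord : Additive Lˣ →+ ℚ} (hV : Cy.IsOrd V ord) (hAV : ∀ a ∈ A, a ∈ V) {x : L}
    (hx : IsIntegral A x) : D x ∈ V := by
  obtain ⟨c, hc, h⟩ := seidenberg D A hD hfr hx
  by_cases h0 : D x = 0
  · rw [h0]
    exact zero_mem _
  refine (hV (Units.mk0 _ h0)).2 (not_lt.1 fun h1 => ?_)
  obtain ⟨n, hn⟩ := exists_nat_gt
    (ord (Additive.ofMul (Units.mk0 c hc)) / -ord (Additive.ofMul (Units.mk0 _ h0)))
  have h2 := (hV (Units.mk0 c hc * Units.mk0 _ h0 ^ n)).1 (mem_of_isIntegral_Seid hAV (h n))
  rw [ofMul_mul, ofMul_pow, map_add, map_nsmul, nsmul_eq_mul] at h2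
  rw [div_lt_iff₀ (neg_pos.2 h1)] at hn
  linarith

theorem mem_of_unit_coeff {L : Type u} [Field L] (A : Subring L) (V : ValuationSubring L)
    (hAV : ∀ a ∈ A, a ∈ V) (hint : ∀ x : L, IsIntegral A x → x ∈ A) {x : L} (hx : x ∈ V)
    (hinv : ∀ a ∈ A, a ∉ V.nonunits → a⁻¹ ∈ A) (p : Polynomial L) (hp : ∀ i, p.coeff i ∈ A)
    (hu : ∃ i, p.coeff i ∉ V.nonunits) (h0 : p.eval x = 0) : x ∈ A := by
  induction hn : p.natDegree using Nat.strong_induction_on generalizing p with
  | _ n ih =>
  have hc : (p.coeffs : Set L) ⊆ A := fun y hy => by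
    obtain ⟨i, -, rfl⟩ := Polynomial.mem_coeffs_iff.1 hy
    exact hp i
  have h1 : p.coeff n * x ∈ A := hint _ (by
    have := isIntegral_leadingCoeff_smul (p.toSubring A hc) x (by
      rw [← Polynomial.eval_map_algebraMap]
      exact (congrArg (Polynomial.eval x) (p.map_toSubring A hc)).trans h0)
    rwa [Subring.smul_def, Polynomial.leadingCoeff, Polynomial.coeff_toSubring,
      Polynomial.natDegree_toSubring, hn] at this)
  by_cases h2 : p.coeff n ∈ V.nonunits
  swap
  · have h3 : p.coeff n ≠ 0 := fun e => h2 (e ▸ zero_mem _)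
    have := mul_mem (hinv _ (hp n) h2) h1
    rwa [inv_mul_cancel_left₀ h3] at this
  obtain ⟨i, hi⟩ := hu
  have h3 : i < n := lt_of_le_of_ne
    (hn ▸ Polynomial.le_natDegree_of_ne_zero fun e => hi (e ▸ zero_mem _)) fun e => hi (e ▸ h2)
  have h4 : p.coeff n * x ∈ V.nonunits := by
    rw [V.mem_nonunits_iff, map_mul]
    exact (mul_le_of_le_one_right' ((V.valuation_le_one_iff x).2 hx)).trans_lt
      (V.mem_nonunits_iff.1 h2)
  obtain ⟨m, rfl⟩ : ∃ m, n = m + 1 := Nat.exists_eq_succ_of_ne_zero (n := n) (by omega)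
  refine ih _ ?_ (p.eraseLead + Polynomial.monomial m (p.coeff (m + 1) * x)) (fun j => ?_)
    ⟨i, fun e => hi ?_⟩ ?_ rfl
  · have h5 := p.eraseLead_natDegree_le
    exact Nat.lt_succ_of_le (Polynomial.natDegree_add_le_of_degree_le (by omega)
      (Polynomial.natDegree_monomial_le _))
  · rw [Polynomial.coeff_add, Polynomial.eraseLead_coeff, Polynomial.coeff_monomial]
    refine add_mem ?_ ?_ <;> split_ifs
    exacts [zero_mem _, hp j, h1, zero_mem _]
  · rw [Polynomial.coeff_add, Polynomial.eraseLead_coeff_of_ne _ (by omega),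
      Polynomial.coeff_monomial] at e
    split_ifs at e
    · simpa using sub_mem e h4
    · simpa using e
  · rw [← p.eraseLead_add_monomial_natDegree_leadingCoeff, Polynomial.leadingCoeff, hn,
      Polynomial.eval_add, Polynomial.eval_monomial] at h0
    rw [Polynomial.eval_add, Polynomial.eval_monomial, ← h0]
    ring

theorem factorial_mul_ord {L : Type u} [Field L] {V : ValuationSubring L}
    {ord : Additive Lˣ →+ ℚ} (hV : Cy.IsOrd V ord) (p : Polynomial L) (hp : p ≠ 0)
    (hc : ∀ i (c : Lˣ), (c : L) = p.coeff i → ∃ z : ℤ, ord (Additive.ofMul c) = z) (x : Lˣ)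
    (h0 : p.eval (x : L) = 0) {n : ℕ} (hn : p.natDegree.factorial ∣ n) :
    ∃ z : ℤ, (n : ℚ) * ord (Additive.ofMul x) = z := by
  classical
  let a : p.support → Lˣ := fun i => Units.mk0 _ (Polynomial.mem_support_iff.1 i.2)
  let o : p.support → ℚ := fun i => ord (Additive.ofMul (a i * x ^ i.1))
  have ho : ∀ i, o i = ord (Additive.ofMul (a i)) + i.1 * ord (Additive.ofMul x) := fun i => by
    simp only [o, ofMul_mul, ofMul_pow, map_add, map_nsmul, nsmul_eq_mul]
  have : Nonempty p.support := (Polynomial.support_nonempty.2 hp).to_subtype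
  obtain ⟨i, -, hi⟩ := Finset.exists_min_image Finset.univ o Finset.univ_nonempty
  obtain ⟨j, hj, hij⟩ : ∃ j, j ≠ i ∧ o j = o i := by
    by_contra! H
    have h1 : ∑ j ∈ Finset.univ.erase i, ((a j * x ^ j.1 / (a i * x ^ i.1) : Lˣ) : L) ∈
        V.nonunits := sum_mem fun j hj => by
      rw [hV.mem_nonunits, ofMul_div, map_sub, sub_pos]
      exact lt_of_le_of_ne (hi j (Finset.mem_univ j)) (H j (Finset.ne_of_mem_erase hj)).symm
    have h2 : ∑ j, ((a j * x ^ j.1 / (a i * x ^ i.1) : Lˣ) : L) = 0 := by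
      simp only [Units.val_div_eq_div_val, ← Finset.sum_div]
      rw [Polynomial.eval_eq_sum, Polynomial.sum_def, ← Finset.sum_coe_sort] at h0
      exact div_eq_zero_iff.2 (Or.inl h0)
    rw [← Finset.add_sum_erase _ _ (Finset.mem_univ i), div_self', add_eq_zero_iff_eq_neg] at h2
    have h3 := (hV.mem_nonunits 1).1 (h2 ▸ neg_mem h1)
    simp at h3
  obtain ⟨zi, h1⟩ := hc i (a i) rfl
  obtain ⟨zj, h2⟩ := hc j (a j) rfl
  rw [ho, ho, h1, h2] at hij
  have h3 := Polynomial.le_natDegree_of_mem_supp _ i.2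
  have h4 := Polynomial.le_natDegree_of_mem_supp _ j.2
  have h5 : j.1 ≠ i.1 := fun e => hj (Subtype.ext e)
  obtain ⟨t, ht⟩ : ((j.1 : ℤ) - i.1) ∣ n := Int.natAbs_dvd.1 (Int.natCast_dvd_natCast.2
    ((Nat.dvd_factorial (by omega) (by omega)).trans hn))
  have h6 : (n : ℚ) = ((j.1 : ℚ) - i.1) * t := by exact_mod_cast ht
  exact ⟨(zi - zj) * t, by rw [h6]; push_cast; linear_combination t * hij⟩

theorem fg_integralClosure {F L : Type u} [Field F] [CharZero F] [Field L] [Algebra F L]
    (hfg : ∃ s : Finset L, IntermediateField.adjoin F (s : Set L) = ⊤) (A : Subalgebra F L)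
    (hA : A.FG) (halg : ∀ x : L, IsAlgebraic A x) :
    ((integralClosure A L).restrictScalars F).FG := by
  have : Algebra.FiniteType F A := (Subalgebra.fg_iff_finiteType A).1 hA
  obtain ⟨n, g, hg, hg'⟩ := exists_integral_inj_algHom_of_fg F A
  let P := MvPolynomial (Fin n) F
  let K := FractionRing P
  let : Algebra P A := g.toRingHom.toAlgebra
  let : Algebra P L := (A.val.comp g).toRingHom.toAlgebra
  have : IsScalarTower P A L := IsScalarTower.of_algebraMap_eq fun _ => rfl
  have : IsScalarTower F P L := IsScalarTower.of_algebraMap_eq fun a =>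
    ((A.val.comp g).commutes a).symm
  have : Algebra.IsIntegral P A := ⟨hg'⟩
  have hi : Function.Injective (algebraMap P L) := Subtype.val_injective.comp hg
  have : FaithfulSMul P L := (faithfulSMul_iff_algebraMap_injective P L).2 hi
  let : Algebra K L := FractionRing.liftAlgebra P L
  have : IsScalarTower P K L := FractionRing.isScalarTower_liftAlgebra P L
  have : IsScalarTower F K L := IsScalarTower.of_algebraMap_eq fun a => by
    rw [IsScalarTower.algebraMap_apply F P K, ← IsScalarTower.algebraMap_apply P K L,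
      ← IsScalarTower.algebraMap_apply F P L]
  have : Algebra.IsAlgebraic A L := ⟨halg⟩
  have : Algebra.IsAlgebraic P L := Algebra.IsAlgebraic.trans P A L
  have : Algebra.IsAlgebraic K L := Algebra.IsAlgebraic.extendScalars (R := P)
    (IsFractionRing.injective P K)
  have : CharZero K := algebraRat.charZero K
  have : FiniteDimensional K L := by
    obtain ⟨s, hs⟩ := hfg
    have h1 : IntermediateField.adjoin K (s : Set L) = ⊤ := by
      rw [eq_top_iff]
      intro y _
      have h2 : IntermediateField.adjoin F (s : Set L) ≤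
          (IntermediateField.adjoin K (s : Set L)).restrictScalars F :=
        IntermediateField.adjoin_le_iff.2 (IntermediateField.subset_adjoin K _)
      exact h2 (hs ▸ IntermediateField.mem_top)
    have h3 : FiniteDimensional K (IntermediateField.adjoin K (s : Set L)) :=
      IntermediateField.finiteDimensional_adjoin fun x _ => Algebra.IsIntegral.isIntegral x
    rw [h1] at h3
    exact IntermediateField.topEquiv.toLinearEquiv.finiteDimensional
  have := IsIntegralClosure.finite P K L (integralClosure P L)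
  have h1 : (integralClosure A L).restrictScalars F = (integralClosure P L).restrictScalars F :=
    Subalgebra.ext fun y => ⟨fun hy => isIntegral_trans (R := P) y hy,
      fun hy => IsIntegral.tower_top (R := P) hy⟩
  rw [h1, Subalgebra.fg_iff_finiteType]
  let : Algebra F (integralClosure P L) := ((integralClosure P L).restrictScalars F).algebra
  have : IsScalarTower F P (integralClosure P L) := IsScalarTower.of_algebraMap_eq fun a =>
    Subtype.ext (IsScalarTower.algebraMap_apply F P L a)
  exact Algebra.FiniteType.trans (S := P) (A := integralClosure P L) inferInstance inferInstance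

end

end Pool.Agent.MP_e2821c_ag.Dg
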