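import Pool.Agent.Lib.MP_e2821c_ag.Dg.Chart
import Pool.Agent.Lib.MP_e2821c_ag.Dg.Seid

namespace Pool.Agent.MP_e2821c_ag.Dg

open MvPolynomial

universe u v w

noncomputable section

variable {F L : Type u} [Field F] [Field L] [Algebra F L]

/-- The elements of `B` that are units for all valuation rings of a family. -/
def unitsIn (𝒩 : Set (ValuationSubring L)) (B : Subalgebra F L) : Set L :=
  {s | s ∈ B ∧ s ≠ 0 ∧ ∀ V ∈ 𝒩, s ∉ V.nonunits}

theorem mem_val_GGb {A : Subalgebra F L} {V : ValuationSubring L} (hAV : ∀ a ∈ A, a ∈ V) {x : L}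
    (hx : IsIntegral A x) : x ∈ V := by
  let φ : A →+* V := A.val.toRingHom.codRestrict V.toSubring fun a => hAV a a.2
  have h1 : IsIntegral V x := hx.map_of_comp_eq φ (RingHom.id L) (by ext a; rfl)
  obtain ⟨y, rfl⟩ := (IsIntegrallyClosed.isIntegral_iff (R := V) (K := L)).1 h1
  exact y.2

theorem exists_center_GGb {B : Subalgebra F L} {V : ValuationSubring L} (hBV : ∀ a ∈ B, a ∈ V) :
    ∃ 𝔠 : Ideal B, ∀ a : B, a ∈ 𝔠 ↔ (a : L) ∈ V.nonunits := by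
  let φ : B →+* V := B.val.toRingHom.codRestrict V.toSubring fun a => hBV a a.2
  exact ⟨(IsLocalRing.maximalIdeal V).comap φ, fun a =>
    (ValuationSubring.coe_mem_nonunits_iff (a := φ a)).symm⟩

theorem not_mem_iff_GGb {V : ValuationSubring L} {s : L} :
    s ∉ V.nonunits ↔ 1 ≤ V.valuation s := by
  rw [ValuationSubring.mem_nonunits_iff, not_lt]

theorem isPrime_GGb {B : Subalgebra F L} {V : ValuationSubring L} {𝔠 : Ideal B}
    (h : ∀ a : B, a ∈ 𝔠 ↔ (a : L) ∈ V.nonunits) : 𝔠.IsPrime := by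
  refine ⟨fun h1 => ?_, fun {a b} hab => ?_⟩
  · have h2 := (h 1).1 (h1 ▸ Submodule.mem_top)
    exact not_mem_iff_GGb.2 (by simp) h2
  · by_contra hc
    rw [not_or, h, h, not_mem_iff_GGb, not_mem_iff_GGb] at hc
    refine not_mem_iff_GGb.2 ?_ ((h _).1 hab)
    rw [Subalgebra.coe_mul, map_mul]
    exact one_le_mul hc.1 hc.2

theorem const_eq_zero_GGb {V : ValuationSubring L} (hF : ∀ c : F, algebraMap F L c ∈ V) {c : F}
    (hc : algebraMap F L c ∈ V.nonunits) : c = 0 := by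
  rcases V.mem_nonunits_iff_or.1 hc with h | h
  · exact (map_eq_zero _).1 h
  · exact absurd (by rw [← map_inv₀]; exact hF _) h

theorem finite_charts_GGb {e : ℕ} (S : Finset (Fin e → ℤ)) :
    {p : (Fin e → ℤ) × Module.Basis (Fin e) ℤ (Fin e → ℤ) | IsChart S p.1 p.2}.Finite := by
  refine Set.Finite.of_injOn (f := fun p => (p.1, fun i => p.1 + p.2 i))
    (t := (S : Set (Fin e → ℤ)) ×ˢ Set.univ.pi fun _ => (S : Set (Fin e → ℤ)))
    (fun p hp => ⟨hp.1, fun i _ => hp.2.1 i⟩) (fun p _ q _ h => ?_)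
    (S.finite_toSet.prod (Set.Finite.pi fun _ => S.finite_toSet))
  have h1 : p.1 = q.1 := (Prod.ext_iff.1 h).1
  have h2 : ∀ i, p.1 + p.2 i = q.1 + q.2 i := congrFun (Prod.ext_iff.1 h).2
  refine Prod.ext h1 (DFunLike.ext _ _ fun i => ?_)
  have h3 := h2 i
  rw [h1] at h3
  exact add_left_cancel h3

/-- The localisation of `B` at the center of `V`. -/
def locRing_GGb (B : Subalgebra F L) (V : ValuationSubring L) : Subring L where
  carrier := {r | ∃ s ∈ B, s ∉ V.nonunits ∧ s * r ∈ B}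
  mul_mem' := by
    rintro a b ⟨s, h1, h2, h3⟩ ⟨t, k1, k2, k3⟩
    refine ⟨s * t, B.mul_mem h1 k1, ?_, ?_⟩
    · rw [not_mem_iff_GGb] at h2 k2 ⊢
      rw [map_mul]
      exact one_le_mul h2 k2
    · rw [mul_mul_mul_comm]
      exact B.mul_mem h3 k3
  one_mem' := ⟨1, B.one_mem, not_mem_iff_GGb.2 (by simp), by simp⟩
  add_mem' := by
    rintro a b ⟨s, h1, h2, h3⟩ ⟨t, k1, k2, k3⟩
    refine ⟨s * t, B.mul_mem h1 k1, ?_, ?_⟩
    · rw [not_mem_iff_GGb] at h2 k2 ⊢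
      rw [map_mul]
      exact one_le_mul h2 k2
    · rw [show s * t * (a + b) = t * (s * a) + s * (t * b) by ring]
      exact B.add_mem (B.mul_mem k1 h3) (B.mul_mem h1 k3)
  zero_mem' := ⟨1, B.one_mem, not_mem_iff_GGb.2 (by simp), by simp⟩
  neg_mem' := by
    rintro a ⟨s, h1, h2, h3⟩
    exact ⟨s, h1, h2, by simpa using B.neg_mem h3⟩

theorem locRing_int_GGb {A B : Subalgebra F L} (hB : ∀ a, a ∈ B ↔ IsIntegral A a)
    (V : ValuationSubring L) {x : L}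
    (hx : IsIntegral (locRing_GGb B V) x) : x ∈ locRing_GGb B V := by
  have hAB : A ≤ B := fun a ha => (hB a).2 (isIntegral_algebraMap (x := (⟨a, ha⟩ : A)))
  letI : Algebra A B := (Subalgebra.inclusion hAB).toRingHom.toAlgebra
  haveI : IsScalarTower A B L := IsScalarTower.of_algebraMap_eq fun _ => rfl
  haveI : Algebra.IsIntegral A B :=
    ⟨fun a => (isIntegral_algebraMap_iff (B := L) Subtype.val_injective).1 ((hB a).1 a.2)⟩
  have h1 : (1 : L) ∉ V.nonunits := not_mem_iff_GGb.2 (by simp)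
  have h2 : ∀ a : B, B.val.toRingHom a ∈ locRing_GGb B V := fun a =>
    ⟨1, B.one_mem, h1, by simp⟩
  letI : Algebra B (locRing_GGb B V) :=
    (B.val.toRingHom.codRestrict (locRing_GGb B V) h2).toAlgebra
  haveI : IsScalarTower B (locRing_GGb B V) L := IsScalarTower.of_algebraMap_eq fun _ => rfl
  let M : Submonoid B :=
    { carrier := {s | (s : L) ∉ V.nonunits}
      mul_mem' := fun {a b} ha hb => not_mem_iff_GGb.2 (by
        rw [Subalgebra.coe_mul, map_mul]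
        exact one_le_mul (not_mem_iff_GGb.1 ha) (not_mem_iff_GGb.1 hb))
      one_mem' := h1 }
  haveI : IsLocalization M (locRing_GGb B V) := by
    refine (isLocalization_iff _ _).2 ⟨fun y => ?_, fun z => ?_, fun {a b} h => ⟨1, ?_⟩⟩
    · have h0 : ((y : B) : L) ≠ 0 := fun h => y.2 (h ▸ V.nonunits.zero_mem)
      refine IsUnit.of_mul_eq_one ⟨((y : B) : L)⁻¹, (y : B), (y : B).2, y.2, ?_⟩
        (Subtype.ext (mul_inv_cancel₀ h0))
      rw [mul_inv_cancel₀ h0]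
      exact B.one_mem
    · obtain ⟨s, k1, k2, k3⟩ := z.2
      exact ⟨(⟨_, k3⟩, ⟨⟨s, k1⟩, k2⟩), Subtype.ext (mul_comm _ _)⟩
    · have h3 : (a : L) = b := congrArg (locRing_GGb B V).subtype h
      rw [Subtype.ext h3]
  obtain ⟨m, hm⟩ := hx.exists_multiple_integral_of_isLocalization M x
  exact ⟨(m : B), (m : B).2, m.2, (hB _).2 (isIntegral_trans (A := B) _ hm)⟩

theorem finite_centers {e : ℕ} {b : Fin e → Lˣ} (hb : AlgebraicIndependent F fun l => (b l : L))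
    {S : Finset (Fin e → ℤ)} (𝒩 : Set (ValuationSubring L))
    (hF : ∀ V ∈ 𝒩, ∀ c : F, algebraMap F L c ∈ V)
    (hS : ∀ V ∈ 𝒩, ∃ v x, IsChart S v x ∧ ∀ i, (chi b (x i) : L) ∈ V.nonunits)
    (B : Subalgebra F L) (hB : ∀ a, a ∈ B ↔ IsIntegral (AS F b S) a) (hfg : B.FG) :
    ∃ M : Finset (Ideal B), (∀ 𝔠 ∈ M, 𝔠.IsMaximal ∧ ∃ V ∈ 𝒩, ∀ a : B, a ∈ 𝔠 ↔ (a : L) ∈ V.nonunits) ∧
      ∀ V ∈ 𝒩, ∃ 𝔠 ∈ M, ∀ a : B, a ∈ 𝔠 ↔ (a : L) ∈ V.nonunits := by
  classical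
  have hAB : AS F b S ≤ B := fun a ha =>
    (hB a).2 (isIntegral_algebraMap (x := (⟨a, ha⟩ : AS F b S)))
  letI : Algebra (AS F b S) B := (Subalgebra.inclusion hAB).toRingHom.toAlgebra
  haveI : IsScalarTower (AS F b S) B L := IsScalarTower.of_algebraMap_eq fun _ => rfl
  haveI : IsScalarTower F (AS F b S) B := IsScalarTower.of_algebraMap_eq fun _ => rfl
  haveI : Algebra.IsIntegral (AS F b S) B :=
    ⟨fun a => (isIntegral_algebraMap_iff (B := L) Subtype.val_injective).1 ((hB a).1 a.2)⟩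
  haveI : Algebra.FiniteType F B := (Subalgebra.fg_iff_finiteType B).1 hfg
  haveI : Algebra.FiniteType (AS F b S) B :=
    Algebra.FiniteType.of_restrictScalars_finiteType F (AS F b S) B
  haveI : Module.Finite (AS F b S) B := Algebra.IsIntegral.finite
  have hfin : {𝔠 : Ideal B | ∃ V ∈ 𝒩, ∀ a : B, a ∈ 𝔠 ↔ (a : L) ∈ V.nonunits}.Finite := by
    refine Set.Finite.subset ((finite_charts_GGb S).biUnion
      (t := fun p => {𝔠 : Ideal B | ∃ V ∈ 𝒩, (∀ a : B, a ∈ 𝔠 ↔ (a : L) ∈ V.nonunits) ∧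
        ∀ i, (chi b (p.2 i) : L) ∈ V.nonunits}) fun p hp => ?_) ?_
    · rcases Set.eq_empty_or_nonempty {𝔠 : Ideal B | ∃ V ∈ 𝒩,
        (∀ a : B, a ∈ 𝔠 ↔ (a : L) ∈ V.nonunits) ∧ ∀ i, (chi b (p.2 i) : L) ∈ V.nonunits} with
        h0 | ⟨𝔠₀, V₀, hV₀, k1, k2⟩
      · rw [h0]
        exact Set.finite_empty
      refine (Algebra.QuasiFinite.finite_primesOver (S := B) (𝔠₀.under (AS F b S))).subset ?_
      rintro 𝔠 ⟨V, hV, l1, l2⟩
      refine ⟨isPrime_GGb l1, ⟨Ideal.ext fun r => ?_⟩⟩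
      obtain ⟨c, hc⟩ := exists_sub_const hb hp (AS_le_Oc hb hp r.2)
      have key : ∀ W ∈ 𝒩, (∀ i, (chi b (p.2 i) : L) ∈ W.nonunits) →
          ((r : L) ∈ W.nonunits ↔ c = 0) := fun W hW hx => by
        have h1 := hc W (hF W hW) hx
        refine ⟨fun h => const_eq_zero_GGb (hF W hW) ?_, fun h => ?_⟩
        · simpa using W.nonunits.sub_mem h h1
        · simpa [h] using h1
      rw [Ideal.mem_comap, Ideal.mem_comap, k1, l1]
      exact (key V₀ hV₀ k2).trans (key V hV l2).symm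
    · rintro 𝔠 ⟨V, hV, h⟩
      obtain ⟨v, x, h1, h2⟩ := hS V hV
      exact Set.mem_biUnion (x := (v, x)) h1 ⟨V, hV, h, h2⟩
  refine ⟨hfin.toFinset, fun 𝔠 h𝔠 => ?_, fun V hV => ?_⟩
  · obtain ⟨V, hV, h⟩ := hfin.mem_toFinset.1 h𝔠
    refine ⟨?_, V, hV, h⟩
    obtain ⟨v, x, h1, h2⟩ := hS V hV
    haveI := isPrime_GGb h
    refine Ideal.isMaximal_of_isIntegral_of_isMaximal_comap (R := AS F b S) 𝔠
      (Ideal.isMaximal_iff.2 ⟨fun h3 => ?_, fun J r hJ hr hrJ => ?_⟩)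
    · rw [Ideal.mem_comap, map_one] at h3
      exact (isPrime_GGb h).ne_top ((Ideal.eq_top_iff_one _).2 h3)
    · obtain ⟨c, hc⟩ := exists_sub_const hb h1 (AS_le_Oc hb h1 r.2)
      have h3 : r - algebraMap F (AS F b S) c ∈ 𝔠.comap (algebraMap (AS F b S) B) := by
        rw [Ideal.mem_comap, h]
        exact hc V (hF V hV) h2
      have h4 : c ≠ 0 := fun h0 => hr (by simpa [h0] using h3)
      have h5 : algebraMap F (AS F b S) c ∈ J := by simpa using J.sub_mem hrJ (hJ h3)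
      have h6 := J.mul_mem_left (algebraMap F (AS F b S) c⁻¹) h5
      rwa [← map_mul, inv_mul_cancel₀ h4, map_one] at h6
  · obtain ⟨v, x, h1, h2⟩ := hS V hV
    obtain ⟨𝔠, h⟩ := exists_center_GGb (B := B) (V := V) fun a ha =>
      mem_val_GGb (fun r hr => Oc_le_valuation (hF V hV) h2 (AS_le_Oc hb h1 hr)) ((hB a).1 ha)
    exact ⟨𝔠, hfin.mem_toFinset.2 ⟨V, hV, h⟩, h⟩

theorem exists_denominator {e : ℕ} {b : Fin e → Lˣ}
    (hb : AlgebraicIndependent F fun l => (b l : L)) {S : Finset (Fin e → ℤ)}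
    (𝒩 : Set (ValuationSubring L)) (hne : 𝒩.Nonempty)
    (hF : ∀ V ∈ 𝒩, ∀ c : F, algebraMap F L c ∈ V)
    (B : Subalgebra F L) (hB : ∀ a, a ∈ B ↔ IsIntegral (AS F b S) a) (hfg : B.FG) {a : L}
    (ha : ∀ V ∈ 𝒩, a ∈ V)
    (hS : ∀ V ∈ 𝒩, ∃ v x, IsChart S v x ∧ (∀ i, (chi b (x i) : L) ∈ V.nonunits) ∧
      ∃ p : Polynomial L, p.eval a = 0 ∧ (∀ i, p.coeff i ∈ Oc F fun i => (chi b (x i) : L)) ∧
        ∃ i, p.coeff i ∉ V.nonunits) :
    ∃ s ∈ unitsIn 𝒩 B, s * a ∈ B := by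
  classical
  have h1 : ∀ V ∈ 𝒩, ∃ s ∈ B, s ∉ V.nonunits ∧ s * a ∈ B := fun V hV => by
    obtain ⟨v, x, hc, hx, p, hp0, hp, hu⟩ := hS V hV
    have hBV : ∀ r ∈ B, r ∈ V := fun r hr =>
      mem_val_GGb (fun r hr => Oc_le_valuation (hF V hV) hx (AS_le_Oc hb hc hr)) ((hB r).1 hr)
    have hAB : AS F b S ≤ B := fun r hr =>
      (hB r).2 (isIntegral_algebraMap (x := (⟨r, hr⟩ : AS F b S)))
    refine mem_of_unit_coeff (locRing_GGb B V) V ?_ (fun y hy => locRing_int_GGb hB V hy)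
      (ha V hV) ?_ p (fun i => ?_) hu hp0
    · rintro r ⟨s, k1, k2, k3⟩
      have k4 := (V.valuation_le_one_iff _).2 (hBV _ k3)
      rw [map_mul] at k4
      rw [← V.valuation_le_one_iff]
      exact (le_mul_of_one_le_left' (not_mem_iff_GGb.1 k2)).trans k4
    · rintro r ⟨s, k1, k2, k3⟩ hr
      have h0 : r ≠ 0 := fun h => hr (h ▸ V.nonunits.zero_mem)
      refine ⟨s * r, k3, not_mem_iff_GGb.2 ?_, ?_⟩
      · rw [map_mul]
        exact one_le_mul (not_mem_iff_GGb.1 k2) (not_mem_iff_GGb.1 hr)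
      · rwa [mul_inv_cancel_right₀ h0]
    · obtain ⟨s, k1, k2, k3, k4⟩ := exists_mul_mem_AS hb hc (hp i)
      refine ⟨s, hAB k1, fun h => ?_, hAB k4⟩
      rcases V.mem_nonunits_iff_or.1 h with h | h
      · exact k2 h
      · exact h (Oc_le_valuation (hF V hV) hx k3)
  obtain ⟨M, hM1, hM2⟩ := finite_centers hb 𝒩 hF (fun V hV => by
    obtain ⟨v, x, hc, hx, -⟩ := hS V hV
    exact ⟨v, x, hc, hx⟩) B hB hfg
  let I : Ideal B :=
    { carrier := {s | (s : L) * a ∈ B}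
      add_mem' := fun {s t} hs ht => by
        show ((s : L) + t) * a ∈ B
        rw [add_mul]
        exact B.add_mem hs ht
      zero_mem' := by
        show (0 : L) * a ∈ B
        rw [zero_mul]
        exact B.zero_mem
      smul_mem' := fun c {s} hs => by
        show ((c : L) * s) * a ∈ B
        rw [mul_assoc]
        exact B.mul_mem c.2 hs }
  have h2 : ¬ (I : Set B) ⊆ ⋃ 𝔠 ∈ (M : Set (Ideal B)), (id 𝔠 : Ideal B) := fun h => by
    obtain ⟨𝔠, h𝔠, hle⟩ := (Ideal.subset_union_prime (s := M) (f := id) ⊥ ⊥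
      fun 𝔠 h𝔠 _ _ => (hM1 𝔠 h𝔠).1.isPrime).1 h
    obtain ⟨-, V, hV, h3⟩ := hM1 𝔠 h𝔠
    obtain ⟨s, k1, k2, k3⟩ := h1 V hV
    exact k2 ((h3 ⟨s, k1⟩).1 (hle (show (⟨s, k1⟩ : B) ∈ I from k3)))
  obtain ⟨s, hs, hs'⟩ := Set.not_subset.1 h2
  have h3 : ∀ V ∈ 𝒩, (s : L) ∉ V.nonunits := fun V hV h => by
    obtain ⟨𝔠, h𝔠, k⟩ := hM2 V hV
    exact hs' (Set.mem_biUnion (x := 𝔠) h𝔠 ((k s).2 h))
  obtain ⟨V, hV⟩ := hne
  exact ⟨s, ⟨s.2, fun h => h3 V hV (h ▸ V.nonunits.zero_mem), h3⟩, hs⟩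

theorem exists_poly_unit_coeff {e : ℕ} {b : Fin e → Lˣ} (x : Module.Basis (Fin e) ℤ (Fin e → ℤ))
    (p : Polynomial L) (hp : p ≠ 0) (μ : L → Fin e → ℤ)
    (h1 : ∀ i, p.coeff i ≠ 0 →
      p.coeff i * (chi b (-μ (p.coeff i)) : L) ∈ Oc F (fun i => (chi b (x i) : L)) ∧
        (p.coeff i)⁻¹ * (chi b (μ (p.coeff i)) : L) ∈ Oc F (fun i => (chi b (x i) : L)))
    (h2 : ∀ i j, p.coeff i ≠ 0 → p.coeff j ≠ 0 →
      (∀ l, 0 ≤ x.repr (μ (p.coeff i) - μ (p.coeff j)) l) ∨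
        ∀ l, x.repr (μ (p.coeff i) - μ (p.coeff j)) l ≤ 0) :
    ∃ i, p.coeff i ≠ 0 ∧ ∀ j, p.coeff j / p.coeff i ∈ Oc F (fun i => (chi b (x i) : L)) := by
  obtain ⟨i, hi, hmin⟩ := p.support.exists_min_image (fun i => ∑ l, x.repr (μ (p.coeff i)) l)
    (Polynomial.support_nonempty.2 hp)
  have hi0 := Polynomial.mem_support_iff.1 hi
  refine ⟨i, hi0, fun j => ?_⟩
  by_cases hj0 : p.coeff j = 0
  · rw [hj0, zero_div]
    exact Subalgebra.zero_mem _
  have h3 : ∀ l, 0 ≤ x.repr (μ (p.coeff j) - μ (p.coeff i)) l := by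
    rcases h2 j i hj0 hi0 with h | h
    · exact h
    · have h4 := hmin j (Polynomial.mem_support_iff.2 hj0)
      have h5 : ∑ l, x.repr (μ (p.coeff j) - μ (p.coeff i)) l = 0 := by
        refine le_antisymm (Finset.sum_nonpos fun l _ => h l) ?_
        simp only [map_sub, Finsupp.sub_apply, Finset.sum_sub_distrib]
        exact sub_nonneg.2 h4
      exact fun l => ((Finset.sum_eq_zero_iff_of_nonpos fun l _ => h l).1 h5 l
        (Finset.mem_univ l)).ge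
  have h4 : (chi b (-μ (p.coeff j)) : L) * (chi b (μ (p.coeff i)) : L) *
      (chi b (μ (p.coeff j) - μ (p.coeff i)) : L) = 1 := by
    rw [← Units.val_mul, ← Units.val_mul, ← chi_add, ← chi_add,
      show -μ (p.coeff j) + μ (p.coeff i) + (μ (p.coeff j) - μ (p.coeff i)) = 0 by abel, chi_zero,
      Units.val_one]
  have h5 := Subalgebra.mul_mem _ (Subalgebra.mul_mem _ (h1 j hj0).1 (h1 i hi0).2)
    (chi_mem_Oc (F := F) b x h3)
  rwa [mul_mul_mul_comm, mul_assoc, h4, mul_one, ← div_eq_mul_inv] at h5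

end

end Pool.Agent.MP_e2821c_ag.Dg
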