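import Pool.Agent.Lib.MP_e2821c_ag.Dg.Core

namespace Pool.Agent.MP_e2821c_ag.Dg

open MvPolynomial

universe u v w

noncomputable section

theorem semilocal_of_finite {B B' U : Type u} [CommRing B] [CommRing B'] [CommRing U]
    (j : B →+* B') (hj : j.Finite) (hi : Function.Injective j) (M : Finset (Ideal B))
    (hM : ∀ 𝔠 ∈ M, 𝔠.IsMaximal) (hne : M.Nonempty) (T : Submonoid B')
    (hT : ∀ t, t ∈ T ↔ ∃ s, (∀ 𝔠 ∈ M, s ∉ 𝔠) ∧ j s = t) [Algebra B' U] [IsLocalization T U] :
    {𝔫 : Ideal U | 𝔫.IsMaximal}.Finite ∧ ∀ 𝔫 : Ideal U, 𝔫.IsMaximal →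
      (𝔫.comap (algebraMap B' U)).IsMaximal ∧ (∀ t ∈ T, t ∉ 𝔫.comap (algebraMap B' U)) ∧
        (𝔫.comap (algebraMap B' U)).comap j ∈ M := by
  classical
  let : Algebra B B' := j.toAlgebra
  have : Module.Finite B B' := hj
  have key : ∀ 𝔫 : Ideal U, 𝔫.IsMaximal →
      (𝔫.comap (algebraMap B' U)).IsMaximal ∧ (∀ t ∈ T, t ∉ 𝔫.comap (algebraMap B' U)) ∧
        (𝔫.comap (algebraMap B' U)).comap j ∈ M := by
    intro 𝔫 h𝔫
    have hdisj : ∀ t ∈ T, t ∉ 𝔫.comap (algebraMap B' U) := by
      intro t ht hm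
      exact h𝔫.ne_top (Ideal.eq_top_of_isUnit_mem 𝔫 hm (IsLocalization.map_units U ⟨t, ht⟩))
    have hsub : (((𝔫.comap (algebraMap B' U)).comap j : Ideal B) : Set B) ⊆
        ⋃ 𝔠 ∈ (↑M : Set (Ideal B)), ((id 𝔠 : Ideal B) : Set B) := by
      intro s hs
      by_contra hn
      refine hdisj (j s) ((hT _).2 ⟨s, fun 𝔠 h𝔠 hs𝔠 => hn ?_, rfl⟩) hs
      exact Set.mem_biUnion h𝔠 hs𝔠
    obtain ⟨𝔠₀, h𝔠₀⟩ := hne
    obtain ⟨𝔠, h𝔠, hle⟩ := (Ideal.subset_union_prime (f := id) 𝔠₀ 𝔠₀
      (fun 𝔠 h𝔠 _ _ => (hM 𝔠 h𝔠).isPrime)).1 hsub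
    have := hM 𝔠 h𝔠
    obtain ⟨Q, hQ, hQp, hQc⟩ := Ideal.exists_ideal_over_prime_of_isIntegral (R := B) (S := B') 𝔠
      (𝔫.comap (algebraMap B' U)) hle
    have hQd : Disjoint (T : Set B') (Q : Set B') := by
      rw [Set.disjoint_left]
      intro t ht htQ
      obtain ⟨s, hs, rfl⟩ := (hT t).1 ht
      refine hs 𝔠 h𝔠 ?_
      rw [← hQc]
      exact htQ
    have hprime := IsLocalization.isPrime_of_isPrime_disjoint T U Q hQp hQd
    have h1 : 𝔫 ≤ Q.map (algebraMap B' U) := by
      rw [← IsLocalization.map_under T U 𝔫]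
      exact Ideal.map_mono hQ
    have h2 : 𝔫 = Q.map (algebraMap B' U) := h𝔫.eq_of_le hprime.ne_top h1
    have h3 : 𝔫.comap (algebraMap B' U) = Q := by
      rw [h2]
      exact IsLocalization.under_map_of_isPrime_disjoint T U hQp hQd
    have h4 : Q.comap j = 𝔠 := hQc
    refine ⟨?_, hdisj, ?_⟩
    · rw [h3]
      refine Ideal.isMaximal_of_isIntegral_of_isMaximal_comap (R := B) Q ?_
      rw [hQc]
      exact hM 𝔠 h𝔠
    · rw [h3, h4]
      exact h𝔠
  refine ⟨?_, key⟩
  have hfin : (⋃ 𝔠 ∈ (↑M : Set (Ideal B)), 𝔠.primesOver B').Finite :=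
    M.finite_toSet.biUnion fun 𝔠 _ => Algebra.QuasiFinite.finite_primesOver 𝔠
  refine Set.Finite.of_finite_image (f := fun 𝔫 : Ideal U => 𝔫.comap (algebraMap B' U))
    (hfin.subset ?_) ?_
  · rintro _ ⟨𝔫, h𝔫, rfl⟩
    obtain ⟨h1, -, h3⟩ := key 𝔫 h𝔫
    exact Set.mem_biUnion h3 ⟨h1.isPrime, ⟨rfl⟩⟩
  · intro a _ b _ hab
    have hab' : a.under B' = b.under B' := hab
    rw [← IsLocalization.map_under T U a, ← IsLocalization.map_under T U b, hab']

theorem trdeg_subalgebra {F L : Type u} [Field F] [Field L] [Algebra F L] {e : ℕ} {b : Fin e → L}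
    (hb : IsTranscendenceBasis F b) (B : Subalgebra F L) (hB : ∀ x : L, IsAlgebraic B x) :
    Algebra.trdeg F B = e := by
  have : Algebra.IsAlgebraic B L := ⟨hB⟩
  have h1 := trdeg_add_eq F B (A := L)
  rw [trdeg_eq_zero (R := B) (A := L), add_zero] at h1
  have h2 := hb.lift_cardinalMk_eq_trdeg
  rw [h1]
  simpa using h2.symm

theorem exists_root_field {F L : Type u} [Field F] [CharZero F] [Field L] [Algebra F L] {e n : ℕ}
    (b : Fin e → Lˣ) (hn : 0 < n) :
    ∃ (L' : IntermediateField L (AlgebraicClosure L)) (β : Fin e → L'ˣ), FiniteDimensional L L' ∧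
      (∀ l, (β l : L') ^ n = algebraMap L L' (b l)) ∧
      IntermediateField.adjoin F (Set.range (algebraMap L L') ∪ Set.range fun l => (β l : L')) =
        ⊤ := by
  have hex : ∀ l, ∃ z : AlgebraicClosure L, z ^ n = algebraMap L _ (b l : L) := fun l =>
    IsAlgClosed.exists_pow_nat_eq _ hn
  choose z hz using hex
  have hz0 : ∀ l, z l ≠ 0 := by
    intro l h
    have h1 := hz l
    rw [h, zero_pow hn.ne'] at h1
    exact (b l).ne_zero ((algebraMap L (AlgebraicClosure L)).injective (by rw [← h1, map_zero]))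
  let L' : IntermediateField L (AlgebraicClosure L) := IntermediateField.adjoin L (Set.range z)
  have hmem : ∀ l, z l ∈ L' := fun l => IntermediateField.subset_adjoin _ _ ⟨l, rfl⟩
  refine ⟨L', fun l => Units.mk0 ⟨z l, hmem l⟩ (fun h => hz0 l (congrArg Subtype.val h)), ?_, ?_,
    ?_⟩
  · exact IntermediateField.finiteDimensional_adjoin fun x _ =>
      (Algebra.IsAlgebraic.isAlgebraic x).isIntegral
  · intro l
    apply Subtype.ext
    exact hz l
  · rw [eq_top_iff]
    rintro ⟨x, hx⟩ -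
    induction hx using IntermediateField.adjoin_induction with
    | mem x hx =>
      obtain ⟨l, rfl⟩ := hx
      exact IntermediateField.subset_adjoin _ _ (Or.inr ⟨l, rfl⟩)
    | algebraMap x => exact IntermediateField.subset_adjoin _ _ (Or.inl ⟨x, rfl⟩)
    | add x y hx hy h1 h2 => exact add_mem h1 h2
    | inv x hx h1 => exact inv_mem h1
    | mul x y hx hy h1 h2 => exact mul_mem h1 h2

theorem exists_primitive_data {F L : Type u} [Field F] [CharZero F] [Field L] [Algebra F L]
    (hfg : ∃ s : Finset L, IntermediateField.adjoin F (s : Set L) = ⊤) (t : Set L)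
    (halg : ∀ x : L, IsAlgebraic (Algebra.adjoin F t) x) :
    ∃ (r : ℕ) (α : L) (f g : Polynomial L), IntermediateField.adjoin F (insert α t) = ⊤ ∧
      f.Monic ∧ f.eval α = 0 ∧ g.eval α * f.derivative.eval α = 1 ∧
      (∀ i, f.coeff i ∈ IntermediateField.adjoin F t) ∧
      (∀ i, g.coeff i ∈ IntermediateField.adjoin F t) ∧
      ∀ a : L, ∃ p : Polynomial L, p ≠ 0 ∧ p.natDegree ≤ r ∧ p.eval a = 0 ∧
        ∀ i, p.coeff i ∈ IntermediateField.adjoin F t := by
  obtain ⟨s, hs⟩ := hfg
  let K : IntermediateField F L := IntermediateField.adjoin F t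
  have hle : Algebra.adjoin F t ≤ K.toSubalgebra := IntermediateField.algebra_adjoin_le_adjoin F t
  have halgK : ∀ x : L, IsAlgebraic K x := fun x =>
    (halg x).tower_top_of_subalgebra_le hle
  have : Algebra.IsAlgebraic K L := ⟨halgK⟩
  have : CharZero K := algebraRat.charZero K
  have htop : IntermediateField.adjoin K (s : Set L) = ⊤ := by
    rw [eq_top_iff]
    intro x _
    have hx : x ∈ IntermediateField.adjoin F (s : Set L) := hs ▸ IntermediateField.mem_top
    have h1 : IntermediateField.adjoin F (s : Set L) ≤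
        (IntermediateField.adjoin K (s : Set L)).restrictScalars F :=
      IntermediateField.adjoin_le_iff.2 (IntermediateField.subset_adjoin K _)
    exact h1 hx
  have : FiniteDimensional K L := by
    have h1 : FiniteDimensional K (IntermediateField.adjoin K (s : Set L)) :=
      IntermediateField.finiteDimensional_adjoin fun x _ => (halgK x).isIntegral
    rw [htop] at h1
    exact LinearEquiv.finiteDimensional (IntermediateField.topEquiv (F := K) (E := L)).toLinearEquiv
  obtain ⟨α, hα⟩ := Field.exists_primitive_element K L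
  have hsep : (minpoly K α).Separable := Algebra.IsSeparable.isSeparable K α
  obtain ⟨a, g, hag⟩ := hsep
  have hcoef : ∀ (p : Polynomial K) (i : ℕ), (p.map (algebraMap K L)).coeff i ∈ K := by
    intro p i
    rw [Polynomial.coeff_map]
    exact (p.coeff i).2
  refine ⟨Module.finrank K L, α, (minpoly K α).map (algebraMap K L), g.map (algebraMap K L), ?_,
    (minpoly.monic (halgK α).isIntegral).map _, ?_, ?_, hcoef _, hcoef _, ?_⟩
  · have h1 := IntermediateField.adjoin_adjoin_left F t ({α} : Set L)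
    have h2 : (IntermediateField.adjoin K ({α} : Set L)).restrictScalars F = ⊤ := by
      rw [hα]; rfl
    rw [Set.insert_eq, Set.union_comm, ← h1]
    exact h2
  · rw [Polynomial.eval_map_algebraMap]
    exact minpoly.aeval K α
  · have h1 := congrArg (Polynomial.aeval α) hag
    rw [map_add, map_mul, map_mul, minpoly.aeval, mul_zero, zero_add, map_one] at h1
    rw [Polynomial.derivative_map, Polynomial.eval_map_algebraMap, Polynomial.eval_map_algebraMap]
    exact h1
  · intro x
    refine ⟨(minpoly K x).map (algebraMap K L), ?_, ?_, ?_, hcoef _⟩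
    · exact ((minpoly.monic (halgK x).isIntegral).map _).ne_zero
    · rw [Polynomial.natDegree_map]
      exact minpoly.natDegree_le x
    · rw [Polynomial.eval_map_algebraMap]
      exact minpoly.aeval K x

end

end Pool.Agent.MP_e2821c_ag.Dg
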