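import Pool.Agent.Lib.MP_e2821c_ag.Dg.Pert

namespace Pool.Agent.MP_e2821c_ag.Dg

open Polynomial

universe u v w

noncomputable section

theorem finite_mapRingHom_Hom1 {A B : Type u} [CommRing A] [CommRing B] (φ : A →+* B)
    (hφ : φ.Finite) : (mapRingHom φ).Finite := by
  let _ := φ.toAlgebra
  let _ := Polynomial.algebra A B
  exact RingHom.finite_isStableUnderBaseChange A B A[X] B[X] hφ

theorem finite_poly_Hom1 {U O : Type u} [CommRing U] [CommRing O] (g : U →+* O) (z : O)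
    (hz : (eval₂RingHom g z).Finite) : (eval₂RingHom (mapRingHom g) (C z)).Finite := by
  have h1 := finite_mapRingHom_Hom1 _ hz
  have h2 := RingHom.Finite.comp h1 (Bivariate.swap (R := U)).toRingEquiv.finite
  convert h2 using 1
  refine Polynomial.ringHom_ext' (Polynomial.ringHom_ext' ?_ ?_) ?_
  · ext1 r
    simp [Bivariate.swap_C_C]
  · simp [Bivariate.swap_X]
  · simp [Bivariate.swap_Y]

theorem finite_max_Hom1 {U O : Type u} [CommRing U] [CommRing O] (g : U →+* O)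
    (hU : {𝔫 : Ideal U | 𝔫.IsMaximal}.Finite) (K : Ideal O) (hK : FiniteOver U O g K) :
    {M : Ideal O | M.IsMaximal ∧ K ≤ M}.Finite := by
  let _ := ((Ideal.Quotient.mk K).comp g).toAlgebra
  have : Module.Finite U (O ⧸ K) := hK
  have h1 : (⋃ 𝔫 ∈ {𝔫 : Ideal U | 𝔫.IsMaximal}, 𝔫.primesOver (O ⧸ K)).Finite :=
    hU.biUnion fun 𝔫 _ => Algebra.QuasiFinite.finite_primesOver 𝔫
  refine (h1.image (Ideal.comap (Ideal.Quotient.mk K))).subset ?_
  rintro M ⟨hM, hKM⟩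
  have hk : RingHom.ker (Ideal.Quotient.mk K) ≤ M := by rwa [Ideal.mk_ker]
  have hM' : (M.map (Ideal.Quotient.mk K)).IsMaximal :=
    Ideal.IsMaximal.map_of_surjective_of_ker_le Ideal.Quotient.mk_surjective hk
  refine ⟨M.map (Ideal.Quotient.mk K), ?_, ?_⟩
  · simp only [Set.mem_iUnion]
    refine ⟨(M.map (Ideal.Quotient.mk K)).comap (algebraMap U (O ⧸ K)),
      Ideal.isMaximal_comap_of_isIntegral_of_isMaximal _, hM'.isPrime, ⟨rfl⟩⟩
  · rw [Ideal.comap_map_of_surjective _ Ideal.Quotient.mk_surjective, ← RingHom.ker_eq_comap_bot,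
      sup_of_le_left hk]

theorem exists_glue_Hom1 {O : Type u} [CommRing O] (T : Set (Ideal O)) (hT : T.Finite)
    (hmax : ∀ M ∈ T, M.IsMaximal) (I : Ideal O) (d : T → O) (hd : ∀ M, d M ∈ I) :
    ∃ δ ∈ I, ∀ M : T, δ - d M ∈ M.1 * I := by
  classical
  have := hT.fintype
  have hco : Pairwise (Function.onFun IsCoprime fun M : T => M.1) := by
    intro M M' hne
    have := hmax _ M.2
    have := hmax _ M'.2
    exact Ideal.isCoprime_iff_sup_eq.2
      (Ideal.IsMaximal.coprime_of_ne inferInstance inferInstance fun h => hne (Subtype.ext h))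
  have he : ∀ M : T, ∃ e : O, ∀ M' : T, e - (if M' = M then 1 else 0) ∈ M'.1 := fun M =>
    Ideal.exists_forall_sub_mem_ideal hco fun M' => if M' = M then 1 else 0
  choose e he using he
  refine ⟨∑ M, e M * d M, Ideal.sum_mem _ fun M _ => Ideal.mul_mem_left _ _ (hd M), fun M => ?_⟩
  have : ∑ M', e M' * d M' - d M = ∑ M', (e M' - if M = M' then 1 else 0) * d M' := by
    simp [sub_mul, Finset.sum_sub_distrib]
  rw [this]
  exact Ideal.sum_mem _ fun M' _ => Ideal.mul_mem_mul (he M' M) (hd M')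

theorem exists_standard {U O : Type u} [CommRing U] [CommRing O] [IsNoetherianRing O]
    (g : U →+* O) (hU : {𝔫 : Ideal U | 𝔫.IsMaximal}.Finite) (Δ : O →+* U)
    (hΔ : Δ.comp g = RingHom.id U) (z f : O) (hz : (eval₂RingHom g z).Finite)
    (hf : FiniteOver U O g (Ideal.span {f}))
    (hgen : ∀ 𝔫 : Ideal U, 𝔫.IsMaximal → ∃ δ ∈ RingHom.ker Δ, ∃ s, Δ s ∉ 𝔫 ∧
      ∀ x ∈ RingHom.ker Δ, s * x ∈ Ideal.span {δ} ⊔ RingHom.ker Δ ^ 2) :
    ∃ (h : O[X]) (J : Ideal O), FiniteOver U[X] O[X] (mapRingHom g) (Ideal.span {h}) ∧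
      IsUnit (Ideal.Quotient.mk (Ideal.span {h.eval 1}) f) ∧ RingHom.ker Δ ⊔ J = ⊤ ∧
      RingHom.ker Δ ⊓ J = Ideal.span {h.eval 0} ∧ IsUnit (Ideal.Quotient.mk J f) := by
  rcases subsingleton_or_nontrivial U with hs | hnt
  · have : Subsingleton O := g.codomain_trivial_iff_range_trivial.2
      (fun x => by rw [Subsingleton.elim x 0, map_zero]) |> subsingleton_of_zero_eq_one
    refine ⟨0, ⊤, RingHom.Finite.of_surjective _ fun x => ⟨0, Subsingleton.elim _ _⟩,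
      isUnit_of_subsingleton _, Subsingleton.elim _ _, Subsingleton.elim _ _,
      isUnit_of_subsingleton _⟩
  have hΔg : ∀ u, Δ (g u) = u := fun u => congrArg (fun φ : U →+* U => φ u) hΔ
  have hsurj : Function.Surjective Δ := fun u => ⟨g u, hΔg u⟩
  set I := RingHom.ker Δ with hI
  obtain ⟨G, hGm, hG⟩ := hf.to_isIntegral (Ideal.Quotient.mk _ z)
  rw [← hom_eval₂, Ideal.Quotient.eq_zero_iff_mem] at hG
  set P : U[X] := (X - C (Δ z)) * G with hP
  have hPm : P.Monic := (monic_X_sub_C _).mul hGm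
  have hPd : 0 < P.natDegree := by
    rw [hP, (monic_X_sub_C _).natDegree_mul hGm, natDegree_X_sub_C]
    omega
  set g0 : O := eval₂ g z P with hg0
  have hg0' : g0 = (z - g (Δ z)) * eval₂ g z G := by
    rw [hg0, hP, eval₂_mul, eval₂_sub, eval₂_X, eval₂_C]
  have hg0I : g0 ∈ I := by
    rw [hI, RingHom.mem_ker, hg0', map_mul, map_sub, hΔg, sub_self, zero_mul]
  have hg0f : g0 ∈ Ideal.span {f} := by
    rw [hg0']
    exact Ideal.mul_mem_left _ _ hG
  obtain ⟨N₁, hN₁⟩ := finite_quot_perturb g z hz P hPm hPd 0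
  have hT : {M : Ideal O | M.IsMaximal ∧ g0 ∈ M}.Finite := by
    refine (finite_max_Hom1 g hU _ (hN₁ (N₁ + 1) (Nat.le_succ _))).subset ?_
    rintro M ⟨hM, hgM⟩
    refine ⟨hM, ?_⟩
    rw [Ideal.span_singleton_le_iff_mem, add_zero, ← hg0]
    exact Ideal.pow_mem_of_mem _ hgM _ (Nat.succ_pos _)
  have hd : ∀ M : {M : Ideal O | M.IsMaximal ∧ g0 ∈ M}, ∃ d ∈ I, (¬ I ≤ M.1 → d ∉ M.1) ∧
      (I ≤ M.1 → ∃ s, s ∉ M.1 ∧ ∀ x ∈ I, s * x ∈ Ideal.span {d} ⊔ I ^ 2) := by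
    rintro ⟨M, hM, -⟩
    by_cases hIM : I ≤ M
    · obtain ⟨d, hdI, s, hs, hsx⟩ := hgen (M.map Δ)
        (Ideal.IsMaximal.map_of_surjective_of_ker_le hsurj hIM)
      exact ⟨d, hdI, fun h => (h hIM).elim, fun _ =>
        ⟨s, fun h => hs (Ideal.mem_map_of_mem _ h), hsx⟩⟩
    · obtain ⟨d, hdI, hdM⟩ := SetLike.not_le_iff_exists.1 hIM
      exact ⟨d, hdI, fun _ => hdM, fun h => (hIM h).elim⟩
  choose d hdI hd1 hd2 using hd
  obtain ⟨δ, hδI, hδ⟩ := exists_glue_Hom1 _ hT (fun M hM => hM.1) I d hdI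
  obtain ⟨N₂, hN₂⟩ := finite_quot_perturb (mapRingHom g) (C z) (finite_poly_Hom1 g z hz)
    (P.map C) (hPm.map _) (by rwa [hPm.natDegree_map]) ((1 - X) * C δ + X)
  have hev : eval₂ (mapRingHom g) (C z) (P.map C) = C g0 := by
    rw [eval₂_map, mapRingHom_comp_C, hg0, hom_eval₂]
  have hfin := hN₂ (N₂ + 2) (Nat.le_add_right _ _)
  rw [hev] at hfin
  set h0 : O := g0 ^ (N₂ + 2) + δ with hh0
  have hpI : g0 ^ (N₂ + 1) ∈ I := Ideal.pow_mem_of_mem _ hg0I _ (Nat.succ_pos _)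
  have hh0I : h0 ∈ I := I.add_mem (Ideal.pow_mem_of_mem _ hg0I _ (Nat.succ_pos _)) hδI
  set J : Ideal O := Submodule.colon (Ideal.span {h0}) (I : Set O) with hJ
  have hJm : ∀ a, a ∈ J ↔ ∀ x ∈ I, a * x ∈ Ideal.span {h0} := fun a => Submodule.mem_colon
  have hh0J : h0 ∈ J := (hJm _).2 fun x _ =>
    Ideal.mul_mem_right _ _ (Ideal.mem_span_singleton_self _)
  have hIJ : I ⊔ J = ⊤ := by
    by_contra hne
    obtain ⟨M, hM, hle⟩ := Ideal.exists_le_maximal _ hne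
    have hIM : I ≤ M := le_sup_left.trans hle
    obtain ⟨s, hs, hsx⟩ := hd2 ⟨M, hM, hIM hg0I⟩ hIM
    have hdm : d ⟨M, hM, hIM hg0I⟩ ∈ Ideal.span {h0} ⊔ M * I := by
      have e : d ⟨M, hM, hIM hg0I⟩ =
          h0 - (g0 * g0 ^ (N₂ + 1) + (δ - d ⟨M, hM, hIM hg0I⟩)) := by
        rw [hh0]
        ring
      rw [e]
      exact Ideal.sub_mem _ (Ideal.mem_sup_left (Ideal.mem_span_singleton_self _))
        (Ideal.mem_sup_right (Ideal.add_mem _ (Ideal.mul_mem_mul (hIM hg0I) hpI)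
          (hδ ⟨M, hM, hIM hg0I⟩)))
    have hle2 : Ideal.span {d ⟨M, hM, hIM hg0I⟩} ⊔ I ^ 2 ≤ Ideal.span {h0} ⊔ M * I := by
      refine sup_le ((Ideal.span_singleton_le_iff_mem _).2 hdm) (le_sup_of_le_right ?_)
      rw [pow_two]
      exact Ideal.mul_mono_left hIM
    obtain ⟨t, m, hm, htm⟩ := hM.exists_inv hs
    have hle3 : I ≤ Ideal.span {h0} ⊔ M • I := by
      intro x hx
      have e : x = t * (s * x) + m * x := by
        rw [← mul_assoc, ← add_mul, htm, one_mul]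
      rw [e, smul_eq_mul]
      exact Ideal.add_mem _ (Ideal.mul_mem_left _ _ (hle2 (hsx x hx)))
        (Ideal.mem_sup_right (Ideal.mul_mem_mul hm hx))
    obtain ⟨r, hr1, hr⟩ := Submodule.exists_sub_one_mem_and_smul_le_of_fg_of_le_sup
      (IsNoetherian.noetherian I) le_rfl hle3
    have hrJ : r ∈ J := (hJm _).2 fun x hx => hr (Submodule.smul_mem_pointwise_smul x r I hx)
    have hrM : r ∈ M := (le_sup_right.trans hle) hrJ
    exact hM.ne_top ((Ideal.eq_top_iff_one _).2 (by simpa using M.sub_mem hrM hr1))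
  have e1 : (C g0 ^ (N₂ + 2) + ((1 - X) * C δ + X)).eval 1 = g0 ^ (N₂ + 2) + 1 := by simp
  have e0 : (C g0 ^ (N₂ + 2) + ((1 - X) * C δ + X)).eval 0 = h0 := by simp [hh0]
  refine ⟨_, J, hfin, ?_, hIJ, ?_, ?_⟩
  · rw [e1]
    obtain ⟨a, ha⟩ := Ideal.mem_span_singleton'.1 hg0f
    refine IsUnit.of_mul_eq_one (Ideal.Quotient.mk _ (-(a * g0 ^ (N₂ + 1)))) ?_
    rw [← map_mul, ← map_one (Ideal.Quotient.mk _), Ideal.Quotient.eq]
    refine Ideal.mem_span_singleton'.2 ⟨-1, ?_⟩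
    rw [pow_succ' g0 (N₂ + 1)]
    nth_rewrite 1 [← ha]
    ring
  · rw [e0]
    refine le_antisymm ?_ ((Ideal.span_singleton_le_iff_mem _).2 ⟨hh0I, hh0J⟩)
    rintro x ⟨hxI, hxJ⟩
    obtain ⟨i, hi, j, hj, hij⟩ := Submodule.mem_sup.1 ((Ideal.eq_top_iff_one _).1 hIJ)
    have e : x = x * i + j * x := by
      rw [mul_comm j x, ← mul_add, hij, mul_one]
    rw [e]
    exact Ideal.add_mem _ ((hJm _).1 hxJ i hi) ((hJm _).1 hj x hxI)
  · have hJf : J ⊔ Ideal.span {f} = ⊤ := by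
      by_contra hne
      obtain ⟨M, hM, hle⟩ := Ideal.exists_le_maximal _ hne
      have hJM : J ≤ M := le_sup_left.trans hle
      have hg0M : g0 ∈ M := (le_sup_right.trans hle) hg0f
      have hδM : δ ∈ M := by
        have := M.sub_mem (hJM hh0J) (Ideal.pow_mem_of_mem _ hg0M (N₂ + 2) (Nat.succ_pos _))
        rwa [hh0, add_sub_cancel_left] at this
      have hIM : ¬ I ≤ M := fun h => hM.ne_top (top_le_iff.1 (hIJ ▸ sup_le h hJM))
      refine hd1 ⟨M, hM, hg0M⟩ hIM ?_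
      have h1 : δ - d ⟨M, hM, hg0M⟩ ∈ M * I := hδ ⟨M, hM, hg0M⟩
      have h2 : M * I ≤ M := Ideal.mul_le_left
      have := M.sub_mem hδM (h2 h1)
      rwa [sub_sub_cancel] at this
    obtain ⟨j, hj, y, hy, hjy⟩ := Submodule.mem_sup.1 ((Ideal.eq_top_iff_one _).1 hJf)
    obtain ⟨b, rfl⟩ := Ideal.mem_span_singleton'.1 hy
    refine IsUnit.of_mul_eq_one (Ideal.Quotient.mk _ b) ?_
    rw [← map_mul, ← map_one (Ideal.Quotient.mk _), Ideal.Quotient.eq, ← hjy]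
    have e : f * b - (j + b * f) = -j := by ring
    rw [e]
    exact J.neg_mem hj

end

end Pool.Agent.MP_e2821c_ag.Dg
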