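import Pool.Agent.Lib.MP_e2821c_ag.Dg.TrSpec

namespace Pool.Agent.MP_e2821c_ag.Dg

open Polynomial

universe u v w

noncomputable section

variable {U O : Type u} [CommRing U] [IsDomain U] [QAlg U] [IsIntegrallyClosed U]
  [IsNoetherianRing U] [CommRing O] [IsNoetherianRing O]

theorem exists_family (g : U →+* O) (z : O)
    (htf : ∀ p : U[X], p.Monic → ∀ m, eval₂ g z p * m = 0 → ∃ s, s ≠ 0 ∧ g s * m = 0) (h : O[X])
    (hh : FiniteOver U[X] O[X] (mapRingHom g) (Ideal.span {h})) :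
    ∃ (d : ℕ) (l : O →+ U[X]), REff d l ∧ ∀ c : U,
      FiniteOver U O g (Ideal.span {h.eval (g c)}) ∧
      ∀ y, (l y).eval c = trG g (Ideal.span {h.eval (g c)}) y := by
  have : QAlg U[X] := QAlg.of_algebra U _
  obtain ⟨d, l, hl, e⟩ := exists_rEff_trG hh
  refine ⟨d, _, hl.comp_ringHom C, fun c => ?_⟩
  have hb : Function.Surjective (evalRingHom (g c)) := fun y => ⟨C y, eval_C⟩
  have hc : ∀ r, evalRingHom (g c) (mapRingHom g r) = g (evalRingHom c r) := fun r => by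
    simp [eval_map, eval₂_at_apply]
  have hm : (Ideal.span {h}).map (evalRingHom (g c)) = Ideal.span {h.eval (g c)} := by
    rw [Ideal.map_span, Set.image_singleton, coe_evalRingHom]
  have hf := finiteOver_map _ g _ _ hb hc _ hh
  rw [hm] at hf
  have ht : mapRingHom g (X - C c) = X - C (g c) := by simp
  refine ⟨hf, fun y => ?_⟩
  have := trG_spec (g' := g) (evalRingHom c) (fun y => ⟨C y, eval_C⟩) (X - C c) (ker_evalRingHom c)
    (evalRingHom (g c)) hb (fun y hy => ht ▸ dvd_iff_isRoot.2 hy) hc hh (fun x hx => ?_) (C y)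
  · rw [hm, coe_evalRingHom, coe_evalRingHom, eval_C, ← e] at this
    exact this
  rw [ht] at hx
  obtain ⟨w, hw⟩ := Ideal.mem_span_singleton.1 hx
  obtain ⟨p, hp, hz⟩ := RingHom.IsIntegral.of_finite hf (Ideal.Quotient.mk _ z)
  rw [← hom_eval₂, Ideal.Quotient.eq_zero_iff_mem, Ideal.mem_span_singleton] at hz
  obtain ⟨k, hk⟩ := hz
  have h1 := congrArg (eval (g c)) hw
  rw [eval_mul, eval_mul, eval_sub, eval_X, eval_C, sub_self, zero_mul] at h1
  obtain ⟨s, hs, h2⟩ := htf p hp (w.eval (g c)) (by rw [hk, mul_right_comm, ← h1, zero_mul])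
  obtain ⟨w', hw'⟩ : X - C (g c) ∣ C (g s) * w :=
    dvd_iff_isRoot.2 (by rw [IsRoot, eval_mul, eval_C, h2])
  refine ⟨C s, by simpa using hs, Ideal.mem_span_singleton.2 ⟨w', ?_⟩⟩
  refine (monic_X_sub_C (g c)).isRegular.left ?_
  rw [coe_mapRingHom, map_C]
  linear_combination C (g s) * hw + h * hw'

theorem exists_homotopy (g : U →+* O) (z : O)
    (htf : ∀ p : U[X], p.Monic → ∀ m, eval₂ g z p * m = 0 → ∃ s, s ≠ 0 ∧ g s * m = 0)
    (Δ : O →+* U) (hΔ : Δ.comp g = RingHom.id U) {B : Type u} [CommRing B] (j : B →+* O) (f : B)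
    (h : O[X]) (J : Ideal O) (hh : FiniteOver U[X] O[X] (mapRingHom g) (Ideal.span {h}))
    (h1 : IsUnit (Ideal.Quotient.mk (Ideal.span {h.eval 1}) (j f))) (hJ : RingHom.ker Δ ⊔ J = ⊤)
    (h0 : RingHom.ker Δ ⊓ J = Ideal.span {h.eval 0}) (h2 : IsUnit (Ideal.Quotient.mk J (j f))) :
    ∃ (d d₀ d₁ : ℕ) (l : B →+ U[X]) (l₀ l₁ : Localization.Away f →+ U),
      REff d l ∧ REff d₀ l₀ ∧ REff d₁ l₁ ∧
      (∀ b, (l b).eval 1 = l₁ (algebraMap B _ b)) ∧
      ∀ b, (l b).eval 0 = Δ (j b) + l₀ (algebraMap B _ b) := by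
  obtain ⟨d, l, hl, e⟩ := exists_family g z htf h hh
  obtain ⟨f1, e1⟩ := e 1
  obtain ⟨f0, e0⟩ := e 0
  rw [map_one] at f1 e1
  rw [map_zero, ← h0] at f0 e0
  have fJ := finiteOver_of_le inf_le_right f0
  obtain ⟨d₁, l₁, r1, k1⟩ := exists_rEff_away f1 j f h1
  obtain ⟨d₀, l₀, r0, k0⟩ := exists_rEff_away fJ j f h2
  refine ⟨d, d₀, d₁, _, l₀, l₁, hl.comp_ringHom j, r0, r1, fun b => (e1 _).trans (k1 b).symm,
    fun b => (e0 _).trans ?_⟩
  rw [trG_inf (finiteOver_of_le inf_le_left f0) fJ hJ, trG_ker Δ hΔ, k0]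
  rfl

end

end Pool.Agent.MP_e2821c_ag.Dg
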