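import Pool.Agent.Lib.MP_e2821c_ag.Dg.Core

namespace Pool.Agent.MP_e2821c_ag.Dg

open MvPolynomial
open scoped TensorProduct nonZeroDivisors

universe u v w

noncomputable section

variable {P B U : Type u} [CommRing P] [CommRing B] [CommRing U] [Algebra P B] [Algebra P U]

theorem exists_smul_kaehler [Algebra.FiniteType P B] (𝔪 : Ideal B) [𝔪.IsMaximal] (z' : B)
    (h : ∀ D : Derivation P B (B ⧸ 𝔪), D z' = 0 → D = 0) :
    ∃ s, s ∉ 𝔪 ∧ ∀ ω : Ω[B⁄P], s • ω ∈ Submodule.span B {KaehlerDifferential.D P B z'} := by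
  have hm : 𝔪.IsMaximal := inferInstance
  have top : (⊤ : Submodule B Ω[B⁄P]) ≤
      Submodule.span B {KaehlerDifferential.D P B z'} ⊔ 𝔪 • ⊤ := by
    rcases eq_top_or_exists_le_coatom
      (Submodule.span B {KaehlerDifferential.D P B z'} ⊔ 𝔪 • (⊤ : Submodule B Ω[B⁄P])) with
      e | ⟨M, hM, le⟩
    · exact e.ge
    obtain ⟨I, hI, ⟨e⟩⟩ := isSimpleModule_iff_quot_maximal.1 (isSimpleModule_iff_isCoatom.2 hM)
    obtain rfl : 𝔪 = I := hm.eq_of_le hI.ne_top fun a ha => by
      obtain ⟨x, hx⟩ := M.mkQ_surjective (e.symm 1)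
      have : a • e.symm 1 = 0 := by
        rw [← hx, ← map_smul, Submodule.mkQ_apply, Submodule.Quotient.mk_eq_zero]
        exact le (Submodule.mem_sup_right (Submodule.smul_mem_smul ha trivial))
      rw [← map_smul, e.symm.map_eq_zero_iff, Algebra.smul_def, mul_one] at this
      exact Ideal.Quotient.eq_zero_iff_mem.1 this
    have h0 := h ((e.toLinearMap ∘ₗ M.mkQ).compDer (KaehlerDifferential.D P B)) (by
      have : M.mkQ (KaehlerDifferential.D P B z') = 0 := (Submodule.Quotient.mk_eq_zero M).2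
        (le (Submodule.mem_sup_left (Submodule.mem_span_singleton_self _)))
      change e (M.mkQ (KaehlerDifferential.D P B z')) = 0
      rw [this, map_zero])
    have h1 : e.toLinearMap ∘ₗ M.mkQ = 0 :=
      Derivation.liftKaehlerDifferential_unique _ _ (h0.trans (by ext; simp))
    refine absurd (eq_top_iff.2 fun x _ => (Submodule.Quotient.mk_eq_zero M).1 ?_) hM.1
    exact e.map_eq_zero_iff.1 (LinearMap.congr_fun h1 x)
  obtain ⟨r, h1, h2⟩ := Submodule.exists_sub_one_mem_and_smul_le_of_fg_of_le_sup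
    Module.Finite.fg_top le_rfl top
  refine ⟨r, fun hr => hm.ne_top ((Ideal.eq_top_iff_one _).2 ?_),
    fun ω => h2 (Submodule.smul_mem_pointwise_smul ω r ⊤ trivial)⟩
  simpa using 𝔪.sub_mem hr h1

theorem diag_generator [Algebra B U] [IsScalarTower P B U] (Δ : U ⊗[P] B →+* U)
    (hΔ : ∀ (x : U) (b : B), Δ (x ⊗ₜ b) = x * algebraMap B U b) (z' s : B)
    (h : ∀ ω : Ω[B⁄P], s • ω ∈ Submodule.span B {KaehlerDifferential.D P B z'}) :
    ∃ δ ∈ RingHom.ker Δ, ∀ x ∈ RingHom.ker Δ,
      ((1 : U) ⊗ₜ[P] s) * x ∈ Ideal.span {δ} ⊔ RingHom.ker Δ ^ 2 := by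
  let d : B →ₗ[P] U ⊗[P] B := TensorProduct.mk P U B 1 -
    (TensorProduct.mk P U B).flip 1 ∘ₗ (IsScalarTower.toAlgHom P B U).toLinearMap
  have hd : ∀ b, d b = (1 : U) ⊗ₜ[P] b - algebraMap B U b ⊗ₜ[P] 1 := fun b => rfl
  have dk : ∀ b, d b ∈ RingHom.ker Δ := fun b => by
    rw [RingHom.mem_ker, hd, map_sub, hΔ, hΔ, map_one, one_mul, mul_one, sub_self]
  refine ⟨d z', dk z', ?_⟩
  set J := Ideal.span {d z'} ⊔ RingHom.ker Δ ^ 2 with hJ
  have dd : ∀ a b, d a * d b ∈ J := fun a b =>
    Ideal.mem_sup_right (by rw [sq]; exact Ideal.mul_mem_mul (dk a) (dk b))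
  have sm : ∀ (a : B) (x : U ⊗[P] B), a • Ideal.Quotient.mk J x =
      Ideal.Quotient.mk J (algebraMap B U a ⊗ₜ[P] 1 * x) := fun a x => by
    rw [Algebra.smul_def, map_mul]; rfl
  let D : Derivation P B ((U ⊗[P] B) ⧸ J) :=
    Derivation.mk' ((Ideal.Quotient.mkₐ P J).toLinearMap ∘ₗ d) fun a b => by
      change Ideal.Quotient.mk J _ = a • Ideal.Quotient.mk J _ + b • Ideal.Quotient.mk J _
      rw [sm, sm, ← map_add, Ideal.Quotient.eq]
      convert dd a b using 1
      simp only [hd, mul_sub, sub_mul, Algebra.TensorProduct.tmul_mul_tmul, map_mul, one_mul,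
        mul_one, mul_comm (algebraMap B U b)]
      ring
  have key : ∀ b, (1 : U) ⊗ₜ[P] s * d b ∈ J := fun b => by
    obtain ⟨c, hc⟩ := Submodule.mem_span_singleton.1 (h (KaehlerDifferential.D P B b))
    have e := congrArg D.liftKaehlerDifferential hc
    rw [map_smul, map_smul, Derivation.liftKaehlerDifferential_comp_D,
      Derivation.liftKaehlerDifferential_comp_D, show D z' = 0 from
        Ideal.Quotient.eq_zero_iff_mem.2 (Ideal.mem_sup_left (Ideal.mem_span_singleton_self _)),
      smul_zero] at e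
    have e2 := Ideal.Quotient.eq_zero_iff_mem.1 ((sm s (d b)).symm.trans e.symm)
    convert J.add_mem e2 (dd s b) using 1
    rw [hd s]; ring
  have all : ∀ x, (1 : U) ⊗ₜ[P] s * (x - Δ x ⊗ₜ[P] 1) ∈ J := fun x => by
    induction x using TensorProduct.induction_on with
    | zero => simp
    | tmul x b =>
      convert J.mul_mem_left (x ⊗ₜ[P] 1) (key b) using 1
      simp only [hd, hΔ, mul_sub, Algebra.TensorProduct.tmul_mul_tmul, one_mul, mul_one]
    | add x y hx hy =>
      convert J.add_mem hx hy using 1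
      rw [map_add, TensorProduct.add_tmul]; ring
  intro x hx
  simpa [RingHom.mem_ker.1 hx] using all x

attribute [local instance] Algebra.TensorProduct.rightAlgebra Polynomial.algebra in
theorem flat_Kae [IsDomain P] [IsDomain B] (z : B)
    (hi : Function.Injective (Polynomial.eval₂RingHom (algebraMap P B) z)) :
    RingHom.Flat (Polynomial.aeval (R := P) (z ⊗ₜ[P] (1 : FractionRing P))).toRingHom := by
  have hP : Function.Injective (algebraMap P B) := fun a b e =>
    Polynomial.C_injective (hi (by simpa using e))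
  have hle : Algebra.algebraMapSubmonoid B P⁰ ≤ B⁰ :=
    map_le_nonZeroDivisors_of_injective _ hP le_rfl
  have := IsLocalization.isDomain_of_le_nonZeroDivisors (B ⊗[P] FractionRing P) hle
  have t1 : Transcendental P z := transcendental_iff_injective.2 hi
  have t2 : Transcendental P (z ⊗ₜ[P] (1 : FractionRing P)) :=
    (transcendental_algebraMap_iff (IsLocalization.injective (B ⊗[P] FractionRing P) hle)).2 t1
  have t3 : Transcendental (FractionRing P) (z ⊗ₜ[P] (1 : FractionRing P)) := fun h =>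
    t2 ((IsFractionRing.isAlgebraic_iff P (FractionRing P) _).2 h)
  have f1 : (algebraMap (Polynomial P) (Polynomial (FractionRing P))).Flat :=
    RingHom.flat_algebraMap_iff.2 (have := Polynomial.isLocalization P⁰ (FractionRing P)
      IsLocalization.flat _ (P⁰.map Polynomial.C))
  have f2 : RingHom.Flat (Polynomial.aeval (R := FractionRing P)
      (z ⊗ₜ[P] (1 : FractionRing P))).toRingHom := by
    let _ := (Polynomial.aeval (R := FractionRing P)
      (z ⊗ₜ[P] (1 : FractionRing P))).toRingHom.toAlgebra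
    have : FaithfulSMul (Polynomial (FractionRing P)) (B ⊗[P] FractionRing P) :=
      (faithfulSMul_iff_algebraMap_injective _ _).2 (transcendental_iff_injective.1 t3)
    change Module.Flat _ _
    infer_instance
  convert f1.comp f2 using 1
  ext a
  · simp [Algebra.algebraMap_eq_smul_one]
  · simp

omit [Algebra P B] in
theorem reg_Kae {f : P →+* B} (hf : f.Flat) {p : P} (hp : IsRegular p) {x : B}
    (h : f p * x = 0) : x = 0 := by
  let _ := f.toAlgebra
  have : Module.Flat P B := hf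
  exact Module.Flat.isSMulRegular_of_isRegular (M := B) hp (h.trans (smul_zero p).symm)

theorem tensor_torsionFree [IsDomain P] [IsDomain B] [IsDomain U]
    (hU : Function.Injective (algebraMap P U)) (z : B)
    (hi : Function.Injective (Polynomial.eval₂RingHom (algebraMap P B) z))
    (hf : (Polynomial.eval₂RingHom (algebraMap P B) z).Finite) (p : Polynomial U) (hp : p.Monic)
    (m : U ⊗[P] B) (hm : Polynomial.aeval ((1 : U) ⊗ₜ[P] z) p * m = 0) :
    ∃ s : U, s ≠ 0 ∧ algebraMap U (U ⊗[P] B) s * m = 0 := by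
  let ι : U ⊗[P] B →ₐ[U] U ⊗[P] (B ⊗[P] FractionRing P) :=
    Algebra.TensorProduct.map (AlgHom.id U U) Algebra.TensorProduct.includeLeft
  let ψ : Polynomial U →ₐ[U] U ⊗[P] (B ⊗[P] FractionRing P) :=
    (Algebra.TensorProduct.lTensor (S := U) U (Polynomial.aeval
      (z ⊗ₜ[P] (1 : FractionRing P)))).comp (polyEquivTensor' P U).toAlgHom
  have f := (RingHom.Flat.of_bijective (f := (polyEquivTensor' P U).toAlgHom.toRingHom)
    (polyEquivTensor' P U).bijective).comp (RingHom.Flat.lTensor (S := U) U (flat_Kae z hi))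
  have e : ψ = ι.comp (Polynomial.aeval ((1 : U) ⊗ₜ[P] z)) := by
    ext; simp [ψ, ι]
  have h0 : ι m = 0 := by
    refine reg_Kae f hp.isRegular ?_
    change ψ p * _ = 0
    rw [e, AlgHom.comp_apply, ← map_mul, hm, map_zero]
  have h1 : ∀ x, ι x = TensorProduct.assoc P U B (FractionRing P) (x ⊗ₜ 1) := fun x => by
    induction x using TensorProduct.induction_on with
    | zero => simp
    | tmul x b => simp [ι]
    | add x y hx hy => rw [map_add, hx, hy, TensorProduct.add_tmul, map_add]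
  rw [h1, LinearEquiv.map_eq_zero_iff] at h0
  obtain ⟨⟨_, c, hc, rfl⟩, h2⟩ := (IsLocalization.map_eq_zero_iff
    (Algebra.algebraMapSubmonoid (U ⊗[P] B) P⁰) ((U ⊗[P] B) ⊗[P] FractionRing P) m).1 h0
  exact ⟨algebraMap P U c, fun h => nonZeroDivisors.ne_zero hc (hU (h.trans (map_zero _).symm)),
    by rwa [← IsScalarTower.algebraMap_apply]⟩

theorem tensor_finite (z : B) (hf : (Polynomial.eval₂RingHom (algebraMap P B) z).Finite) :
    (Polynomial.eval₂RingHom (algebraMap U (U ⊗[P] B)) ((1 : U) ⊗ₜ[P] z)).Finite := by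
  convert (RingHom.Finite.tensorProductMap (f := AlgHom.id P U) (RingHom.Finite.id U)
    (g := Polynomial.aeval z) hf).comp (polyEquivTensor P U).toRingEquiv.finite using 1
  ext <;> simp

theorem tensor_finiteOver (f : B) (hf : FiniteOver P B (algebraMap P B) (Ideal.span {f})) :
    FiniteOver U (U ⊗[P] B) (algebraMap U (U ⊗[P] B)) (Ideal.span {(1 : U) ⊗ₜ[P] f}) := by
  have : Module.Finite P (B ⧸ Ideal.span {f}) := RingHom.finite_algebraMap.1 hf
  let g : (B ⧸ Ideal.span {f}) →ₐ[P] (U ⊗[P] B) ⧸ Ideal.span {(1 : U) ⊗ₜ[P] f} :=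
    Ideal.quotientMapₐ _ Algebra.TensorProduct.includeRight (by
      rw [Ideal.span_singleton_le_iff_mem]
      exact Ideal.mem_span_singleton_self _)
  refine RingHom.finite_algebraMap.2 (Module.Finite.of_surjective (Algebra.TensorProduct.lift
    (Algebra.ofId U _) g fun _ _ => Commute.all _ _).toLinearMap fun x => ?_)
  obtain ⟨x, rfl⟩ := Ideal.Quotient.mk_surjective x
  induction x using TensorProduct.induction_on with
  | zero => exact ⟨0, by simp⟩
  | tmul x b =>
    refine ⟨x ⊗ₜ Ideal.Quotient.mk _ b, ?_⟩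
    change Ideal.Quotient.mk _ (x ⊗ₜ[P] 1) * Ideal.Quotient.mk _ (1 ⊗ₜ[P] b) = _
    rw [← map_mul, Algebra.TensorProduct.tmul_mul_tmul, one_mul, mul_one]
  | add x y hx hy =>
    obtain ⟨a, ha⟩ := hx
    obtain ⟨b, hb⟩ := hy
    exact ⟨a + b, by rw [map_add, ha, hb, map_add]⟩

end

end Pool.Agent.MP_e2821c_ag.Dg
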