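import Pool.Agent.Lib.MP_e2821c_ag.Dg.Proj
import Pool.Agent.Lib.MP_e2821c_ag.Dg.Kae
import Pool.Agent.Lib.MP_e2821c_ag.Dg.Hom1
import Pool.Agent.Lib.MP_e2821c_ag.Dg.Hom2
import Pool.Agent.Lib.MP_e2821c_ag.Dg.Simp

namespace Pool.Agent.MP_e2821c_ag.Dg

open MvPolynomial

universe u v w

noncomputable section

variable {Γ : Type} [AddCommGroup Γ] [Module.Finite ℤ Γ] {q : ℕ}

open scoped TensorProduct in
theorem away_aux_Inj {P B U : Type u} [CommRing P] [IsDomain P] [CommRing B] [IsDomain B] [QAlg B]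
    [CommRing U] [IsDomain U] [IsIntegrallyClosed U] [IsNoetherianRing U] [Algebra P B]
    [Algebra P U] [Algebra B U] [IsScalarTower P B U] [Algebra.FiniteType P B]
    (hBU : Function.Injective (algebraMap B U)) (hfin : {𝔫 : Ideal U | 𝔫.IsMaximal}.Finite)
    (z : B) (hi : Function.Injective (Polynomial.eval₂RingHom (algebraMap P B) z))
    (hz : (Polynomial.eval₂RingHom (algebraMap P B) z).Finite) {f : B} (hf : f ≠ 0)
    (hff : FiniteOver P B (algebraMap P B) (Ideal.span {f}))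
    (hD : ∀ 𝔫 : Ideal U, 𝔫.IsMaximal → ∃ 𝔪 : Ideal B, 𝔪.IsMaximal ∧
      𝔫.comap (algebraMap B U) ≤ 𝔪 ∧ ∃ z' : B, ∀ D : Derivation P B (B ⧸ 𝔪), D z' = 0 → D = 0)
    {u : Xq Γ B q} (hu : u ∈ Ch Γ (⊤ : Subring B) q)
    (h : Bd ⊤ (pushR (algebraMap B (Localization.Away f)) q u)) :
    Bd ⊤ (pushR (algebraMap B U) q u) := by
  have : QAlg U := QAlg.of_algebra B U
  have : IsNoetherianRing (U ⊗[P] B) := Algebra.FiniteType.isNoetherianRing U _
  have hPB : Function.Injective (algebraMap P B) := fun a b e =>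
    Polynomial.C_injective (hi (by simpa using e))
  have hPU : Function.Injective (algebraMap P U) := by
    rw [IsScalarTower.algebraMap_eq P B U]
    exact hBU.comp hPB
  let Δ : U ⊗[P] B →+* U := (Algebra.TensorProduct.lift (AlgHom.id U U)
    (IsScalarTower.toAlgHom P B U) fun _ _ => Commute.all _ _).toRingHom
  have hΔ : ∀ (x : U) (b : B), Δ (x ⊗ₜ b) = x * algebraMap B U b := fun x b => by simp [Δ]
  have hΔg : Δ.comp (algebraMap U (U ⊗[P] B)) = RingHom.id U := RingHom.ext fun x => by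
    simp [hΔ]
  let j : B →+* U ⊗[P] B := (Algebra.TensorProduct.includeRight (R := P) (A := U)).toRingHom
  have hj : ∀ b, j b = (1 : U) ⊗ₜ[P] b := fun _ => rfl
  obtain ⟨H, J, h1, h2, h3, h4, h5⟩ := exists_standard (algebraMap U (U ⊗[P] B)) hfin Δ hΔg
    ((1 : U) ⊗ₜ[P] z) ((1 : U) ⊗ₜ[P] f) (tensor_finite z hz) (tensor_finiteOver f hff)
    fun 𝔫 h𝔫 => by
      obtain ⟨𝔪, h𝔪, hle, z', hz'⟩ := hD 𝔫 h𝔫
      obtain ⟨s, hs, hω⟩ := exists_smul_kaehler 𝔪 z' hz'
      obtain ⟨δ, hδ, hx⟩ := diag_generator Δ hΔ z' s hω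
      exact ⟨δ, hδ, (1 : U) ⊗ₜ[P] s, fun e => hs (hle (by rwa [hΔ, one_mul] at e)), hx⟩
  obtain ⟨d, d₀, d₁, l, l₀, l₁, hl, hl₀, hl₁, e₁, e₀⟩ :=
    exists_homotopy (algebraMap U (U ⊗[P] B)) ((1 : U) ⊗ₜ[P] z)
      (fun p hp m hm => tensor_torsionFree hPU z hi hz p hp m hm) Δ hΔg j f H J h1 h2 h3 h4 h5
  have hc : Cyc q u := h.cyc.of_push
    (IsLocalization.injective _ (powers_le_nonZeroDivisors_of_noZeroDivisors hf))
  have h6 := bd_homotopy hl.rCorr hu hc
  have e₁' : (Polynomial.evalRingHom 1).toAddMonoidHom.comp l =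
      l₁.comp (algebraMap B (Localization.Away f)).toAddMonoidHom := AddMonoidHom.ext e₁
  have e₀' : (Polynomial.evalRingHom 0).toAddMonoidHom.comp l = (algebraMap B U).toAddMonoidHom +
      l₀.comp (algebraMap B (Localization.Away f)).toAddMonoidHom := AddMonoidHom.ext fun b =>
    (e₀ b).trans (by rw [hj, hΔ, one_mul]; rfl)
  rw [e₁', e₀', add_push, ← push_push, ← push_push] at h6
  have h7 := ((h.push_rEff (A' := ⊤) hl₁ fun _ _ => trivial).sub
    (h.push_rEff (A' := ⊤) hl₀ fun _ _ => trivial)).sub h6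
  convert h7 using 1
  abel

theorem lift_Inj {R S : Type u} [CommRing R] [CommRing S] (g : R →+* S)
    (hg : Function.Injective g) (t : R) (ht : IsUnit (g t)) :
    ∃ φ : Localization.Away t →+* S, Function.Injective φ ∧
      φ.comp (algebraMap R _) = g ∧ ∀ (a : S) (b : R), g t * a = g b → a ∈ φ.range := by
  have e : ∀ b, IsLocalization.Away.lift (S := Localization.Away t) t ht (algebraMap R _ b) = g b :=
    IsLocalization.Away.lift_eq t ht
  refine ⟨IsLocalization.Away.lift t ht, (injective_iff_map_eq_zero _).2 fun x hx => ?_,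
    RingHom.ext e, fun a b hab => ?_⟩
  · obtain ⟨⟨b, s⟩, hs⟩ := IsLocalization.surj (Submonoid.powers t) x
    have h1 : g b = 0 := by rw [← e, ← hs, map_mul, hx, zero_mul]
    have h2 : b = 0 := hg (h1.trans (map_zero g).symm)
    rw [h2, map_zero] at hs
    exact (IsLocalization.map_units (Localization.Away t) s).mul_left_eq_zero.1 hs
  · refine ⟨IsLocalization.Away.invSelf t * algebraMap R _ b, ht.mul_left_cancel ?_⟩
    rw [hab, ← e t, ← map_mul, ← mul_assoc, IsLocalization.Away.mul_invSelf, one_mul, e]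

theorem smAt_away_Inj {F B : Type u} [Field F] [CommRing B] [Algebra F B] {d : ℕ} (t : B)
    (𝔪 : Ideal B) (h𝔪 : 𝔪.IsMaximal) (ht : t ∉ 𝔪) (hs : SmAt F d 𝔪) :
    ∃ 𝔪' : Ideal (Localization.Away t), 𝔪'.IsMaximal ∧ SmAt F d 𝔪' ∧
      ∀ (x : Localization.Away t) (s : Submonoid.powers t) (b : B),
        x * algebraMap B _ (s : B) = algebraMap B _ b → b ∈ 𝔪 → x ∈ 𝔪' := by
  let := Ideal.Quotient.field 𝔪
  have hu : IsUnit (algebraMap B (B ⧸ 𝔪) t) :=
    IsUnit.mk0 _ fun e => ht (Ideal.Quotient.eq_zero_iff_mem.1 e)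
  let ρ : Localization.Away t →ₐ[B] B ⧸ 𝔪 :=
    ⟨IsLocalization.Away.lift t hu, IsLocalization.Away.lift_eq t hu⟩
  have hρ : Function.Surjective ρ := fun y => by
    obtain ⟨b, rfl⟩ := Ideal.Quotient.mk_surjective y
    exact ⟨algebraMap B _ b, ρ.commutes b⟩
  obtain ⟨z, hz⟩ := hs
  refine ⟨RingHom.ker ρ, RingHom.ker_isMaximal_of_surjective ρ hρ,
    ⟨fun l => algebraMap B _ (z l), fun D hD => ?_⟩, fun x s b e hb => ?_⟩
  · let ε := Ideal.quotientKerAlgEquivOfSurjective hρ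
    have h0 := hz ((ε.toLinearMap).compDer (D.compAlgebraMap B)) fun l => by
      change ε (D (algebraMap B _ (z l))) = 0
      rw [hD, map_zero]
    have h1 : ∀ b : B, D (algebraMap B _ b) = 0 := fun b =>
      ε.injective ((DFunLike.congr_fun h0 b).trans (map_zero ε).symm)
    ext x
    obtain ⟨⟨b, s⟩, hs⟩ := IsLocalization.surj (Submonoid.powers t) x
    have h2 := congrArg D hs
    rw [Derivation.leibniz, h1, h1, smul_zero, zero_add] at h2
    exact (IsLocalization.map_units (Localization.Away t) s).smul_eq_zero.1 h2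
  · have h1 := congrArg ρ e
    rw [map_mul, ρ.commutes b, show algebraMap B (B ⧸ 𝔪) b = 0 from
      Ideal.Quotient.eq_zero_iff_mem.2 hb] at h1
    exact ((IsLocalization.map_units (Localization.Away t) s).map ρ).mul_left_eq_zero.1 h1

theorem bd_of_away {F B U : Type u} [Field F] [CharZero F] [CommRing B] [IsDomain B] [Algebra F B]
    [Algebra.FiniteType F B] [CommRing U] [IsDomain U] [IsIntegrallyClosed U] [IsNoetherianRing U]
    [Algebra B U] (hBU : Function.Injective (algebraMap B U))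
    (hfin : {𝔫 : Ideal U | 𝔫.IsMaximal}.Finite) {d : ℕ} (hd : Algebra.trdeg F B = (d + 1 : ℕ))
    (hsm : ∀ 𝔫 : Ideal U, 𝔫.IsMaximal → ∃ 𝔪 : Ideal B, 𝔪.IsMaximal ∧
      𝔫.comap (algebraMap B U) ≤ 𝔪 ∧ SmAt F (d + 1) 𝔪) {f : B} (hf : f ≠ 0) {u : Xq Γ B q}
    (hu : u ∈ Ch Γ (⊤ : Subring B) q)
    (h : Bd ⊤ (pushR (algebraMap B (Localization.Away f)) q u)) :
    Bd ⊤ (pushR (algebraMap B U) q u) := by
  classical
  have : QAlg B := QAlg.of_algebra F B
  choose! m hm1 hm2 hm3 using hsm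
  obtain ⟨y, z, hi, hz, hff, hD⟩ := exists_proj hd (hfin.toFinset.image m) (fun 𝔪 h𝔪 => by
      obtain ⟨n, hn, rfl⟩ := Finset.mem_image.1 h𝔪
      exact ⟨hm1 _ (hfin.mem_toFinset.1 hn), hm3 _ (hfin.mem_toFinset.1 hn)⟩) hf
  let : Algebra (MvPolynomial (Fin d) F) B :=
    (aeval y : MvPolynomial (Fin d) F →ₐ[F] B).toRingHom.toAlgebra
  let : Algebra (MvPolynomial (Fin d) F) U :=
    ((algebraMap B U).comp (algebraMap (MvPolynomial (Fin d) F) B)).toAlgebra
  have : IsScalarTower (MvPolynomial (Fin d) F) B U := IsScalarTower.of_algebraMap_eq fun _ => rfl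
  have : IsScalarTower F (MvPolynomial (Fin d) F) B := IsScalarTower.of_algebraMap_eq fun c =>
    ((aeval y : MvPolynomial (Fin d) F →ₐ[F] B).commutes c).symm
  have : Algebra.FiniteType (MvPolynomial (Fin d) F) B :=
    Algebra.FiniteType.of_restrictScalars_finiteType F _ B
  refine away_aux_Inj (P := MvPolynomial (Fin d) F) hBU hfin z hi hz hf hff (fun 𝔫 h𝔫 => ?_) hu h
  obtain ⟨z', hz'⟩ := hD (m 𝔫) (Finset.mem_image_of_mem m (hfin.mem_toFinset.2 h𝔫))
  refine ⟨m 𝔫, hm1 _ h𝔫, hm2 _ h𝔫, z', fun D hD' => ?_⟩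
  have h0 := hz' (D.restrictScalars F) (fun l => by
    have := D.map_algebraMap (X l)
    rwa [show algebraMap (MvPolynomial (Fin d) F) B (X l) = y l from aeval_X y l] at this) hD'
  ext b
  exact DFunLike.congr_fun h0 b

theorem bd_of_fraction {F B U K : Type u} [Field F] [CharZero F] [CommRing B] [IsDomain B]
    [Algebra F B] [Algebra.FiniteType F B] (T : Submonoid B) (hT : T ≤ nonZeroDivisors B)
    [CommRing U] [IsDomain U] [IsIntegrallyClosed U] [Algebra B U] [IsLocalization T U]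
    (hfin : {𝔫 : Ideal U | 𝔫.IsMaximal}.Finite) {d : ℕ} (hd : Algebra.trdeg F B = d)
    (hsm : ∀ s ∈ T, ∀ 𝔫 : Ideal U, 𝔫.IsMaximal → ∃ 𝔪 : Ideal B, 𝔪.IsMaximal ∧
      𝔫.comap (algebraMap B U) ≤ 𝔪 ∧ s ∉ 𝔪 ∧ SmAt F d 𝔪)
    [Field K] [Algebra U K] [IsFractionRing U K] {u : Xq Γ U q}
    (hu : u ∈ Ch Γ (⊤ : Subring U) q) (h : Bd ⊤ (pushR (algebraMap U K) q u)) : Bd ⊤ u := by
  classical
  have : QAlg B := QAlg.of_algebra F B
  have : QAlg U := QAlg.of_algebra B U
  have : QAlg K := QAlg.of_algebra U K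
  have hBU : Function.Injective (algebraMap B U) := IsLocalization.injective U hT
  have hUK : Function.Injective (algebraMap U K) := IsFractionRing.injective U K
  rcases d with _ | d
  · have : Algebra.IsAlgebraic F B := trdeg_eq_zero_iff.1 (by simpa using hd)
    have hB : IsField B := isField_of_isIntegral_of_isField' (Field.toIsField F)
    have h1 : Function.Bijective (algebraMap B U) :=
      hB.localization_map_bijective (M := T) fun h0 => zero_notMem_nonZeroDivisors (hT h0)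
    have hU : IsField U := (RingEquiv.ofBijective _ h1).symm.toMulEquiv.isField hB
    have h2 : Function.Bijective (algebraMap U K) :=
      hU.localization_map_bijective (M := nonZeroDivisors U) zero_notMem_nonZeroDivisors
    exact (Bd.of_pushR _ hUK (fun x _ => h2.2 x) h).mono le_top
  have : IsNoetherianRing U :=
    IsLocalization.isNoetherianRing T U (Algebra.FiniteType.isNoetherianRing F B)
  obtain ⟨s, -, hs⟩ := exists_finset_of_mem_Ch hu
  obtain ⟨t, ht⟩ := IsLocalization.exist_integer_multiples_of_finset T s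
  have ht0 : (t : B) ≠ 0 := nonZeroDivisors.ne_zero (hT t.2)
  have htp := powers_le_nonZeroDivisors_of_noZeroDivisors ht0
  obtain ⟨φ, hφ, eφ, rφ⟩ := lift_Inj (algebraMap B U) hBU t (IsLocalization.map_units U t)
  have eφ' : ∀ b, φ (algebraMap B _ b) = algebraMap B U b := RingHom.congr_fun eφ
  obtain ⟨u₁, hu₁, rfl⟩ := exists_pushR_eq φ hφ le_rfl (hs φ.range fun x hx => by
    obtain ⟨b, hb⟩ := ht x hx
    exact rφ x b (by rw [hb, Algebra.smul_def]))
  obtain ⟨y, hy, ey⟩ := h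
  obtain ⟨s', -, hs'⟩ := exists_finset_of_mem_Ch hy
  have hK : ∀ x : K, ∃ c : B, c ≠ 0 ∧ ∃ b : B,
      algebraMap U K (algebraMap B U c) * x = algebraMap U K (algebraMap B U b) := fun x => by
    obtain ⟨⟨a, a'⟩, e⟩ := IsLocalization.surj (nonZeroDivisors U) x
    obtain ⟨⟨b, t₁⟩, e₁⟩ := IsLocalization.surj T a
    obtain ⟨⟨c, t₂⟩, e₂⟩ := IsLocalization.surj T (a' : U)
    dsimp only at e e₁ e₂
    refine ⟨c * t₁, mul_ne_zero (fun h0 => ?_) (nonZeroDivisors.ne_zero (hT t₁.2)), b * t₂, ?_⟩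
    · rw [h0, map_zero] at e₂
      exact nonZeroDivisors.ne_zero a'.2 ((IsLocalization.map_units U t₂).mul_left_eq_zero.1 e₂)
    · simp only [map_mul]
      rw [← e₁, ← e₂, map_mul, map_mul, ← e]
      ring
  choose c hc b hb using hK
  have : IsDomain (Localization.Away (t : B)) := IsLocalization.isDomain_localization htp
  have hB₁ : Function.Injective (algebraMap B (Localization.Away (t : B))) :=
    IsLocalization.injective _ htp
  have hf : algebraMap B (Localization.Away (t : B)) (∏ x ∈ s', c x) ≠ 0 :=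
    (map_ne_zero_iff _ hB₁).2 (Finset.prod_ne_zero_iff.2 fun x _ => hc x)
  have hg : Function.Injective ((algebraMap U K).comp φ) := hUK.comp hφ
  obtain ⟨χ, hχ, eχ, rχ⟩ := lift_Inj ((algebraMap U K).comp φ) hg _
    (IsUnit.mk0 _ ((map_ne_zero_iff _ hg).2 hf))
  have h1 : Bd χ.range (pushR χ q (pushR (algebraMap _ _) q u₁)) := by
    refine ⟨y, hs' χ.range fun x hx => rχ x (algebraMap B _ ((∏ x' ∈ s'.erase x, c x') * b x)) ?_,
      ?_⟩
    · rw [RingHom.comp_apply, RingHom.comp_apply, eφ', eφ', ← Finset.prod_erase_mul s' c hx]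
      simp only [map_mul]
      rw [mul_assoc, hb]
    · rw [ey, pushR_pushR, pushR_pushR, eχ]
  let : Algebra (Localization.Away (t : B)) U := φ.toAlgebra
  have : Algebra.FiniteType F (Localization.Away (t : B)) :=
    have := IsLocalization.Away.finitePresentation (S := Localization.Away (t : B)) (t : B)
    Algebra.FiniteType.trans (S := B) inferInstance inferInstance
  have : FaithfulSMul B (Localization.Away (t : B)) :=
    (faithfulSMul_iff_algebraMap_injective _ _).2 hB₁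
  have : Algebra.IsAlgebraic B (Localization.Away (t : B)) :=
    IsLocalization.isAlgebraic _ (Submonoid.powers (t : B))
  refine bd_of_away (F := F) (B := Localization.Away (t : B)) (d := d) hφ hfin ?_
    (fun 𝔫 h𝔫 => ?_) hf (Ch_mono le_top hu₁) ((Bd.of_pushR χ hχ le_rfl h1).mono le_top)
  · rw [← trdeg_add_eq F B, trdeg_eq_zero (R := B), add_zero, hd]
  · obtain ⟨𝔪, h𝔪, hle, htm, hsm'⟩ := hsm t t.2 𝔫 h𝔫
    obtain ⟨𝔪', m1, m2, m3⟩ := smAt_away_Inj (t : B) 𝔪 h𝔪 htm hsm'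
    refine ⟨𝔪', m1, fun x hx => ?_, m2⟩
    obtain ⟨⟨b', s₁⟩, e⟩ := IsLocalization.surj (Submonoid.powers (t : B)) x
    refine m3 x s₁ b' e (hle ?_)
    rw [Ideal.mem_comap, ← eφ', ← e, map_mul]
    exact Ideal.mul_mem_right _ _ hx

end

end Pool.Agent.MP_e2821c_ag.Dg
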