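import Pool.Agent.Lib.MP_e2821c_ag.Dg.CoreY

namespace Pool.Agent.MP_e2821c_ag.Dg

open MvPolynomial

universe u v w

noncomputable section

section Aux

variable {e : ℕ}

/-- Bases of the lattice. -/
abbrev Bs_Toric (e : ℕ) := Module.Basis (Fin e) ℤ (Fin e → ℤ)

/-- Linear forms on the lattice. -/
abbrev Du_Toric (e : ℕ) := (Fin e → ℤ) →ₗ[ℤ] ℤ

theorem cs_Toric (x : Bs_Toric e) (i j : Fin e) : x.coord i (x j) = if j = i then 1 else 0 := by
  simp [Finsupp.single_apply]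

theorem ci_Toric (x : Bs_Toric e) {i j : Fin e} (h : x.coord i = x.coord j) : i = j := by
  have h1 := cs_Toric x j i
  rw [← h, cs_Toric, if_pos rfl] at h1
  by_contra h2
  simp [h2] at h1

theorem bl_Toric (x : Bs_Toric e) {k l : Fin e} (h : k ≠ l) : ∃ y : Bs_Toric e,
    (∀ i, y i = if i = l then x l - x k else x i) ∧
      ∀ i, y.coord i = if i = k then x.coord k + x.coord l else x.coord i := by
  have h0 : x.coord l (x k) = 0 := by rw [cs_Toric, if_neg h]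
  refine ⟨x.map (LinearEquiv.transvection h0).symm, fun i => ?_, fun i => ?_⟩
  · rw [Module.Basis.map_apply, LinearEquiv.symm_apply_eq]
    split_ifs with hi
    · rw [LinearEquiv.transvection.apply, map_sub, h0, cs_Toric, if_pos rfl, hi]
      simp
    · rw [LinearEquiv.transvection.apply, cs_Toric, if_neg hi]
      simp
  · refine LinearMap.ext fun m => ?_
    have : (x.map (LinearEquiv.transvection h0).symm).coord i m =
        x.coord i (m + x.coord l m • x k) := rfl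
    rw [this, map_add, map_smul, cs_Toric]
    by_cases hi : i = k
    · simp [hi]
    · simp [hi, Ne.symm hi]

/-- A simple polytope given by the inequalities `R` with the unimodular vertices `Ch`. -/
structure St_Toric (R : Set (Du_Toric e × ℤ)) (Ch : Set ((Fin e → ℤ) × Bs_Toric e)) : Prop where
  fR : R.Finite
  fC : Ch.Finite
  tight : ∀ c ∈ Ch, ∀ i, (c.2.coord i, c.2.coord i c.1) ∈ R
  ineq : ∀ c ∈ Ch, ∀ p ∈ R, ((∃ i, p.1 = c.2.coord i) ∧ p.2 = p.1 c.1) ∨ p.2 < p.1 c.1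
  cov : ∀ pos : (Fin e → ℤ) → Prop, (∀ a, a ≠ 0 → pos a ∨ pos (-a)) → ∃ c ∈ Ch, ∀ i, pos (c.2 i)

theorem St_Toric.big_Toric {R Ch} (h : St_Toric (e := e) R Ch) :
    ∃ K : ℤ, 2 ≤ K ∧ ∀ p ∈ R, ∀ c ∈ Ch, ∀ k, 0 < K + p.1 (c.2 k) := by
  obtain ⟨M, hM⟩ := (((h.fR.prod h.fC).prod (Set.finite_univ (α := Fin e))).image
    fun t => -t.1.1.1 (t.1.2.2 t.2)).bddAbove
  refine ⟨max 2 (M + 1), le_max_left _ _, fun p hp c hc k => ?_⟩
  have h1 : -p.1 (c.2 k) ≤ M := hM ⟨((p, c), k), ⟨⟨hp, hc⟩, trivial⟩, rfl⟩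
  have h2 := le_max_right 2 (M + 1)
  omega

theorem St_Toric.le_Toric {R Ch} (h : St_Toric (e := e) R Ch) {c p} (hc : c ∈ Ch) (hp : p ∈ R) :
    p.2 ≤ p.1 c.1 := by
  rcases h.ineq c hc p hp with h1 | h1
  exacts [h1.2.le, h1.le]

theorem init_Toric (e : ℕ) : ∃ R Ch, St_Toric (e := e) R Ch := by
  let b : (Fin e → ℤˣ) → Bs_Toric e := fun s => (Pi.basisFun ℤ (Fin e)).unitsSMul s
  have hb : ∀ s i m, (b s).coord i m = s i * m i := fun s i m => by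
    simp [b, Units.smul_def]
  refine ⟨Set.range fun t : (Fin e → ℤˣ) × Fin e => ((b t.1).coord t.2, -1),
    Set.range fun s => (fun i => -(s i : ℤ), b s), Set.finite_range _, Set.finite_range _, ?_, ?_,
    fun pos hpos => ?_⟩
  · rintro _ ⟨s, rfl⟩ i
    refine ⟨(s, i), Prod.ext rfl ?_⟩
    rcases Int.units_eq_one_or (s i) with h | h <;> simp [hb, h]
  · rintro _ ⟨s, rfl⟩ _ ⟨⟨t, i⟩, rfl⟩
    by_cases h : t i = s i
    · refine Or.inl ⟨⟨i, LinearMap.ext fun m => by simp only [hb, h]⟩, ?_⟩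
      rcases Int.units_eq_one_or (s i) with h' | h' <;> simp [hb, h, h']
    · right
      rcases Int.units_eq_one_or (s i) with h' | h' <;>
        rcases Int.units_eq_one_or (t i) with h'' | h'' <;> simp_all
  · have h1 : ∀ i, ∃ u : ℤˣ, pos (u • Pi.basisFun ℤ (Fin e) i) := fun i => by
      rcases hpos _ ((Pi.basisFun ℤ (Fin e)).ne_zero i) with h | h
      · exact ⟨1, by simpa using h⟩
      · exact ⟨-1, by simpa using h⟩
    choose s hs using h1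
    exact ⟨_, ⟨s, rfl⟩, fun i => by simpa only [b, Module.Basis.unitsSMul_apply] using hs i⟩

theorem final_Toric {R Ch} (h : St_Toric (e := e) R Ch) : ∃ S : Finset (Fin e → ℤ),
    ∀ c ∈ Ch, ∃ v, IsChart S v c.2 := by
  obtain ⟨K, hK, H⟩ := h.big_Toric
  have hf := (h.fC.image fun c => K • c.1).union
    ((h.fC.prod (Set.finite_univ (α := Fin e))).image fun t => K • t.1.1 + t.1.2 t.2)
  refine ⟨hf.toFinset, fun c hc => ⟨K • c.1, hf.mem_toFinset.2 (Or.inl ⟨c, hc, rfl⟩), fun i =>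
    hf.mem_toFinset.2 (Or.inr ⟨(c, i), ⟨hc, trivial⟩, rfl⟩), fun m hm i => ?_⟩⟩
  have ht := h.tight c hc i
  change 0 ≤ c.2.coord i _
  rcases hf.mem_toFinset.1 hm with ⟨d, hd, rfl⟩ | ⟨⟨d, j⟩, ⟨hd, -⟩, rfl⟩
  · have := h.le_Toric hd ht
    simp only [map_sub, map_smul, smul_eq_mul] at this ⊢
    nlinarith
  · have h1 := H _ ht d hd j
    simp only [map_sub, map_add, map_smul, smul_eq_mul] at h1 ⊢
    rcases h.ineq d hd _ ht with ⟨⟨l, h2⟩, h3⟩ | h2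
    · simp only at h2 h3
      have h4 := cs_Toric d.2 l j
      rw [← h2] at h4
      rw [h4, h3]
      split_ifs <;> simp
    · simp only at h2
      nlinarith

/-- One blow-up along the codimension two face cut out by `r` and `s`. -/
def Bl_Toric (r s : Du_Toric e) (x y : Bs_Toric e) : Prop :=
  (y = x ∧ ¬∃ k l, x.coord k = r ∧ x.coord l = s) ∨ ∃ k l, k ≠ l ∧
    ((x.coord k = r ∧ x.coord l = s) ∨ (x.coord k = s ∧ x.coord l = r)) ∧
      ∀ i, y.coord i = if i = k then x.coord k + x.coord l else x.coord i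

theorem blow_Toric {R Ch} (h : St_Toric (e := e) R Ch) {c₀} (h₀ : c₀ ∈ Ch) {i j : Fin e}
    (hij : i ≠ j) : ∃ R' Ch', St_Toric (e := e) R' Ch' ∧
      ∀ c' ∈ Ch', ∃ c ∈ Ch, Bl_Toric (c₀.2.coord i) (c₀.2.coord j) c.2 c'.2 := by
  obtain ⟨K, hK, H⟩ := h.big_Toric
  choose bl h1 h2 using @bl_Toric e
  set r := c₀.2.coord i with hr
  set s := c₀.2.coord j with hs
  have hsame : ∀ c ∈ Ch, ∀ k l, c.2.coord k = c₀.2.coord l →
      c.2.coord k c.1 = c₀.2.coord l c₀.1 := fun c hc k l hk => by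
    have a := h.le_Toric hc (h.tight c₀ h₀ l)
    have b := h.le_Toric h₀ (h.tight c hc k)
    simp only [hk] at a b ⊢
    omega
  let A : Set ((Fin e → ℤ) × Bs_Toric e) :=
    {c | c ∈ Ch ∧ ¬∃ k l, c.2.coord k = r ∧ c.2.coord l = s}
  let B : Set (((Fin e → ℤ) × Bs_Toric e) × {t : Fin e × Fin e // t.1 ≠ t.2}) :=
    {t | t.1 ∈ Ch ∧ ((t.1.2.coord t.2.1.1 = r ∧ t.1.2.coord t.2.1.2 = s) ∨
      (t.1.2.coord t.2.1.1 = s ∧ t.1.2.coord t.2.1.2 = r))}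
  have hsum : ∀ t ∈ B, t.1.2.coord t.2.1.1 + t.1.2.coord t.2.1.2 = r + s ∧
      (r + s) (K • t.1.1 + t.1.2 t.2.1.1) = K * (r c₀.1 + s c₀.1) + 1 := by
    rintro ⟨c, ⟨k, l⟩, hkl⟩ ⟨hc, hB⟩
    have a1 : c.2.coord k (c.2 k) = 1 := by rw [cs_Toric, if_pos rfl]
    have a2 : c.2.coord l (c.2 k) = 0 := by rw [cs_Toric, if_neg hkl]
    simp only [LinearMap.add_apply, map_add, map_smul, smul_eq_mul] at hB ⊢
    rcases hB with ⟨a, b⟩ | ⟨a, b⟩
    · have a' := hsame c hc k i a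
      have b' := hsame c hc l j b
      rw [a] at a' a1
      rw [b] at b' a2
      exact ⟨by rw [a, b], by rw [a', b', a1, a2]; ring⟩
    · have a' := hsame c hc k j a
      have b' := hsame c hc l i b
      rw [a] at a' a1
      rw [b] at b' a2
      exact ⟨by rw [a, b, add_comm], by rw [a', b', a1, a2]; ring⟩
  refine ⟨insert (r + s, K * (r c₀.1 + s c₀.1) + 1) ((fun p => (p.1, K * p.2)) '' R),
    ((fun c => (K • c.1, c.2)) '' A) ∪ ((fun t => (K • t.1.1 + t.1.2 t.2.1.1, bl t.1.2 t.2.2)) '' B),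
    ⟨(h.fR.image _).insert _, ((h.fC.subset fun c hc => hc.1).image _).union
      (((h.fC.prod Set.finite_univ).subset fun t ht => ⟨ht.1, trivial⟩).image _), ?_, ?_,
      fun pos hpos => ?_⟩, ?_⟩
  · rintro _ (⟨c, hc, rfl⟩ | ⟨t, ht, rfl⟩) m
    · exact Or.inr ⟨_, h.tight c hc.1 m, by simp only [map_smul, smul_eq_mul]⟩
    · simp only [h2]
      split_ifs with hm
      · left
        rw [(hsum t ht).1, (hsum t ht).2]
      · refine Or.inr ⟨_, h.tight t.1 ht.1 m, ?_⟩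
        simp only [map_add, map_smul, smul_eq_mul, cs_Toric, if_neg (Ne.symm hm), add_zero]
  · rintro _ (⟨c, hc, rfl⟩ | ⟨t, ht, rfl⟩) p (rfl | ⟨p, hp, rfl⟩)
    · right
      have a := h.ineq c hc.1 _ (h.tight c₀ h₀ i)
      have b := h.ineq c hc.1 _ (h.tight c₀ h₀ j)
      simp only [LinearMap.add_apply, map_smul, smul_eq_mul, ← hr, ← hs] at a b ⊢
      rcases a with ⟨⟨k, a⟩, a'⟩ | a <;> rcases b with ⟨⟨l, b⟩, b'⟩ | b
      · exact (hc.2 ⟨k, l, a.symm, b.symm⟩).elim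
      all_goals nlinarith
    · simp only [map_smul, smul_eq_mul]
      rcases h.ineq c hc.1 p hp with ⟨a, b⟩ | a
      · exact Or.inl ⟨a, by rw [b]⟩
      · right
        nlinarith
    · exact Or.inl ⟨⟨t.2.1.1, by simp only [h2, if_pos, (hsum t ht).1]⟩, (hsum t ht).2.symm⟩
    · have hH := H p hp t.1 ht.1 t.2.1.1
      simp only [map_add, map_smul, smul_eq_mul]
      rcases h.ineq t.1 ht.1 p hp with ⟨⟨m, a⟩, b⟩ | a
      · have a' := cs_Toric t.1.2 m t.2.1.1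
        rw [← a] at a'
        rw [a', ← b]
        by_cases hm : t.2.1.1 = m
        · right
          simp [hm]
        · exact Or.inl ⟨⟨m, by rw [h2, if_neg (Ne.symm hm), a]⟩, by simp [hm]⟩
      · right
        nlinarith
  · obtain ⟨c, hc, hp⟩ := h.cov pos hpos
    by_cases hA : ∃ k l, c.2.coord k = r ∧ c.2.coord l = s
    · obtain ⟨k, l, a, b⟩ := hA
      have hkl : k ≠ l := fun hkl => hij (ci_Toric c₀.2 (by rw [← hr, ← hs, ← a, ← b, hkl]))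
      rcases hpos (c.2 l - c.2 k) (sub_ne_zero.2 fun h => hkl (c.2.injective h).symm) with g | g
      · refine ⟨_, Or.inr ⟨(c, ⟨(k, l), hkl⟩), ⟨hc, Or.inl ⟨a, b⟩⟩, rfl⟩, fun m => ?_⟩
        simp only [h1]
        split_ifs
        exacts [g, hp m]
      · refine ⟨_, Or.inr ⟨(c, ⟨(l, k), hkl.symm⟩), ⟨hc, Or.inr ⟨b, a⟩⟩, rfl⟩, fun m => ?_⟩
        simp only [h1]
        split_ifs
        exacts [by rwa [neg_sub] at g, hp m]
    · exact ⟨_, Or.inl ⟨c, ⟨hc, hA⟩, rfl⟩, hp⟩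
  · rintro _ (⟨c, hc, rfl⟩ | ⟨t, ht, rfl⟩)
    · exact ⟨c, hc.1, Or.inl ⟨rfl, hc.2⟩⟩
    · exact ⟨t.1, ht.1, Or.inr ⟨_, _, t.2.2, ht.2, h2 _ _⟩⟩

/-- The vector `a` lies in the cone of `x` or in its negative. -/
def Ad_Toric (x : Bs_Toric e) (a : Fin e → ℤ) : Prop :=
  (∀ i, 0 ≤ x.coord i a) ∨ ∀ i, x.coord i a ≤ 0

theorem Bl_Toric.ad_Toric {r s : Du_Toric e} {x y : Bs_Toric e} (h : Bl_Toric r s x y) {a}
    (ha : Ad_Toric x a) : Ad_Toric y a := by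
  rcases h with ⟨rfl, -⟩ | ⟨k, l, -, -, h⟩
  · exact ha
  · refine ha.imp (fun g i => ?_) fun g i => ?_ <;> rw [h] <;> split_ifs
    exacts [add_nonneg (g k) (g l), g i, add_nonpos (g k) (g l), g i]

/-- Pairs of coordinates of a common chart that separate `a`. -/
def Pr_Toric (Ch : Set ((Fin e → ℤ) × Bs_Toric e)) (a : Fin e → ℤ) :
    Set (Du_Toric e × Du_Toric e) :=
  {p | (∃ c ∈ Ch, ∃ k l, c.2.coord k = p.1 ∧ c.2.coord l = p.2) ∧ 0 < p.1 a ∧ p.2 a < 0}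

theorem fin_Toric {Ch : Set ((Fin e → ℤ) × Bs_Toric e)} (h : Ch.Finite) (a : Fin e → ℤ) :
    (Pr_Toric Ch a).Finite :=
  ((h.prod (Set.finite_univ (α := Fin e × Fin e))).image
    fun t => (t.1.2.coord t.2.1, t.1.2.coord t.2.2)).subset fun _ ⟨⟨c, hc, k, l, h1, h2⟩, _⟩ =>
      ⟨(c, k, l), ⟨hc, trivial⟩, Prod.ext h1 h2⟩

theorem step_Toric {Ch Ch' : Set ((Fin e → ℤ) × Bs_Toric e)} {a : Fin e → ℤ} {g : ℤ}
    {r s : Du_Toric e} (hr : 0 < r a) (hs : s a < 0) (hg : ∀ p ∈ Pr_Toric Ch a, p.1 a - p.2 a ≤ g)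
    (h : ∀ c' ∈ Ch', ∃ c ∈ Ch, Bl_Toric r s c.2 c'.2) :
    ∀ p ∈ Pr_Toric Ch' a, (p ∈ Pr_Toric Ch a ∧ p ≠ (r, s)) ∨ p.1 a - p.2 a < g := by
  rintro ⟨p, p'⟩ ⟨⟨c', hc', i, j, hi, hj⟩, h1, h2⟩
  simp only at hi hj h1 h2
  obtain ⟨c, hc, ⟨h3, h4⟩ | ⟨k, l, hkl, h3, h4⟩⟩ := h c' hc'
  · rw [h3] at hi hj
    refine Or.inl ⟨⟨⟨c, hc, i, j, hi, hj⟩, h1, h2⟩, fun h5 => h4 ⟨i, j, ?_, ?_⟩⟩
    exacts [hi.trans (congrArg Prod.fst h5), hj.trans (congrArg Prod.snd h5)]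
  · have e1 : (c.2.coord k + c.2.coord l) a = r a + s a := by
      rcases h3 with ⟨b1, b2⟩ | ⟨b1, b2⟩ <;> simp [b1, b2, add_comm]
    obtain ⟨u, hu⟩ : ∃ u, c.2.coord u = r := by
      rcases h3 with ⟨b1, b2⟩ | ⟨b1, b2⟩
      exacts [⟨_, b1⟩, ⟨_, b2⟩]
    obtain ⟨w, hw⟩ : ∃ w, c.2.coord w = s := by
      rcases h3 with ⟨b1, b2⟩ | ⟨b1, b2⟩
      exacts [⟨_, b2⟩, ⟨_, b1⟩]
    rw [h4] at hi hj
    split_ifs at hi hj with g1 g2 g2
    · rw [← hi] at h1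
      rw [← hj] at h2
      omega
    · have := hg (r, p') ⟨⟨c, hc, u, j, hu, hj⟩, hr, h2⟩
      right
      simp only at this ⊢
      rw [← hi, e1]
      omega
    · have := hg (p, s) ⟨⟨c, hc, i, w, hi, hw⟩, h1, hs⟩
      right
      simp only at this ⊢
      rw [← hj, e1]
      omega
    · refine Or.inl ⟨⟨⟨c, hc, i, j, hi, hj⟩, h1, h2⟩, fun h5 => ?_⟩
      obtain ⟨rfl, rfl⟩ := Prod.ext_iff.1 h5
      rcases h3 with ⟨b1, -⟩ | ⟨b1, -⟩
      exacts [g1 (ci_Toric c.2 (hi.trans b1.symm)), g2 (ci_Toric c.2 (hj.trans b1.symm))]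

/-- Adaptedness passes from `Ch` to `Ch'`. -/
def Rf_Toric (Ch Ch' : Set ((Fin e → ℤ) × Bs_Toric e)) : Prop :=
  ∀ a, (∀ c ∈ Ch, Ad_Toric c.2 a) → ∀ c ∈ Ch', Ad_Toric c.2 a

theorem level_Toric (a : Fin e → ℤ) (g : ℤ) (n : ℕ) : ∀ R Ch, St_Toric (e := e) R Ch →
    (∀ p ∈ Pr_Toric Ch a, p.1 a - p.2 a ≤ g) →
    {p ∈ Pr_Toric Ch a | p.1 a - p.2 a = g}.ncard = n →
    ∃ R' Ch', St_Toric R' Ch' ∧ (∀ p ∈ Pr_Toric Ch' a, p.1 a - p.2 a < g) ∧ Rf_Toric Ch Ch' := by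
  induction n using Nat.strong_induction_on with
  | _ n ih =>
  intro R Ch h hg hn
  by_cases h0 : ∃ p ∈ Pr_Toric Ch a, p.1 a - p.2 a = g
  · obtain ⟨⟨r, s⟩, hp, hpg⟩ := h0
    obtain ⟨⟨c, hc, i, j, hi, hj⟩, h1, h2⟩ := id hp
    simp only at hi hj h1 h2
    have hij : i ≠ j := fun hij => by
      rw [← hi] at h1
      rw [← hj, ← hij] at h2
      omega
    obtain ⟨R', Ch', h', hb⟩ := blow_Toric h hc hij
    rw [hi, hj] at hb
    have hs := step_Toric h1 h2 hg hb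
    have hsub : {p ∈ Pr_Toric Ch' a | p.1 a - p.2 a = g} ⊆
        {p ∈ Pr_Toric Ch a | p.1 a - p.2 a = g} := fun p hp' =>
      ⟨((hs p hp'.1).resolve_right hp'.2.not_lt).1, hp'.2⟩
    obtain ⟨R'', Ch'', h'', g1, g2⟩ := ih _ (hn ▸ Set.ncard_lt_ncard
      ((Set.ssubset_iff_of_subset hsub).2 ⟨(r, s), ⟨hp, hpg⟩, fun hp' =>
          ((hs _ hp'.1).resolve_right hp'.2.not_lt).2 rfl⟩)
      ((fin_Toric h.fC a).subset fun p hp' => hp'.1)) R' Ch' h'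
      (fun p hp' => (hs p hp').elim (fun t => hg p t.1) le_of_lt) rfl
    refine ⟨R'', Ch'', h'', g1, fun b hb' => g2 b fun c' hc' => ?_⟩
    obtain ⟨d, hd, hB⟩ := hb c' hc'
    exact hB.ad_Toric (hb' d hd)
  · exact ⟨R, Ch, h, fun p hp => (hg p hp).lt_of_ne fun t => h0 ⟨p, hp, t⟩, fun _ t => t⟩

theorem one_Toric (a : Fin e → ℤ) (g : ℕ) : ∀ R Ch, St_Toric (e := e) R Ch →
    (∀ p ∈ Pr_Toric Ch a, p.1 a - p.2 a ≤ g) →
    ∃ R' Ch', St_Toric R' Ch' ∧ (∀ c ∈ Ch', Ad_Toric c.2 a) ∧ Rf_Toric Ch Ch' := by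
  induction g with
  | zero =>
    refine fun R Ch h hg => ⟨R, Ch, h, fun c hc => ?_, fun _ t => t⟩
    by_contra h0
    simp only [Ad_Toric, not_or, not_forall, not_le] at h0
    obtain ⟨⟨l, hl⟩, k, hk⟩ := h0
    have := hg (c.2.coord k, c.2.coord l) ⟨⟨c, hc, k, l, rfl, rfl⟩, hk, hl⟩
    simp only at this
    omega
  | succ g ih =>
    intro R Ch h hg
    obtain ⟨R', Ch', h', g1, g2⟩ := level_Toric a _ _ R Ch h hg rfl
    obtain ⟨R'', Ch'', h'', g3, g4⟩ := ih R' Ch' h' fun p hp => by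
      have := g1 p hp
      omega
    exact ⟨R'', Ch'', h'', g3, fun b hb => g4 b (g2 b hb)⟩

theorem all_Toric (E : Finset (Fin e → ℤ)) :
    ∃ R Ch, St_Toric (e := e) R Ch ∧ ∀ a ∈ E, ∀ c ∈ Ch, Ad_Toric c.2 a := by
  induction E using Finset.induction_on with
  | empty => exact (init_Toric e).imp fun R h => h.imp fun Ch h => ⟨h, by simp⟩
  | insert a E _ ih =>
    obtain ⟨R, Ch, h, hE⟩ := ih
    obtain ⟨M, hM⟩ := ((fin_Toric h.fC a).image fun p => p.1 a - p.2 a).bddAbove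
    obtain ⟨R', Ch', h', g1, g2⟩ := one_Toric a M.toNat R Ch h fun p hp =>
      (hM ⟨p, hp, rfl⟩).trans (Int.self_le_toNat M)
    refine ⟨R', Ch', h', fun b hb => ?_⟩
    rcases Finset.mem_insert.1 hb with rfl | hb
    exacts [g1, g2 b (hE b hb)]

end Aux

theorem exists_toric (e : ℕ) (E : Finset (Fin e → ℤ)) :
    ∃ S : Finset (Fin e → ℤ), ∀ pos : (Fin e → ℤ) → Prop, (∀ a, a ≠ 0 → pos a ∨ pos (-a)) →
      ∃ v x, IsChart S v x ∧ Adapted E x ∧ ∀ i, pos (x i) := by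
  obtain ⟨R, Ch, h, hE⟩ := all_Toric E
  obtain ⟨S, hS⟩ := final_Toric h
  refine ⟨S, fun pos hpos => ?_⟩
  obtain ⟨c, hc, hp⟩ := h.cov pos hpos
  obtain ⟨v, hv⟩ := hS c hc
  exact ⟨v, c.2, hv, fun a ha => hE a ha c hc, hp⟩

end

end Pool.Agent.MP_e2821c_ag.Dg
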