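import Pool.Agent.Lib.MP_e2821c_ag.Dg.GGa
import Pool.Agent.Lib.MP_e2821c_ag.Dg.GGb
import Pool.Agent.Lib.MP_e2821c_ag.Dg.GGc
import Pool.Agent.Lib.MP_e2821c_ag.Dg.Toric
import Pool.Agent.Lib.MP_e2821c_ag.Dg.Inj
import Pool.Agent.Lib.MP_e2821c_ag.Dg.III

namespace Pool.Agent.MP_e2821c_ag.Dg

open MvPolynomial

universe u v w

noncomputable section

theorem integral_range_GG {A A' K : Type*} [CommRing A] [CommRing A'] [CommRing K]
    (φ : A →+* K) (ψ : A' →+* K) (h : ∀ a, ∃ a', ψ a' = φ a) {x : K} (hx : φ.IsIntegralElem x) :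
    ψ.IsIntegralElem x := by
  obtain ⟨p, hp, h0⟩ := hx
  have hl : p.map φ ∈ Polynomial.lifts ψ := by
    rw [Polynomial.lifts_iff_coeff_lifts]
    intro n
    rw [Polynomial.coeff_map]
    exact h _
  obtain ⟨p', h1, -, h2⟩ := Polynomial.lifts_and_natDegree_eq_and_monic hl (hp.map φ)
  refine ⟨p', h2, ?_⟩
  rw [Polynomial.eval₂_eq_eval_map, h1, ← Polynomial.eval₂_eq_eval_map, h0]

theorem mem_val_of_integral_GG {F L : Type u} [Field F] [Field L] [Algebra F L]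
    (A : Subalgebra F L) (V : ValuationSubring L) (hA : ∀ a ∈ A, a ∈ V) {x : L}
    (hx : IsIntegral A x) : x ∈ V := by
  have h1 : IsIntegral V x :=
    integral_range_GG (algebraMap A L) (algebraMap V L) (fun a => ⟨⟨a, hA a a.2⟩, rfl⟩) hx
  obtain ⟨y, rfl⟩ := IsIntegrallyClosed.isIntegral_iff.1 h1
  exact y.2

theorem alg_AS_GG {F L : Type u} [Field F] [Field L] [Algebra F L] {e : ℕ} {b : Fin e → Lˣ}
    (hb : IsTranscendenceBasis F fun l => (b l : L)) {S : Finset (Fin e → ℤ)} {v : Fin e → ℤ}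
    {x : Module.Basis (Fin e) ℤ (Fin e → ℤ)} (hc : IsChart S v x) (y : L) :
    IsAlgebraic (AS F b S) y := by
  have h1 : IsAlgebraic (Algebra.adjoin F (Set.range fun l => (b l : L))) y :=
    hb.isAlgebraic.isAlgebraic y
  rw [← IntermediateField.isAlgebraic_adjoin_iff, ← adjoin_AS hb.1 hc,
    IntermediateField.isAlgebraic_adjoin_iff, Algebra.adjoin_eq] at h1
  exact h1

theorem frac_GG {F L : Type u} [Field F] [Field L] [Algebra F L] (A B : Subalgebra F L)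
    (hB : ∀ a, a ∈ B ↔ IsIntegral A a) (halg : ∀ y : L, IsAlgebraic A y) : IsFractionRing B L := by
  refine IsFractionRing.of_field B L fun z => ?_
  obtain ⟨y, hy, h⟩ := (halg z).exists_integral_multiple
  have hy' : (y : L) ≠ 0 := fun h0 => hy (Subtype.ext h0)
  refine ⟨⟨y • z, (hB _).2 h⟩, ⟨y, (hB _).2 (isIntegral_algebraMap (x := y))⟩, ?_⟩
  change z = (y : L) * z / (y : L)
  field_simp

theorem normal_GG {F L : Type u} [Field F] [Field L] [Algebra F L] (A B : Subalgebra F L)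
    (hB : ∀ a, a ∈ B ↔ IsIntegral A a) (halg : ∀ y : L, IsAlgebraic A y) :
    IsIntegrallyClosed B := by
  have := frac_GG A B hB halg
  refine (isIntegrallyClosed_iff L).2 fun {x} hx => ?_
  have h1 : IsIntegral (integralClosure A L) x :=
    integral_range_GG (algebraMap B L) (algebraMap (integralClosure A L) L)
      (fun a => ⟨⟨a, (hB _).1 a.2⟩, rfl⟩) hx
  exact ⟨⟨x, (hB _).2 (isIntegral_trans x h1)⟩, rfl⟩

section Transport

variable {F L K : Type u} [Field F] [Field L] [Algebra F L] [Field K] [Algebra F K]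
  (j : L →ₐ[F] K) {e : ℕ} {b : Fin e → Lˣ} {b' : Fin e → Kˣ} (hj : ∀ l, (b' l : K) = j (b l))

include hj in
theorem chi_map_GG (m : Fin e → ℤ) : (chi b' m : K) = j (chi b m) := by
  simp only [chi, Units.coe_prod, Units.val_zpow_eq_zpow_val, map_prod, map_zpow₀, hj]

include hj in
theorem AS_map_GG (S : Finset (Fin e → ℤ)) : AS F b' S = (AS F b S).map j := by
  rw [AS, AS, AlgHom.map_adjoin, Set.image_image]
  simp only [map_div₀, map_sum, chi_map_GG j hj]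

theorem Oc_map_GG (x : Fin e → L) (r : L) : j r ∈ Oc F (fun i => j (x i)) ↔ r ∈ Oc F x := by
  have h : ∀ p : MvPolynomial (Fin e) F, aeval (fun i => j (x i)) p = j (aeval x p) := fun p =>
    (MvPolynomial.comp_aeval_apply (f := x) j p).symm
  constructor
  · rintro ⟨p, q, hq, hr⟩
    refine ⟨p, q, hq, j.toRingHom.injective ?_⟩
    rw [h, h, ← map_mul] at hr
    exact hr
  · rintro ⟨p, q, hq, hr⟩
    exact ⟨p, q, hq, by rw [h, h, ← map_mul, hr]⟩

include hj in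
theorem Oc_chi_GG (x : Module.Basis (Fin e) ℤ (Fin e → ℤ)) (r : L) :
    j r ∈ Oc F (fun i => (chi b' (x i) : K)) ↔ r ∈ Oc F (fun i => (chi b (x i) : L)) := by
  simp only [chi_map_GG j hj]
  exact Oc_map_GG j _ r

include hj in
theorem mem_adjoin_GG {y : L} (hy : y ∈ IntermediateField.adjoin F (Set.range fun l => (b l : L))) :
    j y ∈ IntermediateField.adjoin F (Set.range fun l => (b' l : K)) := by
  have h : (Set.range fun l => (b' l : K)) = j '' Set.range fun l => (b l : L) := by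
    rw [← Set.range_comp]; exact congrArg _ (funext hj)
  rw [h, ← IntermediateField.adjoin_map]
  exact ⟨y, hy, rfl⟩

end Transport

theorem pow_mul_mem_GG {F L : Type u} [Field F] [Field L] [Algebra F L] {e : ℕ} (b : Fin e → Lˣ)
    (x : Module.Basis (Fin e) ℤ (Fin e → ℤ)) (κ : L) (m : Fin e → ℤ)
    (h : κ ≠ 0 → κ * (chi b (-m) : L) ∈ Oc F (fun i => (chi b (x i) : L))) :
    ∃ k : ℕ, (∏ i, (chi b (x i) : L)) ^ k * κ ∈ Oc F (fun i => (chi b (x i) : L)) := by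
  rcases eq_or_ne κ 0 with rfl | h0
  · exact ⟨0, by rw [mul_zero]; exact zero_mem _⟩
  obtain ⟨k, hk⟩ := exists_pow_mul_chi_mem_Oc (F := F) b x m
  refine ⟨k, ?_⟩
  have h1 : (chi b m : L) * (chi b (-m) : L) = 1 := by
    rw [← Units.val_mul, ← chi_add, add_neg_cancel, chi_zero, Units.val_one]
  have h2 := mul_mem hk (h h0)
  have h3 : (∏ i, (chi b (x i) : L)) ^ k * (chi b m : L) * (κ * (chi b (-m) : L)) =
      (∏ i, (chi b (x i) : L)) ^ k * κ * ((chi b m : L) * (chi b (-m) : L)) := by ring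
  rwa [h3, h1, mul_one] at h2

theorem indep_root_GG {F K : Type u} [Field F] [Field K] [Algebra F K] {e n : ℕ}
    {β : Fin e → K} (h : IsTranscendenceBasis F fun l => β l ^ n) : AlgebraicIndependent F β := by
  have h1 : Algebra.IsAlgebraic (Algebra.adjoin F (Set.range β)) K := by
    refine ⟨fun y => ?_⟩
    refine (h.isAlgebraic.isAlgebraic y).tower_top_of_subalgebra_le ?_
    rw [Algebra.adjoin_le_iff]
    rintro _ ⟨l, rfl⟩
    exact pow_mem (Algebra.subset_adjoin (Set.mem_range_self l)) n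
  exact (Algebra.IsAlgebraic.isTranscendenceBasis_of_lift_le_trdeg_of_finite F β
    h.lift_cardinalMk_eq_trdeg.le).1

/-- The last step: descent from the semilocal ring upstairs to the ring `R`. -/
theorem descend_GG {F L K : Type u} [Field F] [CharZero F] [Field L] [Algebra F L] [Field K]
    [Algebra F K] [Algebra L K] [IsScalarTower F L K] [FiniteDimensional L K] {e : ℕ}
    (𝒩 : Set (ValuationSubring L)) (hne : 𝒩.Nonempty) (A B : Subalgebra F L) (A' B' : Subalgebra F K)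
    (hA : A' = A.map (IsScalarTower.toAlgHom F L K)) (hAV : ∀ V ∈ 𝒩, ∀ a ∈ A, a ∈ V)
    (hB : ∀ a, a ∈ B ↔ IsIntegral A a) (hB' : ∀ a, a ∈ B' ↔ IsIntegral A' a) (hfg : B'.FG)
    (halg : ∀ y : K, IsAlgebraic A' y) (hd : Algebra.trdeg F B' = e) (M : Finset (Ideal B))
    (hM : ∀ 𝔠 ∈ M, 𝔠.IsMaximal ∧ ∃ V ∈ 𝒩, ∀ a : B, a ∈ 𝔠 ↔ (a : L) ∈ V.nonunits)
    (hM' : ∀ V ∈ 𝒩, ∃ 𝔠 ∈ M, ∀ a : B, a ∈ 𝔠 ↔ (a : L) ∈ V.nonunits)
    (hsm : ∀ V ∈ 𝒩, ∀ 𝔪 : Ideal B', 𝔪.IsMaximal →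
      (∀ (a : B') (a₀ : L), a₀ ∈ A → algebraMap L K a₀ = a → (a ∈ 𝔪 ↔ a₀ ∈ V.nonunits)) →
      SmAt F e 𝔪)
    (R : Subring L) (hR : ∀ x, x ∈ R ↔ ∀ V ∈ 𝒩, x ∈ V) {q : ℕ} {u : Xq G2 L q} (s : Finset L)
    (hs : ∀ a ∈ s, ∃ t ∈ unitsIn 𝒩 B, t * a ∈ B)
    (hu : ∀ (A₁ : Subring L) [QAlg A₁], (∀ x ∈ s, x ∈ A₁) → u ∈ Ch G2 A₁ q) (h : Bd ⊤ u) :
    Bd R u := by
  have : CharZero L := charZero_of_injective_algebraMap (algebraMap F L).injective
  have : CharZero K := charZero_of_injective_algebraMap (algebraMap F K).injective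
  have hup : ∀ a : L, IsIntegral A a → IsIntegral A' (algebraMap L K a) := fun a ha => by
    have h1 : IsIntegral A (algebraMap L K a) := ha.algebraMap
    refine integral_range_GG (algebraMap A K) (algebraMap A' K) (fun c => ⟨⟨algebraMap L K c, ?_⟩, rfl⟩) h1
    rw [hA]
    exact ⟨c, c.2, rfl⟩
  have hdown : ∀ a : K, IsIntegral A' a → IsIntegral A a := fun a ha => by
    refine integral_range_GG (algebraMap A' K) (algebraMap A K) (fun c => ?_) ha
    obtain ⟨c₀, hc₀, h1⟩ := hA.le c.2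
    exact ⟨⟨c₀, hc₀⟩, h1⟩
  have hAB : ∀ a ∈ A, a ∈ B := fun a ha => (hB _).2 (isIntegral_algebraMap (x := (⟨a, ha⟩ : A)))
  let jB : B →+* B' := ((algebraMap L K).comp B.val.toRingHom).codRestrict B'
    fun a => (hB' _).2 (hup _ ((hB _).1 a.2))
  have hjB : ∀ a : B, (jB a : K) = algebraMap L K a := fun _ => rfl
  have hinj : Function.Injective jB := fun a a' haa =>
    Subtype.ext ((algebraMap L K).injective (by rw [← hjB, ← hjB, haa]))
  have hft : Algebra.FiniteType F B' := (Subalgebra.fg_iff_finiteType _).1 hfg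
  have hfin : jB.Finite := by
    refine RingHom.IsIntegral.to_finite (fun x => ?_) ?_
    · have h1 : (B'.val.toRingHom.comp jB).IsIntegralElem (x : K) :=
        integral_range_GG (algebraMap A K) _ (fun c => ⟨⟨c, hAB c c.2⟩, rfl⟩)
          (hdown _ ((hB' _).1 x.2))
      obtain ⟨p, hp, h0⟩ := h1
      refine ⟨p, hp, Subtype.ext ?_⟩
      have h2 := Polynomial.hom_eval₂ p jB B'.val.toRingHom x
      exact h2.trans h0
    · refine RingHom.FiniteType.of_comp_finiteType (f := algebraMap F B) ?_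
      have h1 : jB.comp (algebraMap F B) = algebraMap F B' := by
        ext c
        exact (IsScalarTower.algebraMap_apply F L K c).symm
      rw [h1]
      exact RingHom.finiteType_algebraMap.2 hft
  have hMne : M.Nonempty := by
    obtain ⟨V, hV⟩ := hne
    obtain ⟨𝔠, h𝔠, -⟩ := hM' V hV
    exact ⟨𝔠, h𝔠⟩
  let T₀ : Submonoid B :=
    { carrier := {t | ∀ 𝔠 ∈ M, t ∉ 𝔠}
      mul_mem' := fun {a a'} ha ha' 𝔠 h𝔠 haa =>
        ((hM 𝔠 h𝔠).1.isPrime.mem_or_mem haa).elim (ha 𝔠 h𝔠) (ha' 𝔠 h𝔠)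
      one_mem' := fun 𝔠 h𝔠 h1 => (hM 𝔠 h𝔠).1.ne_top ((Ideal.eq_top_iff_one _).2 h1) }
  let T : Submonoid B' := T₀.map jB
  have hT : T ≤ nonZeroDivisors B' := by
    rintro _ ⟨t, ht, rfl⟩
    obtain ⟨𝔠, h𝔠⟩ := hMne
    refine mem_nonZeroDivisors_of_ne_zero fun h0 => ht 𝔠 h𝔠 ?_
    rw [hinj (h0.trans (map_zero jB).symm)]
    exact zero_mem _
  have := frac_GG A' B' hB' halg
  have := normal_GG A' B' hB' halg
  let U : Subalgebra B' K := Localization.subalgebra.ofField K T hT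
  have hU : ∀ y : K, y ∈ U ↔ ∃ (a t : B') (_ : t ∈ T), y = (a : K) * (t : K)⁻¹ := fun _ => Iff.rfl
  have : IsLocalization T U := Localization.subalgebra.isLocalization_ofField K T hT
  have : IsIntegrallyClosed U := isIntegrallyClosed_of_isLocalization U T hT
  obtain ⟨h1, h2⟩ := semilocal_of_finite (U := U) jB hfin hinj M (fun 𝔠 h𝔠 => (hM 𝔠 h𝔠).1) hMne T
    fun _ => Iff.rfl
  have hq : QAlg (U.toSubring.comap (algebraMap L K)) :=
    QAlg.of_ringHom ((algebraMap F L).codRestrict (U.toSubring.comap (algebraMap L K)) fun c => by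
      change algebraMap L K (algebraMap F L c) ∈ U
      rw [← IsScalarTower.algebraMap_apply]
      exact U.algebraMap_mem (algebraMap F B' c))
  have hu1 : u ∈ Ch G2 (U.toSubring.comap (algebraMap L K)) q := by
    refine hu _ fun a ha => ?_
    obtain ⟨t, ⟨htB, ht0, htV⟩, hta⟩ := hs a ha
    refine (hU _).2 ⟨jB ⟨_, hta⟩, jB ⟨t, htB⟩, ⟨⟨t, htB⟩, fun 𝔠 h𝔠 htc => ?_, rfl⟩, ?_⟩
    · obtain ⟨V, hV, hc⟩ := (hM 𝔠 h𝔠).2
      exact htV V hV ((hc _).1 htc)
    · have h3 : algebraMap L K t ≠ 0 := (map_ne_zero _).2 ht0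
      rw [hjB, hjB, map_mul]
      field_simp
  have hu2 : pushR (algebraMap L K) q u ∈ Ch G2 U.toSubring q :=
    pushR_mem (algebraMap L K) (fun _ ha => ha) hu1
  obtain ⟨u₀, hu₀, hu₀'⟩ := exists_pushR_eq (algebraMap U K) Subtype.val_injective
    (fun y hy => ⟨⟨y, hy⟩, rfl⟩) hu2
  have h3 : Bd ⊤ u₀ := by
    refine bd_of_fraction (F := F) (K := K) T hT h1 hd (fun t ht 𝔫 h𝔫 => ?_) (Ch_mono le_top hu₀) ?_
    · obtain ⟨h4, h5, h6⟩ := h2 𝔫 h𝔫
      obtain ⟨V, hV, hc⟩ := (hM _ h6).2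
      refine ⟨_, h4, le_rfl, h5 t ht, hsm V hV _ h4 fun a a₀ ha₀ haa => ?_⟩
      have h7 : a = jB ⟨a₀, hAB a₀ ha₀⟩ := Subtype.ext haa.symm
      rw [h7]
      exact hc ⟨a₀, hAB a₀ ha₀⟩
    · rw [hu₀']
      exact h.pushR _ fun _ _ => trivial
  have h4 : Bd U.toSubring (pushR (algebraMap L K) q u) := by
    rw [← hu₀']
    exact h3.pushR _ fun a _ => a.2
  refine bd_trace (fun y hy => (hR _).2 fun V hV => ?_) h4
  obtain ⟨a, _, ⟨t, ht, rfl⟩, rfl⟩ := (hU y).1 hy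
  obtain ⟨𝔠, h𝔠, hc⟩ := hM' V hV
  have h5 : (t : L) ∉ V.nonunits := fun h0 => ht 𝔠 h𝔠 ((hc t).2 h0)
  rw [ValuationSubring.mem_nonunits_iff_or, not_or, not_not] at h5
  rw [hjB, ← map_inv₀, mul_comm, ← Algebra.smul_def, map_smul, smul_eq_mul]
  exact mul_mem h5.2 (mem_val_of_integral_GG A V (hAV V hV)
    (Algebra.isIntegral_trace (hdown _ ((hB' _).1 a.2))))

theorem bd_of_valuations {F L : Type u} [Field F] [CharZero F] [Field L] [Algebra F L]
    (hfg : ∃ s : Finset L, IntermediateField.adjoin F (s : Set L) = ⊤) {e : ℕ} (b : Fin e → Lˣ)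
    (hb : IsTranscendenceBasis F fun l => (b l : L)) (𝒩 : Set (ValuationSubring L))
    (hF : ∀ V ∈ 𝒩, ∀ c : F, algebraMap F L c ∈ V)
    (hind : ∀ V ∈ 𝒩, ∀ a : Fin e → ℤ, a ≠ 0 →
      (chi b a : L) ∈ V.nonunits ∨ (chi b (-a) : L) ∈ V.nonunits)
    (R : Subring L) (hR : ∀ x, x ∈ R ↔ ∀ V ∈ 𝒩, x ∈ V) {q : ℕ} {u : Xq G2 L q}
    (hu : u ∈ Ch G2 R q) (h : Bd ⊤ u) : Bd R u := by
  classical
  rcases 𝒩.eq_empty_or_nonempty with rfl | hne
  · exact h.mono fun x _ => (hR x).2 fun V hV => hV.elim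
  obtain ⟨r, α, f, g, hα, hf, hfα, hg, hfc, hgc, hdeg⟩ :=
    exists_primitive_data hfg (Set.range fun l => (b l : L)) hb.isAlgebraic.isAlgebraic
  choose p hp0 hpd hpa hpc using hdeg
  obtain ⟨K, β, hfd, hβ, hgen⟩ := exists_root_field (F := F) b r.factorial_pos
  obtain ⟨s, hsR, hs⟩ := exists_finset_of_mem_Ch hu
  let j : L →ₐ[F] K := IsScalarTower.toAlgHom F L K
  have hj : ∀ l, ((β l ^ r.factorial : Kˣ) : K) = j (b l) := fun l => hβ l
  have hb' : IsTranscendenceBasis F fun l => ((β l ^ r.factorial : Kˣ) : K) := by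
    have h1 := hb.algebraMap_comp (A := K)
    have h2 : (fun l => ((β l ^ r.factorial : Kˣ) : K)) =
        algebraMap L K ∘ fun l => (b l : L) := funext hj
    rwa [h2]
  have hfg' : ∃ s' : Finset K, IntermediateField.adjoin F (s' : Set K) = ⊤ := by
    obtain ⟨t, ht⟩ := hfg
    refine ⟨t.image j ∪ Finset.univ.image fun l => (β l : K), top_le_iff.1 ?_⟩
    rw [← hgen, IntermediateField.adjoin_le_iff]
    rintro _ (⟨y, rfl⟩ | ⟨l, rfl⟩)
    · have h1 : j y ∈ (IntermediateField.adjoin F (t : Set L)).map j := ⟨y, ht ▸ trivial, rfl⟩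
      rw [IntermediateField.adjoin_map] at h1
      refine IntermediateField.adjoin.mono F _ _ ?_ h1
      rw [Finset.coe_union, Finset.coe_image]
      exact Set.subset_union_left
    · exact IntermediateField.subset_adjoin F _ (by simp)
  obtain ⟨E, hE⟩ := exists_exponents hb.1 (f.coeffs ∪ g.coeffs ∪ s.biUnion fun a => (p a).coeffs)
    (by
      intro κ hκ
      simp only [Finset.mem_union, Finset.mem_biUnion, Polynomial.mem_coeffs_iff] at hκ
      rcases hκ with (⟨i, -, rfl⟩ | ⟨i, -, rfl⟩) | ⟨a, -, i, -, rfl⟩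
      exacts [hfc i, hgc i, hpc a i])
  obtain ⟨S, hS⟩ := exists_toric e E
  have hch : ∀ V ∈ 𝒩, ∃ v x, IsChart S v x ∧ Adapted E x ∧
      ∀ i, (chi b (x i) : L) ∈ V.nonunits := fun V hV =>
    hS (fun a => (chi b a : L) ∈ V.nonunits) (hind V hV)
  obtain ⟨v₀, x₀, hc₀, -⟩ := hch _ hne.choose_spec
  have hBfg := fg_integralClosure hfg _ (AS_fg b S) (alg_AS_GG hb hc₀)
  have hBfg' := fg_integralClosure hfg' _ (AS_fg _ S) (alg_AS_GG hb' hc₀)
  obtain ⟨B, hB, hBfg⟩ : ∃ B : Subalgebra F L, (∀ a, a ∈ B ↔ IsIntegral (AS F b S) a) ∧ B.FG :=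
    ⟨_, fun _ => Iff.rfl, hBfg⟩
  obtain ⟨B', hB', hBfg'⟩ : ∃ B' : Subalgebra F K,
      (∀ a, a ∈ B' ↔ IsIntegral (AS F (fun l => β l ^ r.factorial) S) a) ∧ B'.FG :=
    ⟨_, fun _ => Iff.rfl, hBfg'⟩
  obtain ⟨M, hM, hM'⟩ := finite_centers hb.1 𝒩 hF (fun V hV => by
    obtain ⟨v, x, h1, -, h2⟩ := hch V hV
    exact ⟨v, x, h1, h2⟩) B hB hBfg
  refine descend_GG (e := e) 𝒩 hne (AS F b S) B _ B' (AS_map_GG j hj S) (fun V hV a ha => ?_)
    hB hB' hBfg' (alg_AS_GG hb' hc₀) (trdeg_subalgebra hb' B' fun y => ?_) M hM hM'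
    (fun V hV 𝔪 h𝔪 hc𝔪 => ?_) R hR s (fun a ha => ?_) hs h
  · obtain ⟨v, x, h1, -, h2⟩ := hch V hV
    exact Oc_le_valuation (hF V hV) h2 (AS_le_Oc hb.1 h1 ha)
  · exact (alg_AS_GG hb' hc₀ y).tower_top_of_subalgebra_le fun a ha =>
      (hB' _).2 (isIntegral_algebraMap (x := (⟨a, ha⟩ : AS F (fun l => β l ^ r.factorial) S)))
  · obtain ⟨v, x, h1, h2, h3⟩ := hch V hV
    obtain ⟨μ, hμ, -⟩ := hE x h2
    have hco : ∀ P : Polynomial L, P.coeffs ⊆ f.coeffs ∪ g.coeffs → ∀ i, ∃ k : ℕ,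
        (∏ l, (chi (fun l => β l ^ r.factorial) (x l) : K)) ^ k * (P.map j.toRingHom).coeff i ∈
          Oc F fun l => (chi (fun l => β l ^ r.factorial) (x l) : K) := fun P hP i => by
      obtain ⟨k, hk⟩ := pow_mul_mem_GG (F := F) b x (P.coeff i) (μ (P.coeff i)) fun h0 =>
        (hμ _ (Finset.mem_union_left _ (hP (Polynomial.coeff_mem_coeffs h0))) h0).1
      refine ⟨k, ?_⟩
      have h4 := (Oc_chi_GG j hj x _).2 hk
      rw [map_mul, map_pow, map_prod] at h4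
      simp only [← chi_map_GG j hj] at h4
      rw [Polynomial.coeff_map]
      exact h4
    have hev : ∀ (P : Polynomial L) (y : L), (P.map j.toRingHom).eval (j y) = j (P.eval y) :=
      fun P y => Polynomial.eval_map_apply j.toRingHom y
    refine smAt_chart β (indep_root_GG hb') r.factorial_pos dvd_rfl j.fieldRange
      (fun l => ⟨b l, (hj l).symm⟩) ?_ hgen (j α) ?_ (f.map j.toRingHom) (g.map j.toRingHom)
      (hf.map _) (by rw [hev, hfα, map_zero]) ?_ h1 (hco f Finset.subset_union_left)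
      (hco g Finset.subset_union_right) B' hB' hBfg' 𝔪 fun a ha => ?_
    · rintro _ ⟨a, rfl⟩
      refine ⟨(p a).map j.toRingHom, (Polynomial.map_ne_zero_iff j.toRingHom.injective).2 (hp0 a),
        Polynomial.natDegree_map_le.trans (hpd a), (hev _ _).trans (by rw [hpa, map_zero]),
        fun i => ?_⟩
      rw [Polynomial.coeff_map]
      exact mem_adjoin_GG j hj (hpc a i)
    · rintro _ ⟨a, rfl⟩
      have h4 : j a ∈ (IntermediateField.adjoin F
          (insert α (Set.range fun l => (b l : L)))).map j := ⟨a, hα ▸ trivial, rfl⟩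
      rw [IntermediateField.adjoin_map, Set.image_insert_eq, ← Set.range_comp] at h4
      have h5 : (j ∘ fun l => (b l : L)) = fun l => (β l : K) ^ r.factorial :=
        funext fun l => (hβ l).symm
      rwa [h5] at h4
    · rw [Polynomial.derivative_map, hev, hev, ← map_mul, hg, map_one]
    · obtain ⟨a₀, ha₀, h4⟩ : ∃ a₀ ∈ AS F b S, j a₀ = a := (AS_map_GG j hj S).le ha
      rw [hc𝔪 a a₀ ha₀ h4, ← h4, ← map_inv₀, Oc_chi_GG j hj, map_ne_zero]
      refine ⟨fun h5 => ⟨fun h6 => h5 (h6 ▸ zero_mem _),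
        inv_mem_Oc (hF V hV) h3 (AS_le_Oc hb.1 h1 ha₀) h5⟩, fun h5 h6 => ?_⟩
      rw [ValuationSubring.mem_nonunits_iff_or] at h6
      exact h6.elim h5.1 fun h7 => h7 (Oc_le_valuation (hF V hV) h3 h5.2)
  · refine exists_denominator hb.1 𝒩 hne hF B hB hBfg ((hR a).1 (hsR a ha)) fun V hV => ?_
    obtain ⟨v, x, h1, h2, h3⟩ := hch V hV
    obtain ⟨μ, hμ, hμ'⟩ := hE x h2
    have hm : ∀ i, (p a).coeff i ≠ 0 →
        (p a).coeff i ∈ f.coeffs ∪ g.coeffs ∪ s.biUnion fun a => (p a).coeffs := fun i hi =>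
      Finset.mem_union_right _ (Finset.mem_biUnion.2 ⟨a, ha, Polynomial.coeff_mem_coeffs hi⟩)
    obtain ⟨i, hi, h4⟩ := exists_poly_unit_coeff x (p a) (hp0 a) μ (fun i hi => hμ _ (hm i hi) hi)
      fun i i' hi hi' => hμ' _ (hm i hi) _ (hm i' hi') hi hi'
    refine ⟨v, x, h1, h3, p a * Polynomial.C ((p a).coeff i)⁻¹, by simp [hpa], fun i' => ?_, i, ?_⟩
    · rw [Polynomial.coeff_mul_C, ← div_eq_mul_inv]
      exact h4 i'
    · rw [Polynomial.coeff_mul_C, mul_inv_cancel₀ hi, ValuationSubring.mem_nonunits_iff_or]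
      simp

end

end Pool.Agent.MP_e2821c_ag.Dg
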