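import Pool.Agent.Lib.MP_e2821c_ag.Dg.Core

namespace Pool.Agent.MP_e2821c_ag.Dg

open MvPolynomial

universe u v w

noncomputable section

section twist

variable {F A : Type u} [Field F] [CommRing A] [Algebra F A]

/-- The module `M × M` twisted by a derivation of the ring. -/
def Tw_Lie (_ : Derivation F A A) (M : Type u) : Type u := M × M

variable (P : Derivation F A A) (M : Type u) [AddCommGroup M] [Module A M]

instance : AddCommGroup (Tw_Lie P M) := inferInstanceAs (AddCommGroup (M × M))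

instance [Module F M] : Module F (Tw_Lie P M) := inferInstanceAs (Module F (M × M))

instance : Module A (Tw_Lie P M) where
  smul a x := (a • x.1, a • x.2 + P a • x.1)
  one_smul x := Prod.ext (one_smul A x.1) (by
    change (1 : A) • x.2 + P 1 • x.1 = x.2
    simp)
  mul_smul a b x := Prod.ext (mul_smul a b x.1) (by
    change (a * b) • x.2 + P (a * b) • x.1 = a • (b • x.2 + P b • x.1) + P a • b • x.1
    rw [P.leibniz]
    module)
  smul_zero a := Prod.ext (smul_zero a) (by
    change a • (0 : M) + P a • (0 : M) = 0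
    simp)
  smul_add a x y := Prod.ext (smul_add a x.1 y.1) (by
    change a • (x.2 + y.2) + P a • (x.1 + y.1) = a • x.2 + P a • x.1 + (a • y.2 + P a • y.1)
    module)
  add_smul a b x := Prod.ext (add_smul a b x.1) (by
    change (a + b) • x.2 + P (a + b) • x.1 = a • x.2 + P a • x.1 + (b • x.2 + P b • x.1)
    rw [map_add]
    module)
  zero_smul x := Prod.ext (zero_smul A x.1) (by
    change (0 : A) • x.2 + P 0 • x.1 = 0
    simp)

variable [Module F M] [IsScalarTower F A M]

instance : IsScalarTower F A (Tw_Lie P M) where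
  smul_assoc f a x := Prod.ext (smul_assoc f a x.1) (by
    change (f • a) • x.2 + P (f • a) • x.1 = f • (a • x.2 + P a • x.1)
    rw [P.map_smul, smul_assoc, smul_assoc, smul_add])

variable {M}

/-- The derivative of a derivation. -/
def twD_Lie (D : Derivation F A M) : Derivation F A (Tw_Lie P M) :=
  Derivation.mk' (M := Tw_Lie P M)
    { toFun := fun b => (D b, D (P b))
      map_add' := fun a b => Prod.ext (map_add D a b) (by
        change D (P (a + b)) = D (P a) + D (P b)
        rw [map_add, map_add])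
      map_smul' := fun f a => Prod.ext (D.map_smul f a) (by
        change D (P (f • a)) = f • D (P a)
        rw [P.map_smul, D.map_smul]) }
    fun a b => Prod.ext (D.leibniz a b) (by
      change D (P (a * b)) = a • D (P b) + P a • D b + (b • D (P a) + P b • D a)
      rw [P.leibniz, map_add, smul_eq_mul, smul_eq_mul, D.leibniz, D.leibniz]
      abel)

end twist

theorem exists_sep_Lie {R A : Type u} [CommRing R] [IsDomain R] [CharZero R] [CommRing A]
    [Algebra R A] (hi : Function.Injective (algebraMap R A)) (b : A) (n : ℕ) :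
    ∀ q : Polynomial R, q.natDegree < n → q ≠ 0 → Polynomial.aeval b q = 0 →
      ∃ q : Polynomial R, Polynomial.aeval b q = 0 ∧
        Polynomial.aeval b (Polynomial.derivative q) ≠ 0 := by
  induction n with
  | zero => intro q h; omega
  | succ n ih =>
    intro q h h0 h1
    by_cases h2 : Polynomial.aeval b (Polynomial.derivative q) = 0
    · have h3 : q.natDegree ≠ 0 := fun e => by
        rw [Polynomial.eq_C_of_natDegree_eq_zero e] at h0 h1
        rw [Polynomial.aeval_C, map_eq_zero_iff _ hi] at h1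
        exact h0 (by rw [h1, map_zero])
      have h4 := Polynomial.natDegree_derivative_lt h3
      exact ih _ (by omega) (fun e => h3 (Polynomial.derivative_eq_zero.1 e)) h2
    · exact ⟨q, h1, h2⟩

theorem torsion_Lie {F A : Type u} [Field F] [CharZero F] [CommRing A] [IsDomain A] [Algebra F A]
    {s : Set A} {b : A} (hb : IsAlgebraic (Algebra.adjoin F s) b)
    {M : Type u} [AddCommGroup M] [Module A M] [Module F M] [IsScalarTower F A M]
    (D : Derivation F A M) (hD : ∀ x ∈ s, D x = 0) : ∃ a : A, a ≠ 0 ∧ a • D b = 0 := by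
  have : CharZero (Algebra.adjoin F s) :=
    charZero_of_injective_algebraMap (algebraMap F (Algebra.adjoin F s)).injective
  obtain ⟨q, h0, h1⟩ := hb
  obtain ⟨q, h2, h3⟩ := exists_sep_Lie (R := Algebra.adjoin F s) Subtype.val_injective b _ q
    (Nat.lt_succ_self _) h0 h1
  have h4 : ∀ r : Algebra.adjoin F s, D r = 0 := fun r =>
    Derivation.eqOn_adjoin (D1 := D) (D2 := 0) hD r.2
  let D' : Derivation (Algebra.adjoin F s) A M := Derivation.mk'
    { toFun := D
      map_add' := map_add D
      map_smul' := fun r a => by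
        change D (r.1 * a) = r.1 • D a
        rw [D.leibniz, h4, smul_zero, add_zero] } D.leibniz
  have h5 := D'.map_aeval q b
  rw [h2, map_zero] at h5
  exact ⟨_, h3, h5.symm⟩

theorem one_mem_Lie {F : Type u} [Field F] [CharZero F] {e : ℕ} (J : Ideal (MvPolynomial (Fin e) F))
    (hJ : ∀ i, ∀ p ∈ J, pderiv i p ∈ J) (n : ℕ) :
    ∀ p ∈ J, p.totalDegree < n → p ≠ 0 → (1 : MvPolynomial (Fin e) F) ∈ J := by
  induction n with
  | zero => intro p _ h; omega
  | succ n ih =>
    intro p hp h h0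
    by_cases h1 : ∃ i, pderiv i p ≠ 0
    · obtain ⟨i, hi⟩ := h1
      refine ih _ (hJ i p hp) ?_ hi
      obtain ⟨m, hm, e⟩ := Finset.exists_mem_eq_sup _ (support_nonempty.2 hi)
        fun s : Fin e →₀ ℕ => s.sum fun _ k => k
      have h2 : m + Finsupp.single i 1 ∈ p.support := by
        rw [mem_support_iff] at hm ⊢
        rw [coeff_pderiv] at hm
        exact left_ne_zero_of_mul hm
      have h3 := le_totalDegree h2
      rw [Finsupp.sum_add_index' (fun _ => rfl) (fun _ _ _ => rfl),
        Finsupp.sum_single_index rfl] at h3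
      rw [totalDegree, e]
      omega
    · push Not at h1
      have h2 : p = C (coeff 0 p) := by
        ext m
        rw [coeff_C]
        split_ifs with hm
        · rw [hm]
        · obtain ⟨i, hi⟩ := Finsupp.ne_iff.1 (Ne.symm hm)
          have h3 := coeff_pderiv (i := i) p (m - Finsupp.single i 1)
          rw [h1, coeff_zero, tsub_add_cancel_of_le
            (Finsupp.single_le_iff.2 (Nat.one_le_iff_ne_zero.2 hi))] at h3
          exact (mul_eq_zero.1 h3.symm).resolve_right (Nat.cast_add_one_ne_zero _)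
      have h3 : coeff 0 p ≠ 0 := fun e => h0 (by rw [h2, e, map_zero])
      have h4 := J.mul_mem_left (C (coeff 0 p)⁻¹) hp
      rwa [h2, coeff_zero_C, ← map_mul, inv_mul_cancel₀ h3, map_one] at h4

theorem derivation_eq_zero_of_stable {F A : Type u} [Field F] [CharZero F] [CommRing A]
    [IsDomain A] [Algebra F A] [Algebra.EssFiniteType F A] {e : ℕ} (y : Fin e → A)
    (hy : AlgebraicIndependent F y) (halg : ∀ a : A, IsAlgebraic (Algebra.adjoin F (Set.range y)) a)
    (P : Fin e → Derivation F A A) (hP : ∀ i l, P i (y l) = if i = l then 1 else 0)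
    {M : Type u} [AddCommGroup M] [Module A M] [Module F M] [IsScalarTower F A M]
    (D : Derivation F A M) (hD : ∀ l, D (y l) = 0) : D = 0 := by
  let N : Submodule A Ω[A⁄F] := Submodule.span A (Set.range fun l => KaehlerDifferential.D F A (y l))
  let d : Derivation F A (Ω[A⁄F] ⧸ N) := N.mkQ.compDer (KaehlerDifferential.D F A)
  have hd : ∀ b, d b = N.mkQ (KaehlerDifferential.D F A b) := fun _ => rfl
  have hdy : ∀ l, d (y l) = 0 := fun l =>
    (Submodule.Quotient.mk_eq_zero N).2 (Submodule.subset_span ⟨l, rfl⟩)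
  have univ : ∀ (a : A), (∀ b, a • d b = 0) → ∀ (M : Type u) [AddCommGroup M] [Module A M]
      [Module F M] [IsScalarTower F A M] (D : Derivation F A M), (∀ l, D (y l) = 0) →
      ∀ b, a • D b = 0 := by
    intro a ha M _ _ _ _ D hD b
    have h1 : N ≤ LinearMap.ker D.liftKaehlerDifferential := by
      refine Submodule.span_le.2 ?_
      rintro _ ⟨l, rfl⟩
      exact (D.liftKaehlerDifferential_comp_D _).trans (hD l)
    have h2 := ha b
    rw [hd, ← map_smul] at h2
    have h3 := h1 ((Submodule.Quotient.mk_eq_zero N).1 h2)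
    rwa [LinearMap.mem_ker, map_smul, D.liftKaehlerDifferential_comp_D] at h3
  let J : Ideal A :=
    { carrier := {a | ∀ b, a • d b = 0}
      add_mem' := fun ha ha' b => by rw [add_smul, ha b, ha' b, add_zero]
      zero_mem' := fun b => zero_smul _ _
      smul_mem' := fun c a ha b => by rw [smul_eq_mul, mul_smul, ha b, smul_zero] }
  have hJ : ∀ i, ∀ a ∈ J, P i a ∈ J := by
    intro i a ha b
    have h1 := univ a ha _ (twD_Lie (P i) d) (fun l => Prod.ext (hdy l) (by
      change d (P i (y l)) = 0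
      rw [hP]
      split_ifs <;> simp)) b
    have h2 : a • d (P i b) + P i a • d b = 0 := congrArg Prod.snd h1
    rwa [ha, zero_add] at h2
  have htor : Module.IsTorsion A (Ω[A⁄F] ⧸ N) := by
    intro x
    obtain ⟨x, rfl⟩ := N.mkQ_surjective x
    have hx : x ∈ Submodule.span A (Set.range (KaehlerDifferential.D F A)) := by
      rw [KaehlerDifferential.span_range_derivation]
      trivial
    refine (Submodule.span_le (p := (Submodule.torsion A (Ω[A⁄F] ⧸ N)).comap N.mkQ)).2 ?_ hx
    rintro _ ⟨b, rfl⟩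
    obtain ⟨a, h1, h2⟩ := torsion_Lie (halg b) d (by
      rintro _ ⟨l, rfl⟩
      exact hdy l)
    exact ⟨⟨a, mem_nonZeroDivisors_of_ne_zero h1⟩, h2⟩
  obtain ⟨a, ha, ha0⟩ := Submodule.annihilator_top_inter_nonZeroDivisors htor
  have haJ : a ∈ J := fun b => Submodule.mem_annihilator.1 ha _ trivial
  obtain ⟨⟨r, hr⟩, hr0, c, hc⟩ := (halg a).exists_nonzero_dvd ha0
  have hr' := hr
  rw [Algebra.adjoin_range_eq_range_aeval] at hr'
  obtain ⟨p, rfl⟩ := hr'
  have hP' : ∀ i (p : MvPolynomial (Fin e) F), P i (aeval y p) = aeval y (pderiv i p) := by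
    intro i p
    induction p using MvPolynomial.induction_on with
    | C a => simp
    | add p q hp hq => simp only [map_add, hp, hq]
    | mul_X p l hp =>
      rw [map_mul, Derivation.leibniz, pderiv_mul, hp, aeval_X, hP, pderiv_X]
      by_cases h : i = l
      · subst h
        simp [mul_comm, add_comm]
      · simp [h, Ne.symm h, mul_comm]
  have h1 := one_mem_Lie (J.comap (aeval y : MvPolynomial (Fin e) F →ₐ[F] A))
    (fun i p hp => by
      rw [Ideal.mem_comap, ← hP']
      exact hJ i _ hp) _ p (by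
      have h2 : aeval y p = a * c := hc
      rw [Ideal.mem_comap, h2]
      exact J.mul_mem_right c haJ) (Nat.lt_succ_self _) (by
      rintro rfl
      exact hr0 (Subtype.ext (map_zero _)))
  rw [Ideal.mem_comap, map_one] at h1
  ext b
  simpa using univ 1 h1 M D hD b

theorem exists_ext_Lie {F L T : Type u} [Field F] [Field L] [Algebra F L] [CommRing T]
    (B B' : Subalgebra F L) (𝔪 : Ideal B) [𝔪.IsMaximal]
    (hloc : ∀ c ∈ B', ∃ s : B, s ∉ 𝔪 ∧ (s : L) * c ∈ B) (Φ : B →+* T)
    (hΦ : ∀ s, s ∉ 𝔪 → IsUnit (Φ s)) :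
    ∃ Ψ : B' →+* T, ∀ (c : B') (s n : B), (s : L) * c = n → Φ s * Ψ c = Φ n := by
  have h1 : ∀ c : B', ∃ τ : T, ∀ s n : B, (s : L) * c = n → Φ s * τ = Φ n := by
    intro c
    obtain ⟨s0, h0, h1⟩ := hloc c c.2
    obtain ⟨v, hv⟩ := (hΦ s0 h0).exists_right_inv
    refine ⟨v * Φ ⟨_, h1⟩, fun s n e => ?_⟩
    have h2 : s * ⟨_, h1⟩ = s0 * n := Subtype.ext (by
      push_cast
      rw [← e]
      ring)
    have h3 := congrArg Φ h2
    rw [map_mul, map_mul] at h3
    linear_combination v * h3 + Φ n * hv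
  choose Ψ hΨ using h1
  have hp : 𝔪.IsPrime := inferInstance
  refine ⟨{ toFun := Ψ, map_one' := ?_, map_mul' := fun a b => ?_, map_zero' := ?_,
            map_add' := fun a b => ?_ }, hΨ⟩
  · simpa using hΨ 1 1 1 (by simp)
  · obtain ⟨s, h0, h1⟩ := hloc a a.2
    obtain ⟨s', h0', h1'⟩ := hloc b b.2
    have h2 := hΨ a s ⟨_, h1⟩ rfl
    have h3 := hΨ b s' ⟨_, h1'⟩ rfl
    have h4 := hΨ (a * b) (s * s') (⟨_, h1⟩ * ⟨_, h1'⟩) (by
      push_cast
      ring)
    rw [map_mul, map_mul, ← h2, ← h3] at h4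
    refine ((hΦ s h0).mul (hΦ s' h0')).mul_left_cancel ?_
    linear_combination h4
  · simpa using hΨ 0 1 0 (by simp)
  · obtain ⟨s, h0, h1⟩ := hloc a a.2
    obtain ⟨s', h0', h1'⟩ := hloc b b.2
    have h2 := hΨ a s ⟨_, h1⟩ rfl
    have h3 := hΨ b s' ⟨_, h1'⟩ rfl
    have h4 := hΨ (a + b) (s * s') (⟨_, h1⟩ * s' + s * ⟨_, h1'⟩) (by
      push_cast
      ring)
    rw [map_mul, map_add, map_mul, map_mul, ← h2, ← h3] at h4
    refine ((hΦ s h0).mul (hΦ s' h0')).mul_left_cancel ?_
    linear_combination h4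

section dual

variable {F B B' κ : Type u} [Field F] [CommRing B] [CommRing B'] [CommRing κ] [Algebra F B]
  [Algebra F B'] [Algebra F κ] [Algebra B κ] [IsScalarTower F B κ]

/-- The ring map to the dual numbers attached to a derivation. -/
def phi_Lie (D : Derivation F B κ) : B →+* DualNumber κ where
  toFun b := (algebraMap B κ b, D b)
  map_one' := TrivSqZeroExt.ext (map_one (algebraMap B κ)) D.map_one_eq_zero
  map_mul' a b := TrivSqZeroExt.ext (map_mul (algebraMap B κ) a b) (by
    change D (a * b) = algebraMap B κ a * D b + D a * algebraMap B κ b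
    rw [D.leibniz, mul_comm (D a), Algebra.smul_def, Algebra.smul_def])
  map_zero' := TrivSqZeroExt.ext (map_zero (algebraMap B κ)) (map_zero D)
  map_add' a b := TrivSqZeroExt.ext (map_add (algebraMap B κ) a b) (map_add D a b)

theorem isUnit_phi_Lie (D : Derivation F B κ) {s : B} (h : IsUnit (algebraMap B κ s)) :
    IsUnit (phi_Lie D s) := TrivSqZeroExt.isUnit_iff_isUnit_fst.2 h

theorem zero_Lie (i : B →ₐ[F] B') (D : Derivation F B κ) (Ψ : B' →+* DualNumber κ)
    (h1 : ∀ b, Ψ (i b) = phi_Lie D b) {e : ℕ} (y : Fin e → B') (t : B)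
    (ht : IsUnit (algebraMap B κ t)) (z : Fin e → B) (hz : ∀ l, algebraMap B κ (z l) = 0)
    (hD : ∀ l, D (z l) = 0) (hzy : ∀ l, phi_Lie D t * Ψ (y l) = phi_Lie D (z l))
    (h : ∀ (M : Type u) [AddCommGroup M] [Module B' M] [Module F M] [IsScalarTower F B' M]
      (D : Derivation F B' M), (∀ l, D (y l) = 0) → D = 0) : D = 0 := by
  have h2 : ∀ f : F, Ψ (algebraMap F B' f) = phi_Lie D (algebraMap F B f) := fun f => by
    rw [← h1, i.commutes]
  let : Algebra B' κ := ((TrivSqZeroExt.fstHom κ κ κ).toRingHom.comp Ψ).toAlgebra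
  have h3 : ∀ (c : B') (x : κ), c • x = (Ψ c).fst * x := fun _ _ => rfl
  have : IsScalarTower F B' κ := IsScalarTower.of_algebraMap_eq fun f =>
    (IsScalarTower.algebraMap_apply F B κ f).trans (congrArg TrivSqZeroExt.fst (h2 f)).symm
  let D' : Derivation F B' κ := Derivation.mk'
    { toFun := fun c => (Ψ c).snd
      map_add' := fun a b => by rw [map_add, TrivSqZeroExt.snd_add]
      map_smul' := fun f c => by
        rw [Algebra.smul_def, map_mul, DualNumber.snd_mul, h2, RingHom.id_apply, Algebra.smul_def,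
          IsScalarTower.algebraMap_apply F B κ]
        change _ + D (algebraMap F B f) * _ = _
        rw [D.map_algebraMap, zero_mul, add_zero]
        rfl } fun a b => by
      change (Ψ (a * b)).snd = a • (Ψ b).snd + b • (Ψ a).snd
      rw [map_mul, DualNumber.snd_mul, h3, h3, mul_comm (Ψ a).snd]
  have h4 : D' = 0 := h _ D' fun l => by
    have h6 : algebraMap B κ t * (Ψ (y l)).fst = algebraMap B κ (z l) :=
      congrArg TrivSqZeroExt.fst (hzy l)
    have h7 : algebraMap B κ t * (Ψ (y l)).snd + D t * (Ψ (y l)).fst = D (z l) :=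
      congrArg TrivSqZeroExt.snd (hzy l)
    rw [hz, ht.mul_right_eq_zero] at h6
    rw [h6, hD, mul_zero, add_zero, ht.mul_right_eq_zero] at h7
    exact h7
  ext b
  have h5 : (Ψ (i b)).snd = 0 := DFunLike.congr_fun h4 _
  rw [h1] at h5
  exact h5

end dual

theorem zero_sub_Lie {F L κ : Type u} [Field F] [Field L] [Algebra F L] (B B' : Subalgebra F L)
    [CommRing κ] [Algebra F κ] [Algebra B κ] [IsScalarTower F B κ]
    (hB : B ≤ B') (𝔪 : Ideal B) [𝔪.IsMaximal] (hu : ∀ s : B, s ∉ 𝔪 → IsUnit (algebraMap B κ s))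
    (hloc : ∀ c ∈ B', ∃ s : B, s ∉ 𝔪 ∧ (s : L) * c ∈ B) {e : ℕ} (y : Fin e → B') (t : B)
    (ht : t ∉ 𝔪) (z : Fin e → B) (hz : ∀ l, algebraMap B κ (z l) = 0)
    (hzy : ∀ l, (z l : L) = t * y l)
    (h : ∀ (M : Type u) [AddCommGroup M] [Module B' M] [Module F M] [IsScalarTower F B' M]
      (D : Derivation F B' M), (∀ l, D (y l) = 0) → D = 0)
    (D : Derivation F B κ) (hD : ∀ l, D (z l) = 0) : D = 0 := by
  obtain ⟨Ψ, hΨ⟩ := exists_ext_Lie (T := DualNumber κ) B B' 𝔪 hloc (phi_Lie D)
    fun s hs => isUnit_phi_Lie D (hu s hs)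
  refine zero_Lie (Subalgebra.inclusion hB) D Ψ (fun b => ?_) y t (hu t ht) z hz hD
    (fun l => hΨ _ _ _ (hzy l).symm) h
  have h1 := hΨ (Subalgebra.inclusion hB b) 1 b (one_mul _)
  rwa [map_one, one_mul] at h1

theorem smAt_of_local {F L : Type u} [Field F] [Field L] [Algebra F L] (B B' : Subalgebra F L)
    (hB : B ≤ B') (𝔪 : Ideal B) [𝔪.IsMaximal]
    (hloc : ∀ c ∈ B', ∃ s : B, s ∉ 𝔪 ∧ (s : L) * c ∈ B) {e : ℕ} (y : Fin e → B') (t : B)
    (ht : t ∉ 𝔪) (z : Fin e → B) (hz : ∀ l, z l ∈ 𝔪) (hzy : ∀ l, (z l : L) = t * y l)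
    (h : ∀ (M : Type u) [AddCommGroup M] [Module B' M] [Module F M] [IsScalarTower F B' M]
      (D : Derivation F B' M), (∀ l, D (y l) = 0) → D = 0) : SmAt F e 𝔪 := by
  refine ⟨z, zero_sub_Lie B B' hB 𝔪 (fun s hs => ?_) hloc y t ht z
    (fun l => Ideal.Quotient.eq_zero_iff_mem.2 (hz l)) hzy h⟩
  obtain ⟨b, hb⟩ := Ideal.Quotient.exists_inv (mt Ideal.Quotient.eq_zero_iff_mem.1 hs)
  exact IsUnit.of_mul_eq_one b hb

end

end Pool.Agent.MP_e2821c_ag.Dg
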