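import Pool.Agent.Lib.MP_e2821c_ag.Dg.Seid
import Pool.Agent.Lib.MP_e2821c_ag.Cy.Deriv

namespace Pool.Agent.MP_e2821c_ag.Dg

open MvPolynomial

universe u v w

noncomputable section

theorem int_coeff_Stab {S L : Type*} [CommRing S] [Field L] [Algebra S L] {a : L}
    (p : Polynomial L) (hp : p.Monic) (hc : ∀ i, p.coeff i ∈ Set.range (algebraMap S L))
    (h0 : p.eval a = 0) : IsIntegral S a := by
  obtain ⟨q, h1, -, h2⟩ := Polynomial.lifts_and_natDegree_eq_and_monic
    ((Polynomial.lifts_iff_coeff_lifts p).2 hc) hp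
  exact ⟨q, h2, by rw [← Polynomial.eval_map, h1, h0]⟩

theorem int_mono_Stab {S T L : Type*} [CommRing S] [CommRing T] [Field L] [Algebra S L]
    [Algebra T L] (h : ∀ s, algebraMap S L s ∈ Set.range (algebraMap T L)) {a : L}
    (ha : IsIntegral S a) : IsIntegral T a := by
  obtain ⟨p, h1, h2⟩ := ha
  exact int_coeff_Stab (p.map (algebraMap S L)) (h1.map _)
    (fun i => by rw [Polynomial.coeff_map]; exact h _) (by rwa [Polynomial.eval_map])

theorem mem_val_Stab {S L : Type*} [CommRing S] [Field L] [Algebra S L] (V : ValuationSubring L)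
    (h : ∀ s, algebraMap S L s ∈ V) {a : L} (ha : IsIntegral S a) : a ∈ V := by
  obtain ⟨y, rfl⟩ := (IsIntegrallyClosed.isIntegral_iff (R := V) (K := L)).1
    (int_mono_Stab (T := V) (fun s => ⟨⟨_, h s⟩, rfl⟩) ha)
  exact y.2

theorem over_Stab {K : Type*} [Field K] {A B : ValuationSubring K} {π : K} (hA : Cy.IsPlace A π)
    (h : A ≤ B) : B = A ∨ B = ⊤ := by
  obtain ⟨o, -, h2, h3⟩ := CyV.Ord.exists_ofPlace A hA.ne hA.mem hA.fac
  by_cases hB : B ≤ A
  · exact Or.inl (le_antisymm hB h)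
  obtain ⟨b, hb, hb'⟩ := SetLike.not_le_iff_exists.1 hB
  refine Or.inr (top_unique fun c _ => ?_)
  have hb0 : b ≠ 0 := by
    rintro rfl
    exact hb' A.zero_mem
  have h4 : o.v b < 0 := lt_of_not_ge fun h5 => hb' ((h3 b).2 (Or.inr h5))
  obtain ⟨N, hN⟩ := exists_nat_ge (o.v c / o.v b)
  rw [div_le_iff_of_neg h4] at hN
  have h5 : c / b ^ N ∈ A := by
    rw [h3, CyV.Ord.ge_div_iff (pow_ne_zero _ hb0), o.v_pow _ hb0, zero_add]
    exact Or.inr hN
  rw [← div_mul_cancel₀ c (pow_ne_zero N hb0)]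
  exact B.mul_mem _ _ (h h5) (pow_mem hb N)

theorem frac_Stab {F L : Type*} [Field F] [Field L] [Algebra F L] (C : Subring L) {s : Set L}
    (hF : ∀ c : F, algebraMap F L c ∈ C) (hs : ∀ x ∈ s, ∃ c ∈ C, c ≠ 0 ∧ c * x ∈ C) {x : L}
    (hx : x ∈ IntermediateField.adjoin F s) : ∃ c ∈ C, c ≠ 0 ∧ c * x ∈ C := by
  induction hx using IntermediateField.adjoin_induction with
  | mem x hx => exact hs x hx
  | algebraMap x => exact ⟨1, C.one_mem, one_ne_zero, by simpa using hF x⟩
  | add x y _ _ hx hy =>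
    obtain ⟨c, h1, h2, h3⟩ := hx
    obtain ⟨d, g1, g2, g3⟩ := hy
    exact ⟨c * d, C.mul_mem h1 g1, mul_ne_zero h2 g2, by
      rw [show c * d * (x + y) = d * (c * x) + c * (d * y) by ring]
      exact C.add_mem (C.mul_mem g1 h3) (C.mul_mem h1 g3)⟩
  | inv x _ hx =>
    obtain ⟨c, h1, h2, h3⟩ := hx
    by_cases h0 : x = 0
    · exact ⟨1, C.one_mem, one_ne_zero, by simp [h0]⟩
    · exact ⟨c * x, h3, mul_ne_zero h2 h0, by rwa [mul_inv_cancel_right₀ h0]⟩
  | mul x y _ _ hx hy =>
    obtain ⟨c, h1, h2, h3⟩ := hx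
    obtain ⟨d, g1, g2, g3⟩ := hy
    exact ⟨c * d, C.mul_mem h1 g1, mul_ne_zero h2 g2, by
      rw [show c * d * (x * y) = (c * x) * (d * y) by ring]
      exact C.mul_mem h3 g3⟩

theorem stable_Stab {F L : Type*} [CommRing F] [Field L] [Algebra F L] (D : Derivation F L L)
    {s : Set L} (hs : ∀ x ∈ s, D x ∈ Subring.closure s) :
    ∀ x ∈ Subring.closure s, D x ∈ Subring.closure s := by
  intro x hx
  induction hx using Subring.closure_induction with
  | mem x hx => exact hs x hx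
  | zero => simp
  | one => simp
  | add x y _ _ hx hy => rw [map_add]; exact add_mem hx hy
  | neg x _ hx => rw [map_neg]; exact neg_mem hx
  | mul x y h1 h2 hx hy =>
    rw [D.leibniz, smul_eq_mul, smul_eq_mul]
    exact add_mem (mul_mem h1 hy) (mul_mem h2 hx)

theorem eval_mem_Stab {L : Type*} [Field L] (C : Subring L) {p : Polynomial L} {x : L}
    (φ : L → L) (hp : ∀ i, φ (p.coeff i) ∈ C) (hx : x ∈ C) :
    (p.sum fun i c => φ c * x ^ i) ∈ C :=
  sum_mem fun i _ => mul_mem (hp i) (pow_mem hx i)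

theorem der_eval_Stab {F L : Type*} [CommRing F] [Field L] [Algebra F L] (D : Derivation F L L)
    (p : Polynomial L) (x : L) :
    D (p.eval x) = (p.sum fun i c => D c * x ^ i) + p.derivative.eval x * D x := by
  simpa using CyV.D_aeval D x p

theorem root_Stab {F L : Type*} [Field F] [Field L] [CharZero L] [Algebra F L]
    (D : Derivation F L L) {K L₀ : IntermediateField F L} (hK : K ≤ L₀) (hD : ∀ c ∈ K, D c ∈ L₀)
    {x : L} (hx : x ∈ L₀) (n : ℕ) : ∀ q : Polynomial L, q.natDegree = n → q ≠ 0 →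
      (∀ i, q.coeff i ∈ K) → q.eval x = 0 → D x ∈ L₀ := by
  induction n using Nat.strong_induction_on with
  | _ n ih =>
    intro q hn hq hc h0
    have hc' : ∀ i, q.derivative.coeff i ∈ K := fun i => by
      rw [Polynomial.coeff_derivative]
      exact mul_mem (hc _) (add_mem (natCast_mem K i) K.one_mem)
    by_cases h2 : q.derivative.eval x = 0
    · have h1 : q.natDegree ≠ 0 := by
        intro h1
        rw [Polynomial.eq_C_of_natDegree_eq_zero h1] at h0 hq
        rw [Polynomial.eval_C] at h0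
        exact hq (by rw [h0, map_zero])
      exact ih _ (hn ▸ Polynomial.natDegree_derivative_lt h1) _ rfl
        (fun h => h1 (Polynomial.derivative_eq_zero.1 h)) hc' h2
    · have h1 := der_eval_Stab D q x
      rw [h0, map_zero] at h1
      have h3 : D x = -(q.sum fun i c => D c * x ^ i) / q.derivative.eval x := by
        rw [eq_div_iff h2]
        linear_combination -h1
      rw [h3]
      refine div_mem (neg_mem (eval_mem_Stab L₀.toSubring D (fun i => hD _ (hc i)) hx)) ?_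
      rw [Polynomial.eval_eq_sum]
      exact eval_mem_Stab L₀.toSubring id (fun i => hK (hc' i)) hx

section Loc

variable {F L : Type u} [Field F] [Field L] [Algebra F L] {e : ℕ}

/-- Fractions whose denominator is not divisible by `π`. -/
def Loc_Stab (x : Fin e → L) (π : MvPolynomial (Fin e) F) (r : L) : Prop :=
  ∃ p q : MvPolynomial (Fin e) F, ¬ π ∣ q ∧ r * aeval x q = aeval x p

variable {x : Fin e → L} {π : MvPolynomial (Fin e) F}

theorem aeval_mem_Stab (x : Fin e → L) (p : MvPolynomial (Fin e) F) :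
    aeval x p ∈ IntermediateField.adjoin F (Set.range x) :=
  (IntermediateField.mem_adjoin_range_iff F x _).2 ⟨p, 1, by simp⟩

theorem aeval_ne_Stab (hx : AlgebraicIndependent F x) {q : MvPolynomial (Fin e) F} (hq : q ≠ 0) :
    aeval x q ≠ 0 := fun h => hq (hx (by rw [h, map_zero]))

theorem loc_mem_Stab (hx : AlgebraicIndependent F x) {r : L} (h : Loc_Stab x π r) :
    r ∈ IntermediateField.adjoin F (Set.range x) := by
  obtain ⟨p, q, h1, h2⟩ := h
  exact (IntermediateField.mem_adjoin_range_iff F x _).2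
    ⟨p, q, eq_div_of_mul_eq (aeval_ne_Stab hx (by rintro rfl; simp at h1)) h2⟩

theorem loc_zero_Stab {r : L} (h : r ∈ IntermediateField.adjoin F (Set.range x)) :
    Loc_Stab x (0 : MvPolynomial (Fin e) F) r := by
  obtain ⟨p, q, rfl⟩ := (IntermediateField.mem_adjoin_range_iff F x _).1 h
  by_cases h0 : aeval x q = 0
  · exact ⟨0, 1, by simp, by simp [h0]⟩
  · exact ⟨p, q, by rw [zero_dvd_iff]; rintro rfl; simp at h0, div_mul_cancel₀ _ h0⟩

theorem loc_Oc_Stab (h0 : constantCoeff π = 0) {r : L} (h : r ∈ Oc F x) : Loc_Stab x π r := by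
  obtain ⟨p, q, h1, h2⟩ := h
  exact ⟨p, q, fun ⟨c, hc⟩ => h1 (by rw [hc, map_mul, h0, zero_mul]), h2⟩

theorem place_Stab (hx : AlgebraicIndependent F x) (hπ : Prime π) :
    ∃ A : ValuationSubring (IntermediateField.adjoin F (Set.range x)),
      Cy.IsPlace A ⟨aeval x π, aeval_mem_Stab x π⟩ ∧ ∀ r, r ∈ A ↔ Loc_Stab x π (r : L) := by
  let φ : MvPolynomial (Fin e) F →+* IntermediateField.adjoin F (Set.range x) :=
    (aeval x : MvPolynomial (Fin e) F →ₐ[F] L).toRingHom.codRestrict _ (aeval_mem_Stab x)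
  let := φ.toAlgebra
  have : FaithfulSMul (MvPolynomial (Fin e) F) (IntermediateField.adjoin F (Set.range x)) :=
    (faithfulSMul_iff_algebraMap_injective _ _).2 fun p q h => hx (congrArg Subtype.val h)
  have : IsFractionRing (MvPolynomial (Fin e) F) (IntermediateField.adjoin F (Set.range x)) :=
    IsFractionRing.of_field _ _ fun z => by
      obtain ⟨p, q, h⟩ := (IntermediateField.mem_adjoin_range_iff F x _).1 z.2
      exact ⟨p, q, Subtype.ext h⟩
  obtain ⟨A, h1, h2⟩ := Cy.exists_place_prime (K := IntermediateField.adjoin F (Set.range x)) hπ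
  refine ⟨A, h1, fun r => (h2 r).trans ?_⟩
  exact exists_congr fun p => exists_congr fun q => and_congr Iff.rfl Subtype.ext_iff

theorem prime_origin_Stab (b : MvPolynomial (Fin e) F) : b ≠ 0 → constantCoeff b = 0 →
    ∃ π : MvPolynomial (Fin e) F, Prime π ∧ π ∣ b ∧ constantCoeff π = 0 := by
  induction b using UniqueFactorizationMonoid.induction_on_prime with
  | h₁ => exact fun h => absurd rfl h
  | h₂ b hb => exact fun _ h => absurd h (hb.map constantCoeff).ne_zero
  | h₃ a p ha hp ih =>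
    intro _ h
    rw [map_mul, mul_eq_zero] at h
    rcases h with h | h
    · exact ⟨p, hp, dvd_mul_right _ _, h⟩
    · obtain ⟨π, h1, h2, h3⟩ := ih ha h
      exact ⟨π, h1, h2.mul_left _, h3⟩

theorem mem_Oc_Stab (hx : AlgebraicIndependent F x) {c : L}
    (hc : c ∈ IntermediateField.adjoin F (Set.range x))
    (h : ∀ π : MvPolynomial (Fin e) F, Prime π → constantCoeff π = 0 → Loc_Stab x π c) :
    c ∈ Oc F x := by
  obtain ⟨p, q, h1, h2⟩ := loc_zero_Stab hc
  have hq : q ≠ 0 := fun h0 => h1 (zero_dvd_iff.2 h0)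
  obtain ⟨a, b, d, hab, rfl, rfl⟩ := UniqueFactorizationMonoid.exists_reduced_factors' p q hq
  have hd := aeval_ne_Stab hx (left_ne_zero_of_mul hq)
  have h3 : c * aeval x b = aeval x a := by
    apply mul_left_cancel₀ hd
    rw [← map_mul, ← h2, map_mul]
    ring
  refine ⟨a, b, fun h0 => ?_, h3⟩
  obtain ⟨π, g1, g2, g3⟩ := prime_origin_Stab b (right_ne_zero_of_mul hq) h0
  obtain ⟨p', q', g4, g5⟩ := h π g1 g3
  have g6 : a * q' = p' * b := hx (by
    rw [map_mul, map_mul, ← h3, ← g5]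
    ring)
  exact g1.not_isUnit (hab ((g1.dvd_or_dvd (g6 ▸ g2.mul_left p')).resolve_right g4) g2)

end Loc

theorem isIntegral_of_places {F L : Type u} [Field F] [Field L] [Algebra F L] {e : ℕ}
    (x : Fin e → L) (hx : AlgebraicIndependent F x)
    (halg : ∀ a : L, IsAlgebraic (Algebra.adjoin F (Set.range x)) a) {a : L}
    (h : ∀ π : MvPolynomial (Fin e) F, Prime π → constantCoeff π = 0 →
      ∀ V : ValuationSubring L, (∀ r : L, r ∈ IntermediateField.adjoin F (Set.range x) →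
        (r ∈ V ↔ ∃ p q : MvPolynomial (Fin e) F, ¬ π ∣ q ∧ r * aeval x q = aeval x p)) → a ∈ V) :
    IsIntegral (Oc F x) a := by
  have ha : IsIntegral (IntermediateField.adjoin F (Set.range x)) a :=
    (IntermediateField.isAlgebraic_adjoin_iff.2 (halg a)).isIntegral
  refine int_coeff_Stab ((minpoly (IntermediateField.adjoin F (Set.range x)) a).map
    (algebraMap _ L)) ((minpoly.monic ha).map _) (fun i => ?_)
    (by rw [Polynomial.eval_map, ← Polynomial.aeval_def, minpoly.aeval])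
  rw [Polynomial.coeff_map]
  refine ⟨⟨_, mem_Oc_Stab hx (Subtype.property _) fun π hπ h0 => ?_⟩, rfl⟩
  obtain ⟨A, hA, hA'⟩ := place_Stab hx hπ
  have h1 : a ∈ (integralClosure (Subring.closure (A.toSubring.map (algebraMap _ L) : Set L))
      L).toSubring := by
    rw [← iInf_valuationSubring_superset, Subring.mem_iInf]
    rintro ⟨V, hV⟩
    have h2 : A ≤ V.comap (algebraMap _ L) := fun r hr => hV ⟨r, hr, rfl⟩
    rcases over_Stab hA h2 with h3 | h3
    · refine h π hπ h0 V fun r hr => ?_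
      have := hA' ⟨r, hr⟩
      rwa [← h3] at this
    · exact mem_val_Stab V (fun s => by
        rw [← ValuationSubring.mem_comap, h3]
        exact ValuationSubring.mem_top s) ha
  have h4 : IsIntegral A a := int_mono_Stab (fun s => by
    obtain ⟨s, hs⟩ := s
    rw [Subring.closure_eq] at hs
    obtain ⟨r, hr, rfl⟩ := hs
    exact ⟨⟨r, hr⟩, rfl⟩) (show IsIntegral _ a from h1)
  rw [← hA', minpoly.isIntegrallyClosed_eq_field_fractions' _ h4, Polynomial.coeff_map]
  exact Subtype.property _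

section Der

variable {F L : Type u} [Field F] [Field L] [Algebra F L] {e : ℕ} {x : Fin e → L}
  {π : MvPolynomial (Fin e) F} {D : Derivation F L L} {i : Fin e} {w : L}

theorem der_aeval_Stab (hD : ∀ l, D (x l) = if i = l then w else 0) (p : MvPolynomial (Fin e) F) :
    D (aeval x p) = aeval x (pderiv i p) * w := by
  induction p using MvPolynomial.induction_on with
  | C c => simp
  | add p q hp hq => simp only [map_add, hp, hq, add_mul]
  | mul_X p l hp =>
    rw [map_mul, aeval_X, D.leibniz, hp, hD, Derivation.leibniz, pderiv_X]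
    by_cases h : i = l
    · subst h
      simp
      ring
    · simp [h, Ne.symm h]
      ring

theorem loc_der_Stab (hx : AlgebraicIndependent F x) (hD : ∀ l, D (x l) = if i = l then w else 0)
    (hπ : ∀ q, ¬ π ∣ q → ¬ π ∣ q * q) {r : L} (h : Loc_Stab x π r) :
    ∃ s, Loc_Stab x π s ∧ D r = s * w := by
  obtain ⟨p, q, h1, h2⟩ := h
  have h0 : aeval x q ≠ 0 := aeval_ne_Stab hx (by rintro rfl; simp at h1)
  have h3 := congrArg D h2
  rw [D.leibniz, der_aeval_Stab hD, der_aeval_Stab hD, smul_eq_mul, smul_eq_mul] at h3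
  refine ⟨(aeval x (pderiv i p) - r * aeval x (pderiv i q)) / aeval x q,
    ⟨pderiv i p * q - p * pderiv i q, q * q, hπ q h1, ?_⟩, ?_⟩
  · rw [map_sub, map_mul, map_mul, map_mul, ← h2]
    field_simp
  · rw [div_mul_eq_mul_div, eq_div_iff h0]
    linear_combination h3

theorem logder_Stab (hx : AlgebraicIndependent F x) (hD : ∀ l, D (x l) = if i = l then w else 0)
    {V : ValuationSubring L} {l : Fin e}
    (hV : ∀ r, Loc_Stab x (X l : MvPolynomial (Fin e) F) r → r ∈ V) {r : L}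
    (hr : r ∈ IntermediateField.adjoin F (Set.range x)) :
    ∃ z : ℤ, ∃ s ∈ V, D r / r = z * (D (x l) / x l) + s * w := by
  have key : ∀ p : MvPolynomial (Fin e) F, p ≠ 0 → ∃ z : ℤ, ∃ s ∈ V,
      D (aeval x p) / aeval x p = z * (D (x l) / x l) + s * w := fun p hp => by
    obtain ⟨k, q, h1, rfl⟩ := WfDvdMonoid.max_power_factor' hp (X_prime (i := l)).not_isUnit
    have h2 := aeval_ne_Stab hx (left_ne_zero_of_mul hp)
    have h3 := aeval_ne_Stab hx (right_ne_zero_of_mul hp)
    refine ⟨k, aeval x (pderiv i q) / aeval x q, hV _ ⟨_, q, h1, div_mul_cancel₀ _ h3⟩, ?_⟩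
    rw [map_mul, CyV.ld_mul D h2 h3, map_pow, aeval_X, CyV.ld_pow, der_aeval_Stab hD q]
    push_cast
    ring
  by_cases h0 : r = 0
  · exact ⟨0, 0, V.zero_mem, by simp [h0]⟩
  obtain ⟨p, q, rfl⟩ := (IntermediateField.mem_adjoin_range_iff F x _).1 hr
  obtain ⟨h1, h2⟩ := div_ne_zero_iff.1 h0
  obtain ⟨z, s, hs, e1⟩ := key p (by rintro rfl; simp at h1)
  obtain ⟨z', s', hs', e2⟩ := key q (by rintro rfl; simp at h2)
  refine ⟨z - z', s - s', sub_mem hs hs', ?_⟩
  rw [CyV.ld_div D h1 h2, e1, e2]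
  push_cast
  ring

end Der

section Cases

variable {F L : Type u} [Field F] [CharZero F] [Field L] [Algebra F L] {e n : ℕ} {y : Fin e → L}
  {D : Derivation F L L} {i : Fin e} {V : ValuationSubring L} {L₀ : IntermediateField F L}

theorem of_closure_Stab {ord : Additive Lˣ →+ ℚ} (hV : Cy.IsOrd V ord) {s : Set L}
    (hs : ∀ z ∈ s, z ∈ V) (hD : ∀ z ∈ s, D z ∈ Subring.closure s) {B : Subalgebra F L}
    (hB : ∀ z ∈ B, z ∈ Subring.closure s) {t : Set L} (ht : IntermediateField.adjoin F t = ⊤)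
    (hfr : ∀ z ∈ t, ∃ c ∈ Subring.closure s, c ≠ 0 ∧ c * z ∈ Subring.closure s) {a : L}
    (ha : IsIntegral B a) : D a ∈ V := by
  have hF : ∀ c : F, algebraMap F L c ∈ Subring.closure s := fun c => hB _ (B.algebraMap_mem c)
  have : QAlg (Subring.closure s) := QAlg.of_ringHom ((algebraMap F L).codRestrict _ hF)
  exact derivation_mem_of_isOrd D _ (stable_Stab D hD)
    (fun z => frac_Stab _ hF hfr (ht ▸ IntermediateField.mem_top)) hV
    (fun z hz => (Subring.closure_le (t := V.toSubring)).2 hs hz)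
    (int_mono_Stab (fun b => ⟨⟨b, hB _ b.2⟩, rfl⟩) ha)

theorem case_one_Stab {π : MvPolynomial (Fin e) F} (hπ : Prime π) (h0 : constantCoeff π = 0)
    (hnd : ¬ π ∣ ∏ l, X l) (hx : AlgebraicIndependent F fun l => y l ^ n)
    {ord : Additive Lˣ →+ ℚ} (hV : Cy.IsOrd V ord)
    (hl : ∀ r, Loc_Stab (fun l => y l ^ n) π r → r ∈ V) (hyV : ∀ l, y l ∈ V)
    (hgen : IntermediateField.adjoin F ((L₀ : Set L) ∪ Set.range y) = ⊤) {α : L}
    (hα : L₀ ≤ IntermediateField.adjoin F (insert α (Set.range fun i => y i ^ n)))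
    {f g : Polynomial L} (hf : f.Monic) (hfα : f.eval α = 0)
    (hg : g.eval α * f.derivative.eval α = 1)
    (hfc : ∀ i, ∃ k : ℕ, (∏ l, y l ^ n) ^ k * f.coeff i ∈ Oc F fun l => y l ^ n)
    (hgc : ∀ i, ∃ k : ℕ, (∏ l, y l ^ n) ^ k * g.coeff i ∈ Oc F fun l => y l ^ n)
    (hD : ∀ l, D (y l) = if i = l then 1 else 0)
    (hD' : ∀ l, D (y l ^ n) = if i = l then n * y i ^ (n - 1) else 0) {a : L}
    (ha : IsIntegral (Oc F fun l => y l ^ n) a) : D a ∈ V := by
  have h1 : ∀ c : L, (∃ k : ℕ, (∏ l, y l ^ n) ^ k * c ∈ Oc F fun l => y l ^ n) →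
      Loc_Stab (fun l => y l ^ n) π c := by
    rintro c ⟨k, hk⟩
    obtain ⟨p, q, h2, h3⟩ := loc_Oc_Stab h0 hk
    refine ⟨p, (∏ l, X l) ^ k * q, fun h => ?_, ?_⟩
    · exact (hπ.dvd_or_dvd h).elim (fun h => hnd (hπ.dvd_of_dvd_pow h)) h2
    · rw [← h3, map_mul, map_pow, map_prod]
      simp only [aeval_X]
      ring
  set s : Set L := {r | Loc_Stab (fun l => y l ^ n) π r} ∪ insert α (Set.range y) with hs
  have m1 : ∀ r, Loc_Stab (fun l => y l ^ n) π r → r ∈ Subring.closure s :=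
    fun r hr => Subring.subset_closure (Or.inl hr)
  have m2 : α ∈ Subring.closure s := Subring.subset_closure (Or.inr (Or.inl rfl))
  have m3 : ∀ l, y l ∈ Subring.closure s :=
    fun l => Subring.subset_closure (Or.inr (Or.inr ⟨l, rfl⟩))
  have m4 : ∀ r, Loc_Stab (fun l => y l ^ n) π r → D r ∈ Subring.closure s := fun r hr => by
    obtain ⟨t, h2, h3⟩ := loc_der_Stab hx hD' (fun q hq h => hq ((hπ.dvd_or_dvd h).elim id id)) hr
    rw [h3]
    exact mul_mem (m1 t h2) (mul_mem (natCast_mem _ n) (pow_mem (m3 i) _))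
  have m5 : ∀ z ∈ Oc F fun l => y l ^ n, z ∈ Subring.closure s :=
    fun z hz => m1 z (loc_Oc_Stab h0 hz)
  refine of_closure_Stab hV (s := s) ?_ ?_ m5 hgen ?_ ha
  · rintro z (hz | rfl | ⟨l, rfl⟩)
    · exact hl z hz
    · exact mem_val_Stab (S := V) V (fun v => v.2)
        (int_coeff_Stab f hf (fun j => ⟨⟨_, hl _ (h1 _ (hfc j))⟩, rfl⟩) hfα)
    · exact hyV l
  · rintro z (hz | rfl | ⟨l, rfl⟩)
    · exact m4 z hz
    · have h2 := der_eval_Stab D f z
      rw [hfα, map_zero] at h2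
      have h3 : D z = -(g.eval z * f.sum fun i c => D c * z ^ i) := by
        linear_combination (-D z) * hg - g.eval z * h2
      rw [h3, Polynomial.eval_eq_sum]
      exact neg_mem (mul_mem (eval_mem_Stab _ id (fun j => m1 _ (h1 _ (hgc j))) m2)
        (eval_mem_Stab _ D (fun j => m4 _ (h1 _ (hfc j))) m2))
    · rw [hD]
      split_ifs
      · exact one_mem _
      · exact zero_mem _
  · rintro z (hz | ⟨l, rfl⟩)
    · refine frac_Stab _ (fun c => m5 _ (Subalgebra.algebraMap_mem _ c)) ?_ (hα hz)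
      rintro t (rfl | ⟨l, rfl⟩)
      · exact ⟨1, one_mem _, one_ne_zero, by rwa [one_mul]⟩
      · exact ⟨1, one_mem _, one_ne_zero, by rw [one_mul]; exact pow_mem (m3 l) n⟩
    · exact ⟨1, one_mem _, one_ne_zero, by rw [one_mul]; exact m3 l⟩

theorem case_three_Stab {r : ℕ} (hn : 0 < n) (hr : r.factorial ∣ n) (hX : ∀ i, y i ^ n ∈ L₀)
    (hx : AlgebraicIndependent F fun l => y l ^ n)
    (hdeg : ∀ a ∈ L₀, ∃ p : Polynomial L, p ≠ 0 ∧ p.natDegree ≤ r ∧ p.eval a = 0 ∧
      ∀ i, p.coeff i ∈ IntermediateField.adjoin F (Set.range fun i => y i ^ n))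
    (hgen : IntermediateField.adjoin F ((L₀ : Set L) ∪ Set.range y) = ⊤)
    [Algebra.IsAlgebraic (IntermediateField.adjoin F (Set.range fun i => y i ^ n)) L]
    {A : ValuationSubring (IntermediateField.adjoin F (Set.range fun i => y i ^ n))}
    (hA : Cy.IsPlace A ⟨aeval (fun i => y i ^ n) (X i : MvPolynomial (Fin e) F),
      aeval_mem_Stab _ _⟩)
    (hA' : ∀ r, r ∈ A ↔ Loc_Stab (fun i => y i ^ n) (X i : MvPolynomial (Fin e) F) (r : L))
    (hVA : V.comap (algebraMap _ L) = A)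
    (hl : ∀ r, Loc_Stab (fun l => y l ^ n) (X i : MvPolynomial (Fin e) F) r → r ∈ V)
    (hyV : ∀ l, y l ∈ V) (hD : ∀ l, D (y l) = if i = l then 1 else 0)
    (hD' : ∀ l, D (y l ^ n) = if i = l then n * y i ^ (n - 1) else 0) {a : L}
    (ha : IsIntegral (Oc F fun l => y l ^ n) a) : D a ∈ V := by
  have : CharZero L := charZero_of_injective_algebraMap (algebraMap F L).injective
  have hx0 : ∀ l, y l ^ n ≠ 0 := fun l => by simpa using aeval_ne_Stab hx (X_ne_zero l)
  have hy0 : ∀ l, y l ≠ 0 := fun l h => hx0 l (by rw [h, zero_pow hn.ne'])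
  have hpow : y i * y i ^ (n - 1) = y i ^ n := by rw [← pow_succ', Nat.sub_add_cancel hn]
  have hKL : IntermediateField.adjoin F (Set.range fun i => y i ^ n) ≤ L₀ :=
    IntermediateField.adjoin_le_iff.2 (by rintro _ ⟨l, rfl⟩; exact hX l)
  have hO : ∀ z ∈ Oc F fun l => y l ^ n, Loc_Stab (fun l => y l ^ n)
      (X i : MvPolynomial (Fin e) F) z := fun z hz => loc_Oc_Stab (constantCoeff_X F i) hz
  obtain ⟨o, o1, o2, o3⟩ := hA.exists_ord hVA
  have o1' : o.v (y i ^ n) = 1 := by simpa using o1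
  set E : Derivation F L L := y i • D with hE
  have hE0 : ∀ z, E z = y i * D z := fun z => rfl
  have hE1 : ∀ l, E (y l ^ n) = if i = l then n * y i ^ n else 0 := fun l => by
    rw [hE0, hD']
    split_ifs
    · rw [← hpow]
      ring
    · exact mul_zero _
  have hQ : ∀ q : ℚ, (q : IntermediateField.adjoin F (Set.range fun i => y i ^ n)) ∈ A :=
    fun q => (hA' _).2 (hO _ (by
      simpa using (Oc F fun l => y l ^ n).algebraMap_mem (q : F)))
  have hE2 : ∀ c : IntermediateField.adjoin F (Set.range fun i => y i ^ n),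
      E (algebraMap _ L c) / algebraMap _ L c ∈ V := fun c => by
    obtain ⟨z, s, hs, h⟩ := logder_Stab hx hE1 hl c.2
    change E (c : L) / (c : L) ∈ V
    rw [h, hE1, if_pos rfl, mul_div_cancel_right₀ _ (hx0 i)]
    exact add_mem (mul_mem (intCast_mem _ z) (natCast_mem _ n))
      (mul_mem hs (mul_mem (natCast_mem _ n) (pow_mem (hyV i) n)))
  have hE3 : ∀ c ∈ A, E (algebraMap _ L c) ∈ V.nonunits := fun c hc => by
    obtain ⟨s, hs, h⟩ := loc_der_Stab hx hE1
      (fun q hq h => hq ((X_prime.dvd_or_dvd h).elim id id)) ((hA' c).1 hc)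
    change E (c : L) ∈ V.nonunits
    rw [h, CyV.Ord.mem_nonunits o3]
    exact ((o3 _).1 (hl s hs)).mul_gt₀ ((o.ge_natCast n).mul_gt₀ (Or.inr (by rw [o1']; norm_num)))
  have hE4 : ∀ z, E z / z ∈ V := Cy.small_ext hA hQ hVA E hE2
  have hE5 : ∀ z, z ≠ 0 → o.v z = 0 → o.Gt 0 (E z / z) := fun z hz h => by
    have := Cy.small_res hA hQ hVA E hE2 hE3 (CyV.Ord.toAdd_spec o3)
      (fun u hu => by rw [o.toAdd_apply, hu, o1]) (Units.mk0 z hz)
    rw [o.toAdd_apply, Units.val_mk0, h, Rat.cast_zero, map_zero, zero_mul, sub_zero] at this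
    exact (CyV.Ord.mem_nonunits o3 _).1 this
  have hE6 : ∀ c ∈ L₀, E c ∈ L₀ := fun c hc => by
    obtain ⟨p, h1, -, h2, h3⟩ := hdeg c hc
    refine root_Stab E hKL (fun t ht => ?_) hc _ p rfl h1 h3 h2
    obtain ⟨s, hs, h⟩ := loc_der_Stab hx hE1
      (fun q hq h => hq (zero_dvd_iff.2 (mul_self_eq_zero.1 (zero_dvd_iff.1 h)))) (loc_zero_Stab ht)
    rw [h]
    exact mul_mem (hKL (loc_mem_Stab hx hs)) (mul_mem (natCast_mem _ n) (hX i))
  have hZ : ∀ c ∈ L₀, c ≠ 0 → ∃ k : ℤ, n * o.v c = k := fun c hc h0 => by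
    obtain ⟨p, h1, h4, h2, h3⟩ := hdeg c hc
    exact factorial_mul_ord (CyV.Ord.toAdd_spec o3) p h1
      (fun j u hu => by
        rw [o.toAdd_apply, hu]
        exact o2 ⟨_, h3 j⟩ fun h => u.ne_zero (hu.trans (congrArg Subtype.val h)))
      (Units.mk0 c h0) h2 ((Nat.factorial_dvd_factorial h4).trans hr)
  set N := Submonoid.closure ({c | c ∈ L₀ ∧ c ≠ 0} ∪ Set.range y) with hN
  have n1 : ∀ c ∈ L₀, c ≠ 0 → c ∈ N := fun c h1 h2 => Submonoid.subset_closure (Or.inl ⟨h1, h2⟩)
  have n2 : ∀ l, y l ∈ N := fun l => Submonoid.subset_closure (Or.inr ⟨l, rfl⟩)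
  have n3 : ∀ z ∈ N, z ≠ 0 ∧ (∃ k : ℤ, n * o.v z = k) ∧ E z / z ∈ L₀ := fun z hz => by
    induction hz using Submonoid.closure_induction with
    | mem z hz =>
      rcases hz with hz | ⟨l, rfl⟩
      · exact ⟨hz.2, hZ z hz.1 hz.2, div_mem (hE6 z hz.1) hz.1⟩
      · refine ⟨hy0 l, ?_, ?_⟩
        · rw [← o.v_pow _ (hy0 l)]
          exact o2 ⟨_, IntermediateField.subset_adjoin F _ ⟨l, rfl⟩⟩
            fun h => hx0 l (congrArg Subtype.val h)
        · rw [hE0, hD]
          split_ifs with h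
          · rw [h, mul_one, div_self (hy0 l)]
            exact one_mem _
          · rw [mul_zero, zero_div]
            exact zero_mem _
    | one => exact ⟨one_ne_zero, ⟨0, by simp⟩, by simp⟩
    | mul z t _ _ h1 h2 =>
      obtain ⟨a1, ⟨k, a2⟩, a3⟩ := h1
      obtain ⟨b1, ⟨k', b2⟩, b3⟩ := h2
      refine ⟨mul_ne_zero a1 b1, ⟨k + k', ?_⟩, ?_⟩
      · rw [o.v_mul _ _ a1 b1, mul_add, a2, b2, Int.cast_add]
      · rw [CyV.ld_mul E a1 b1]
        exact add_mem a3 b3
  have m1 : ∀ c ∈ L₀, c ∈ V → c ∈ Subring.closure {z | z ∈ N ∧ z ∈ V} := fun c h1 h2 => by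
    by_cases h0 : c = 0
    · rw [h0]
      exact zero_mem _
    · exact Subring.subset_closure ⟨n1 c h1 h0, h2⟩
  refine of_closure_Stab (CyV.Ord.toAdd_spec o3) (s := {z | z ∈ N ∧ z ∈ V}) (fun z hz => hz.2) ?_
    (fun z hz => m1 z (hKL (loc_mem_Stab hx (hO z hz))) (hl z (hO z hz))) hgen ?_ ha
  · rintro z ⟨h1, h2⟩
    obtain ⟨a1, ⟨k, a2⟩, a3⟩ := n3 z h1
    have e1 : D z = E z / z * z / y i := by
      rw [div_mul_cancel₀ _ a1, hE0, mul_div_cancel_left₀ _ (hy0 i)]
    by_cases h0 : E z / z = 0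
    · rw [e1, h0, zero_mul, zero_div]
      exact zero_mem _
    refine Subring.subset_closure ⟨?_, ?_⟩
    · have e2 : D z = E z / z * z * (y i ^ (n - 1) * (y i ^ n)⁻¹) := by
        rw [e1, ← hpow, mul_inv, mul_left_comm (y i ^ (n - 1)),
          mul_inv_cancel₀ (pow_ne_zero _ (hy0 i)), mul_one, div_eq_mul_inv _ (y i)]
      rw [e2]
      exact mul_mem (mul_mem (n1 _ a3 h0) h1)
        (mul_mem (pow_mem (n2 i) _) (n1 _ (inv_mem (hX i)) (inv_ne_zero (hx0 i))))
    · obtain ⟨k', b2⟩ := hZ _ a3 h0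
      have hn' : (0 : ℚ) < n := by exact_mod_cast hn
      have c1 := ((o3 _).1 h2).le a1
      have c2 := ((o3 _).1 (hE4 z)).le h0
      have c3 : 0 < o.v (E z / z) + o.v z := by
        rcases c1.eq_or_lt with h | h
        · linarith [(hE5 z a1 h.symm).lt h0]
        · linarith
      have c4 : (0 : ℚ) < ((k' + k : ℤ) : ℚ) := by
        rw [Int.cast_add, ← a2, ← b2, ← mul_add]
        exact mul_pos hn' c3
      have c5 : (1 : ℚ) ≤ ((k' + k : ℤ) : ℚ) := by exact_mod_cast c4
      rw [o.v_pow _ (hy0 i)] at o1'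
      rw [e1, o3, CyV.Ord.ge_div_iff (hy0 i), zero_add]
      refine Or.inr (le_of_mul_le_mul_left ?_ hn')
      rw [o1', o.v_mul _ _ h0 a1, mul_add, a2, b2, ← Int.cast_add]
      exact c5
  · rintro z (hz | ⟨l, rfl⟩)
    · by_cases h : z ∈ V
      · exact ⟨1, one_mem _, one_ne_zero, by rw [one_mul]; exact m1 z hz h⟩
      · have h0 : z ≠ 0 := fun h0 => h (h0 ▸ V.zero_mem)
        exact ⟨z⁻¹, m1 _ (inv_mem hz) ((V.mem_or_inv_mem z).resolve_left h), inv_ne_zero h0, by
          rw [inv_mul_cancel₀ h0]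
          exact one_mem _⟩
    · exact ⟨1, one_mem _, one_ne_zero, by
        rw [one_mul]
        exact Subring.subset_closure ⟨n2 l, hyV l⟩⟩

end Cases

theorem derivation_isIntegral {F L : Type u} [Field F] [CharZero F] [Field L] [Algebra F L]
    {e n r : ℕ} (y : Fin e → L) (hy : AlgebraicIndependent F y) (hn : 0 < n)
    (hr : r.factorial ∣ n) (L₀ : IntermediateField F L) (hX : ∀ i, y i ^ n ∈ L₀)
    (hdeg : ∀ a ∈ L₀, ∃ p : Polynomial L, p ≠ 0 ∧ p.natDegree ≤ r ∧ p.eval a = 0 ∧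
      ∀ i, p.coeff i ∈ IntermediateField.adjoin F (Set.range fun i => y i ^ n))
    (hgen : IntermediateField.adjoin F ((L₀ : Set L) ∪ Set.range y) = ⊤) (α : L)
    (hα : L₀ ≤ IntermediateField.adjoin F (insert α (Set.range fun i => y i ^ n)))
    (f g : Polynomial L) (hf : f.Monic) (hfα : f.eval α = 0)
    (hg : g.eval α * f.derivative.eval α = 1)
    (hfc : ∀ i, ∃ k : ℕ, (∏ l, y l ^ n) ^ k * f.coeff i ∈ Oc F fun l => y l ^ n)
    (hgc : ∀ i, ∃ k : ℕ, (∏ l, y l ^ n) ^ k * g.coeff i ∈ Oc F fun l => y l ^ n)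
    (i : Fin e) (D : Derivation F L L) (hD : ∀ l, D (y l) = if i = l then 1 else 0) {a : L}
    (ha : IsIntegral (Oc F fun l => y l ^ n) a) : IsIntegral (Oc F fun l => y l ^ n) (D a) := by
  have : CharZero L := charZero_of_injective_algebraMap (algebraMap F L).injective
  have hx : AlgebraicIndependent F fun l => y l ^ n := by
    simpa using hy.polynomial_aeval_of_transcendental (f := fun _ => Polynomial.X ^ n)
      fun _ => (Polynomial.transcendental_X F).pow hn
  have halg : ∀ z : L, IsAlgebraic (IntermediateField.adjoin F (Set.range fun i => y i ^ n)) z := by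
    intro z
    have h1 : IntermediateField.adjoin F ((L₀ : Set L) ∪ Set.range y) ≤ (algebraicClosure
        (IntermediateField.adjoin F (Set.range fun i => y i ^ n)) L).restrictScalars F := by
      rw [IntermediateField.adjoin_le_iff]
      rintro t (ht | ⟨l, rfl⟩)
      · obtain ⟨p, h1, -, h2, h3⟩ := hdeg t ht
        obtain ⟨q, rfl⟩ := (Polynomial.mem_lifts p).1 ((Polynomial.lifts_iff_coeff_lifts
          (f := algebraMap (IntermediateField.adjoin F (Set.range fun i => y i ^ n)) L) p).2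
          fun j => ⟨⟨_, h3 j⟩, rfl⟩)
        exact mem_algebraicClosure_iff.2 ⟨q, fun h => h1 (by rw [h, Polynomial.map_zero]), by
          rwa [Polynomial.aeval_def, ← Polynomial.eval_map]⟩
      · exact mem_algebraicClosure_iff.2 (IsAlgebraic.of_pow hn (isAlgebraic_algebraMap
          (⟨_, IntermediateField.subset_adjoin F _ ⟨l, rfl⟩⟩ :
            IntermediateField.adjoin F (Set.range fun i => y i ^ n))))
    exact mem_algebraicClosure_iff.1 (h1 (hgen ▸ IntermediateField.mem_top))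
  have : Algebra.IsAlgebraic (IntermediateField.adjoin F (Set.range fun i => y i ^ n)) L := ⟨halg⟩
  have hD' : ∀ l, D (y l ^ n) = if i = l then n * y i ^ (n - 1) else 0 := fun l => by
    rw [D.leibniz_pow, hD]
    split_ifs with h
    · simp [h]
    · simp
  have key : ∀ π : MvPolynomial (Fin e) F, Prime π → constantCoeff π = 0 →
      (¬ π ∣ ∏ l, X l ∨ ∃ l, π = X l) → ∀ V : ValuationSubring L,
      (∀ r : L, r ∈ IntermediateField.adjoin F (Set.range fun i => y i ^ n) →
        (r ∈ V ↔ Loc_Stab (fun i => y i ^ n) π r)) → D a ∈ V := by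
    intro π hπ h0 hc V hV
    obtain ⟨A, hA, hA'⟩ := place_Stab hx hπ
    have hVA : V.comap (algebraMap _ L) = A :=
      ValuationSubring.ext _ _ fun c => (hV c c.2).trans (hA' c).symm
    have hl : ∀ r, Loc_Stab (fun i => y i ^ n) π r → r ∈ V :=
      fun r hr => (hV r (loc_mem_Stab hx hr)).2 hr
    have hyV : ∀ l, y l ∈ V := fun l => mem_val_Stab (S := V) V (fun v => v.2)
      (IsIntegral.of_pow hn (isIntegral_algebraMap (x := (⟨y l ^ n, hl _
        ⟨X l, 1, fun h => hπ.not_isUnit (isUnit_of_dvd_one h), by simp⟩⟩ : V))))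
    rcases hc with hc | ⟨l, rfl⟩
    · obtain ⟨ord, ho, -⟩ := Cy.exists_ord hA hVA
      exact case_one_Stab hπ h0 hc hx ho hl hyV hgen hα hf hfα hg hfc hgc hD hD' ha
    by_cases h : i = l
    · subst h
      exact case_three_Stab hn hr hX hx hdeg hgen hA hA' hVA hl hyV hD hD' ha
    have h1 : D a / a ∈ V := by
      refine Cy.small_ext hA (fun q => (hA' _).2 (loc_Oc_Stab h0 (by
        simpa using (Oc F fun l => y l ^ n).algebraMap_mem (q : F)))) hVA D (fun c => ?_) a
      obtain ⟨z, s, hs, h2⟩ := logder_Stab hx hD' hl c.2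
      change D (c : L) / (c : L) ∈ V
      rw [h2, hD', if_neg h, zero_div, mul_zero, zero_add]
      exact mul_mem hs (mul_mem (natCast_mem _ n) (pow_mem (hyV i) _))
    by_cases h2 : a = 0
    · rw [h2, map_zero]
      exact V.zero_mem
    · rw [← div_mul_cancel₀ (D a) h2]
      exact mul_mem h1 (mem_val_Stab V (fun s => hl _ (loc_Oc_Stab h0 s.2)) ha)
  refine isIntegral_of_places _ hx
    (fun z => IntermediateField.isAlgebraic_adjoin_iff.1 (halg z)) fun π hπ h0 V hV => ?_
  by_cases hc : π ∣ ∏ l, X l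
  · obtain ⟨l, -, hl⟩ := hπ.exists_mem_finset_dvd hc
    have h1 : Associated π (X l) := hπ.associated_of_dvd X_prime hl
    refine key (X l) X_prime (constantCoeff_X F l) (Or.inr ⟨l, rfl⟩) V fun r hr => ?_
    rw [hV r hr]
    exact exists_congr fun p => exists_congr fun q =>
      and_congr (not_congr (h1.dvd_iff_dvd_left)) Iff.rfl
  · exact key π hπ h0 (Or.inl hc) V hV

end

end Pool.Agent.MP_e2821c_ag.Dg
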