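import Pool.Agent.Lib.MP_e2821c_ag.Dg.Chart
import Pool.Agent.Lib.MP_e2821c_ag.Dg.Stab
import Pool.Agent.Lib.MP_e2821c_ag.Dg.Lie

namespace Pool.Agent.MP_e2821c_ag.Dg

open MvPolynomial

universe u v w

noncomputable section

section Aux

variable {F L : Type u} [Field F] [Field L] [Algebra F L]

theorem isLoc_GGa {A O : Subalgebra F L} (h : A ≤ O)
    (hs : ∀ r ∈ O, ∃ s ∈ A, s ≠ 0 ∧ s⁻¹ ∈ O ∧ s * r ∈ A) :
    letI : Algebra A O := (Subalgebra.inclusion h).toRingHom.toAlgebra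
    IsLocalization ((IsUnit.submonoid O).comap (algebraMap A O)) O := by
  letI : Algebra A O := (Subalgebra.inclusion h).toRingHom.toAlgebra
  refine (isLocalization_iff _ _).2 ⟨fun y => y.2, fun z => ?_, fun {a b} hab => ⟨1, ?_⟩⟩
  · obtain ⟨s, hsA, hs0, hsi, hsr⟩ := hs z z.2
    refine ⟨(⟨s * z, hsr⟩, ⟨⟨s, hsA⟩, ?_⟩), Subtype.ext (mul_comm _ _)⟩
    exact IsUnit.of_mul_eq_one ⟨s⁻¹, hsi⟩ (Subtype.ext (mul_inv_cancel₀ hs0))
  · rw [Subalgebra.inclusion_injective h hab]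

theorem isIntegral_mono_GGa {A O : Subalgebra F L} (h : A ≤ O) {c : L} (hc : IsIntegral A c) :
    IsIntegral O c := by
  letI : Algebra A O := (Subalgebra.inclusion h).toRingHom.toAlgebra
  have : IsScalarTower A O L := IsScalarTower.of_algebraMap_eq fun _ => rfl
  exact hc.tower_top

theorem isIntegral_mem_GGa {A : Subalgebra F L} {c : L} (hc : c ∈ A) : IsIntegral A c :=
  isIntegral_algebraMap (R := A) (A := L) (x := ⟨c, hc⟩)

theorem exists_mul_integral_GGa {A O : Subalgebra F L} (h : A ≤ O)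
    (hs : ∀ r ∈ O, ∃ s ∈ A, s ≠ 0 ∧ s⁻¹ ∈ O ∧ s * r ∈ A) {c : L} (hc : IsIntegral O c) :
    ∃ s ∈ A, s ≠ 0 ∧ s⁻¹ ∈ O ∧ IsIntegral A (s * c) := by
  letI : Algebra A O := (Subalgebra.inclusion h).toRingHom.toAlgebra
  have : IsScalarTower A O L := IsScalarTower.of_algebraMap_eq fun _ => rfl
  have := isLoc_GGa h hs
  obtain ⟨⟨m, hm⟩, hmc⟩ := IsIntegral.exists_multiple_integral_of_isLocalization
    ((IsUnit.submonoid O).comap (algebraMap A O)) c hc
  obtain ⟨w, hw⟩ := IsUnit.exists_right_inv (show IsUnit (algebraMap A O m) from hm)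
  have hw' : (m : L) * (w : L) = 1 := congrArg Subtype.val hw
  refine ⟨m, m.2, left_ne_zero_of_mul_eq_one hw', ?_, hmc⟩
  rw [← eq_inv_of_mul_eq_one_right hw']
  exact w.2

theorem essFiniteType_GGa {A O : Subalgebra F L} (h : A ≤ O) (hA : A.FG)
    (hs : ∀ r ∈ O, ∃ s ∈ A, s ≠ 0 ∧ s⁻¹ ∈ O ∧ s * r ∈ A) : Algebra.EssFiniteType F O := by
  letI : Algebra A O := (Subalgebra.inclusion h).toRingHom.toAlgebra
  have : IsScalarTower F A O := IsScalarTower.of_algebraMap_eq fun _ => rfl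
  have := isLoc_GGa h hs
  have : Algebra.FiniteType F A := (Subalgebra.fg_iff_finiteType A).1 hA
  have : Algebra.EssFiniteType A O :=
    Algebra.EssFiniteType.of_isLocalization O ((IsUnit.submonoid O).comap (algebraMap A O))
  exact Algebra.EssFiniteType.comp F A O

theorem restrict_GGa (B : Subalgebra F L) (D : Derivation F L L) (hD : ∀ a ∈ B, D a ∈ B) :
    ∃ P : Derivation F B B, ∀ a : B, (P a : L) = D a :=
  ⟨Derivation.mk'
    { toFun := fun a => ⟨D a, hD a a.2⟩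
      map_add' := fun a b => Subtype.ext (D.map_add a b)
      map_smul' := fun c a => Subtype.ext (D.map_smul c a) }
    fun a b => Subtype.ext (D.leibniz a b), fun _ => rfl⟩

theorem chi_pow_GGa {e : ℕ} (β : Fin e → Lˣ) (n : ℕ) (m : Fin e → ℤ) :
    (chi (fun l => β l ^ n) m : L) = (chi β m : L) ^ n := by
  rw [← Units.val_pow_eq_pow_val]
  congr 1
  unfold chi
  rw [← Finset.prod_pow]
  refine Finset.prod_congr rfl fun l _ => ?_
  change (β l ^ n) ^ m l = _
  rw [← zpow_natCast, ← zpow_natCast, ← zpow_mul, ← zpow_mul, mul_comm]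

theorem indep_pow_GGa {e n : ℕ} {y : Fin e → L} (hy : AlgebraicIndependent F y) (hn : 0 < n) :
    AlgebraicIndependent F fun l => y l ^ n := by
  have h1 := hy.polynomial_aeval_of_transcendental (f := fun _ => Polynomial.X ^ n)
    fun _ => (Polynomial.transcendental_X F).pow hn
  simpa using h1

theorem mem_Oc_GGa {e : ℕ} (X : Fin e → L) (l : Fin e) : X l ∈ Oc F X :=
  ⟨MvPolynomial.X l, 1, by simp, by simp⟩

theorem inv_not_mem_GGa {e : ℕ} {X : Fin e → L} (hX : AlgebraicIndependent F X) (l : Fin e) :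
    (X l)⁻¹ ∉ Oc F X := by
  rintro ⟨p, q, hq, h⟩
  have h0 : X l ≠ 0 := hX.ne_zero l
  have h1 : q = MvPolynomial.X l * p := by
    refine algebraicIndependent_iff_injective_aeval.1 hX ?_
    rw [map_mul, aeval_X, ← h, mul_inv_cancel_left₀ h0]
  rw [h1] at hq
  simp at hq

theorem Oc_le_GGa {e : ℕ} {X : Fin e → L} (hX : AlgebraicIndependent F X)
    (K : IntermediateField F L) (hK : ∀ l, X l ∈ K) : Oc F X ≤ K.toSubalgebra := by
  rintro r ⟨p, q, hq, h⟩
  have h0 : aeval X q ≠ 0 := fun h1 => hq (by rw [hX.eq_zero_of_aeval_eq_zero q h1, map_zero])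
  have hm : ∀ s : MvPolynomial (Fin e) F, aeval X s ∈ K := by
    intro s
    induction s using MvPolynomial.induction_on with
    | C a => simp
    | add f g hf hg => rw [map_add]; exact K.add_mem hf hg
    | mul_X f i hf => rw [map_mul, aeval_X]; exact K.mul_mem hf (hK i)
  rw [eq_div_of_mul_eq h0 h]
  exact K.div_mem (hm p) (hm q)

end Aux

theorem smAt_chart {F L : Type u} [Field F] [CharZero F] [Field L] [Algebra F L] {e n r : ℕ}
    (β : Fin e → Lˣ) (hβ : AlgebraicIndependent F fun l => (β l : L)) (hn : 0 < n)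
    (hr : r.factorial ∣ n) (L₀ : IntermediateField F L) (hX : ∀ l, (β l : L) ^ n ∈ L₀)
    (hdeg : ∀ a ∈ L₀, ∃ p : Polynomial L, p ≠ 0 ∧ p.natDegree ≤ r ∧ p.eval a = 0 ∧
      ∀ i, p.coeff i ∈ IntermediateField.adjoin F (Set.range fun l => (β l : L) ^ n))
    (hgen : IntermediateField.adjoin F ((L₀ : Set L) ∪ Set.range fun l => (β l : L)) = ⊤) (α : L)
    (hα : L₀ ≤ IntermediateField.adjoin F (insert α (Set.range fun l => (β l : L) ^ n)))
    (f g : Polynomial L) (hf : f.Monic) (hfα : f.eval α = 0)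
    (hg : g.eval α * f.derivative.eval α = 1) {S : Finset (Fin e → ℤ)} {v : Fin e → ℤ}
    {x : Module.Basis (Fin e) ℤ (Fin e → ℤ)} (hc : IsChart S v x)
    (hfc : ∀ i, ∃ k : ℕ, (∏ l, (chi (fun l => β l ^ n) (x l) : L)) ^ k * f.coeff i ∈
      Oc F fun l => (chi (fun l => β l ^ n) (x l) : L))
    (hgc : ∀ i, ∃ k : ℕ, (∏ l, (chi (fun l => β l ^ n) (x l) : L)) ^ k * g.coeff i ∈
      Oc F fun l => (chi (fun l => β l ^ n) (x l) : L))
    (B : Subalgebra F L) (hB : ∀ a, a ∈ B ↔ IsIntegral (AS F (fun l => β l ^ n) S) a)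
    (hfg : B.FG) (𝔪 : Ideal B) [𝔪.IsMaximal]
    (h𝔪 : ∀ a : B, (a : L) ∈ AS F (fun l => β l ^ n) S → (a ∉ 𝔪 ↔ (a : L) ≠ 0 ∧
      (a : L)⁻¹ ∈ Oc F fun l => (chi (fun l => β l ^ n) (x l) : L))) : SmAt F e 𝔪 := by
  have hb : AlgebraicIndependent F fun l => ((β l ^ n : Lˣ) : L) := by
    simpa using indep_pow_GGa hβ hn
  have hAO := AS_le_Oc hb hc
  have hAs := fun r => exists_mul_mem_AS hb hc (r := r)
  have hvu := vertex_unit hb hc
  have hadj := adjoin_chi (F := F) (fun l => β l ^ n) x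
  have hadj' := adjoin_chi (F := F) β x
  have hy := algebraicIndependent_chi hβ x
  have htA : (chi (fun l => β l ^ n) v : L) / ∑ m ∈ S, (chi (fun l => β l ^ n) m : L) ∈
      AS F (fun l => β l ^ n) S := Algebra.subset_adjoin ⟨v, hc.1, rfl⟩
  have htX : ∀ l, (chi (fun l => β l ^ n) v : L) / (∑ m ∈ S, (chi (fun l => β l ^ n) m : L)) *
      (chi (fun l => β l ^ n) (x l) : L) ∈ AS F (fun l => β l ^ n) S := by
    intro l
    refine Algebra.subset_adjoin ⟨v + x l, hc.2.1 l, ?_⟩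
    simp only [chi_add, Units.val_mul]
    ring
  generalize (chi (fun l => β l ^ n) v : L) / ∑ m ∈ S, (chi (fun l => β l ^ n) m : L) = t
    at hvu htA htX
  generalize AS F (fun l => β l ^ n) S = A at hB h𝔪 hAO hAs htA htX
  simp only [chi_pow_GGa, Units.val_pow_eq_pow_val] at hfc hgc h𝔪 hAO hAs hvu hadj htX
  generalize hyd : (fun i => (chi β (x i) : L)) = y at hy hadj'
  have hyl : ∀ i, (chi β (x i) : L) = y i := fun i => congrFun hyd i
  simp only [hyl] at hfc hgc h𝔪 hAO hAs hvu hadj htX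
  have hyn := indep_pow_GGa hy hn
  have hX' : ∀ i, y i ^ n ∈ L₀ := by
    intro i
    have h1 : IntermediateField.adjoin F (Set.range fun l => (β l : L) ^ n) ≤ L₀ :=
      IntermediateField.adjoin_le_iff.2 (Set.range_subset_iff.2 hX)
    exact h1 (hadj ▸ IntermediateField.subset_adjoin F _ ⟨i, rfl⟩)
  have hgen' : IntermediateField.adjoin F ((L₀ : Set L) ∪ Set.range y) = ⊤ := by
    rw [eq_top_iff, ← hgen, IntermediateField.adjoin_le_iff]
    refine Set.union_subset
      (Set.subset_union_left.trans (IntermediateField.subset_adjoin F _)) fun a ha => ?_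
    exact IntermediateField.adjoin.mono F _ _ Set.subset_union_right
      (hadj' ▸ IntermediateField.subset_adjoin F _ ha)
  have hα' : L₀ ≤ IntermediateField.adjoin F (insert α (Set.range fun i => y i ^ n)) := by
    refine hα.trans (IntermediateField.adjoin_le_iff.2 (Set.insert_subset
      (IntermediateField.subset_adjoin F _ (Set.mem_insert _ _)) fun a ha => ?_))
    exact IntermediateField.adjoin.mono F _ _ (Set.subset_insert _ _)
      (hadj ▸ IntermediateField.subset_adjoin F _ ha)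
  have hst := derivation_isIntegral y hy hn hr L₀ hX' (hadj ▸ hdeg) hgen' α hα' f g hf hfα hg
    hfc hgc
  obtain ⟨B', hB'⟩ : ∃ B' : Subalgebra F L,
      ∀ c, c ∈ B' ↔ IsIntegral (Oc F fun l => y l ^ n) c :=
    ⟨(integralClosure (Oc F fun l => y l ^ n) L).restrictScalars F, fun _ => Iff.rfl⟩
  have hBB' : B ≤ B' := fun a ha => (hB' a).2 (isIntegral_mono_GGa hAO ((hB a).1 ha))
  have hAB : A ≤ B := fun a ha => (hB a).2 (isIntegral_mem_GGa ha)
  have hOB : (Oc F fun l => y l ^ n) ≤ B' := fun a ha => (hB' a).2 (isIntegral_mem_GGa ha)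
  have hloc : ∀ c ∈ B', ∃ s ∈ A, s ≠ 0 ∧ s⁻¹ ∈ (Oc F fun l => y l ^ n) ∧ s * c ∈ B := by
    intro c hc'
    obtain ⟨s, h1, h2, h3, h4⟩ := exists_mul_integral_GGa hAO hAs ((hB' c).1 hc')
    exact ⟨s, h1, h2, h3, (hB _).2 h4⟩
  have : Algebra.EssFiniteType F B' := essFiniteType_GGa hBB' hfg fun c hc' => by
    obtain ⟨s, h1, h2, h3, h4⟩ := hloc c hc'
    exact ⟨s, hAB h1, h2, hOB h3, h4⟩
  have hyB : ∀ l, y l ∈ B' := fun l => (hB' _).2
    (IsIntegral.of_pow hn (isIntegral_mem_GGa (mem_Oc_GGa (fun l => y l ^ n) l)))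
  let y' : Fin e → B' := fun l => ⟨y l, hyB l⟩
  have hy' : AlgebraicIndependent F y' := AlgebraicIndependent.of_comp B'.val hy
  have halg : ∀ a : B', IsAlgebraic (Algebra.adjoin F (Set.range y')) a := by
    intro a
    have h1 : IsIntegral (IntermediateField.adjoin F (Set.range y)).toSubalgebra (a : L) :=
      isIntegral_mono_GGa (Oc_le_GGa hyn _ fun l =>
        pow_mem (IntermediateField.subset_adjoin F _ (Set.mem_range_self l)) n) ((hB' a).1 a.2)
    have h2 : IsAlgebraic (IntermediateField.adjoin F (Set.range y)) (a : L) := h1.isAlgebraic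
    rw [IntermediateField.isAlgebraic_adjoin_iff] at h2
    have h3 : (Algebra.adjoin F (Set.range y')).map B'.val = Algebra.adjoin F (Set.range y) := by
      rw [AlgHom.map_adjoin, ← Set.range_comp]
      rfl
    rw [← h3] at h2
    exact IsAlgebraic.of_ringHom_of_comp_eq
      (B'.val.subalgebraMap (Algebra.adjoin F (Set.range y'))).toRingHom B'.val.toRingHom h2
      (AlgHom.subalgebraMap_surjective _ _) Subtype.val_injective rfl
  have hP : ∀ i, ∃ P : Derivation F B' B', ∀ l, P (y' l) = if i = l then 1 else 0 := by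
    intro i
    obtain ⟨D, hD⟩ := Cy.exists_derivation y hy fun l => if i = l then 1 else 0
    obtain ⟨P, hP⟩ := restrict_GGa B' D fun a ha => (hB' _).2 (hst i D hD ((hB' a).1 ha))
    refine ⟨P, fun l => Subtype.ext ?_⟩
    rw [hP, hD]
    split_ifs <;> rfl
  choose P hP using hP
  have hzA : ∀ l, (t * y l) ^ n ∈ A := by
    intro l
    obtain ⟨k, rfl⟩ := Nat.exists_eq_succ_of_ne_zero hn.ne'
    rw [mul_pow, pow_succ t, mul_assoc]
    exact mul_mem (pow_mem htA k) (htX l)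
  have hzB : ∀ l, t * y l ∈ B := fun l =>
    (hB _).2 (IsIntegral.of_pow hn (isIntegral_mem_GGa (hzA l)))
  refine smAt_of_local B B' hBB' 𝔪 (fun c hc' => ?_) y' ⟨t, hAB htA⟩ ((h𝔪 _ htA).2 hvu)
    (fun l => ⟨t * y l, hzB l⟩) (fun l => ?_) (fun _ => rfl)
    fun M _ _ _ _ D hD => derivation_eq_zero_of_stable y' hy' halg P hP D hD
  · obtain ⟨s, h1, h2, h3, h4⟩ := hloc c hc'
    exact ⟨⟨s, hAB h1⟩, (h𝔪 _ h1).2 ⟨h2, h3⟩, h4⟩
  · refine Ideal.IsPrime.mem_of_pow_mem inferInstance n ?_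
    by_contra h1
    have h2 := ((h𝔪 _ (hzA l)).1 h1).2
    have h3 := mul_mem (pow_mem (hAO htA) n) h2
    refine inv_not_mem_GGa hyn l ?_
    convert h3 using 1
    change _ = t ^ n * ((t * y l) ^ n)⁻¹
    rw [mul_pow, mul_inv, mul_inv_cancel_left₀ (pow_ne_zero n hvu.1)]

end

end Pool.Agent.MP_e2821c_ag.Dg
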