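import Pool.Agent.Lib.MP_e2821c_ag.Dg.REff

namespace Pool.Agent.MP_e2821c_ag.Dg

open Polynomial

universe u v w

noncomputable section

variable {S S' : Type u} [CommRing S] [CommRing S']

theorem rootSum_add (h p p' : S[X]) : rootSum h (p + p') = rootSum h p + rootSum h p' := by
  simp only [rootSum, add_mul, add_modByMonic, coeff_add]

theorem rootSum_eq_zero_of_dvd {h p : S[X]} (hm : h.Monic) (hp : h ∣ p) : rootSum h p = 0 := by
  rw [rootSum, (modByMonic_eq_zero_iff_dvd hm).2 (hp.mul_right _), coeff_zero]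

theorem map_rootSum {S' : Type v} [CommRing S'] [Nontrivial S'] (φ : S →+* S') {h : S[X]}
    (hm : h.Monic) (p : S[X]) : φ (rootSum h p) = rootSum (h.map φ) (p.map φ) := by
  rw [rootSum, rootSum, ← coeff_map, map_modByMonic φ hm, Polynomial.map_mul, derivative_map,
    hm.natDegree_map]

theorem rootSum_eq_sum_roots {E : Type v} [Field E] {h : E[X]} (hm : h.Monic) (hs : h.Splits)
    (p : E[X]) : rootSum h p = (h.roots.map fun ρ => p.eval ρ).sum := by
  classical
  have e := hs.eq_prod_roots_of_monic hm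
  have hc : h.roots.card = h.natDegree := hs.natDegree_eq_card_roots.symm
  let L : E[X] →+ E := (lcoeff E (h.natDegree - 1)).toAddMonoidHom.comp
    ((modByMonicHom h).toAddMonoidHom.comp (AddMonoidHom.mulLeft p))
  have hL : ∀ q, L q = ((p * q) %ₘ h).coeff (h.natDegree - 1) := fun _ => rfl
  rw [rootSum, ← hL]
  conv_lhs => rw [e, derivative_prod]
  rw [map_multiset_sum, Multiset.map_map]
  refine congrArg _ (Multiset.map_congr rfl fun ρ hρ => ?_)
  set g : E[X] := ((h.roots.erase ρ).map fun a => X - C a).prod with hg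
  have gm : g.Monic := monic_multiset_prod_of_monic _ _ fun a _ => monic_X_sub_C a
  have gd : g.natDegree = h.natDegree - 1 := by
    rw [hg, natDegree_multiset_prod_X_sub_C_eq_card, Multiset.card_erase_of_mem hρ, hc]
    rfl
  have hh : h = (X - C ρ) * g := by
    conv_lhs => rw [e, ← Multiset.cons_erase hρ, Multiset.map_cons, Multiset.prod_cons]
  have hpos : 0 < h.natDegree := hc ▸ Multiset.card_pos_iff_exists_mem.2 ⟨ρ, hρ⟩
  simp only [Function.comp_apply, derivative_X_sub_C, mul_one]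
  rw [hL, ← hg]
  have h1 : (p * g) %ₘ h = C (p.eval ρ) * g := by
    obtain ⟨r, hr⟩ := X_sub_C_dvd_sub_C_eval (p := p) (a := ρ)
    refine (div_modByMonic_unique r _ hm ⟨?_, ?_⟩).2
    · conv_lhs => rw [hh]
      linear_combination (-g) * hr
    · refine lt_of_le_of_lt (degree_le_natDegree) ?_
      rw [degree_eq_natDegree hm.ne_zero, Nat.cast_lt]
      have := natDegree_C_mul_le (p.eval ρ) g
      omega
  rw [h1, coeff_C_mul, ← gd, gm.coeff_natDegree, mul_one]

theorem exists_rootTr {h : S[X]} (hm : h.Monic) :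
    ∃ T : AdjoinRoot h →+ S, ∀ p, T (AdjoinRoot.mk h p) = rootSum h p :=
  ⟨(lcoeff S (h.natDegree - 1)).toAddMonoidHom.comp
    ((AdjoinRoot.modByMonicHom hm).toAddMonoidHom.comp
      (AddMonoidHom.mulRight (AdjoinRoot.mk h (derivative h)))), fun p => by
    change (AdjoinRoot.modByMonicHom hm (AdjoinRoot.mk h p * AdjoinRoot.mk h _)).coeff _ = _
    rw [← map_mul, AdjoinRoot.modByMonicHom_mk]
    rfl⟩

theorem inj_Root (S : Type u) [CommRing S] [IsDomain S] : Function.Injective (iOm S) := by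
  rw [iOm, IsScalarTower.algebraMap_eq S (FractionRing S) (Cy.Om S)]
  exact (algebraMap (FractionRing S) (Cy.Om S)).injective.comp (IsFractionRing.injective S _)

theorem lift_Root {E : Type v} [Field E] (φ : S →+* E) {h : S[X]} {ρ : E}
    (hρ : ρ ∈ (h.map φ).roots) : h.eval₂ φ ρ = 0 := by
  rw [← eval_map]
  exact (mem_roots'.1 hρ).2

theorem trace_Root {E : Type v} [Field E] (φ : S →+* E) {h : S[X]} (hm : h.Monic)
    (hs : (h.map φ).Splits) (T : AdjoinRoot h →+ S)
    (hT : ∀ p, T (AdjoinRoot.mk h p) = rootSum h p) (b : AdjoinRoot h) :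
    φ (T b) = ((h.map φ).roots.attach.map fun ρ =>
      AdjoinRoot.lift φ ρ.1 (lift_Root φ ρ.2) b).sum := by
  obtain ⟨p, rfl⟩ := AdjoinRoot.mk_surjective b
  rw [hT, map_rootSum φ hm, rootSum_eq_sum_roots (hm.map φ) hs]
  simp only [AdjoinRoot.lift_mk, ← eval_map]
  rw [Multiset.attach_map_val' (h.map φ).roots fun ρ => (p.map φ).eval ρ]

theorem rEff_rootTr [IsDomain S] {h : S[X]} (hm : h.Monic) (T : AdjoinRoot h →+ S)
    (hT : ∀ p, T (AdjoinRoot.mk h p) = rootSum h p) : REff h.natDegree T := by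
  have hs : (h.map (iOm S)).Splits := IsAlgClosed.splits _
  refine ⟨Cy.Om S, inferInstance, iOm S, inj_Root S, (h.map (iOm S)).roots.attach.map fun ρ =>
    AdjoinRoot.lift (iOm S) ρ.1 (lift_Root _ ρ.2), ?_, fun b => ?_⟩
  · rw [Multiset.card_map, Multiset.card_attach, ← hs.natDegree_eq_card_roots, hm.natDegree_map]
  · rw [trace_Root _ hm hs T hT, Multiset.map_map]
    rfl

/-- `τ m` is the sum of the `m`-th powers of the roots of `h`. -/
def IsRootPow (h : S[X]) (τ : ℤ → S) : Prop :=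
  ∀ (E : Type u) [Field E] (φ : S →+* E), (h.map φ).Splits →
    ∀ m : ℤ, φ (τ m) = ((h.map φ).roots.map fun ρ => ρ ^ m).sum

theorem exists_isRootPow {h : S[X]} (hm : h.Monic) (hu : IsUnit (h.coeff 0)) :
    ∃ τ, IsRootPow h τ := by
  obtain ⟨T, hT⟩ := exists_rootTr hm
  have h1 : IsUnit (AdjoinRoot.root h) := by
    have h2 : AdjoinRoot.root h * -AdjoinRoot.mk h h.divX = AdjoinRoot.of h (h.coeff 0) := by
      have h3 := congrArg (AdjoinRoot.mk h) (X_mul_divX_add h)
      rw [AdjoinRoot.mk_self, map_add, map_mul, AdjoinRoot.mk_X, AdjoinRoot.mk_C] at h3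
      linear_combination -h3
    exact isUnit_of_mul_isUnit_left (h2 ▸ hu.map _)
  obtain ⟨u, hu'⟩ := h1
  refine ⟨fun m => T (u ^ m : (AdjoinRoot h)ˣ), fun E _ φ hs m => ?_⟩
  rw [trace_Root φ hm hs T hT, ← Multiset.attach_map_val' (h.map φ).roots fun ρ => ρ ^ m]
  refine congrArg _ (Multiset.map_congr rfl fun ρ _ => ?_)
  set e := AdjoinRoot.lift φ ρ.1 (lift_Root φ ρ.2) with he
  have h4 : e (u ^ m : (AdjoinRoot h)ˣ) = (Units.map e.toMonoidHom (u ^ m) : Eˣ) := rfl
  rw [h4, map_zpow, Units.val_zpow_eq_zpow_val]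
  change e u ^ m = _
  rw [hu', he, AdjoinRoot.lift_root]

open Classical in
/-- The character `m ↦ ρ ^ m`. -/
def chr_Root {E : Type v} [Field E] (ρ : E) : AddChar ℤ E :=
  if h : ρ = 0 then 1 else
    { toFun := fun m => ρ ^ m
      map_zero_eq_one' := zpow_zero ρ
      map_add_eq_mul' := zpow_add₀ h }

theorem chr_apply_Root {E : Type v} [Field E] {ρ : E} (h : ρ ≠ 0) (m : ℤ) :
    chr_Root ρ m = ρ ^ m := by
  rw [chr_Root, dif_neg h]
  rfl

theorem ne_zero_Root {E : Type v} [Field E] (φ : S →+* E) {h : S[X]} (hu : IsUnit (h.coeff 0))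
    {ρ : E} (hρ : ρ ∈ (h.map φ).roots) : ρ ≠ 0 := by
  rintro rfl
  have := (mem_roots'.1 hρ).2
  rw [IsRoot.def, ← coeff_zero_eq_eval_zero, coeff_map] at this
  exact (hu.map φ).ne_zero this

theorem sum_chr_Root [IsDomain S] {h : S[X]} (hu : IsUnit (h.coeff 0)) {τ : ℤ → S}
    (hτ : IsRootPow h τ) (m : ℤ) :
    iOm S (τ m) = (((h.map (iOm S)).roots.map chr_Root).map fun ψ => ψ m).sum := by
  rw [hτ _ _ (IsAlgClosed.splits _), Multiset.map_map]
  exact congrArg _ (Multiset.map_congr rfl fun ρ hρ =>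
    (chr_apply_Root (ne_zero_Root _ hu hρ) m).symm)

theorem IsRootPow.eff [IsDomain S] {h : S[X]} (hm : h.Monic) (hu : IsUnit (h.coeff 0))
    {τ : ℤ → S} (hτ : IsRootPow h τ) : Eff h.natDegree τ := by
  refine ⟨Cy.Om S, inferInstance, iOm S, inj_Root S, (h.map (iOm S)).roots.map chr_Root, ?_,
    sum_chr_Root hu hτ⟩
  rw [Multiset.card_map, ← (IsAlgClosed.splits _).natDegree_eq_card_roots, hm.natDegree_map]

theorem IsRootPow.unique [IsDomain S] {h : S[X]} {τ τ' : ℤ → S} (hτ : IsRootPow h τ)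
    (hτ' : IsRootPow h τ') : τ = τ' :=
  funext fun m => inj_Root S
    ((hτ _ _ (IsAlgClosed.splits _) m).trans (hτ' _ _ (IsAlgClosed.splits _) m).symm)

theorem IsRootPow.map {h : S[X]} {τ : ℤ → S} (hτ : IsRootPow h τ) (f : S →+* S') :
    IsRootPow (h.map f) fun m => f (τ m) := fun E _ φ hs m => by
  rw [Polynomial.map_map] at hs ⊢
  exact hτ E (φ.comp f) hs m

theorem isRootPow_two (a b : Sˣ) :
    IsRootPow ((X - C (a : S)) * (X - C (b : S))) fun m => ((a ^ m : Sˣ) : S) + (b ^ m : Sˣ) := by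
  intro E _ φ _ m
  have key : ∀ c : Sˣ, φ (c ^ m : Sˣ) = φ c ^ m := fun c => by
    have h4 : φ (c ^ m : Sˣ) = (Units.map φ.toMonoidHom (c ^ m) : Eˣ) := rfl
    rw [h4, map_zpow, Units.val_zpow_eq_zpow_val]
    rfl
  rw [Polynomial.map_mul, Polynomial.map_sub, Polynomial.map_sub, map_X, map_C, map_C,
    roots_mul (mul_ne_zero (X_sub_C_ne_zero _) (X_sub_C_ne_zero _)), roots_X_sub_C, roots_X_sub_C,
    map_add, key, key]
  simp

theorem Eff.exists_isRootPow [QAlg S] {d : ℕ} {τ : ℤ → S} (h : Eff d τ) :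
    ∃ p : S[X], p.Monic ∧ p.natDegree = d ∧ IsUnit (p.coeff 0) ∧ IsRootPow p τ := by
  have := h.isDomain
  obtain ⟨s, hs, -, hτ⟩ := h.master (iOm S)
  have hne : ∀ ψ : AddChar ℤ (Cy.Om S), ψ 1 * ψ (-1) = 1 := fun ψ => by
    rw [← AddChar.map_add_eq_mul, add_neg_cancel, AddChar.map_zero_eq_one]
  have es : ∀ (γ : ℤ) (k : ℕ), (s.map fun ψ => ψ γ).esymm k ∈ (iOm S).range := fun γ k => by
    refine esymm_mem_of_psum (iOm S).range _ (fun j _ => RingHom.mem_range.2 ⟨τ (j • γ), ?_⟩) k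
    rw [hτ, Multiset.map_map]
    exact congrArg _ (Multiset.map_congr rfl fun ψ _ => AddChar.map_nsmul_eq_pow ψ j γ)
  set t := s.map fun ψ => ψ 1 with ht
  have hc : t.card = d := by rw [ht, Multiset.card_map, hs]
  set P : (Cy.Om S)[X] := (t.map fun a => X - C a).prod with hP
  have Pm : P.Monic := monic_multiset_prod_of_monic _ _ fun a _ => monic_X_sub_C a
  have Pd : P.natDegree = d := by rw [hP, natDegree_multiset_prod_X_sub_C_eq_card, hc]
  have Pl : P ∈ lifts (iOm S) := by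
    rw [lifts_iff_coeff_lifts]
    intro k
    by_cases hk : k ≤ t.card
    · rw [hP, Multiset.prod_X_sub_C_coeff t hk]
      exact (iOm S).range.mul_mem (pow_mem (neg_mem (one_mem _)) _) (es 1 _)
    · rw [coeff_eq_zero_of_natDegree_lt (by omega)]
      exact ⟨0, map_zero _⟩
  obtain ⟨p, hp1, hp2, hp3⟩ := lifts_and_natDegree_eq_and_monic Pl Pm
  have top : ∀ m : Multiset (Cy.Om S), m.esymm m.card = m.prod := fun m => by
    rw [Multiset.esymm, Multiset.powersetCard_self, Multiset.map_singleton, Multiset.sum_singleton]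
  have hu : IsUnit (p.coeff 0) := by
    obtain ⟨r, hr⟩ := es (-1) (s.map fun ψ => ψ (-1)).card
    refine IsUnit.of_mul_eq_one ((-1) ^ d * r) (inj_Root S ?_)
    rw [map_mul, ← coeff_map, hp1, hP, Multiset.prod_X_sub_C_coeff t (Nat.zero_le _), map_mul, hr,
      Nat.sub_zero, top, top, hc, map_pow, map_neg, map_one, mul_mul_mul_comm, ← mul_pow, ht,
      ← Multiset.prod_map_mul]
    simp [hne]
  obtain ⟨τ', h'⟩ := Dg.exists_isRootPow hp3 hu
  refine ⟨p, hp3, hp2.trans Pd, hu, ?_⟩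
  have : τ = τ' := funext fun m => inj_Root S (by
    rw [h' _ _ (IsAlgClosed.splits _), hp1, hP, roots_multiset_prod_X_sub_C, hτ, ht,
      Multiset.map_map]
    refine congrArg _ (Multiset.map_congr rfl fun ψ _ => ?_)
    have h0 : ψ 1 ≠ 0 := left_ne_zero_of_mul_eq_one (hne ψ)
    simp only [Function.comp_apply]
    induction m using Int.induction_on with
    | zero => rw [zpow_zero, AddChar.map_zero_eq_one]
    | succ i ih => rw [AddChar.map_add_eq_mul, ih, zpow_add_one₀ h0]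
    | pred i ih =>
      rw [sub_eq_add_neg, AddChar.map_add_eq_mul, ih, zpow_add₀ h0, zpow_neg_one,
        eq_inv_of_mul_eq_one_right (hne ψ)])
  rwa [this]

theorem IsRootPow.poly_unique [IsDomain S] [QAlg S] {p p' : S[X]} (hm : p.Monic) (hm' : p'.Monic)
    (hu : IsUnit (p.coeff 0)) (hu' : IsUnit (p'.coeff 0)) {τ : ℤ → S} (h : IsRootPow p τ)
    (h' : IsRootPow p' τ) : p = p' := by
  have : QAlg (Cy.Om S) := QAlg.of_ringHom (iOm S)
  have : CharZero (Cy.Om S) := QAlg.charZero _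
  have h1 := dedekind_multiset fun m => (sum_chr_Root hu h m).symm.trans (sum_chr_Root hu' h' m)
  have key : ∀ q : S[X], IsUnit (q.coeff 0) →
      ((q.map (iOm S)).roots.map chr_Root).map (fun ψ => ψ 1) = (q.map (iOm S)).roots :=
    fun q hq => by
      rw [Multiset.map_map]
      conv_rhs => rw [← Multiset.map_id (q.map (iOm S)).roots]
      exact Multiset.map_congr rfl fun ρ hρ =>
        (chr_apply_Root (ne_zero_Root _ hq hρ) 1).trans (zpow_one ρ)
  have h2 : (p.map (iOm S)).roots = (p'.map (iOm S)).roots := by rw [← key p hu, h1, key p' hu']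
  apply map_injective _ (inj_Root S)
  rw [(IsAlgClosed.splits (p.map (iOm S))).eq_prod_roots_of_monic (hm.map _), h2,
    ← (IsAlgClosed.splits (p'.map (iOm S))).eq_prod_roots_of_monic (hm'.map _)]

end

end Pool.Agent.MP_e2821c_ag.Dg
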