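import Pool.Agent.Lib.MP_e2821c_ag.Dg.Canc
import Pool.Agent.Lib.MP_e2821c_ag.Dg.Root
import Pool.Agent.Lib.MP_e2821c_ag.Dg.Simp

namespace Pool.Agent.MP_e2821c_ag.Dg

open Polynomial

universe u v w

noncomputable section

section Lam

variable {E : Type u} [Field E] (P : E[X]) {S S' : Type u} [CommRing S] [CommRing S']

/-- `e` is the evaluation at `ρ` along `ψ`. -/
def IsEv_II0 (ψ : E →+* S) (ρ : S) (e : Localization.Away P →+* S) : Prop :=
  (∀ c, e (algebraMap E[X] _ (C c)) = ψ c) ∧ e (algebraMap E[X] _ X) = ρ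

variable {P}

theorem IsEv_II0.unique {ψ : E →+* S} {ρ : S} {e e' : Localization.Away P →+* S}
    (h : IsEv_II0 P ψ ρ e) (h' : IsEv_II0 P ψ ρ e') : e = e' := by
  refine IsLocalization.ringHom_ext (Submonoid.powers P) (Polynomial.ringHom_ext (fun c => ?_) ?_)
  · exact (h.1 c).trans (h'.1 c).symm
  · exact h.2.trans h'.2.symm

theorem IsEv_II0.comp {ψ : E →+* S} {ρ : S} {e : Localization.Away P →+* S}
    (h : IsEv_II0 P ψ ρ e) (f : S →+* S') : IsEv_II0 P (f.comp ψ) (f ρ) (f.comp e) :=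
  ⟨fun c => congrArg f (h.1 c), congrArg f h.2⟩

theorem IsEv_II0.apply {ψ : E →+* S} {ρ : S} {e : Localization.Away P →+* S}
    (h : IsEv_II0 P ψ ρ e) (p : E[X]) : e (algebraMap E[X] _ p) = p.eval₂ ψ ρ := by
  have : e.comp (algebraMap E[X] _) = eval₂RingHom ψ ρ :=
    Polynomial.ringHom_ext (fun c => by simpa using h.1 c) (by simpa using h.2)
  exact DFunLike.congr_fun this p

theorem exists_isEv_II0 (ψ : E →+* S) (ρ : S) (h : IsUnit (P.eval₂ ψ ρ)) :
    ∃ e, IsEv_II0 P ψ ρ e :=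
  ⟨IsLocalization.Away.lift P (g := eval₂RingHom ψ ρ) h,
    fun c => (IsLocalization.Away.lift_eq P (g := eval₂RingHom ψ ρ) h _).trans (by simp),
    (IsLocalization.Away.lift_eq P (g := eval₂RingHom ψ ρ) h _).trans (by simp)⟩

variable (P) in
open scoped Classical in
/-- Evaluation at `ρ` as a total function. -/
def evR_II0 (ψ : E →+* S) (ρ : S) (x : Localization.Away P) : S :=
  if h : ∃ e, IsEv_II0 P ψ ρ e then h.choose x else 0

theorem IsEv_II0.evR {ψ : E →+* S} {ρ : S} {e : Localization.Away P →+* S}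
    (h : IsEv_II0 P ψ ρ e) (x : Localization.Away P) : evR_II0 P ψ ρ x = e x := by
  have h1 : ∃ e, IsEv_II0 P ψ ρ e := ⟨e, h⟩
  rw [evR_II0, dif_pos h1, h1.choose_spec.unique h]

variable (P) in
/-- `l` is the sum of the evaluations at the roots of `h`. -/
def IsLam_II0 (ψ : E →+* S) (h : S[X]) (l : Localization.Away P →+ S) : Prop :=
  ∀ (F : Type u) [Field F] (φ : S →+* F), (h.map φ).Splits →
    ∀ x, φ (l x) = ((h.map φ).roots.map fun ρ => evR_II0 P (φ.comp ψ) ρ x).sum

theorem IsLam_II0.unique [IsDomain S] {ψ : E →+* S} {h : S[X]}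
    {l l' : Localization.Away P →+ S} (H : IsLam_II0 P ψ h l) (H' : IsLam_II0 P ψ h l') :
    l = l' := by
  have hi : Function.Injective (iOm S) := by
    intro a b h'
    rw [IsScalarTower.algebraMap_apply S (FractionRing S) (Cy.Om S),
      IsScalarTower.algebraMap_apply S (FractionRing S) (Cy.Om S)] at h'
    exact IsFractionRing.injective S (FractionRing S) ((algebraMap _ (Cy.Om S)).injective h')
  ext x
  refine hi ?_
  rw [H _ (iOm S) (IsAlgClosed.splits _), H' _ (iOm S) (IsAlgClosed.splits _)]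

theorem IsLam_II0.map {ψ : E →+* S} {h : S[X]} {l : Localization.Away P →+ S}
    (H : IsLam_II0 P ψ h l) (f : S →+* S') :
    IsLam_II0 P (f.comp ψ) (h.map f) (f.toAddMonoidHom.comp l) := by
  intro F _ φ hs x
  rw [Polynomial.map_map] at hs ⊢
  exact H F (φ.comp f) hs x

theorem IsLam_II0.mul {ψ : E →+* S} {h h' : S[X]} {l l' : Localization.Away P →+ S}
    (H : IsLam_II0 P ψ h l) (H' : IsLam_II0 P ψ h' l') (hm : h.Monic) (hm' : h'.Monic) :
    IsLam_II0 P ψ (h * h') (l + l') := by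
  intro F _ φ hs x
  have h0 := (hm.map φ).ne_zero
  have h0' := (hm'.map φ).ne_zero
  rw [Polynomial.map_mul] at hs ⊢
  obtain ⟨h1, h2⟩ := (splits_mul h0 h0').1 hs
  rw [roots_mul (mul_ne_zero h0 h0'), Multiset.map_add, Multiset.sum_add, ← H F φ h1,
    ← H' F φ h2, AddMonoidHom.add_apply, map_add]

theorem IsEv_II0.isLam {ψ : E →+* S} {ρ : S} {e : Localization.Away P →+* S}
    (h : IsEv_II0 P ψ ρ e) : IsLam_II0 P ψ (X - C ρ) e.toAddMonoidHom := by
  intro F _ φ _ x
  rw [Polynomial.map_sub, map_X, map_C, roots_X_sub_C, Multiset.map_singleton,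
    Multiset.sum_singleton, (h.comp φ).evR]
  rfl

end Lam

section Exist

variable {E : Type u} [Field E] {n : ℕ} (a : Fin n → E) {S S' : Type u} [CommRing S] [CommRing S']

theorem exists_isLam_II0 [IsDomain S] (ψ : E →+* S) {h : S[X]} (hm : h.Monic)
    (hu : ∀ i, IsUnit (h.eval (ψ (a i)))) :
    ∃ l, REff h.natDegree l ∧ IsLam_II0 (∏ i, (X - C (a i))) ψ h l := by
  obtain ⟨j, hj⟩ := exists_isEv_II0 (P := ∏ i, (X - C (a i))) ((AdjoinRoot.of h).comp ψ)
    (AdjoinRoot.root h) (by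
      rw [eval₂_finsetProd, IsUnit.prod_univ_iff]
      intro i
      obtain ⟨r, hr⟩ := X_sub_C_dvd_sub_C_eval (p := h) (a := ψ (a i))
      have h1 := congrArg (AdjoinRoot.mk h) hr
      rw [map_sub, AdjoinRoot.mk_self, AdjoinRoot.mk_C, map_mul, map_sub, AdjoinRoot.mk_X,
        AdjoinRoot.mk_C, zero_sub] at h1
      rw [eval₂_sub, eval₂_X, eval₂_C, RingHom.comp_apply]
      refine isUnit_of_mul_isUnit_left (y := AdjoinRoot.mk h r) ?_
      rw [← h1]
      exact ((hu i).map _).neg)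
  obtain ⟨T, hT⟩ := exists_rootTr hm
  refine ⟨T.comp j.toAddMonoidHom, (rEff_rootTr hm T hT).comp_ringHom j, fun F _ φ hs x => ?_⟩
  obtain ⟨p, hp⟩ := AdjoinRoot.mk_surjective (j x)
  have h1 : (T.comp j.toAddMonoidHom) x = rootSum h p := by
    rw [← hT, hp]
    rfl
  rw [h1, map_rootSum φ hm, rootSum_eq_sum_roots (hm.map φ) hs]
  refine congrArg Multiset.sum (Multiset.map_congr rfl fun ρ hρ => ?_)
  have h2 : h.eval₂ φ ρ = 0 := by
    rw [← eval_map]
    exact (mem_roots (hm.map φ).ne_zero).1 hρ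
  have h3 := hj.comp (AdjoinRoot.lift φ ρ h2)
  rw [AdjoinRoot.lift_root, ← RingHom.comp_assoc, AdjoinRoot.lift_comp_of] at h3
  rw [h3.evR, RingHom.comp_apply, ← hp, AdjoinRoot.lift_mk, eval_map]

/-- The monic polynomial of degree `n` with values `v`. -/
def hv_II0 (ψ : E →+* S) (v : Fin n → S) : S[X] :=
  (∏ i, (X - C (a i))).map ψ + ∑ i, C (v i) * (Lagrange.basis Finset.univ a i).map ψ

theorem map_hv_II0 (ψ : E →+* S) (v : Fin n → S) (f : S →+* S') :
    (hv_II0 a ψ v).map f = hv_II0 a (f.comp ψ) fun i => f (v i) := by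
  simp only [hv_II0, Polynomial.map_add, Polynomial.map_sum, Polynomial.map_mul, map_C,
    Polynomial.map_map]

variable {a}

theorem eval_hv_II0 (ha : Function.Injective a) (ψ : E →+* S) (v : Fin n → S) (j : Fin n) :
    (hv_II0 a ψ v).eval (ψ (a j)) = v j := by
  have h1 : (∏ i, (X - C (a i))).eval (a j) = 0 := by
    rw [eval_prod]
    exact Finset.prod_eq_zero (Finset.mem_univ j) (by simp)
  rw [hv_II0, eval_add, eval_map, eval₂_at_apply, h1, map_zero, zero_add, eval_finsetSum,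
    Finset.sum_eq_single j]
  · rw [eval_mul, eval_C, eval_map, eval₂_at_apply,
      Lagrange.eval_basis_self ha.injOn (Finset.mem_univ j), map_one, mul_one]
  · intro i _ hij
    rw [eval_mul, eval_map, eval₂_at_apply, Lagrange.eval_basis_of_ne hij (Finset.mem_univ j),
      map_zero, mul_zero]
  · exact fun h => absurd (Finset.mem_univ j) h

theorem monic_hv_II0 [Nontrivial S] (ha : Function.Injective a) (ψ : E →+* S) (v : Fin n → S) :
    (hv_II0 a ψ v).Monic ∧ (hv_II0 a ψ v).degree = n := by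
  have hm : (∏ i, (X - C (a i)) : E[X]).Monic :=
    monic_prod_of_monic _ _ fun i _ => monic_X_sub_C _
  have hd : ((∏ i, (X - C (a i)) : E[X]).map ψ).degree = n := by
    rw [hm.degree_map, degree_prod]
    simp
  have hlt : (∑ i, C (v i) * (Lagrange.basis Finset.univ a i).map ψ).degree <
      ((∏ i, (X - C (a i)) : E[X]).map ψ).degree := by
    rw [hd]
    refine (degree_sum_le _ _).trans_lt ((Finset.sup_lt_iff (WithBot.bot_lt_coe n)).2
      fun i _ => ?_)
    rw [← smul_eq_C_mul]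
    refine ((degree_smul_le _ _).trans degree_map_le).trans_lt ?_
    rw [Lagrange.degree_basis ha.injOn (Finset.mem_univ i), Finset.card_univ, Fintype.card_fin]
    have := i.pos
    exact WithBot.coe_lt_coe.2 (by omega : n - 1 < n)
  exact ⟨(hm.map ψ).add_of_left hlt, by rw [hv_II0, degree_add_eq_left_of_degree_lt hlt, hd]⟩

end Exist

section Main

variable {E K : Type u} [Field E] [CharZero E] [Field K] [CharZero K] {n : ℕ} {a : Fin n → E}
  {ψ : E →+* K} {q : ℕ} {w : Xq G2 (Localization.Away (∏ i, (X - C (a i)) : E[X])) (q + 1)}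

theorem bd_hom_II0 (hw : w ∈ CR ⊤ (q + 1)) (hc : dX _ q w = 0) {h h' : K[X]} (hm : h.Monic)
    (hm' : h'.Monic) (hd : h.degree = h'.degree) (he : ∀ i, h.eval (ψ (a i)) = h'.eval (ψ (a i)))
    (hu : ∀ i, h'.eval (ψ (a i)) ≠ 0) {l l' : Localization.Away (∏ i, (X - C (a i))) →+ K}
    (H : IsLam_II0 _ ψ h l) (H' : IsLam_II0 _ ψ h' l') :
    Bd ⊤ (push l (q + 1) w - push l' (q + 1) w) := by
  have hlt : (C (X : K[X]) * (h - h').map C).degree < (h'.map (C : K →+* K[X])).degree := by
    rw [← smul_eq_C_mul, hm'.degree_map, ← hd]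
    refine ((degree_smul_le _ _).trans degree_map_le).trans_lt ?_
    exact degree_sub_lt_left hd hm.ne_zero (by rw [hm.leadingCoeff, hm'.leadingCoeff])
  obtain ⟨L, hL, hL'⟩ := exists_isLam_II0 a ((C : K →+* K[X]).comp ψ)
    ((hm'.map C).add_of_left hlt) fun i => by
      rw [RingHom.comp_apply, eval_add, eval_mul, eval_map, eval_map, eval₂_at_apply,
        eval₂_at_apply, eval_sub, he, sub_self, map_zero, mul_zero, add_zero]
      exact (IsUnit.mk0 _ (hu i)).map _
  have key : ∀ t : K, IsLam_II0 _ ψ (h' + C t * (h - h'))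
      ((evalRingHom t).toAddMonoidHom.comp L) := fun t => by
    have h1 := hL'.map (evalRingHom t)
    have h2 : (evalRingHom t).comp (C : K →+* K[X]) = RingHom.id K := by
      ext x
      simp
    rwa [← RingHom.comp_assoc, h2, RingHom.id_comp, Polynomial.map_add, Polynomial.map_mul,
      Polynomial.map_map, Polynomial.map_map, h2, Polynomial.map_id, Polynomial.map_id, map_C,
      coe_evalRingHom, eval_X] at h1
  have h1 := key 1
  have h0 := key 0
  rw [C_1, one_mul, add_sub_cancel] at h1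
  rw [C_0, zero_mul, add_zero] at h0
  rw [H.unique h1, H'.unique h0]
  exact bd_homotopy hL.rCorr hw.1 hc

theorem bd_step_II0 (ha : Function.Injective a) (hw : w ∈ CR ⊤ (q + 1)) (hc : dX _ q w = 0)
    (v : Fin n → Kˣ) (i : Fin n) {l l' : Localization.Away (∏ i, (X - C (a i))) →+ K}
    (H : IsLam_II0 _ ψ (hv_II0 a ψ fun j => v j) l)
    (H' : IsLam_II0 _ ψ (hv_II0 a ψ fun j => (Function.update v i 1 j : Kˣ)) l') :
    Bd ⊤ (push l (q + 1) w - push l' (q + 1) w) := by
  let v' : Fin n → Lau K := fun j =>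
    if j = i then AddMonoidAlgebra.single 1 1 else algebraMap K (Lau K) (v j)
  obtain ⟨L, hL, hL'⟩ := exists_isLam_II0 a ((algebraMap K (Lau K)).comp ψ)
    (monic_hv_II0 ha _ v').1 fun j => by
      rw [eval_hv_II0 ha]
      simp only [v']
      split_ifs
      · refine IsUnit.of_mul_eq_one (AddMonoidAlgebra.single (-1) 1) ?_
        rw [AddMonoidAlgebra.single_mul_single, add_neg_cancel, mul_one]
        rfl
      · exact (v j).isUnit.map _
  have hid : ∀ b : Kˣ, (evL b).toRingHom.comp (algebraMap K (Lau K)) = RingHom.id K := fun b =>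
    RingHom.ext fun x => (evL b).commutes x
  have key : ∀ b : Kˣ, IsLam_II0 _ ψ (hv_II0 a ψ fun j => (Function.update v i b j : Kˣ))
      ((evL b).toRingHom.toAddMonoidHom.comp L) := fun b => by
    have h1 := hL'.map (evL b).toRingHom
    have h2 : (fun j => (evL b).toRingHom (v' j)) = fun j => ((Function.update v i b j : Kˣ) : K) := by
      funext j
      simp only [v']
      split_ifs with hj
      · rw [hj, Function.update_self]
        exact (evL_single b 1 1).trans (by simp)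
      · rw [Function.update_of_ne hj]
        exact (evL b).commutes _
    rwa [map_hv_II0, ← RingHom.comp_assoc, hid, RingHom.id_comp, h2] at h1
  have h1 := key (v i)
  rw [Function.update_eq_self] at h1
  rw [H.unique h1, H'.unique (key 1), ← push_push, ← push_push]
  have hW : push L (q + 1) w ∈ CR ⊤ (q + 1) :=
    ⟨push_mem_of_rEff hL (fun _ _ => Subring.mem_top _) hw.1, Red.push hw.2 _⟩
  have hWc : dX _ q (push L (q + 1) w) = 0 := by rw [← push_dX, hc, map_zero]
  generalize push L (q + 1) w = W at hW hWc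
  have hp : ∀ b : Kˣ, pushR (evL b).toRingHom (q + 1) (pushR (algebraMap K (Lau K)) (q + 1)
      (pushR (evL (1 : Kˣ)).toRingHom (q + 1) W)) = pushR (evL (1 : Kˣ)).toRingHom (q + 1) W :=
    fun b => by
      rw [pushR_pushR (algebraMap K (Lau K)), hid]
      exact push_id _ _
  have h2 := canc (W := W - pushR (algebraMap K (Lau K)) (q + 1)
    (pushR (evL (1 : Kˣ)).toRingHom (q + 1) W))
    (sub_mem hW ⟨pushR_mem _ (fun _ _ => Subring.mem_top _)
      (pushR_mem (A' := ⊤) _ (fun _ _ => Subring.mem_top _) hW.1),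
      Red.push (Red.push hW.2 _) _⟩)
    (by rw [map_sub, ← push_dX, ← push_dX, hWc, map_zero, map_zero, sub_zero])
    (by rw [map_sub, hp, sub_self]) (v i)
  rwa [map_sub, hp] at h2

theorem bd_all_II0 (ha : Function.Injective a) (hw : w ∈ CR ⊤ (q + 1)) (hc : dX _ q w = 0)
    {l₁ : Localization.Away (∏ i, (X - C (a i))) →+ K}
    (H₁ : IsLam_II0 _ ψ (hv_II0 a ψ fun _ => 1) l₁) (s : Finset (Fin n)) :
    ∀ (v : Fin n → Kˣ), (∀ j ∉ s, v j = 1) → ∀ l, IsLam_II0 _ ψ (hv_II0 a ψ fun j => v j) l →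
      Bd ⊤ (push l (q + 1) w - push l₁ (q + 1) w) := by
  induction s using Finset.induction_on with
  | empty =>
    intro v hv l H
    have h1 : (fun j => (v j : K)) = fun _ => 1 := funext fun j => by
      rw [hv j (Finset.notMem_empty j), Units.val_one]
    rw [h1] at H
    rw [H.unique H₁, sub_self]
    exact Bd.zero
  | insert i s _ ih =>
    intro v hv l H
    obtain ⟨l', -, H'⟩ := exists_isLam_II0 a ψ
      (monic_hv_II0 ha ψ fun j => (Function.update v i 1 j : Kˣ)).1 fun j => by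
        rw [eval_hv_II0 ha]
        exact Units.isUnit _
    have h1 := (bd_step_II0 ha hw hc v i H H').add (ih _ (fun j hj => by
      by_cases hji : j = i
      · rw [hji, Function.update_self]
      · rw [Function.update_of_ne hji]
        exact hv j fun h => (Finset.mem_insert.1 h).elim hji hj) l' H')
    rwa [sub_add_sub_cancel] at h1

end Main

theorem onto_split {E K : Type u} [Field E] [CharZero E] [Field K] [Algebra E K] {n : ℕ}
    (a : Fin n → E) (ha : Function.Injective a)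
    (ev : Localization.Away (∏ i, (X - C (a i)) : E[X]) →+* K)
    (hev : ∀ c : E, ev (algebraMap E[X] _ (C c)) = algebraMap E K c) {q : ℕ}
    {w : Xq G2 (Localization.Away (∏ i, (X - C (a i)) : E[X])) (q + 1)}
    (hw : w ∈ CR ⊤ (q + 1)) (hc : dX _ q w = 0) :
    ∃ c ∈ CR (⊤ : Subring E) (q + 1), dX E q c = 0 ∧
      Bd ⊤ (pushR ev (q + 1) w - pushR (algebraMap E K) (q + 1) c) := by
  classical
  have : CharZero K := charZero_of_injective_algebraMap (algebraMap E K).injective
  obtain ⟨t₀, ht₀⟩ := Infinite.exists_notMem_finset (Finset.univ.image a)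
  have h0 : ∀ i, a i - t₀ ≠ 0 := fun i h =>
    ht₀ (Finset.mem_image.2 ⟨i, Finset.mem_univ i, sub_eq_zero.1 h⟩)
  obtain ⟨e₀, he₀⟩ := exists_isEv_II0 (P := ∏ i, (X - C (a i))) (RingHom.id E) t₀ (by
    rw [eval₂_finsetProd, IsUnit.prod_univ_iff]
    intro i
    rw [eval₂_sub, eval₂_X, eval₂_C, RingHom.id_apply, ← neg_sub]
    exact (IsUnit.mk0 _ (h0 i)).neg)
  set ψ := algebraMap E K with hψ
  set t := ev (algebraMap E[X] _ X) with ht
  have he : IsEv_II0 _ ψ t ev := ⟨hev, rfl⟩
  have he₁ := he₀.comp ψ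
  rw [RingHom.comp_id] at he₁
  have h1 : ∀ i, ψ (a i) - t ≠ 0 := fun i h => by
    have h2 := (IsLocalization.Away.algebraMap_isUnit (S := Localization.Away
      (∏ i, (X - C (a i)) : E[X])) (∏ i, (X - C (a i)))).map ev
    rw [he.apply, eval₂_finsetProd, IsUnit.prod_univ_iff] at h2
    have h3 := h2 i
    rw [eval₂_sub, eval₂_X, eval₂_C, ← neg_sub, h, neg_zero] at h3
    exact not_isUnit_zero h3
  have h2 : ∀ i, ψ (a i) - ψ t₀ ≠ 0 := fun i => by
    rw [← map_sub]
    exact (map_ne_zero ψ).2 (h0 i)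
  let v : Fin n → Kˣ := fun i => Units.mk0 _ (div_ne_zero (h1 i) (h2 i))
  have hm₁ := monic_hv_II0 ha ψ fun _ => 1
  have hmv := monic_hv_II0 ha ψ fun i => v i
  obtain ⟨l₁, -, H₁⟩ := exists_isLam_II0 a ψ hm₁.1 fun j => by
    rw [eval_hv_II0 ha]
    exact isUnit_one
  obtain ⟨l, -, H⟩ := exists_isLam_II0 a ψ hmv.1 fun j => by
    rw [eval_hv_II0 ha]
    exact Units.isUnit _
  have h3 : ∀ i, ((X - C (ψ t₀)) * hv_II0 a ψ fun i => v i).eval (ψ (a i)) = ψ (a i) - t :=
    fun i => by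
      rw [eval_mul, eval_hv_II0 ha, eval_sub, eval_X, eval_C]
      exact mul_div_cancel₀ _ (h2 i)
  have h4 := (bd_hom_II0 hw hc ((monic_X_sub_C t).mul hm₁.1) ((monic_X_sub_C (ψ t₀)).mul hmv.1)
    (by rw [degree_mul, degree_mul, degree_X_sub_C, degree_X_sub_C, hm₁.2, hmv.2])
    (fun i => by rw [h3, eval_mul, eval_hv_II0 ha, eval_sub, eval_X, eval_C, mul_one])
    (fun i => by rw [h3]; exact h1 i)
    (he.isLam.mul H₁ (monic_X_sub_C _) hm₁.1) (he₁.isLam.mul H (monic_X_sub_C _) hmv.1)).add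
    (bd_all_II0 ha hw hc H₁ Finset.univ v (fun j hj => absurd (Finset.mem_univ j) hj) l H)
  refine ⟨pushR e₀ (q + 1) w, ⟨pushR_mem _ (fun _ _ => Subring.mem_top _) hw.1, Red.push hw.2 _⟩,
    by rw [← push_dX, hc, map_zero], ?_⟩
  rw [pushR_pushR]
  rw [add_push, add_push] at h4
  refine Eq.mp (congrArg _ ?_) h4
  abel

end

end Pool.Agent.MP_e2821c_ag.Dg
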