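import Pool.Agent.Lib.MP_e2821c_ag.Dg.Eff

namespace Pool.Agent.MP_e2821c_ag.Dg

open MvPolynomial

universe u v w

noncomputable section

variable {B : Type v} [CommRing B] {S S' : Type u} [CommRing S] [CommRing S'] {d d' : ℕ}
  {l l' : B →+ S}

theorem REff.isDomain (h : REff d l) : IsDomain S := by
  obtain ⟨E, _, i, hi, -⟩ := h
  exact hi.isDomain i

theorem REff.master [QAlg S] (h : REff d l) {E : Type w} [Field E] [IsAlgClosed E]
    (φ : S →+* E) : ∃ s : Multiset (B →+* E), s.card = d ∧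
      (∀ ψ ∈ s, ∀ b, φ.IsIntegralElem (ψ b)) ∧ ∀ b, φ (l b) = (s.map fun ψ => ψ b).sum := by
  obtain ⟨E₀, _, i, hi, s, hd, hs⟩ := h
  obtain ⟨A, φ', hA, hφ⟩ := exists_ext_integral i hi φ
  have h1 : ∀ ψ ∈ s, ∀ b, ψ b ∈ A := fun ψ hψ b => by
    refine (hA _).2 (isIntegralElem_of_psum i (s.map fun ψ => ψ b) (fun k _ => ⟨l (b ^ k), ?_⟩)
      (Multiset.mem_map_of_mem _ hψ))
    rw [hs, Multiset.map_map]
    simp only [map_pow, Function.comp_def]
  have h2 : ∀ x, i x ∈ A := fun x => (hA _).2 i.isIntegralElem_map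
  have h3 : φ'.comp (i.codRestrict A h2) = φ := RingHom.ext fun x => hφ x (h2 x)
  refine ⟨s.attach.map fun ψ => φ'.comp (ψ.1.codRestrict A (h1 ψ.1 ψ.2)), by simpa using hd,
    fun ψ hψ b => ?_, fun b => ?_⟩
  · obtain ⟨ψ, -, rfl⟩ := Multiset.mem_map.1 hψ
    rw [← h3]
    refine RingHom.IsIntegralElem.map ?_ φ'
    exact RingHom.IsIntegralElem.of_map (g := A.subtype) Subtype.val_injective
      ((hA _).1 (h1 ψ.1 ψ.2 b))
  · have h4 : (⟨i (l b), h2 _⟩ : A) =
        (s.attach.map fun ψ => ψ.1.codRestrict A (h1 ψ.1 ψ.2) b).sum := by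
      apply Subtype.val_injective
      change _ = A.subtype _
      rw [map_multiset_sum, Multiset.map_map]
      change i (l b) = (s.attach.map fun ψ => ψ.1 b).sum
      rw [hs, Multiset.attach_map_val' s fun ψ => ψ b]
    rw [← hφ _ (h2 _), h4, map_multiset_sum, Multiset.map_map, Multiset.map_map]
    rfl

theorem REff.zero [IsDomain S] : REff 0 (0 : B →+ S) :=
  ⟨FractionRing S, inferInstance, algebraMap _ _, IsFractionRing.injective _ _, 0, rfl,
    fun b => by simp⟩

theorem injective_closure_REff (S : Type u) [CommRing S] [IsDomain S] : Function.Injective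
    ((algebraMap (FractionRing S) (AlgebraicClosure (FractionRing S))).comp
      (algebraMap S (FractionRing S))) :=
  (algebraMap (FractionRing S) (AlgebraicClosure (FractionRing S))).injective.comp
    (IsFractionRing.injective S (FractionRing S))

theorem REff.add [QAlg S] (h : REff d l) (h' : REff d' l') : REff (d + d') (l + l') := by
  have := h.isDomain
  have hi := injective_closure_REff S
  obtain ⟨s, hd, -, hs⟩ := h.master ((algebraMap (FractionRing S)
    (AlgebraicClosure (FractionRing S))).comp (algebraMap S (FractionRing S)))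
  obtain ⟨s', hd', -, hs'⟩ := h'.master ((algebraMap (FractionRing S)
    (AlgebraicClosure (FractionRing S))).comp (algebraMap S (FractionRing S)))
  refine ⟨_, inferInstance, _, hi, s + s', by rw [Multiset.card_add, hd, hd'], fun b => ?_⟩
  rw [AddMonoidHom.add_apply, map_add, hs, hs', Multiset.map_add, Multiset.sum_add]

theorem REff.apply_one (h : REff d l) : l 1 = (d : S) := by
  obtain ⟨E, _, i, hi, s, hd, hs⟩ := h
  apply hi
  rw [hs, map_natCast, ← hd]
  simp

theorem REff.ringHom [IsDomain S] (f : B →+* S) : REff 1 f.toAddMonoidHom :=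
  ⟨FractionRing S, inferInstance, algebraMap _ _, IsFractionRing.injective _ _,
    {(algebraMap S (FractionRing S)).comp f}, rfl, fun b => by simp⟩

theorem REff.map [QAlg S] [IsDomain S'] (h : REff d l) (φ : S →+* S') :
    REff d (φ.toAddMonoidHom.comp l) := by
  obtain ⟨s, hd, -, hs⟩ := h.master (((algebraMap (FractionRing S')
    (AlgebraicClosure (FractionRing S'))).comp (algebraMap S' (FractionRing S'))).comp φ)
  exact ⟨_, inferInstance, _, injective_closure_REff S', s, hd, hs⟩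

theorem REff.of_injective (φ : S →+* S') (hφ : Function.Injective φ)
    (h : REff d (φ.toAddMonoidHom.comp l)) : REff d l := by
  obtain ⟨E, _, i, hi, s, hd, hs⟩ := h
  exact ⟨E, inferInstance, i.comp φ, hi.comp hφ, s, hd, hs⟩

theorem REff.comp_ringHom {B' : Type w} [CommRing B'] (h : REff d l) (f : B' →+* B) :
    REff d (l.comp f.toAddMonoidHom) := by
  obtain ⟨E, _, i, hi, s, hd, hs⟩ := h
  refine ⟨E, inferInstance, i, hi, s.map fun ψ => ψ.comp f, by simpa using hd, fun b => ?_⟩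
  rw [Multiset.map_map]
  exact hs (f b)

theorem REff.comp_char {Γ : Type w} [AddCommMonoid Γ] (h : REff d l) (c : AddChar Γ B) :
    Eff d (fun γ => l (c γ)) := by
  obtain ⟨E, _, i, hi, s, hd, hs⟩ := h
  refine ⟨E, inferInstance, i, hi, s.map fun ψ => ψ.toMonoidHom.compAddChar c,
    by simpa using hd, fun γ => ?_⟩
  rw [Multiset.map_map]
  exact hs (c γ)

theorem REff.comp_eff {Γ : Type w} [AddCommMonoid Γ] [QAlg S] {l : S →+ S'} (h : REff d l)
    {τ : Γ → S} (hτ : Eff d' τ) : Eff (d * d') (fun γ => l (τ γ)) := by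
  obtain ⟨E, _, i, hi, s, hd, hs⟩ := h
  choose t h1 _ h2 using fun e : S →+* E =>
    hτ.master ((algebraMap E (AlgebraicClosure E)).comp e)
  refine ⟨AlgebraicClosure E, inferInstance, (algebraMap E (AlgebraicClosure E)).comp i,
    (algebraMap E (AlgebraicClosure E)).injective.comp hi, s.bind t, ?_, fun γ => ?_⟩
  · rw [Multiset.card_bind]
    simp [h1, hd]
  · rw [RingHom.comp_apply, hs, map_multiset_sum, Multiset.map_map, Multiset.map_bind,
      Multiset.sum_bind]
    exact congrArg Multiset.sum (Multiset.map_congr rfl fun e _ => h2 e γ)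

theorem REff.cmap (h : REff d l) (σ : Type) : REff d (cmap l σ) := by
  obtain ⟨E, _, i, hi, s, hd, hs⟩ := h
  refine ⟨FractionRing (MvPolynomial σ E), inferInstance,
    (algebraMap (MvPolynomial σ E) _).comp (MvPolynomial.map i),
    (IsFractionRing.injective _ _).comp (MvPolynomial.map_injective i hi),
    s.map fun ψ => (algebraMap (MvPolynomial σ E) _).comp (MvPolynomial.map ψ),
    by simpa using hd, fun p => ?_⟩
  have h1 : MvPolynomial.map i (Dg.cmap l σ p) = (s.map fun ψ => MvPolynomial.map ψ p).sum := by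
    ext m
    rw [coeff_map, coeff_cmap, hs]
    change _ = coeffAddMonoidHom m _
    rw [map_multiset_sum, Multiset.map_map]
    exact congrArg Multiset.sum (Multiset.map_congr rfl fun ψ _ => (coeff_map _ _ _).symm)
  rw [RingHom.comp_apply, h1, map_multiset_sum, Multiset.map_map, Multiset.map_map]
  rfl

theorem REff.pmap (h : REff d l) : REff d (pmap l) := by
  obtain ⟨E, _, i, hi, s, hd, hs⟩ := h
  refine ⟨FractionRing (Polynomial E), inferInstance,
    (algebraMap (Polynomial E) _).comp (Polynomial.mapRingHom i),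
    (IsFractionRing.injective _ _).comp (Polynomial.map_injective i hi),
    s.map fun ψ => (algebraMap (Polynomial E) _).comp (Polynomial.mapRingHom ψ),
    by simpa using hd, fun p => ?_⟩
  have h1 : Polynomial.mapRingHom i (Dg.pmap l p) =
      (s.map fun ψ => Polynomial.mapRingHom ψ p).sum := by
    ext m
    rw [Polynomial.coe_mapRingHom, Polynomial.coeff_map, coeff_pmap, hs]
    refine Eq.trans ?_ (map_multiset_sum (Polynomial.lcoeff E m) _).symm
    rw [Multiset.map_map]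
    exact congrArg Multiset.sum
      (Multiset.map_congr rfl fun ψ _ => (Polynomial.coeff_map _ _).symm)
  rw [RingHom.comp_apply, h1, map_multiset_sum, Multiset.map_map, Multiset.map_map]
  rfl

theorem Eff.lin (K : Type u) [CommRing K] [Algebra K S] {Γ : Type} [AddCommGroup Γ] {τ : Γ → S}
    (h : Eff d τ) : REff d (lin K τ) := by
  obtain ⟨E, _, i, hi, s, hd, hs⟩ := h
  refine ⟨E, inferInstance, i, hi, s.map fun ψ => AddMonoidAlgebra.liftNCRingHom
    (i.comp (algebraMap K S)) ψ.toMonoidHom fun _ _ => Commute.all _ _,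
    by simpa using hd, fun x => ?_⟩
  rw [Multiset.map_map]
  induction x using AddMonoidAlgebra.induction_linear with
  | zero => simp
  | add x y hx hy =>
    simp only [map_add, hx, hy, Function.comp_def, Multiset.sum_map_add]
  | single γ c =>
    simp only [lin_single, Function.comp_def, AddMonoidAlgebra.liftNCRingHom_single,
      Algebra.smul_def, map_mul, hs, Multiset.sum_map_mul_left]
    rfl

theorem REff.rCorr [QAlg S] (h : REff d l) : RCorr l := by
  have := h.isDomain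
  exact ⟨1, one_ne_zero, d, 0, l, 0, h, REff.zero, by simp⟩

theorem RCorr.cmap (h : RCorr l) (σ : Type) : RCorr (cmap l σ) := by
  obtain ⟨N, hN, e, e', l₁, l₂, h1, h2, he⟩ := h
  refine ⟨N, hN, e, e', _, _, h1.cmap σ, h2.cmap σ, AddMonoidHom.ext fun p => ?_⟩
  ext m
  have := DFunLike.congr_fun he (coeff m p)
  rw [AddMonoidHom.nsmul_apply, coeff_smul, AddMonoidHom.sub_apply, coeff_sub, coeff_cmap,
    coeff_cmap, coeff_cmap]
  exact this

theorem RCorr.pmap (h : RCorr l) : RCorr (pmap l) := by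
  obtain ⟨N, hN, e, e', l₁, l₂, h1, h2, he⟩ := h
  refine ⟨N, hN, e, e', _, _, h1.pmap, h2.pmap, AddMonoidHom.ext fun p => ?_⟩
  ext m
  have := DFunLike.congr_fun he (p.coeff m)
  simpa [Polynomial.coeff_smul] using this

section Corr

variable {Γ : Type} [AddCommGroup Γ]

theorem exists_sub_of_mem_corrIn [IsDomain S] [QAlg S] (A : AddSubmonoid S) {τ : Γ → S}
    (h : τ ∈ CorrIn Γ (A : Set S)) : ∃ N : ℕ, N ≠ 0 ∧ ∃ (e e' : ℕ) (σ σ' : Γ → S),
      Eff e σ ∧ Eff e' σ' ∧ (∀ γ, σ γ ∈ A) ∧ (∀ γ, σ' γ ∈ A) ∧ N • τ = σ - σ' := by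
  obtain ⟨N, hN, h⟩ := h
  refine ⟨N, hN, ?_⟩
  generalize N • τ = x at h
  induction h using AddSubgroup.closure_induction with
  | mem x hx =>
    obtain ⟨⟨e, he⟩, hA⟩ := hx
    exact ⟨e, 0, x, 0, he, Eff.zero, hA, fun _ => A.zero_mem, (sub_zero x).symm⟩
  | zero =>
    exact ⟨0, 0, 0, 0, Eff.zero, Eff.zero, fun _ => A.zero_mem, fun _ => A.zero_mem,
      (sub_zero 0).symm⟩
  | add x y _ _ hx hy =>
    obtain ⟨e₁, e₁', σ₁, σ₁', a1, a2, a3, a4, rfl⟩ := hx
    obtain ⟨e₂, e₂', σ₂, σ₂', b1, b2, b3, b4, rfl⟩ := hy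
    exact ⟨_, _, _, _, a1.add b1, a2.add b2, fun γ => A.add_mem (a3 γ) (b3 γ),
      fun γ => A.add_mem (a4 γ) (b4 γ), by abel⟩
  | neg x _ hx =>
    obtain ⟨e, e', σ, σ', a1, a2, a3, a4, rfl⟩ := hx
    exact ⟨_, _, _, _, a2, a1, a4, a3, neg_sub _ _⟩

theorem rCorr_lin [IsDomain S] [QAlg S] (K : Type u) [CommRing K] [Algebra K S] {τ : Γ → S}
    (h : τ ∈ CorrIn Γ (Set.univ : Set S)) : RCorr (lin K τ) := by
  obtain ⟨N, hN, e, e', σ, σ', h1, h2, -, -, he⟩ :=
    exists_sub_of_mem_corrIn (⊤ : AddSubmonoid S) h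
  refine ⟨N, hN, e, e', _, _, h1.lin K, h2.lin K, AddMonoidHom.ext fun x => ?_⟩
  induction x using AddMonoidAlgebra.induction_linear with
  | zero => simp
  | add x y hx hy => rw [map_add, map_add, hx, hy]
  | single γ c =>
    have h3 : N • τ γ = σ γ - σ' γ := congrFun he γ
    rw [AddMonoidHom.nsmul_apply, AddMonoidHom.sub_apply, lin_single, lin_single, lin_single,
      smul_comm, h3, smul_sub]

theorem comp_mem_REff [QAlg S] {l : S →+ S'} (h : REff d l) {τ : Γ → S}
    (hτ : τ ∈ CorrIn Γ (Set.univ : Set S)) :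
    (fun γ => l (τ γ)) ∈ CorrIn Γ (Set.univ : Set S') := by
  refine satClosure_map (l.compLeft Γ) ?_ hτ
  rintro x ⟨⟨e, he⟩, -⟩
  exact subset_satClosure ⟨⟨_, h.comp_eff he⟩, fun _ => Set.mem_univ _⟩

theorem RCorr.comp_mem [QAlg S] {l : S →+ S'} (h : RCorr l) {τ : Γ → S}
    (hτ : τ ∈ CorrIn Γ (Set.univ : Set S)) :
    (fun γ => l (τ γ)) ∈ CorrIn Γ (Set.univ : Set S') := by
  obtain ⟨N, hN, e, e', l₁, l₂, h1, h2, he⟩ := h
  refine mem_satClosure_of_nsmul hN ?_
  have h3 : (N • fun γ => l (τ γ)) = (fun γ => l₁ (τ γ)) - fun γ => l₂ (τ γ) :=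
    funext fun γ => DFunLike.congr_fun he (τ γ)
  rw [h3]
  exact sub_mem (comp_mem_REff h1 hτ) (comp_mem_REff h2 hτ)

theorem map_mem_corrIn [QAlg S] [IsDomain S'] (φ : S →+* S') {A : Set S} {A' : Set S'}
    (hA : ∀ a ∈ A, φ a ∈ A') {τ : Γ → S} (hτ : τ ∈ CorrIn Γ A) :
    (fun γ => φ (τ γ)) ∈ CorrIn Γ A' := by
  refine satClosure_map (φ.toAddMonoidHom.compLeft Γ) ?_ hτ
  rintro x ⟨⟨e, he⟩, hx⟩
  exact subset_satClosure ⟨⟨_, he.map φ⟩, fun γ => hA _ (hx γ)⟩

theorem comp_mem_corrIn {Γ' : Type} [AddCommGroup Γ'] (f : Γ' →+ Γ) {A : Set S} {τ : Γ → S}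
    (hτ : τ ∈ CorrIn Γ A) : (fun γ => τ (f γ)) ∈ CorrIn Γ' A := by
  refine satClosure_map
    (AddMonoidHom.mk' (fun (τ : Γ → S) (γ : Γ') => τ (f γ)) fun _ _ => rfl) ?_ hτ
  rintro x ⟨⟨e, he⟩, hx⟩
  exact subset_satClosure ⟨⟨_, he.comp f⟩, fun _ => hx _⟩

theorem mul_char_mem_corrIn (χ : AddChar Γ S) {τ : Γ → S}
    (hτ : τ ∈ CorrIn Γ (Set.univ : Set S)) :
    (fun γ => χ γ * τ γ) ∈ CorrIn Γ (Set.univ : Set S) := by
  refine satClosure_map (AddMonoidHom.mk' (fun (τ : Γ → S) (γ : Γ) => χ γ * τ γ)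
    fun _ _ => funext fun _ => mul_add _ _ _) ?_ hτ
  rintro x ⟨⟨e, he⟩, -⟩
  exact subset_satClosure ⟨⟨_, he.mul_char χ⟩, fun _ => Set.mem_univ _⟩

end Corr

end

end Pool.Agent.MP_e2821c_ag.Dg
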