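import Pool.Agent.Lib.MP_e2821c_ag.Dg.HomOn
import Pool.Agent.Lib.MP_e2821c_ag.Dg.REff
import Pool.Agent.Lib.MP_e2821c_ag.Cy.Small
import Pool.Agent.Lib.MP_e2821c_ag.Cy.Deriv
import Pool.Agent.Lib.MP_e2821c_ag.Cy.Pencil

namespace Pool.Agent.MP_e2821c_ag.Dg

open MvPolynomial

universe u v w

noncomputable section

theorem isotropic_finrank {K : Type u} [Field K] [CharZero K] {ι : Type} [Fintype ι] [Nonempty ι]
    (Z : Submodule K ((ι → K) × (ι → K)))
    (h1 : ∀ z ∈ Z, ∀ z' ∈ Z, ∑ a, (z.1 a * z'.2 a - z'.1 a * z.2 a) = 0)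
    (h2 : ∀ z ∈ Z, ∑ a, z.1 a = 0) (h3 : ∀ z ∈ Z, ∑ a, z.2 a = 0) :
    Module.finrank K Z + 1 ≤ Fintype.card ι := by
  classical
  let B : LinearMap.BilinForm K ((ι → K) × (ι → K)) :=
    LinearMap.mk₂ K (fun z z' => ∑ a, (z.1 a * z'.2 a - z'.1 a * z.2 a))
      (fun x y z => by
        rw [← Finset.sum_add_distrib]
        refine Finset.sum_congr rfl fun a _ => ?_
        simp only [Prod.fst_add, Prod.snd_add, Pi.add_apply]
        ring)
      (fun c x z => by
        rw [smul_eq_mul, Finset.mul_sum]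
        refine Finset.sum_congr rfl fun a _ => ?_
        simp only [Prod.smul_fst, Prod.smul_snd, Pi.smul_apply, smul_eq_mul]
        ring)
      (fun x y z => by
        rw [← Finset.sum_add_distrib]
        refine Finset.sum_congr rfl fun a _ => ?_
        simp only [Prod.fst_add, Prod.snd_add, Pi.add_apply]
        ring)
      (fun c x z => by
        rw [smul_eq_mul, Finset.mul_sum]
        refine Finset.sum_congr rfl fun a _ => ?_
        simp only [Prod.smul_fst, Prod.smul_snd, Pi.smul_apply, smul_eq_mul]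
        ring)
  have hB : ∀ z z', B z z' = ∑ a, (z.1 a * z'.2 a - z'.1 a * z.2 a) := fun _ _ => rfl
  have hk : LinearMap.ker B = ⊥ := by
    refine LinearMap.separatingLeft_iff_ker_eq_bot.1 fun z hz => ?_
    refine Prod.ext (funext fun a => ?_) (funext fun a => ?_)
    · simpa [hB, Pi.single_apply] using hz (0, Pi.single a 1)
    · simpa [hB, Pi.single_apply] using hz (Pi.single a 1, 0)
  let v : (ι → K) × (ι → K) := (fun _ => 1, 0)
  have hv : v ∉ Z := fun h => by
    have := h2 v h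
    simp [v] at this
  have hle : Z ⊔ Submodule.span K {v} ≤ B.orthogonal (Z ⊔ Submodule.span K {v}) := by
    intro x hx y hy
    obtain ⟨z, hz, _, hx', rfl⟩ := Submodule.mem_sup.1 hx
    obtain ⟨z', hz', _, hy', rfl⟩ := Submodule.mem_sup.1 hy
    obtain ⟨c, rfl⟩ := Submodule.mem_span_singleton.1 hx'
    obtain ⟨c', rfl⟩ := Submodule.mem_span_singleton.1 hy'
    change B _ _ = 0
    have e : ∀ a, (z' + c' • v).1 a * (z + c • v).2 a - (z + c • v).1 a * (z' + c' • v).2 a =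
        (z'.1 a * z.2 a - z.1 a * z'.2 a) + c' * z.2 a - c * z'.2 a := fun a => by
      simp [v]; ring
    rw [hB]
    simp only [e, Finset.sum_sub_distrib (f := fun a => _ + _), Finset.sum_add_distrib,
      ← Finset.mul_sum, h1 z' hz' z hz, h3 z hz, h3 z' hz']
    ring
  have h4 := Submodule.finrank_mono hle
  have h5 := LinearMap.BilinForm.finrank_add_finrank_orthogonal' (B := B)
    (Z ⊔ Submodule.span K {v})
  rw [hk, inf_bot_eq, finrank_bot, Module.finrank_prod, Module.finrank_fintype_fun_eq_card] at h5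
  rw [Submodule.finrank_sup_span_singleton hv] at h4 h5
  omega

open Cy Cy.Pen

section Places

variable {k : Type u} [Field k] [CharZero k] {m : ℕ}

theorem exists_not_dvd_Iso {π : Base k m} (hπ : Prime π) : ∃ i, ¬π ∣ pderiv i π := by
  by_contra! h
  have h1 : ∀ i, pderiv i π = 0 := fun i => by
    by_contra h2
    have h3 := deg_X_mul i i π
    rw [totalDegree_mul_of_isDomain (X_ne_zero i) h2, totalDegree_X] at h3
    have h4 := totalDegree_le_of_dvd_of_isDomain (h i) h2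
    omega
  have h2 : π = C (coeff 0 π) := by
    classical
    ext s
    rw [coeff_C]
    split_ifs with hs
    · rw [hs]
    · obtain ⟨i, hi⟩ : ∃ i, s i ≠ 0 := by
        by_contra! h3
        exact hs (Finsupp.ext fun i => (h3 i).symm)
      have h3 : coeff s (X i * pderiv i π) = (s i : k) * coeff s π := by
        conv_lhs => rw [π.as_sum, map_sum, Finset.mul_sum]
        simp only [X_mul_pderiv_monomial, coeff_sum, coeff_smul, coeff_monomial, smul_ite,
          smul_zero, Finset.sum_ite_eq', mem_support_iff]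
        split_ifs with h4
        · exact nsmul_eq_mul _ _
        · rw [not_not.1 h4, mul_zero]
      rw [h1, mul_zero, coeff_zero] at h3
      exact (mul_eq_zero.1 h3.symm).resolve_left (by exact_mod_cast hi)
  refine hπ.not_isUnit (h2 ▸ (IsUnit.mk0 _ fun h3 => hπ.ne_zero ?_).map C)
  rw [h2, h3, map_zero]

/-- Units of the absolute integral closure. -/
def UI_Iso (x : Omm k m) : Prop :=
  x ≠ 0 ∧ (rO k m).IsIntegralElem x ∧ (rO k m).IsIntegralElem x⁻¹

/-- The logarithmic derivative. -/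
def LD_Iso (t : Fin m) (x : Omm k m) : Omm k m := Dm k m t x / x

theorem prime_data_Iso {π : Base k m} (hπ : Prime π) :
    ∃ (𝒪 : ValuationSubring (Omm k m)) (c : Fin m → Omm k m) (j : Fin m), (∀ t, c t ∈ 𝒪) ∧
      rO k m π ∈ 𝒪.nonunits ∧ (∀ t v, LD_Iso t v - c t * LD_Iso j v ∈ 𝒪) ∧
      (∀ v, UI_Iso v → rO k m π * LD_Iso j v ∈ 𝒪.nonunits) ∧
      ∀ a : Km k m, rO k m π * kO k m a ∈ 𝒪.nonunits → ∃ p q : Base k m, ¬π ∣ q ∧
        a * algebraMap (Base k m) (Km k m) q = algebraMap (Base k m) (Km k m) p := by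
  obtain ⟨A, hA, hAm⟩ := exists_place_prime (K := Km k m) hπ
  obtain ⟨𝒪, h𝒪⟩ := exists_over (Ω := Omm k m) A
  obtain ⟨ord, ho, h1⟩ := exists_ord hA h𝒪
  obtain ⟨j, hj⟩ := exists_not_dvd_Iso hπ
  have hK : ∀ x, kO k m x ∈ 𝒪 ↔ x ∈ A := fun x => by rw [← h𝒪, ValuationSubring.mem_comap]
  have hR : ∀ p, rO k m p ∈ 𝒪 := fun p => by
    rw [rO_eq, hK, hAm]
    exact ⟨p, 1, hπ.not_dvd_one, by rw [map_one, mul_one]⟩
  have hne : ∀ q, ¬π ∣ q → rO k m q ≠ 0 := fun q hq => rO_ne fun h => hq (h ▸ dvd_zero π)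
  have hinv : ∀ q, ¬π ∣ q → (rO k m q)⁻¹ ∈ 𝒪 := fun q hq => by
    have := hne q hq
    rw [rO_eq, map_ne_zero] at this
    rw [rO_eq, ← map_inv₀]
    exact (hK _).2 ((hAm _).2 ⟨1, q, hq, by rw [inv_mul_cancel₀ this, map_one]⟩)
  have hπn : rO k m π ∈ 𝒪.nonunits := by
    rw [ValuationSubring.mem_nonunits_iff_or, rO_eq, ← map_inv₀, hK]
    exact Or.inr (((A.mem_nonunits_iff_or).1 hA.mem).resolve_left hA.ne)
  have hk : ∀ c, algebraMap k (Omm k m) c ∈ 𝒪 := fun c => rO_C (m := m) c ▸ hR _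
  have hQ := rat_mem h𝒪 hk
  have hD : ∀ t p, Dm k m t (rO k m p) ∈ 𝒪 := fun t p => Dm_algebraMap k m t p ▸ hR _
  let c := fun t => rO k m (pderiv t π) / rO k m (pderiv j π)
  have hc : ∀ t, c t ∈ 𝒪 := fun t => by
    simp only [c, div_eq_mul_inv]
    exact mul_mem (hR _) (hinv _ hj)
  refine ⟨𝒪, c, j, hc, hπn, fun t v => ?_, fun v hv => ?_, fun a h2 => ?_⟩
  · have h2 := small_ext hA hQ h𝒪 (Dm k m t - c t • Dm k m j)
      (small_K _ (small_prime _ hπ hinv (fun p => sub_mem (hD t p) (mul_mem (hc t) (hD j p))) (by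
        simp only [Derivation.sub_apply, Derivation.smul_apply, Dm_algebraMap, smul_eq_mul, c]
        rw [div_mul_cancel₀ _ (hne _ hj), sub_self, zero_div]
        exact zero_mem _))) v
    rwa [Derivation.sub_apply, Derivation.smul_apply, smul_eq_mul, sub_div, mul_div_assoc] at h2
  · have h2 := small_res hA hQ h𝒪 (rO k m π • Dm k m j) (small_K _ (small_prime _ hπ hinv
      (fun p => mul_mem (hR _) (hD j p)) (by
        rw [Derivation.smul_apply, smul_eq_mul, mul_div_cancel_left₀ _ (rO_ne hπ.ne_zero)]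
        exact hD j π))) (fun b hb => by
      obtain ⟨p, q, hq, e⟩ := (hAm b).1 hb
      have e' := congrArg (kO k m) e
      rw [map_mul, ← rO_eq, ← rO_eq] at e'
      rw [Derivation.smul_apply, smul_eq_mul, mul_comm, eq_div_of_mul_eq (hne q hq) e',
        Derivation.leibniz_div]
      exact nu_mul (mul_mem (pow_mem (hinv q hq) 2) (sub_mem (mul_mem (hR q) (hD j p))
        (mul_mem (hR p) (hD j q)))) hπn) ho h1 (Units.mk0 v hv.1)
    have h3 := (ho (Units.mk0 v hv.1)).1 (mem_of_B hR ⟨v, hv.2.1⟩)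
    have h4 := (ho (Units.mk0 v hv.1)⁻¹).1 (mem_of_B hR ⟨v⁻¹, hv.2.2⟩)
    rw [ofMul_inv, map_neg, neg_nonneg] at h4
    rwa [le_antisymm h4 h3, Rat.cast_zero, map_zero, zero_mul, sub_zero, Derivation.smul_apply,
      smul_eq_mul, mul_div_assoc] at h2
  refine (hAm a).1 (by_contra fun h3 => ?_)
  obtain ⟨p, q, hq, e⟩ := (hAm _).1 ((A.mem_or_inv_mem a).resolve_left h3)
  have h0 : a ≠ 0 := fun h => h3 (h ▸ zero_mem A)
  rw [inv_mul_eq_iff_eq_mul₀ h0] at e
  by_cases hp : π ∣ p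
  · obtain ⟨p, rfl⟩ := hp
    have h4 := nu_mul (hinv q hq) (nu_mul (hR p) h2)
    have e' := congrArg (kO k m) e
    rw [map_mul, ← rO_eq, ← rO_eq, map_mul] at e'
    rw [show rO k m p * (rO k m π * kO k m a) = rO k m q by rw [e']; ring,
      inv_mul_cancel₀ (hne q hq), ValuationSubring.mem_nonunits_iff, map_one] at h4
    exact h4.false
  · exact h3 ((hAm a).2 ⟨q, p, hp, e.symm⟩)

theorem inf_data_Iso (i : Fin m) : ∃ 𝒪 : ValuationSubring (Omm k m),
    (∀ t v, rO k m (X i) * LD_Iso t v ∈ 𝒪) ∧ ∀ p, rO k m (X i) * rO k m p ∈ 𝒪 → p = 0 := by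
  obtain ⟨A, hA, hAm⟩ := exists_place_inf k m i
  obtain ⟨𝒪, h𝒪⟩ := exists_over (Ω := Omm k m) A
  have hK : ∀ p q, q ≠ 0 → (rO k m p / rO k m q ∈ 𝒪 ↔ p.totalDegree ≤ q.totalDegree) :=
    fun p q hq => by
      rw [← hAm p q hq, ← h𝒪, ValuationSubring.mem_comap, map_div₀, rO_eq, rO_eq]
  have hk : ∀ c, algebraMap k (Omm k m) c ∈ 𝒪 := fun c => by
    have := (hK (C c) 1 one_ne_zero).2 (by simp)
    rwa [map_one, div_one, rO_C] at this
  refine ⟨𝒪, fun t v => ?_, fun p h => ?_⟩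
  · have h2 := small_ext hA (rat_mem h𝒪 hk) h𝒪 (rO k m (X i) • Dm k m t) (small_K _ fun q => by
      by_cases hq : q = 0
      · simp [hq]
      rw [Derivation.smul_apply, Dm_algebraMap, smul_eq_mul, ← map_mul]
      exact (hK _ _ hq).2 (deg_X_mul i t q)) v
    rwa [Derivation.smul_apply, smul_eq_mul, mul_div_assoc] at h2
  · have h1 := (hK (X i * p) 1 one_ne_zero).1 (by rwa [map_one, div_one, map_mul])
    by_contra hp
    rw [totalDegree_mul_of_isDomain (X_ne_zero i) hp, totalDegree_X, totalDegree_one] at h1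
    omega

variable {τ : G2 → Base k m} {s : Multiset (AddChar G2 (Omm k m))}

theorem ui_Iso (hs : ∀ γ, iOm (Base k m) (τ γ) = (s.map fun ψ => ψ γ).sum)
    {ψ : AddChar G2 (Omm k m)} (hψ : ψ ∈ s) (γ : G2) : UI_Iso (ψ γ) := by
  have h1 : ∀ γ, (rO k m).IsIntegralElem (ψ γ) := fun γ =>
    isIntegralElem_of_psum (rO k m) (s.map fun ψ => ψ γ) (fun n _ => ⟨τ (n • γ), by
      rw [Multiset.map_map]
      exact (hs _).trans (congrArg _ (Multiset.map_congr rfl fun φ _ =>
        φ.map_nsmul_eq_pow n γ))⟩) (Multiset.mem_map_of_mem _ hψ)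
  refine ⟨fun h => ?_, h1 γ, ψ.map_neg_eq_inv γ ▸ h1 (-γ)⟩
  have h2 := ψ.map_add_eq_mul γ (-γ)
  rw [add_neg_cancel, ψ.map_zero_eq_one, h, zero_mul] at h2
  exact one_ne_zero h2

theorem gal_LD_Iso (σ : Omm k m ≃ₐ[Km k m] Omm k m) (t : Fin m) (x : Omm k m) :
    σ (LD_Iso t x) = LD_Iso t (σ x) := by rw [LD_Iso, LD_Iso, map_div₀, Dm_gal]

theorem sum_mem_Iso (hs : ∀ γ, iOm (Base k m) (τ γ) = (s.map fun ψ => ψ γ).sum)
    (G : (G2 → Omm k m) → Omm k m)
    (hG : ∀ (σ : Omm k m ≃ₐ[Km k m] Omm k m) (x : G2 → Omm k m), σ (G x) = G fun γ => σ (x γ)) :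
    ∃ a, kO k m a = (s.map fun ψ : AddChar G2 (Omm k m) => G ψ).sum := by
  have : CharZero (Omm k m) := charZero_of_injective_algebraMap (algebraMap k _).injective
  refine (InfiniteGalois.mem_range_algebraMap_iff_fixed (k := Km k m) _).2 fun σ => ?_
  have h1 : s.map (fun ψ => (σ : Omm k m →* Omm k m).compAddChar ψ) = s :=
    dedekind_multiset fun γ => by
      rw [Multiset.map_map, ← hs]
      have h2 : σ (iOm (Base k m) (τ γ)) = iOm (Base k m) (τ γ) := by
        rw [show iOm (Base k m) (τ γ) = _ from rO_eq (τ γ), AlgEquiv.commutes]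
      rw [← h2, hs, map_multiset_sum, Multiset.map_map]
      rfl
  conv_rhs => rw [← h1]
  rw [map_multiset_sum, Multiset.map_map, Multiset.map_map]
  exact congrArg _ (Multiset.map_congr rfl fun ψ _ => hG σ ψ)

end Places

theorem two_form_sum {F : Type u} [Field F] [CharZero F] {p : ℕ} {τ : G2 → Base F p}
    (s : Multiset (AddChar G2 (Cy.Omm F p)))
    (hs : ∀ γ, iOm (Base F p) (τ γ) = (s.map fun ψ => ψ γ).sum) (i l : Fin p) :
    (s.map fun ψ => Cy.Dm F p i (ψ (1, 0)) / ψ (1, 0) * (Cy.Dm F p l (ψ (0, 1)) / ψ (0, 1)) -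
      Cy.Dm F p l (ψ (1, 0)) / ψ (1, 0) * (Cy.Dm F p i (ψ (0, 1)) / ψ (0, 1))).sum = 0 := by
  obtain ⟨a, ha⟩ := sum_mem_Iso hs (fun x => LD_Iso i (x (1, 0)) * LD_Iso l (x (0, 1)) -
    LD_Iso l (x (1, 0)) * LD_Iso i (x (0, 1))) fun σ x => by
      simp only [map_sub, map_mul, gal_LD_Iso]
  obtain ⟨q, rfl⟩ := mem_range_of_places (R := Base F p) a fun π hπ => by
    obtain ⟨𝒪, c, j, hc, hπn, hE, hP, h⟩ := prime_data_Iso hπ
    refine h a ?_
    rw [ha, ← Multiset.sum_map_mul_left]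
    refine multiset_sum_mem _ fun y hy => ?_
    obtain ⟨ψ, hψ, rfl⟩ := Multiset.mem_map.1 hy
    have hu := hP _ (ui_Iso hs hψ (1, 0))
    have hu' := hP _ (ui_Iso hs hψ (0, 1))
    generalize ψ (1, 0) = u at hu ⊢
    generalize ψ (0, 1) = u' at hu' ⊢
    have e : rO F p π * (LD_Iso i u * LD_Iso l u' - LD_Iso l u * LD_Iso i u') =
        ((LD_Iso i u - c i * LD_Iso j u) * (LD_Iso l u' - c l * LD_Iso j u') -
          (LD_Iso l u - c l * LD_Iso j u) * (LD_Iso i u' - c i * LD_Iso j u')) * rO F p π +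
        (c l * (LD_Iso i u - c i * LD_Iso j u) - c i * (LD_Iso l u - c l * LD_Iso j u)) *
          (rO F p π * LD_Iso j u') +
        (c i * (LD_Iso l u' - c l * LD_Iso j u') - c l * (LD_Iso i u' - c i * LD_Iso j u')) *
          (rO F p π * LD_Iso j u) := by ring
    rw [e]
    exact add_mem (add_mem
      (nu_mul (sub_mem (mul_mem (hE _ _) (hE _ _)) (mul_mem (hE _ _) (hE _ _))) hπn)
      (nu_mul (sub_mem (mul_mem (hc _) (hE _ _)) (mul_mem (hc _) (hE _ _))) hu'))
      (nu_mul (sub_mem (mul_mem (hc _) (hE _ _)) (mul_mem (hc _) (hE _ _))) hu)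
  rw [← rO_eq] at ha
  obtain ⟨𝒪, hE, h⟩ := inf_data_Iso (k := F) i
  have h1 := h (X i * q) (by
    rw [map_mul, ha, ← Multiset.sum_map_mul_left, ← Multiset.sum_map_mul_left]
    refine multiset_sum_mem _ fun y hy => ?_
    obtain ⟨ψ, -, rfl⟩ := Multiset.mem_map.1 hy
    rw [show ∀ x a b c d : Omm F p,
      x * (x * (a * b - c * d)) = x * a * (x * b) - x * c * (x * d) from fun _ _ _ _ _ => by ring]
    exact sub_mem (mul_mem (hE _ _) (hE _ _)) (mul_mem (hE _ _) (hE _ _)))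
  rw [(mul_eq_zero.1 h1).resolve_left (X_ne_zero i), map_zero] at ha
  exact ha.symm

theorem one_form_sum {F : Type u} [Field F] [CharZero F] {p : ℕ} {τ : G2 → Base F p}
    (s : Multiset (AddChar G2 (Cy.Omm F p)))
    (hs : ∀ γ, iOm (Base F p) (τ γ) = (s.map fun ψ => ψ γ).sum) (i : Fin p) (γ : G2) :
    (s.map fun ψ => Cy.Dm F p i (ψ γ) / ψ γ).sum = 0 := by
  obtain ⟨a, ha⟩ := sum_mem_Iso hs (fun x => LD_Iso i (x γ)) fun σ x => gal_LD_Iso σ i _
  obtain ⟨q, rfl⟩ := mem_range_of_places (R := Base F p) a fun π hπ => by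
    obtain ⟨𝒪, c, j, hc, hπn, hE, hP, h⟩ := prime_data_Iso hπ
    refine h a ?_
    rw [ha, ← Multiset.sum_map_mul_left]
    refine multiset_sum_mem _ fun y hy => ?_
    obtain ⟨ψ, hψ, rfl⟩ := Multiset.mem_map.1 hy
    have hu := hP _ (ui_Iso hs hψ γ)
    generalize ψ γ = u at hu ⊢
    rw [show rO F p π * LD_Iso i u = (LD_Iso i u - c i * LD_Iso j u) * rO F p π +
      c i * (rO F p π * LD_Iso j u) by ring]
    exact add_mem (nu_mul (hE _ _) hπn) (nu_mul (hc _) hu)
  rw [← rO_eq] at ha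
  obtain ⟨𝒪, hE, h⟩ := inf_data_Iso (k := F) i
  have h1 := h q (by
    rw [ha, ← Multiset.sum_map_mul_left]
    refine multiset_sum_mem _ fun y hy => ?_
    obtain ⟨ψ, -, rfl⟩ := Multiset.mem_map.1 hy
    exact hE _ _)
  rw [h1, map_zero] at ha
  exact ha.symm

theorem ld_sum_Iso {F : Type u} [Field F] [CharZero F] {p : ℕ}
    (D : Derivation F (Omm F p) (Omm F p)) (x : Omm F p) :
    D x / x = ∑ i, D (rO F p (X i)) * (Dm F p i x / x) := by
  rw [derivation_eq_sum, Finset.sum_div]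
  exact Finset.sum_congr rfl fun i _ => mul_div_assoc _ _ _

theorem rk_range_le {F Ω : Type u} [Field F] [CharZero F] [Field Ω] [Algebra F Ω] {p e : ℕ}
    {τ : G2 → Base F p} (h : Eff e τ) (he : 1 ≤ e) (f : Base F p →ₐ[F] Ω) :
    rk F (Set.range fun γ => f (τ γ)) + 1 ≤ e := by
  have : CharZero (Omm F p) := charZero_of_injective_algebraMap (algebraMap F _).injective
  obtain ⟨s, hc, -, hs⟩ := h.master (iOm (Base F p))
  obtain ⟨ψ, hψ⟩ : ∃ ψ : Fin e → AddChar G2 (Omm F p), s = Finset.univ.val.map ψ := by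
    obtain ⟨l, rfl⟩ := Quotient.exists_rep s
    subst hc
    exact ⟨l.get, ((Fin.univ_val_map l.get).trans (congrArg _ (List.ofFn_get l))).symm⟩
  have hsum : ∀ G : AddChar G2 (Omm F p) → Omm F p, (s.map G).sum = ∑ a, G (ψ a) := fun G => by
    rw [hψ, Multiset.map_map]; rfl
  have hne : ∀ a γ, ψ a γ ≠ 0 := fun a γ =>
    (ui_Iso hs (hψ ▸ Multiset.mem_map_of_mem _ (Finset.mem_univ a)) γ).1
  let Φ : Derivation F (Omm F p) (Omm F p) →ₗ[Omm F p] (Fin e → Omm F p) × (Fin e → Omm F p) :=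
    { toFun := fun D => (fun a => D (ψ a (1, 0)) / ψ a (1, 0), fun a => D (ψ a (0, 1)) / ψ a (0, 1))
      map_add' := fun D D' => by ext a <;> simp [add_div]
      map_smul' := fun c D => by ext a <;> simp [mul_div_assoc] }
  have h1 : ∀ (D : Derivation F (Omm F p) (Omm F p)) γ, ∑ a, D (ψ a γ) / ψ a γ = 0 := fun D γ => by
    simp only [ld_sum_Iso D]
    rw [Finset.sum_comm]
    refine Finset.sum_eq_zero fun i _ => ?_
    rw [← Finset.mul_sum, ← hsum fun φ => Dm F p i (φ γ) / φ γ, one_form_sum s hs, mul_zero]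
  have : Nonempty (Fin e) := ⟨⟨0, he⟩⟩
  have hZ := isotropic_finrank (LinearMap.range Φ) (by
    rintro _ ⟨D, rfl⟩ _ ⟨D', rfl⟩
    have e1 : ∀ a, (Φ D).1 a * (Φ D').2 a - (Φ D').1 a * (Φ D).2 a = ∑ i, ∑ l,
        D (rO F p (X i)) * D' (rO F p (X l)) *
        (Dm F p i (ψ a (1, 0)) / ψ a (1, 0) * (Dm F p l (ψ a (0, 1)) / ψ a (0, 1)) -
          Dm F p l (ψ a (1, 0)) / ψ a (1, 0) * (Dm F p i (ψ a (0, 1)) / ψ a (0, 1))) := fun a => by
      change D _ / _ * (D' _ / _) - D' _ / _ * (D _ / _) = _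
      rw [ld_sum_Iso D, ld_sum_Iso D', ld_sum_Iso D', ld_sum_Iso D, mul_comm (∑ _, D' _ * _),
        Finset.sum_mul_sum, Finset.sum_mul_sum, ← Finset.sum_sub_distrib]
      refine Finset.sum_congr rfl fun i _ => ?_
      rw [← Finset.sum_sub_distrib]
      exact Finset.sum_congr rfl fun l _ => by ring
    simp only [e1]
    rw [Finset.sum_comm]
    refine Finset.sum_eq_zero fun i _ => ?_
    rw [Finset.sum_comm]
    refine Finset.sum_eq_zero fun l _ => ?_
    rw [← Finset.mul_sum, ← hsum fun φ =>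
      Dm F p i (φ (1, 0)) / φ (1, 0) * (Dm F p l (φ (0, 1)) / φ (0, 1)) -
        Dm F p l (φ (1, 0)) / φ (1, 0) * (Dm F p i (φ (0, 1)) / φ (0, 1)), two_form_sum s hs,
      mul_zero]) (by rintro _ ⟨D, rfl⟩; exact h1 D _) (by rintro _ ⟨D, rfl⟩; exact h1 D _)
  have hker : ∀ D, Φ D = 0 → ∀ γ, D (rO F p (τ γ)) = 0 := fun D hD γ => by
    rw [show rO F p (τ γ) = _ from hs γ, hsum fun φ => φ γ, map_sum]
    refine Finset.sum_eq_zero fun a _ => ?_
    have a1 : D (ψ a (1, 0)) / ψ a (1, 0) = 0 := congrFun (congrArg Prod.fst hD) a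
    have a2 : D (ψ a (0, 1)) / ψ a (0, 1) = 0 := congrFun (congrArg Prod.snd hD) a
    have a3 : ψ a γ = ψ a (1, 0) ^ γ.1 * ψ a (0, 1) ^ γ.2 := by
      rw [← AddChar.map_zsmul_eq_zpow, ← AddChar.map_zsmul_eq_zpow, ← AddChar.map_add_eq_mul]
      congr 1
      ext <;> simp
    have a4 := dlog_mul D (zpow_ne_zero γ.1 (hne a (1, 0))) (zpow_ne_zero γ.2 (hne a (0, 1)))
    rw [ld_zpow, ld_zpow, a1, a2, mul_zero, mul_zero, add_zero, ← a3] at a4
    exact (div_eq_zero_iff.1 a4).resolve_right (hne a γ)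
  have key : rk F (Set.range fun γ => f (τ γ)) ≤
      (Module.finrank (Omm F p) (LinearMap.range Φ) : ℕ) := by
    refine Matroid.eRk_le_iff.2 fun I hI hind => ?_
    classical
    choose g hg using fun x : I => hI x.2
    have i1 : AlgebraicIndependent F fun x : I => τ (g x) :=
      AlgebraicIndependent.of_comp f (by
        have : f ∘ (fun x : I => τ (g x)) = fun x : I => (x : Ω) := funext hg
        rw [this]
        exact hind)
    have i2 := i1.map' (f := IsScalarTower.toAlgHom F (Base F p) (Omm F p)) (inj_deriv F p)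
    choose D hD using fun x : I => exists_derivation _ i2 (Pi.single x 1)
    have i3 : LinearIndependent (Omm F p) fun x : I => Φ.rangeRestrict (D x) := by
      refine linearIndependent_iff'.2 fun t c hc x hx => ?_
      have b1 : Φ (∑ y ∈ t, c y • D y) = 0 := by
        simpa using congrArg Subtype.val hc
      have b2 := hker _ b1 (g x)
      have b3 : ∀ y, D y (rO F p (τ (g x))) = (Pi.single y 1 : I → Omm F p) x := fun y => hD y x
      rw [sum_apply_deriv] at b2
      simpa [b3, Pi.single_apply, hx] using b2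
    have := i3.finite
    have := Fintype.ofFinite I
    rw [Set.encard_eq_coe_toFinset_card, Set.toFinset_card]
    exact_mod_cast i3.fintype_card_le_finrank
  rw [Fintype.card_fin] at hZ
  calc _ ≤ ((Module.finrank (Omm F p) (LinearMap.range Φ) : ℕ) : ℕ∞) + 1 := by gcongr
    _ ≤ e := by exact_mod_cast hZ

end

end Pool.Agent.MP_e2821c_ag.Dg
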