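import Pool.Agent.Lib.MP_e2821c_ag.Dg.YVal

namespace Pool.Agent.MP_e2821c_ag.Dg

open MvPolynomial

universe u v w

noncomputable section

variable {F : Type u} [Field F] {N : ℕ}

theorem exists_div_YCtrl (x : OmN F N) : ∃ P Q : LP F N, Q ≠ 0 ∧ x * iL F N Q = iL F N P := by
  obtain ⟨⟨P, Q⟩, h⟩ := IsLocalization.surj (nonZeroDivisors (LP F N)) x
  exact ⟨P, Q, nonZeroDivisors.coe_ne_zero Q, h⟩

theorem support_ne_YCtrl {Q : LP F N} (hQ : Q ≠ 0) : Q.coeff.support.Nonempty :=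
  Finsupp.support_nonempty_iff.2 fun h => hQ (AddMonoidAlgebra.coeff_eq_zero.1 h)

theorem iL_ne_YCtrl {Q : LP F N} (hQ : Q ≠ 0) : iL F N Q ≠ 0 :=
  (map_ne_zero_iff _ iL_injective).2 hQ

theorem mem_wpart_YCtrl {w : Fn N} {g : ℝ} {P : LP F N} {m : Lat N} :
    m ∈ (wpart F w g P).coeff.support ↔ m ∈ P.coeff.support ∧ w (toV m) = g := by
  classical
  simp only [wpart, Finsupp.support_filter, Finset.mem_filter]

theorem coeff_wpart_YCtrl (w : Fn N) (g : ℝ) (P : LP F N) (m : Lat N) [Decidable (w (toV m) = g)] :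
    (wpart F w g P).coeff m = if w (toV m) = g then P.coeff m else 0 := by
  simp only [wpart, Finsupp.filter_apply]
  congr

theorem res_div_YCtrl (w : Fn N) {x : OmN F N} {P Q : LP F N} (hx : x ∈ Oh F N) (hQ : Q ≠ 0)
    (h : x * iL F N Q = iL F N P) : ∃ m₀ ∈ Q.coeff.support,
      (∀ m ∈ Q.coeff.support, w (toV m₀) ≤ w (toV m)) ∧ wpart F w (w (toV m₀)) Q ≠ 0 ∧
      res F w x * iL F N (wpart F w (w (toV m₀)) Q) = iL F N (wpart F w (w (toV m₀)) P) := by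
  obtain ⟨m₀, hm, hmin⟩ := Q.coeff.support.exists_min_image (fun m => w (toV m))
    (support_ne_YCtrl hQ)
  exact ⟨m₀, hm, hmin, res_div h (hx w) hm hmin⟩

theorem eqOn_adjoin_YCtrl {Ω : Type u} [Field Ω] [Algebra F Ω] {φ φ' : Module.End F Ω}
    {O : Subalgebra F Ω} (h : HomOn φ (O : Set Ω)) (h' : HomOn φ' (O : Set Ω)) {s : Set Ω}
    (hs : Algebra.adjoin F s ≤ O) (he : ∀ x ∈ s, φ x = φ' x) {x : Ω}
    (hx : x ∈ Algebra.adjoin F s) : φ x = φ' x := by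
  induction hx using Algebra.adjoin_induction with
  | mem x hx => exact he x hx
  | algebraMap c => rw [Algebra.algebraMap_eq_smul_one, map_smul, map_smul, h.1, h'.1]
  | add x y _ _ hx hy => rw [map_add, map_add, hx, hy]
  | mul x y hx' hy' hx hy => rw [h.2 x (hs hx') y (hs hy'), h'.2 x (hs hx') y (hs hy'), hx, hy]

theorem CA_mono {E E' : Set (Vec N)} (h : E ⊆ E') : CA F E ≤ CA F E' := by
  refine Algebra.adjoin_mono ?_
  rintro x ⟨hx, P, Q, hQ, e, hE⟩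
  exact ⟨hx, P, Q, hQ, e, fun a ha b hb => h (hE a ha b hb)⟩

theorem shift_YCtrl {E : Set (Vec N)} {m₀ : Lat N} (R : LP F N)
    (hR : ∀ a ∈ R.coeff.support, toV a - toV m₀ ∈ E) :
    ∀ m ∈ (R * AddMonoidAlgebra.single (-m₀) (1 : F)).coeff.support,
      toV m ∈ Submodule.span ℚ E := fun m hm => by
  rw [Finsupp.mem_support_iff, AddMonoidAlgebra.coeff_mul_single_apply, mul_one, neg_neg,
    ← Finsupp.mem_support_iff] at hm
  have := hR _ hm
  rw [map_add, add_sub_cancel_right] at this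
  exact Submodule.subset_span this

theorem ctrl_mem_YCtrl {E : Set (Vec N)} {x : OmN F N} (h : Ctrl F E x) :
    x ∈ OW F (Submodule.span ℚ E) := by
  obtain ⟨hx, P, Q, hQ, e, hE⟩ := h
  obtain ⟨m₀, hm⟩ := support_ne_YCtrl hQ
  have h1 := shift_YCtrl P fun a ha =>
    hE a (Finset.mem_union_left _ ha) _ (Finset.mem_union_right _ hm)
  have h2 := shift_YCtrl Q fun a ha =>
    hE a (Finset.mem_union_right _ ha) _ (Finset.mem_union_right _ hm)
  rw [mem_OW, mem_KW_iff]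
  refine ⟨hx, _, _, mul_ne_zero hQ (by simp), h1, h2, ?_⟩
  rw [map_mul, map_mul, ← mul_assoc, e]

theorem CA_le_OW (E : Set (Vec N)) : CA F E ≤ OW F (Submodule.span ℚ E) := by
  exact Algebra.adjoin_le fun _ hx => SetLike.mem_coe.2 (ctrl_mem_YCtrl hx)

theorem CA_le_Oh_YCtrl (E : Set (Vec N)) : CA F E ≤ Oh F N :=
  fun _ hx => (mem_OW.1 (CA_le_OW E hx)).1

theorem res_mem_CA (w : Fn N) {E : Set (Vec N)} {x : OmN F N} (hx : x ∈ CA F E) :
    res F w x ∈ CA F (E ∩ LinearMap.ker w) := by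
  induction hx using Algebra.adjoin_induction with
  | mem x hx =>
    obtain ⟨hx, P, Q, hQ, e, hE⟩ := hx
    obtain ⟨m₀, -, -, h1, h2⟩ := res_div_YCtrl w hx hQ e
    refine Algebra.subset_adjoin ⟨res_mem_Oh w hx, _, _, h1, h2, fun a ha b hb => ?_⟩
    have key : ∀ a ∈ (wpart F w (w (toV m₀)) P).coeff.support ∪
        (wpart F w (w (toV m₀)) Q).coeff.support,
        a ∈ P.coeff.support ∪ Q.coeff.support ∧ w (toV a) = w (toV m₀) := fun a ha => by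
      simp only [Finset.mem_union, mem_wpart_YCtrl] at ha ⊢
      tauto
    refine ⟨hE a (key a ha).1 b (key b hb).1, ?_⟩
    rw [SetLike.mem_coe, LinearMap.mem_ker, map_sub, (key a ha).2, (key b hb).2, sub_self]
  | algebraMap c =>
    rw [Algebra.algebraMap_eq_smul_one, map_smul, res_one]
    exact Subalgebra.smul_mem _ (one_mem _) c
  | add x y _ _ hx hy => rw [map_add]; exact add_mem hx hy
  | mul x y hx' hy' hx hy =>
    rw [res_mul (CA_le_Oh_YCtrl E hx' w) (CA_le_Oh_YCtrl E hy' w)]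
    exact mul_mem hx hy

theorem le_CA_inter {A : Subalgebra F (OmN F N)} {E : Set (Vec N)} {W : Sb N} (hE : A ≤ CA F E)
    (hW : A ≤ (KW F W).toSubalgebra) : A ≤ CA F (E ∩ W) := by
  intro x hx
  obtain ⟨w, hw⟩ := exists_fn_ker W
  have := res_mem_CA w (hE hx)
  rwa [res_eq_self hw.ge (hW hx), hw] at this

theorem exists_finset_le_CA_YCtrl (s : Finset (OmN F N)) (hO : ∀ x ∈ s, x ∈ Oh F N) :
    ∃ E : Finset (Vec N), ∀ x ∈ s, x ∈ CA F (E : Set (Vec N)) := by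
  choose P Q hQ e using exists_div_YCtrl (F := F) (N := N)
  refine ⟨s.biUnion fun x => Finset.image₂ (fun a b => toV a - toV b)
    ((P x).coeff.support ∪ (Q x).coeff.support) ((P x).coeff.support ∪ (Q x).coeff.support),
    fun x hx => Algebra.subset_adjoin ⟨hO x hx, P x, Q x, hQ x, e x, fun a ha b hb => ?_⟩⟩
  exact Finset.mem_coe.2 (Finset.mem_biUnion.2 ⟨x, hx, Finset.mem_image₂_of_mem ha hb⟩)

theorem exists_le_CA {A : Subalgebra F (OmN F N)} (hA : A.FG) (hO : A ≤ Oh F N) :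
    ∃ E : Finset (Vec N), A ≤ CA F (E : Set (Vec N)) := by
  obtain ⟨s, rfl⟩ := hA
  obtain ⟨E, hE⟩ := exists_finset_le_CA_YCtrl s fun x hx => hO (Algebra.subset_adjoin hx)
  exact ⟨E, Algebra.adjoin_le hE⟩

theorem exists_finset_le_CA (s : Finset (OmN F N)) (hO : ∀ x ∈ s, x ∈ Oh F N) :
    ∃ E : Finset (Vec N), ∀ x ∈ s, x ∈ CA F (E : Set (Vec N)) := by
  exact exists_finset_le_CA_YCtrl s hO

theorem lexSign_eq_zero_YCtrl {w₁ w₂ : Fn N} {e : Vec N} :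
    lexSign w₁ w₂ e = 0 ↔ w₁ e = 0 ∧ w₂ e = 0 := by
  unfold lexSign
  split_ifs with h <;> simp [h]

theorem lexSign_nonneg_YCtrl {w₁ w₂ : Fn N} {e : Vec N} :
    0 ≤ lexSign w₁ w₂ e ↔ 0 ≤ w₁ e ∧ (w₁ e = 0 → 0 ≤ w₂ e) := by
  unfold lexSign
  split_ifs with h <;> simp [h]

theorem res_mem_EE (w : Fn N) : res F w ∈ EE F N := by
  exact Submonoid.subset_closure ⟨w, rfl⟩

theorem EE_both_YCtrl {φ : Module.End F (OmN F N)} (hφ : φ ∈ EE F N) :
    (∀ x ∈ Oh F N, φ x ∈ Oh F N) ∧ HomOn φ (Oh F N : Set (OmN F N)) := by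
  induction hφ using Submonoid.closure_induction with
  | mem φ h =>
    obtain ⟨w, rfl⟩ := h
    exact ⟨fun x hx => res_mem_Oh w hx, homOn_res w⟩
  | one => exact ⟨fun x hx => hx, rfl, fun _ _ _ _ => rfl⟩
  | mul φ ψ _ _ h1 h2 =>
    refine ⟨fun x hx => h1.1 _ (h2.1 x hx), ?_, fun a ha b hb => ?_⟩
    · rw [Module.End.mul_apply, h2.2.1, h1.2.1]
    · simp only [Module.End.mul_apply]
      rw [h2.2.2 a ha b hb, h1.2.2 _ (h2.1 a ha) _ (h2.1 b hb)]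

theorem res_res_ctrl_YCtrl {E : Set (Vec N)} {w₁ w₂ w₁' w₂' : Fn N}
    (h : ∀ e ∈ E, lexSign w₁ w₂ e = lexSign w₁' w₂' e) {x : OmN F N} (hx : Ctrl F E x) :
    res F w₂ (res F w₁ x) = res F w₂' (res F w₁' x) := by
  classical
  obtain ⟨hx, P, Q, hQ, e, hE⟩ := hx
  obtain ⟨m₁, -, min₁, hQ₁, e₁⟩ := res_div_YCtrl w₁ hx hQ e
  obtain ⟨m, hm, min₂, hQ₂, e₂⟩ := res_div_YCtrl w₂ (res_mem_Oh w₁ hx) hQ₁ e₁
  obtain ⟨hm, em⟩ := mem_wpart_YCtrl.1 hm
  rw [← em] at min₁ min₂ hQ₂ e₂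
  have hl : ∀ a ∈ P.coeff.support ∪ Q.coeff.support,
      lexSign w₁ w₂ (toV a - toV m) = lexSign w₁' w₂' (toV a - toV m) := fun a ha =>
    h _ (hE a ha m (Finset.mem_union_right _ hm))
  have hmin : ∀ a ∈ Q.coeff.support, w₁' (toV m) ≤ w₁' (toV a) ∧
      (w₁' (toV a) = w₁' (toV m) → w₂' (toV m) ≤ w₂' (toV a)) := fun a ha => by
    have h1 : 0 ≤ lexSign w₁ w₂ (toV a - toV m) := by
      rw [lexSign_nonneg_YCtrl, map_sub, map_sub, sub_nonneg, sub_nonneg, sub_eq_zero]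
      exact ⟨min₁ a ha, fun h2 => min₂ a (mem_wpart_YCtrl.2 ⟨ha, h2⟩)⟩
    rwa [hl a (Finset.mem_union_right _ ha), lexSign_nonneg_YCtrl, map_sub, map_sub, sub_nonneg,
      sub_nonneg, sub_eq_zero] at h1
  obtain ⟨-, e₁'⟩ := res_div e (hx w₁') hm fun a ha => (hmin a ha).1
  obtain ⟨-, e₂'⟩ := res_div e₁' (res_mem_Oh w₁' hx w₂') (mem_wpart_YCtrl.2 ⟨hm, rfl⟩)
    fun a ha => (hmin a (mem_wpart_YCtrl.1 ha).1).2 (mem_wpart_YCtrl.1 ha).2
  have key : ∀ R : LP F N, R.coeff.support ⊆ P.coeff.support ∪ Q.coeff.support →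
      wpart F w₂' (w₂' (toV m)) (wpart F w₁' (w₁' (toV m)) R) =
        wpart F w₂ (w₂ (toV m)) (wpart F w₁ (w₁ (toV m)) R) := fun R hR => by
    ext a
    simp only [coeff_wpart_YCtrl, ← ite_and]
    by_cases ha : a ∈ R.coeff.support
    · have h1 := congrArg (· = 0) (hl a (hR ha))
      simp only [lexSign_eq_zero_YCtrl, map_sub, sub_eq_zero, eq_iff_iff] at h1
      exact if_congr (and_comm.trans (h1.symm.trans and_comm)) rfl rfl
    · rw [Finsupp.notMem_support_iff.1 ha, ite_self, ite_self]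
  rw [key P Finset.subset_union_left, key Q Finset.subset_union_right, ← e₂] at e₂'
  exact (mul_right_cancel₀ (iL_ne_YCtrl hQ₂) e₂').symm

theorem res_res_congr {E : Set (Vec N)} {w₁ w₂ w₁' w₂' : Fn N}
    (h : ∀ e ∈ E, lexSign w₁ w₂ e = lexSign w₁' w₂' e) {x : OmN F N} (hx : x ∈ CA F E) :
    res F w₂ (res F w₁ x) = res F w₂' (res F w₁' x) := by
  have h1 := (EE_both_YCtrl (mul_mem (res_mem_EE (F := F) w₂) (res_mem_EE w₁))).2
  have h2 := (EE_both_YCtrl (mul_mem (res_mem_EE (F := F) w₂') (res_mem_EE w₁'))).2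
  have h3 := eqOn_adjoin_YCtrl (s := {x | Ctrl F E x}) h1 h2 (CA_le_Oh_YCtrl E) (fun x hx => by
    rw [Module.End.mul_apply, Module.End.mul_apply]
    exact res_res_ctrl_YCtrl h hx) hx
  rwa [Module.End.mul_apply, Module.End.mul_apply] at h3

theorem EE_maps {φ : Module.End F (OmN F N)} (hφ : φ ∈ EE F N) {x : OmN F N} (hx : x ∈ Oh F N) :
    φ x ∈ Oh F N := by
  exact (EE_both_YCtrl hφ).1 x hx

theorem EE_hom {φ : Module.End F (OmN F N)} (hφ : φ ∈ EE F N) :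
    HomOn φ (Oh F N : Set (OmN F N)) := by
  exact (EE_both_YCtrl hφ).2

theorem finite_parts_YCtrl (P : LP F N) :
    {P' : LP F N | ∀ m, P'.coeff m = P.coeff m ∨ P'.coeff m = 0}.Finite := by
  refine Set.Finite.of_finite_image (f := fun P' => P'.coeff.support)
    (P.coeff.support.powerset.finite_toSet.subset ?_) fun A hA B hB h => ?_
  · rintro _ ⟨A, hA, rfl⟩
    refine Finset.mem_coe.2 (Finset.mem_powerset.2 fun m hm => ?_)
    rw [Finsupp.mem_support_iff] at hm ⊢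
    rwa [← (hA m).resolve_right hm]
  · ext m
    have h1 : m ∈ A.coeff.support ↔ m ∈ B.coeff.support := by rw [show A.coeff.support = _ from h]
    simp only [Finsupp.mem_support_iff, ne_eq, not_iff_not] at h1
    by_cases h2 : A.coeff m = 0
    · rw [h2, h1.1 h2]
    · rw [(hA m).resolve_right h2, (hB m).resolve_right fun h3 => h2 (h1.2 h3)]

theorem EE_orbit_finite {x : OmN F N} (hx : x ∈ Oh F N) :
    {y | ∃ φ ∈ EE F N, y = φ x}.Finite := by
  classical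
  obtain ⟨P, Q, hQ, e⟩ := exists_div_YCtrl x
  let S : OmN F N → Prop := fun y => y ∈ Oh F N ∧ ∃ P' Q' : LP F N,
    (∀ m, P'.coeff m = P.coeff m ∨ P'.coeff m = 0) ∧
    (∀ m, Q'.coeff m = Q.coeff m ∨ Q'.coeff m = 0) ∧ Q' ≠ 0 ∧ y * iL F N Q' = iL F N P'
  have sub : ∀ (w : Fn N) (g : ℝ) (R R' : LP F N),
      (∀ m, R'.coeff m = R.coeff m ∨ R'.coeff m = 0) →
      ∀ m, (wpart F w g R').coeff m = R.coeff m ∨ (wpart F w g R').coeff m = 0 :=
    fun w g R R' h m => by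
      rw [coeff_wpart_YCtrl]
      split_ifs
      exacts [h m, Or.inr rfl]
  have key : ∀ φ ∈ EE F N, ∀ y, S y → S (φ y) := fun φ hφ => by
    induction hφ using Submonoid.closure_induction with
    | mem φ h =>
      obtain ⟨w, rfl⟩ := h
      rintro y ⟨hy, P', Q', h1, h2, h3, h4⟩
      obtain ⟨m₀, -, -, h5, h6⟩ := res_div_YCtrl w hy h3 h4
      exact ⟨res_mem_Oh w hy, _, _, sub _ _ _ _ h1, sub _ _ _ _ h2, h5, h6⟩
    | one => exact fun y hy => hy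
    | mul φ ψ _ _ h1 h2 => exact fun y hy => h1 _ (h2 y hy)
  refine (Set.Finite.image2 (fun P' Q' => iL F N P' / iL F N Q') (finite_parts_YCtrl P)
    (finite_parts_YCtrl Q)).subset ?_
  rintro _ ⟨φ, hφ, rfl⟩
  obtain ⟨-, P', Q', h1, h2, h3, h4⟩ :=
    key φ hφ x ⟨hx, P, Q, fun _ => Or.inl rfl, fun _ => Or.inl rfl, hQ, e⟩
  exact ⟨P', h1, Q', h2, (eq_div_of_mul_eq (iL_ne_YCtrl h3) h4).symm⟩

theorem EE_finres (A : Subalgebra F (OmN F N)) (hA : A.FG) (hO : A ≤ Oh F N) :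
    ∃ Φ : Set (Module.End F (OmN F N)), Φ.Finite ∧ (∀ φ ∈ Φ, φ ∈ EE F N) ∧
      ∀ φ ∈ EE F N, ∃ φ' ∈ Φ, ∀ a ∈ A, φ a = φ' a := by
  obtain ⟨s, rfl⟩ := hA
  let r : Module.End F (OmN F N) → s → OmN F N := fun φ a => φ a
  have h1 : (r '' (EE F N : Set _)).Finite := by
    refine (Set.Finite.pi' fun a : s => EE_orbit_finite (hO (Algebra.subset_adjoin a.2))).subset ?_
    rintro _ ⟨φ, hφ, rfl⟩ a
    exact ⟨φ, hφ, rfl⟩
  obtain ⟨Φ, h2, h3, h4⟩ := h1.exists_subset_finite_image_eq subset_rfl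
  refine ⟨Φ, h3, fun φ hφ => h2 hφ, fun φ hφ => ?_⟩
  obtain ⟨φ', h5, h6⟩ : r φ ∈ r '' Φ := h4 ▸ ⟨φ, hφ, rfl⟩
  exact ⟨φ', h5, fun a ha => eqOn_adjoin_YCtrl (EE_hom hφ) (EE_hom (h2 h5)) hO
    (fun x hx => (congrFun h6 ⟨x, hx⟩).symm) ha⟩

end

end Pool.Agent.MP_e2821c_ag.Dg
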