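import Pool.Agent.Lib.MP_e2821c_ag.Dg.Tree
import Pool.Agent.Lib.MP_e2821c_ag.Dg.YCtrl
import Pool.Agent.Lib.MP_e2821c_ag.Dg.FaceP
import Pool.Agent.Lib.MP_e2821c_ag.Dg.GInj
import Pool.Agent.Lib.MP_e2821c_ag.Dg.Simp
import Pool.Agent.Lib.MP_e2821c_ag.Dg.CoreA
import Pool.Agent.Lib.MP_e2821c_ag.Dg.HomOn

namespace Pool.Agent.MP_e2821c_ag.Dg

open MvPolynomial

universe u v w

noncomputable section

variable {F : Type u} [Field F] [CharZero F] {N : ℕ}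

omit [CharZero F] in
theorem mem_Oh_RootSet {I : Finset (Fin N)} {x : OmN F N} (h : x ∈ PI F I) : x ∈ Oh F N :=
  (mem_OW.1 (PI_le_OW I h)).1

theorem GT.face {I : Finset (Fin N)} {d k : ℕ} {b : Tr (G2 → OmN F N) (k + 1)}
    (h : GT F I d (k + 1) b) {p : ℤ × Tr (G2 → OmN F N) k} (hp : p ∈ Tr.DT k b) :
    GT F I d k p.2 := by
  obtain ⟨h1, e, he, h2⟩ := h
  refine ⟨Tr.Pos.DT ?_ h1 hp, ?_⟩
  · rintro x y ⟨⟨a, ha, ha'⟩, hx⟩ ⟨⟨c, -, hc'⟩, hy⟩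
    exact ⟨⟨a + c, by omega, ha'.add hc'⟩, fun γ => add_mem (hx γ) (hy γ)⟩
  obtain ⟨s, hs, h3⟩ := Tr.sum_leaves_DT hp
  obtain ⟨t, ht⟩ := Multiset.le_iff_exists_add.1 hs
  have h4 : ∀ τ ∈ s + t, ∃ a, Eff a τ := fun τ hτ =>
    (h1.leaves τ (ht ▸ hτ)).1.imp fun _ ha => ha.2
  obtain ⟨a, ha⟩ := Eff.multiset_sum s fun τ hτ => h4 τ (Multiset.mem_add.2 (Or.inl hτ))
  obtain ⟨c, hc⟩ := Eff.multiset_sum t fun τ hτ => h4 τ (Multiset.mem_add.2 (Or.inr hτ))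
  rw [ht, Multiset.sum_add, Pi.add_apply, ha.apply_zero, hc.apply_zero] at h2
  have h5 : a + c = e := by exact_mod_cast h2
  exact ⟨a, by omega, by rw [h3, ha.apply_zero]⟩

theorem GT.tact {I J : Finset (Fin N)} {d k : ℕ} {b : Tr (G2 → OmN F N) k} (h : GT F I d k b)
    {φ : Module.End F (OmN F N)} (hφ : HomOn φ (Oh F N : Set (OmN F N)))
    (hJ : ∀ x ∈ PI F I, φ x ∈ PI F J) : GT F J d k (tact φ k b) := by
  obtain ⟨h1, e, he, h2⟩ := h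
  obtain ⟨f, hf⟩ := hφ.exists_algHom
  refine ⟨h1.map _ fun τ hτ => ?_, e, he, ?_⟩
  · obtain ⟨⟨a, ha, ha'⟩, hx⟩ := h1.leaves τ hτ
    have h3 : Eff a fun γ => (⟨τ γ, mem_Oh_RootSet (hx γ)⟩ : Oh F N) :=
      Eff.of_injective (Oh F N).val.toRingHom Subtype.val_injective ha'
    refine ⟨⟨a, ha, ?_⟩, fun γ => hJ _ (hx γ)⟩
    have h4 := h3.map f.toRingHom
    have h5 : (fun γ => f.toRingHom (⟨τ γ, mem_Oh_RootSet (hx γ)⟩ : Oh F N)) =
        fun γ => φ (τ γ) := funext fun γ => hf _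
    rwa [h5] at h4
  · have h3 := map_multiset_sum (φ.toAddMonoidHom.compLeft G2) (Tr.leaves k b)
    have h4 : Tr.leaves k (Dg.tact φ k b) =
        (Tr.leaves k b).map (φ.toAddMonoidHom.compLeft G2) := Tr.leaves_map _ k b
    rw [h4, ← h3]
    change φ ((Tr.leaves k b).sum 0) = _
    rw [h2, ← nsmul_one, map_nsmul, hφ.1]

theorem GT.vals_subset {I : Finset (Fin N)} {d k : ℕ} {b : Tr (G2 → OmN F N) k}
    (h : GT F I d k b) : vals k b ⊆ PI F I := by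
  rintro _ ⟨τ, hτ, γ, rfl⟩
  exact (h.1.leaves τ hτ).2 γ

theorem const_RootSet {Ω : Type u} [Field Ω] [CharZero Ω] [Algebra F Ω] {p e : ℕ}
    (g : Base F p →ₐ[F] Ω) {τ : G2 → Base F p} (h : Eff e τ) :
    ∃ c ∈ CR (⊥ : Subalgebra F Ω).toSubring 0, Bd ⊤ (red (cst 0 fun γ => g (τ γ)) - c) := by
  have h1 : τ ∈ CorrIn G2 ((⊤ : Subring (Base F p)) : Set (Base F p)) :=
    subset_satClosure ⟨⟨e, h⟩, fun _ => Subring.mem_top _⟩
  have h2 := ((bd_contract (R := F) (σ := Fin p) (cst_mem_Ch h1 0) trivial).pushR (A' := ⊤)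
    g.toRingHom fun _ _ => Subring.mem_top _).red
  rw [map_sub, pushR_pushR, push_cst, push_cst, map_sub] at h2
  have h3 : (fun γ => (g.toRingHom.comp ((C : F →+* Base F p).comp constantCoeff)) (τ γ)) ∈
      CorrIn G2 ((⊥ : Subalgebra F Ω).toSubring : Set Ω) :=
    subset_satClosure ⟨⟨e, h.map _⟩, fun γ => ⟨constantCoeff (τ γ), (g.commutes _).symm⟩⟩
  exact ⟨_, red_mem_CR (cst_mem_Ch h3 0), h2⟩

theorem leafOk_const {I : Finset (Fin N)} (hI : I.Nonempty) {τ : G2 → OmN F N}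
    (h : LeafOk F I τ) : ∃ c ∈ CR (⊥ : Subalgebra F (OmN F N)).toSubring 0,
      Bd ⊤ (red (cst 0 τ) - c) := by
  obtain ⟨⟨e, -, he⟩, hx⟩ := h
  obtain ⟨p, f, hf, rfl⟩ := exists_emb hI
  rw [← range_emb hf] at hx
  choose τ₀ hτ₀ using hx
  obtain rfl : τ = fun γ => emb F f (τ₀ γ) := funext fun γ => (hτ₀ γ).symm
  exact const_RootSet (emb F f) (Eff.of_injective (emb F f).toRingHom (emb_injective hf) he)

/-- Iterated faces of a family of trees. -/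
def iter_RootSet {M : Type u} [AddCommMonoid M] (B₀ : ∀ k, Set (Tr M k)) : ℕ → ∀ k, Set (Tr M k)
  | 0, k => B₀ k
  | j + 1, k => {x | ∃ b ∈ iter_RootSet B₀ j (k + 1), ∃ p ∈ Tr.DT k b, p.2 = x}

theorem closure_RootSet {M : Type u} [AddCommMonoid M] {m : ℕ} (B₀ : ∀ k, Set (Tr M k))
    (hfin : ∀ k, (B₀ k).Finite) (hm : ∀ k, m ≤ k → B₀ k = ∅) (P : ∀ k, Tr M k → Prop)
    (hP : ∀ k b, P (k + 1) b → ∀ p ∈ Tr.DT k b, P k p.2) (hB : ∀ k, ∀ b ∈ B₀ k, P k b) :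
    ∃ B₁ : ∀ k, Set (Tr M k), (∀ k, (B₁ k).Finite) ∧ (∀ k, B₀ k ⊆ B₁ k) ∧
      (∀ k, ∀ b ∈ B₁ k, P k b) ∧ ∀ k, ∀ b ∈ B₁ (k + 1), ∀ p ∈ Tr.DT k b, p.2 ∈ B₁ k := by
  have h1 : ∀ j k, (iter_RootSet B₀ j k).Finite := by
    intro j
    induction j with
    | zero => exact hfin
    | succ j ih =>
      intro k
      refine ((ih (k + 1)).biUnion fun b _ =>
        ((Tr.DT k b).finite_toSet.image Prod.snd)).subset ?_
      rintro _ ⟨b, hb, p, hp, rfl⟩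
      exact Set.mem_biUnion hb ⟨p, hp, rfl⟩
  have h2 : ∀ j k, m ≤ j + k → ∀ b, b ∉ iter_RootSet B₀ j k := by
    intro j
    induction j with
    | zero =>
      intro k hk b hb
      exact (hm k (by omega)).subset hb
    | succ j ih =>
      rintro k hk _ ⟨b, hb, -⟩
      exact ih (k + 1) (by omega) b hb
  have h3 : ∀ j k, ∀ b ∈ iter_RootSet B₀ j k, P k b := by
    intro j
    induction j with
    | zero => exact hB
    | succ j ih =>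
      rintro k _ ⟨b, hb, p, hp, rfl⟩
      exact hP k b (ih _ b hb) p hp
  refine ⟨fun k => {b | ∃ j, b ∈ iter_RootSet B₀ j k}, fun k => ?_, fun k b hb => ⟨0, hb⟩,
    fun k b ⟨j, hj⟩ => h3 j k b hj, fun k b ⟨j, hj⟩ p hp => ⟨j + 1, b, hj, p, hp, rfl⟩⟩
  refine ((Set.finite_Iio m).biUnion fun j _ => h1 j k).subset ?_
  rintro b ⟨j, hj⟩
  exact Set.mem_biUnion (show j < m from not_le.1 fun h => h2 j k (by omega) b hj) hj

theorem orbit_RootSet {I : Finset (Fin N)} {d k : ℕ} {b : Tr (G2 → OmN F N) k}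
    (h : GT F I d k b) : {x | ∃ φ ∈ EE F N, x = tact φ k b}.Finite := by
  obtain ⟨Φ, h1, -, h2⟩ := EE_finres (Algebra.adjoin F (vals k b))
    (fg_adjoin_vals fun τ hτ => (h.1.leaves τ hτ).1.imp fun _ ha => ha.2)
    (Algebra.adjoin_le fun x hx => mem_Oh_RootSet (h.vals_subset hx))
  refine (h1.image fun φ : Module.End F (OmN F N) => tact φ k b).subset ?_
  rintro _ ⟨φ, hφ, rfl⟩
  obtain ⟨φ', a1, a2⟩ := h2 φ hφ
  exact ⟨φ', a1, tact_congr fun x hx => (a2 x (Algebra.subset_adjoin hx)).symm⟩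

theorem exists_ctx {d m : ℕ} (B₀ : ∀ k, Set (Tr (G2 → OmN F N) k)) (hfin : ∀ k, (B₀ k).Finite)
    (hm : ∀ k, m ≤ k → B₀ k = ∅)
    (hB : ∀ k, ∀ b ∈ B₀ k, ∃ I : Finset (Fin N), I.Nonempty ∧ GT F I d k b) :
    ∃ C : Ctx F (OmN F N), IsStd F C d ∧ ∀ k, B₀ k ⊆ C.BB k := by
  obtain ⟨B₁, h1, h2, h3, h4⟩ := closure_RootSet B₀ hfin hm
    (fun k b => ∃ I : Finset (Fin N), I.Nonempty ∧ GT F I d k b)
    (fun k b ⟨I, hI, h⟩ p hp => ⟨I, hI, h.face hp⟩) hB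
  have good : ∀ k, ∀ x ∈ {x | ∃ b ∈ B₁ k, ∃ φ ∈ EE F N, x = tact φ k b},
      ∃ I : Finset (Fin N), I.Nonempty ∧ GT F I d k x := by
    rintro k _ ⟨b, hb, φ, hφ, rfl⟩
    obtain ⟨I, hI, h⟩ := h3 k b hb
    obtain ⟨J, hJ, h'⟩ := EE_maps_PI hφ hI
    exact ⟨J, hJ, h.tact (EE_hom hφ) h'⟩
  refine ⟨{ Oh := Oh F N
            EE := EE F N
            BB := fun k => {x | ∃ b ∈ B₁ k, ∃ φ ∈ EE F N, x = tact φ k b}
            hom := fun φ hφ => EE_hom hφ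
            maps := fun φ hφ x hx => EE_maps hφ hx
            finres := EE_finres
            fin := fun k => ?_
            bact := ?_
            bface := ?_
            beff := fun k b hb τ hτ => ?_
            inj := inj_Oh
            onto := onto_Om
            onto0 := fun b hb => ?_ }, ⟨rfl, rfl, good⟩, fun k b hb => ?_⟩
  · refine ((h1 k).biUnion fun b hb => (h3 k b hb).elim fun I hI => orbit_RootSet hI.2).subset ?_
    rintro x ⟨b, hb, hx⟩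
    exact Set.mem_biUnion hb hx
  · rintro k _ ⟨b, hb, φ, hφ, rfl⟩ φ' hφ'
    exact ⟨b, hb, φ' * φ, mul_mem hφ' hφ, tact_tact _ _ k b⟩
  · rintro k _ ⟨b, hb, φ, hφ, rfl⟩ p hp
    rw [DT_tact] at hp
    obtain ⟨p', hp', rfl⟩ := Multiset.mem_map.1 hp
    exact ⟨p'.2, h4 k b hb p' hp', φ, hφ, rfl⟩
  · obtain ⟨I, -, h⟩ := good k b hb
    obtain ⟨a1, a2⟩ := h.1.leaves τ hτ
    exact ⟨a1.imp fun _ ha => ha.2, fun γ => mem_Oh_RootSet (a2 γ)⟩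
  · obtain ⟨I, hI, h⟩ := good 0 b hb
    exact leafOk_const hI h.1
  · exact ⟨b, h2 k hb, 1, one_mem _, (Tr.map_id k b).symm⟩

end

end Pool.Agent.MP_e2821c_ag.Dg
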