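import Pool.Agent.Lib.MP_e2821c_ag.Dg.TrG

namespace Pool.Agent.MP_e2821c_ag.Dg

open MvPolynomial

universe u v w

noncomputable section

variable {Γ : Type} [AddCommGroup Γ] {R A : Type u} [CommRing R] [CommRing A] {g : R →+* A}
  {ι : AddChar Γ A}

theorem push_taut (R : Type u) [CommRing R] (Γ : Type) [AddCommGroup Γ] :
    Push (algebraMap R (AddMonoidAlgebra R Γ)) (taut R (AddMonoidHom.id Γ)) := by
  constructor
  · rw [eq_top_iff]
    rintro x -
    induction x using AddMonoidAlgebra.induction_linear with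
    | zero => exact zero_mem _
    | add x y hx hy => exact add_mem hx hy
    | single m r =>
      have h : (AddMonoidAlgebra.single m r : AddMonoidAlgebra R Γ) =
          algebraMap R (AddMonoidAlgebra R Γ) r * taut R (AddMonoidHom.id Γ) m := by
        simp [AddMonoidAlgebra.single_mul_single]
      rw [h]
      exact mul_mem (Subring.subset_closure (Or.inl ⟨r, rfl⟩))
        (Subring.subset_closure (Or.inr ⟨m, rfl⟩))
  · intro E _ f ψ
    refine ⟨AddMonoidAlgebra.liftNCRingHom f ψ.toMonoidHom fun _ _ => Commute.all _ _, ?_, ?_⟩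
    · ext r
      simp
    · intro γ
      simp

theorem Push.hom_ext (h : Push g ι) {E : Type v} [CommRing E] {e e' : A →+* E}
    (h1 : e.comp g = e'.comp g) (h2 : ∀ γ, e (ι γ) = e' (ι γ)) : e = e' := by
  refine RingHom.eq_of_eqOn_set_dense h.gen ?_
  rintro x (⟨r, rfl⟩ | ⟨γ, rfl⟩)
  · exact DFunLike.congr_fun h1 r
  · exact h2 γ

/-- The composition of a character with a ring map. -/
def chr_Struct {E : Type v} [CommRing E] (e : A →+* E) (ι : AddChar Γ A) : AddChar Γ E where
  toFun γ := e (ι γ)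
  map_zero_eq_one' := by rw [ι.map_zero_eq_one, map_one]
  map_add_eq_mul' a b := by rw [ι.map_add_eq_mul, map_mul]

theorem chr_apply_Struct {E : Type v} [CommRing E] (e : A →+* E) (ι : AddChar Γ A) (γ : Γ) :
    chr_Struct e ι γ = e (ι γ) := rfl

theorem exists_lift_Struct {B S M : Type*} [CommRing B] [IsDomain B] [Field S] [Field M]
    [IsAlgClosed M] (f : B →+* S) (f' : B →+* M) (hf : Function.Injective f)
    (hf' : Function.Injective f')
    (halg : ∀ x : S, ∃ p : Polynomial B, p ≠ 0 ∧ Polynomial.eval₂ f x p = 0) :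
    ∃ σ : S →+* M, σ.comp f = f' := by
  let _ := f.toAlgebra
  let _ := f'.toAlgebra
  have : FaithfulSMul B S := (faithfulSMul_iff_algebraMap_injective _ _).2 hf
  have : FaithfulSMul B M := (faithfulSMul_iff_algebraMap_injective _ _).2 hf'
  have : Algebra.IsAlgebraic B S := ⟨fun x => halg x⟩
  exact ⟨(IsAlgClosed.lift : S →ₐ[B] M), (IsAlgClosed.lift : S →ₐ[B] M).comp_algebraMap⟩

theorem finiteType_Struct [Module.Finite ℤ Γ] (h : Push g ι) : g.FiniteType := by
  have : AddMonoid.FG Γ :=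
    AddGroup.fg_iff_addMonoid_fg.1 (Module.Finite.iff_addGroup_fg.1 inferInstance)
  let φ : AddMonoidAlgebra R Γ →+* A :=
    AddMonoidAlgebra.liftNCRingHom g ι.toMonoidHom fun _ _ => Commute.all _ _
  have h1 : φ.comp (algebraMap R (AddMonoidAlgebra R Γ)) = g := by
    ext r
    simp [φ]
  have h2 : Function.Surjective φ := by
    rw [← RingHom.range_eq_top, eq_top_iff, ← h.gen, Subring.closure_le]
    rintro x (⟨r, rfl⟩ | ⟨γ, rfl⟩)
    · exact ⟨algebraMap R _ r, DFunLike.congr_fun h1 r⟩
    · exact ⟨AddMonoidAlgebra.single γ 1, by simp [φ]⟩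
  rw [← h1]
  exact (RingHom.FiniteType.of_surjective φ h2).comp
    (RingHom.finiteType_algebraMap.2 inferInstance)

/-- The finitely supported function attached to a multiset. -/
def fs_Struct {α : Type*} (m : Multiset α) : α →₀ ℤ := (m.map fun P => Finsupp.single P 1).sum

theorem fs_add_Struct {α : Type*} (m m' : Multiset α) :
    fs_Struct (m + m') = fs_Struct m + fs_Struct m' := by
  rw [fs_Struct, Multiset.map_add, Multiset.sum_add]; rfl

theorem lc_fs_Struct {α G : Type*} [AddCommGroup G] (f : α → G) (m : Multiset α) :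
    Finsupp.linearCombination ℤ f (fs_Struct m) = (m.map f).sum := by
  rw [fs_Struct, map_multiset_sum, Multiset.map_map]
  congr 1
  exact Multiset.map_congr rfl fun x _ => by simp

theorem fs_apply_Struct {α : Type*} [DecidableEq α] (m : Multiset α) (a : α) :
    fs_Struct m a = (m.count a : ℤ) := by
  induction m using Multiset.induction_on with
  | empty => simp [fs_Struct]
  | cons b m ih =>
    rw [← Multiset.singleton_add, fs_add_Struct, Finsupp.add_apply, ih, Multiset.count_add,
      Multiset.count_singleton]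
    simp [fs_Struct, Finsupp.single_apply, eq_comm]

theorem fs_injective_Struct {α : Type*} {m m' : Multiset α} (h : fs_Struct m = fs_Struct m') :
    m = m' := by
  classical
  refine Multiset.ext.2 fun a => ?_
  have := DFunLike.congr_fun h a
  rw [fs_apply_Struct, fs_apply_Struct] at this
  exact_mod_cast this

theorem count_map_Struct {α β : Type*} [DecidableEq β] (f : α → β) (m : Multiset α) (x : β) :
    (((m.map f).count x : ℕ) : ℤ) = (m.map fun a => if x = f a then (1 : ℤ) else 0).sum := by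
  induction m using Multiset.induction_on with
  | empty => simp
  | cons b m ih =>
    rw [Multiset.map_cons, Multiset.map_cons, Multiset.sum_cons, Multiset.count_cons, ← ih]
    split_ifs <;> simp [add_comm]

variable [IsDomain R]

theorem isElem_ker_Struct [Module.Finite ℤ Γ] (h : Push g ι) (e : A →+* Cy.Om R)
    (he : e.comp g = iOm R) (hi : ∀ γ, (iOm R).IsIntegralElem (e (ι γ))) :
    IsElem R A g (RingHom.ker e) := by
  refine ⟨RingHom.ker_isPrime e, ?_, ?_⟩
  · refine RingHom.IsIntegral.to_finite ?_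
      ((RingHom.FiniteType.of_surjective _ Ideal.Quotient.mk_surjective).comp
        (finiteType_Struct h))
    have h1 : ∀ y : A, IsIntegral R (e y) := by
      intro y
      have h2 : Subring.closure (Set.range g ∪ Set.range ι) ≤
          (integralClosure R (Cy.Om R)).toSubring.comap e := by
        rw [Subring.closure_le]
        rintro x (⟨r, rfl⟩ | ⟨γ, rfl⟩)
        · have h3 : e (g r) = algebraMap R (Cy.Om R) r := DFunLike.congr_fun he r
          show IsIntegral R (e (g r))
          rw [h3]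
          exact isIntegral_algebraMap
        · exact hi γ
      exact h2 (h.gen ▸ Subring.mem_top y)
    intro x
    obtain ⟨y, rfl⟩ := Ideal.Quotient.mk_surjective x
    obtain ⟨p, hp, h2⟩ := h1 y
    refine ⟨p, hp, ?_⟩
    rw [← Polynomial.hom_eval₂, Ideal.Quotient.eq_zero_iff_mem, RingHom.mem_ker,
      Polynomial.hom_eval₂, he]
    exact h2
  · rw [RingHom.comap_ker, he]
    exact (RingHom.injective_iff_ker_eq_bot _).1 (iOm_injective R)

theorem exists_conj_Struct {P : Ideal A} {e e' : A →+* Cy.Om R} (he : e ∈ homs g P)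
    (he' : e' ∈ homs g P) : ∃ σ : Cy.Om R →+* Cy.Om R, σ.comp e = e' := by
  obtain ⟨h1, rfl⟩ := he
  obtain ⟨h2, h3⟩ := he'
  have : (RingHom.ker e).IsPrime := RingHom.ker_isPrime e
  let f' : A ⧸ RingHom.ker e →+* Cy.Om R :=
    Ideal.Quotient.lift _ e' fun a ha => RingHom.mem_ker.1 (h3.symm ▸ ha)
  have hf' : Function.Injective f' :=
    RingHom.lift_injective_of_ker_le_ideal _ _ h3.le
  have h4 : (RingHom.kerLift e).comp ((Ideal.Quotient.mk (RingHom.ker e)).comp g) = iOm R := by
    rw [← h1]; rfl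
  have h5 : Function.Injective ((Ideal.Quotient.mk (RingHom.ker e)).comp g) := by
    apply Function.Injective.of_comp (f := RingHom.kerLift e)
    rw [← RingHom.coe_comp, h4]
    exact iOm_injective R
  have halg : Algebra.IsAlgebraic R (Cy.Om R) :=
    (IsFractionRing.comap_isAlgebraic_iff (A := R) (K := FractionRing R)).2 inferInstance
  obtain ⟨σ, hσ⟩ := exists_lift_Struct (RingHom.kerLift e) f' (RingHom.kerLift_injective e) hf'
    fun x => by
      obtain ⟨p, hp, h6⟩ := halg.isAlgebraic x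
      refine ⟨p.map ((Ideal.Quotient.mk (RingHom.ker e)).comp g),
        (Polynomial.map_ne_zero_iff h5).2 hp, ?_⟩
      rw [Polynomial.eval₂_map, h4]
      exact h6
  exact ⟨σ, RingHom.ext fun a => DFunLike.congr_fun hσ (Ideal.Quotient.mk _ a)⟩

open Classical in
theorem decomp_Struct (n : ℕ) : ∀ s : Multiset (A →+* Cy.Om R), s.card = n →
    (∀ e ∈ s, ∃ P : ElemOf R A g, e ∈ homs g P.1) →
    (∀ (P : Ideal A) e e', e ∈ homs g P → e' ∈ homs g P → s.count e = s.count e') →
    ∃ m : Multiset (ElemOf R A g), s = m.bind fun P => (homs_finite P).toFinset.val := by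
  induction n using Nat.strong_induction_on with
  | _ n ih =>
    intro s hn h1 h2
    rcases s.empty_or_exists_mem with rfl | ⟨e, he⟩
    · exact ⟨0, rfl⟩
    obtain ⟨P, hP⟩ := h1 e he
    have hle : (homs_finite P).toFinset.val ≤ s := by
      rw [Finset.val_le_iff_val_subset]
      intro e' he'
      have h3 : e' ∈ homs g P.1 := (Set.Finite.mem_toFinset _).1 he'
      rw [← Multiset.count_pos, h2 P.1 e' e h3 hP, Multiset.count_pos]
      exact he
    have hpos : 0 < (homs_finite P).toFinset.val.card :=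
      Finset.card_pos.2 ⟨e, (Set.Finite.mem_toFinset _).2 hP⟩
    have hc := Multiset.card_le_card hle
    obtain ⟨m, hm⟩ := ih (s - (homs_finite P).toFinset.val).card
      (by rw [Multiset.card_sub hle]; omega) _ rfl
      (fun e' he' => h1 e' (Multiset.mem_of_le (Multiset.sub_le_self _ _) he'))
      (fun Q a b ha hb => by
        have h3 : a ∈ (homs_finite P).toFinset.val ↔ b ∈ (homs_finite P).toFinset.val := by
          rw [Finset.mem_val, Finset.mem_val, Set.Finite.mem_toFinset, Set.Finite.mem_toFinset]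
          exact ⟨fun h => ⟨hb.1, hb.2.trans (ha.2.symm.trans h.2)⟩,
            fun h => ⟨ha.1, ha.2.trans (hb.2.symm.trans h.2)⟩⟩
        rw [Multiset.count_sub, Multiset.count_sub, h2 Q a b ha hb,
          Multiset.count_eq_of_nodup (homs_finite P).toFinset.nodup,
          Multiset.count_eq_of_nodup (homs_finite P).toFinset.nodup, if_congr h3 rfl rfl])
    exact ⟨P ::ₘ m, by rw [Multiset.cons_bind, ← hm, add_comm, Multiset.sub_add_cancel hle]⟩

variable [QAlg R] [IsIntegrallyClosed R]

theorem iOm_trG_Struct (P : ElemOf R A g) (y : A) :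
    iOm R (trG g P.1 y) = ∑ e ∈ (homs_finite P).toFinset, e y := by
  rw [iOm_trG_elem, finsum_mem_eq_finite_toFinset_sum _ (homs_finite P)]

theorem eff_trG (ι : AddChar Γ A) (P : ElemOf R A g) :
    Eff (degree R A g P) fun γ => trG g P.1 (ι γ) := by
  obtain ⟨l, hl, h⟩ := exists_rEff_trG_elem P
  simpa only [h] using hl.comp_char ι

theorem trG_indep (h : Push g ι) (c : ElemOf R A g →₀ ℤ)
    (hc : ∀ γ, (c.sum fun P z => z • trG g P.1 (ι γ)) = 0) : c = 0 := by
  classical
  have : QAlg (Cy.Om R) := QAlg.of_ringHom (iOm R)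
  have : CharZero (Cy.Om R) := QAlg.charZero _
  let c' : AddChar Γ (Cy.Om R) →₀ Cy.Om R := ∑ P ∈ c.support, ∑ e ∈ (homs_finite P).toFinset,
    Finsupp.single (chr_Struct e ι) (c P : Cy.Om R)
  have h1 : c' = 0 := by
    refine dedekind_finsupp c' fun γ => ?_
    have h2 : (c'.sum fun ψ a => a * ψ γ) =
        Finsupp.linearCombination (Cy.Om R) (fun ψ : AddChar Γ (Cy.Om R) => ψ γ) c' := rfl
    have h3 := congrArg (iOm R) (hc γ)
    rw [Finsupp.sum, map_sum, map_zero] at h3
    rw [h2, map_sum, ← h3]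
    refine Finset.sum_congr rfl fun P _ => ?_
    rw [map_sum, map_zsmul, iOm_trG_Struct, Finset.smul_sum]
    refine Finset.sum_congr rfl fun e _ => ?_
    rw [Finsupp.linearCombination_single, chr_apply_Struct, smul_eq_mul, zsmul_eq_mul]
  ext P
  by_contra hP
  obtain ⟨e, he⟩ := homs_nonempty P
  have h2 : ∀ (Q : ElemOf R A g) e', e' ∈ homs g Q.1 → chr_Struct e' ι = chr_Struct e ι →
      e' = e := fun Q e' he' h3 =>
    h.hom_ext (he'.1.trans he.1.symm) fun γ => DFunLike.congr_fun h3 γ
  have h3 : c' (chr_Struct e ι) = (c P : Cy.Om R) := by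
    rw [Finsupp.finsetSum_apply, Finset.sum_eq_single P, Finsupp.finsetSum_apply,
      Finset.sum_eq_single e, Finsupp.single_eq_same]
    · intro e' he' hne
      exact Finsupp.single_eq_of_ne' fun h4 =>
        hne (h2 P e' ((Set.Finite.mem_toFinset _).1 he') h4)
    · intro h4
      exact absurd ((Set.Finite.mem_toFinset _).2 he) h4
    · intro Q _ hne
      rw [Finsupp.finsetSum_apply]
      refine Finset.sum_eq_zero fun e' he' => Finsupp.single_eq_of_ne' fun h4 => hne ?_
      have h5 := (Set.Finite.mem_toFinset _).1 he'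
      have h6 := h2 Q e' h5 h4
      exact Subtype.ext (h5.2.symm.trans (h6 ▸ he.2))
    · intro h4
      exact absurd (Finsupp.mem_support_iff.2 hP) h4
  rw [h1, Finsupp.zero_apply] at h3
  exact hP (Int.cast_eq_zero.1 h3.symm)

theorem trG_indep_ideal (h : Push g ι) (c : Ideal A →₀ ℤ) (he : ∀ P ∈ c.support, IsElem R A g P)
    (hc : ∀ γ, (c.sum fun P z => z • trG g P (ι γ)) = 0) : c = 0 := by
  refine (Finsupp.subtypeDomain_eq_zero_iff he).1 (trG_indep h _ fun γ => ?_)
  exact (Finsupp.sum_subtypeDomain_index (h := fun P z => z • trG g P (ι γ)) he).trans (hc γ)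

theorem exists_elems [Module.Finite ℤ Γ] (h : Push g ι) {d : ℕ} {τ : Γ → R} (hτ : Eff d τ) :
    ∃ m : Multiset (ElemOf R A g), ∀ γ, τ γ = (m.map fun P => trG g P.1 (ι γ)).sum := by
  classical
  have : QAlg (Cy.Om R) := QAlg.of_ringHom (iOm R)
  have : CharZero (Cy.Om R) := QAlg.charZero _
  obtain ⟨s, -, hint, hs⟩ := hτ.master (iOm R)
  choose E hE1 hE2 using h.univ (Cy.Om R) (iOm R)
  have hE3 : ∀ ψ, chr_Struct (E ψ) ι = ψ := fun ψ => DFunLike.ext _ _ (hE2 ψ)
  have hEi : Function.Injective E := Function.LeftInverse.injective (g := fun e => chr_Struct e ι) hE3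
  have hE4 : ∀ e : A →+* Cy.Om R, e.comp g = iOm R → E (chr_Struct e ι) = e := fun e he =>
    h.hom_ext ((hE1 _).trans he.symm) fun γ => hE2 _ γ
  have hst : ∀ σ : Cy.Om R →+* Cy.Om R, σ.comp (iOm R) = iOm R → ∀ ψ,
      s.count (chr_Struct σ ψ) = s.count ψ := by
    intro σ hσ ψ
    have h1 : s.map (chr_Struct σ) = s := by
      refine dedekind_multiset fun γ => ?_
      have h2 : σ (iOm R (τ γ)) = iOm R (τ γ) := DFunLike.congr_fun hσ _
      rw [← hs γ, ← h2, hs γ, map_multiset_sum, Multiset.map_map, Multiset.map_map]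
      rfl
    have h2 : Function.Injective (chr_Struct (Γ := Γ) σ) := fun a b hab =>
      DFunLike.ext _ _ fun γ => σ.injective (DFunLike.congr_fun hab γ)
    rw [← Multiset.count_map_eq_count' _ s h2 ψ, h1]
  obtain ⟨m, hm⟩ := decomp_Struct (g := g) _ (s.map E) rfl
    (fun e he => by
      obtain ⟨ψ, hψ, rfl⟩ := Multiset.mem_map.1 he
      exact ⟨⟨_, isElem_ker_Struct h (E ψ) (hE1 ψ) fun γ => (hE2 ψ γ).symm ▸ hint ψ hψ γ⟩,
        hE1 ψ, rfl⟩)
    (fun P e e' he he' => by
      obtain ⟨σ, hσ⟩ := exists_conj_Struct he he'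
      have h1 : σ.comp (iOm R) = iOm R := by
        conv_lhs => rw [← he.1]
        rw [← RingHom.comp_assoc, hσ, he'.1]
      have h2 : chr_Struct e' ι = chr_Struct σ (chr_Struct e ι) := by
        rw [← hσ]; rfl
      have h3 := Multiset.count_map_eq_count' E s hEi (chr_Struct e ι)
      have h4 := Multiset.count_map_eq_count' E s hEi (chr_Struct e' ι)
      rw [hE4 e he.1] at h3
      rw [hE4 e' he'.1, h2, hst σ h1] at h4
      convert h3.trans h4.symm)
  refine ⟨m, fun γ => iOm_injective R ?_⟩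
  have h1 : (s.map fun ψ => ψ γ) = (s.map E).map fun e => e (ι γ) := by
    rw [Multiset.map_map]
    exact Multiset.map_congr rfl fun ψ _ => (hE2 ψ γ).symm
  rw [hs γ, h1, hm, Multiset.map_bind, Multiset.sum_bind, map_multiset_sum, Multiset.map_map]
  congr 1
  exact Multiset.map_congr rfl fun P _ => (iOm_trG_Struct P (ι γ)).symm

theorem exists_finsupp_of_corr [Module.Finite ℤ Γ] (h : Push g ι) {τ : Γ → R}
    (hτ : τ ∈ CorrIn Γ (Set.univ : Set R)) : ∃ N : ℕ, N ≠ 0 ∧ ∃ c : ElemOf R A g →₀ ℤ,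
      ∀ γ, N • τ γ = c.sum fun P z => z • trG g P.1 (ι γ) := by
  obtain ⟨N, hN, e, e', σ, σ', h1, h2, -, -, h3⟩ :=
    exists_sub_of_mem_corrIn (⊤ : AddSubmonoid R) hτ
  obtain ⟨m, hm⟩ := exists_elems h h1
  obtain ⟨m', hm'⟩ := exists_elems h h2
  refine ⟨N, hN, fs_Struct m - fs_Struct m', fun γ => ?_⟩
  have h4 : N • τ γ = σ γ - σ' γ := congrFun h3 γ
  rw [h4, hm, hm', ← lc_fs_Struct, ← lc_fs_Struct, ← map_sub]
  rfl

open Classical in
theorem exists_dec (R : Type u) [CommRing R] [IsDomain R] [QAlg R] [IsIntegrallyClosed R]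
    (Γ : Type) [AddCommGroup Γ] [Module.Finite ℤ Γ] :
    ∃ dec : (Γ → R) → Multiset (Γ → R), dec 0 = 0 ∧
      (∀ τ τ', (∃ d, Eff d τ) → (∃ d, Eff d τ') → dec (τ + τ') = dec τ + dec τ') ∧
      (∀ τ, (∃ d, Eff d τ) → (dec τ).sum = τ ∧ ∀ x ∈ dec τ, ∃ e, 1 ≤ e ∧ Eff e x) ∧
      ∀ c : (Γ → R) →₀ ℤ, (∀ τ ∈ c.support, ∃ d, Eff d τ) → (c.sum fun τ z => z • τ) = 0 →
        ∀ x, (c.sum fun τ z => z * ((dec τ).count x : ℤ)) = 0 := by
  have h := push_taut R Γ
  generalize taut R (AddMonoidHom.id Γ) = ι at h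
  generalize algebraMap R (AddMonoidAlgebra R Γ) = g at h
  let T : ElemOf R _ g → Γ → R := fun P γ => trG g P.1 (ι γ)
  have hT : ∀ c, Finsupp.linearCombination ℤ T c = 0 → c = 0 := fun c hc =>
    trG_indep h c fun γ => by
      have h1 := congrFun hc γ
      rw [Finsupp.linearCombination_apply, Finsupp.sum, Finset.sum_apply] at h1
      exact h1
  have huniq : ∀ m m' : Multiset (ElemOf R _ g), (m.map T).sum = (m'.map T).sum → m = m' :=
    fun m m' hm => fs_injective_Struct (sub_eq_zero.1 (hT _ (by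
      rw [map_sub, lc_fs_Struct, lc_fs_Struct, hm, sub_self])))
  have hex : ∀ τ : Γ → R, ∃ m : Multiset (ElemOf R _ g),
      ((∃ d, Eff d τ) → (m.map T).sum = τ) := fun τ => by
    by_cases h1 : ∃ d, Eff d τ
    · obtain ⟨d, hd⟩ := h1
      obtain ⟨m, hm⟩ := exists_elems h hd
      refine ⟨m, fun _ => funext fun γ => ?_⟩
      rw [hm γ]
      exact (map_multiset_sum (Pi.evalAddMonoidHom (fun _ => R) γ) _).trans
        (by rw [Multiset.map_map]; rfl)
    · exact ⟨0, fun h2 => absurd h2 h1⟩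
  choose M hM using hex
  refine ⟨fun τ => (M τ).map T, ?_, ?_, ?_, ?_⟩
  · have h1 : M 0 = 0 := huniq _ _ (by rw [hM 0 ⟨0, Eff.zero⟩]; rfl)
    simp only [h1, Multiset.map_zero]
  · rintro τ τ' ⟨d, hd⟩ ⟨d', hd'⟩
    have h1 : M (τ + τ') = M τ + M τ' := huniq _ _ (by
      rw [hM _ ⟨_, hd.add hd'⟩, Multiset.map_add, Multiset.sum_add, hM _ ⟨_, hd⟩, hM _ ⟨_, hd'⟩])
    simp only [h1, Multiset.map_add]
  · intro τ hτ
    refine ⟨hM τ hτ, fun x hx => ?_⟩
    obtain ⟨P, -, rfl⟩ := Multiset.mem_map.1 hx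
    exact ⟨_, degree_pos P, eff_trG ι P⟩
  · intro c hc h0 x
    have h1 : ∑ τ ∈ c.support, c τ • fs_Struct (M τ) = 0 := hT _ (by
      rw [map_sum, ← h0, Finsupp.sum]
      refine Finset.sum_congr rfl fun τ hτ => ?_
      rw [map_smul, lc_fs_Struct, hM τ (hc τ hτ)])
    have h2 := congrArg
      (Finsupp.linearCombination ℤ fun P => if x = T P then (1 : ℤ) else 0) h1
    rw [map_sum, map_zero] at h2
    rw [← h2, Finsupp.sum]
    refine Finset.sum_congr rfl fun τ _ => ?_
    rw [map_smul, lc_fs_Struct, count_map_Struct, smul_eq_mul]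

end

end Pool.Agent.MP_e2821c_ag.Dg
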