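import Pool.Agent.Lib.MP_e2821c_ag.Dg.TreeX
import Pool.Agent.Lib.MP_e2821c_ag.Dg.Struct
import Pool.Agent.Lib.MP_e2821c_ag.Dg.FaceP
import Pool.Agent.Lib.MP_e2821c_ag.Dg.FaceW
import Pool.Agent.Lib.MP_e2821c_ag.Dg.Chn
import Pool.Agent.Lib.MP_e2821c_ag.Dg.CoreA
import Pool.Agent.Lib.MP_e2821c_ag.Dg.RootSet
import Pool.Agent.Lib.MP_e2821c_ag.Dg.HomOn

namespace Pool.Agent.MP_e2821c_ag.Dg

open MvPolynomial

universe u v w

noncomputable section

theorem clear_Lift {ι : Type u} {G : Type v} [AddCommGroup G] (s : Finset ι) (a : ι → ℚ)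
    (σ : ι → G) (P : G → Prop) (hP : ∀ i ∈ s, P (σ i)) (n : G → ℕ)
    (h : ∀ c : G →₀ ℤ, (∀ τ ∈ c.support, P τ) → (c.sum fun τ z => z • τ) = 0 →
      (c.sum fun τ z => z * (n τ : ℤ)) = 0)
    {V : Type w} [AddCommGroup V] [Module ℚ V] (up : G →+ V) (hu : Function.Injective up)
    (h0 : ∑ i ∈ s, a i • up (σ i) = 0) : ∑ i ∈ s, a i * (n (σ i) : ℚ) = 0 := by
  classical
  obtain ⟨⟨b, hb0⟩, hb⟩ := IsLocalization.exist_integer_multiples (nonZeroDivisors ℤ) s a
  choose! z hz using hb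
  have hz' : ∀ i ∈ s, (z i : ℚ) = b * a i := fun i hi => by simpa using hz i hi
  have h1 := h (∑ i ∈ s, Finsupp.single (σ i) (z i)) (fun τ hτ => by
    obtain ⟨i, hi, h2⟩ := Finset.mem_biUnion.1 (Finsupp.support_finsetSum hτ)
    rw [Finset.mem_singleton.1 (Finsupp.support_single_subset h2)]
    exact hP i hi) (by
    change Finsupp.linearCombination ℤ id _ = 0
    apply hu
    simp only [map_sum, Finsupp.linearCombination_single, id, map_zsmul, map_zero]
    rw [← smul_zero (b : ℚ), ← h0, Finset.smul_sum]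
    exact Finset.sum_congr rfl fun i hi => by
      rw [smul_smul, ← hz' i hi, Int.cast_smul_eq_zsmul])
  change Finsupp.linearCombination ℤ (fun τ => (n τ : ℤ)) _ = 0 at h1
  simp only [map_sum, Finsupp.linearCombination_single, smul_eq_mul] at h1
  have h2 : (b : ℚ) * ∑ i ∈ s, a i * (n (σ i) : ℚ) = 0 := by
    rw [Finset.mul_sum, ← Int.cast_zero, ← h1]
    push_cast
    exact Finset.sum_congr rfl fun i hi => by rw [hz' i hi, mul_assoc]
  exact (mul_eq_zero.1 h2).resolve_left (Int.cast_ne_zero.2 (nonZeroDivisors.ne_zero hb0))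

theorem supp_map_Lift {α β : Type u} {s : Set α} {t : Set β} {f : α → β} {c : α →₀ ℚ}
    (hc : c ∈ Finsupp.supported ℚ ℚ s) (h : ∀ a ∈ s, f a ∈ t) :
    c.mapDomain f ∈ Finsupp.supported ℚ ℚ t := by
  classical
  refine (Finsupp.mem_supported _ _).2 fun b hb => ?_
  obtain ⟨a, ha, rfl⟩ := Finset.mem_image.1 (Finsupp.mapDomain_support hb)
  exact h a ((Finsupp.mem_supported _ _).1 hc ha)

theorem aug_Lift {Ω : Type u} [AddCommGroup Ω] [Module ℚ Ω] (θ : Ω →+ Ω)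
    (c : Tr (G2 → Ω) 0 →₀ ℚ) (e : ℚ) (h : ∀ γ, θ (Finsupp.linearCombination ℚ Tr.val c γ) = 0) :
    Finsupp.linearCombination ℚ Tr.val (e • c.mapDomain (tact θ 0)) = 0 := by
  rw [map_smul]
  refine smul_eq_zero_of_right _ (_root_.funext fun γ => Eq.trans ?_ (h γ))
  rw [Finsupp.linearCombination_mapDomain]
  simp only [Finsupp.linearCombination_apply, Finsupp.sum, Finset.sum_apply, map_sum,
    Pi.smul_apply, map_rat_smul]
  rfl

open Classical in
theorem dec_Lift {R Ω : Type u} [CommRing R] [IsDomain R] [QAlg R] [IsIntegrallyClosed R] [Field Ω]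
    [Module ℚ Ω] (φ : R →+* Ω) (hφ : Function.Injective φ) (P : Ω → Prop)
    (hP : ∀ x, P x ↔ ∃ r, φ r = x) :
    ∃ dec : (G2 → Ω) → Multiset (G2 → Ω), dec 0 = 0 ∧
      (∀ τ τ', ((∃ d, Eff d τ) ∧ ∀ γ, P (τ γ)) → ((∃ d, Eff d τ') ∧ ∀ γ, P (τ' γ)) →
        dec (τ + τ') = dec τ + dec τ') ∧
      (∀ τ, ((∃ d, Eff d τ) ∧ ∀ γ, P (τ γ)) →
        (dec τ).sum = τ ∧ ∀ x ∈ dec τ, (∃ e, 1 ≤ e ∧ Eff e x) ∧ ∀ γ, P (x γ)) ∧
      ∀ c : (G2 → Ω) →₀ ℚ, (∀ τ ∈ c.support, (∃ d, Eff d τ) ∧ ∀ γ, P (τ γ)) →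
        Finsupp.linearCombination ℚ id c = 0 →
        ∀ x, (c.sum fun τ z => z * ((dec τ).count x : ℚ)) = 0 := by
  obtain ⟨dec, h0, h1, h2, h3⟩ := exists_dec R G2
  let up : (G2 → R) →+ (G2 → Ω) := φ.toAddMonoidHom.compLeft G2
  have hu : Function.Injective up := fun a b h => funext fun γ => hφ (congrFun h γ)
  obtain ⟨lo, hl⟩ := hu.hasLeftInverse
  replace hl : ∀ σ, lo (up σ) = σ := hl
  have hg : ∀ τ, ((∃ d, Eff d τ) ∧ ∀ γ, P (τ γ)) →
      ∃ σ, (∃ d, Eff d σ) ∧ up σ = τ := fun τ ⟨⟨d, hd⟩, h⟩ => by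
    choose σ hσ using fun γ => (hP _).1 (h γ)
    obtain rfl : up σ = τ := funext hσ
    exact ⟨σ, ⟨d, Eff.of_injective φ hφ hd⟩, rfl⟩
  refine ⟨fun τ => (dec (lo τ)).map up, ?_, fun τ τ' h h' => ?_, fun τ h => ?_,
    fun c hc hs x => ?_⟩
  · simp only [← map_zero up, hl, h0, Multiset.map_zero]
  · obtain ⟨σ, hσ, rfl⟩ := hg τ h
    obtain ⟨σ', hσ', rfl⟩ := hg τ' h'
    simp only [← map_add up, hl, h1 σ σ' hσ hσ', Multiset.map_add]
  · obtain ⟨σ, hσ, rfl⟩ := hg τ h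
    simp only [hl]
    refine ⟨by rw [← map_multiset_sum, (h2 σ hσ).1], fun x hx => ?_⟩
    obtain ⟨y, hy, rfl⟩ := Multiset.mem_map.1 hx
    obtain ⟨e, he, he'⟩ := (h2 σ hσ).2 y hy
    exact ⟨⟨e, he, he'.map φ⟩, fun γ => (hP _).2 ⟨y γ, rfl⟩⟩
  · by_cases hx : ∃ y, up y = x
    · obtain ⟨y, rfl⟩ := hx
      simp only [Multiset.count_map_eq_count' _ _ hu]
      refine clear_Lift c.support c lo (fun σ => ∃ d, Eff d σ) (fun τ hτ => ?_)
        (fun σ => (dec σ).count y) (fun c a b => h3 c a b y) up hu ?_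
      · obtain ⟨σ, hσ, rfl⟩ := hg τ (hc τ hτ)
        rwa [hl]
      · refine Eq.trans (Finset.sum_congr rfl fun τ hτ => ?_) hs
        obtain ⟨σ, -, rfl⟩ := hg τ (hc τ hτ)
        rw [hl]
        rfl
    · refine Finset.sum_eq_zero fun τ _ => mul_eq_zero_of_right _ (Nat.cast_eq_zero.2
        (Multiset.count_eq_zero_of_notMem fun h => ?_))
      obtain ⟨y, -, hy⟩ := Multiset.mem_map.1 h
      exact hx ⟨y, hy⟩

variable {F : Type u} [Field F] [CharZero F]

open Classical in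
theorem exists_dec_PI {N : ℕ} {I : Finset (Fin N)} (hI : I.Nonempty) :
    ∃ dec : (G2 → OmN F N) → Multiset (G2 → OmN F N), dec 0 = 0 ∧
      (∀ τ τ', ((∃ d, Eff d τ) ∧ ∀ γ, τ γ ∈ PI F I) → ((∃ d, Eff d τ') ∧ ∀ γ, τ' γ ∈ PI F I) →
        dec (τ + τ') = dec τ + dec τ') ∧
      (∀ τ, ((∃ d, Eff d τ) ∧ ∀ γ, τ γ ∈ PI F I) →
        (dec τ).sum = τ ∧ ∀ x ∈ dec τ, LeafOk F I x) ∧
      ∀ c : (G2 → OmN F N) →₀ ℚ, (∀ τ ∈ c.support, (∃ d, Eff d τ) ∧ ∀ γ, τ γ ∈ PI F I) →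
        (c.sum fun τ z => z • τ) = 0 →
        ∀ x, (c.sum fun τ z => z * ((dec τ).count x : ℚ)) = 0 := by
  obtain ⟨p, f, hf, rfl⟩ := exists_emb hI
  have := base_isIntegrallyClosed F p
  exact dec_Lift (emb F f).toRingHom (emb_injective hf) (· ∈ PI F (Finset.univ.image f))
    fun x => by rw [← range_emb hf]; rfl

theorem start_Lift {p d : ℕ} {ξ : Xq G2 F p} (hξ : ξ ∈ ChD G2 F p d) :
    ∃ c ∈ Finsupp.supported ℚ ℚ {b | GT F (Finset.univ : Finset (Fin (p + 1))) d 0 b},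
      Finsupp.linearCombination ℚ Tr.val c =
        fun γ => emb F (id : Fin (p + 1) → Fin (p + 1)) (ξ γ) := by
  let φ : Base F p →+* OmN F (p + 1) := (emb F id).toRingHom
  let up : Xq G2 F p →+ (G2 → OmN F (p + 1)) := φ.toAddMonoidHom.compLeft G2
  let S := (Finsupp.supported ℚ ℚ {b | GT F (Finset.univ : Finset (Fin (p + 1))) d 0 b}).map
    (Finsupp.linearCombination ℚ Tr.val)
  obtain ⟨M, hM, h⟩ := hξ
  have h1 : up (M • ξ) ∈ S := by
    refine (AddSubgroup.closure_le (S.toAddSubgroup.comap up)).2 ?_ h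
    rintro τ ⟨e, he, hτ⟩
    rcases Nat.eq_zero_or_pos e with rfl | h0
    · rw [hτ.eq_zero]
      exact zero_mem _
    refine ⟨Finsupp.single (Tr.leaf (up τ)) 1, Finsupp.single_mem_supported _ _ ⟨⟨⟨e, h0,
      hτ.map φ⟩, fun γ => ?_⟩, e, he, ?_⟩, ?_⟩
    · have h2 := range_emb (F := F) (f := (id : Fin (p + 1) → _)) Function.injective_id
      rw [Finset.image_id] at h2
      exact h2 ▸ ⟨τ γ, rfl⟩
    · exact (congrFun (Multiset.sum_singleton _) 0).trans (hτ.map φ).apply_zero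
    · rw [Finsupp.linearCombination_single, one_smul]
      rfl
  have h2 := S.smul_mem (M : ℚ)⁻¹ h1
  rw [map_nsmul, ← Nat.cast_smul_eq_nsmul ℚ, smul_smul, inv_mul_cancel₀ (Nat.cast_ne_zero.2 hM),
    one_smul] at h2
  exact h2

omit [CharZero F] in
theorem res_res_Lift {N : ℕ} {I : Finset (Fin N)} (hI : I.Nonempty) {i i' : Fin N} (hi : i ∉ I)
    (hi' : i' ∉ insert i I) {l : Fin N} (hl : l ∈ insert i' (insert i I)) :
    res F (crd i) (res F (crd i') (tI F (insert i' (insert i I)) l)) =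
      if l ∈ I then tI F I l else 0 := by
  rw [res_tI _ hl, amin_crd (hI.mono (Finset.subset_insert _ _)) hi']
  by_cases h : l ∈ insert i I
  · rw [if_pos h, res_tI _ h, amin_crd hI hi]
  · rw [if_neg h, map_zero, if_neg fun h' => h (Finset.mem_insert_of_mem h')]

omit [CharZero F] in
theorem comm_Lift {N : ℕ} {I : Finset (Fin N)} (hI : I.Nonempty) {i i' : Fin N} (hi : i ∉ I)
    (hi' : i' ∉ I) (hne : i ≠ i') {x : OmN F N} (hx : x ∈ PI F (insert i' (insert i I))) :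
    res F (crd i) (res F (crd i') x) = res F (crd i') (res F (crd i) x) := by
  have h : ∀ w w' : Fn N, HomOn (res F w * res F w' : Module.End F _)
      (PI F (insert i' (insert i I)) : Set (OmN F N)) := fun w w' =>
    ((homOn_res w').mono fun y hy => (mem_OW.1 (PI_le_OW _ hy)).1).mul (homOn_res w)
      fun y hy => res_mem_Oh _ (mem_OW.1 (PI_le_OW _ hy)).1
  rw [← Module.End.mul_apply, ← Module.End.mul_apply]
  refine HomOn.eqOn_adjoin (h _ _) (h _ _) ?_ x hx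
  rintro _ ⟨l, hl, rfl⟩
  rw [Module.End.mul_apply, Module.End.mul_apply]
  have h1 := res_res_Lift (F := F) hI hi (by simp [hi', hne.symm]) hl
  rw [Finset.mem_coe, Finset.insert_comm] at hl
  have h2 := res_res_Lift (F := F) hI hi' (by simp [hi, hne]) hl
  rw [Finset.insert_comm] at h2
  exact h1.trans h2.symm

/-- The sum of the restrictions from the faces of one more dimension. -/
def cc_Lift (F : Type u) [Field F] {N k : ℕ}
    (Ξ : Finset (Fin N) → (Tr (G2 → OmN F N) k →₀ ℚ)) (I : Finset (Fin N)) :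
    Tr (G2 → OmN F N) k →₀ ℚ :=
  ∑ i ∈ Iᶜ, epsI I i • (Ξ (insert i I)).mapDomain (tact (res F (crd i)) k)

/-- The recursive construction of the lifts. -/
def xi_Lift (F : Type u) [Field F] {N : ℕ}
    (dec : Finset (Fin N) → (G2 → OmN F N) → Multiset (G2 → OmN F N))
    (c : Tr (G2 → OmN F N) 0 →₀ ℚ) : ∀ k, Finset (Fin N) → (Tr (G2 → OmN F N) k →₀ ℚ)
  | 0, _ => c
  | k + 1, I => (-1 : ℚ) ^ (k + 1) •
      (cc_Lift F (xi_Lift F dec c k) I).mapDomain (Tr.ext (dec I) k)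

theorem cc_good_Lift {N k d : ℕ} {Ξ : Finset (Fin N) → (Tr (G2 → OmN F N) k →₀ ℚ)}
    (h : ∀ I, I.card + k = N → I.Nonempty → Ξ I ∈ Finsupp.supported ℚ ℚ {b | GT F I d k b})
    {I : Finset (Fin N)} (hk : I.card + k + 1 = N) (hI : I.Nonempty) :
    cc_Lift F Ξ I ∈ Finsupp.supported ℚ ℚ {b | GT F I d k b} := by
  refine Submodule.sum_mem _ fun i hi => Submodule.smul_mem _ _ ?_
  rw [Finset.mem_compl] at hi
  refine supp_map_Lift (h _ (by rw [Finset.card_insert_of_notMem hi]; omega)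
    (Finset.insert_nonempty _ _)) fun b hb => GT.tact hb (homOn_res _) fun x hx => ?_
  simpa only [amin_crd hI hi] using res_mem_PI (crd i) hx

theorem cc_cc_Lift {N k d : ℕ} {Ξ : Finset (Fin N) → (Tr (G2 → OmN F N) k →₀ ℚ)}
    (h : ∀ I, I.card + k = N → I.Nonempty → Ξ I ∈ Finsupp.supported ℚ ℚ {b | GT F I d k b})
    {I : Finset (Fin N)} (hk : I.card + k + 2 = N) (hI : I.Nonempty) :
    cc_Lift F (cc_Lift F Ξ) I = 0 := by
  let g : Fin N → Fin N → (Tr (G2 → OmN F N) k →₀ ℚ) := fun i i' =>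
    (epsI I i * epsI (insert i I) i') •
      (Ξ (insert i' (insert i I))).mapDomain (tact (res F (crd i) ∘ res F (crd i')) k)
  have e : cc_Lift F (cc_Lift F Ξ) I = ∑ i ∈ Iᶜ, ∑ i' ∈ (insert i I)ᶜ, g i i' := by
    refine Finset.sum_congr rfl fun i _ => ?_
    rw [cc_Lift, Finsupp.mapDomain_finsetSum, Finset.smul_sum]
    refine Finset.sum_congr rfl fun i' _ => ?_
    rw [Finsupp.mapDomain_smul, smul_smul, ← Finsupp.mapDomain_comp]
    exact congrArg (fun f => _ • Finsupp.mapDomain f _) (funext fun b => tact_tact _ _ _ _)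
  have e2 : ∑ i ∈ Iᶜ, ∑ i' ∈ (insert i I)ᶜ, g i i' =
      -∑ i ∈ Iᶜ, ∑ i' ∈ (insert i I)ᶜ, g i i' := by
    rw [← Finset.sum_neg_distrib, Finset.sum_comm' (t' := Iᶜ) (s' := fun i => (insert i I)ᶜ)
      fun x y => by simp only [Finset.mem_compl, Finset.mem_insert, not_or, ne_comm]; tauto]
    refine Finset.sum_congr rfl fun i hi => ?_
    rw [← Finset.sum_neg_distrib]
    refine Finset.sum_congr rfl fun i' hi' => ?_
    simp only [Finset.mem_compl, Finset.mem_insert, not_or] at hi hi'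
    simp only [g]
    rw [epsI_anti hI hi'.2 hi hi'.1, neg_smul, Finset.insert_comm i i']
    refine congrArg (fun x => -(_ • x)) (Finsupp.mapDomain_congr fun b hb => tact_congr ?_)
    have hb' := (Finsupp.mem_supported _ _).1 (h (insert i' (insert i I)) (by
      rw [Finset.card_insert_of_notMem (by simp [hi']), Finset.card_insert_of_notMem hi]; omega)
      (Finset.insert_nonempty _ _)) hb
    exact fun x hx => (comm_Lift hI hi hi'.2 (Ne.symm hi'.1) (GT.vals_subset hb' hx)).symm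
  rw [e]
  ext b
  have h1 := DFunLike.congr_fun e2 b
  rw [Finsupp.neg_apply] at h1
  rw [Finsupp.zero_apply]
  linarith

theorem exists_lifts {j d : ℕ} {ξ : Xq G2 F (j + 1)} (hξ : ξ ∈ ChD G2 F (j + 1) d)
    (hn : ∀ i : Fin (j + 2), act F i.succAbove ξ = 0) :
    ∃ Ξ : ∀ k, Finset (Fin (j + 2)) → (Tr (G2 → OmN F (j + 2)) k →₀ ℚ), IsLift F d Ξ ∧
      Finsupp.linearCombination ℚ Tr.val (Ξ 0 Finset.univ) =
        fun γ => emb F (id : Fin (j + 2) → Fin (j + 2)) (ξ γ) := by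
  obtain ⟨c, hc, hv⟩ := start_Lift hξ
  choose! dec h0 h1 h2 h3 using fun I : Finset (Fin (j + 2)) => exists_dec_PI (F := F) (I := I)
  have hQ : ∀ {I : Finset (Fin (j + 2))} {τ}, LeafOk F I τ →
      (∃ d, Eff d τ) ∧ ∀ γ, τ γ ∈ PI F I := fun ⟨⟨e, _, he⟩, h⟩ => ⟨⟨e, he⟩, h⟩
  have good : ∀ k I, I.card + k = j + 2 → I.Nonempty →
      xi_Lift F dec c k I ∈ Finsupp.supported ℚ ℚ {b | GT F I d k b} := by
    intro k
    induction k with
    | zero =>
      intro I hk _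
      obtain rfl : I = Finset.univ := Finset.eq_univ_of_card _ (by simpa using hk)
      exact hc
    | succ k ih =>
      intro I hk hI
      refine Submodule.smul_mem _ _ (supp_map_Lift (cc_good_Lift ih hk hI) ?_)
      rintro b ⟨hb, e, he, he'⟩
      refine ⟨Tr.Pos.ext _ (fun x hx => ⟨fun h => ?_, (h2 I hI x (hQ hx)).2⟩) hb, e, he, ?_⟩
      · obtain ⟨e, he, he'⟩ := hx.1
        have h4 := (h2 I hI x (hQ hx)).1
        have h5 := he'.apply_zero
        rw [← h4, h, Multiset.sum_zero, Pi.zero_apply, eq_comm, Nat.cast_eq_zero] at h5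
        omega
      · rw [Tr.leaves_ext, Multiset.sum_bind,
          Multiset.map_congr rfl fun x hx => (h2 I hI x (hQ (hb.leaves x hx))).1, Multiset.map_id',
          he']
  have step : ∀ k I, I.card + k + 1 = j + 2 → I.Nonempty →
      Tr.delta k (xi_Lift F dec c (k + 1) I) = cc_Lift F (xi_Lift F dec c k) I := by
    intro k
    induction k with
    | zero =>
      intro I hk hI
      have hg := (Finsupp.mem_supported _ _).1 (cc_good_Lift (good 0) hk hI)
      rw [xi_Lift, show (-1 : ℚ) ^ (0 + 1) = -1 from pow_one _, neg_one_smul]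
      refine Tr.delta_ext_zero (fun x hx => (h2 I hI x hx).1) _ (fun b hb => hQ (hg hb).1)
        (h3 I hI _ (fun b hb => hQ (hg hb).1) ?_)
      change Finsupp.linearCombination ℚ Tr.val (cc_Lift F (xi_Lift F dec c 0) I) = 0
      rw [cc_Lift, map_sum]
      refine Finset.sum_eq_zero fun i _ => ?_
      refine aug_Lift (res F (crd i)).toAddMonoidHom c _ fun γ => ?_
      rw [hv, LinearMap.toAddMonoidHom_coe, res_emb Function.injective_id i, ← act_apply, hn i,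
        Pi.zero_apply, map_zero]
      rw [Function.id_comp, Finset.image_id, Fin.image_succAbove_univ,
        ← amin_crd (I := {i}ᶜ) (i := i) ⟨i.succAbove 0, by simp⟩ (by simp)]
      congr 1
      simp
    | succ k ih =>
      intro I hk hI
      have hg := (Finsupp.mem_supported _ _).1 (cc_good_Lift (good (k + 1)) hk hI)
      rw [xi_Lift, pow_succ, pow_succ, mul_assoc, neg_mul_neg, mul_one, mul_one]
      refine Tr.delta_ext_succ (Q := fun τ => (∃ d, Eff d τ) ∧ ∀ γ, τ γ ∈ PI F I) (h0 I hI)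
        ⟨⟨0, Eff.zero⟩, fun _ => zero_mem _⟩
        (fun x y ⟨⟨_, a⟩, a'⟩ ⟨⟨_, b⟩, b'⟩ => ⟨⟨_, a.add b⟩, fun γ => add_mem (a' γ) (b' γ)⟩)
        (h1 I hI) (fun x hx => (h2 I hI x hx).1) k _
        (fun b hb τ hτ => hQ ((hg hb).1.leaves τ hτ)) ?_
      rw [← cc_cc_Lift (good k) (by omega) hI, cc_Lift, map_sum]
      refine Finset.sum_congr rfl fun i hi => ?_
      rw [map_smul, delta_tact, ih _ (by
        rw [Finset.card_insert_of_notMem (Finset.mem_compl.1 hi)]; omega)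
        (Finset.insert_nonempty _ _)]
  exact ⟨xi_Lift F dec c, ⟨fun k I a b => (Finsupp.mem_supported _ _).1 (good k I a b), step⟩, hv⟩

end

end Pool.Agent.MP_e2821c_ag.Dg
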