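import Pool.Agent.Lib.MP_e2821c_ag.Dg.Core

namespace Pool.Agent.MP_e2821c_ag.Dg

open MvPolynomial TensorProduct
open scoped nonZeroDivisors

universe u v w

noncomputable section

section Etale

variable (P T : Type u) [CommRing P] [IsDomain P] [CommRing T] [IsDomain T] [Algebra P T]
  [Algebra.Etale P T]

omit [IsDomain T] in
theorem isAlgebraic_SmAt : Algebra.IsAlgebraic P T := by
  let K := FractionRing P
  have h1 : Module.Finite K (K ⊗[P] T) := Algebra.FormallyUnramified.finite_of_free K _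
  have h2 : Algebra.IsAlgebraic P (K ⊗[P] T) :=
    (IsFractionRing.comap_isAlgebraic_iff (K := K)).2 inferInstance
  have h3 : Function.Injective (Algebra.TensorProduct.includeRight : T →ₐ[P] K ⊗[P] T) :=
    Algebra.TensorProduct.includeRight_injective (IsFractionRing.injective P K)
  exact ⟨fun x => (isAlgebraic_algHom_iff _ h3).1 (h2.isAlgebraic _)⟩

theorem closed_SmAt [IsIntegrallyClosed P] : IsIntegrallyClosed T := by
  have := isAlgebraic_SmAt P T
  let K := FractionRing P
  let L := FractionRing T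
  let _ : Algebra K L := FractionRing.liftAlgebra P L
  have : IsScalarTower P K L := FractionRing.isScalarTower_liftAlgebra P L
  let e : T ⊗[P] K ≃ₐ[T] L := Algebra.IsPushout.equiv P T K L
  refine (isIntegrallyClosed_iff L).2 fun {x} hx => ?_
  obtain ⟨w, hw⟩ := (TensorProduct.toIntegralClosure_bijective_of_smooth (R := P) (S := T)
    (B := K)).2 ⟨e.symm x, hx.map e.symm.toAlgHom⟩
  have h : ∀ w : T ⊗[P] integralClosure P K, ∃ t : T, algebraMap T (T ⊗[P] K) t =
      (TensorProduct.toIntegralClosure P T K w : T ⊗[P] K) := fun w => by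
    induction w with
    | zero => exact ⟨0, by simp⟩
    | add a b ha hb =>
      obtain ⟨s, hs⟩ := ha
      obtain ⟨t, ht⟩ := hb
      exact ⟨s + t, by simp only [map_add, hs, ht, Subalgebra.coe_add]⟩
    | tmul t c =>
      obtain ⟨p, hp⟩ := (isIntegrallyClosed_iff K).1 ‹IsIntegrallyClosed P› c.2
      refine ⟨p • t, ?_⟩
      change (p • t) ⊗ₜ[P] (1 : K) = t ⊗ₜ[P] (c : K)
      rw [← hp, TensorProduct.smul_tmul, Algebra.algebraMap_eq_smul_one]
  obtain ⟨t, ht⟩ := h w
  refine ⟨t, ?_⟩
  rw [hw] at ht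
  rw [← e.commutes, ht]
  exact e.apply_symm_apply x

end Etale

/-- The ring map to the dual numbers given by a derivation. -/
def dual_SmAt {k B : Type u} [Field k] [CommRing B] [Algebra k B] {𝔪 : Ideal B}
    (D : Derivation k B (B ⧸ 𝔪)) : B →+* DualNumber (B ⧸ 𝔪) where
  toFun b := (Ideal.Quotient.mk 𝔪 b, D b)
  map_one' := TrivSqZeroExt.ext (map_one _) D.map_one_eq_zero
  map_mul' a b := TrivSqZeroExt.ext (map_mul _ a b) (by
    rw [DualNumber.snd_mul]
    change D (a * b) = Ideal.Quotient.mk 𝔪 a * D b + D a * Ideal.Quotient.mk 𝔪 b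
    rw [D.leibniz, Algebra.smul_def, Algebra.smul_def, Ideal.Quotient.algebraMap_eq]
    ring)
  map_zero' := TrivSqZeroExt.ext (map_zero _) (map_zero D)
  map_add' a b := TrivSqZeroExt.ext (map_add _ a b) (map_add D a b)

variable {k B : Type u} [Field k] [CharZero k] [CommRing B] [IsDomain B] [Algebra k B]
  [Algebra.Smooth k B]

theorem smAt_of_smooth {d : ℕ} (hd : Algebra.trdeg k B = d) (𝔪 : Ideal B) [𝔪.IsMaximal] :
    SmAt k d 𝔪 := by
  obtain ⟨f, hf, n, _, _, _⟩ :=
    Algebra.IsSmoothAt.exists_isStandardEtale_mvPolynomial (R := k) (p := 𝔪)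
  have hf0 : Submonoid.powers f ≤ B⁰ :=
    powers_le_nonZeroDivisors_of_noZeroDivisors fun h => hf (h ▸ 𝔪.zero_mem)
  set T := Localization.Away f
  set P := MvPolynomial (Fin n) k
  have : IsDomain T := IsLocalization.isDomain_localization hf0
  have : FaithfulSMul B T :=
    (faithfulSMul_iff_algebraMap_injective B T).2 (IsLocalization.injective T hf0)
  have := isAlgebraic_SmAt P T
  have : Algebra.IsAlgebraic B T := IsLocalization.isAlgebraic T (Submonoid.powers f)
  have h1 := trdeg_add_eq k B (A := T)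
  have h2 := trdeg_add_eq k P (A := T)
  rw [trdeg_eq_zero (R := B), add_zero, hd] at h1
  rw [trdeg_eq_zero (R := P), add_zero, MvPolynomial.trdeg_of_isDomain, ← h1] at h2
  obtain rfl : n = d := by simpa using h2
  have hz : ∀ y : T, ∃ z : B, ∃ u ∈ 𝔪, y = algebraMap B T z + y * algebraMap B T (u ^ 2) := by
    intro y
    obtain ⟨⟨b, ⟨_, m, rfl⟩⟩, hb⟩ := IsLocalization.surj (Submonoid.powers f) y
    obtain ⟨c, u, hu, hc⟩ := Ideal.IsMaximal.exists_inv ‹𝔪.IsMaximal›
      (mt (Ideal.IsPrime.mem_of_pow_mem inferInstance m) hf)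
    refine ⟨b * (c * (1 + u)), u, hu, ?_⟩
    have hc' := congrArg (algebraMap B T) hc
    simp only [map_add, map_mul, map_one, map_pow] at hb hc' ⊢
    rw [← hb]
    linear_combination (-(y * (1 + algebraMap B T u))) * hc'
  choose z u hu hz using hz
  refine ⟨fun l => z (algebraMap P T (X l)), fun D hD => ?_⟩
  let _ := Ideal.Quotient.field 𝔪
  have hunit : ∀ D : Derivation k B (B ⧸ 𝔪), IsUnit (dual_SmAt D f) := fun D =>
    TrivSqZeroExt.isUnit_iff_isUnit_fst.2
      (IsUnit.mk0 _ (mt Ideal.Quotient.eq_zero_iff_mem.1 hf))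
  let ψ : Derivation k B (B ⧸ 𝔪) → T →+* DualNumber (B ⧸ 𝔪) := fun D =>
    IsLocalization.Away.lift f (hunit D)
  have hψ : ∀ D b, ψ D (algebraMap B T b) = dual_SmAt D b := fun D b =>
    IsLocalization.Away.lift_eq f (hunit D) b
  have hψz : ∀ D y, ψ D y = dual_SmAt D (z y) := fun D y => by
    have h0 : dual_SmAt D (u y ^ 2) = 0 := by
      have h3 : Ideal.Quotient.mk 𝔪 (u y) = 0 := Ideal.Quotient.eq_zero_iff_mem.2 (hu y)
      refine TrivSqZeroExt.ext ?_ ?_
      · change Ideal.Quotient.mk 𝔪 (u y ^ 2) = 0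
        rw [map_pow, h3]; simp
      · change D (u y ^ 2) = 0
        rw [sq, D.leibniz, Algebra.smul_def, Ideal.Quotient.algebraMap_eq, h3]; simp
    conv_lhs => rw [hz y]
    rw [map_add, map_mul, hψ, hψ, h0, mul_zero, add_zero]
  have hP : (ψ D).comp (algebraMap P T) = (ψ 0).comp (algebraMap P T) := by
    refine MvPolynomial.ringHom_ext (fun c => ?_) fun l => ?_
    · have h3 : algebraMap P T (C c) = algebraMap B T (algebraMap k B c) := by
        rw [← IsScalarTower.algebraMap_apply, IsScalarTower.algebraMap_apply k P T]; rfl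
      rw [RingHom.comp_apply, RingHom.comp_apply, h3, hψ, hψ]
      exact TrivSqZeroExt.ext rfl (D.map_algebraMap c)
    · rw [RingHom.comp_apply, RingHom.comp_apply, hψz, hψz]
      exact TrivSqZeroExt.ext rfl (hD l)
  let _ : Algebra P (DualNumber (B ⧸ 𝔪)) := ((ψ 0).comp (algebraMap P T)).toAlgebra
  have h3 := Algebra.FormallyUnramified.ext' (R := P) (A := T)
    (TrivSqZeroExt.fstHom k (B ⧸ 𝔪) (B ⧸ 𝔪)).toRingHom
    ⟨2, TrivSqZeroExt.kerIdeal_sq (B ⧸ 𝔪) (B ⧸ 𝔪)⟩
    ⟨ψ D, fun p => RingHom.congr_fun hP p⟩ ⟨ψ 0, fun _ => rfl⟩ fun y => by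
      change (ψ D y).fst = (ψ 0 y).fst
      rw [hψz, hψz]
      rfl
  ext b
  have h4 : ψ D (algebraMap B T b) = ψ 0 (algebraMap B T b) := AlgHom.congr_fun h3 _
  rw [hψ, hψ] at h4
  exact congrArg TrivSqZeroExt.snd h4

variable (k B) in
omit [CharZero k] in
include k in
theorem isIntegrallyClosed_of_smooth : IsIntegrallyClosed B := by
  refine IsIntegrallyClosed.of_localization_maximal fun 𝔪 _ _ => ?_
  obtain ⟨f, hf, n, _, _, _⟩ :=
    Algebra.IsSmoothAt.exists_isStandardEtale_mvPolynomial (R := k) (p := 𝔪)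
  have hf0 : Submonoid.powers f ≤ B⁰ :=
    powers_le_nonZeroDivisors_of_noZeroDivisors fun h => hf (h ▸ 𝔪.zero_mem)
  have hle : Submonoid.powers f ≤ 𝔪.primeCompl := Submonoid.powers_le.2 hf
  set T := Localization.Away f
  have : IsDomain T := IsLocalization.isDomain_localization hf0
  have := closed_SmAt (MvPolynomial (Fin n) k) T
  let _ := IsLocalization.localizationAlgebraOfSubmonoidLe T (Localization.AtPrime 𝔪) _ _ hle
  have := IsLocalization.localization_isScalarTower_of_submonoid_le T (Localization.AtPrime 𝔪)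
    _ _ hle
  have := IsLocalization.isLocalization_of_submonoid_le T (Localization.AtPrime 𝔪) _ _ hle
  exact isIntegrallyClosed_of_isLocalization (R := T) (Localization.AtPrime 𝔪)
    (𝔪.primeCompl.map (algebraMap B T)) (map_le_nonZeroDivisors_of_injective _
      (IsLocalization.injective T hf0) 𝔪.primeCompl_le_nonZeroDivisors)

omit [CharZero k] [Algebra.Smooth k B] in
theorem exists_trdeg_nat [Algebra.FiniteType k B] : ∃ d : ℕ, Algebra.trdeg k B = d :=
  Cardinal.lt_aleph0.1 trdeg_lt_aleph0_of_finiteType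

end

end Pool.Agent.MP_e2821c_ag.Dg
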