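import Pool.Agent.Lib.MP_e2821c_ag.Dg.Model
import Pool.Agent.Lib.MP_e2821c_ag.Dg.Bridge
import Pool.Agent.Lib.MP_e2821c_ag.Dg.SmAt
import Pool.Agent.Lib.MP_e2821c_ag.Dg.Inj

namespace Pool.Agent.MP_e2821c_ag.Dg

open MvPolynomial

universe u v w

noncomputable section

theorem exists_maximal_not_mem_Main {B : Type u} [CommRing B] [IsJacobsonRing B] (𝔭 : Ideal B)
    [h : 𝔭.IsPrime] {s : B} (hs : s ∉ 𝔭) : ∃ 𝔪 : Ideal B, 𝔪.IsMaximal ∧ 𝔭 ≤ 𝔪 ∧ s ∉ 𝔪 := by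
  have h1 : 𝔭.jacobson = 𝔭 := IsJacobsonRing.out inferInstance h.isRadical
  rw [← h1, Ideal.jacobson, Ideal.mem_sInf] at hs
  push Not at hs
  obtain ⟨𝔪, ⟨h2, h3⟩, h4⟩ := hs
  exact ⟨𝔪, h3, h2, h4⟩

theorem main (k B O : Type u) [Field k] [CharZero k] [CommRing B] [IsDomain B] [Algebra k B]
    [Algebra.Smooth k B] (𝔭 : Ideal B) [𝔭.IsPrime] [CommRing O] [Algebra B O]
    [IsLocalization.AtPrime O 𝔭] (j : ℕ) (c : Cor O 2 (j + 1))
    (hc : ∀ P ∈ c.support, Degenerate O 2 (j + 1) P ∨ deg O 2 (j + 1) P ≤ j + 1)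
    (hb : SameClass O 2 j (bd O 2 j c) 0) :
    ∃ N : ℕ, 0 < N ∧ ∃ b : Cor O 2 (j + 2),
      SameClass O 2 (j + 1) (bd O 2 (j + 1) b) ((N : ℤ) • c) := by
  have hT : 𝔭.primeCompl ≤ nonZeroDivisors B := 𝔭.primeCompl_le_nonZeroDivisors
  have : IsDomain O := IsLocalization.isDomain_of_le_nonZeroDivisors O hT
  have : IsIntegrallyClosed B := isIntegrallyClosed_of_smooth k B
  have : IsIntegrallyClosed O := isIntegrallyClosed_of_isLocalization O 𝔭.primeCompl hT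
  have : IsNoetherianRing B := Algebra.FiniteType.isNoetherianRing k B
  have : IsNoetherianRing O := IsLocalization.isNoetherianRing 𝔭.primeCompl O inferInstance
  have : IsJacobsonRing B := isJacobsonRing_of_finiteType (A := k)
  have : QAlg B := QAlg.of_algebra k B
  have : QAlg O := QAlg.of_algebra B O
  have : IsLocalRing O := IsLocalization.AtPrime.isLocalRing O 𝔭
  have : CharZero O := QAlg.charZero O
  obtain ⟨d, hd⟩ := exists_trdeg_nat (k := k) (B := B)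
  refine bridge O j (j + 1) (fun ξ hξ hr h0 => ?_) c hc hb
  refine bd_of_fraction (F := k) (K := FractionRing O) 𝔭.primeCompl hT ?_ hd ?_ (ChD_le _ hξ) ?_
  · refine (Set.finite_singleton (IsLocalRing.maximalIdeal O)).subset fun 𝔫 h𝔫 => ?_
    exact IsLocalRing.eq_maximalIdeal h𝔫
  · intro s hs 𝔫 h𝔫
    obtain ⟨𝔪, h1, h2, h3⟩ := exists_maximal_not_mem_Main 𝔭 hs
    refine ⟨𝔪, h1, ?_, h3, smAt_of_smooth hd 𝔪⟩
    rw [IsLocalRing.eq_maximalIdeal h𝔫]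
    exact (IsLocalization.AtPrime.under_maximalIdeal O 𝔭).le.trans h2
  · refine model (pushR_mem_ChD _ hξ) (hr.push _) ?_
    rw [pushR, ← push_dX, h0, map_zero]

end

end Pool.Agent.MP_e2821c_ag.Dg
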