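import Pool.Agent.Lib.MP_e2821c_ag.Dg.Detect
import Pool.Agent.Lib.MP_e2821c_ag.Dg.FaceP
import Pool.Agent.Lib.MP_e2821c_ag.Dg.FaceW
import Pool.Agent.Lib.MP_e2821c_ag.Dg.EZ

namespace Pool.Agent.MP_e2821c_ag.Dg

open MvPolynomial

universe u v w

noncomputable section

section Aux

theorem neg_sub_sub_YPoly {G : Type*} [AddCommGroup G] (a b : G) : -a - (b - a) = -b := by
  abel

variable {F : Type u} [Field F] [CharZero F] {N p q : ℕ}

theorem card_image_YPoly {f : Fin (p + 1) → Fin N} (hf : Function.Injective f) :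
    Module.finrank ℚ (WI (Finset.univ.image f)) = p := by
  have h := finrank_WI (I := Finset.univ.image f) (Finset.univ_nonempty.image f)
  rw [Finset.card_image_of_injective _ hf, Finset.card_univ, Fintype.card_fin] at h
  omega

theorem erase_image_YPoly {f : Fin (p + 2) → Fin N} (hf : Function.Injective f) (k : Fin (p + 2)) :
    (Finset.univ.image f).erase (f k) = Finset.univ.image (f ∘ k.succAbove) := by
  ext i
  simp only [Finset.mem_erase, Finset.mem_image, Finset.mem_univ, true_and, Function.comp_apply]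
  constructor
  · rintro ⟨hne, a, rfl⟩
    obtain ⟨b, rfl⟩ := Fin.exists_succAbove_eq (fun h : a = k => hne (by rw [h]))
    exact ⟨b, rfl⟩
  · rintro ⟨b, rfl⟩
    exact ⟨fun h => Fin.succAbove_ne k b (hf h), _, rfl⟩

theorem push_mem_PI_YPoly {f : Fin (p + 1) → Fin N} (hf : Function.Injective f)
    {y : Xq G2 (Base F p) q} (hy : y ∈ CR (⊤ : Subring (Base F p)) q) :
    pushR (emb F f).toRingHom q y ∈ CR (PI F (Finset.univ.image f)).toSubring q := by
  refine mem_CR.2 ⟨pushR_mem _ (fun a _ => ?_) (mem_CR.1 hy).1, (mem_CR.1 hy).2.push _⟩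
  change emb F f a ∈ PI F (Finset.univ.image f)
  rw [← range_emb hf]
  exact ⟨a, rfl⟩

theorem res_mem_YPoly (w : Fn N) {I : Finset (Fin N)} {x : Xq G2 (OmN F N) q}
    (hx : x ∈ CR (PI F I).toSubring q) : pE (res F w) q x ∈ CW F (WI (amin I w)) q := by
  have hO : ∀ a ∈ PI F I, a ∈ Oh F N := fun a ha => (mem_OW.1 (PI_le_OW I ha)).1
  refine push_mem_CR_of_homOn (A := (PI F I).toSubring)
    ⟨(homOn_res w).1, fun a ha b hb => (homOn_res w).2 a (hO a ha) b (hO b hb)⟩
    (fun a ha => ?_) hx
  exact PI_le_OW _ (res_mem_PI w ha)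

omit [CharZero F] in
theorem res_push_YPoly {f : Fin (p + 2) → Fin N} (hf : Function.Injective f) (k : Fin (p + 2))
    {w : Fn N} (hw : amin (Finset.univ.image f) w = Finset.univ.image (f ∘ k.succAbove))
    (y : Xq G2 (Base F (p + 1)) q) :
    pE (res F w) q (pushR (emb F f).toRingHom q y) =
      pushR (emb F (f ∘ k.succAbove)).toRingHom q (hface F p q k y) := by
  have e : (res F w).toAddMonoidHom.comp (emb F f).toRingHom.toAddMonoidHom =
      (emb F (f ∘ k.succAbove)).toRingHom.toAddMonoidHom.comp
        (Cy.smR F k.succAbove).toAddMonoidHom :=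
    AddMonoidHom.ext fun x => res_emb hf k hw x
  rw [push_push, push_push, e]

theorem res_deg_YPoly {f : Fin (p + 2) → Fin N} (hf : Function.Injective f)
    {y : Xq G2 (Base F (p + 1)) q} (hy : y ∈ CR (⊤ : Subring (Base F (p + 1))) q)
    (h0 : ∀ i : Fin (p + 1), hface F p q i.succ y = 0) {W : Sb N}
    (hW : Hyp W (WI (Finset.univ.image f))) {w : Fn N}
    (hw : WI (Finset.univ.image f) ⊓ LinearMap.ker w = W)
    (hne : W ≠ WI (Finset.univ.image (f ∘ (0 : Fin (p + 2)).succAbove))) :
    pE (res F w) q (pushR (emb F f).toRingHom q y) ∈ Deg F W q := by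
  rcases amin_cases (Finset.univ_nonempty.image f) hW hw with h | ⟨i, hi, h1, h2⟩
  · exact CW_le_Deg h (res_mem_YPoly w (push_mem_PI_YPoly hf hy))
  · obtain ⟨k, -, rfl⟩ := Finset.mem_image.1 hi
    rw [erase_image_YPoly hf] at h1 h2
    rcases Fin.eq_zero_or_eq_succ k with rfl | ⟨k', rfl⟩
    · exact absurd h2 hne
    · rw [res_push_YPoly hf _ h1, h0, map_zero]
      exact zero_mem _

theorem res_vertex_YPoly {f : Fin (p + 2) → Fin N} (hf : Function.Injective f)
    {y : Xq G2 (Base F (p + 1)) q} (hy : y ∈ CR (⊤ : Subring (Base F (p + 1))) q)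
    (h0 : ∀ i : Fin (p + 1), hface F p q i.succ y = 0) {w : Fn N}
    (hw : amin (Finset.univ.image f) w = {f 0}) :
    pE (res F w) q (pushR (emb F f).toRingHom q y) ∈
      Deg F (WI (Finset.univ.image (f ∘ (0 : Fin (p + 2)).succAbove))) q := by
  rcases Nat.eq_zero_or_pos p with rfl | hp
  · have e : ({f 0} : Finset (Fin N)) =
        Finset.univ.image (f ∘ (Fin.succ (0 : Fin 1)).succAbove) := by
      ext i
      simp only [Finset.mem_singleton, Finset.mem_image, Finset.mem_univ, true_and,
        Function.comp_apply]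
      constructor
      · rintro rfl
        exact ⟨0, rfl⟩
      · rintro ⟨a, rfl⟩
        rw [Subsingleton.elim a 0]
        rfl
    rw [res_push_YPoly hf _ (hw.trans e), h0, map_zero]
    exact zero_mem _
  · have h := res_mem_YPoly w (push_mem_PI_YPoly hf hy)
    rw [hw, WI_singleton] at h
    refine CW_le_Deg (bot_lt_iff_ne_bot.2 fun hb => ?_) h
    have h2 := card_image_YPoly (hf.comp (Fin.succAbove_right_injective (p := (0 : Fin (p + 2)))))
    rw [hb, finrank_bot] at h2
    omega

theorem step_YPoly {f : Fin (p + 2) → Fin N} (hf : Function.Injective f)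
    {y : Xq G2 (Base F (p + 1)) (q + 1)} (hy : y ∈ CR (⊤ : Subring (Base F (p + 1))) (q + 1))
    (h0 : ∀ i : Fin (p + 1), hface F p (q + 1) i.succ y = 0)
    (h : Ynull F (p + 1) q (Finsupp.single (WI (Finset.univ.image f))
      (pushR (emb F f).toRingHom q (dX _ q y)))) :
    Ynull F p (q + 1) (Finsupp.single (WI (Finset.univ.image (f ∘ (0 : Fin (p + 2)).succAbove)))
      (pushR (emb F (f ∘ (0 : Fin (p + 2)).succAbove)).toRingHom (q + 1)
        (hface F p (q + 1) 0 y))) := by
  classical
  have hG : YG F (p + 1) (Finsupp.single (WI (Finset.univ.image f))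
      (pushR (emb F f).toRingHom (q + 1) y)) := fun W => by
    by_cases hW : W = WI (Finset.univ.image f)
    · subst hW
      rw [Finsupp.single_eq_same]
      exact ⟨CR_mono (fun a ha => PI_le_OW _ ha) (push_mem_PI_YPoly hf hy),
        fun hn => absurd (card_image_YPoly hf) hn⟩
    · rw [Finsupp.single_eq_of_ne hW]
      exact ⟨zero_mem _, fun _ => rfl⟩
  have hd : ∀ W, dX _ q ((Finsupp.single (WI (Finset.univ.image f))
      (pushR (emb F f).toRingHom (q + 1) y) : Fam F N (q + 1)) W) -
      (Finsupp.single (WI (Finset.univ.image f))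
        (pushR (emb F f).toRingHom q (dX _ q y)) : Fam F N q) W ∈ Deg F W q := fun W => by
    by_cases hW : W = WI (Finset.univ.image f)
    · subst hW
      rw [Finsupp.single_eq_same, Finsupp.single_eq_same, push_dX, sub_self]
      exact zero_mem _
    · rw [Finsupp.single_eq_of_ne hW, Finsupp.single_eq_of_ne hW, map_zero, sub_self]
      exact zero_mem _
  have hne : (Finset.univ.image (f ∘ (0 : Fin (p + 2)).succAbove)).Nonempty :=
    Finset.univ_nonempty.image _
  have hi : f 0 ∉ Finset.univ.image (f ∘ (0 : Fin (p + 2)).succAbove) := by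
    rw [← erase_image_YPoly hf]
    exact Finset.notMem_erase _ _
  have hins : insert (f 0) (Finset.univ.image (f ∘ (0 : Fin (p + 2)).succAbove)) =
      Finset.univ.image f := by
    rw [← erase_image_YPoly hf]
    exact Finset.insert_erase (Finset.mem_image_of_mem _ (Finset.mem_univ _))
  have hH := hyp_WI hne hi
  rw [hins] at hH
  have other : ∀ W, W ≠ WI (Finset.univ.image (f ∘ (0 : Fin (p + 2)).succAbove)) →
      dY F (Finsupp.single (WI (Finset.univ.image f))
        (pushR (emb F f).toRingHom (q + 1) y)) W ∈ Deg F W (q + 1) := fun W hW => by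
    rw [dY_single]
    split_ifs with hh
    · exact sub_mem (res_deg_YPoly hf hy h0 hh hh.inf_ker hW)
        (res_deg_YPoly hf hy h0 hh hh.inf_ker_neg hW)
    · exact zero_mem _
  rcases epsI_cases hne hi with he | he
  · have ha := amin_cut_pos hne hi he
    rw [hins] at ha
    refine h.detect hG hd fun W => ?_
    by_cases hW : W = WI (Finset.univ.image (f ∘ (0 : Fin (p + 2)).succAbove))
    · subst hW
      rw [Finsupp.single_eq_same, dY_single, if_pos hH, jump, AddMonoidHom.sub_apply,
        res_push_YPoly hf 0 ha.1, sub_sub_cancel]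
      exact res_vertex_YPoly hf hy h0 ha.2
    · rw [Finsupp.single_eq_of_ne hW, zero_sub]
      exact neg_mem (other W hW)
  · have ha := amin_cut_neg hne hi he
    rw [hins] at ha
    rw [← neg_neg (Finsupp.single _ _)]
    refine Ynull.neg (h.detect hG hd fun W => ?_)
    by_cases hW : W = WI (Finset.univ.image (f ∘ (0 : Fin (p + 2)).succAbove))
    · subst hW
      rw [Finsupp.neg_apply, Finsupp.single_eq_same, dY_single, if_pos hH, jump,
        AddMonoidHom.sub_apply, res_push_YPoly hf 0 ha.2, neg_sub_sub_YPoly]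
      exact neg_mem (res_vertex_YPoly hf hy h0 ha.1)
    · rw [Finsupp.neg_apply, Finsupp.single_eq_of_ne hW, neg_zero, zero_sub]
      exact neg_mem (other W hW)

end Aux

theorem bd_of_ynull {F : Type u} [Field F] [CharZero F] {j : ℕ} {ξ : Xq G2 F j}
    (hξ : GoodZ F j 0 (cst 0 ξ))
    (h : Ynull F j 0 (Finsupp.single (WI (Finset.univ : Finset (Fin (j + 1))))
      (pushR (emb F (id : Fin (j + 1) → Fin (j + 1))).toRingHom 0 (cst 0 ξ)))) : Bd ⊤ ξ := by
  obtain ⟨Nn, n0, nS, nE⟩ := exists_poly F
  have key : ∀ (p q : ℕ) (f : Fin (p + 1) → Fin (j + 1)), Function.Injective f →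
      ∀ z : Xq G2 (Base F p) q, GoodZ F p q z →
      Ynull F p q (Finsupp.single (WI (Finset.univ.image f)) (pushR (emb F f).toRingHom q z)) →
      Nn p q z := by
    intro p
    induction p with
    | zero =>
      intro q f hf z _ hY
      have e : WI (Finset.univ.image f) = ⊥ :=
        Submodule.finrank_eq_zero.1 (card_image_YPoly hf)
      rw [e] at hY
      have hB : Bd (⊥ : Subalgebra F (OmN F (j + 1))).toSubring
          (pushR (emb F f).toRingHom q z) := by
        have := hY
        simp only [Ynull, Finsupp.single_eq_same] at this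
        exact this
      refine n0 q z ((Bd.of_pushR (emb F f).toRingHom (emb_injective hf) ?_ hB).mono le_top)
      intro a ha
      obtain ⟨c, rfl⟩ := Algebra.mem_bot.1 ha
      exact ⟨algebraMap F _ c, (emb F f).commutes c⟩
    | succ p ih =>
      intro q f hf z hz hY
      obtain ⟨y, hy, hd, h0, hg, hN⟩ := nS p q z hz
      subst hd
      exact hN (ih (q + 1) _ (hf.comp Fin.succAbove_right_injective) _ hg
        (step_YPoly hf hy h0 hY))
  refine nE j ξ (key j 0 id Function.injective_id _ hξ ?_)
  rwa [Finset.image_id]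

end

end Pool.Agent.MP_e2821c_ag.Dg
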