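import Pool.Agent.Lib.MP_e2821c_ag.Dg.Sum
import Pool.Agent.Lib.MP_e2821c_ag.Dg.YPoly

namespace Pool.Agent.MP_e2821c_ag.Dg

open MvPolynomial

universe u v w

noncomputable section

theorem model {F : Type u} [Field F] [CharZero F] {j : ℕ} {ξ : Xq G2 F (j + 1)}
    (hξ : ξ ∈ ChD G2 F (j + 1) (j + 1)) (hr : Red ξ) (hc : dX F j ξ = 0) : Bd ⊤ ξ := by
  obtain ⟨y, hy, hn⟩ := moore (Γ := G2) (R := F)
    (fun q => ChD G2 F q (j + 1) ⊓ RedSub (Base F q))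
    (fun f τ hτ => ⟨act_mem_ChD f hτ.1, Red.act hτ.2 f⟩) (q := j) (u := ξ) ⟨hξ, hr⟩ hc
  have hdy : dX F (j + 1) y ∈ ChD G2 F (j + 1) (j + 1) := by
    rw [dX_apply]
    exact sum_mem fun i _ => zsmul_mem (act_mem_ChD _ hy.1) _
  have h1 : ξ - dX F (j + 1) y ∈ ChD G2 F (j + 1) (j + 1) := sub_mem hξ hdy
  have h2 : Red (ξ - dX F (j + 1) y) :=
    (RedSub (Base F (j + 1))).sub_mem (show ξ ∈ RedSub _ from hr)
      (show dX F (j + 1) y ∈ RedSub _ from Red.dX hy.2)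
  have h3 : GoodZ F (j + 1) 0 (cst 0 (ξ - dX F (j + 1) y)) := by
    refine ⟨⟨cst_mem_Ch (A := ⊤) ?_ 0, ?_⟩, trivial, fun i => ?_⟩
    · exact mem_Ch_top.1 (ChD_le _ h1)
    · exact h2.comp C (map_zero _)
    · rw [hface, pushR, push_cst]
      have h4 : (fun γ => (Cy.smR F i.succAbove).toAddMonoidHom ((ξ - dX F (j + 1) y) γ)) =
          act F i.succAbove (ξ - dX F (j + 1) y) := rfl
      rw [h4, hn i, map_zero]
  have h5 := bd_of_ynull h3 (ynull_tree h1 h2 hn)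
  have h6 : Bd ⊤ (dX F (j + 1) y) := ⟨y, ChD_le _ hy.1, rfl⟩
  simpa using h5.add h6

end

end Pool.Agent.MP_e2821c_ag.Dg
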