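import Pool.Agent.Lib.MP_e2821c_ag.Dg.Core

namespace Pool.Agent.MP_e2821c_ag.Dg

open MvPolynomial

universe u v w

noncomputable section

section Filt

variable {S B : Type*} [CommRing S] [CommRing B] [Algebra S B] {ι : Type*} [Fintype ι]

/-- The span of the monomials of degree at most `k` in `v` times the elements of `t`. -/
def filt_Pert (S : Type*) [CommRing S] [Algebra S B] (v : ι → B) (t : Finset B) (k : ℕ) :
    Submodule S B :=
  Submodule.span S {x | ∃ α : ι → ℕ, ∑ i, α i ≤ k ∧ ∃ b ∈ t, x = (∏ i, v i ^ α i) * b}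

variable {v : ι → B} {t : Finset B}

theorem filt_mono_Pert {k l : ℕ} (h : k ≤ l) : filt_Pert S v t k ≤ filt_Pert S v t l :=
  Submodule.span_mono fun _ ⟨α, h1, h2⟩ => ⟨α, h1.trans h, h2⟩

theorem filt_mul_Pert {k : ℕ} {x : B} (hx : x ∈ filt_Pert S v t k) (β : ι → ℕ) :
    (∏ i, v i ^ β i) * x ∈ filt_Pert S v t (∑ i, β i + k) := by
  induction hx using Submodule.span_induction with
  | mem x hx =>
    obtain ⟨α, h1, b, hb, rfl⟩ := hx
    refine Submodule.subset_span ⟨β + α, ?_, b, hb, ?_⟩
    · simp only [Pi.add_apply, Finset.sum_add_distrib]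
      omega
    · simp only [Pi.add_apply, pow_add, Finset.prod_mul_distrib, mul_assoc]
  | zero => simp
  | add x y _ _ hx hy => rw [mul_add]; exact add_mem hx hy
  | smul a x _ hx => rw [mul_smul_comm]; exact Submodule.smul_mem _ a hx

theorem filt_pow_Pert {k : ℕ} {x : B} (hx : x ∈ filt_Pert S v t k) (i : ι) (m : ℕ) :
    v i ^ m * x ∈ filt_Pert S v t (m + k) := by
  classical
  have h := filt_mul_Pert hx (Pi.single i m)
  have h1 : ∏ j, v j ^ (Pi.single i m : ι → ℕ) j = v i ^ m := by
    rw [Finset.prod_eq_single i (fun j _ hj => by simp [hj]) (by simp)]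
    simp
  rwa [h1, Finset.sum_pi_single', if_pos (Finset.mem_univ i)] at h

theorem mem_filt_zero_Pert {b : B} (hb : b ∈ t) : b ∈ filt_Pert S v t 0 :=
  Submodule.subset_span ⟨0, by simp, b, hb, by simp⟩

theorem exists_filt_Pert (hv : (aeval v : MvPolynomial ι S →ₐ[S] B).Finite) :
    ∃ t : Finset B, ∀ x : B, ∃ k, x ∈ filt_Pert S v t k := by
  let _ := (aeval v : MvPolynomial ι S →ₐ[S] B).toRingHom.toAlgebra
  have hf : Module.Finite (MvPolynomial ι S) B := hv
  obtain ⟨t, ht⟩ := hf.fg_top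
  refine ⟨t, fun x => ?_⟩
  have hx : x ∈ Submodule.span (MvPolynomial ι S) (t : Set B) := ht ▸ Submodule.mem_top
  induction hx using Submodule.span_induction with
  | mem x hx => exact ⟨0, mem_filt_zero_Pert hx⟩
  | zero => exact ⟨0, zero_mem _⟩
  | add x y _ _ hx hy =>
    obtain ⟨k, hk⟩ := hx
    obtain ⟨l, hl⟩ := hy
    exact ⟨k + l, add_mem (filt_mono_Pert (by omega) hk) (filt_mono_Pert (by omega) hl)⟩
  | smul p x _ hx =>
    obtain ⟨k, hk⟩ := hx
    change ∃ l, aeval v p * x ∈ _
    induction p using MvPolynomial.induction_on with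
    | C a =>
      refine ⟨k, ?_⟩
      rw [aeval_C, ← Algebra.smul_def]
      exact Submodule.smul_mem _ a hk
    | add p q hp hq =>
      obtain ⟨l, hl⟩ := hp
      obtain ⟨m, hm⟩ := hq
      refine ⟨l + m, ?_⟩
      rw [map_add, add_mul]
      exact add_mem (filt_mono_Pert (by omega) hl) (filt_mono_Pert (by omega) hm)
    | mul_X p i hp =>
      obtain ⟨l, hl⟩ := hp
      refine ⟨1 + l, ?_⟩
      have := filt_pow_Pert hl i 1
      rwa [map_mul, aeval_X, mul_comm (aeval v p), mul_assoc, ← pow_one (v i)]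

theorem aeval_mem_filt_Pert {b : B} (hb : b ∈ t) (i : ι) {Q : Polynomial S} {n : ℕ}
    (hQ : Q.natDegree < n + 1) : Polynomial.aeval (v i) Q * b ∈ filt_Pert S v t n := by
  rw [Polynomial.aeval_eq_sum_range' hQ, Finset.sum_mul]
  refine Submodule.sum_mem _ fun m hm => ?_
  rw [smul_mul_assoc]
  refine Submodule.smul_mem _ _ (filt_mono_Pert ?_ (filt_pow_Pert (mem_filt_zero_Pert hb) i m))
  have := Finset.mem_range.1 hm
  omega

theorem finite_of_filt_Pert (ht : ∀ x : B, ∃ k, x ∈ filt_Pert S v t k) (w : ι → B) (n : ι → ℕ)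
    (hw : ∀ i, ∀ b ∈ t, (w i - v i ^ (n i + 1)) * b ∈ filt_Pert S v t (n i)) :
    (aeval w : MvPolynomial ι S →ₐ[S] B).Finite := by
  classical
  let _ := (aeval w : MvPolynomial ι S →ₐ[S] B).toRingHom.toAlgebra
  let T : Finset B := ((Fintype.piFinset fun i => Finset.range (n i + 1)) ×ˢ t).image
    fun x => (∏ i, v i ^ x.1 i) * x.2
  let M : Submodule (MvPolynomial ι S) B := Submodule.span _ (T : Set B)
  have hs : ∀ (p : MvPolynomial ι S) (x : B), p • x = aeval w p * x := fun _ _ => rfl
  have H : ∀ k, (∀ α : ι → ℕ, ∑ i, α i ≤ k → ∀ b ∈ t, (∏ i, v i ^ α i) * b ∈ M) →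
      ∀ x ∈ filt_Pert S v t k, x ∈ M := by
    intro k hk x hx
    induction hx using Submodule.span_induction with
    | mem x hx =>
      obtain ⟨α, h1, b, hb, rfl⟩ := hx
      exact hk α h1 b hb
    | zero => exact zero_mem _
    | add x y _ _ hx hy => exact add_mem hx hy
    | smul a x _ hx =>
      have := M.smul_mem (C a) hx
      rwa [hs, aeval_C, ← Algebra.smul_def] at this
  have H2 : ∀ (k : ℕ) (α : ι → ℕ), ∑ i, α i ≤ k → ∀ b ∈ t, (∏ i, v i ^ α i) * b ∈ M := by
    intro k
    induction k with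
    | zero =>
      intro α hα b hb
      refine Submodule.subset_span (Finset.mem_coe.2 (Finset.mem_image.2 ⟨(α, b),
        Finset.mem_product.2 ⟨Fintype.mem_piFinset.2 fun i => Finset.mem_range.2 ?_, hb⟩, rfl⟩))
      have := Finset.single_le_sum (f := α) (fun _ _ => Nat.zero_le _) (Finset.mem_univ i)
      change α i < _
      omega
    | succ k ih =>
      intro α hα b hb
      by_cases h : ∀ i, α i < n i + 1
      · exact Submodule.subset_span (Finset.mem_coe.2 (Finset.mem_image.2 ⟨(α, b),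
          Finset.mem_product.2 ⟨Fintype.mem_piFinset.2 fun i => Finset.mem_range.2 (h i), hb⟩,
          rfl⟩))
      obtain ⟨i, hi⟩ := not_forall.1 h
      obtain ⟨β, rfl⟩ : ∃ β : ι → ℕ, α = β + Pi.single i (n i + 1) := by
        refine ⟨α - Pi.single i (n i + 1), funext fun j => ?_⟩
        by_cases hj : j = i
        · subst hj
          simp only [Pi.add_apply, Pi.sub_apply, Pi.single_eq_same]
          omega
        · simp [hj]
      have h1 : ∏ j, v j ^ (Pi.single i (n i + 1) : ι → ℕ) j = v i ^ (n i + 1) := by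
        rw [Finset.prod_eq_single i (fun j _ hj => by simp [hj]) (by simp)]
        simp
      simp only [Pi.add_apply, Finset.sum_add_distrib, Finset.sum_pi_single', Finset.mem_univ,
        if_true] at hα
      have h2 := M.smul_mem (X i) (ih β (by omega) b hb)
      rw [hs, aeval_X] at h2
      have h3 := H k ih _ (filt_mono_Pert (by omega) (filt_mul_Pert (hw i b hb) β))
      have h4 : (∏ j, v j ^ (β + Pi.single i (n i + 1) : ι → ℕ) j) * b =
          w i * ((∏ j, v j ^ β j) * b) - (∏ j, v j ^ β j) * ((w i - v i ^ (n i + 1)) * b) := by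
        simp only [Pi.add_apply, pow_add _ (β _), Finset.prod_mul_distrib, h1]
        ring
      rw [h4]
      exact sub_mem h2 h3
  refine ⟨⟨T, eq_top_iff.2 fun x _ => ?_⟩⟩
  obtain ⟨k, hk⟩ := ht x
  exact H k (H2 k) x hk

theorem core_Pert (hv : (aeval v : MvPolynomial ι S →ₐ[S] B).Finite) (P : ι → Polynomial S)
    (hP : ∀ i, (P i).Monic) (hd : ∀ i, 0 < (P i).natDegree) (z : ι → B) :
    ∃ N₀ : ℕ, ∀ N, N₀ ≤ N → (aeval (fun i => Polynomial.aeval (v i) (P i) ^ N + z i) :
      MvPolynomial ι S →ₐ[S] B).Finite := by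
  obtain ⟨t, ht⟩ := exists_filt_Pert hv
  choose D hD using ht
  refine ⟨(∑ i, ∑ b ∈ t, D (z i * b)) + 1, fun N hN => ?_⟩
  refine finite_of_filt_Pert (fun x => ⟨D x, hD x⟩) _ (fun i => N * (P i).natDegree - 1)
    fun i b hb => ?_
  have h1 : D (z i * b) ≤ ∑ i, ∑ b ∈ t, D (z i * b) :=
    (Finset.single_le_sum (f := fun b => D (z i * b)) (fun _ _ => Nat.zero_le _) hb).trans
      (Finset.single_le_sum (f := fun i => ∑ b ∈ t, D (z i * b)) (fun _ _ => Nat.zero_le _)
        (Finset.mem_univ i))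
  have h2 : N ≤ N * (P i).natDegree := Nat.le_mul_of_pos_right N (hd i)
  have h3 : N * (P i).natDegree - 1 + 1 = N * (P i).natDegree := by omega
  have h4 : (P i ^ N).natDegree = N * (P i).natDegree := (hP i).natDegree_pow N
  have h5 : P i ^ N = Polynomial.X ^ (N * (P i).natDegree) + (P i ^ N).eraseLead := by
    have := (P i ^ N).eraseLead_add_C_mul_X_pow
    rw [((hP i).pow N).leadingCoeff, h4, map_one, one_mul, add_comm] at this
    exact this.symm
  have h6 : ((P i ^ N).eraseLead).natDegree < N * (P i).natDegree - 1 + 1 := by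
    have := (P i ^ N).eraseLead_natDegree_le
    omega
  have h7 : (Polynomial.aeval (v i) (P i) ^ N + z i - v i ^ (N * (P i).natDegree - 1 + 1)) * b =
      Polynomial.aeval (v i) (P i ^ N).eraseLead * b + z i * b := by
    rw [← map_pow, h3]
    conv_lhs => rw [h5]
    simp only [map_add, map_pow, Polynomial.aeval_X]
    ring
  rw [h7]
  exact add_mem (aeval_mem_filt_Pert hb i h6) (filt_mono_Pert (by omega) (hD _))

end Filt

theorem finite_perturb {R B : Type u} [CommRing R] [CommRing B] [Algebra R B] {ι κ : Type}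
    [Fintype ι] (v : ι → B) (v' : κ → B)
    (hv : (aeval (Sum.elim v v') : MvPolynomial (ι ⊕ κ) R →ₐ[R] B).Finite)
    (P : ι → Polynomial R) (hP : ∀ i, (P i).Monic) (hd : ∀ i, 0 < (P i).natDegree) (z : ι → B) :
    ∃ N₀ : ℕ, ∀ N, N₀ ≤ N → (aeval (Sum.elim (fun i => Polynomial.aeval (v i) (P i) ^ N + z i) v') :
      MvPolynomial (ι ⊕ κ) R →ₐ[R] B).Finite := by
  let _ := (aeval v' : MvPolynomial κ R →ₐ[R] B).toRingHom.toAlgebra
  have ha : ∀ p : MvPolynomial κ R, algebraMap (MvPolynomial κ R) B p = aeval v' p := fun _ => rfl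
  have _ : IsScalarTower R (MvPolynomial κ R) B :=
    IsScalarTower.of_algebraMap_eq fun x => by rw [ha, algebraMap_eq, aeval_C]
  have key : ∀ u : ι → B, (aeval (Sum.elim u v') : MvPolynomial (ι ⊕ κ) R →ₐ[R] B).toRingHom =
      (aeval u : MvPolynomial ι (MvPolynomial κ R) →ₐ[MvPolynomial κ R] B).toRingHom.comp
        (sumAlgEquiv R ι κ).toRingEquiv.toRingHom := by
    intro u
    refine MvPolynomial.ringHom_ext (fun r => ?_) fun s => ?_
    · simp [ha]
    · rcases s with s | s <;> simp [ha]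
  have hv' : (aeval v : MvPolynomial ι (MvPolynomial κ R) →ₐ[MvPolynomial κ R] B).Finite := by
    have h1 : (aeval (Sum.elim v v') : MvPolynomial (ι ⊕ κ) R →ₐ[R] B).toRingHom.Finite := hv
    rw [key] at h1
    exact RingHom.Finite.of_comp_finite h1
  obtain ⟨N₀, H⟩ := core_Pert hv' (fun i => (P i).map (algebraMap R _)) (fun i => (hP i).map _)
    (fun i => by
      rw [Polynomial.natDegree_map_eq_of_injective
        (show Function.Injective (algebraMap R (MvPolynomial κ R)) from C_injective κ R)]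
      exact hd i) z
  refine ⟨N₀, fun N hN => ?_⟩
  have h1 := H N hN
  simp only [Polynomial.aeval_map_algebraMap] at h1
  change RingHom.Finite (AlgHom.toRingHom _)
  rw [key]
  exact RingHom.Finite.comp h1 (RingHom.Finite.of_surjective _ (sumAlgEquiv R ι κ).surjective)

theorem finite_quot_perturb {R B : Type u} [CommRing R] [CommRing B] (g : R →+* B) (v : B)
    (hv : (Polynomial.eval₂RingHom g v).Finite) (P : Polynomial R) (hP : P.Monic)
    (hd : 0 < P.natDegree) (z : B) : ∃ N₀ : ℕ, ∀ N, N₀ ≤ N →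
      FiniteOver R B g (Ideal.span {Polynomial.eval₂ g v P ^ N + z}) := by
  let _ := g.toAlgebra
  have hg : algebraMap R B = g := rfl
  have hv' : (aeval (fun _ : Unit => v) : MvPolynomial Unit R →ₐ[R] B).Finite := by
    have h1 : Polynomial.eval₂RingHom g v =
        (aeval (fun _ : Unit => v) : MvPolynomial Unit R →ₐ[R] B).toRingHom.comp
          (Polynomial.eval₂RingHom C (X ())) :=
      Polynomial.ringHom_ext (fun r => by simp [hg]) (by simp)
    rw [h1] at hv
    exact RingHom.Finite.of_comp_finite hv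
  obtain ⟨N₀, H⟩ := core_Pert hv' (fun _ => P) (fun _ => hP) (fun _ => hd) fun _ => z
  refine ⟨N₀, fun N hN => ?_⟩
  have h1 := RingHom.Finite.comp (RingHom.Finite.of_surjective
    (Ideal.Quotient.mk (Ideal.span {Polynomial.eval₂ g v P ^ N + z})) Ideal.Quotient.mk_surjective)
    (H N hN)
  have h2 : (Ideal.Quotient.mk (Ideal.span {Polynomial.eval₂ g v P ^ N + z})).comp
      (aeval (fun _ : Unit => Polynomial.aeval v P ^ N + z) :
        MvPolynomial Unit R →ₐ[R] B).toRingHom =
      ((Ideal.Quotient.mk (Ideal.span {Polynomial.eval₂ g v P ^ N + z})).comp g).comp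
        constantCoeff := by
    refine MvPolynomial.ringHom_ext (fun r => by simp [hg]) fun s => ?_
    simp only [RingHom.comp_apply, AlgHom.toRingHom_eq_coe, RingHom.coe_coe, aeval_X,
      constantCoeff_X, map_zero]
    exact Ideal.Quotient.eq_zero_iff_mem.2 (Ideal.subset_span rfl)
  rw [h2] at h1
  exact RingHom.Finite.of_comp_finite h1

end

end Pool.Agent.MP_e2821c_ag.Dg
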