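import Pool.Agent.Lib.MP_e2821c_ag.Dg.Orient

namespace Pool.Agent.MP_e2821c_ag.Dg

open MvPolynomial

universe u v w

noncomputable section

theorem tele_Planar {G : Type v} [AddCommGroup G] (T : Finset ℚ) :
    ∀ H : Set ℚ → G, (∀ A B : Set ℚ, (∀ t ∈ T, t ∈ A ↔ t ∈ B) → H A = H B) →
      ∑ s ∈ T, (H (Set.Iic s) - H (Set.Iio s)) = H Set.univ - H ∅ := by
  induction T using Finset.induction_on_max with
  | empty =>
    intro H hH
    rw [Finset.sum_empty, hH Set.univ ∅ (by simp), sub_self]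
  | insert m T hm ih =>
    intro H hH
    have hmT : m ∉ T := fun h => lt_irrefl _ (hm m h)
    have h1 := ih (fun A => H (A ∩ Set.Iio m)) (by
      intro A B hAB
      refine hH _ _ fun t ht => ?_
      rcases Finset.mem_insert.1 ht with rfl | ht
      · simp
      · simp only [Set.mem_inter_iff, hAB t ht])
    have h2 : ∑ s ∈ T, (H (Set.Iic s) - H (Set.Iio s)) =
        ∑ s ∈ T, (H (Set.Iic s ∩ Set.Iio m) - H (Set.Iio s ∩ Set.Iio m)) := by
      refine Finset.sum_congr rfl fun s hs => ?_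
      rw [Set.inter_eq_left.2 (Set.Iic_subset_Iio.2 (hm s hs)),
        Set.inter_eq_left.2 (Set.Iio_subset_Iio (hm s hs).le)]
    have h3 : H (Set.Iic m) = H Set.univ := by
      refine hH _ _ fun t ht => ?_
      rcases Finset.mem_insert.1 ht with rfl | ht
      · simp
      · simp [(hm t ht).le]
    rw [Finset.sum_insert hmT, h2, h1, h3, Set.univ_inter, Set.empty_inter]
    abel

open Classical in
/-- The sign pattern of a chamber in the plane. -/
def pat_Planar (a b : ℚ) (A : Set ℚ) : SignType :=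
  if a = 0 then -SignType.sign b else if b / a ∈ A then SignType.sign a else -SignType.sign a

theorem pat_Iic_Planar (a b s : ℚ) : pat_Planar a b (Set.Iic s) =
    if a * s - b = 0 then SignType.sign a else SignType.sign (a * s - b) := by
  unfold pat_Planar
  by_cases ha : a = 0
  · subst ha
    by_cases hb : b = 0
    · simp [hb]
    · simp [hb, Left.sign_neg]
  have h1 : a * s - b = a * (s - b / a) := by field_simp
  rw [if_neg ha, h1, sign_mul]
  rcases lt_trichotomy (b / a) s with h | h | h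
  · rw [if_pos (Set.mem_Iic.2 h.le), if_neg (mul_ne_zero ha (sub_pos.2 h).ne'),
      sign_pos (sub_pos.2 h), mul_one]
  · rw [if_pos (Set.mem_Iic.2 h.le), if_pos (by rw [h, sub_self, mul_zero])]
  · rw [if_neg (fun h' => absurd h (not_lt.2 (Set.mem_Iic.1 h'))),
      if_neg (mul_ne_zero ha (sub_neg.2 h).ne), sign_neg (sub_neg.2 h), mul_neg, mul_one]

theorem pat_Iio_Planar (a b s : ℚ) : pat_Planar a b (Set.Iio s) =
    if a * s - b = 0 then -SignType.sign a else SignType.sign (a * s - b) := by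
  unfold pat_Planar
  by_cases ha : a = 0
  · subst ha
    by_cases hb : b = 0
    · simp [hb]
    · simp [hb, Left.sign_neg]
  have h1 : a * s - b = a * (s - b / a) := by field_simp
  rw [if_neg ha, h1, sign_mul]
  rcases lt_trichotomy (b / a) s with h | h | h
  · rw [if_pos (Set.mem_Iio.2 h), if_neg (mul_ne_zero ha (sub_pos.2 h).ne'),
      sign_pos (sub_pos.2 h), mul_one]
  · rw [if_neg (fun h' => absurd h (Set.mem_Iio.1 h').ne), if_pos (by rw [h, sub_self, mul_zero])]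
  · rw [if_neg (fun h' => absurd h (not_lt.2 (Set.mem_Iio.1 h').le)),
      if_neg (mul_ne_zero ha (sub_neg.2 h).ne), sign_neg (sub_neg.2 h), mul_neg, mul_one]

theorem lexSign_neg_Planar {N : ℕ} (w₁ w₂ : Fn N) (e : Vec N) :
    lexSign (-w₁) (-w₂) e = -lexSign w₁ w₂ e := by
  unfold lexSign
  simp only [LinearMap.neg_apply, neg_eq_zero, Left.sign_neg]
  split_ifs <;> rfl

theorem sign_cast_Planar (c : ℚ) : SignType.sign (c : ℝ) = SignType.sign c := by
  rcases lt_trichotomy c 0 with h | h | h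
  · rw [sign_neg h, sign_neg (by exact_mod_cast h)]
  · simp [h]
  · rw [sign_pos h, sign_pos (by exact_mod_cast h)]

theorem eq_sup_Planar {N : ℕ} {A B : Sb N} (h : Hyp A B) {y : Vec N} (hy : y ∈ B) (hn : y ∉ A) :
    A ⊔ Submodule.span ℚ {y} = B := by
  refine Submodule.eq_of_le_of_finrank_eq
    (sup_le h.1 ((Submodule.span_singleton_le_iff_mem _ _).2 hy)) ?_
  rw [(hyp_sup_span hn).2, h.2]

theorem exists_sub_Planar {N : ℕ} {A B : Sb N} (h : Hyp A B) {y : Vec N} (hy : y ∈ B)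
    (hn : y ∉ A) {e : Vec N} (he : e ∈ B) : ∃ (c : ℚ) (x : Vec N), x ∈ A ∧ e = x + c • y := by
  rw [← eq_sup_Planar h hy hn] at he
  obtain ⟨x, hx, z, hz, rfl⟩ := Submodule.mem_sup.1 he
  obtain ⟨c, rfl⟩ := Submodule.mem_span_singleton.1 hz
  exact ⟨c, x, hx, rfl⟩

theorem cut_eq_zero_Planar {N : ℕ} {A B : Sb N} (h : Hyp A B) {e : Vec N} (he : e ∈ B) :
    cut B A e = 0 ↔ e ∈ A := by
  constructor
  · intro h0
    rw [← h.inf_ker]
    exact ⟨he, h0⟩
  · intro h0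
    rw [← h.inf_ker] at h0
    exact h0.2

theorem exists_pos_Planar {N : ℕ} {A B : Sb N} (h : Hyp A B) : ∃ y ∈ B, 0 < cut B A y := by
  obtain ⟨y, hy, hn⟩ := SetLike.exists_of_lt h.lt
  have h0 : cut B A y ≠ 0 := fun h0 => hn ((cut_eq_zero_Planar h hy).1 h0)
  rcases lt_or_gt_of_ne h0 with h1 | h1
  · exact ⟨-y, neg_mem hy, by rw [map_neg]; exact neg_pos.2 h1⟩
  · exact ⟨y, hy, h1⟩

theorem sign_cut_Planar {N : ℕ} {A B : Sb N} (h : Hyp A B) {y x : Vec N} (hy : 0 < cut B A y)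
    (hx : x ∈ A) (c : ℚ) : SignType.sign (cut B A (x + c • y)) = SignType.sign c := by
  rw [map_add, (cut_eq_zero_Planar h (h.1 hx)).2 hx, zero_add, map_smul, Rat.smul_def, sign_mul,
    sign_pos hy, mul_one, sign_cast_Planar]

theorem exists_fun_Planar {N : ℕ} {G : Type v} [AddCommGroup G] (S : Set (Vec N))
    (g : Fn N → Fn N → G)
    (hg : ∀ w₁ w₂ w₁' w₂', (∀ e ∈ S, lexSign w₁ w₂ e = lexSign w₁' w₂' e) →
      g w₁ w₂ = g w₁' w₂') :
    ∃ Γ : (Vec N → SignType) → G, (∀ p p', (∀ e ∈ S, p e = p' e) → Γ p = Γ p') ∧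
      ∀ w₁ w₂, g w₁ w₂ = Γ (lexSign w₁ w₂) := by
  classical
  refine ⟨fun p => if h : ∃ w : Fn N × Fn N, ∀ e ∈ S, lexSign w.1 w.2 e = p e then
    g h.choose.1 h.choose.2 else 0, fun p p' hp => ?_, fun w₁ w₂ => ?_⟩
  · by_cases h : ∃ w : Fn N × Fn N, ∀ e ∈ S, lexSign w.1 w.2 e = p e
    · have h' : ∃ w : Fn N × Fn N, ∀ e ∈ S, lexSign w.1 w.2 e = p' e := by
        obtain ⟨w, hw⟩ := h
        exact ⟨w, fun e he => (hw e he).trans (hp e he)⟩
      simp only [dif_pos h, dif_pos h']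
      refine hg _ _ _ _ fun e he => ?_
      rw [h.choose_spec e he, h'.choose_spec e he, hp e he]
    · have h' : ¬ ∃ w : Fn N × Fn N, ∀ e ∈ S, lexSign w.1 w.2 e = p' e := by
        rintro ⟨w, hw⟩
        exact h ⟨w, fun e he => (hw e he).trans (hp e he).symm⟩
      simp only [dif_neg h, dif_neg h']
  · have h : ∃ w : Fn N × Fn N, ∀ e ∈ S, lexSign w.1 w.2 e = lexSign w₁ w₂ e :=
      ⟨(w₁, w₂), fun _ _ => rfl⟩
    simp only [dif_pos h]
    exact hg _ _ _ _ fun e he => (h.choose_spec e he).symm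

theorem planar {N : ℕ} {G : Type v} [AddCommGroup G] {W W'' : Sb N} (hle : W'' ≤ W)
    (hd : Module.finrank ℚ W = Module.finrank ℚ W'' + 2) (E : Set (Vec N)) (𝓛 : Finset (Sb N))
    (h𝓛 : ∀ W' ∈ 𝓛, Hyp W'' W' ∧ Hyp W' W)
    (hE : ∀ e ∈ E, e ∈ W → e ∉ W'' → W'' ⊔ Submodule.span ℚ {e} ∈ 𝓛) (g : Fn N → Fn N → G)
    (hg : ∀ w₁ w₂ w₁' w₂', (∀ e ∈ E, e ∈ W → lexSign w₁ w₂ e = lexSign w₁' w₂' e) →
      g w₁ w₂ = g w₁' w₂') :
    ∑ W' ∈ 𝓛, (g (cut W W') (cut W' W'') - g (cut W W') (-cut W' W'') -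
      g (-cut W W') (cut W' W'') + g (-cut W W') (-cut W' W'')) = 0 := by
  classical
  rcases 𝓛.eq_empty_or_nonempty with rfl | ⟨W₀, hW₀⟩
  · exact Finset.sum_empty
  obtain ⟨Γ, hΓ, hgΓ⟩ := exists_fun_Planar (E ∩ (W : Set (Vec N))) g
    fun w₁ w₂ w₁' w₂' h => hg w₁ w₂ w₁' w₂' fun e he hw => h e ⟨he, hw⟩
  obtain ⟨ω, hω0, hω1, hω⟩ := isCut_cut.two W W'' hle hd
  have hanti : ∀ x y, ω x y = -ω y x := by
    intro x y
    have h := hω0 (x + y)
    simp only [map_add, LinearMap.add_apply, hω0] at h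
    linarith
  have hω2 : ∀ x, ∀ y ∈ W'', ω x y = 0 := fun x y hy => by rw [hanti, hω1 y hy, neg_zero]
  have hy : ∀ W' : Sb N, ∃ y : Vec N, W' ∈ 𝓛 → y ∈ W' ∧ 0 < cut W' W'' y := by
    intro W'
    by_cases h : W' ∈ 𝓛
    · obtain ⟨y, h1, h2⟩ := exists_pos_Planar (h𝓛 W' h).1
      exact ⟨y, fun _ => ⟨h1, h2⟩⟩
    · exact ⟨0, fun h' => absurd h' h⟩
  choose y hy using hy
  have hyn : ∀ W' ∈ 𝓛, y W' ∉ W'' := fun W' h h0 =>
    (hy W' h).2.ne' ((cut_eq_zero_Planar (h𝓛 W' h).1 (hy W' h).1).2 h0)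
  have hyW : ∀ W' ∈ 𝓛, y W' ∈ W := fun W' h => (h𝓛 W' h).2.1 (hy W' h).1
  have hsg : ∀ W' ∈ 𝓛, ∀ e ∈ W, SignType.sign (cut W W' e) = SignType.sign (ω e (y W')) := by
    intro W' h e he
    rw [← hω W' (h𝓛 W' h).1 (h𝓛 W' h).2 e he _ (hy W' h).1, sign_pos (hy W' h).2, mul_one]
  have hz : ∀ W' ∈ 𝓛, ∀ e ∈ W, cut W W' e = 0 ↔ ω e (y W') = 0 := by
    intro W' h e he
    rw [← sign_eq_zero_iff, hsg W' h e he, sign_eq_zero_iff]
  have hmem : ∀ W' ∈ 𝓛, ∀ e ∈ W, e ∈ W' ↔ ω e (y W') = 0 := fun W' h e he =>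
    (cut_eq_zero_Planar (h𝓛 W' h).2 he).symm.trans (hz W' h e he)
  have hinj : ∀ W₁ ∈ 𝓛, ∀ W₂ ∈ 𝓛, ω (y W₁) (y W₂) = 0 → W₁ = W₂ := by
    intro W₁ h₁ W₂ h₂ h0
    have h1 := (hmem W₂ h₂ _ (hyW W₁ h₁)).2 h0
    rw [← eq_sup_Planar (h𝓛 W₁ h₁).1 (hy W₁ h₁).1 (hyn W₁ h₁),
      eq_sup_Planar (h𝓛 W₂ h₂).1 h1 (hyn W₁ h₁)]
  obtain ⟨x₀, hx₀, hx₀'⟩ : ∃ x₀ ∈ W, ω x₀ (y W₀) = 1 := by
    obtain ⟨x, hx, hn⟩ := SetLike.exists_of_lt (h𝓛 W₀ hW₀).2.lt
    have h0 : ω x (y W₀) ≠ 0 := fun h0 => hn ((hmem W₀ hW₀ x hx).2 h0)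
    refine ⟨(ω x (y W₀))⁻¹ • x, W.smul_mem _ hx, ?_⟩
    rw [map_smul, LinearMap.smul_apply, smul_eq_mul, inv_mul_cancel₀ h0]
  have hx₀n : x₀ ∉ W₀ := fun h => by
    have := (hmem W₀ hW₀ x₀ hx₀).1 h
    rw [hx₀'] at this
    exact one_ne_zero this
  have hyx : ω (y W₀) x₀ = -1 := by rw [hanti, hx₀']
  have hdec : ∀ e ∈ W, ∃ (α β : ℚ) (x : Vec N), x ∈ W'' ∧ e = x + β • y W₀ + α • x₀ := by
    intro e he
    obtain ⟨α, x, hx, rfl⟩ := exists_sub_Planar (h𝓛 W₀ hW₀).2 hx₀ hx₀n he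
    obtain ⟨β, x', hx', rfl⟩ :=
      exists_sub_Planar (h𝓛 W₀ hW₀).1 (hy W₀ hW₀).1 (hyn W₀ hW₀) hx
    exact ⟨α, β, x', hx', rfl⟩
  have hpl : ∀ e ∈ W, ∀ e' ∈ W,
      ω e e' = ω e (y W₀) * ω x₀ e' - ω x₀ e * ω e' (y W₀) := by
    intro e he e' he'
    obtain ⟨α, β, x, hx, rfl⟩ := hdec e he
    obtain ⟨α', β', x', hx', rfl⟩ := hdec e' he'
    simp only [map_add, map_smul, LinearMap.add_apply, LinearMap.smul_apply, smul_eq_mul,
      hω1 x hx, hω1 x' hx', hω2 _ x hx, hω2 _ x' hx', hω0, hx₀', hyx]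
    ring
  set P : Set ℚ → Vec N → SignType := fun A e => pat_Planar (ω e (y W₀)) (ω x₀ e) A with hP
  set H : Set ℚ → G := fun A => Γ (P A) + Γ (fun e => -P A e) with hH
  set sl : Sb N → ℚ := fun W' => ω x₀ (y W') / ω (y W') (y W₀) with hsl
  have ha : ∀ W' ∈ 𝓛.erase W₀, ω (y W') (y W₀) ≠ 0 := fun W' h h0 =>
    (Finset.mem_erase.1 h).1 (hinj W' (Finset.mem_erase.1 h).2 W₀ hW₀ h0)
  have hterm : ∀ (W' : Sb N) (A B : Set ℚ) (ε : SignType), ε = 1 ∨ ε = -1 →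
      (∀ e ∈ W, lexSign (cut W W') (cut W' W'') e = ε * P A e) →
      (∀ e ∈ W, lexSign (cut W W') (-cut W' W'') e = ε * P B e) →
      g (cut W W') (cut W' W'') - g (cut W W') (-cut W' W'') -
        g (-cut W W') (cut W' W'') + g (-cut W W') (-cut W' W'') = H A - H B := by
    intro W' A B ε hε h1 h2
    have h3 : ∀ e ∈ W, lexSign (-cut W W') (cut W' W'') e = -(ε * P B e) := fun e he => by
      rw [← h2 e he, ← lexSign_neg_Planar, neg_neg]
    have h4 : ∀ e ∈ W, lexSign (-cut W W') (-cut W' W'') e = -(ε * P A e) := fun e he => by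
      rw [← h1 e he, lexSign_neg_Planar]
    rw [hgΓ, hgΓ, hgΓ, hgΓ, hΓ _ _ fun e he => h1 e he.2, hΓ _ _ fun e he => h2 e he.2,
      hΓ _ _ fun e he => h3 e he.2, hΓ _ _ fun e he => h4 e he.2]
    rcases hε with rfl | rfl
    · simp only [one_mul, hH]
      abel
    · simp only [neg_mul, one_mul, neg_neg, hH]
      abel
  have htie : ∀ W' ∈ 𝓛, ∀ e ∈ W, cut W W' e = 0 → ∃ c : ℚ,
      SignType.sign (cut W' W'' e) = SignType.sign c ∧ ω e (y W₀) = c * ω (y W') (y W₀) ∧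
        ω x₀ e = c * ω x₀ (y W') := by
    intro W' h e he h0
    obtain ⟨c, x, hx, rfl⟩ := exists_sub_Planar (h𝓛 W' h).1 (hy W' h).1 (hyn W' h)
      ((cut_eq_zero_Planar (h𝓛 W' h).2 he).1 h0)
    refine ⟨c, sign_cut_Planar (h𝓛 W' h).1 (hy W' h).2 hx c, ?_, ?_⟩
    · rw [map_add, map_smul, LinearMap.add_apply, LinearMap.smul_apply, hω1 x hx, zero_add,
        smul_eq_mul]
    · rw [map_add, map_smul, hω2 _ x hx, zero_add, smul_eq_mul]
  have hothers : ∀ W' ∈ 𝓛.erase W₀, g (cut W W') (cut W' W'') - g (cut W W') (-cut W' W'') -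
      g (-cut W W') (cut W' W'') + g (-cut W W') (-cut W' W'') =
        H (Set.Iic (sl W')) - H (Set.Iio (sl W')) := by
    intro W' h
    have h' := (Finset.mem_erase.1 h).2
    have ha' := ha W' h
    have hε : SignType.sign (ω (y W') (y W₀)) = 1 ∨ SignType.sign (ω (y W') (y W₀)) = -1 := by
      rcases lt_or_gt_of_ne ha' with h1 | h1
      · exact Or.inr (sign_neg h1)
      · exact Or.inl (sign_pos h1)
    have hfac : ∀ e ∈ W, ω e (y W') = ω (y W') (y W₀) * (ω e (y W₀) * sl W' - ω x₀ e) := by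
      intro e he
      rw [hpl e he _ (hyW W' h'), hsl]
      field_simp
    have hiff : ∀ e ∈ W, cut W W' e = 0 ↔ ω e (y W₀) * sl W' - ω x₀ e = 0 := by
      intro e he
      rw [hz W' h' e he, hfac e he, mul_eq_zero, or_iff_right ha']
    have ht : ∀ e ∈ W, cut W W' e = 0 → SignType.sign (cut W' W'' e) =
        SignType.sign (ω (y W') (y W₀)) * SignType.sign (ω e (y W₀)) := by
      intro e he h0
      obtain ⟨c, h1, h2, -⟩ := htie W' h' e he h0
      rw [h1, h2, sign_mul]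
      rcases hε with h3 | h3 <;> rw [h3] <;> simp
    refine hterm W' _ _ _ hε (fun e he => ?_) fun e he => ?_
    · simp only [hP, pat_Iic_Planar, lexSign]
      by_cases h0 : cut W W' e = 0
      · rw [if_pos h0, if_pos ((hiff e he).1 h0), ht e he h0]
      · rw [if_neg h0, if_neg fun h1 => h0 ((hiff e he).2 h1), hsg W' h' e he, hfac e he,
          sign_mul]
    · simp only [hP, pat_Iio_Planar, lexSign]
      by_cases h0 : cut W W' e = 0
      · rw [if_pos h0, if_pos ((hiff e he).1 h0), LinearMap.neg_apply, Left.sign_neg, ht e he h0,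
          mul_neg]
      · rw [if_neg h0, if_neg fun h1 => h0 ((hiff e he).2 h1), hsg W' h' e he, hfac e he,
          sign_mul]
  have hzero : g (cut W W₀) (cut W₀ W'') - g (cut W W₀) (-cut W₀ W'') -
      g (-cut W W₀) (cut W₀ W'') + g (-cut W W₀) (-cut W₀ W'') = H ∅ - H Set.univ := by
    have ht : ∀ e ∈ W, cut W W₀ e = 0 →
        SignType.sign (cut W₀ W'' e) = SignType.sign (ω x₀ e) := by
      intro e he h0
      obtain ⟨c, h1, -, h2⟩ := htie W₀ hW₀ e he h0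
      rw [h1, h2, hx₀', mul_one]
    have h1 : ∀ e ∈ W, lexSign (cut W W₀) (cut W₀ W'') e = -P ∅ e := by
      intro e he
      simp only [hP, pat_Planar, lexSign]
      by_cases h0 : cut W W₀ e = 0
      · rw [if_pos h0, if_pos ((hz W₀ hW₀ e he).1 h0), ht e he h0, neg_neg]
      · rw [if_neg h0, if_neg fun h1 => h0 ((hz W₀ hW₀ e he).2 h1), hsg W₀ hW₀ e he,
          if_neg (Set.notMem_empty _), neg_neg]
    have h2 : ∀ e ∈ W, lexSign (cut W W₀) (-cut W₀ W'') e = P Set.univ e := by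
      intro e he
      simp only [hP, pat_Planar, lexSign]
      by_cases h0 : cut W W₀ e = 0
      · rw [if_pos h0, if_pos ((hz W₀ hW₀ e he).1 h0), LinearMap.neg_apply, Left.sign_neg,
          ht e he h0]
      · rw [if_neg h0, if_neg fun h1 => h0 ((hz W₀ hW₀ e he).2 h1), hsg W₀ hW₀ e he,
          if_pos (Set.mem_univ _)]
    have h3 : ∀ e ∈ W, lexSign (-cut W W₀) (cut W₀ W'') e = -P Set.univ e := fun e he => by
      rw [← h2 e he, ← lexSign_neg_Planar, neg_neg]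
    have h4 : ∀ e ∈ W, lexSign (-cut W W₀) (-cut W₀ W'') e = P ∅ e := fun e he => by
      rw [lexSign_neg_Planar, h1 e he, neg_neg]
    rw [hgΓ, hgΓ, hgΓ, hgΓ, hΓ _ _ fun e he => h1 e he.2, hΓ _ _ fun e he => h2 e he.2,
      hΓ _ _ fun e he => h3 e he.2, hΓ _ _ fun e he => h4 e he.2]
    simp only [hH]
    abel
  have hslinj : Set.InjOn sl (𝓛.erase W₀ : Finset (Sb N)) := by
    intro W₁ h₁ W₂ h₂ h
    have h₁' := (Finset.mem_erase.1 h₁).2
    have h₂' := (Finset.mem_erase.1 h₂).2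
    refine hinj W₁ h₁' W₂ h₂' ?_
    rw [hpl _ (hyW W₁ h₁') _ (hyW W₂ h₂')]
    have h3 := (div_eq_div_iff (ha W₁ h₁) (ha W₂ h₂)).1 h
    linarith
  have hdep : ∀ A B : Set ℚ, (∀ t ∈ (𝓛.erase W₀).image sl, t ∈ A ↔ t ∈ B) → H A = H B := by
    intro A B hAB
    have hPe : ∀ e ∈ E ∩ (W : Set (Vec N)), P A e = P B e := by
      rintro e ⟨he, hw⟩
      simp only [hP, pat_Planar]
      by_cases h0 : ω e (y W₀) = 0
      · rw [if_pos h0, if_pos h0]
      have hn : e ∉ W'' := fun h => h0 (hω1 e h _)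
      have h1 := hE e he hw hn
      have h2 : e ∈ W'' ⊔ Submodule.span ℚ {e} :=
        Submodule.mem_sup_right (Submodule.mem_span_singleton_self e)
      have h3 : W'' ⊔ Submodule.span ℚ {e} ∈ 𝓛.erase W₀ :=
        Finset.mem_erase.2 ⟨fun h => h0 ((hmem W₀ hW₀ e hw).1 (h ▸ h2)), h1⟩
      obtain ⟨c, -, h4, h5⟩ := htie _ h1 e hw ((cut_eq_zero_Planar (h𝓛 _ h1).2 hw).2 h2)
      have hc : c ≠ 0 := fun h => h0 (by rw [h4, h, zero_mul])
      have h6 : ω x₀ e / ω e (y W₀) = sl (W'' ⊔ Submodule.span ℚ {e}) := by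
        rw [h4, h5, mul_div_mul_left _ _ hc]
      rw [if_neg h0, if_neg h0, h6]
      exact if_congr (hAB _ (Finset.mem_image_of_mem sl h3)) rfl rfl
    simp only [hH]
    rw [hΓ _ _ hPe, hΓ (fun e => -P A e) (fun e => -P B e) fun e he => by rw [hPe e he]]
  have htel := tele_Planar _ H hdep
  rw [Finset.sum_image hslinj] at htel
  rw [← Finset.add_sum_erase _ _ hW₀, hzero, Finset.sum_congr rfl hothers, htel]
  abel

end

end Pool.Agent.MP_e2821c_ag.Dg
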