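import Pool.Agent.Lib.MP_e2821c_ag.Dg.Pert

namespace Pool.Agent.MP_e2821c_ag.Dg

open MvPolynomial

universe u v w

noncomputable section

section Nagata

variable {k : Type*} [Field k] {n : ℕ}

/-- The substitution `X i ↦ X i + c X 0 ^ (e ^ i)` for `i ≠ 0`. -/
abbrev nagA_Proj (n e : ℕ) (c : k) :
    MvPolynomial (Fin (n + 1)) k →ₐ[k] MvPolynomial (Fin (n + 1)) k :=
  aeval fun i ↦ if i = 0 then X 0 else X i + c • X 0 ^ (e ^ i.1)

theorem nagA_comp_Proj (e : ℕ) (c : k) :
    (nagA_Proj n e c).comp (nagA_Proj n e (-c)) = AlgHom.id _ _ := by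
  rw [comp_aeval, ← MvPolynomial.aeval_X_left]
  ext i v
  cases i using Fin.cases <;> simp

/-- The substitution as an automorphism. -/
abbrev nag_Proj (k : Type*) [Field k] (n e : ℕ) :
    MvPolynomial (Fin (n + 1)) k ≃ₐ[k] MvPolynomial (Fin (n + 1)) k :=
  AlgEquiv.ofAlgHom (nagA_Proj n e 1) (nagA_Proj n e (-1))
    (nagA_comp_Proj e 1) (by simpa using nagA_comp_Proj (n := n) e (-1 : k))

theorem sum_ne_Proj {e : ℕ} (he : 1 < e) (v w : Fin (n + 1) →₀ ℕ) (vlt : ∀ i, v i < e)
    (wlt : ∀ i, w i < e) (ne : v ≠ w) :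
    ∑ x : Fin (n + 1), e ^ x.1 * v x ≠ ∑ x : Fin (n + 1), e ^ x.1 * w x := by
  intro h
  refine ne <| Finsupp.ext <| congrFun <| List.ofFn_inj.mp ?_
  apply Nat.ofDigits_inj_of_len_eq he (by simp) (by grind) (by grind)
  simpa only [Nat.ofDigits_eq_sum_mapIdx, List.mapIdx_eq_ofFn, List.get_ofFn, List.length_ofFn,
    Fin.val_cast, mul_comm, List.sum_ofFn] using! h

theorem degreeOf_nag_Proj {e : ℕ} (he : 1 < e) (v : Fin (n + 1) →₀ ℕ) {a : k} (ha : a ≠ 0) :
    ((nag_Proj k n e) (monomial v a)).degreeOf 0 = ∑ i : Fin (n + 1), (e ^ i.1) * v i := by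
  rw [← natDegree_finSuccEquiv, monomial_eq, Finsupp.prod_pow v fun a ↦ X a]
  simp only [Fin.prod_univ_succ, Fin.sum_univ_succ, map_mul, map_prod, map_pow,
    AlgEquiv.ofAlgHom_apply, MvPolynomial.aeval_C, MvPolynomial.aeval_X, if_pos, Fin.succ_ne_zero,
    ite_false, one_smul, map_add, finSuccEquiv_X_zero, finSuccEquiv_X_succ, algebraMap_eq]
  have h (i : Fin n) :
      (Polynomial.C (X (R := k) i) + Polynomial.X ^ (e ^ i.succ.1)) ^ v i.succ ≠ 0 :=
    pow_ne_zero (v i.succ) (Polynomial.leadingCoeff_ne_zero.mp <| by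
      rw [add_comm, Polynomial.leadingCoeff_X_pow_add_C (pow_pos (by omega) _)]
      exact one_ne_zero)
  rw [Polynomial.natDegree_mul (by simp [ha]) (mul_ne_zero (by simp) (Finset.prod_ne_zero_iff.mpr
    (fun i _ ↦ h i))), Polynomial.natDegree_mul (by simp)
    (Finset.prod_ne_zero_iff.mpr (fun i _ ↦ h i)),
    Polynomial.natDegree_prod _ _ (fun i _ ↦ h i), natDegree_finSuccEquiv, degreeOf_C]
  simpa only [Polynomial.natDegree_pow, zero_add, Polynomial.natDegree_X, mul_one, Fin.val_zero,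
    pow_zero, one_mul, add_right_inj] using Finset.sum_congr rfl (fun i _ ↦ by
    rw [add_comm (Polynomial.C _), Polynomial.natDegree_X_pow_add_C, mul_comm])

theorem leadingCoeff_nag_Proj {e : ℕ} (he : 1 < e) (v : Fin (n + 1) →₀ ℕ) (a : k) :
    (finSuccEquiv k n ((nag_Proj k n e) ((monomial v) a))).leadingCoeff = algebraMap k _ a := by
  rw [monomial_eq, Finsupp.prod_fintype]
  · simp only [map_mul, map_prod, Polynomial.leadingCoeff_mul, Polynomial.leadingCoeff_prod]
    rw [AlgEquiv.ofAlgHom_apply, algHom_C, algebraMap_eq, finSuccEquiv_apply,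
      eval₂Hom_C, RingHom.coe_comp]
    simp only [AlgEquiv.ofAlgHom_apply, Function.comp_apply, Polynomial.leadingCoeff_C, map_pow,
      Polynomial.leadingCoeff_pow, algebraMap_eq]
    have : ∀ j, ((finSuccEquiv k n) ((nagA_Proj n e (1 : k)) (X j))).leadingCoeff = 1 := fun j ↦ by
      by_cases h : j = 0
      · simp [h, finSuccEquiv_apply]
      · simp only [aeval_eq_bind₁, bind₁_X_right, if_neg h, one_smul, map_add, map_pow]
        obtain ⟨i, rfl⟩ := Fin.exists_succ_eq.mpr h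
        have hpos : 0 < e ^ (i.1 + 1) := pow_pos (by omega) _
        simp [finSuccEquiv_X_succ, finSuccEquiv_X_zero, add_comm,
          Polynomial.leadingCoeff_X_pow_add_C hpos]
    simp only [this, one_pow, Finset.prod_const_one, mul_one]
  exact fun i ↦ pow_zero _

theorem exists_aut_Proj (f : MvPolynomial (Fin (n + 1)) k) (fne : f ≠ 0) :
    ∃ T : MvPolynomial (Fin (n + 1)) k ≃ₐ[k] MvPolynomial (Fin (n + 1)) k,
      IsUnit (finSuccEquiv k n (T f)).leadingCoeff := by
  have he : 1 < 2 + f.totalDegree := by omega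
  generalize hE : 2 + f.totalDegree = e at he
  refine ⟨nag_Proj k n e, ?_⟩
  have hne : ∀ v w, v ∈ f.support → w ∈ f.support → v ≠ w →
      (nag_Proj k n e <| monomial v <| coeff v f).degreeOf 0 ≠
      (nag_Proj k n e <| monomial w <| coeff w f).degreeOf 0 := by
    intro v w hv hw ne
    rw [degreeOf_nag_Proj he _ <| mem_support_iff.mp hv,
      degreeOf_nag_Proj he _ <| mem_support_iff.mp hw]
    refine sum_ne_Proj he v w (fun i ↦ ?_) (fun i ↦ ?_) ne <;>
    exact lt_of_le_of_lt ((monomial_le_degreeOf i ‹_›).trans (degreeOf_le_totalDegree f i))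
      (by omega)
  obtain ⟨v, vin, vs⟩ := Finset.exists_max_image f.support
    (fun v ↦ (nag_Proj k n e ((monomial v) (coeff v f))).degreeOf 0) (support_nonempty.mpr fne)
  set h := fun w ↦ (MvPolynomial.monomial w) (coeff w f)
  simp only [← natDegree_finSuccEquiv] at vs
  replace vs : ∀ x ∈ f.support \ {v}, (finSuccEquiv k n ((nag_Proj k n e) (h x))).degree <
      (finSuccEquiv k n ((nag_Proj k n e) (h v))).degree := by
    intro x hx
    obtain ⟨h1, h2⟩ := Finset.mem_sdiff.mp hx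
    apply Polynomial.degree_lt_degree <| lt_of_le_of_ne (vs x h1) ?_
    simpa only [natDegree_finSuccEquiv]
      using hne _ _ h1 vin (by simpa using h2)
  have hco : (finSuccEquiv k n ((nag_Proj k n e)
      (h v + ∑ x ∈ f.support \ {v}, h x))).leadingCoeff =
      (finSuccEquiv k n ((nag_Proj k n e) (h v))).leadingCoeff := by
    simp only [map_add, map_sum]
    rw [add_comm]
    apply Polynomial.leadingCoeff_add_of_degree_lt <|
      (lt_of_le_of_lt <| Polynomial.degree_sum_le _ _) ?_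
    have h2 : h v ≠ 0 := by simpa [h] using mem_support_iff.mp vin
    replace h2 : (finSuccEquiv k n ((nag_Proj k n e) (h v))) ≠ 0 := fun eq ↦ h2 <|
      by simpa only [map_eq_zero_iff _ (AlgEquiv.injective _)] using eq
    exact (Finset.sup_lt_iff <| Ne.bot_lt (fun x ↦ h2 <| Polynomial.degree_eq_bot.mp x)).mpr vs
  nth_rw 1 [← f.support_sum_monomial_coeff]
  rw [Finset.sum_eq_add_sum_sdiff_singleton_of_mem vin h]
  rw [leadingCoeff_nag_Proj he] at hco
  simpa only [hco, algebraMap_eq] using (mem_support_iff.mp vin).isUnit.map MvPolynomial.C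

end Nagata

theorem finite_comp_C_Proj {R S : Type*} [CommRing R] [CommRing S] (ψ : Polynomial R →+* S)
    (hψ : ψ.Finite) {q : Polynomial R} (hq : q.Monic) (h0 : ψ q = 0) :
    (ψ.comp Polynomial.C).Finite := by
  have hk : ∀ a ∈ Ideal.span {q}, ψ a = 0 := by
    intro a ha
    obtain ⟨b, rfl⟩ := Ideal.mem_span_singleton'.1 ha
    rw [map_mul, h0, mul_zero]
  have e1 : ψ = (Ideal.Quotient.lift (Ideal.span {q}) ψ hk).comp (Ideal.Quotient.mk _) := by
    ext <;> simp
  have h1 : (Ideal.Quotient.lift (Ideal.span {q}) ψ hk).Finite :=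
    RingHom.Finite.of_comp_finite (f := Ideal.Quotient.mk _) (e1 ▸ hψ)
  have h2 : (algebraMap R (Polynomial R ⧸ Ideal.span {q})).Finite :=
    RingHom.finite_algebraMap.2 hq.finite_quotient
  have e2 : ψ.comp Polynomial.C = (Ideal.Quotient.lift (Ideal.span {q}) ψ hk).comp
      (algebraMap R (Polynomial R ⧸ Ideal.span {q})) := by
    ext a
    rfl
  rw [e2]
  exact h1.comp h2

theorem isAlgebraic_adjoin_Proj {F B : Type u} [Field F] [CommRing B] [IsDomain B] [Algebra F B]
    {ι : Type} (x : ι → B) (h : (aeval x : MvPolynomial ι F →ₐ[F] B).Finite) :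
    Algebra.IsAlgebraic (Algebra.adjoin F (Set.range x)) B := by
  have hm : ∀ p : MvPolynomial ι F, aeval x p ∈ Algebra.adjoin F (Set.range x) := by
    intro p
    rw [Algebra.adjoin_range_eq_range_aeval]
    exact ⟨p, rfl⟩
  have e : (aeval x : MvPolynomial ι F →ₐ[F] B) = (Algebra.adjoin F (Set.range x)).val.comp
      ((aeval x : MvPolynomial ι F →ₐ[F] B).codRestrict _ hm) := by
    ext i
    simp
  have h1 : ((Algebra.adjoin F (Set.range x)).val).Finite :=
    AlgHom.Finite.of_comp_finite (e ▸ h)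
  have h2 : Module.Finite (Algebra.adjoin F (Set.range x)) B := RingHom.finite_algebraMap.1 h1
  infer_instance

theorem inj_of_finite_Proj {F B : Type u} [Field F] [CommRing B] [IsDomain B] [Algebra F B]
    {ι : Type} [Fintype ι] (hd : Algebra.trdeg F B = (Fintype.card ι : ℕ)) (x : ι → B)
    (h : (aeval x : MvPolynomial ι F →ₐ[F] B).Finite) :
    Function.Injective (aeval x : MvPolynomial ι F →ₐ[F] B) := by
  have := isAlgebraic_adjoin_Proj x h
  have hb : IsTranscendenceBasis F x :=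
    Algebra.IsAlgebraic.isTranscendenceBasis_of_lift_le_trdeg_of_finite F x (by simp [hd])
  exact hb.1

theorem noether_Proj {F B : Type u} [Field F] [CommRing B] [IsDomain B] [Algebra F B]
    [Algebra.FiniteType F B] {n : ℕ} (hd : Algebra.trdeg F B = (n : ℕ)) :
    ∃ g : MvPolynomial (Fin n) F →ₐ[F] B, g.Finite := by
  obtain ⟨s, g, hi, hg⟩ := exists_finite_inj_algHom_of_fg F B
  have e : g = aeval (fun i => g (X i)) := by
    ext i
    simp
  have h1 : AlgebraicIndependent F (fun i => g (X i)) := by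
    unfold AlgebraicIndependent
    rw [← e]
    exact hi
  have h2 := isAlgebraic_adjoin_Proj (fun i => g (X i)) (e ▸ hg)
  have h3 : IsTranscendenceBasis F (fun i => g (X i)) :=
    h1.isTranscendenceBasis_iff_isAlgebraic.2 h2
  have h4 := h3.lift_cardinalMk_eq_trdeg
  rw [hd] at h4
  have h5 : s = n := by simpa using h4
  subst h5
  exact ⟨g, hg⟩

theorem first_Proj {F B : Type u} [Field F] [CommRing B] [IsDomain B] [Algebra F B]
    [Algebra.FiniteType F B] {d : ℕ} (hd : Algebra.trdeg F B = (d + 1 : ℕ)) {f : B} (hf : f ≠ 0) :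
    ∃ (v : Fin d → B) (z : B),
      (aeval (Sum.elim v (fun _ : Unit => z)) : MvPolynomial (Fin d ⊕ Unit) F →ₐ[F] B).Finite ∧
      (aeval (Sum.elim (fun l => Ideal.Quotient.mk (Ideal.span {f}) (v l)) (fun e : Empty => e.elim)) :
        MvPolynomial (Fin d ⊕ Empty) F →ₐ[F] B ⧸ Ideal.span {f}).Finite := by
  obtain ⟨g, hg⟩ := noether_Proj hd
  obtain ⟨f0, hf0, hne⟩ : ∃ f0 : MvPolynomial (Fin (d + 1)) F, g f0 ∈ Ideal.span {f} ∧ f0 ≠ 0 := by
    let _ := g.toRingHom.toAlgebra
    have hfin : Module.Finite (MvPolynomial (Fin (d + 1)) F) B := hg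
    have h := Ideal.comap_ne_bot_of_integral_mem (R := MvPolynomial (Fin (d + 1)) F)
      (I := Ideal.span {f}) hf (Ideal.mem_span_singleton_self f) (Algebra.IsIntegral.isIntegral f)
    obtain ⟨f0, h1, h2⟩ := Submodule.exists_mem_ne_zero_of_ne_bot h
    exact ⟨f0, h1, h2⟩
  obtain ⟨T, hT⟩ := exists_aut_Proj f0 hne
  let g' : MvPolynomial (Fin (d + 1)) F →ₐ[F] B := g.comp T.symm.toAlgHom
  have hg' : g'.Finite := hg.comp (AlgHom.Finite.of_surjective _ T.symm.surjective)
  refine ⟨fun l => g' (X l.succ), g' (X 0), ?_, ?_⟩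
  · have e : g' = (aeval (Sum.elim (fun l => g' (X l.succ)) (fun _ : Unit => g' (X 0))) :
        MvPolynomial (Fin d ⊕ Unit) F →ₐ[F] B).comp
        (aeval (Fin.cons (X (Sum.inr ())) (fun l => X (Sum.inl l)) :
          Fin (d + 1) → MvPolynomial (Fin d ⊕ Unit) F)) := by
      apply MvPolynomial.algHom_ext
      intro i
      cases i using Fin.cases <;> simp
    exact AlgHom.Finite.of_comp_finite (e ▸ hg')
  · let ψ : Polynomial (MvPolynomial (Fin d) F) →ₐ[F] B ⧸ Ideal.span {f} :=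
      ((Ideal.Quotient.mkₐ F (Ideal.span {f})).comp g').comp (finSuccEquiv F d).symm.toAlgHom
    have hψ : ψ.Finite :=
      ((AlgHom.Finite.of_surjective _ (Ideal.Quotient.mkₐ_surjective F _)).comp hg').comp
        (AlgHom.Finite.of_surjective _ (finSuccEquiv F d).symm.surjective)
    have h0 : ψ (finSuccEquiv F d (T f0)) = 0 := by
      change Ideal.Quotient.mk (Ideal.span {f})
        (g (T.symm ((finSuccEquiv F d).symm (finSuccEquiv F d (T f0))))) = 0
      rw [AlgEquiv.symm_apply_apply, AlgEquiv.symm_apply_apply]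
      exact Ideal.Quotient.eq_zero_iff_mem.2 hf0
    have hq := Polynomial.monic_of_isUnit_leadingCoeff_inv_smul hT
    have h1 : ψ.toRingHom (hT.unit⁻¹ • finSuccEquiv F d (T f0)) = 0 := by
      rw [Units.smul_def, Polynomial.smul_eq_C_mul, map_mul]
      change _ * ψ _ = 0
      rw [h0, mul_zero]
    have h2 := finite_comp_C_Proj ψ.toRingHom hψ hq h1
    have e : ψ.toRingHom.comp Polynomial.C =
        (aeval (Sum.elim (fun l => Ideal.Quotient.mk (Ideal.span {f}) (g' (X l.succ)))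
          (fun e : Empty => e.elim)) :
          MvPolynomial (Fin d ⊕ Empty) F →ₐ[F] B ⧸ Ideal.span {f}).toRingHom.comp
          (rename Sum.inl : MvPolynomial (Fin d) F →ₐ[F] _).toRingHom := by
      apply MvPolynomial.ringHom_ext
      · intro r
        have : (Polynomial.C (C r) : Polynomial (MvPolynomial (Fin d) F)) = algebraMap F _ r := rfl
        simp only [RingHom.comp_apply, this, AlgHom.toRingHom_eq_coe, RingHom.coe_coe,
          AlgHom.commutes, algHom_C]
      · intro l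
        have : (finSuccEquiv F d).symm (Polynomial.C (X l)) = X l.succ := by
          rw [AlgEquiv.symm_apply_eq, finSuccEquiv_X_succ]
        simp [ψ, this]
    exact RingHom.Finite.of_comp_finite (e ▸ h2)

theorem derivation_sq_Proj {F B : Type u} [Field F] [CommRing B] [Algebra F B] (𝔪 : Ideal B)
    (D : Derivation F B (B ⧸ 𝔪)) {a : B} (ha : a ∈ 𝔪 ^ 2) : D a = 0 := by
  rw [pow_two] at ha
  have hs : ∀ x ∈ 𝔪, ∀ m : B ⧸ 𝔪, x • m = 0 := by
    intro x hx m
    rw [Algebra.smul_def, Ideal.Quotient.algebraMap_eq, Ideal.Quotient.eq_zero_iff_mem.2 hx,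
      zero_mul]
  refine Submodule.mul_induction_on ha ?_ ?_
  · intro x hx y hy
    rw [D.leibniz, hs x hx, hs y hy, add_zero]
  · intro x y hx hy
    rw [map_add, hx, hy, add_zero]

theorem exists_poly_Proj {F B : Type u} [Field F] [CommRing B] [Algebra F B]
    [Algebra.FiniteType F B] (M : Finset (Ideal B)) (hM : ∀ 𝔪 ∈ M, 𝔪.IsMaximal) (v : B) :
    ∃ P : Polynomial F, P.Monic ∧ 0 < P.natDegree ∧ ∀ 𝔪 ∈ M, Polynomial.aeval v P ∈ 𝔪 := by
  have h : ∀ 𝔪 : M, ∃ p : Polynomial F, p.Monic ∧ Polynomial.aeval v p ∈ 𝔪.1 := by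
    intro 𝔪
    have := hM 𝔪.1 𝔪.2
    let _ := Ideal.Quotient.field 𝔪.1
    have hfin : Module.Finite F (B ⧸ 𝔪.1) := finite_of_finite_type_of_isJacobsonRing F _
    obtain ⟨p, hp, h0⟩ : IsIntegral F (Ideal.Quotient.mkₐ F 𝔪.1 v) :=
      Algebra.IsIntegral.isIntegral _
    refine ⟨p, hp, ?_⟩
    rw [← Ideal.Quotient.eq_zero_iff_mem]
    change Ideal.Quotient.mkₐ F 𝔪.1 _ = 0
    rw [← Polynomial.aeval_algHom_apply]
    exact h0
  choose p hp hp' using h
  have hm : (∏ 𝔪 : M, p 𝔪).Monic := Polynomial.monic_prod_of_monic _ _ fun 𝔪 _ => hp 𝔪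
  refine ⟨Polynomial.X * ∏ 𝔪 : M, p 𝔪, Polynomial.monic_X.mul hm, ?_, ?_⟩
  · rw [Polynomial.monic_X.natDegree_mul hm, Polynomial.natDegree_X]
    omega
  · intro 𝔪 h𝔪
    rw [map_mul, map_prod]
    exact Ideal.mul_mem_left _ _
      (Ideal.prod_mem 𝔪 (Finset.mem_univ (⟨𝔪, h𝔪⟩ : M)) (hp' ⟨𝔪, h𝔪⟩))

theorem exists_proj {F B : Type u} [Field F] [CharZero F] [CommRing B] [IsDomain B] [Algebra F B]
    [Algebra.FiniteType F B] {d : ℕ} (hd : Algebra.trdeg F B = (d + 1 : ℕ))
    (M : Finset (Ideal B)) (hM : ∀ 𝔪 ∈ M, 𝔪.IsMaximal ∧ SmAt F (d + 1) 𝔪) {f : B} (hf : f ≠ 0) :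
    ∃ (y : Fin d → B) (z : B),
      Function.Injective (Polynomial.eval₂RingHom
        (aeval y : MvPolynomial (Fin d) F →ₐ[F] B).toRingHom z) ∧
      (Polynomial.eval₂RingHom (aeval y : MvPolynomial (Fin d) F →ₐ[F] B).toRingHom z).Finite ∧
      FiniteOver (MvPolynomial (Fin d) F) B (aeval y : MvPolynomial (Fin d) F →ₐ[F] B).toRingHom
        (Ideal.span {f}) ∧
      ∀ 𝔪 ∈ M, ∃ z' : B, ∀ D : Derivation F B (B ⧸ 𝔪), (∀ l, D (y l) = 0) → D z' = 0 → D = 0 := by
  obtain ⟨v, z, h1, h2⟩ := first_Proj hd hf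
  have hsm : ∀ 𝔪 : M, ∃ t : Fin (d + 1) → B,
      ∀ D : Derivation F B (B ⧸ 𝔪.1), (∀ l, D (t l) = 0) → D = 0 := fun 𝔪 => (hM 𝔪.1 𝔪.2).2
  choose t ht using hsm
  have hcop : Pairwise (Function.onFun IsCoprime fun 𝔪 : M => 𝔪.1 ^ 2) := by
    intro 𝔪 𝔫 hne
    have := (hM 𝔪.1 𝔪.2).1
    have := (hM 𝔫.1 𝔫.2).1
    exact (Ideal.isCoprime_of_isMaximal (fun h => hne (Subtype.ext h))).pow
  have hw : ∀ l : Fin d, ∃ r : B, ∀ 𝔪 : M, r - t 𝔪 l.succ ∈ 𝔪.1 ^ 2 :=
    fun l => Ideal.exists_forall_sub_mem_ideal hcop fun 𝔪 => t 𝔪 l.succ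
  choose w hw using hw
  have hP := fun l => exists_poly_Proj (F := F) M (fun 𝔪 h => (hM 𝔪 h).1) (v l)
  choose P hP1 hP2 hP3 using hP
  obtain ⟨N₁, hN₁⟩ := finite_perturb v (fun _ : Unit => z) h1 P hP1 hP2 w
  obtain ⟨N₂, hN₂⟩ := finite_perturb _ _ h2 P hP1 hP2
    (fun l => Ideal.Quotient.mk (Ideal.span {f}) (w l))
  have k1 := hN₁ (N₁ + N₂ + 2) (by omega)
  have k2 := hN₂ (N₁ + N₂ + 2) (by omega)
  generalize hy : (fun i => Polynomial.aeval (v i) (P i) ^ (N₁ + N₂ + 2) + w i) = y at k1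
  have hfin : (aeval (fun o : Option (Fin d) => o.elim z y) :
      MvPolynomial (Option (Fin d)) F →ₐ[F] B).Finite := by
    have e : (aeval (Sum.elim y (fun _ : Unit => z)) : MvPolynomial (Fin d ⊕ Unit) F →ₐ[F] B) =
        (aeval (fun o : Option (Fin d) => o.elim z y) :
          MvPolynomial (Option (Fin d)) F →ₐ[F] B).comp
          (rename (Sum.elim some fun _ => none)) := by
      apply MvPolynomial.algHom_ext
      rintro (i | i) <;> simp
    exact AlgHom.Finite.of_comp_finite (e ▸ k1)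
  have e0 : (aeval (fun o : Option (Fin d) => o.elim z y) :
      MvPolynomial (Option (Fin d)) F →ₐ[F] B).toRingHom =
      (Polynomial.eval₂RingHom (aeval y : MvPolynomial (Fin d) F →ₐ[F] B).toRingHom z).comp
        (optionEquivLeft F (Fin d)).toAlgHom.toRingHom := by
    apply MvPolynomial.ringHom_ext
    · intro r
      simp [optionEquivLeft_C]
    · rintro (_ | i)
      · simp [optionEquivLeft_X_none]
      · simp [optionEquivLeft_X_some]
  refine ⟨y, z, ?_, ?_, ?_, ?_⟩
  · have hi := inj_of_finite_Proj (by simpa using hd) _ hfin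
    have hi' : Function.Injective ((Polynomial.eval₂RingHom
        (aeval y : MvPolynomial (Fin d) F →ₐ[F] B).toRingHom z).comp
        (optionEquivLeft F (Fin d)).toAlgHom.toRingHom) := by
      rw [← e0]
      exact hi
    exact Function.Injective.of_comp_right hi' (optionEquivLeft F (Fin d)).surjective
  · have hfin' : (aeval (fun o : Option (Fin d) => o.elim z y) :
        MvPolynomial (Option (Fin d)) F →ₐ[F] B).toRingHom.Finite := hfin
    rw [e0] at hfin'
    exact RingHom.Finite.of_comp_finite hfin'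
  · unfold FiniteOver
    have e : (aeval (Sum.elim (fun i => Polynomial.aeval (Ideal.Quotient.mk (Ideal.span {f}) (v i))
        (P i) ^ (N₁ + N₂ + 2) + Ideal.Quotient.mk (Ideal.span {f}) (w i))
        (fun e : Empty => e.elim)) :
        MvPolynomial (Fin d ⊕ Empty) F →ₐ[F] B ⧸ Ideal.span {f}) =
        ((Ideal.Quotient.mkₐ F (Ideal.span {f})).comp (aeval y)).comp
          (rename (Sum.elim id fun e : Empty => e.elim)) := by
      apply MvPolynomial.algHom_ext
      rintro (i | i)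
      · have := Polynomial.aeval_algHom_apply (Ideal.Quotient.mkₐ F (Ideal.span {f})) (v i) (P i)
        simp only [Ideal.Quotient.mkₐ_eq_mk] at this
        simp [← hy, this]
      · exact i.elim
    exact AlgHom.Finite.of_comp_finite (e ▸ k2)
  · intro 𝔪 h𝔪
    refine ⟨t ⟨𝔪, h𝔪⟩ 0, fun D hD hD0 => ht ⟨𝔪, h𝔪⟩ D fun l => ?_⟩
    cases l using Fin.cases with
    | zero => exact hD0
    | succ l =>
      have a1 : D (w l - t ⟨𝔪, h𝔪⟩ l.succ) = 0 := derivation_sq_Proj 𝔪 D (hw l ⟨𝔪, h𝔪⟩)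
      have a2 : D (Polynomial.aeval (v l) (P l) ^ (N₁ + N₂ + 2)) = 0 := by
        apply derivation_sq_Proj 𝔪 D
        rw [pow_add]
        exact Ideal.mul_mem_left _ _ (Ideal.pow_mem_pow (hP3 l 𝔪 h𝔪) 2)
      have a3 := hD l
      rw [← hy] at a3
      simp only [map_add, a2, zero_add] at a3
      rw [map_sub, a3, zero_sub, neg_eq_zero] at a1
      exact a1

end

end Pool.Agent.MP_e2821c_ag.Dg
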