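import Pool.Agent.Lib.MP_e2821c_ag.Dg.Struct

namespace Pool.Agent.MP_e2821c_ag.Dg

open MvPolynomial

universe u v w

noncomputable section

theorem lau_isIntegrallyClosed (S : Type u) [CommRing S] [IsDomain S] [IsIntegrallyClosed S] :
    IsIntegrallyClosed (Lau S) := by
  have : IsLocalization.Away (Polynomial.X : Polynomial S) (Lau S) :=
    LaurentPolynomial.isLocalization
  exact isIntegrallyClosed_of_isLocalization (R := Polynomial S) (Lau S)
    (Submonoid.powers (Polynomial.X : Polynomial S))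
    (powers_le_nonZeroDivisors_of_noZeroDivisors Polynomial.X_ne_zero)

theorem lau_isNoetherianRing (S : Type u) [CommRing S] [IsNoetherianRing S] :
    IsNoetherianRing (Lau S) := by
  have : AddMonoid.FG ℤ := AddGroup.fg_iff_addMonoid_fg.1 (Module.Finite.iff_addGroup_fg.1 inferInstance)
  exact Algebra.FiniteType.isNoetherianRing S (Lau S)

theorem bb_isNoetherianRing (S : Type u) [CommRing S] [IsNoetherianRing S] (Γ : Type)
    [AddCommGroup Γ] [Module.Finite ℤ Γ] : IsNoetherianRing (BB S Γ) := by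
  have : AddMonoid.FG (ℤ × Γ × ℤ) :=
    AddGroup.fg_iff_addMonoid_fg.1 (Module.Finite.iff_addGroup_fg.1 inferInstance)
  exact Algebra.FiniteType.isNoetherianRing S (BB S Γ)

theorem gM_single (S : Type u) [CommRing S] (Γ : Type) [AddCommGroup Γ] (m : ℤ × Γ × ℤ) (k : ℤ)
    (c : S) : gM S Γ m (AddMonoidAlgebra.single k c) = AddMonoidAlgebra.single (k • m) c := by
  exact AddMonoidAlgebra.mapDomain_single

theorem push_gU (S : Type u) [CommRing S] (Γ : Type) [AddCommGroup Γ] :
    Push (gU S Γ) (taut S (AddMonoidHom.inr ℤ (Γ × ℤ))) := by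
  constructor
  · rw [eq_top_iff]
    rintro x -
    induction x using AddMonoidAlgebra.induction_linear with
    | zero => exact zero_mem _
    | add a b ha hb => exact add_mem ha hb
    | single m c =>
      have h1 : (AddMonoidAlgebra.single m c : BB S Γ) =
          gU S Γ (AddMonoidAlgebra.single m.1 c) * taut S (AddMonoidHom.inr ℤ (Γ × ℤ)) m.2 := by
        rw [gM_single, taut_apply, AddMonoidAlgebra.single_mul_single, mul_one]
        congr 1
        ext <;> simp
      rw [h1]
      exact mul_mem (Subring.subset_closure (Or.inl ⟨_, rfl⟩))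
        (Subring.subset_closure (Or.inr ⟨_, rfl⟩))
  · intro E _ f ψ
    let G : Multiplicative (ℤ × Γ × ℤ) →* E :=
      { toFun := fun m => f (AddMonoidAlgebra.single m.toAdd.1 1) * ψ m.toAdd.2
        map_one' := by
          have : (AddMonoidAlgebra.single (0 : ℤ) (1 : S)) = 1 := rfl
          simp [this]
        map_mul' := fun a b => by
          have : (AddMonoidAlgebra.single (a.toAdd.1 + b.toAdd.1) (1 : S)) =
              AddMonoidAlgebra.single a.toAdd.1 1 * AddMonoidAlgebra.single b.toAdd.1 1 := by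
            rw [AddMonoidAlgebra.single_mul_single, mul_one]
          simp only [toAdd_mul, Prod.fst_add, Prod.snd_add, this, map_mul, AddChar.map_add_eq_mul]
          ring }
    refine ⟨AddMonoidAlgebra.liftNCRingHom (f.comp (algebraMap S (Lau S))) G
      (fun _ _ => Commute.all _ _), ?_, ?_⟩
    · refine RingHom.ext fun x => ?_
      induction x using AddMonoidAlgebra.induction_linear with
      | zero => simp
      | add a b ha hb => rw [map_add, map_add, ha, hb]
      | single k c =>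
        rw [RingHom.comp_apply, gM_single, AddMonoidAlgebra.liftNCRingHom_single]
        have h1 : (AddMonoidAlgebra.single k c : Lau S) =
            algebraMap S (Lau S) c * AddMonoidAlgebra.single k 1 := by
          rw [AddMonoidAlgebra.coe_algebraMap]
          simp
        have h0 : ψ (0, 0) = 1 := ψ.map_zero_eq_one
        rw [h1, map_mul]
        simp [G, h0]
    · intro γ
      rw [taut_apply, AddMonoidAlgebra.liftNCRingHom_single]
      have : (AddMonoidAlgebra.single (0 : ℤ) (1 : S)) = 1 := rfl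
      simp [G, this]

variable {S : Type u} [CommRing S] [IsDomain S] [QAlg S] [IsIntegrallyClosed S]
  [IsNoetherianRing S] {Γ : Type} [AddCommGroup Γ] [Module.Finite ℤ Γ] {n : ℕ}

variable {τ τ' : Γ × ℤ → Lau S} {σ σ' : Γ → S}

theorem RhoRel.zero : RhoRel n (0 : Γ × ℤ → Lau S) (0 : Γ → S) := by
  exact ⟨1, one_ne_zero, 0, by simp, by simp, by simp⟩

theorem sum_comb_RhoA {ι M : Type*} [AddCommGroup M] (F : ι → M) (c c' : ι →₀ ℤ) (a b : ℤ) :
    ((a • c + b • c').sum fun P z => z • F P) =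
      a • (c.sum fun P z => z • F P) + b • c'.sum fun P z => z • F P := by
  have h := fun d : ι →₀ ℤ => (Finsupp.linearCombination_apply ℤ (v := F) d).symm
  rw [h, h, h, map_add, map_smul, map_smul]

omit [QAlg S] [IsIntegrallyClosed S] [IsNoetherianRing S] [Module.Finite ℤ Γ] in
theorem RhoRel.comb_RhoA (h : RhoRel n τ σ) (h' : RhoRel n τ' σ') (a b : ℤ) :
    RhoRel n (a • τ + b • τ') (a • σ + b • σ') := by
  classical
  obtain ⟨N, hN, c, hc, h1, h2⟩ := h
  obtain ⟨N', hN', c', hc', h1', h2'⟩ := h'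
  refine ⟨N * N', mul_ne_zero hN hN', (a * N') • c + (b * N) • c', ?_, ?_, ?_⟩
  · intro P hP
    rcases Finset.mem_union.1 (Finsupp.support_add hP) with hP | hP
    · exact hc P (Finsupp.support_smul hP)
    · exact hc' P (Finsupp.support_smul hP)
  · intro γ
    rw [sum_comb_RhoA, ← h1, ← h1']
    simp only [Pi.add_apply, Pi.smul_apply]
    simp only [nsmul_eq_mul, zsmul_eq_mul]
    push_cast
    ring
  · intro γ
    rw [sum_comb_RhoA (fun P => evL 1 (trG (gN S Γ n) P (AddMonoidAlgebra.single (0, γ, 0) 1))),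
      ← h2, ← h2']
    simp only [Pi.add_apply, Pi.smul_apply]
    simp only [nsmul_eq_mul, zsmul_eq_mul]
    push_cast
    ring

theorem RhoRel.add (h : RhoRel n τ σ) (h' : RhoRel n τ' σ') : RhoRel n (τ + τ') (σ + σ') := by
  simpa using h.comb_RhoA h' 1 1

theorem RhoRel.neg (h : RhoRel n τ σ) : RhoRel n (-τ) (-σ) := by
  simpa using h.comb_RhoA h (-1) 0

theorem RhoRel.sub (h : RhoRel n τ σ) (h' : RhoRel n τ' σ') : RhoRel n (τ - τ') (σ - σ') := by
  simpa [sub_eq_add_neg] using h.comb_RhoA h' 1 (-1)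

theorem RhoRel.zsmul (h : RhoRel n τ σ) (z : ℤ) : RhoRel n (z • τ) (z • σ) := by
  have := h.comb_RhoA h z 0
  rwa [zero_smul, zero_smul, add_zero, add_zero] at this

theorem RhoRel.of_nsmul {N : ℕ} (hN : N ≠ 0) (h : RhoRel n (N • τ) (N • σ)) : RhoRel n τ σ := by
  obtain ⟨M, hM, c, hc, h1, h2⟩ := h
  refine ⟨N * M, mul_ne_zero hN hM, c, hc, fun γ => ?_, fun γ => ?_⟩
  · rw [← h1, Pi.smul_apply, mul_nsmul]
  · rw [← h2, Pi.smul_apply, mul_nsmul]

theorem RhoRel.unique (h : RhoRel n τ σ) (h' : RhoRel n τ σ') : σ = σ' := by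
  have := lau_isIntegrallyClosed S
  obtain ⟨N, hN, c, hc, h1, h2⟩ := h.sub h'
  have h0 : c = 0 := by
    refine trG_indep_ideal (push_gU S Γ) c (fun P hP => (hc P hP).1) fun γ => ?_
    have h3 := h1 γ
    rw [sub_self, Pi.zero_apply, smul_zero] at h3
    exact h3.symm
  funext γ
  have h4 := h2 γ
  rw [h0, Finsupp.sum_zero_index, Pi.sub_apply, smul_sub, sub_eq_zero] at h4
  exact QAlg.nsmul_injective hN h4

theorem RhoRel.mem (h : RhoRel n τ σ) : σ ∈ CorrIn Γ (Set.univ : Set S) := by
  have := lau_isIntegrallyClosed S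
  obtain ⟨N, hN, c, hc, -, h2⟩ := h
  refine mem_satClosure_of_nsmul hN ?_
  have h3 : N • σ = ∑ P ∈ c.support, c P • fun γ : Γ =>
      evL (1 : Sˣ) (trG (gN S Γ n) P (AddMonoidAlgebra.single (0, γ, 0) 1)) := by
    funext γ
    rw [Pi.smul_apply, h2, Finset.sum_apply]
    rfl
  rw [h3]
  refine sum_mem fun P hP => zsmul_mem ?_ _
  have h4 := (eff_trG (taut S ((AddMonoidHom.inr ℤ (Γ × ℤ)).comp (AddMonoidHom.inl Γ ℤ)))
      (⟨P, (hc P hP).2⟩ : ElemOf (Lau S) (BB S Γ) (gN S Γ n))).map
      (evL (1 : Sˣ)).toRingHom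
  exact subset_satClosure (s := {τ : Γ → S | (∃ d, Eff d τ) ∧ ∀ γ, τ γ ∈ Set.univ})
    ⟨⟨_, h4⟩, fun _ => trivial⟩

end

end Pool.Agent.MP_e2821c_ag.Dg
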