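import Pool.Agent.Lib.MP_e2821c_ag.Dg.RhoA
import Pool.Agent.Lib.MP_e2821c_ag.Dg.RhoC

namespace Pool.Agent.MP_e2821c_ag.Dg

open MvPolynomial

universe u v w

noncomputable section

theorem trans_RhoB {A A' B : Type*} [CommRing A] [CommRing A'] [CommRing B] (f : A →+* B)
    (g : A' →+* B) (h : ∀ a, g.IsIntegralElem (f a)) {x : B} (hx : f.IsIntegralElem x) :
    g.IsIntegralElem x := by
  let _ := g.toAlgebra
  have h1 : IsIntegral (integralClosure A' B) x :=
    RingHom.IsIntegralElem.of_comp (f := f.codRestrict (integralClosure A' B) h)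
      (g := algebraMap (integralClosure A' B) B) hx
  exact isIntegral_trans (R := A') x h1

theorem mul_pow_RhoB {S B : Type u} [CommRing S] [CommRing B] (φ : Lau S →+* B) {x : B}
    (hx : φ.IsIntegralElem x) : ∃ M : ℕ, (φ.comp Polynomial.toLaurent).IsIntegralElem
      (φ (AddMonoidAlgebra.single 1 1) ^ M * x) := by
  let _ := φ.toAlgebra
  let _ : Algebra (Polynomial S) B := (φ.comp Polynomial.toLaurent).toAlgebra
  have : IsScalarTower (Polynomial S) (LaurentPolynomial S) B :=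
    IsScalarTower.of_algebraMap_eq' rfl
  obtain ⟨⟨_, M, rfl⟩, hM⟩ := IsIntegral.exists_multiple_integral_of_isLocalization
    (Rₘ := LaurentPolynomial S) (Submonoid.powers (Polynomial.X : Polynomial S)) x hx
  refine ⟨M, ?_⟩
  rw [Submonoid.smul_def, Algebra.smul_def, map_pow] at hM
  have h1 : algebraMap (Polynomial S) B Polynomial.X = φ (AddMonoidAlgebra.single 1 1) :=
    congrArg φ Polynomial.toLaurent_X
  rw [h1] at hM
  exact hM

theorem inv_RhoB {S R B : Type*} [CommRing S] [CommRing R] [CommRing B] (ψ : R →+* B)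
    (χ : Polynomial S →+* B) (hc : ∀ s, ∃ r, ψ r = χ (Polynomial.C s)) {x z : B}
    (hx : χ Polynomial.X * x = 1) (hz : χ.IsIntegralElem z) (r : R) (k : ℕ)
    (h : x = ψ r * z * χ Polynomial.X ^ k) : ψ.IsIntegralElem x := by
  let _ := ψ.toAlgebra
  refine isIntegral_of_isIntegral_adjoin_of_mul_eq_one (R := R) x _ hx ?_
  have h0 : χ Polynomial.X ∈ Algebra.adjoin R {χ Polynomial.X} := Algebra.self_mem_adjoin_singleton _ _
  have h1 : ∀ p, χ p ∈ Algebra.adjoin R {χ Polynomial.X} := fun p => by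
    refine Polynomial.induction_on' p (fun a b ha hb => ?_) fun m s => ?_
    · rw [map_add]
      exact add_mem ha hb
    · obtain ⟨r, hr⟩ := hc s
      rw [← Polynomial.C_mul_X_pow_eq_monomial, map_mul, map_pow, ← hr]
      exact mul_mem (Subalgebra.algebraMap_mem _ r) (pow_mem h0 m)
  have h2 : IsIntegral (Algebra.adjoin R {χ Polynomial.X}) z :=
    RingHom.IsIntegralElem.of_comp (f := χ.codRestrict (Algebra.adjoin R {χ Polynomial.X}) h1)
      (g := algebraMap (Algebra.adjoin R {χ Polynomial.X}) B) hz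
  have h3 : ∀ b ∈ Algebra.adjoin R {χ Polynomial.X},
      IsIntegral (Algebra.adjoin R {χ Polynomial.X}) b := fun b hb =>
    isIntegral_algebraMap (x := (⟨b, hb⟩ : Algebra.adjoin R {χ Polynomial.X}))
  rw [h]
  exact ((h3 _ (Subalgebra.algebraMap_mem _ r)).mul h2).mul (h3 _ (pow_mem h0 k))

section Mon

variable {S B : Type u} [CommRing S] [CommRing B] {Γ : Type} [AddCommGroup Γ]

theorem step_RhoB (π : BB S Γ →+* B) (e : ℤ) (h : (π.comp (gM S Γ (e, 0, 0))).IsIntegral) :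
    ∃ n₀ : ℕ, ∀ n, n₀ ≤ n →
      (π.comp (gN S Γ n)).IsIntegralElem (π (AddMonoidAlgebra.single (-e, 0, 0) 1)) := by
  obtain ⟨M, hM⟩ := mul_pow_RhoB _ (h (π (AddMonoidAlgebra.single (0, 0, -e) 1)))
  refine ⟨M, fun n hn => ?_⟩
  obtain ⟨k, rfl⟩ := Nat.exists_eq_add_of_le hn
  have h1 : (π.comp (gM S Γ (e, 0, 0))) (AddMonoidAlgebra.single 1 1) =
      π (AddMonoidAlgebra.single (e, 0, 0) 1) := by
    rw [RingHom.comp_apply, gM_single, one_smul]
  have h2 : ((π.comp (gM S Γ (e, 0, 0))).comp Polynomial.toLaurent) Polynomial.X =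
      π (AddMonoidAlgebra.single (e, 0, 0) 1) :=
    (congrArg (π.comp (gM S Γ (e, 0, 0))) Polynomial.toLaurent_X).trans h1
  refine inv_RhoB _ _ (fun s => ⟨AddMonoidAlgebra.single 0 s, ?_⟩) ?_ hM
    (AddMonoidAlgebra.single (-e) 1) k ?_
  · refine Eq.trans ?_ (congrArg (π.comp (gM S Γ (e, 0, 0))) (Polynomial.toLaurent_C s)).symm
    change π (gM S Γ _ (AddMonoidAlgebra.single 0 s)) = π (gM S Γ _ (AddMonoidAlgebra.single 0 s))
    rw [gM_single, gM_single, zero_smul, zero_smul]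
  · rw [h2, ← map_mul, AddMonoidAlgebra.single_mul_single, one_mul, ← π.map_one]
    congr 1
    rw [AddMonoidAlgebra.one_def]
    congr 1
    simp
  · rw [h2, h1, RingHom.comp_apply, gM_single, ← map_pow, ← map_pow, ← map_mul, ← map_mul,
      ← map_mul, AddMonoidAlgebra.single_pow, AddMonoidAlgebra.single_pow,
      AddMonoidAlgebra.single_mul_single, AddMonoidAlgebra.single_mul_single,
      AddMonoidAlgebra.single_mul_single]
    simp only [one_pow, mul_one]
    congr 2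
    refine Prod.ext ?_ (Prod.ext ?_ ?_)
    · simp
      ring
    · simp
    · simp

theorem all_RhoB {A : Type*} [CommRing A] (π : BB S Γ →+* B) (g : A →+* B) (m : ℤ × Γ × ℤ)
    (h : ∀ (k : ℤ) (s : S), g.IsIntegralElem (π (AddMonoidAlgebra.single (k • m) s)))
    (hi : (π.comp (gM S Γ m)).IsIntegral) : g.IsIntegral := fun x => by
  refine trans_RhoB (π.comp (gM S Γ m)) g (fun a => ?_) (hi x)
  induction a using AddMonoidAlgebra.induction_linear with
  | zero =>
    rw [map_zero]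
    exact g.isIntegralElem_zero
  | add a b ha hb =>
    rw [map_add]
    exact RingHom.IsIntegralElem.add g ha hb
  | single k s =>
    rw [RingHom.comp_apply, gM_single]
    exact h k s

theorem integral_RhoB (π : BB S Γ →+* B) (h : (π.comp (gU S Γ)).IsIntegral) :
    ∃ n₀ : ℕ, ∀ n, n₀ ≤ n → (π.comp (gN S Γ n)).IsIntegral := by
  have h' : (π.comp (gM S Γ (-1, 0, 0))).IsIntegral := by
    refine all_RhoB π _ (1, 0, 0) (fun k s => ?_) h
    have h1 := (π.comp (gM S Γ (-1, 0, 0))).isIntegralElem_map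
      (x := AddMonoidAlgebra.single (-k) s)
    rw [RingHom.comp_apply, gM_single] at h1
    have h2 : (-k) • ((-1, 0, 0) : ℤ × Γ × ℤ) = k • (1, 0, 0) := by simp
    rwa [h2] at h1
  obtain ⟨n₁, h1⟩ := step_RhoB π 1 h
  obtain ⟨n₂, h2⟩ := step_RhoB π (-1) h'
  refine ⟨max n₁ n₂, fun n hn => all_RhoB π _ (1, 0, 0) (fun k s => ?_) h⟩
  have h3 := h1 n (le_of_max_le_left hn)
  have h4 := h2 n (le_of_max_le_right hn)
  induction k using Int.induction_on with
  | zero =>
    have h5 := (π.comp (gN S Γ n)).isIntegralElem_map (x := AddMonoidAlgebra.single 0 s)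
    rw [RingHom.comp_apply, gM_single, zero_smul] at h5
    rwa [zero_smul]
  | succ k ih =>
    have h5 := RingHom.IsIntegralElem.mul _ ih h4
    rw [← map_mul, AddMonoidAlgebra.single_mul_single, mul_one, neg_neg] at h5
    rwa [add_smul, one_smul]
  | pred k ih =>
    have h5 := RingHom.IsIntegralElem.mul _ ih h3
    rw [← map_mul, AddMonoidAlgebra.single_mul_single, mul_one] at h5
    have h6 : (-(k : ℤ) - 1) • ((1, 0, 0) : ℤ × Γ × ℤ) = (-(k : ℤ)) • (1, 0, 0) + (-1, 0, 0) := by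
      simp [sub_eq_add_neg]
    rwa [h6]

theorem comp_RhoB (m : ℤ × Γ × ℤ) :
    (gM S Γ m).comp (algebraMap S (Lau S)) = algebraMap S (BB S Γ) := by
  refine RingHom.ext fun s => ?_
  change gM S Γ m (AddMonoidAlgebra.single 0 s) = AddMonoidAlgebra.single 0 s
  rw [gM_single, zero_smul]

theorem finite_RhoB (π : BB S Γ →+* B) (h : (π.comp (gU S Γ)).Finite) :
    ∃ n₀ : ℕ, ∀ n, n₀ ≤ n → (π.comp (gN S Γ n)).Finite := by
  obtain ⟨n₀, h0⟩ := integral_RhoB π h.to_isIntegral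
  refine ⟨n₀, fun n hn => (h0 n hn).to_finite ?_⟩
  have h1 : (algebraMap S (Lau S)).FiniteType :=
    RingHom.finiteType_algebraMap.2 (AddMonoidAlgebra.finiteType_of_fg S ℤ)
  have h2 := h.to_finiteType.comp h1
  rw [RingHom.comp_assoc, comp_RhoB, ← comp_RhoB ((n : ℤ) + 1, 0, -1), ← RingHom.comp_assoc] at h2
  exact h2.of_comp_finiteType

end Mon

variable {S : Type u} [CommRing S] [IsDomain S] [QAlg S] [IsIntegrallyClosed S]
  [IsNoetherianRing S] {Γ : Type} [AddCommGroup Γ] [Module.Finite ℤ Γ] {n : ℕ}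

theorem exists_isElem_gN (P : Ideal (BB S Γ)) (hP : IsElem (Lau S) (BB S Γ) (gU S Γ) P) :
    ∃ n₀ : ℕ, ∀ n, n₀ ≤ n → IsElem (Lau S) (BB S Γ) (gN S Γ n) P := by
  obtain ⟨n₀, h⟩ := finite_RhoB (Ideal.Quotient.mk P) hP.2.1
  exact ⟨n₀, fun n hn => (isElem_iff_of_finite hP.2.1 (h n hn)).1 hP⟩

theorem exists_rhoRel {τ : Γ × ℤ → Lau S} (hτ : τ ∈ CorrIn (Γ × ℤ) (Set.univ : Set (Lau S))) :
    ∃ n₀ : ℕ, ∀ n, n₀ ≤ n → ∃ σ, RhoRel n τ σ := by
  classical
  have := lau_isIntegrallyClosed S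
  obtain ⟨N, hN, c, hc⟩ := exists_finsupp_of_corr (push_gU S Γ) hτ
  choose n₀ hn₀ using fun P : ElemOf (Lau S) (BB S Γ) (gU S Γ) => exists_isElem_gN P.1 P.2
  refine ⟨c.support.sup n₀, fun n hn => ?_⟩
  obtain ⟨v, hv⟩ := QAlg.isUnit_natCast (S := S) N hN
  refine ⟨fun γ => ((v⁻¹ : Sˣ) : S) * (c.mapDomain Subtype.val).sum fun P z =>
    z • evL 1 (trG (gN S Γ n) P (AddMonoidAlgebra.single (0, γ, 0) 1)), N, hN,
    c.mapDomain Subtype.val, fun P hP => ?_, fun γ => ?_, fun γ => ?_⟩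
  · obtain ⟨Q, hQ, rfl⟩ := Finset.mem_image.1 (Finsupp.mapDomain_support hP)
    exact ⟨Q.2, hn₀ Q n ((Finset.le_sup hQ).trans hn)⟩
  · rw [hc γ, Finsupp.sum_mapDomain_index_inj Subtype.val_injective]
    rfl
  · rw [nsmul_eq_mul, ← hv, Units.mul_inv_cancel_left]

end

end Pool.Agent.MP_e2821c_ag.Dg
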