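import Pool.Agent.Lib.MP_e2821c_ag.Dg.CoreT
import Pool.Agent.Lib.MP_e2821c_ag.Cy.Simp

namespace Pool.Agent.MP_e2821c_ag.Dg

open MvPolynomial

universe u v w

noncomputable section

theorem sgnSum_zero {α : Type u} : sgnSum (0 : Multiset (ℤ × α)) = 0 := by
  simp [sgnSum]

theorem sgnSum_add {α : Type u} (s t : Multiset (ℤ × α)) :
    sgnSum (s + t) = sgnSum s + sgnSum t := by
  simp [sgnSum]

theorem sgnSum_cons {α : Type u} (p : ℤ × α) (s : Multiset (ℤ × α)) :
    sgnSum (p ::ₘ s) = Finsupp.single p.2 (p.1 : ℚ) + sgnSum s := by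
  simp [sgnSum]

theorem sgnSum_map {α β : Type u} (f : α → β) (s : Multiset (ℤ × α)) :
    sgnSum (s.map fun p => (p.1, f p.2)) = (sgnSum s).mapDomain f := by
  induction s using Multiset.induction_on with
  | empty => simp [sgnSum]
  | cons p s ih =>
    rw [Multiset.map_cons, sgnSum_cons, sgnSum_cons, ih, Finsupp.mapDomain_add,
      Finsupp.mapDomain_single]

theorem sgnSum_map_neg {α β : Type u} (f : α → β) (s : Multiset (ℤ × α)) :
    sgnSum (s.map fun p => (-p.1, f p.2)) = -(sgnSum s).mapDomain f := by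
  induction s using Multiset.induction_on with
  | empty => simp [sgnSum]
  | cons p s ih =>
    rw [Multiset.map_cons, sgnSum_cons, sgnSum_cons, ih, Finsupp.mapDomain_add,
      Finsupp.mapDomain_single, neg_add, Int.cast_neg, Finsupp.single_neg]

theorem linearCombination_sgnSum {α : Type u} {V : Type v} [AddCommGroup V] [Module ℚ V]
    (f : α → V) (s : Multiset (ℤ × α)) :
    Finsupp.linearCombination ℚ f (sgnSum s) = (s.map fun p => p.1 • f p.2).sum := by
  induction s using Multiset.induction_on with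
  | empty => simp [sgnSum]
  | cons p s ih =>
    rw [sgnSum_cons, map_add, ih, Finsupp.linearCombination_single, Multiset.map_cons,
      Multiset.sum_cons, Int.cast_smul_eq_zsmul]

theorem mem_support_sgnSum {α : Type u} {s : Multiset (ℤ × α)} {x : α}
    (h : x ∈ (sgnSum s).support) : ∃ p ∈ s, p.2 = x := by
  classical
  induction s using Multiset.induction_on with
  | empty => simp [sgnSum] at h
  | cons p s ih =>
    rw [sgnSum_cons] at h
    rcases Finset.mem_union.1 (Finsupp.support_add h) with h | h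
    · exact ⟨p, Multiset.mem_cons_self _ _,
        (Finset.mem_singleton.1 (Finsupp.support_single_subset h)).symm⟩
    · obtain ⟨q, hq, e⟩ := ih h
      exact ⟨q, Multiset.mem_cons_of_mem hq, e⟩

namespace Tr

variable {M M' M'' : Type u}

theorem leaves_le_Tree {k : ℕ} {b : Tr M (k + 1)} {x : Tr M k} (hx : x ∈ b.out) :
    leaves k x ≤ leaves (k + 1) b := by
  obtain ⟨s, hs⟩ := Multiset.exists_cons_of_mem hx
  show _ ≤ b.out.bind (leaves k)
  rw [hs, Multiset.cons_bind]
  exact Multiset.le_add_right _ _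

theorem map_map (f : M → M') (g : M' → M'') (k : ℕ) (b : Tr M k) :
    map g k (map f k b) = map (g ∘ f) k b := by
  induction k with
  | zero => rfl
  | succ k ih =>
    show (b.out.map (map f k)).map (map g k) = b.out.map (map (g ∘ f) k)
    rw [Multiset.map_map]
    exact Multiset.map_congr rfl fun x _ => ih x

theorem map_congr {f g : M → M'} {k : ℕ} {b : Tr M k} (h : ∀ τ ∈ leaves k b, f τ = g τ) :
    map f k b = map g k b := by
  induction k with
  | zero => exact h b.val (Multiset.mem_singleton_self _)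
  | succ k ih =>
    show b.out.map (map f k) = b.out.map (map g k)
    exact Multiset.map_congr rfl fun x hx => ih fun τ hτ =>
      h τ (Multiset.mem_of_le (leaves_le_Tree hx) hτ)

theorem map_id (k : ℕ) (b : Tr M k) : map id k b = b := by
  induction k with
  | zero => rfl
  | succ k ih =>
    show b.out.map (map id k) = b.out
    rw [Multiset.map_congr rfl fun x _ => ih x, Multiset.map_id']

theorem leaves_map (f : M → M') (k : ℕ) (b : Tr M k) :
    leaves k (map f k b) = (leaves k b).map f := by
  induction k with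
  | zero => rfl
  | succ k ih =>
    show (b.out.map (map f k)).bind (leaves k) = (b.out.bind (leaves k)).map f
    rw [Multiset.bind_map, Multiset.map_bind]
    exact Multiset.bind_congr fun x _ => ih x

theorem TD_map_Tree (f : M → M') {k i : ℕ} {b : Tr M k} (h : TD k i b) :
    TD k i (map f k b) := by
  induction k generalizing i with
  | zero => exact h
  | succ k ih =>
    cases i with
    | zero => exact (Multiset.card_map _ _).trans h
    | succ i =>
      intro y hy
      obtain ⟨x, hx, rfl⟩ := Multiset.mem_map.1 hy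
      exact ih (h x hx)

theorem TDeg.map (f : M → M') {k : ℕ} {b : Tr M k} (h : TDeg k b) : TDeg k (map f k b) :=
  h.imp fun _ h => ⟨h.1, TD_map_Tree f h.2⟩

theorem Pos.leaves {P : M → Prop} {k : ℕ} {b : Tr M k} (h : Pos P k b) :
    ∀ τ ∈ leaves k b, P τ := by
  induction k with
  | zero =>
    intro τ hτ
    rw [Multiset.mem_singleton.1 hτ]
    exact h
  | succ k ih =>
    intro τ hτ
    obtain ⟨x, hx, e⟩ := Multiset.mem_bind.1 hτ
    exact ih (h.2 x hx) τ e

theorem Pos.map {P : M → Prop} {P' : M' → Prop} (f : M → M') {k : ℕ} {b : Tr M k}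
    (h : Pos P k b) (hf : ∀ τ ∈ Tr.leaves k b, P' (f τ)) : Pos P' k (map f k b) := by
  induction k with
  | zero => exact hf b.val (Multiset.mem_singleton_self _)
  | succ k ih =>
    refine ⟨fun e => h.1 (Multiset.map_eq_zero.1 e), fun y hy => ?_⟩
    obtain ⟨x, hx, rfl⟩ := Multiset.mem_map.1 hy
    exact ih (h.2 x hx) fun τ hτ => hf τ (Multiset.mem_of_le (leaves_le_Tree hx) hτ)

open Classical in
theorem count_le_Tree {α : Type u} (p : ℕ → α → Prop) (k : ℕ) (s : Multiset α) :
    ∑ i ∈ Finset.range k, (if ∀ x ∈ s, p i x then 0 else 1) ≤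
      (s.map fun x => ∑ i ∈ Finset.range k, if p i x then 0 else 1).sum := by
  induction s using Multiset.induction_on with
  | empty => simp
  | cons a s ih =>
    rw [Multiset.map_cons, Multiset.sum_cons]
    refine le_trans ?_ (Nat.add_le_add_left ih _)
    rw [← Finset.sum_add_distrib]
    refine Finset.sum_le_sum fun i _ => ?_
    simp only [Multiset.forall_mem_cons]
    by_cases h1 : p i a <;> by_cases h2 : ∀ x ∈ s, p i x <;> simp [h1, h2]

open Classical in
theorem Pos.card_Tree {P : M → Prop} {k : ℕ} {b : Tr M k} (h : Pos P k b) :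
    1 + ∑ i ∈ Finset.range k, (if TD k i b then 0 else 1) ≤ (Tr.leaves k b).card := by
  induction k with
  | zero => exact le_rfl
  | succ k ih =>
    have h1 := count_le_Tree (TD k) k b.out
    have h2 : (b.out.map fun x => 1 + ∑ i ∈ Finset.range k, if TD k i x then 0 else 1).sum ≤
        (b.out.map fun x => (Tr.leaves k x).card).sum :=
      Multiset.sum_map_le_sum_map _ _ fun x hx => ih (h.2 x hx)
    have h3 : (Tr.leaves (k + 1) b).card = (b.out.map fun x => (Tr.leaves k x).card).sum :=
      Multiset.card_bind _ _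
    have h4 := Multiset.card_pos.2 h.1
    have h5 : ∑ i ∈ Finset.range k, (if TD (k + 1) (i + 1) b then 0 else 1) =
        ∑ i ∈ Finset.range k, (if ∀ x ∈ b.out, TD k i x then 0 else 1) :=
      Finset.sum_congr rfl fun i _ => if_congr Iff.rfl rfl rfl
    rw [Multiset.sum_map_add, Multiset.map_const', Multiset.sum_replicate, smul_eq_mul,
      mul_one] at h2
    rw [Finset.sum_range_succ', h5, h3]
    have h6 : TD (k + 1) 0 b ↔ b.out.card = 1 := Iff.rfl
    split_ifs with h7
    · omega
    · rw [h6] at h7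
      omega

theorem Pos.card_leaves {P : M → Prop} {k : ℕ} {b : Tr M k} (h : Pos P k b) (hd : ¬ TDeg k b) :
    k + 1 ≤ (Tr.leaves k b).card := by
  have := h.card_Tree
  rw [Finset.sum_congr rfl fun i hi => if_neg fun e => hd ⟨i, Finset.mem_range.1 hi, e⟩] at this
  simpa [add_comm] using this

theorem finite_fibre_map {k : ℕ} (b : Tr M k) (t : Set M') (ht : t.Finite) :
    {b' | ∃ f : M → M', (∀ τ ∈ leaves k b, f τ ∈ t) ∧ b' = map f k b}.Finite := by
  classical
  rcases isEmpty_or_nonempty (M → M') with h | ⟨⟨f₀⟩⟩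
  · exact Set.finite_empty.subset fun _ ⟨f, _⟩ => h.elim f
  refine ((Set.Finite.pi' fun _ : (leaves k b).toFinset => ht).image fun g =>
    map (fun τ => if h : τ ∈ (leaves k b).toFinset then g ⟨τ, h⟩ else f₀ τ) k b).subset ?_
  rintro _ ⟨f, hf, rfl⟩
  exact ⟨fun τ => f τ, fun τ => hf τ (Multiset.mem_toFinset.1 τ.2),
    map_congr fun τ hτ => dif_pos (Multiset.mem_toFinset.2 hτ)⟩

variable [AddCommMonoid M] [AddCommMonoid M']

theorem face_zero_Tree (k : ℕ) (b : Tr M (k + 1)) : face k 0 b = b.out.sum := by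
  cases k <;> rfl

theorem out_sum_Tree {k : ℕ} (s : Multiset (Tr M (k + 1))) : s.sum.out = s.bind out := by
  induction s using Multiset.induction_on with
  | empty => rfl
  | cons a s ih =>
    rw [Multiset.sum_cons, Multiset.cons_bind, ← ih]
    rfl

/-- The action on trees is additive. -/
def mapHom_Tree (f : M →+ M') : ∀ k, Tr M k →+ Tr M' k
  | 0 => f
  | k + 1 => Multiset.mapAddMonoidHom (map f k)

theorem map_sum_Tree (f : M →+ M') (k : ℕ) (s : Multiset (Tr M k)) :
    map f k s.sum = (s.map (map f k)).sum := by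
  have e : map f k = mapHom_Tree f k := by cases k <;> rfl
  rw [e, map_multiset_sum]

/-- The faces are additive. -/
def faceHom_Tree : ∀ k, ℕ → Tr M (k + 1) →+ Tr M k
  | 0, _ => Multiset.sumAddMonoidHom
  | _ + 1, 0 => Multiset.sumAddMonoidHom
  | k + 1, i + 1 => Multiset.mapAddMonoidHom (face k i)

theorem face_sum_Tree (k i : ℕ) (s : Multiset (Tr M (k + 1))) :
    face k i s.sum = (s.map (face k i)).sum := by
  have e : face (M := M) k i = faceHom_Tree k i := by cases k <;> cases i <;> rfl
  rw [e, map_multiset_sum]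

theorem face_map_Tree (f : M →+ M') (k i : ℕ) (b : Tr M (k + 1)) :
    face k i (map f (k + 1) b) = map f k (face k i b) := by
  induction k generalizing i with
  | zero => exact (map_sum_Tree f 0 b.out).symm
  | succ k ih =>
    cases i with
    | zero => exact (map_sum_Tree f (k + 1) b.out).symm
    | succ i =>
      show (b.out.map (map f (k + 1))).map (face k i) = (b.out.map (face k i)).map (map f k)
      rw [Multiset.map_map, Multiset.map_map]
      exact Multiset.map_congr rfl fun x _ => ih i x

theorem face_face_Tree (k : ℕ) {i j : ℕ} (h : i ≤ j) (b : Tr M (k + 2)) :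
    face k i (face (k + 1) (j + 1) b) = face k j (face (k + 1) i b) := by
  induction k generalizing i j with
  | zero =>
    cases i with
    | zero => exact (face_sum_Tree 0 j b.out).symm
    | succ i => rfl
  | succ k ih =>
    cases i with
    | zero => exact (face_sum_Tree (k + 1) j b.out).symm
    | succ i =>
      obtain ⟨j, rfl⟩ : ∃ j', j = j' + 1 := ⟨j - 1, by omega⟩
      show (b.out.map (face (k + 1) (j + 1))).map (face k i) =
        (b.out.map (face (k + 1) i)).map (face k j)
      rw [Multiset.map_map, Multiset.map_map]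
      exact Multiset.map_congr rfl fun x _ => ih (by omega) x

theorem mem_DT_Tree {k : ℕ} {b : Tr M (k + 1)} {p : ℤ × Tr M k} : p ∈ DT k b ↔
    (∃ x ∈ b.out, (1, x) = p) ∨ ∃ i < k + 1, (-(-1 : ℤ) ^ i, face k i b) = p := by
  simp only [DT, Multiset.mem_add, Multiset.mem_map, Multiset.mem_range]

theorem sgnSum_DT_Tree (k : ℕ) (b : Tr M (k + 1)) : sgnSum (DT k b) =
    (b.out.map fun x => Finsupp.single x (1 : ℚ)).sum -
      ∑ i ∈ Finset.range (k + 1), (-1 : ℚ) ^ i • Finsupp.single (face k i b) (1 : ℚ) := by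
  rw [DT, sgnSum_add, sub_eq_add_neg, ← Finset.sum_neg_distrib, sgnSum, sgnSum, Multiset.map_map,
    Multiset.map_map]
  congr 1
  rw [Finset.sum_eq_multiset_sum, Finset.range_val]
  congr 1
  refine Multiset.map_congr rfl fun i _ => ?_
  simp

theorem delta_single_Tree (k : ℕ) (b : Tr M (k + 1)) (z : ℚ) :
    delta k (Finsupp.single b z) = z • sgnSum (DT k b) := Finsupp.linearCombination_single _ _ _

theorem DT_map (f : M →+ M') (k : ℕ) (b : Tr M (k + 1)) :
    DT k (map f (k + 1) b) = (DT k b).map fun p => (p.1, map f k p.2) := by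
  simp only [DT, Multiset.map_add, Multiset.map_map, face_map_Tree]
  congr 1
  exact Multiset.map_map _ _ _

theorem delta_mapDomain (f : M →+ M') (k : ℕ) (c : Tr M (k + 1) →₀ ℚ) :
    delta k (c.mapDomain (map f (k + 1))) = (delta k c).mapDomain (map f k) := by
  induction c using Finsupp.induction_linear with
  | zero => simp
  | add a b ha hb => rw [Finsupp.mapDomain_add, map_add, map_add, Finsupp.mapDomain_add, ha, hb]
  | single b z =>
    rw [Finsupp.mapDomain_single, delta_single_Tree, delta_single_Tree, DT_map, sgnSum_map,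
      Finsupp.mapDomain_smul]

theorem delta_delta (k : ℕ) (c : Tr M (k + 2) →₀ ℚ) : delta k (delta (k + 1) c) = 0 := by
  induction c using Finsupp.induction_linear with
  | zero => simp
  | add a b ha hb => rw [map_add, map_add, ha, hb, add_zero]
  | single b z =>
    rw [delta_single_Tree, map_smul, sgnSum_DT_Tree]
    refine smul_eq_zero_of_right _ ?_
    have h0 := Cy.dd_sum_Simp (𝕂 := ℚ)
      (fun i j => Finsupp.single (face k i (face (k + 1) j b)) (1 : ℚ))
      (fun i j h => by rw [face_face_Tree k h]) (k + 1)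
    have h1 : ((face (k + 1) 0 b).out.map fun x => Finsupp.single x (1 : ℚ)).sum =
        (b.out.map fun x => (x.out.map fun y => Finsupp.single y (1 : ℚ)).sum).sum := by
      rw [face_zero_Tree, out_sum_Tree, Multiset.map_bind, Multiset.sum_bind]
    have h2 : ∀ i, ((face (k + 1) (i + 1) b).out.map fun x => Finsupp.single x (1 : ℚ)).sum =
        (b.out.map fun x => Finsupp.single (face k i x) (1 : ℚ)).sum := fun i =>
      congrArg Multiset.sum (Multiset.map_map _ _ _)
    have h3 : (b.out.map fun x => ∑ i ∈ Finset.range (k + 1),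
        (-1 : ℚ) ^ i • Finsupp.single (face k i x) (1 : ℚ)).sum = ∑ i ∈ Finset.range (k + 1),
        (-1 : ℚ) ^ i • (b.out.map fun x => Finsupp.single (face k i x) (1 : ℚ)).sum := by
      rw [Multiset.sum_map_sum]
      refine Finset.sum_congr rfl fun i _ => ?_
      rw [Multiset.smul_sum, Multiset.map_map]
      rfl
    have d1 : ∀ x : Tr M (k + 1), delta k (Finsupp.single x 1) =
        (x.out.map fun y => Finsupp.single y (1 : ℚ)).sum -
          ∑ i ∈ Finset.range (k + 1), (-1 : ℚ) ^ i • Finsupp.single (face k i x) (1 : ℚ) :=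
      fun x => by rw [delta_single_Tree, one_smul, sgnSum_DT_Tree]
    rw [Finset.sum_comm] at h0
    simp only [map_sub, map_multiset_sum, map_sum, map_smul, Multiset.map_map, Function.comp_def,
      d1, Multiset.sum_map_sub, smul_sub, Finset.sum_sub_distrib, Finset.smul_sum, h3]
    rw [Finset.sum_range_succ' _ (k + 1), h1]
    simp only [h2, pow_succ, mul_neg, mul_one, neg_smul, Finset.sum_neg_distrib, pow_zero,
      one_smul]
    have h4 : ∑ j ∈ Finset.range (k + 1 + 1), ∑ i ∈ Finset.range (k + 1), (-1 : ℚ) ^ j •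
        (-1 : ℚ) ^ i • Finsupp.single (face k i (face (k + 1) j b)) (1 : ℚ) = 0 := by
      rw [← h0]
      exact Finset.sum_congr rfl fun j _ => Finset.sum_congr rfl fun i _ => by
        rw [smul_smul, ← pow_add, add_comm]
    rw [h4]
    abel

theorem aug_DT {G : Type v} [AddCommGroup G] (f : M →+ G) (b : Tr M 1) :
    ((DT 0 b).map fun p => p.1 • f p.2.val).sum = 0 := by
  have e : f (face 0 0 b).val = (b.out.map fun x => f x.val).sum := map_multiset_sum f b.out
  simp [DT, e]

theorem leaves_sum_Tree {k : ℕ} (b : Tr M (k + 2)) :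
    leaves (k + 1) b.out.sum = leaves (k + 2) b := by
  show b.out.sum.out.bind (leaves k) = b.out.bind fun x => x.out.bind (leaves k)
  rw [out_sum_Tree, Multiset.bind_assoc]

theorem leaves_one_Tree (b : Tr M 1) : (leaves 1 b).sum = b.out.sum.val :=
  congrArg Multiset.sum ((Multiset.bind_singleton _ _).trans (Multiset.map_id' _))

theorem leaves_face_Tree (k i : ℕ) (b : Tr M (k + 1)) :
    ∀ τ ∈ leaves k (face k i b), ∃ s ≤ leaves (k + 1) b, τ = s.sum := by
  induction k generalizing i with
  | zero =>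
    exact fun τ hτ => ⟨_, le_rfl, (Multiset.mem_singleton.1 hτ).trans (leaves_one_Tree b).symm⟩
  | succ k ih =>
    intro τ hτ
    cases i with
    | zero =>
      exact ⟨{τ}, Multiset.singleton_le.2 (leaves_sum_Tree b ▸ hτ), (Multiset.sum_singleton _).symm⟩
    | succ i =>
      obtain ⟨y, hy, e⟩ := Multiset.mem_bind.1 hτ
      obtain ⟨x, hx, rfl⟩ := Multiset.mem_map.1 hy
      obtain ⟨s, hs, e'⟩ := ih i x τ e
      exact ⟨s, hs.trans (leaves_le_Tree hx), e'⟩

theorem sum_leaves_face_Tree (k i : ℕ) (b : Tr M (k + 1)) :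
    (leaves k (face k i b)).sum = (leaves (k + 1) b).sum := by
  induction k generalizing i with
  | zero => exact (Multiset.sum_singleton _).trans (leaves_one_Tree b).symm
  | succ k ih =>
    cases i with
    | zero => exact congrArg Multiset.sum (leaves_sum_Tree b)
    | succ i =>
      show ((b.out.map (face k i)).bind (leaves k)).sum = (b.out.bind (leaves (k + 1))).sum
      rw [Multiset.bind_map, Multiset.sum_bind, Multiset.sum_bind]
      exact congrArg Multiset.sum (Multiset.map_congr rfl fun x _ => ih i x)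

theorem leaves_DT {k : ℕ} {b : Tr M (k + 1)} {p : ℤ × Tr M k} (hp : p ∈ DT k b) :
    ∀ τ ∈ leaves k p.2, ∃ s ≤ leaves (k + 1) b, τ = s.sum := by
  rcases mem_DT_Tree.1 hp with ⟨x, hx, rfl⟩ | ⟨i, -, rfl⟩
  · exact fun τ hτ => ⟨{τ}, (Multiset.singleton_le.2 hτ).trans (leaves_le_Tree hx),
      (Multiset.sum_singleton _).symm⟩
  · exact leaves_face_Tree k i b

theorem sum_leaves_DT {k : ℕ} {b : Tr M (k + 1)} {p : ℤ × Tr M k} (hp : p ∈ DT k b) :
    ∃ s ≤ leaves (k + 1) b, (leaves k p.2).sum = s.sum := by
  rcases mem_DT_Tree.1 hp with ⟨x, hx, rfl⟩ | ⟨i, -, rfl⟩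
  · exact ⟨_, leaves_le_Tree hx, rfl⟩
  · exact ⟨_, le_rfl, sum_leaves_face_Tree k i b⟩

theorem Pos.sum_Tree {P : M → Prop} (hP : ∀ x y, P x → P y → P (x + y)) {k : ℕ}
    {b : Tr M (k + 1)} (h : Pos P (k + 1) b) : Pos P k b.out.sum := by
  refine Multiset.sum_induction_nonempty _ (fun x y hx hy => ?_) h.1 h.2
  cases k with
  | zero => exact hP x y hx hy
  | succ k =>
    exact ⟨fun e => hx.1 (add_eq_zero.1 (show x.out + y.out = 0 from e)).1,
      fun z hz => (Multiset.mem_add.1 hz).elim (hx.2 z) (hy.2 z)⟩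

theorem Pos.face_Tree {P : M → Prop} (hP : ∀ x y, P x → P y → P (x + y)) {k : ℕ} (i : ℕ)
    {b : Tr M (k + 1)} (h : Pos P (k + 1) b) : Pos P k (face k i b) := by
  induction k generalizing i with
  | zero => exact h.sum_Tree hP
  | succ k ih =>
    cases i with
    | zero => exact h.sum_Tree hP
    | succ i =>
      refine ⟨fun e => h.1 (Multiset.map_eq_zero.1 e), fun y hy => ?_⟩
      obtain ⟨x, hx, rfl⟩ := Multiset.mem_map.1 hy
      exact ih i (h.2 x hx)

theorem Pos.DT {P : M → Prop} (hP : ∀ x y, P x → P y → P (x + y)) {k : ℕ} {b : Tr M (k + 1)}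
    (h : Pos P (k + 1) b) {p : ℤ × Tr M k} (hp : p ∈ DT k b) : Pos P k p.2 := by
  rcases mem_DT_Tree.1 hp with ⟨x, hx, rfl⟩ | ⟨i, -, rfl⟩
  · exact h.2 x hx
  · exact h.face_Tree hP i

theorem TD_eq_Tree {k i : ℕ} (hi : i < k) {b : Tr M (k + 1)} (h : TD (k + 1) (i + 1) b) :
    face k i b = face k (i + 1) b := by
  induction k generalizing i with
  | zero => omega
  | succ k ih =>
    cases i with
    | zero =>
      show b.out.sum.out = b.out.map (face k 0)
      rw [out_sum_Tree, ← Multiset.bind_singleton]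
      refine Multiset.bind_congr fun x hx => ?_
      obtain ⟨y, hy⟩ := Multiset.card_eq_one.1 (h x hx)
      rw [face_zero_Tree, hy, Multiset.sum_singleton]
    | succ i =>
      show b.out.map (face k i) = b.out.map (face k (i + 1))
      exact Multiset.map_congr rfl fun x hx => ih (by omega) (h x hx)

theorem TD_lt_Tree {k i j : ℕ} (hj : j < i) (hi : i < k) {b : Tr M (k + 1)}
    (h : TD (k + 1) (i + 1) b) : TD k i (face k j b) := by
  induction k generalizing i j with
  | zero => omega
  | succ k ih =>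
    obtain ⟨i, rfl⟩ : ∃ i', i = i' + 1 := ⟨i - 1, by omega⟩
    intro y hy
    cases j with
    | zero =>
      rw [face_zero_Tree, out_sum_Tree] at hy
      obtain ⟨x, hx, e⟩ := Multiset.mem_bind.1 hy
      exact h x hx y e
    | succ j =>
      obtain ⟨x, hx, rfl⟩ := Multiset.mem_map.1 hy
      exact ih (by omega) (by omega) (h x hx)

theorem TD_gt_Tree {k i j : ℕ} (hi : i < j) (hj : j ≤ k) {b : Tr M (k + 1)}
    (h : TD (k + 1) i b) : TD k i (face k j b) := by
  induction k generalizing i j with
  | zero => omega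
  | succ k ih =>
    obtain ⟨j, rfl⟩ : ∃ j', j = j' + 1 := ⟨j - 1, by omega⟩
    cases i with
    | zero => exact (Multiset.card_map _ _).trans h
    | succ i =>
      intro y hy
      obtain ⟨x, hx, rfl⟩ := Multiset.mem_map.1 hy
      exact ih (by omega) (by omega) (h x hx)

theorem TDeg.sgnSum_mem {k : ℕ} {b : Tr M (k + 1)} (h : TDeg (k + 1) b) :
    sgnSum (DT k b) ∈ Submodule.span ℚ
      {x | ∃ p ∈ DT k b, TDeg k p.2 ∧ x = Finsupp.single p.2 (1 : ℚ)} := by
  obtain ⟨i, hi, h⟩ := h
  have key : ∀ j < k + 1, TDeg k (face k j b) → (-1 : ℚ) ^ j • Finsupp.single (face k j b) (1 : ℚ) ∈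
      Submodule.span ℚ {x | ∃ p ∈ DT k b, TDeg k p.2 ∧ x = Finsupp.single p.2 (1 : ℚ)} :=
    fun j hj e => Submodule.smul_mem _ _ (Submodule.subset_span
      ⟨_, mem_DT_Tree.2 (Or.inr ⟨j, hj, rfl⟩), e, rfl⟩)
  rw [sgnSum_DT_Tree]
  cases i with
  | zero =>
    obtain ⟨y, hy⟩ := Multiset.card_eq_one.1 h
    rw [Finset.sum_range_succ', face_zero_Tree, hy, Multiset.sum_singleton, Multiset.map_singleton,
      Multiset.sum_singleton, pow_zero, one_smul, sub_add_cancel_right]
    refine neg_mem (Submodule.sum_mem _ fun j hj => ?_)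
    have := Finset.mem_range.1 hj
    exact key _ (by omega) ⟨0, by omega, TD_gt_Tree (by omega) (by omega) h⟩
  | succ i =>
    refine sub_mem (multiset_sum_mem _ fun y hy => ?_) ?_
    · obtain ⟨x, hx, rfl⟩ := Multiset.mem_map.1 hy
      exact Submodule.subset_span
        ⟨_, mem_DT_Tree.2 (Or.inl ⟨x, hx, rfl⟩), ⟨i, by omega, h x hx⟩, rfl⟩
    · have sub : ({i, i + 1} : Finset ℕ) ⊆ Finset.range (k + 1) := fun j hj => by
        simp only [Finset.mem_insert, Finset.mem_singleton, Finset.mem_range] at hj ⊢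
        omega
      rw [← Finset.sum_sdiff sub, Finset.sum_pair (by omega), ← TD_eq_Tree (by omega) h, pow_succ,
        mul_neg_one, neg_smul, add_neg_cancel, add_zero]
      refine Submodule.sum_mem _ fun j hj => ?_
      simp only [Finset.mem_sdiff, Finset.mem_insert, Finset.mem_singleton, Finset.mem_range] at hj
      rcases lt_or_gt_of_ne (show j ≠ i by omega) with e | e
      · exact key _ hj.1 ⟨i, by omega, TD_lt_Tree e (by omega) h⟩
      · exact key _ hj.1 ⟨i + 1, by omega, TD_gt_Tree (by omega) (by omega) h⟩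

end Tr

end

end Pool.Agent.MP_e2821c_ag.Dg
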