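import Pool.Agent.Lib.MP_e2821c_ag.Dg.Iso
import Pool.Agent.Lib.MP_e2821c_ag.Dg.Tree
import Pool.Agent.Lib.MP_e2821c_ag.Dg.FaceP

namespace Pool.Agent.MP_e2821c_ag.Dg

open MvPolynomial

universe u v w

noncomputable section

theorem rk_leaf_RkT {F : Type u} [Field F] [CharZero F] {N : ℕ} {I : Finset (Fin N)}
    (hI : I.Nonempty) {τ : G2 → OmN F N} (h : LeafOk F I τ) :
    ∃ e : ℕ, τ 0 = (e : OmN F N) ∧ rk F (Set.range τ) + 1 ≤ e := by
  obtain ⟨⟨e, he, hE⟩, hτ⟩ := h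
  obtain ⟨p, f, hf, rfl⟩ := exists_emb hI
  have h1 : ∀ γ, ∃ x, emb F f x = τ γ := fun γ => by
    have := hτ γ
    rw [← range_emb hf] at this
    exact this
  choose τ₀ hτ₀ using h1
  have h2 : τ = fun γ => emb F f (τ₀ γ) := funext fun γ => (hτ₀ γ).symm
  have h3 : Eff e τ₀ :=
    Eff.of_injective (emb F f).toRingHom (emb_injective hf) (by rw [h2] at hE; exact hE)
  refine ⟨e, hE.apply_zero, ?_⟩
  rw [h2]
  exact rk_range_le h3 he (emb F f)

theorem rk_multiset_RkT {F : Type u} [Field F] [CharZero F] {N : ℕ} {I : Finset (Fin N)}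
    (hI : I.Nonempty) (m : Multiset (G2 → OmN F N)) (h : ∀ τ ∈ m, LeafOk F I τ) :
    ∃ e : ℕ, m.sum 0 = (e : OmN F N) ∧
      rk F {x | ∃ τ ∈ m, ∃ γ, x = τ γ} + (m.card : ℕ∞) ≤ e := by
  induction m using Multiset.induction_on with
  | empty =>
    refine ⟨0, by simp, ?_⟩
    have : {x : OmN F N | ∃ τ ∈ (0 : Multiset (G2 → OmN F N)), ∃ γ, x = τ γ} = ∅ := by
      ext x; simp
    rw [this, rk_empty]
    simp
  | cons a m ih =>
    obtain ⟨e, he, hr⟩ := ih fun τ hτ => h τ (Multiset.mem_cons_of_mem hτ)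
    obtain ⟨e', he', hr'⟩ := rk_leaf_RkT hI (h a (Multiset.mem_cons_self a m))
    refine ⟨e' + e, ?_, ?_⟩
    · rw [Multiset.sum_cons, Pi.add_apply, he, he', Nat.cast_add]
    · have h1 : {x : OmN F N | ∃ τ ∈ a ::ₘ m, ∃ γ, x = τ γ}
          ⊆ Set.range a ∪ {x | ∃ τ ∈ m, ∃ γ, x = τ γ} := by
        rintro x ⟨τ, hτ, γ, rfl⟩
        rcases Multiset.mem_cons.mp hτ with rfl | hτ
        · exact Or.inl ⟨γ, rfl⟩
        · exact Or.inr ⟨τ, hτ, γ, rfl⟩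
      have h2 := (rk_mono (F := F) h1).trans (rk_union_le _ _)
      rw [Multiset.card_cons, Nat.cast_add, Nat.cast_add, Nat.cast_one]
      calc rk F {x : OmN F N | ∃ τ ∈ a ::ₘ m, ∃ γ, x = τ γ} + ((m.card : ℕ∞) + 1)
          ≤ (rk F (Set.range a) + rk F {x | ∃ τ ∈ m, ∃ γ, x = τ γ}) + ((m.card : ℕ∞) + 1) :=
            add_le_add h2 le_rfl
        _ = (rk F (Set.range a) + 1) + (rk F {x | ∃ τ ∈ m, ∃ γ, x = τ γ} + (m.card : ℕ∞)) := by
            ring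
        _ ≤ (e' : ℕ∞) + e := add_le_add hr' hr

theorem GT.rk_vals {F : Type u} [Field F] [CharZero F] {N : ℕ} {I : Finset (Fin N)}
    (hI : I.Nonempty) {d k : ℕ} {b : Tr (G2 → OmN F N) k} (h : GT F I d k b)
    (hd : ¬ Tr.TDeg k b) : rk F (vals k b) + (k + 1 : ℕ) ≤ d := by
  obtain ⟨hP, e, hed, he⟩ := h
  obtain ⟨e', he', hr⟩ := rk_multiset_RkT hI (Tr.leaves k b) hP.leaves
  have h1 : e' = e := by
    have : (e' : OmN F N) = e := he'.symm.trans he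
    exact_mod_cast this
  have h2 : ((k + 1 : ℕ) : ℕ∞) ≤ ((Tr.leaves k b).card : ℕ∞) := by
    exact_mod_cast hP.card_leaves hd
  have h3 : (e' : ℕ∞) ≤ d := by exact_mod_cast h1 ▸ hed
  exact ((add_le_add le_rfl h2).trans hr).trans h3

end

end Pool.Agent.MP_e2821c_ag.Dg
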