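import Pool.Agent.Lib.MP_e2821c_ag.Dg.Root

namespace Pool.Agent.MP_e2821c_ag.Dg

open MvPolynomial

universe u v w

noncomputable section

/-- The powers of a unit as constant polynomials. -/
def upow_Skew {S : Type u} [CommRing S] {G : Type} [AddCommGroup G] (u : Sˣ) (f : G →+ ℤ) :
    AddChar G (Polynomial S) where
  toFun g := Polynomial.C ((u ^ f g : Sˣ) : S)
  map_zero_eq_one' := by simp
  map_add_eq_mul' x y := by rw [map_add, zpow_add, Units.val_mul, map_mul]

theorem exists_path_Skew {S : Type u} [CommRing S] [IsDomain S] (a b : Sˣ) :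
    ∃ p ∈ CorrIn ℤ (Set.univ : Set (Polynomial S)),
      (∀ m, (p m).eval 1 = ((a ^ m : Sˣ) : S) + (b ^ m : Sˣ)) ∧
        ∀ m, (p m).eval 0 = 1 + ((a ^ m : Sˣ) : S) * (b ^ m : Sˣ) := by
  let s : Polynomial S := Polynomial.X * Polynomial.C ((a : S) + b) +
    (1 - Polynomial.X) * Polynomial.C (1 + (a : S) * b)
  let h : Polynomial (Polynomial S) := Polynomial.X ^ 2 +
    (Polynomial.C (-s) * Polynomial.X + Polynomial.C (Polynomial.C ((a : S) * b)))
  have hm : h.Monic := Polynomial.monic_X_pow_add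
    (Polynomial.degree_linear_le.trans_lt (by decide))
  have hu : IsUnit (h.coeff 0) := by
    have h1 : h.coeff 0 = Polynomial.C ((a : S) * b) := by simp [h]
    rw [h1]
    exact (a * b).isUnit.map Polynomial.C
  obtain ⟨p, hp⟩ := exists_isRootPow hm hu
  refine ⟨p, subset_satClosure ⟨⟨_, hp.eff hm hu⟩, fun _ => trivial⟩, fun m => ?_, fun m => ?_⟩
  · have h1 := hp.map (Polynomial.evalRingHom 1)
    have h2 : h.map (Polynomial.evalRingHom 1) =
        (Polynomial.X - Polynomial.C (a : S)) * (Polynomial.X - Polynomial.C (b : S)) := by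
      simp [h, s]
      ring
    rw [h2] at h1
    exact congrFun (h1.unique (isRootPow_two a b)) m
  · have h1 := hp.map (Polynomial.evalRingHom 0)
    have h2 : h.map (Polynomial.evalRingHom 0) =
        (Polynomial.X - Polynomial.C ((1 : Sˣ) : S)) *
          (Polynomial.X - Polynomial.C ((a * b : Sˣ) : S)) := by
      simp [h, s]
      ring
    rw [h2] at h1
    have h3 := congrFun (h1.unique (isRootPow_two 1 (a * b))) m
    simpa [mul_zpow] using h3

theorem exists_skew {S : Type u} [CommRing S] [IsDomain S] [QAlg S] {Γ : Type} [AddCommGroup Γ]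
    (χ : AddChar Γ S) (a b : Sˣ) :
    ∃ Λ ∈ CorrIn (Γ × ℤ × ℤ) (Set.univ : Set (Polynomial S)), ∀ γ m m',
      (Λ (γ, m, m')).eval 1 - (Λ (γ, m, m')).eval 0 =
        χ γ * ((((a ^ m : Sˣ) : S) - 1) * (((b ^ m' : Sˣ) : S) - 1) +
          (((b ^ m : Sˣ) : S) - 1) * (((a ^ m' : Sˣ) : S) - 1)) := by
  obtain ⟨p, hp, h1, h0⟩ := exists_path_Skew a b
  let f : Γ × ℤ × ℤ →+ ℤ := (AddMonoidHom.fst ℤ ℤ).comp (AddMonoidHom.snd Γ _)
  let g : Γ × ℤ × ℤ →+ ℤ := (AddMonoidHom.snd ℤ ℤ).comp (AddMonoidHom.snd Γ _)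
  let c : AddChar (Γ × ℤ × ℤ) (Polynomial S) :=
    { toFun := fun x => Polynomial.C (χ x.1)
      map_zero_eq_one' := by simp
      map_add_eq_mul' := fun x y => by rw [Prod.fst_add, AddChar.map_add_eq_mul, map_mul] }
  have hf := comp_mem_corrIn f hp
  have hg := comp_mem_corrIn g hp
  refine ⟨_, mul_char_mem_corrIn c (sub_mem (add_mem (add_mem
    (mul_char_mem_corrIn (upow_Skew (a * b) g) hf) (mul_char_mem_corrIn (upow_Skew a f) hg))
    (mul_char_mem_corrIn (upow_Skew b f) hg)) (add_mem hg (comp_mem_corrIn (f + g) hp))),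
    fun γ m m' => ?_⟩
  change Polynomial.eval 1 (Polynomial.C (χ γ) * (Polynomial.C (((a * b) ^ m' : Sˣ) : S) * p m +
      Polynomial.C ((a ^ m : Sˣ) : S) * p m' + Polynomial.C ((b ^ m : Sˣ) : S) * p m' -
      (p m' + p (m + m')))) -
    Polynomial.eval 0 (Polynomial.C (χ γ) * (Polynomial.C (((a * b) ^ m' : Sˣ) : S) * p m +
      Polynomial.C ((a ^ m : Sˣ) : S) * p m' + Polynomial.C ((b ^ m : Sˣ) : S) * p m' -
      (p m' + p (m + m')))) = _
  simp only [Polynomial.eval_mul, Polynomial.eval_add, Polynomial.eval_sub, Polynomial.eval_C, h1,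
    h0, mul_zpow, zpow_add, Units.val_mul]
  ring

end

end Pool.Agent.MP_e2821c_ag.Dg
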