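import Pool.Agent.Lib.MP_e2821c_ag.Dg.SumB
import Pool.Agent.Lib.MP_e2821c_ag.Dg.CoreC
import Pool.Agent.Lib.MP_e2821c_ag.Dg.Lift
import Pool.Agent.Lib.MP_e2821c_ag.Dg.RkT
import Pool.Agent.Lib.MP_e2821c_ag.Dg.Detect

namespace Pool.Agent.MP_e2821c_ag.Dg

open MvPolynomial

universe u v w

noncomputable section

/-- Subgroups that are stable under rational multiples. -/
def QCl_Sum {V : Type v} [AddCommGroup V] (G : AddSubgroup V) : Prop :=
  ∀ (i : Module ℚ V) (c : ℚ), ∀ x ∈ G, i.smul c x ∈ G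

theorem qCl_of_Sum {V : Type v} [AddCommGroup V] {i : Module ℚ V} {G : AddSubgroup V}
    (h : ∀ (c : ℚ), ∀ x ∈ G, c • x ∈ G) : QCl_Sum G := by
  intro j
  obtain rfl : i = j := Subsingleton.elim _ _
  exact h

theorem qCl_bot_Sum {V : Type v} [AddCommGroup V] : QCl_Sum (⊥ : AddSubgroup V) := by
  intro i c x hx
  rw [AddSubgroup.mem_bot.1 hx]
  exact AddSubgroup.mem_bot.2 (smul_zero c)

theorem linComb_mem_Sum {α : Type u} {V : Type v} [AddCommGroup V] [Module ℚ V]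
    (G : AddSubgroup V) (hG : QCl_Sum G) (f : α → V) (x : α →₀ ℚ)
    (h : ∀ o ∈ x.support, f o ∈ G) : Finsupp.linearCombination ℚ f x ∈ G := by
  rw [Finsupp.linearCombination_apply, Finsupp.sum]
  exact G.sum_mem fun o ho => hG _ _ _ (h o ho)

theorem map_linComb_Sum {α : Type u} {V : Type v} {V' : Type w} [AddCommGroup V] [Module ℚ V]
    [AddCommGroup V'] [Module ℚ V'] (g : V →+ V') (f : α → V) (x : α →₀ ℚ) :
    g (Finsupp.linearCombination ℚ f x) = Finsupp.linearCombination ℚ (fun o => g (f o)) x := by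
  rw [Finsupp.linearCombination_apply, Finsupp.linearCombination_apply, Finsupp.sum, Finsupp.sum,
    map_sum]
  exact Finset.sum_congr rfl fun o _ => map_rat_smul g _ _

theorem linComb_sub_Sum {α : Type u} {V : Type v} [AddCommGroup V] [Module ℚ V]
    (f g : α → V) (x : α →₀ ℚ) :
    Finsupp.linearCombination ℚ (fun o => f o - g o) x =
      Finsupp.linearCombination ℚ f x - Finsupp.linearCombination ℚ g x := by
  simp only [Finsupp.linearCombination_apply, Finsupp.sum, smul_sub, Finset.sum_sub_distrib]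

theorem linComb_add_Sum {α : Type u} {V : Type v} [AddCommGroup V] [Module ℚ V]
    (f g : α → V) (x : α →₀ ℚ) :
    Finsupp.linearCombination ℚ (fun o => f o + g o) x =
      Finsupp.linearCombination ℚ f x + Finsupp.linearCombination ℚ g x := by
  simp only [Finsupp.linearCombination_apply, Finsupp.sum, smul_add, Finset.sum_add_distrib]

section General

variable {F Ω : Type u} [Field F] [Field Ω] [Algebra F Ω] [CharZero Ω]

/-- Families of rational subspaces of chains. -/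
abbrev SF_Sum (Ω : Type u) [Field Ω] [CharZero Ω] : Type u := ∀ q, Submodule ℚ (Xq G2 Ω q)

/-- The linear extension of a function on instances. -/
def lc_Sum {n : ℕ} (f : Inst F Ω → Xq G2 Ω n) : (Inst F Ω →₀ ℚ) →+ Xq G2 Ω n :=
  (Finsupp.linearCombination ℚ f).toAddMonoidHom

theorem lc_apply_Sum {n : ℕ} (f : Inst F Ω → Xq G2 Ω n) (x : Inst F Ω →₀ ℚ) :
    lc_Sum f x = Finsupp.linearCombination ℚ f x := rfl

theorem qCl_CR_Sum (B : Subring Ω) (q : ℕ) : QCl_Sum (CR B q) :=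
  qCl_of_Sum fun c _ hx => qsmul_mem_CR c hx

theorem HL_mem_Sum (H : HF F Ω) {n : ℕ} (G : AddSubgroup (Xq G2 Ω (n + 1))) (hG : QCl_Sum G)
    (x : Inst F Ω →₀ ℚ) (h : ∀ o ∈ x.support, H n o ∈ G) : HL H n x ∈ G :=
  linComb_mem_Sum G hG _ _ h

theorem dX_HL_sub_Sum (H : HF F Ω) {n : ℕ} (G : AddSubgroup (Xq G2 Ω n)) (hG : QCl_Sum G)
    (x : Inst F Ω →₀ ℚ) (h : ∀ o ∈ x.support, UF H n o - dX Ω n (H n o) ∈ G) :
    dX Ω n (HL H n x) - lc_Sum (UF H n) x ∈ G := by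
  rw [HL, map_linComb_Sum, lc_apply_Sum, ← linComb_sub_Sum]
  refine linComb_mem_Sum _ hG _ _ fun o ho => ?_
  rw [← neg_sub]
  exact neg_mem (h o ho)

theorem linComb_UF_succ_Sum (H : HF F Ω) (n : ℕ) (x : Inst F Ω →₀ ℚ) :
    lc_Sum (UF H (n + 1)) x = lc_Sum (VF H (n + 1)) x + HL H n (Inst.D x) := by
  have h1 : HL H n (Inst.D x) =
      Finsupp.linearCombination ℚ (fun o : Inst F Ω => HL H n (sgnSum o.DL)) x :=
    map_linComb_Sum (HL H n).toAddMonoidHom (fun o : Inst F Ω => sgnSum o.DL) x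
  rw [h1, lc_apply_Sum, lc_apply_Sum, ← linComb_add_Sum]
  rfl

theorem linComb_VF_cons_Sum (H : HF F Ω) (n : ℕ) (φ : Module.End F Ω) (x : Inst F Ω →₀ ℚ) :
    lc_Sum (VF H (n + 1)) (x.mapDomain (Inst.cons φ)) = pE φ (n + 1) (HL H n x) := by
  rw [lc_apply_Sum, Finsupp.linearCombination_mapDomain, HL, map_linComb_Sum]
  rfl

theorem linComb_VF_base_Sum (H : HF F Ω) (n k : ℕ) (x : Tr (G2 → Ω) k →₀ ℚ) :
    lc_Sum (VF H (n + 1)) (x.mapDomain (Inst.base k : _ → Inst F Ω)) = 0 := by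
  rw [lc_apply_Sum, Finsupp.linearCombination_mapDomain]
  have h : (VF H (n + 1) ∘ (Inst.base k : _ → Inst F Ω)) = fun _ => 0 := rfl
  rw [h]
  simp [Finsupp.linearCombination_apply]

theorem linComb_UF_zero_Sum [Module ℚ (G2 → Ω)] (H : HF F Ω) (x : Tr (G2 → Ω) 0 →₀ ℚ) :
    lc_Sum (UF H 0) (x.mapDomain (Inst.base 0 : _ → Inst F Ω)) =
      red (cst 0 (Finsupp.linearCombination ℚ Tr.val x)) := by
  rw [lc_apply_Sum, Finsupp.linearCombination_mapDomain]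
  exact (map_linComb_Sum ((red : Xq G2 Ω 0 →+ Xq G2 Ω 0).comp (cst 0)) Tr.val x).symm

end General

section Data

variable {F : Type u} [Field F] [CharZero F] {N : ℕ} {C : Ctx F (OmN F N)} {d m : ℕ}
  {A : Inst F (OmN F N) → Subalgebra F (OmN F N)} {E : Finset (Vec N)} {𝒮 : Finset (Sb N)}
  {Ξ : ∀ k, Finset (Fin N) → (Tr (G2 → OmN F N) k →₀ ℚ)}
  {S : SF_Sum (OmN F N)} {H : HF F (OmN F N)}

open Classical in
/-- The family of chains attached to the flats. -/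
def theta_Sum (𝒮 : Finset (Sb N)) (Ξ : ∀ k, Finset (Fin N) → (Tr (G2 → OmN F N) k →₀ ℚ))
    (H : HF F (OmN F N)) (n : ℕ) : Fam F N (n + 1) :=
  Finsupp.onFinset 𝒮 (fun W => if W ∈ 𝒮 then HL H n (Gam F 𝒮 Ξ n W) else 0)
    fun W hW => by
      by_contra h
      exact hW (if_neg h)

theorem theta_pos_Sum {n : ℕ} {W : Sb N} (hW : W ∈ 𝒮) :
    theta_Sum 𝒮 Ξ H n W = HL H n (Gam F 𝒮 Ξ n W) := by
  classical
  rw [theta_Sum, Finsupp.onFinset_apply, if_pos hW]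

theorem theta_neg_Sum {n : ℕ} {W : Sb N} (hW : W ∉ 𝒮) : theta_Sum 𝒮 Ξ H n W = 0 := by
  classical
  rw [theta_Sum, Finsupp.onFinset_apply, if_neg hW]

theorem theta_support_Sum (n : ℕ) : (theta_Sum 𝒮 Ξ H n).support ⊆ 𝒮 :=
  Finsupp.support_onFinset_subset

theorem theta_mem_Sum {n : ℕ} {W : Sb N} (G : AddSubgroup (Xq G2 (OmN F N) (n + 1)))
    (hG : QCl_Sum G)
    (h : ∀ o ∈ (Gam F 𝒮 Ξ n W).support, H n o ∈ G) : theta_Sum 𝒮 Ξ H n W ∈ G := by
  by_cases hW : W ∈ 𝒮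
  · rw [theta_pos_Sum hW]
    exact HL_mem_Sum H G hG _ h
  · rw [theta_neg_Sum hW]
    exact G.zero_mem

theorem qCl_Deg_Sum (W : Sb N) (q : ℕ) : QCl_Sum (Deg F W q) :=
  qCl_of_Sum fun c _ hx => qsmul_mem_Deg c hx

theorem H_mem_CW_Sum (h : SumData C d m A E 𝒮 Ξ) (hP : Pre C S A H m) {n : ℕ} (hn : n < m)
    {o : Inst F (OmN F N)} (ho : C.Valid o) (hl : o.lev = n) {W : Sb N}
    (hK : Inst.LL A o ≤ KW F W) : H n o ∈ CW F W (n + 1) := by
  refine CR_mono ?_ (hP.mem' ho hl hn)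
  intro x hx
  have hx' : x ∈ A o := hx
  refine mem_OW.2 ⟨?_, hK (hP.le_LL o ho (hl ▸ hn) hx')⟩
  rw [← h.std.oh]
  exact hP.le_Oh o ho (hl ▸ hn) hx'

theorem H_mem_CA_Sum (h : SumData C d m A E 𝒮 Ξ) (hP : Pre C S A H m) {n : ℕ} (hn : n < m)
    {o : Inst F (OmN F N)} (ho : C.Valid o) (hl : o.lev = n) {W : Sb N}
    (hK : Inst.LL A o ≤ KW F W) :
    H n o ∈ CR (CA F ((E : Set (Vec N)) ∩ W)).toSubring (n + 1) := by
  refine CR_mono ?_ (hP.mem' ho hl hn)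
  have h1 : A o ≤ CA F ((E : Set (Vec N)) ∩ W) :=
    le_CA_inter (h.ctrl o ho (hl ▸ hn)) fun x hx => hK (hP.le_LL o ho (hl ▸ hn) hx)
  exact fun x hx => h1 hx

theorem theta_YG_Sum (h : SumData C d m A E 𝒮 Ξ) (hP : Pre C S A H m) {n p : ℕ} (hn : n < m)
    (hN : n + p + 2 = N) : YG F (p + 1) (theta_Sum 𝒮 Ξ H n) := by
  intro W
  refine ⟨theta_mem_Sum _ (qCl_CR_Sum _ _) fun o ho => ?_, fun hne => ?_⟩
  · obtain ⟨h1, h2, h3, -⟩ := h.gam_supp hn.le (by omega) ho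
    exact H_mem_CW_Sum h hP hn h1 h2 h3
  · refine AddSubgroup.mem_bot.1 (theta_mem_Sum ⊥ qCl_bot_Sum fun o ho => ?_)
    obtain ⟨-, -, -, h4⟩ := h.gam_supp hn.le (by omega) ho
    exact absurd (by omega) hne

theorem dX_HL_Sum (h : SumData C d m A E 𝒮 Ξ) (hS : IsCompl0 F S) (hP : Pre C S A H m) {n : ℕ}
    (hn : n < m) (hN : n + 1 < N) (W : Sb N) :
    dX _ n (HL H n (Gam F 𝒮 Ξ n W)) - lc_Sum (UF H n) (Gam F 𝒮 Ξ n W) ∈ Deg F W n := by
  refine dX_HL_sub_Sum H _ (qCl_Deg_Sum W n) _ fun o ho => ?_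
  obtain ⟨h1, h2, -, h4⟩ := h.gam_supp hn.le (by omega) ho
  have hW : W ≠ ⊥ := by
    rintro rfl
    rw [finrank_bot] at h4
    omega
  exact const_mem_Deg hW (hS.le n _ (hP.bd' h1 h2 hn)).1

theorem linComb_VF_baseP_Sum (H : HF F (OmN F N)) (n k : ℕ) (W : Sb N) :
    lc_Sum (VF H (n + 1)) (baseP F Ξ k W) = 0 := by
  rw [baseP, map_sum]
  exact Finset.sum_eq_zero fun I _ => linComb_VF_base_Sum H n k _

theorem linComb_VF_Gam_Sum (n : ℕ) (W : Sb N) :
    lc_Sum (VF H (n + 1)) (Gam F 𝒮 Ξ (n + 1) W) = dY F (theta_Sum 𝒮 Ξ H n) W := by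
  classical
  rw [dY_eq_sum _ (theta_support_Sum n), Gam, map_add, linComb_VF_baseP_Sum, add_zero, map_sum]
  refine Finset.sum_congr (by congr) fun W₁ hW₁ => ?_
  rw [map_sub, linComb_VF_cons_Sum, linComb_VF_cons_Sum,
    theta_pos_Sum (Finset.mem_filter.1 hW₁).1]
  rfl

theorem theta_step_Sum (h : SumData C d m A E 𝒮 Ξ) (hS : IsCompl0 F S) (hP : Pre C S A H m)
    {n : ℕ} (hn : n + 1 < m) (hN : n + 2 < N) (W : Sb N) :
    dX _ (n + 1) (theta_Sum 𝒮 Ξ H (n + 1) W) - dY F (theta_Sum 𝒮 Ξ H n) W ∈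
      Deg F W (n + 1) := by
  classical
  by_cases hW : W ∈ 𝒮
  · rw [theta_pos_Sum hW]
    have h1 := dX_HL_Sum h hS hP hn (by omega) W
    rw [linComb_UF_succ_Sum, linComb_VF_Gam_Sum] at h1
    have h2 : HL H n (Inst.D (Gam F 𝒮 Ξ (n + 1) W)) ∈ Deg F W (n + 1) := by
      refine hP.HL_null (by omega) _ (qCl_Deg_Sum W (n + 1) _) ?_
        (h.gam_null (by omega) hN hW)
      rintro o ho hl ⟨W', hW', hK⟩
      exact CW_le_Deg hW' (H_mem_CW_Sum h hP (by omega) ho hl hK)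
    have h3 := add_mem h1 h2
    rwa [sub_add_eq_sub_sub, sub_add_cancel] at h3
  · rw [theta_neg_Sum hW, map_zero, zero_sub, dY_eq_sum _ (theta_support_Sum n)]
    refine neg_mem (sum_mem fun W₁ hW₁ => ?_)
    refine jump_low (Finset.mem_filter.1 hW₁).2 (E := (E : Set (Vec N)))
      (fun he => hW ((h.flat W).2 he)) ?_
    refine theta_mem_Sum _ (qCl_CR_Sum _ _) fun o ho => ?_
    obtain ⟨h1, h2, h3, -⟩ := h.gam_supp (by omega) (by omega) ho
    exact H_mem_CA_Sum h hP (by omega) h1 h2 h3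

theorem theta_last_Sum (h : SumData C d m A E 𝒮 Ξ) (hP : Pre C S A H m) {n : ℕ} (hn : n < m)
    (hN : n < N) (hd : d ≤ n + 1) (W : Sb N) :
    theta_Sum 𝒮 Ξ H n W ∈ CR (⊥ : Subalgebra F (OmN F N)).toSubring (n + 1) := by
  refine theta_mem_Sum _ (qCl_CR_Sum _ _) fun o ho => ?_
  obtain ⟨h1, h2, -, -⟩ := h.gam_supp hn.le hN ho
  by_cases hdeg : Inst.Degen A o
  · have h3 := hP.degen o h1 (h2 ▸ hn) hdeg
    subst h2
    rw [h3]
    exact AddSubgroup.zero_mem _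
  · obtain ⟨h3, h4⟩ := hP.toPreA.rk_le h1 (h2 ▸ hn.le) hdeg
    obtain ⟨I, hI, hGT⟩ := h.std.good _ _ (C.valid_root h1)
    have h5 := hGT.rk_vals hI h3
    have h6 := o.lev_eq
    have h7 : rk F (Inst.LL A o : Set (OmN F N)) + ((n + 1 : ℕ) : ℕ∞) ≤ 0 + ((n + 1 : ℕ) : ℕ∞) := by
      have h8 : ((n + 1 : ℕ) : ℕ∞) = (o.len : ℕ∞) + ((o.root.1 + 1 : ℕ) : ℕ∞) := by
        rw [← Nat.cast_add]
        congr 1
        omega
      calc rk F (Inst.LL A o : Set (OmN F N)) + ((n + 1 : ℕ) : ℕ∞)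
          = rk F (Inst.LL A o : Set (OmN F N)) + (o.len : ℕ∞) + ((o.root.1 + 1 : ℕ) : ℕ∞) := by
            rw [h8, add_assoc]
        _ ≤ rk F (vals o.root.1 o.root.2) + ((o.root.1 + 1 : ℕ) : ℕ∞) := by gcongr
        _ ≤ (d : ℕ∞) := h5
        _ ≤ 0 + ((n + 1 : ℕ) : ℕ∞) := by
            rw [zero_add]
            exact_mod_cast hd
    have h9 : rk F (Inst.LL A o : Set (OmN F N)) = 0 :=
      le_antisymm ((ENat.add_le_add_iff_right (ENat.natCast_ne_top _)).1 h7) zero_le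
    refine CR_mono ?_ (hP.mem' h1 h2 hn)
    intro x hx
    exact mem_bot_of_isAlgebraic
      (isAlgebraic_of_rk_eq_zero h9 (hP.le_LL o h1 (h2 ▸ hn) (show x ∈ A o from hx)))

theorem theta_zero_Sum (h : SumData C d m A E 𝒮 Ξ) (hS : IsCompl0 F S) (hP : Pre C S A H m)
    (hm : 0 < m) (hN : 1 < N) (W : Sb N) :
    dX _ 0 (theta_Sum 𝒮 Ξ H 0 W) - Finsupp.single (WI (Finset.univ : Finset (Fin N)))
      (red (cst 0 (Finsupp.linearCombination ℚ Tr.val (Ξ 0 Finset.univ))) :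
        Xq G2 (OmN F N) 0) W ∈ Deg F W 0 := by
  classical
  by_cases hW : W ∈ 𝒮
  · rw [theta_pos_Sum hW]
    have h1 := dX_HL_Sum h hS hP hm (by omega) W
    have h2 : lc_Sum (UF H 0) (Gam F 𝒮 Ξ 0 W) =
        Finsupp.single (WI (Finset.univ : Finset (Fin N)))
          (red (cst 0 (Finsupp.linearCombination ℚ Tr.val (Ξ 0 Finset.univ))) :
            Xq G2 (OmN F N) 0) W := by
      rw [Gam, baseP, map_sum, Finsupp.single_apply]
      split_ifs with hU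
      · rw [Finset.sum_eq_single Finset.univ, linComb_UF_zero_Sum]
        · intro I hI hne
          exact absurd (Finset.eq_univ_of_card I (by
            have := (Finset.mem_filter.1 hI).2.1
            simpa using this)) hne
        · intro hI
          exact absurd (Finset.mem_filter.2 ⟨Finset.mem_univ _, by simp, hU⟩) hI
      · refine Finset.sum_eq_zero fun I hI => ?_
        have h3 : I = Finset.univ := Finset.eq_univ_of_card I (by
          have := (Finset.mem_filter.1 hI).2.1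
          simpa using this)
        exact absurd (h3 ▸ (Finset.mem_filter.1 hI).2.2) hU
    rwa [h2] at h1
  · rw [theta_neg_Sum hW, map_zero, Finsupp.single_eq_of_ne, sub_zero]
    · exact AddSubgroup.zero_mem _
    · rintro rfl
      exact hW (h.WI_mem _)

theorem exists_control_Sum (hC : IsStd F C d) (hP : PreA C A m) :
    ∃ E : Finset (Vec N), (∀ o, C.Valid o → o.lev < m → A o ≤ CA F (E : Set (Vec N))) ∧
      ∀ a b : Fin N, Pi.single a 1 - Pi.single b 1 ∈ E := by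
  classical
  have h1 : ∀ B : {B | ∃ o, C.Valid o ∧ o.lev < m ∧ B = A o},
      ∃ E : Finset (Vec N), B.1 ≤ CA F (E : Set (Vec N)) := by
    rintro ⟨B, o, ho, hl, rfl⟩
    exact exists_le_CA (hP.fg o ho hl) (hC.oh ▸ hP.le_Oh o ho hl)
  choose e he using h1
  have := hP.finite_A.fintype
  refine ⟨Finset.univ.biUnion e ∪
    Finset.univ.image fun p : Fin N × Fin N => Pi.single p.1 1 - Pi.single p.2 1, ?_, ?_⟩
  · intro o ho hl
    refine (he ⟨A o, o, ho, hl, rfl⟩).trans (CA_mono ?_)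
    intro x hx
    exact Finset.mem_coe.2 (Finset.mem_union_left _
      (Finset.mem_biUnion.2 ⟨_, Finset.mem_univ _, hx⟩))
  · intro a b
    exact Finset.mem_union_right _ (Finset.mem_image.2 ⟨(a, b), Finset.mem_univ _, rfl⟩)

theorem exists_ctx_Sum (hL : IsLift F d Ξ) : ∃ C : Ctx F (OmN F N), IsStd F C d ∧
    ∀ k I, I.card + k = N → I.Nonempty → ∀ b ∈ (Ξ k I).support, b ∈ C.BB k := by
  obtain ⟨C, hC, hB⟩ := exists_ctx (F := F) (d := d) (m := N)
    (fun k => {b | ∃ I : Finset (Fin N), I.card + k = N ∧ I.Nonempty ∧ b ∈ (Ξ k I).support})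
    (fun k => (Set.finite_iUnion fun I : Finset (Fin N) => (Ξ k I).support.finite_toSet).subset
      fun b ⟨I, _, _, hb⟩ => Set.mem_iUnion.2 ⟨I, hb⟩)
    (fun k hk => Set.eq_empty_of_forall_notMem fun b ⟨I, h1, h2, _⟩ => by
      have := h2.card_pos
      omega)
    fun k b ⟨I, h1, h2, hb⟩ => ⟨I, h2, hL.good k I h1 h2 b hb⟩
  exact ⟨C, hC, fun k I h1 h2 b hb => hB k ⟨I, h1, h2, hb⟩⟩

end Data

theorem ynull_tree {F : Type u} [Field F] [CharZero F] {j : ℕ} {ξ : Xq G2 F (j + 1)}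
    (hξ : ξ ∈ ChD G2 F (j + 1) (j + 1)) (hr : Red ξ)
    (hn : ∀ i : Fin (j + 2), act F i.succAbove ξ = 0) :
    Ynull F (j + 1) 0 (Finsupp.single (WI (Finset.univ : Finset (Fin (j + 2))))
      (pushR (emb F (id : Fin (j + 2) → Fin (j + 2))).toRingHom 0 (cst 0 ξ))) := by
  obtain ⟨Ξ, hL, hΞ⟩ := exists_lifts hξ hn
  obtain ⟨C, hC, hB⟩ := exists_ctx_Sum hL
  obtain ⟨S, A, H, hS, hP⟩ := exists_pre C (j + 1)
  obtain ⟨E, hE, hE'⟩ := exists_control_Sum hC hP.toPreA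
  obtain ⟨𝒮, h𝒮⟩ := exists_flats E
  have h : SumData C (j + 1) (j + 1) A E 𝒮 Ξ := ⟨hC, hP.toPreA, hL, hB, hE, hE', h𝒮⟩
  refine ynull_of_stair (theta_Sum 𝒮 Ξ H) (fun n p hnp => ?_) (fun n hn W => ?_)
    (fun W => ?_) fun W => ?_
  · exact theta_YG_Sum h hP (by omega) (by omega)
  · exact theta_step_Sum h hS hP (by omega) (by omega) W
  · exact theta_last_Sum h hP (by omega) (by omega) le_rfl W
  · have h1 := theta_zero_Sum h hS hP (by omega) (by omega) W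
    have h2 : (red (cst 0 (Finsupp.linearCombination ℚ Tr.val (Ξ 0 Finset.univ))) :
        Xq G2 (OmN F (j + 2)) 0) =
        pushR (emb F (id : Fin (j + 2) → Fin (j + 2))).toRingHom 0 (cst 0 ξ) := by
      rw [hΞ, ← cst_red, (hr.comp (emb F (id : Fin (j + 2) → Fin (j + 2))) (map_zero _)).red_eq,
        push_cst]
      rfl
    rwa [h2] at h1

end

end Pool.Agent.MP_e2821c_ag.Dg
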