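import Pool.Agent.Lib.MP_e2821c_ag.Dg.CoreF
import Pool.Agent.Lib.MP_e2821c_ag.Dg.RootSet
import Pool.Agent.Lib.MP_e2821c_ag.Dg.FaceW
import Pool.Agent.Lib.MP_e2821c_ag.Dg.Planar

namespace Pool.Agent.MP_e2821c_ag.Dg

open MvPolynomial

universe u v w

noncomputable section

/-- The data entering the sum over flags. -/
structure SumData {F : Type u} [Field F] [CharZero F] {N : ℕ} (C : Ctx F (OmN F N)) (d m : ℕ)
    (A : Inst F (OmN F N) → Subalgebra F (OmN F N)) (E : Finset (Vec N)) (𝒮 : Finset (Sb N))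
    (Ξ : ∀ k, Finset (Fin N) → (Tr (G2 → OmN F N) k →₀ ℚ)) : Prop where
  std : IsStd F C d
  pre : PreA C A m
  lift : IsLift F d Ξ
  mem : ∀ k I, I.card + k = N → I.Nonempty → ∀ b ∈ (Ξ k I).support, b ∈ C.BB k
  ctrl : ∀ o, C.Valid o → o.lev < m → A o ≤ CA F (E : Set (Vec N))
  edge : ∀ a b : Fin N, Pi.single a 1 - Pi.single b 1 ∈ E
  flat : ∀ W, W ∈ 𝒮 ↔ Submodule.span ℚ ((E : Set (Vec N)) ∩ W) = W

/-- Instances defined over a proper subspace. -/
def Low {F : Type u} [Field F] {N : ℕ} (A : Inst F (OmN F N) → Subalgebra F (OmN F N))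
    (W : Sb N) (o : Inst F (OmN F N)) : Prop := ∃ W' < W, Inst.LL A o ≤ KW F W'

variable {F : Type u} [Field F] [CharZero F] {N : ℕ} {C : Ctx F (OmN F N)} {d m : ℕ}
  {A : Inst F (OmN F N) → Subalgebra F (OmN F N)} {E : Finset (Vec N)} {𝒮 : Finset (Sb N)}
  {Ξ : ∀ k, Finset (Fin N) → (Tr (G2 → OmN F N) k →₀ ℚ)}

theorem exists_flats (E : Finset (Vec N)) :
    ∃ 𝒮 : Finset (Sb N), ∀ W, W ∈ 𝒮 ↔ Submodule.span ℚ ((E : Set (Vec N)) ∩ W) = W := by
  classical
  refine ⟨(E.powerset.image fun s : Finset (Vec N) => Submodule.span ℚ (s : Set (Vec N))).filter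
    fun W => Submodule.span ℚ ((E : Set (Vec N)) ∩ W) = W, fun W => ?_⟩
  rw [Finset.mem_filter]
  refine ⟨fun h => h.2, fun h => ⟨?_, h⟩⟩
  refine Finset.mem_image.2 ⟨E.filter fun x => x ∈ W, Finset.mem_powerset.2
    (Finset.filter_subset _ _), ?_⟩
  rw [Finset.coe_filter]
  exact h

theorem SumData.WI_mem (h : SumData C d m A E 𝒮 Ξ) (I : Finset (Fin N)) : WI I ∈ 𝒮 := by
  rw [h.flat]
  refine le_antisymm (Submodule.span_le.2 Set.inter_subset_right) ?_
  refine Submodule.span_le.2 ?_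
  rintro x ⟨a, ha, b, hb, rfl⟩
  exact Submodule.subset_span ⟨h.edge a b, Submodule.subset_span ⟨a, ha, b, hb, rfl⟩⟩

omit [CharZero F] in
theorem mem_support_mapDomain_SumA {α β : Type u} {f : α → β} {c : α →₀ ℚ} {y : β}
    (h : y ∈ (c.mapDomain f).support) : ∃ x ∈ c.support, f x = y := by
  classical
  simpa using Finsupp.mapDomain_support h

omit [CharZero F] in
theorem mapDomain_mem_SumA {α β : Type u} {f : α → β} {c : α →₀ ℚ} {S : Submodule ℚ (β →₀ ℚ)}
    (h : ∀ x ∈ c.support, Finsupp.single (f x) (1 : ℚ) ∈ S) : c.mapDomain f ∈ S := by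
  rw [Finsupp.mapDomain, Finsupp.sum]
  refine S.sum_mem fun x hx => ?_
  have h1 : Finsupp.single (f x) (c x) = c x • Finsupp.single (f x) (1 : ℚ) := by
    rw [Finsupp.smul_single, smul_eq_mul, mul_one]
  rw [h1]
  exact S.smul_mem _ (h x hx)

theorem SumData.res_mem_SumA (h : SumData C d m A E 𝒮 Ξ) (w : Fn N) : res F w ∈ C.EE := by
  rw [h.std.ee]; exact res_mem_EE w

theorem SumData.LL_cons_SumA (h : SumData C d m A E 𝒮 Ξ) {W : Sb N} (w : Fn N)
    {o : Inst F (OmN F N)} (ho : C.Valid o) (hl : o.lev < m) (hK : Inst.LL A o ≤ KW F W) :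
    Inst.LL A (.cons (res F w) o) ≤ KW F (W ⊓ LinearMap.ker w) := by
  refine IntermediateField.adjoin_le_iff.2 ?_
  rintro _ ⟨a, ha, rfl⟩
  have h1 : a ∈ Oh F N := by
    have := h.pre.le_Oh o ho hl ha
    rwa [h.std.oh] at this
  have h2 : a ∈ KW F W := hK (h.pre.le_LL o ho hl ha)
  exact (mem_OW.1 (res_mem_OW w (mem_OW.2 ⟨h1, h2⟩))).2

theorem SumData.base_supp_SumA (h : SumData C d m A E 𝒮 Ξ) {n : ℕ} (hN : n < N)
    {W : Sb N} {o : Inst F (OmN F N)} (ho : o ∈ (baseP F Ξ n W).support) :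
    C.Valid o ∧ o.lev = n ∧ Inst.LL A o ≤ KW F W ∧ Module.finrank ℚ W + n + 1 = N := by
  classical
  rw [baseP] at ho
  obtain ⟨I, hI, ho⟩ := Finsupp.mem_support_finsetSum _ ho
  obtain ⟨-, hc, hW⟩ := Finset.mem_filter.1 hI
  obtain ⟨b, hb, rfl⟩ := mem_support_mapDomain_SumA ho
  have hne : I.Nonempty := Finset.card_pos.1 (by omega)
  refine ⟨h.mem n I hc hne b hb, rfl, ?_, ?_⟩
  · refine IntermediateField.adjoin_le_iff.2 fun x hx => ?_
    have h1 := (h.lift.good n I hc hne b hb).vals_subset hx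
    rw [← hW]
    exact (mem_OW.1 (PI_le_OW I h1)).2
  · have := finrank_WI hne
    rw [hW] at this
    omega

theorem SumData.gam_supp (h : SumData C d m A E 𝒮 Ξ) {n : ℕ} (hn : n ≤ m) (hN : n < N)
    {W : Sb N} {o : Inst F (OmN F N)} (ho : o ∈ (Gam F 𝒮 Ξ n W).support) :
    C.Valid o ∧ o.lev = n ∧ Inst.LL A o ≤ KW F W ∧ Module.finrank ℚ W + n + 1 = N := by
  classical
  induction n generalizing W o with
  | zero => exact h.base_supp_SumA hN ho
  | succ n ih =>
    rw [Gam] at ho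
    rcases Finset.mem_union.1 (Finsupp.support_add ho) with ho | ho
    · obtain ⟨W₁, hW₁, ho⟩ := Finsupp.mem_support_finsetSum _ ho
      have hyp : Hyp W W₁ := (Finset.mem_filter.1 hW₁).2
      have key : ∀ w : Fn N, W₁ ⊓ LinearMap.ker w = W →
          o ∈ ((Gam F 𝒮 Ξ n W₁).mapDomain (Inst.cons (res F w))).support →
          C.Valid o ∧ o.lev = n + 1 ∧ Inst.LL A o ≤ KW F W ∧
            Module.finrank ℚ W + (n + 1) + 1 = N := by
        intro w hw ho
        obtain ⟨o₁, ho₁, rfl⟩ := mem_support_mapDomain_SumA ho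
        obtain ⟨h1, h2, h3, h4⟩ := ih (by omega) (by omega) ho₁
        refine ⟨⟨h.res_mem_SumA w, h1⟩, congrArg (· + 1) h2, ?_, ?_⟩
        · rw [← hw]
          exact h.LL_cons_SumA w h1 (by omega) h3
        · have := hyp.2
          omega
      rcases Finset.mem_union.1 (Finsupp.support_sub ho) with ho | ho
      · exact key _ hyp.inf_ker ho
      · exact key _ hyp.inf_ker_neg ho
    · exact h.base_supp_SumA hN ho

theorem SumData.low_cons (h : SumData C d m A E 𝒮 Ξ) {W W' : Sb N} (hW : Hyp W' W) {w : Fn N}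
    (hw : W ⊓ LinearMap.ker w = W') {o : Inst F (OmN F N)} (ho : C.Valid o) (hl : o.lev < m)
    (hlow : Low A W o) :
    Inst.Degen A (.cons (res F w) o) ∨ Low A W' (.cons (res F w) o) := by
  obtain ⟨W₁, hlt, hK⟩ := hlow
  by_cases hk : W₁ ≤ LinearMap.ker w
  · refine Or.inl (Or.inr fun a ha b hb hab => ?_)
    rwa [res_eq_self hk (hK (h.pre.le_LL o ho hl ha)),
      res_eq_self hk (hK (h.pre.le_LL o ho hl hb))] at hab
  · refine Or.inr ⟨W₁ ⊓ LinearMap.ker w, lt_of_le_of_ne ?_ fun he => hk ?_,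
      h.LL_cons_SumA w ho hl hK⟩
    · rw [← hw]
      exact inf_le_inf_right _ hlt.le
    · have h1 : W₁ = W' := hW.eq_of_le_of_lt (he ▸ inf_le_left) hlt
      rw [h1, ← hw]
      exact inf_le_right

open Classical in
theorem SumData.middle (h : SumData C d m A E 𝒮 Ξ) {W W'' : Sb N} (hW'' : W'' ∈ 𝒮)
    {o : Inst F (OmN F N)} (ho : C.Valid o) (hl : o.lev < m) (hK : Inst.LL A o ≤ KW F W) :
    ∑ W' ∈ 𝒮.filter (fun W' => Hyp W'' W' ∧ Hyp W' W),
      (Finsupp.single (Inst.cons (res F (cut W' W'') * res F (cut W W')) o) (1 : ℚ) -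
        Finsupp.single (Inst.cons (res F (-cut W' W'') * res F (cut W W')) o) 1 -
        Finsupp.single (Inst.cons (res F (cut W' W'') * res F (-cut W W')) o) 1 +
        Finsupp.single (Inst.cons (res F (-cut W' W'') * res F (-cut W W')) o) 1) ∈
      NullSpan C A (fun _ => False) (o.lev + 1) := by
  rcases (𝒮.filter (fun W' => Hyp W'' W' ∧ Hyp W' W)).eq_empty_or_nonempty with he | ⟨W₀, hW₀⟩
  · rw [he, Finset.sum_empty]
    exact zero_mem _
  obtain ⟨-, h01, h02⟩ := Finset.mem_filter.1 hW₀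
  have hle : W'' ≤ W := h01.1.trans h02.1
  have hd : Module.finrank ℚ W = Module.finrank ℚ W'' + 2 := by rw [h02.2, h01.2]
  have hA : A o ≤ CA F ((E : Set (Vec N)) ∩ W) :=
    le_CA_inter (h.ctrl o ho hl) fun a ha => hK (h.pre.le_LL o ho hl ha)
  have hp := planar (G := (Inst F (OmN F N) →₀ ℚ) ⧸ NullSpan C A (fun _ => False) (o.lev + 1))
    hle hd (E : Set (Vec N)) (𝒮.filter (fun W' => Hyp W'' W' ∧ Hyp W' W))
    (fun W' hW' => (Finset.mem_filter.1 hW').2) ?_
    (fun w₁ w₂ => (NullSpan C A (fun _ => False) (o.lev + 1)).mkQ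
      (Finsupp.single (Inst.cons (res F w₂ * res F w₁) o) 1)) ?_
  · rw [← Submodule.Quotient.mk_eq_zero, ← Submodule.mkQ_apply, map_sum, ← hp]
    refine Finset.sum_congr rfl fun W' _ => ?_
    rw [map_add, map_sub, map_sub]
  · intro e heE heW he
    have hy := hyp_sup_span he
    refine Finset.mem_filter.2 ⟨?_, hy, ?_, ?_⟩
    · rw [h.flat]
      refine le_antisymm (Submodule.span_le.2 Set.inter_subset_right) (sup_le ?_ ?_)
      · refine ((h.flat W'').1 hW'').symm.le.trans (Submodule.span_mono ?_)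
        exact Set.inter_subset_inter_right _ (SetLike.coe_subset_coe.2 le_sup_left)
      · refine Submodule.span_mono (Set.singleton_subset_iff.2 ⟨heE, ?_⟩)
        exact Submodule.mem_sup_right (Submodule.mem_span_singleton_self e)
    · exact sup_le hle ((Submodule.span_singleton_le_iff_mem e W).2 heW)
    · rw [hd, hy.2]
  · intro w₁ w₂ w₁' w₂' hs
    rw [Submodule.mkQ_apply, Submodule.mkQ_apply, Submodule.Quotient.eq]
    refine Submodule.subset_span (Or.inr ⟨_, _, ?_, ?_, rfl, ?_, rfl⟩)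
    · exact ⟨mul_mem (h.res_mem_SumA _) (h.res_mem_SumA _), ho⟩
    · exact ⟨mul_mem (h.res_mem_SumA _) (h.res_mem_SumA _), ho⟩
    · refine tp_cons_of_eqOn fun a ha => ?_
      exact res_res_congr (fun e he => hs e he.1 he.2) (hA ha)

theorem SumData.low_base_SumA (h : SumData C d m A E 𝒮 Ξ) {n : ℕ} {W' : Sb N}
    {J : Finset (Fin N)} (hJ : J.card + n = N) (hne : J.Nonempty) {w : Fn N}
    (hw : WI (amin J w) < W') :
    ((Ξ n J).mapDomain (tact (res F w) n)).mapDomain (Inst.base n) ∈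
      NullSpan C A (Low A W') n := by
  rw [← Finsupp.mapDomain_comp]
  refine mapDomain_mem_SumA fun b hb => Submodule.subset_span (Or.inl ⟨_, ?_, rfl, Or.inr ?_, rfl⟩)
  · exact C.bact n b (h.mem n J hJ hne b hb) _ (h.res_mem_SumA w)
  · refine ⟨_, hw, IntermediateField.adjoin_le_iff.2 fun x hx => ?_⟩
    change x ∈ vals n (tact (res F w) n b) at hx
    rw [vals_tact] at hx
    obtain ⟨y, hy, rfl⟩ := hx
    exact (mem_OW.1 (PI_le_OW _
      (res_mem_PI w ((h.lift.good n J hJ hne b hb).vals_subset hy)))).2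

theorem SumData.tact_eq_SumA (h : SumData C d m A E 𝒮 Ξ) {n : ℕ}
    {J : Finset (Fin N)} (hJ : J.card + n = N) (hne : J.Nonempty) {w w' : Fn N}
    (hw : amin J w = amin J w') :
    (Ξ n J).mapDomain (tact (res F w) n) = (Ξ n J).mapDomain (tact (res F w') n) := by
  refine Finsupp.mapDomain_congr fun b hb => tact_congr fun x hx => ?_
  exact res_congr_PI hw ((h.lift.good n J hJ hne b hb).vals_subset hx)

open Classical in
theorem SumData.facet_SumA (h : SumData C d m A E 𝒮 Ξ) {n : ℕ} {W' : Sb N} (hW : W' ≠ ⊥)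
    (hd : Module.finrank ℚ W' + n + 2 = N) {J : Finset (Fin N)} (hJ : J.card + n = N)
    (hy : Hyp W' (WI J)) :
    ∑ i ∈ J.filter (fun i => WI (J.erase i) = W'), epsI (J.erase i) i •
        ((Ξ n J).mapDomain (tact (res F (crd i)) n)).mapDomain (Inst.base n) -
      (((Ξ n J).mapDomain (tact (res F (cut (WI J) W')) n)).mapDomain (Inst.base n) -
        ((Ξ n J).mapDomain (tact (res F (-cut (WI J) W')) n)).mapDomain (Inst.base n)) ∈
      NullSpan C A (Low A W') n := by
  have hpos : 0 < Module.finrank ℚ W' := by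
    rw [Nat.pos_iff_ne_zero]
    intro h0
    exact hW (Submodule.finrank_eq_zero.1 h0)
  have hne : J.Nonempty := Finset.card_pos.1 (by omega)
  rcases (J.filter (fun i => WI (J.erase i) = W')).eq_empty_or_nonempty with he | ⟨i, hi⟩
  · have hlow : ∀ w : Fn N, WI J ⊓ LinearMap.ker w = W' → WI (amin J w) < W' := by
      intro w hw
      rcases amin_cases hne hy hw with h1 | ⟨i, hi, -, h2⟩
      · exact h1
      · have : i ∈ J.filter (fun i => WI (J.erase i) = W') := Finset.mem_filter.2 ⟨hi, h2.symm⟩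
        rw [he] at this
        exact absurd this (Finset.notMem_empty i)
    rw [he, Finset.sum_empty, zero_sub]
    exact neg_mem (sub_mem (h.low_base_SumA hJ hne (hlow _ hy.inf_ker))
      (h.low_base_SumA hJ hne (hlow _ hy.inf_ker_neg)))
  obtain ⟨hiJ, hiW⟩ := Finset.mem_filter.1 hi
  have hcard : (J.erase i).card + 1 = J.card := Finset.card_erase_add_one hiJ
  have hsing : J.filter (fun i => WI (J.erase i) = W') = {i} := by
    refine Finset.eq_singleton_iff_unique_mem.2 ⟨hi, fun i' hi' => ?_⟩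
    obtain ⟨hi'J, hi'W⟩ := Finset.mem_filter.1 hi'
    by_contra hne'
    have h1 : J.erase i ⊆ J.erase i' := subset_of_WI_le (by omega) (hiW.trans hi'W.symm).le
    have h2 := h1 (Finset.mem_erase.2 ⟨hne', hi'J⟩)
    exact (Finset.mem_erase.1 h2).1 rfl
  rw [hsing, Finset.sum_singleton]
  obtain ⟨I, hI⟩ : ∃ I, I = J.erase i := ⟨_, rfl⟩
  have hiI : i ∉ I := hI ▸ Finset.notMem_erase i J
  have hJI : J = insert i I := by rw [hI, Finset.insert_erase hiJ]
  have hIne : I.Nonempty := Finset.card_pos.1 (by rw [hI]; omega)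
  rw [← hI] at hiW ⊢
  subst hJI
  subst hiW
  have hbot : WI ({i} : Finset (Fin N)) < WI I := by
    rw [WI_singleton]
    exact bot_lt_iff_ne_bot.2 hW
  rcases epsI_cases hIne hiI with he | he
  · obtain ⟨h1, h2⟩ := amin_cut_pos hIne hiI he
    rw [he, one_smul, h.tact_eq_SumA hJ hne ((amin_crd hIne hiI).trans h1.symm), sub_sub_cancel]
    exact h.low_base_SumA hJ hne (h2.symm ▸ hbot)
  · obtain ⟨h1, h2⟩ := amin_cut_neg hIne hiI he
    rw [he, neg_one_smul, h.tact_eq_SumA hJ hne ((amin_crd hIne hiI).trans h2.symm),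
      show ∀ x y : Inst F (OmN F N) →₀ ℚ, -x - (y - x) = -y from fun x y => by abel]
    exact neg_mem (h.low_base_SumA hJ hne (h1.symm ▸ hbot))

open Classical in
theorem SumData.first (h : SumData C d m A E 𝒮 Ξ) {n : ℕ} {W' : Sb N} (hW : W' ≠ ⊥)
    (hd : Module.finrank ℚ W' + n + 2 = N) :
    Inst.D (baseP F Ξ (n + 1) W') - ∑ W ∈ 𝒮.filter (fun W => Hyp W' W),
      ((baseP F Ξ n W).mapDomain (Inst.smul (res F (cut W W'))) -
        (baseP F Ξ n W).mapDomain (Inst.smul (res F (-cut W W')))) ∈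
      NullSpan C A (Low A W') n := by
  have h1 : Inst.D (baseP F Ξ (n + 1) W') =
      ∑ J ∈ Finset.univ.filter (fun J : Finset (Fin N) => J.card + n = N ∧ Hyp W' (WI J)),
        ∑ i ∈ J.filter (fun i => WI (J.erase i) = W'), epsI (J.erase i) i •
          ((Ξ n J).mapDomain (tact (res F (crd i)) n)).mapDomain (Inst.base n) := by
    have h2 : Inst.D (baseP F Ξ (n + 1) W') =
        ∑ I ∈ Finset.univ.filter (fun I : Finset (Fin N) => I.card + (n + 1) = N ∧ WI I = W'),
          ∑ i ∈ Iᶜ, epsI I i •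
            ((Ξ n (insert i I)).mapDomain (tact (res F (crd i)) n)).mapDomain (Inst.base n) := by
      rw [baseP, map_sum]
      refine Finset.sum_congr rfl fun I hI => ?_
      obtain ⟨-, hc, -⟩ := Finset.mem_filter.1 hI
      rw [Inst.D_base_succ, h.lift.step n I hc (Finset.card_pos.1 (by omega)),
        Finsupp.mapDomain_finsetSum]
      refine Finset.sum_congr rfl fun i _ => ?_
      rw [Finsupp.mapDomain_smul]
    rw [h2, Finset.sum_sigma', Finset.sum_sigma']
    refine Finset.sum_bij' (fun x _ => ⟨insert x.2 x.1, x.2⟩) (fun y _ => ⟨y.1.erase y.2, y.2⟩)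
      ?_ ?_ ?_ ?_ ?_
    · rintro ⟨I, i⟩ hx
      obtain ⟨hI, hi⟩ := Finset.mem_sigma.1 hx
      obtain ⟨-, hc, hWI⟩ := Finset.mem_filter.1 hI
      have hi' : i ∉ I := Finset.mem_compl.1 hi
      have hc' : I.card + (n + 1) = N := hc
      have hWI' : WI I = W' := hWI
      refine Finset.mem_sigma.2 ⟨Finset.mem_filter.2 ⟨Finset.mem_univ _, ?_, ?_⟩,
        Finset.mem_filter.2 ⟨Finset.mem_insert_self _ _, ?_⟩⟩
      · change (insert i I).card + n = N
        rw [Finset.card_insert_of_notMem hi']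
        omega
      · change Hyp W' (WI (insert i I))
        rw [← hWI']
        exact hyp_WI (Finset.card_pos.1 (by omega)) hi'
      · change WI ((insert i I).erase i) = W'
        rw [Finset.erase_insert hi', hWI']
    · rintro ⟨J, i⟩ hy
      obtain ⟨hJ, hi⟩ := Finset.mem_sigma.1 hy
      obtain ⟨-, hc, -⟩ := Finset.mem_filter.1 hJ
      obtain ⟨hi1, hi2⟩ := Finset.mem_filter.1 hi
      have hc' : J.card + n = N := hc
      have hi1' : i ∈ J := hi1
      refine Finset.mem_sigma.2 ⟨Finset.mem_filter.2 ⟨Finset.mem_univ _, ?_, hi2⟩,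
        Finset.mem_compl.2 (Finset.notMem_erase _ _)⟩
      change (J.erase i).card + (n + 1) = N
      have := Finset.card_erase_add_one hi1'
      omega
    · rintro ⟨I, i⟩ hx
      have hi' : i ∉ I := Finset.mem_compl.1 (Finset.mem_sigma.1 hx).2
      change (⟨(insert i I).erase i, i⟩ : Σ _ : Finset (Fin N), Fin N) = ⟨I, i⟩
      rw [Finset.erase_insert hi']
    · rintro ⟨J, i⟩ hy
      have hi1 : i ∈ J := (Finset.mem_filter.1 (Finset.mem_sigma.1 hy).2).1
      change (⟨insert i (J.erase i), i⟩ : Σ _ : Finset (Fin N), Fin N) = ⟨J, i⟩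
      rw [Finset.insert_erase hi1]
    · rintro ⟨I, i⟩ hx
      have hi' : i ∉ I := Finset.mem_compl.1 (Finset.mem_sigma.1 hx).2
      change epsI I i • _ = epsI ((insert i I).erase i) i • _
      rw [Finset.erase_insert hi']
  have h3 : ∑ W ∈ 𝒮.filter (fun W => Hyp W' W),
      ((baseP F Ξ n W).mapDomain (Inst.smul (res F (cut W W'))) -
        (baseP F Ξ n W).mapDomain (Inst.smul (res F (-cut W W')))) =
      ∑ J ∈ Finset.univ.filter (fun J : Finset (Fin N) => J.card + n = N ∧ Hyp W' (WI J)),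
        (((Ξ n J).mapDomain (tact (res F (cut (WI J) W')) n)).mapDomain (Inst.base n) -
          ((Ξ n J).mapDomain (tact (res F (-cut (WI J) W')) n)).mapDomain (Inst.base n)) := by
    rw [← Finset.sum_fiberwise_of_maps_to (t := 𝒮.filter (fun W => Hyp W' W)) (g := WI)
      (fun J hJ => Finset.mem_filter.2 ⟨h.WI_mem J, (Finset.mem_filter.1 hJ).2.2⟩)]
    refine Finset.sum_congr rfl fun W hW₁ => ?_
    have hy : Hyp W' W := (Finset.mem_filter.1 hW₁).2
    rw [baseP, Finsupp.mapDomain_finsetSum, Finsupp.mapDomain_finsetSum, ← Finset.sum_sub_distrib]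
    refine Finset.sum_congr ?_ fun J hJ => ?_
    · ext J
      simp only [Finset.mem_filter, Finset.mem_univ, true_and]
      constructor
      · rintro ⟨hc, rfl⟩
        exact ⟨⟨hc, hy⟩, rfl⟩
      · rintro ⟨⟨hc, -⟩, h2⟩
        exact ⟨hc, h2⟩
    · rw [(Finset.mem_filter.1 hJ).2]
      simp only [← Finsupp.mapDomain_comp]
      rfl
  rw [h1, h3, ← Finset.sum_sub_distrib]
  refine Submodule.sum_mem _ fun J hJ => ?_
  obtain ⟨-, hc, hy⟩ := Finset.mem_filter.1 hJ
  exact h.facet_SumA hW hd hc hy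

end

end Pool.Agent.MP_e2821c_ag.Dg
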