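import Pool.Agent.Lib.MP_e2821c_ag.Dg.SumA

namespace Pool.Agent.MP_e2821c_ag.Dg

open MvPolynomial

universe u v w

noncomputable section

variable {F : Type u} [Field F] [CharZero F] {N : ℕ} {C : Ctx F (OmN F N)} {d m : ℕ}
  {A : Inst F (OmN F N) → Subalgebra F (OmN F N)} {E : Finset (Vec N)} {𝒮 : Finset (Sb N)}
  {Ξ : ∀ k, Finset (Fin N) → (Tr (G2 → OmN F N) k →₀ ℚ)}

/-- The signed pair of `cons` operators along a hyperplane. -/
def cns_SumB (F : Type u) [Field F] {N : ℕ} (W W' : Sb N) :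
    (Inst F (OmN F N) →₀ ℚ) →ₗ[ℚ] (Inst F (OmN F N) →₀ ℚ) :=
  Finsupp.lmapDomain ℚ ℚ (Inst.cons (res F (cut W W'))) -
    Finsupp.lmapDomain ℚ ℚ (Inst.cons (res F (-cut W W')))

/-- The signed pair of `smul` operators along a hyperplane. -/
def sms_SumB (F : Type u) [Field F] {N : ℕ} (W W' : Sb N) :
    (Inst F (OmN F N) →₀ ℚ) →ₗ[ℚ] (Inst F (OmN F N) →₀ ℚ) :=
  Finsupp.lmapDomain ℚ ℚ (Inst.smul (res F (cut W W'))) -
    Finsupp.lmapDomain ℚ ℚ (Inst.smul (res F (-cut W W')))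

omit [CharZero F] in
theorem cns_apply_SumB (W W' : Sb N) (c : Inst F (OmN F N) →₀ ℚ) :
    cns_SumB F W W' c = c.mapDomain (Inst.cons (res F (cut W W'))) -
      c.mapDomain (Inst.cons (res F (-cut W W'))) := rfl

omit [CharZero F] in
theorem sms_apply_SumB (W W' : Sb N) (c : Inst F (OmN F N) →₀ ℚ) :
    sms_SumB F W W' c = c.mapDomain (Inst.smul (res F (cut W W'))) -
      c.mapDomain (Inst.smul (res F (-cut W W'))) := rfl

omit [CharZero F] in
theorem D_cns_SumB (W W' : Sb N) (c : Inst F (OmN F N) →₀ ℚ) :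
    Inst.D (cns_SumB F W W' c) = -sms_SumB F W W' c - cns_SumB F W W' (Inst.D c) := by
  rw [cns_apply_SumB, cns_apply_SumB, sms_apply_SumB, map_sub, Inst.D_cons, Inst.D_cons]
  abel

omit [CharZero F] in
open Classical in
theorem gam_succ_SumB (n : ℕ) (W' : Sb N) :
    Gam F 𝒮 Ξ (n + 1) W' = ∑ W ∈ 𝒮.filter (fun W => Hyp W' W),
      cns_SumB F W W' (Gam F 𝒮 Ξ n W) + baseP F Ξ (n + 1) W' := by
  rw [Gam]
  rfl

omit [CharZero F] in
theorem D_baseP_zero_SumB (W : Sb N) : Inst.D (baseP F Ξ 0 W) = 0 := by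
  unfold baseP
  rw [map_sum]
  exact Finset.sum_eq_zero fun I _ => Inst.D_base_zero _

omit [CharZero F] in
theorem sms_cns_single_SumB (W W' W'' : Sb N) (o : Inst F (OmN F N)) :
    sms_SumB F W' W'' (cns_SumB F W W' (Finsupp.single o 1)) =
      Finsupp.single (Inst.cons (res F (cut W' W'') * res F (cut W W')) o) (1 : ℚ) -
        Finsupp.single (Inst.cons (res F (-cut W' W'') * res F (cut W W')) o) 1 -
        Finsupp.single (Inst.cons (res F (cut W' W'') * res F (-cut W W')) o) 1 +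
        Finsupp.single (Inst.cons (res F (-cut W' W'') * res F (-cut W W')) o) 1 := by
  rw [cns_apply_SumB, Finsupp.mapDomain_single, Finsupp.mapDomain_single, map_sub,
    sms_apply_SumB, sms_apply_SumB, Finsupp.mapDomain_single, Finsupp.mapDomain_single,
    Finsupp.mapDomain_single, Finsupp.mapDomain_single]
  simp only [Inst.smul]
  abel

theorem map_mem_of_support_SumB {α : Type u} {M : Type u} [AddCommGroup M] [Module ℚ M]
    (T : (α →₀ ℚ) →ₗ[ℚ] M) (S : Submodule ℚ M) (c : α →₀ ℚ)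
    (h : ∀ o ∈ c.support, T (Finsupp.single o 1) ∈ S) : T c ∈ S := by
  have hc : c = ∑ o ∈ c.support, c o • Finsupp.single o (1 : ℚ) := by
    conv_lhs => rw [← Finsupp.sum_single c]
    simp [Finsupp.sum]
  rw [hc, map_sum]
  refine S.sum_mem fun o ho => ?_
  rw [map_smul]
  exact S.smul_mem _ (h o ho)

open Classical in
theorem SumData.mid_SumB (h : SumData C d m A E 𝒮 Ξ) {k : ℕ} (hk : k < m) (hN : k < N)
    {W'' : Sb N} (hW'' : W'' ∈ 𝒮) :
    ∑ W' ∈ 𝒮.filter (fun W' => Hyp W'' W'), ∑ W ∈ 𝒮.filter (fun W => Hyp W' W),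
      sms_SumB F W' W'' (cns_SumB F W W' (Gam F 𝒮 Ξ k W)) ∈
      NullSpan C A (Low A W'') (k + 1) := by
  have e : ∑ W' ∈ 𝒮.filter (fun W' => Hyp W'' W'), ∑ W ∈ 𝒮.filter (fun W => Hyp W' W),
      sms_SumB F W' W'' (cns_SumB F W W' (Gam F 𝒮 Ξ k W)) =
      ∑ W ∈ 𝒮, ∑ W' ∈ 𝒮.filter (fun W' => Hyp W'' W' ∧ Hyp W' W),
        sms_SumB F W' W'' (cns_SumB F W W' (Gam F 𝒮 Ξ k W)) := by
    refine Finset.sum_comm' fun W' W => ?_
    simp only [Finset.mem_filter]
    tauto
  rw [e]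
  refine Submodule.sum_mem _ fun W _ => ?_
  have e2 : ∑ W' ∈ 𝒮.filter (fun W' => Hyp W'' W' ∧ Hyp W' W),
      sms_SumB F W' W'' (cns_SumB F W W' (Gam F 𝒮 Ξ k W)) =
      (∑ W' ∈ 𝒮.filter (fun W' => Hyp W'' W' ∧ Hyp W' W),
        (sms_SumB F W' W'').comp (cns_SumB F W W')) (Gam F 𝒮 Ξ k W) := by
    rw [LinearMap.sum_apply]
    rfl
  rw [e2]
  refine map_mem_of_support_SumB _ _ _ fun o ho => ?_
  obtain ⟨hv, hl, hK, -⟩ := h.gam_supp hk.le hN ho
  have h1 := h.middle hW'' hv (hl ▸ hk) hK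
  rw [hl] at h1
  rw [LinearMap.sum_apply]
  simp only [LinearMap.comp_apply, sms_cns_single_SumB]
  exact NullSpan_mono (fun _ _ _ hf => hf.elim) h1

theorem SumData.cns_null_SumB (h : SumData C d m A E 𝒮 Ξ) {k : ℕ} (hk : k < m) {W W' : Sb N}
    (hW : Hyp W' W) {x : Inst F (OmN F N) →₀ ℚ} (hx : x ∈ NullSpan C A (Low A W) k) :
    cns_SumB F W W' x ∈ NullSpan C A (Low A W') (k + 1) := by
  rw [cns_apply_SumB]
  refine Submodule.sub_mem _ ?_ ?_
  · refine NullSpan_cons (h.std.ee ▸ res_mem_EE _) (fun o ho hl hlow => ?_) hx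
    exact h.low_cons hW hW.inf_ker ho (hl ▸ hk) hlow
  · refine NullSpan_cons (h.std.ee ▸ res_mem_EE _) (fun o ho hl hlow => ?_) hx
    exact h.low_cons hW hW.inf_ker_neg ho (hl ▸ hk) hlow

theorem SumData.gam_null (h : SumData C d m A E 𝒮 Ξ) {n : ℕ} (hn : n < m) (hN : n + 2 < N)
    {W : Sb N} (hW : W ∈ 𝒮) : Inst.D (Gam F 𝒮 Ξ (n + 1) W) ∈ NullSpan C A (Low A W) n := by
  classical
  induction n generalizing W with
  | zero =>
    by_cases hd : Module.finrank ℚ W + 0 + 2 = N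
    · have hb : W ≠ ⊥ := by
        rintro rfl
        rw [finrank_bot] at hd
        omega
      have h1 := h.first (n := 0) hb hd
      rw [gam_succ_SumB, map_add, map_sum]
      convert h1 using 1
      rw [sub_eq_neg_add, ← Finset.sum_neg_distrib]
      congr 1
      refine Finset.sum_congr rfl fun W1 _ => ?_
      rw [D_cns_SumB, Gam, D_baseP_zero_SumB, map_zero, sub_zero, sms_apply_SumB]
    · have h0 : Gam F 𝒮 Ξ (0 + 1) W = 0 := by
        rw [← Finsupp.support_eq_empty, Finset.eq_empty_iff_forall_notMem]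
        intro o ho
        exact hd (by have := (h.gam_supp hn (by omega) ho).2.2.2; omega)
      rw [h0, map_zero]
      exact Submodule.zero_mem _
  | succ k ih =>
    by_cases hd : Module.finrank ℚ W + (k + 1) + 2 = N
    · have hb : W ≠ ⊥ := by
        rintro rfl
        rw [finrank_bot] at hd
        omega
      have h1 := h.first (n := k + 1) hb hd
      have h2 := h.mid_SumB (k := k) (by omega) (by omega) hW
      have h3 : ∑ W1 ∈ 𝒮.filter (fun W1 => Hyp W W1),
          cns_SumB F W1 W (Inst.D (Gam F 𝒮 Ξ (k + 1) W1)) ∈ NullSpan C A (Low A W) (k + 1) := by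
        refine Submodule.sum_mem _ fun W1 hW1 => ?_
        rw [Finset.mem_filter] at hW1
        exact h.cns_null_SumB (by omega) hW1.2 (ih (by omega) (by omega) hW1.1)
      have h4 := Submodule.sub_mem _ (Submodule.sub_mem _ h1 h2) h3
      rw [gam_succ_SumB (k + 1), map_add, map_sum]
      convert h4 using 1
      have e : ∀ W1 ∈ 𝒮.filter (fun W1 => Hyp W W1),
          Inst.D (cns_SumB F W1 W (Gam F 𝒮 Ξ (k + 1) W1)) =
          -((baseP F Ξ (k + 1) W1).mapDomain (Inst.smul (res F (cut W1 W))) -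
            (baseP F Ξ (k + 1) W1).mapDomain (Inst.smul (res F (-cut W1 W)))) -
          ∑ W2 ∈ 𝒮.filter (fun W2 => Hyp W1 W2),
            sms_SumB F W1 W (cns_SumB F W2 W1 (Gam F 𝒮 Ξ k W2)) -
          cns_SumB F W1 W (Inst.D (Gam F 𝒮 Ξ (k + 1) W1)) := by
        intro W1 _
        rw [D_cns_SumB, ← sms_apply_SumB]
        congr 1
        rw [gam_succ_SumB k, map_add, map_sum]
        abel
      rw [Finset.sum_congr rfl e, Finset.sum_sub_distrib, Finset.sum_sub_distrib,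
        Finset.sum_neg_distrib]
      abel
    · have h0 : Gam F 𝒮 Ξ (k + 1 + 1) W = 0 := by
        rw [← Finsupp.support_eq_empty, Finset.eq_empty_iff_forall_notMem]
        intro o ho
        exact hd (by have := (h.gam_supp hn (by omega) ho).2.2.2; omega)
      rw [h0, map_zero]
      exact Submodule.zero_mem _

end

end Pool.Agent.MP_e2821c_ag.Dg
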