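import Pool.Agent.Lib.MP_e2821c_ag.Dg.Tree

namespace Pool.Agent.MP_e2821c_ag.Dg

open MvPolynomial

universe u v w

noncomputable section

namespace Tr

variable {M : Type u}

/-- The extra degeneracy attached to a decomposition of the leaves. -/
def ext (dec : M → Multiset M) : ∀ k, Tr M k → Tr M (k + 1)
  | 0, b => mk ((dec b.val).map leaf)
  | k + 1, b => mk (b.out.map (ext dec k))

theorem leaves_ext (dec : M → Multiset M) (k : ℕ) (b : Tr M k) :
    leaves (k + 1) (ext dec k b) = (leaves k b).bind dec := by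
  induction k with
  | zero =>
    show ((dec b.val).map leaf).bind (leaves 0) = ({b.val} : Multiset M).bind dec
    rw [Multiset.singleton_bind, Multiset.bind_map]
    exact Multiset.bind_singleton (dec b.val) id |>.trans (Multiset.map_id _)
  | succ k ih =>
    show (b.out.map (ext dec k)).bind (leaves (k + 1)) = (b.out.bind (leaves k)).bind dec
    rw [Multiset.bind_map, Multiset.bind_assoc]
    exact Multiset.bind_congr fun x _ => ih x

theorem Pos.ext {P P' : M → Prop} (dec : M → Multiset M)
    (h : ∀ x, P x → dec x ≠ 0 ∧ ∀ y ∈ dec x, P' y) {k : ℕ} {b : Tr M k} (hb : Pos P k b) :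
    Pos P' (k + 1) (ext dec k b) := by
  induction k with
  | zero =>
    obtain ⟨h1, h2⟩ := h b.val hb
    refine ⟨fun e => h1 (Multiset.map_eq_zero.1 e), fun x hx => ?_⟩
    obtain ⟨y, hy, rfl⟩ := Multiset.mem_map.1 hx
    exact h2 y hy
  | succ k ih =>
    refine ⟨fun e => hb.1 (Multiset.map_eq_zero.1 e), fun x hx => ?_⟩
    obtain ⟨y, hy, rfl⟩ := Multiset.mem_map.1 hx
    exact ih (hb.2 y hy)

variable [AddCommMonoid M] {Q : M → Prop} {dec : M → Multiset M} (h0 : dec 0 = 0) (hQ0 : Q 0)
  (hQ : ∀ x y, Q x → Q y → Q (x + y))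
  (hadd : ∀ x y, Q x → Q y → dec (x + y) = dec x + dec y) (hsum : ∀ x, Q x → (dec x).sum = x)

include h0 hQ0 hQ hadd in
theorem dec_sum_TreeX (s : Multiset M) (hs : ∀ x ∈ s, Q x) :
    Q s.sum ∧ dec s.sum = (s.map dec).sum := by
  induction s using Multiset.induction_on with
  | empty => exact ⟨hQ0, h0⟩
  | cons a s ih =>
    obtain ⟨h1, h2⟩ := ih fun x hx => hs x (Multiset.mem_cons_of_mem hx)
    have ha := hs a (Multiset.mem_cons_self a s)
    rw [Multiset.sum_cons, Multiset.map_cons, Multiset.sum_cons, hadd a _ ha h1, h2]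
    exact ⟨hQ a _ ha h1, rfl⟩

omit [AddCommMonoid M] in
theorem leaves_sub_TreeX {k : ℕ} {b : Tr M (k + 1)} {x : Tr M k} (hx : x ∈ b.out) {τ : M}
    (h : τ ∈ leaves k x) : τ ∈ leaves (k + 1) b :=
  Multiset.mem_bind.2 ⟨x, hx, h⟩

include hsum in
theorem face_last_TreeX (k : ℕ) (b : Tr M k) (hb : ∀ τ ∈ leaves k b, Q τ) :
    face k k (ext dec k b) = b := by
  induction k with
  | zero =>
    have := hsum b.val (hb _ (Multiset.mem_singleton_self _))
    have e : (dec b.val).map leaf = dec b.val := Multiset.map_id _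
    show ((dec b.val).map leaf).sum = b
    rw [e]
    exact this
  | succ k ih =>
    show (b.out.map (ext dec k)).map (face k k) = b.out
    rw [Multiset.map_map]
    exact (Multiset.map_congr rfl fun x hx => ih x fun τ h => hb τ (leaves_sub_TreeX hx h)).trans
      (Multiset.map_id _)

include h0 hQ0 hQ hadd in
theorem face_ext_TreeX (k : ℕ) (b : Tr M (k + 1)) (hb : ∀ τ ∈ leaves (k + 1) b, Q τ) (i : ℕ)
    (hi : i ≤ k) : face (k + 1) i (ext dec (k + 1) b) = ext dec k (face k i b) := by
  induction k generalizing i with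
  | zero =>
    obtain rfl : i = 0 := by omega
    have h1 := (dec_sum_TreeX h0 hQ0 hQ hadd (b.out : Multiset M) fun x hx =>
      hb x (leaves_sub_TreeX hx (Multiset.mem_singleton_self _))).2
    have e : ∀ x : Tr M 0, ext dec 0 x = dec x.val := fun x => Multiset.map_id _
    rw [e]
    refine Eq.trans ?_ h1.symm
    exact congrArg Multiset.sum (Multiset.map_congr rfl fun x _ => e x)
  | succ k ih =>
    cases i with
    | zero =>
      exact (map_multiset_sum (Multiset.mapAddMonoidHom (ext dec k))
        (b.out : Multiset (Multiset (Tr M k)))).symm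
    | succ i =>
      show (b.out.map (ext dec (k + 1))).map (face (k + 1) i) =
        (b.out.map (face k i)).map (ext dec k)
      rw [Multiset.map_map, Multiset.map_map]
      exact Multiset.map_congr rfl fun x hx =>
        ih x (fun τ h => hb τ (leaves_sub_TreeX hx h)) i (by omega)

include h0 hQ0 hQ hadd hsum in
theorem DT_ext_TreeX (k : ℕ) (b : Tr M (k + 1)) (hb : ∀ τ ∈ leaves (k + 1) b, Q τ) :
    sgnSum (DT (k + 1) (ext dec (k + 1) b)) =
      (sgnSum (DT k b)).mapDomain (ext dec k) + Finsupp.single b ((-1 : ℚ) ^ k) := by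
  have e : DT (k + 1) (ext dec (k + 1) b) =
      (-(-1 : ℤ) ^ (k + 1), b) ::ₘ (DT k b).map fun p => (p.1, ext dec k p.2) := by
    unfold DT
    rw [Multiset.range_succ (k + 1), Multiset.map_cons, face_last_TreeX hsum (k + 1) b hb,
      Multiset.add_cons, Multiset.map_add, Multiset.map_map, Multiset.map_map]
    congr 2
    · exact Multiset.map_map _ _ _
    · refine Multiset.map_congr rfl fun i hi => ?_
      rw [face_ext_TreeX h0 hQ0 hQ hadd k b hb i (Nat.lt_succ_iff.1 (Multiset.mem_range.1 hi))]
      rfl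
  rw [e, sgnSum_cons, sgnSum_map, add_comm (Finsupp.single _ _)]
  congr 2
  push_cast
  ring

theorem delta_mapDomain_TreeX {α : Type u} (k : ℕ) (f : α → Tr M (k + 1)) (c : α →₀ ℚ) :
    delta k (c.mapDomain f) = ∑ b ∈ c.support, c b • sgnSum (DT k (f b)) := by
  unfold delta
  rw [Finsupp.linearCombination_mapDomain, Finsupp.linearCombination_apply]
  rfl

include h0 hQ0 hQ hadd hsum in
theorem delta_ext_succ (k : ℕ) (c : Tr M (k + 1) →₀ ℚ)
    (hc : ∀ b ∈ c.support, ∀ τ ∈ leaves (k + 1) b, Q τ) (hd : delta k c = 0) :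
    delta (k + 1) ((-1 : ℚ) ^ k • c.mapDomain (ext dec (k + 1))) = c := by
  have e : (delta k c).mapDomain (ext dec k) =
      ∑ b ∈ c.support, c b • (sgnSum (DT k b)).mapDomain (ext dec k) := by
    have := delta_mapDomain_TreeX k id c
    rw [Finsupp.mapDomain_id] at this
    rw [this, Finsupp.mapDomain_finsetSum]
    exact Finset.sum_congr rfl fun b _ => Finsupp.mapDomain_smul _ _
  rw [hd, Finsupp.mapDomain_zero] at e
  rw [map_smul, delta_mapDomain_TreeX, Finset.sum_congr rfl fun b hb => by
    rw [DT_ext_TreeX h0 hQ0 hQ hadd hsum k b (hc b hb), smul_add], Finset.sum_add_distrib, ← e,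
    zero_add, Finset.smul_sum]
  conv_rhs => rw [← c.sum_single, Finsupp.sum]
  refine Finset.sum_congr rfl fun b _ => ?_
  rw [Finsupp.smul_single, Finsupp.smul_single, smul_eq_mul, smul_eq_mul, mul_left_comm,
    ← mul_pow, neg_mul_neg, one_mul, one_pow, mul_one]

open Classical in
include hsum in
theorem delta_ext_zero (c : Tr M 0 →₀ ℚ) (hc : ∀ b ∈ c.support, Q b.val)
    (hd : ∀ x, (c.sum fun b z => z * ((dec b.val).count x : ℚ)) = 0) :
    delta 0 (-c.mapDomain (ext dec 0)) = c := by
  have e1 : ∀ s : Multiset M, ∀ x : Tr M 0,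
      sgnSum ((s.map leaf).map fun y => ((1 : ℤ), y)) x = (s.count x.val : ℚ) := by
    intro s x
    induction s using Multiset.induction_on with
    | empty => rw [Multiset.map_zero, Multiset.map_zero, sgnSum_zero]; simp
    | cons a s ih =>
      rw [Multiset.map_cons, Multiset.map_cons, sgnSum_cons, Finsupp.add_apply, ih,
        Multiset.count_cons, Finsupp.single_apply]
      by_cases h : x.val = a
      · rw [if_pos h, if_pos (show leaf a = x from h.symm)]
        push_cast
        ring
      · rw [if_neg h, if_neg (show ¬ leaf a = x from fun e => h e.symm)]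
        simp
  have e2 : ∀ b ∈ c.support, sgnSum (DT 0 (ext dec 0 b)) =
      sgnSum (((dec b.val).map leaf).map fun y => ((1 : ℤ), y)) - Finsupp.single b 1 := by
    intro b hb
    unfold DT
    rw [sgnSum_add, Multiset.range_succ, Multiset.range_zero, Multiset.map_cons, Multiset.map_zero,
      face_last_TreeX hsum 0 b (fun τ h => Multiset.mem_singleton.1 h ▸ hc b hb), sgnSum_cons,
      sgnSum_zero, add_zero, sub_eq_add_neg, ← Finsupp.single_neg]
    congr 2
  have e3 : ∑ b ∈ c.support, c b • sgnSum (((dec b.val).map leaf).map fun y => ((1 : ℤ), y)) =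
      0 := by
    ext x
    rw [Finsupp.finsetSum_apply]
    refine Eq.trans (Finset.sum_congr rfl fun b _ => ?_) (hd x.val)
    rw [Finsupp.smul_apply, e1, smul_eq_mul]
  rw [map_neg, delta_mapDomain_TreeX, Finset.sum_congr rfl fun b hb => by rw [e2 b hb, smul_sub],
    Finset.sum_sub_distrib, e3, zero_sub, neg_neg]
  conv_rhs => rw [← c.sum_single, Finsupp.sum]
  refine Finset.sum_congr rfl fun b _ => ?_
  rw [Finsupp.smul_single, smul_eq_mul, mul_one]

end Tr

end

end Pool.Agent.MP_e2821c_ag.Dg
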