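import Pool.Agent.Lib.MP_e2821c_ag.Dg.Model

/-!
# Formal cycles of effective correspondences of non-maximal variation
-/

namespace Pool.Agent.MP_e2821c_ag.Dg

open MvPolynomial

universe u v w

noncomputable section

section Ctx

variable {F : Type u} [Field F] [CharZero F] {N : ℕ}

theorem exists_ctx_Var {d m : ℕ} (B₀ : ∀ k, Set (Tr (G2 → OmN F N) k))
    (hfin : ∀ k, (B₀ k).Finite) (hm : ∀ k, m ≤ k → B₀ k = ∅)
    (hB : ∀ k, ∀ b ∈ B₀ k, ∃ I : Finset (Fin N), I.Nonempty ∧ GT F I d k b)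
    (R : ∀ k, Tr (G2 → OmN F N) k → Prop)
    (hRf : ∀ k b, R (k + 1) b → ∀ p ∈ Tr.DT k b, R k p.2)
    (hRt : ∀ k b, vals k b ⊆ Oh F N → R k b → ∀ φ ∈ EE F N, R k (tact φ k b))
    (hR : ∀ k, ∀ b ∈ B₀ k, R k b) :
    ∃ C : Ctx F (OmN F N), IsStd F C d ∧ (∀ k, B₀ k ⊆ C.BB k) ∧ ∀ k, ∀ b ∈ C.BB k, R k b := by
  obtain ⟨B₁, h1, h2, h3', h4⟩ := closure_RootSet B₀ hfin hm
    (fun k b => (∃ I : Finset (Fin N), I.Nonempty ∧ GT F I d k b) ∧ R k b)
    (fun k b ⟨⟨I, hI, h⟩, hr⟩ p hp => ⟨⟨I, hI, h.face hp⟩, hRf k b hr p hp⟩)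
    (fun k b hb => ⟨hB k b hb, hR k b hb⟩)
  have h3 := fun k b hb => (h3' k b hb).1
  have good : ∀ k, ∀ x ∈ {x | ∃ b ∈ B₁ k, ∃ φ ∈ EE F N, x = tact φ k b},
      ∃ I : Finset (Fin N), I.Nonempty ∧ GT F I d k x := by
    rintro k _ ⟨b, hb, φ, hφ, rfl⟩
    obtain ⟨I, hI, h⟩ := h3 k b hb
    obtain ⟨J, hJ, h'⟩ := EE_maps_PI hφ hI
    exact ⟨J, hJ, h.tact (EE_hom hφ) h'⟩
  refine ⟨{ Oh := Oh F N
            EE := EE F N
            BB := fun k => {x | ∃ b ∈ B₁ k, ∃ φ ∈ EE F N, x = tact φ k b}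
            hom := fun φ hφ => EE_hom hφ
            maps := fun φ hφ x hx => EE_maps hφ hx
            finres := EE_finres
            fin := fun k => ?_
            bact := ?_
            bface := ?_
            beff := fun k b hb τ hτ => ?_
            inj := inj_Oh
            onto := onto_Om
            onto0 := fun b hb => ?_ }, ⟨rfl, rfl, good⟩, fun k b hb => ?_, ?_⟩
  · refine ((h1 k).biUnion fun b hb => (h3 k b hb).elim fun I hI => orbit_RootSet hI.2).subset ?_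
    rintro x ⟨b, hb, hx⟩
    exact Set.mem_biUnion hb hx
  · rintro k _ ⟨b, hb, φ, hφ, rfl⟩ φ' hφ'
    exact ⟨b, hb, φ' * φ, mul_mem hφ' hφ, tact_tact _ _ k b⟩
  · rintro k _ ⟨b, hb, φ, hφ, rfl⟩ p hp
    rw [DT_tact] at hp
    obtain ⟨p', hp', rfl⟩ := Multiset.mem_map.1 hp
    exact ⟨p'.2, h4 k b hb p' hp', φ, hφ, rfl⟩
  · obtain ⟨I, -, h⟩ := good k b hb
    obtain ⟨a1, a2⟩ := h.1.leaves τ hτ
    exact ⟨a1.imp fun _ ha => ha.2, fun γ => mem_Oh_RootSet (a2 γ)⟩
  · obtain ⟨I, hI, h⟩ := good 0 b hb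
    exact leafOk_const hI h.1
  · exact ⟨b, h2 k hb, 1, one_mem _, (Tr.map_id k b).symm⟩
  · rintro k _ ⟨b, hb, φ, hφ, rfl⟩
    obtain ⟨⟨I, -, h⟩, hr⟩ := h3' k b hb
    exact hRt k b (fun x hx => mem_Oh_RootSet (h.vals_subset hx)) hr φ hφ

variable {C : Ctx F (OmN F N)} {d m : ℕ}
  {A : Inst F (OmN F N) → Subalgebra F (OmN F N)} {E : Finset (Vec N)} {𝒮 : Finset (Sb N)}
  {Ξ : ∀ k, Finset (Fin N) → (Tr (G2 → OmN F N) k →₀ ℚ)}
  {S : SF_Sum (OmN F N)} {H : HF F (OmN F N)}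

theorem theta_last_Var (h : SumData C d m A E 𝒮 Ξ) (hP : Pre C S A H m) {n : ℕ} (hn : n < m)
    (hN : n < N) (hd : ∀ k, ∀ b ∈ C.BB k, ¬ Tr.TDeg k b →
      rk F (vals k b) + ((k + 1 : ℕ) : ℕ∞) ≤ ((n + 1 : ℕ) : ℕ∞)) (W : Sb N) :
    theta_Sum 𝒮 Ξ H n W ∈ CR (⊥ : Subalgebra F (OmN F N)).toSubring (n + 1) := by
  refine theta_mem_Sum _ (qCl_CR_Sum _ _) fun o ho => ?_
  obtain ⟨h1, h2, -, -⟩ := h.gam_supp hn.le hN ho
  by_cases hdeg : Inst.Degen A o
  · have h3 := hP.degen o h1 (h2 ▸ hn) hdeg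
    subst h2
    rw [h3]
    exact AddSubgroup.zero_mem _
  · obtain ⟨h3, h4⟩ := hP.toPreA.rk_le h1 (h2 ▸ hn.le) hdeg
    have h5 := hd _ _ (C.valid_root h1) h3
    have h6 := o.lev_eq
    have h7 : rk F (Inst.LL A o : Set (OmN F N)) + ((n + 1 : ℕ) : ℕ∞) ≤ 0 + ((n + 1 : ℕ) : ℕ∞) := by
      have h8 : ((n + 1 : ℕ) : ℕ∞) = (o.len : ℕ∞) + ((o.root.1 + 1 : ℕ) : ℕ∞) := by
        rw [← Nat.cast_add]
        congr 1
        omega
      calc rk F (Inst.LL A o : Set (OmN F N)) + ((n + 1 : ℕ) : ℕ∞)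
          = rk F (Inst.LL A o : Set (OmN F N)) + (o.len : ℕ∞) + ((o.root.1 + 1 : ℕ) : ℕ∞) := by
            rw [h8, add_assoc]
        _ ≤ rk F (vals o.root.1 o.root.2) + ((o.root.1 + 1 : ℕ) : ℕ∞) := by gcongr
        _ ≤ 0 + ((n + 1 : ℕ) : ℕ∞) := by
            rw [zero_add]
            exact h5
    have h9 : rk F (Inst.LL A o : Set (OmN F N)) = 0 :=
      le_antisymm ((ENat.add_le_add_iff_right (ENat.natCast_ne_top _)).1 h7) zero_le
    refine CR_mono ?_ (hP.mem' h1 h2 hn)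
    intro x hx
    exact mem_bot_of_isAlgebraic
      (isAlgebraic_of_rk_eq_zero h9 (hP.le_LL o h1 (h2 ▸ hn) (show x ∈ A o from hx)))

end Ctx

/-- The staircase for an arbitrary system of lifts whose non-degenerate trees have small rank. -/
theorem ynull_Var {F : Type u} [Field F] [CharZero F] {j d : ℕ}
    {Ξ : ∀ k, Finset (Fin (j + 2)) → (Tr (G2 → OmN F (j + 2)) k →₀ ℚ)} (hL : IsLift F d Ξ)
    (R : ∀ k, Tr (G2 → OmN F (j + 2)) k → Prop)
    (hRf : ∀ k b, R (k + 1) b → ∀ p ∈ Tr.DT k b, R k p.2)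
    (hRt : ∀ k b, vals k b ⊆ Oh F (j + 2) → R k b → ∀ φ ∈ EE F (j + 2), R k (tact φ k b))
    (hR : ∀ k I, I.card + k = j + 2 → I.Nonempty → ∀ b ∈ (Ξ k I).support, R k b)
    (hrk : ∀ k b, R k b → ¬ Tr.TDeg k b →
      rk F (vals k b) + ((k + 1 : ℕ) : ℕ∞) ≤ ((j + 1 : ℕ) : ℕ∞)) :
    Ynull F (j + 1) 0 (Finsupp.single (WI (Finset.univ : Finset (Fin (j + 2))))
      (red (cst 0 (Finsupp.linearCombination ℚ Tr.val (Ξ 0 Finset.univ))))) := by
  obtain ⟨C, hC, hB', hCR⟩ := exists_ctx_Var (F := F) (d := d) (m := j + 2)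
    (fun k => {b | ∃ I : Finset (Fin (j + 2)), I.card + k = j + 2 ∧ I.Nonempty ∧
      b ∈ (Ξ k I).support})
    (fun k => (Set.finite_iUnion fun I : Finset (Fin (j + 2)) =>
      (Ξ k I).support.finite_toSet).subset fun b ⟨I, _, _, hb⟩ => Set.mem_iUnion.2 ⟨I, hb⟩)
    (fun k hk => Set.eq_empty_of_forall_notMem fun b ⟨I, h1, h2, _⟩ => by
      have := h2.card_pos
      omega)
    (fun k b ⟨I, h1, h2, hb⟩ => ⟨I, h2, hL.good k I h1 h2 b hb⟩) R hRf hRt
    fun k b ⟨I, h1, h2, hb⟩ => hR k I h1 h2 b hb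
  have hB : ∀ k I, I.card + k = j + 2 → I.Nonempty → ∀ b ∈ (Ξ k I).support, b ∈ C.BB k :=
    fun k I h1 h2 b hb => hB' k ⟨I, h1, h2, hb⟩
  obtain ⟨S, A, H, hS, hP⟩ := exists_pre C (j + 1)
  obtain ⟨E, hE, hE'⟩ := exists_control_Sum hC hP.toPreA
  obtain ⟨𝒮, h𝒮⟩ := exists_flats E
  have h : SumData C d (j + 1) A E 𝒮 Ξ := ⟨hC, hP.toPreA, hL, hB, hE, hE', h𝒮⟩
  refine ynull_of_stair (theta_Sum 𝒮 Ξ H) (fun n p hnp => ?_) (fun n hn W => ?_)
    (fun W => ?_) fun W => ?_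
  · exact theta_YG_Sum h hP (by omega) (by omega)
  · exact theta_step_Sum h hS hP (by omega) (by omega) W
  · exact theta_last_Var h hP (by omega) (by omega) (fun k b hb => hrk k b (hCR k b hb)) W
  · exact theta_zero_Sum h hS hP (by omega) (by omega) W

/-- No `m` elements of `s` are algebraically independent. -/
def Low_Var (F : Type u) {S : Type u} [CommRing F] [CommRing S] [Algebra F S] (m : ℕ)
    (s : Set S) : Prop :=
  ∀ x : Fin m → S, (∀ l, x l ∈ s) → ¬ AlgebraicIndependent F x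

theorem Low_Var.image {F S S' : Type u} [CommRing F] [CommRing S] [Algebra F S] [CommRing S']
    [Algebra F S'] {m : ℕ} {s : Set S} (h : Low_Var F m s) (f : S →ₐ[F] S') :
    Low_Var F m (f '' s) := by
  intro x hx hi
  choose y hy hy' using hx
  refine h y hy (AlgebraicIndependent.of_comp f ?_)
  rwa [show f ∘ y = x from funext hy']

theorem Low_Var.range {F S S' : Type u} [CommRing F] [CommRing S] [Algebra F S] [CommRing S']
    [Algebra F S'] {m : ℕ} {τ : G2 → S} (h : Low_Var F m (Set.range τ)) (f : S →ₐ[F] S') :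
    Low_Var F m (Set.range fun γ => f (τ γ)) := by
  have h1 := h.image f
  rwa [← Set.range_comp] at h1

theorem Low_Var.mono {F S : Type u} [CommRing F] [CommRing S] [Algebra F S] {m : ℕ}
    {s t : Set S} (h : Low_Var F m t) (hs : s ⊆ t) : Low_Var F m s :=
  fun x hx => h x fun l => hs (hx l)

theorem Low_Var.not_le {F S : Type u} [Field F] [CommRing S] [IsDomain S] [Algebra F S] {m : ℕ}
    {s : Set S} (h : Low_Var F m s) :
    ¬ (m : ℕ∞) ≤ (AlgebraicIndependent.matroid F S).eRk s := by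
  intro h1
  obtain ⟨I, hIs, hI, hcard⟩ := Matroid.le_eRk_iff.1 h1
  have hfin : I.Finite := Set.finite_of_encard_eq_coe hcard
  have := hfin.fintype
  have h2 : Fintype.card I = m := by
    rw [Set.encard_eq_coe_toFinset_card, Set.toFinset_card] at hcard
    exact_mod_cast hcard
  have hJ : AlgebraicIndependent F ((↑) : I → S) := hI
  let e := (Fintype.equivFinOfCardEq h2).symm
  exact h (fun l => (e l : S)) (fun l => hIs (e l).2) (hJ.comp e e.injective)

theorem Low_Var.rk_le {F Ω : Type u} [Field F] [Field Ω] [Algebra F Ω] {j : ℕ} {s : Set Ω}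
    (h : Low_Var F (j + 1) s) : rk F s + 1 ≤ ((j + 1 : ℕ) : ℕ∞) := by
  by_contra hc
  rw [_root_.not_le] at hc
  exact h.not_le (Order.le_of_lt_add_one hc)

theorem Low_Var.adjoin {F S : Type u} [Field F] [CommRing S] [IsDomain S] [Algebra F S] {m : ℕ}
    {s : Set S} (h : Low_Var F m s) : Low_Var F m (Algebra.adjoin F s : Set S) := by
  intro x hx hi
  refine h.not_le ?_
  have h1 : (AlgebraicIndependent.matroid F S).Indep (Set.range x) := hi.coe_range
  have h2 : (Set.range x).encard = m := by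
    rw [← Set.image_univ, hi.injective.injOn.encard_image, Set.encard_univ]
    simp
  rw [← h2, ← h1.eRk_eq_encard, ← Matroid.eRk_closure_eq _ s]
  refine Matroid.eRk_mono _ ?_
  rintro _ ⟨l, rfl⟩
  rw [AlgebraicIndependent.matroid_closure_eq]
  exact isAlgebraic_algebraMap (⟨x l, hx l⟩ : Algebra.adjoin F s)

theorem vals_zero_Var {Ω : Type u} (τ : G2 → Ω) : vals 0 (Tr.leaf τ) = Set.range τ := by
  ext x
  constructor
  · rintro ⟨τ', h, γ, rfl⟩
    rw [Multiset.mem_singleton.1 h]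
    exact ⟨γ, rfl⟩
  · rintro ⟨γ, rfl⟩
    exact ⟨τ, Multiset.mem_singleton_self _, γ, rfl⟩

theorem Low_Var.tact {F Ω : Type u} [Field F] [Field Ω] [Algebra F Ω] {m k : ℕ}
    {b : Tr (G2 → Ω) k} (h : Low_Var F m (vals k b)) {O : Subalgebra F Ω} (hO : vals k b ⊆ O)
    {φ : Module.End F Ω} (hφ : HomOn φ (O : Set Ω)) : Low_Var F m (vals k (tact φ k b)) := by
  obtain ⟨f, hf⟩ := hφ.exists_algHom
  intro x hx hi
  have h1 : ∀ l, ∃ y ∈ vals k b, φ y = x l := fun l => by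
    obtain ⟨τ, hτ, γ, e⟩ := hx l
    rw [Dg.tact, Tr.leaves_map] at hτ
    obtain ⟨τ', hτ', rfl⟩ := Multiset.mem_map.1 hτ
    exact ⟨τ' γ, ⟨τ', hτ', γ, rfl⟩, e.symm⟩
  choose y hy hy' using h1
  have h2 : AlgebraicIndependent F fun l => (⟨y l, hO (hy l)⟩ : O) :=
    AlgebraicIndependent.of_comp f (by
      rwa [show (f ∘ fun l => (⟨y l, hO (hy l)⟩ : O)) = x from
        funext fun l => (hf _).trans (hy' l)])
  exact h y hy (h2.map' (f := O.val) Subtype.val_injective)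

/-- The free simplicial abelian group on the functions. -/
def fr_Var (R : Type u) [CommRing R] : Cy.SMod.{u} ℤ where
  obj q := Xq G2 R q →₀ ℤ
  act f := Finsupp.lmapDomain ℤ ℤ (act R f)
  act_id m x := by
    rw [Finsupp.lmapDomain_apply, show (act R (id : Fin (m + 1) → _) : Xq G2 R m → _) = id from
      funext (act_id m), Finsupp.mapDomain_id]
  act_comp f g x := by
    rw [Finsupp.lmapDomain_apply, Finsupp.lmapDomain_apply, Finsupp.lmapDomain_apply,
      ← Finsupp.mapDomain_comp]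
    congr 1
    exact funext fun y => (act_act f g y).symm

/-- The formal boundary. -/
def frd_Var (R : Type u) [CommRing R] (q : ℕ) (z : Xq G2 R (q + 1) →₀ ℤ) : Xq G2 R q →₀ ℤ :=
  ∑ i : Fin (q + 2), ((-1 : ℤ) ^ (i : ℕ)) • z.mapDomain (act R i.succAbove)

/-- The sum of a formal combination. -/
def aug_Var {V : Type v} [AddCommGroup V] : (V →₀ ℤ) →+ V :=
  (Finsupp.linearCombination ℤ (id : V → V)).toAddMonoidHom

theorem aug_single_Var {V : Type v} [AddCommGroup V] (x : V) (n : ℤ) :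
    aug_Var (Finsupp.single x n) = n • x := Finsupp.linearCombination_single _ _ _

theorem aug_map_Var {V : Type v} {V' : Type w} [AddCommGroup V] [AddCommGroup V'] (f : V →+ V')
    (z : V →₀ ℤ) : aug_Var (z.mapDomain f) = f (aug_Var z) := by
  induction z using Finsupp.induction_linear with
  | zero => simp
  | add a b ha hb => rw [Finsupp.mapDomain_add, map_add, map_add, map_add, ha, hb]
  | single x n => rw [Finsupp.mapDomain_single, aug_single_Var, aug_single_Var, map_zsmul]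

theorem aug_mem_Var {V : Type v} [AddCommGroup V] (G : AddSubgroup V) {z : V →₀ ℤ}
    (h : ∀ x ∈ z.support, x ∈ G) : aug_Var z ∈ G := by
  change Finsupp.linearCombination ℤ (id : V → V) z ∈ G
  rw [Finsupp.linearCombination_apply, Finsupp.sum]
  exact G.sum_mem fun x hx => G.zsmul_mem (h x hx) _

theorem aug_frd_Var {R : Type u} [CommRing R] (q : ℕ) (z : Xq G2 R (q + 1) →₀ ℤ) :
    aug_Var (frd_Var R q z) = dX R q (aug_Var z) := by
  rw [frd_Var, dX_apply, map_sum]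
  refine Finset.sum_congr rfl fun i _ => ?_
  rw [map_zsmul, aug_map_Var]

theorem supp_map_Var {α : Type v} {β : Type w} {P : α → Prop} {Q : β → Prop} {f : α → β}
    {z : α →₀ ℤ} (hz : ∀ x ∈ z.support, P x) (h : ∀ x, P x → Q (f x)) :
    ∀ y ∈ (z.mapDomain f).support, Q y := by
  classical
  intro y hy
  obtain ⟨x, hx, rfl⟩ := Finset.mem_image.1 (Finsupp.mapDomain_support hy)
  exact h x (hz x hx)

theorem moore_Var {R : Type u} [CommRing R] (P : ∀ q, Xq G2 R q → Prop)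
    (hP : ∀ {a b : ℕ} (f : Fin (a + 1) → Fin (b + 1)) τ, P b τ → P a (act R f τ)) {q : ℕ}
    {z : Xq G2 R (q + 1) →₀ ℤ} (hz : ∀ τ ∈ z.support, P _ τ) (hc : frd_Var R q z = 0) :
    ∃ y : Xq G2 R (q + 2) →₀ ℤ, (∀ τ ∈ y.support, P _ τ) ∧
      (∀ τ ∈ (z - frd_Var R (q + 1) y).support, P _ τ) ∧
      ∀ i : Fin (q + 2), (z - frd_Var R (q + 1) y).mapDomain (act R i.succAbove) = 0 := by
  let S : ∀ m, Submodule ℤ (Xq G2 R m →₀ ℤ) := fun m => Finsupp.supported ℤ ℤ {τ | P m τ}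
  have hS : ∀ m (x : Xq G2 R m →₀ ℤ), x ∈ S m ↔ ∀ τ ∈ x.support, P m τ := fun m x =>
    Finsupp.mem_supported _ _
  have hd : ∀ m (x : Xq G2 R (m + 1) →₀ ℤ), (fr_Var R).d m x = frd_Var R m x := fun m x =>
    Cy.SMod.d_apply (fr_Var R) m x
  have hA : ∀ {a b : ℕ} (f : Fin (a + 1) → Fin (b + 1)) (x : Xq G2 R b →₀ ℤ), x ∈ S b →
      x.mapDomain (act R f) ∈ S a := fun f x hx =>
    (hS _ _).2 (supp_map_Var ((hS _ _).1 hx) (hP f))
  obtain ⟨y, hy, hn⟩ := moore_gen_Simp (fr_Var R) (fun m x => (x : Xq G2 R m →₀ ℤ) ∈ S m)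
    (fun m => (S m).zero_mem) (fun m _ _ => (S m).add_mem) (fun m _ _ => (S m).sub_mem)
    (fun m c _ h => (S m).smul_mem c h) (fun f x => hA f x) z ((hS _ _).2 hz) ((hd q z).trans hc)
  refine ⟨y, (hS _ _).1 hy, (hS _ _).1 ((S _).sub_mem ((hS _ _).2 hz) ?_), fun i => ?_⟩
  · exact (S _).sum_mem fun i _ => (S _).smul_mem _ (hA _ _ hy)
  · rw [← hd]
    exact hn i

theorem apply_zero_Var {α β : Type v} [Zero α] [Zero β] {f : α → β} {z : α →₀ ℤ}
    (h : z.mapDomain f = 0) (h0 : f 0 = 0) (h1 : ∀ x ∈ z.support, f x = 0 → x = 0) :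
    (0 : α) ∉ z.support := by
  classical
  intro hz
  have h2 := DFunLike.congr_fun h 0
  rw [Finsupp.mapDomain, Finsupp.sum, Finsupp.finsetSum_apply, Finset.sum_eq_single_of_mem 0 hz,
    h0, Finsupp.single_eq_same, Finsupp.zero_apply] at h2
  · exact Finsupp.mem_support_iff.1 hz h2
  · intro x hx hne
    exact Finsupp.single_eq_of_ne' fun e => hne (h1 x hx e)

/-- Formal combinations with rational coefficients. -/
def toQ_Var {α : Type v} {β : Type w} (g : α → β) : (α →₀ ℤ) →+ (β →₀ ℚ) :=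
  (Finsupp.linearCombination ℤ fun x => Finsupp.single (g x) (1 : ℚ)).toAddMonoidHom

theorem toQ_single_Var {α : Type v} {β : Type w} (g : α → β) (x : α) (n : ℤ) :
    toQ_Var g (Finsupp.single x n) = Finsupp.single (g x) (n : ℚ) := by
  change Finsupp.linearCombination ℤ _ _ = _
  rw [Finsupp.linearCombination_single, Finsupp.smul_single, zsmul_one]

theorem toQ_map_Var {α α' : Type v} {β β' : Type w} (g : α → β) (θ : β → β') (f : α → α')
    (g' : α' → β') (h : ∀ x, θ (g x) = g' (f x)) (z : α →₀ ℤ) :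
    (toQ_Var g z).mapDomain θ = toQ_Var g' (z.mapDomain f) := by
  induction z using Finsupp.induction_linear with
  | zero => simp
  | add a b ha hb =>
    rw [map_add, Finsupp.mapDomain_add, Finsupp.mapDomain_add, map_add, ha, hb]
  | single x n =>
    rw [toQ_single_Var, Finsupp.mapDomain_single, Finsupp.mapDomain_single, toQ_single_Var, h]

theorem toQ_supp_Var {α : Type v} {β : Type w} (g : α → β) (z : α →₀ ℤ) :
    ∀ y ∈ (toQ_Var g z).support, ∃ x ∈ z.support, g x = y := by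
  have h : toQ_Var g z ∈ Finsupp.supported ℚ ℚ {y | ∃ x ∈ z.support, g x = y} := by
    change Finsupp.linearCombination ℤ _ _ ∈ _
    rw [Finsupp.linearCombination_apply, Finsupp.sum]
    refine Submodule.sum_mem _ fun x hx => zsmul_mem (Finsupp.single_mem_supported _ _ ?_) _
    exact ⟨x, hx, rfl⟩
  exact (Finsupp.mem_supported _ _).1 h

theorem toQ_val_Var {V : Type u} {M : Type u} [AddCommGroup V] [AddCommGroup M] [Module ℚ M]
    (f : V →+ M) (z : V →₀ ℤ) :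
    Finsupp.linearCombination ℚ Tr.val (toQ_Var (fun x => Tr.leaf (f x)) z) = f (aug_Var z) := by
  induction z using Finsupp.induction_linear with
  | zero => simp
  | add a b ha hb => rw [map_add, map_add, map_add, map_add, ha, hb]
  | single x n =>
    rw [toQ_single_Var, Finsupp.linearCombination_single, aug_single_Var, map_zsmul,
      Int.cast_smul_eq_zsmul]
    rfl

/-- The lifts of a normalised formal cycle: no tree of positive depth is needed. -/
def xi_Var {M : Type u} {N : ℕ} (c : Tr M 0 →₀ ℚ) : ∀ k, Finset (Fin N) → (Tr M k →₀ ℚ)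
  | 0, _ => c
  | _ + 1, _ => 0

theorem ynull_formal {F : Type u} [Field F] [CharZero F] {j : ℕ} {z : Xq G2 F (j + 1) →₀ ℤ}
    (hz : ∀ τ ∈ z.support, (∃ e, Eff e τ) ∧ Low_Var F (j + 1) (Set.range τ))
    (hn : ∀ i : Fin (j + 2), z.mapDomain (act F i.succAbove) = 0) :
    Ynull F (j + 1) 0 (Finsupp.single (WI (Finset.univ : Finset (Fin (j + 2))))
      (pushR (emb F (id : Fin (j + 2) → Fin (j + 2))).toRingHom 0 (cst 0 (red (aug_Var z))))) := by
  let up : ∀ {p : ℕ} (f : Fin (p + 1) → Fin (j + 2)), Xq G2 F p →+ (G2 → OmN F (j + 2)) :=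
    fun f => (emb F f).toRingHom.toAddMonoidHom.compLeft G2
  have h0 : (0 : Xq G2 F (j + 1)) ∉ z.support := by
    refine apply_zero_Var (hn 0) (map_zero _) fun τ hτ h => ?_
    obtain ⟨⟨e, he⟩, -⟩ := hz τ hτ
    have h1 := (he.map (Cy.smR F (0 : Fin (j + 2)).succAbove)).apply_zero
    have h2 : (Cy.smR F (0 : Fin (j + 2)).succAbove) (τ 0) = 0 := congrFun h 0
    rw [h2, eq_comm, Nat.cast_eq_zero] at h1
    subst h1
    exact he.eq_zero
  obtain ⟨d, hd⟩ : ∃ d, ∀ τ ∈ z.support, ∃ e, 1 ≤ e ∧ e ≤ d ∧ Eff e τ := by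
    choose! e he using fun τ hτ => (hz τ hτ).1
    refine ⟨z.support.sup e, fun τ hτ => ⟨e τ, ?_, Finset.le_sup hτ, he τ hτ⟩⟩
    refine Nat.pos_of_ne_zero fun h => h0 ?_
    have h1 := he τ hτ
    rw [h] at h1
    rwa [h1.eq_zero] at hτ
  let c : Tr (G2 → OmN F (j + 2)) 0 →₀ ℚ := toQ_Var (fun τ => Tr.leaf (up id τ)) z
  have hL : IsLift F d (xi_Var c) := by
    refine ⟨fun k I hk _ b hb => ?_, fun k I hk hI => ?_⟩
    · cases k with
      | succ k => exact absurd hb (Finset.notMem_empty b)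
      | zero =>
        obtain rfl : I = Finset.univ := Finset.eq_univ_of_card _ (by simpa using hk)
        obtain ⟨τ, hτ, rfl⟩ := toQ_supp_Var _ z b hb
        obtain ⟨e, h1, h2, h3⟩ := hd τ hτ
        have h4 := h3.map (emb F (id : Fin (j + 2) → Fin (j + 2))).toRingHom
        refine ⟨⟨⟨e, h1, h4⟩, fun γ => ?_⟩, e, h2, ?_⟩
        · have h5 := range_emb (F := F) (f := (id : Fin (j + 2) → _)) Function.injective_id
          rw [Finset.image_id] at h5
          exact h5 ▸ ⟨τ γ, rfl⟩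
        · exact (congrFun (Multiset.sum_singleton _) 0).trans h4.apply_zero
    · cases k with
      | succ k =>
        rw [xi_Var, map_zero, eq_comm]
        refine Finset.sum_eq_zero fun i _ => ?_
        rw [xi_Var, Finsupp.mapDomain_zero, smul_zero]
      | zero =>
        rw [xi_Var, map_zero, eq_comm]
        refine Finset.sum_eq_zero fun i _ => ?_
        rw [xi_Var, toQ_map_Var _ _ (act F i.succAbove)
          (fun τ => Tr.leaf (up (id ∘ i.succAbove) τ)), hn i, map_zero, smul_zero]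
        intro τ
        refine funext fun γ => res_emb Function.injective_id i ?_ (τ γ)
        rw [Function.id_comp, Finset.image_id, Fin.image_succAbove_univ,
          ← amin_crd (I := {i}ᶜ) (i := i) ⟨i.succAbove 0, by simp⟩ (by simp)]
        congr 1
        simp
  have h1 := ynull_Var hL (fun k b => k = 0 ∧ Low_Var F (j + 1) (vals k b))
    (fun k b h => absurd h.1 (Nat.succ_ne_zero k))
    (fun k b hO h φ hφ => ⟨h.1, h.2.tact hO (EE_hom hφ)⟩)
    (fun k I _ _ b hb => by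
      cases k with
      | succ k => exact absurd hb (Finset.notMem_empty b)
      | zero =>
        obtain ⟨τ, hτ, rfl⟩ := toQ_supp_Var _ z b hb
        refine ⟨rfl, ?_⟩
        rw [vals_zero_Var]
        exact (hz τ hτ).2.range (emb F id))
    (fun k b h _ => by
      obtain ⟨rfl, h⟩ := h
      exact h.rk_le)
  have h2 : (red (cst 0 (Finsupp.linearCombination ℚ Tr.val
      (xi_Var (N := j + 2) c 0 Finset.univ))) : Xq G2 (OmN F (j + 2)) 0) =
      pushR (emb F (id : Fin (j + 2) → Fin (j + 2))).toRingHom 0 (cst 0 (red (aug_Var z))) := by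
    rw [xi_Var, toQ_val_Var, cst_red, pushR, push_red, push_cst]
    rfl
  rwa [h2] at h1

/-- Formal cycles of effective correspondences of non-maximal variation are boundaries. -/
theorem model_formal {F : Type u} [Field F] [CharZero F] {j : ℕ} {z : Xq G2 F (j + 1) →₀ ℤ}
    (hz : ∀ τ ∈ z.support, (∃ e, Eff e τ) ∧ Low_Var F (j + 1) (Set.range τ))
    (hc : frd_Var F j z = 0) : Bd ⊤ (red (aug_Var z) : Xq G2 F (j + 1)) := by
  obtain ⟨y, hy, hz', hn⟩ := moore_Var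
    (fun q τ => (∃ e, Eff e τ) ∧ Low_Var F (j + 1) (Set.range τ))
    (fun f τ ⟨⟨e, he⟩, h⟩ => ⟨⟨e, he.map (Cy.smR F f)⟩, h.range (Cy.sm F f)⟩) hz hc
  have hCh : ∀ {q} {x : Xq G2 F q →₀ ℤ},
      (∀ τ ∈ x.support, (∃ e, Eff e τ) ∧ Low_Var F (j + 1) (Set.range τ)) →
      aug_Var x ∈ Ch G2 (⊤ : Subring F) q := fun hx =>
    aug_mem_Var _ fun τ hτ => (hx τ hτ).1.elim fun e he => eff_mem_Ch he fun _ _ => trivial
  set z' := z - frd_Var F (j + 1) y with hz'def
  have h3 : GoodZ F (j + 1) 0 (cst 0 (red (aug_Var z') : Xq G2 F (j + 1))) := by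
    refine ⟨⟨cst_mem_Ch (A := ⊤) ?_ 0, ?_⟩, trivial, fun i => ?_⟩
    · exact mem_Ch_top.1 (red_mem_CR (hCh hz')).1
    · exact (red_red _).comp C (map_zero _)
    · rw [hface, pushR, push_cst]
      have h4 : (fun γ => (Cy.smR F i.succAbove).toAddMonoidHom
          ((red (aug_Var z') : Xq G2 F (j + 1)) γ)) =
          act F i.succAbove (red (aug_Var z')) := rfl
      rw [h4, act_red, ← aug_map_Var, hn i, map_zero, map_zero, map_zero]
  have h5 := bd_of_ynull h3 (ynull_formal hz' hn)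
  have h6 : Bd ⊤ (dX F (j + 1) (aug_Var y)) := ⟨_, hCh hy, rfl⟩
  have h7 := h5.add h6.red
  rwa [hz'def, map_sub, aug_frd_Var, map_sub, sub_add_cancel] at h7

/-- The effective part of the reduction of a difference. -/
def pos_Var {S : Type u} [AddCommGroup S] (τ₁ τ₂ : G2 → S) : G2 → S :=
  τ₁ + (fun γ => τ₂ (((AddMonoidHom.inr ℤ ℤ).comp (AddMonoidHom.snd ℤ ℤ)) γ))
    + (fun γ => τ₂ (((AddMonoidHom.inl ℤ ℤ).comp (AddMonoidHom.fst ℤ ℤ)) γ))
    + fun γ => τ₁ ((0 : G2 →+ G2) γ)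

theorem pos_sub_Var {S : Type u} [AddCommGroup S] (τ₁ τ₂ : G2 → S) :
    pos_Var τ₁ τ₂ - pos_Var τ₂ τ₁ = red (τ₁ - τ₂) := by
  rw [map_sub, red_eq_Chn, red_eq_Chn, pos_Var, pos_Var]
  abel

/-- Normalised cycles whose components have jointly non-maximal variation are boundaries. -/
theorem model_joint {F : Type u} [Field F] [CharZero F] {j : ℕ} {τ₁ τ₂ : Xq G2 F (j + 1)}
    {s : Set (Base F (j + 1))} (hs : Low_Var F (j + 1) s) (h₁ : ∃ e, Eff e τ₁)
    (h₂ : ∃ e, Eff e τ₂) (v₁ : ∀ γ, τ₁ γ ∈ Algebra.adjoin F s)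
    (v₂ : ∀ γ, τ₂ γ ∈ Algebra.adjoin F s)
    (hn : ∀ i : Fin (j + 2), act F i.succAbove (red (τ₁ - τ₂)) = 0) :
    Bd ⊤ (red (τ₁ - τ₂) : Xq G2 F (j + 1)) := by
  have key : ∀ {a b : Xq G2 F (j + 1)}, (∃ e, Eff e a) → (∃ e, Eff e b) →
      (∀ γ, a γ ∈ Algebra.adjoin F s) → (∀ γ, b γ ∈ Algebra.adjoin F s) →
      (∃ e, Eff e (pos_Var a b)) ∧ Low_Var F (j + 1) (Set.range (pos_Var a b)) := by
    rintro a b ⟨_, ha⟩ ⟨_, hb⟩ va vb
    refine ⟨⟨_, ((ha.add (hb.comp _)).add (hb.comp _)).add (ha.comp _)⟩, hs.adjoin.mono ?_⟩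
    rintro _ ⟨γ, rfl⟩
    exact add_mem (add_mem (add_mem (va _) (vb _)) (vb _)) (va _)
  have h1 := model_formal (z := Finsupp.single (pos_Var τ₁ τ₂ : Xq G2 F (j + 1)) 1 -
    Finsupp.single (pos_Var τ₂ τ₁ : Xq G2 F (j + 1)) 1) (fun τ hτ => ?_) ?_
  · rwa [map_sub, aug_single_Var, aug_single_Var, one_smul, one_smul, pos_sub_Var,
      (red_red _).red_eq] at h1
  · classical
    rcases Finset.mem_union.1 (Finsupp.support_sub hτ) with h | h <;>
      rw [Finset.mem_singleton.1 (Finsupp.support_single_subset h)]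
    · exact key h₁ h₂ v₁ v₂
    · exact key h₂ h₁ v₂ v₁
  · refine Finset.sum_eq_zero fun i _ => smul_eq_zero_of_right _ ?_
    have h2 := hn i
    rw [← pos_sub_Var, map_sub, sub_eq_zero] at h2
    rw [Finsupp.mapDomain_sub, Finsupp.mapDomain_single, Finsupp.mapDomain_single, h2, sub_self]

end

end Pool.Agent.MP_e2821c_ag.Dg
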