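import Pool.Agent.Lib.MP_e2821c_ag.Dg.Main
import Pool.Agent.Lib.MP_e2821c_ag.Dg.Var
import Pool.Agent.Lib.MP_e2821c_ag.VarDef

namespace Pool.Agent.MP_e2821c_ag.Dg

open MvPolynomial

universe u v w

noncomputable section

/-- The non-degenerate components of `c` have jointly non-maximal variation: no `j` traces of
monomials on them are algebraically independent over `O`. -/
def JointLowVariation (O : Type u) [CommRing O] (n j : ℕ) (c : Cor O n j) : Prop :=
  ∀ (P : Fin j → Elem O n j) (v : Fin j → Fin n → ℤ),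
    (∀ l, P l ∈ c.support ∧ ¬ Degenerate O n j (P l)) →
      ¬ AlgebraicIndependent O fun l => traceOn O n j (P l) (C (AddMonoidAlgebra.single (v l) 1))

section Bridge

variable (O : Type u) [CommRing O] [IsDomain O] [QAlg O] [IsIntegrallyClosed O]
  [IsNoetherianRing O]

theorem trG_traceOn (j : ℕ) (P : Elem O 2 j) (y : Amb O 2 j) :
    algebraMap (Base O j) (FracBase O j) (trG (proj O 2 j) P.1 y) = traceOn O 2 j P y := by
  have := base_isIntegrallyClosed O j
  have : IsNoetherianRing (Torus O 2) := Algebra.FiniteType.isNoetherianRing O _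
  rw [map_trG P.2.2.1 _ (IsFractionRing.injective _ _)]
  let _ := (proj O 2 j).toAlgebra
  exact trF_eq_TrG (R := Base O j) (A := Amb O 2 j) P.1 y

theorem trC_powerSum (j : ℕ) (c : Cor O 2 j) (γ : G2) :
    algebraMap (Base O j) (FracBase O j) (trC O j c γ) = powerSum O 2 j c ![γ.1, γ.2] := by
  rw [trC_apply_Bridge, map_finsuppSum, powerSum]
  refine Finsupp.sum_congr fun P _ => ?_
  rw [map_zsmul, trG_traceOn, iotaAmb_apply_Bridge]

theorem low_trC (j : ℕ) {c : Cor O 2 j} (h : LowVariation O 2 j c) :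
    Low_Var O j (Set.range (trC O j c)) := by
  intro x hx hi
  choose γ hγ using hx
  refine h (fun l => ![(γ l).1, (γ l).2]) ?_
  have h1 := hi.map' (f := IsScalarTower.toAlgHom O (Base O j) (FracBase O j))
    (IsFractionRing.injective _ _)
  rwa [show (IsScalarTower.toAlgHom O (Base O j) (FracBase O j)) ∘ x =
    fun l => powerSum O 2 j c ![(γ l).1, (γ l).2] from funext fun l => by
      rw [← trC_powerSum, hγ]; rfl] at h1

omit [IsNoetherianRing O] in
theorem eff_trC (j : ℕ) {c : Cor O 2 j} (h : 0 ≤ c) : ∃ e, Eff e (trC O j c) := by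
  have := base_isIntegrallyClosed O j
  let S : AddSubmonoid (Xq G2 O j) :=
    { carrier := {τ | ∃ e, Eff e τ}
      zero_mem' := ⟨0, Eff.zero⟩
      add_mem' := fun ⟨_, a⟩ ⟨_, b⟩ => ⟨_, a.add b⟩ }
  change trC O j c ∈ S
  rw [trC, Finsupp.linearCombination_apply, Finsupp.sum]
  refine S.sum_mem fun P _ => ?_
  obtain ⟨n, hn⟩ := Int.eq_ofNat_of_zero_le (h P)
  rw [hn, natCast_zsmul]
  exact S.nsmul_mem ⟨_, eff_trG (iotaAmb O j) P⟩ n

theorem frd_trC (j : ℕ) (z : Cor O 2 (j + 1) →₀ ℤ) :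
    frd_Var O j (z.mapDomain (trC O (j + 1))) = (formalBd O 2 j z).mapDomain (trC O j) := by
  rw [frd_Var, formalBd, Finsupp.mapDomain_finsetSum]
  refine Finset.sum_congr rfl fun i _ => ?_
  rw [Finsupp.mapDomain_smul, ← Finsupp.mapDomain_comp, ← Finsupp.mapDomain_comp]
  congr 2
  exact funext fun c => (trC_pull_Bridge O j i c).symm

theorem low_joint (j : ℕ) {c : Cor O 2 j} (h : JointLowVariation O 2 j c) :
    Low_Var O j {x | ∃ P ∈ c.support, ¬ Degenerate O 2 j P ∧
      ∃ γ, trG (proj O 2 j) P.1 (iotaAmb O j γ) = x} := by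
  intro x hx hi
  choose P hP hP' γ hγ using hx
  refine h P (fun l => ![(γ l).1, (γ l).2]) (fun l => ⟨hP l, hP' l⟩) ?_
  have h1 := hi.map' (f := IsScalarTower.toAlgHom O (Base O j) (FracBase O j))
    (IsFractionRing.injective _ _)
  rwa [show (IsScalarTower.toAlgHom O (Base O j) (FracBase O j)) ∘ x = fun l =>
    traceOn O 2 j (P l) (C (AddMonoidAlgebra.single ![(γ l).1, (γ l).2] 1)) from
    funext fun l => by rw [← trG_traceOn, ← iotaAmb_apply_Bridge, hγ]; rfl] at h1

theorem descend_Var (k B : Type u) [Field k] [CharZero k] [CommRing B] [IsDomain B]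
    [Algebra k B] [Algebra.Smooth k B] (𝔭 : Ideal B) [𝔭.IsPrime] [Algebra B O]
    [IsLocalization.AtPrime O 𝔭] (j : ℕ) (c : Cor O 2 (j + 1))
    (h : Bd ⊤ (pushR (algebraMap O (FractionRing O)) (j + 1) (red (trC O (j + 1) c)))) :
    ∃ N : ℕ, 0 < N ∧ ∃ b : Cor O 2 (j + 2),
      SameClass O 2 (j + 1) (bd O 2 (j + 1) b) (N • c) := by
  have hT : 𝔭.primeCompl ≤ nonZeroDivisors B := 𝔭.primeCompl_le_nonZeroDivisors
  have : IsJacobsonRing B := isJacobsonRing_of_finiteType (A := k)
  have : IsLocalRing O := IsLocalization.AtPrime.isLocalRing O 𝔭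
  obtain ⟨d, hd⟩ := exists_trdeg_nat (k := k) (B := B)
  have h3 : Bd ⊤ (red (trC O (j + 1) c) : Xq G2 O (j + 1)) := by
    refine bd_of_fraction (F := k) (K := FractionRing O) 𝔭.primeCompl hT ?_ hd ?_ ?_ h
    · refine (Set.finite_singleton (IsLocalRing.maximalIdeal O)).subset fun 𝔫 h𝔫 => ?_
      exact IsLocalRing.eq_maximalIdeal h𝔫
    · intro s hs 𝔫 h𝔫
      obtain ⟨𝔪, h1, h2, h3⟩ := exists_maximal_not_mem_Main 𝔭 hs
      refine ⟨𝔪, h1, ?_, h3, smAt_of_smooth hd 𝔪⟩
      rw [IsLocalRing.eq_maximalIdeal h𝔫]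
      exact (IsLocalization.AtPrime.under_maximalIdeal O 𝔭).le.trans h2
    · exact ChD_le _ (red_trC_mem O (j + 1) (c.support.sup (deg O 2 (j + 1))) c
        fun P hP => Or.inr (Finset.le_sup hP))
  obtain ⟨y, hy, hdy⟩ := h3
  obtain ⟨N, hN, b, hb'⟩ := exists_trC O (j + 2) hy
  refine ⟨N, Nat.pos_of_ne_zero hN, b, (red_trC_eq_zero_iff O (j + 1) _).1 ?_⟩
  rw [map_sub, map_nsmul, trC_bd, hb', map_nsmul, hdy, map_sub, map_nsmul, (red_red _).red_eq,
    map_nsmul, sub_self]

end Bridge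

theorem frd_push {R R' : Type u} [CommRing R] [CommRing R'] (l : R →+ R') (q : ℕ)
    (z : Xq G2 R (q + 1) →₀ ℤ) :
    frd_Var R' q (z.mapDomain (push l (q + 1))) = (frd_Var R q z).mapDomain (push l q) := by
  rw [frd_Var, frd_Var, Finsupp.mapDomain_finsetSum]
  refine Finset.sum_congr rfl fun i _ => ?_
  rw [Finsupp.mapDomain_smul, ← Finsupp.mapDomain_comp, ← Finsupp.mapDomain_comp]
  congr 2
  exact funext fun c => (push_act l i.succAbove c).symm

theorem low_map {O K : Type u} [CommRing O] [CommRing K] [Algebra O K]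
    (hi : Function.Injective (algebraMap O K)) {m q : ℕ} {s : Set (Base O q)}
    (h : Low_Var O m s) : Low_Var K m (MvPolynomial.map (algebraMap O K) '' s) := by
  intro x hx hx'
  choose y hy hy' using hx
  refine h y hy (AlgebraicIndependent.of_comp (mapAlgHom (Algebra.ofId O K)) ?_)
  have h1 := hx'.restrictScalars hi
  rwa [show x = (mapAlgHom (σ := Fin q) (Algebra.ofId O K)) ∘ y from
    funext fun l => (hy' l).symm] at h1

theorem eff_push {R R' : Type u} [CommRing R] [QAlg R] [CommRing R'] [IsDomain R'] (f : R →+* R')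
    {q : ℕ} {τ : Xq G2 R q} (h : ∃ e, Eff e τ) : ∃ e, Eff e (pushR f q τ) := by
  obtain ⟨e, he⟩ := h
  rw [show pushR f q τ = _ from funext fun γ => pushR_apply f q τ γ]
  exact ⟨e, he.map (MvPolynomial.map f)⟩

theorem main_var (k B O : Type u) [Field k] [CharZero k] [CommRing B] [IsDomain B]
    [Algebra k B] [Algebra.Smooth k B] (𝔭 : Ideal B) [𝔭.IsPrime] [CommRing O] [Algebra B O]
    [IsLocalization.AtPrime O 𝔭] (j : ℕ) :
    (∀ z : Cor O 2 (j + 1) →₀ ℤ, (∀ c ∈ z.support, 0 ≤ c ∧ LowVariation O 2 (j + 1) c) →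
      formalBd O 2 j z = 0 → ∃ N : ℕ, 0 < N ∧ ∃ b : Cor O 2 (j + 2),
        SameClass O 2 (j + 1) (bd O 2 (j + 1) b) (N • z.sum fun c n => n • c)) ∧
    ∀ c : Cor O 2 (j + 1), (∀ i, SameClass O 2 j (pull O 2 j i c) 0) →
      JointLowVariation O 2 (j + 1) c → ∃ N : ℕ, 0 < N ∧ ∃ b : Cor O 2 (j + 2),
        SameClass O 2 (j + 1) (bd O 2 (j + 1) b) (N • c) := by
  have hT : 𝔭.primeCompl ≤ nonZeroDivisors B := 𝔭.primeCompl_le_nonZeroDivisors
  have : IsDomain O := IsLocalization.isDomain_of_le_nonZeroDivisors O hT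
  have : IsIntegrallyClosed B := isIntegrallyClosed_of_smooth k B
  have : IsIntegrallyClosed O := isIntegrallyClosed_of_isLocalization O 𝔭.primeCompl hT
  have : IsNoetherianRing B := Algebra.FiniteType.isNoetherianRing k B
  have : IsNoetherianRing O := IsLocalization.isNoetherianRing 𝔭.primeCompl O inferInstance
  have : QAlg B := QAlg.of_algebra k B
  have : QAlg O := QAlg.of_algebra B O
  have : CharZero O := QAlg.charZero O
  have hi := IsFractionRing.injective O (FractionRing O)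
  refine ⟨fun z hz hb => descend_Var O k B 𝔭 j _ ?_, fun c hf hv => descend_Var O k B 𝔭 j _ ?_⟩
  · have h1 : ∀ τ ∈ (z.mapDomain (trC O (j + 1))).support,
        (∃ e, Eff e τ) ∧ Low_Var O (j + 1) (Set.range τ) :=
      supp_map_Var hz fun c hc => ⟨eff_trC O _ hc.1, low_trC O _ hc.2⟩
    have h2 : aug_Var (z.mapDomain (trC O (j + 1))) = trC O (j + 1) (z.sum fun c n => n • c) :=
      aug_map_Var (trC O (j + 1)).toAddMonoidHom z
    rw [← h2, pushR, push_red, ← aug_map_Var]
    refine model_formal (supp_map_Var h1 fun τ h => ⟨eff_push _ h.1,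
      (low_map hi h.2).mono ?_⟩) ?_
    · rintro _ ⟨γ, rfl⟩
      exact ⟨τ γ, ⟨γ, rfl⟩, (pushR_apply _ _ τ γ).symm⟩
    · rw [frd_push, frd_trC, hb, Finsupp.mapDomain_zero, Finsupp.mapDomain_zero]
  · classical
    let c' := c.filter fun P => ¬ Degenerate O 2 (j + 1) P
    have h1 : c - c' ∈ degen O 2 (j + 1) := by
      refine (Finsupp.mem_supported' _ _).2 fun P hP => ?_
      rw [Finsupp.sub_apply, sub_eq_zero]
      exact (Finsupp.filter_apply_pos (fun P => ¬ Degenerate O 2 (j + 1) P) c hP).symm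
    have h2 : red (trC O (j + 1) c) = red (trC O (j + 1) c'⁺ - trC O (j + 1) c'⁻) := by
      rw [← map_sub, posPart_sub_negPart, ← sub_eq_zero, ← map_sub, ← map_sub]
      exact red_trC_degen_Bridge O _ h1
    have hval : ∀ a : Cor O 2 (j + 1), (∀ P, c' P = 0 → a P = 0) → ∀ γ,
        pushR (algebraMap O (FractionRing O)) (j + 1) (trC O (j + 1) a) γ ∈
          Algebra.adjoin (FractionRing O) (MvPolynomial.map (algebraMap O (FractionRing O)) ''
            {x | ∃ P ∈ c.support, ¬ Degenerate O 2 (j + 1) P ∧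
              ∃ γ, trG (proj O 2 (j + 1)) P.1 (iotaAmb O (j + 1) γ) = x}) := by
      intro a ha γ
      rw [pushR_apply, trC_apply_Bridge, Finsupp.sum, map_sum]
      refine sum_mem fun P hP => ?_
      rw [map_zsmul]
      have h3 : P ∈ c'.support := Finsupp.mem_support_iff.2 fun h =>
        Finsupp.mem_support_iff.1 hP (ha P h)
      rw [Finsupp.support_filter, Finset.mem_filter] at h3
      refine zsmul_mem (Algebra.subset_adjoin ?_) _
      exact ⟨_, ⟨P, h3.1, h3.2, γ, rfl⟩, rfl⟩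
    have h4 : pushR (algebraMap O (FractionRing O)) (j + 1) (red (trC O (j + 1) c)) =
        red (pushR (algebraMap O (FractionRing O)) (j + 1) (trC O (j + 1) c'⁺) -
          pushR (algebraMap O (FractionRing O)) (j + 1) (trC O (j + 1) c'⁻)) := by
      rw [h2, pushR, push_red, map_sub]
    rw [h4]
    refine model_joint (low_map hi (low_joint O _ hv))
      (eff_push _ (eff_trC O _ (posPart_nonneg _))) (eff_push _ (eff_trC O _ (negPart_nonneg _)))
      (hval _ fun P h => ?_) (hval _ fun P h => ?_) fun i => ?_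
    · rw [posPart_def, Finsupp.sup_apply, h, Finsupp.zero_apply, sup_idem]
    · rw [negPart_def, Finsupp.sup_apply, Finsupp.neg_apply, h, neg_zero, Finsupp.zero_apply,
        sup_idem]
    · rw [← h4, pushR, ← push_act, act_red, ← trC_pull_Bridge,
        red_trC_degen_Bridge O _ (by simpa [SameClass] using hf i), map_zero]

end

end Pool.Agent.MP_e2821c_ag.Dg
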