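import Pool.Agent.Lib.MP_e2821c_ag.Dg.YCtrl
import Pool.Agent.Lib.MP_e2821c_ag.Dg.Planar
import Pool.Agent.Lib.MP_e2821c_ag.Dg.Chn

namespace Pool.Agent.MP_e2821c_ag.Dg

open MvPolynomial

universe u v w

noncomputable section

variable {F : Type u} [Field F] [CharZero F] {N q : ℕ}

theorem CW_mono {W W' : Sb N} (h : W ≤ W') : CW F W q ≤ CW F W' q :=
  CR_mono fun _ hx => OW_mono h hx

theorem CW_le_Deg {W W' : Sb N} (h : W' < W) : CW F W' q ≤ Deg F W q :=
  le_iSup (fun V : {V : Sb N // V < W} => CW F (V : Sb N) q) ⟨W', h⟩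

theorem Deg_le_CW (W : Sb N) : Deg F W q ≤ CW F W q :=
  iSup_le fun V => CW_mono V.2.le

theorem Deg_bot : Deg F (⊥ : Sb N) q = ⊥ :=
  le_bot_iff.1 (iSup_le fun V => absurd V.2 not_lt_bot)

theorem CW_bot : CW F (⊥ : Sb N) q = CR (⊥ : Subalgebra F (OmN F N)).toSubring q := by
  rw [CW, OW_bot]

theorem const_mem_Deg {W : Sb N} (hW : W ≠ ⊥) {x : Xq G2 (OmN F N) q}
    (hx : x ∈ CR (⊥ : Subalgebra F (OmN F N)).toSubring q) : x ∈ Deg F W q := by
  refine CW_le_Deg (bot_lt_iff_ne_bot.2 hW) ?_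
  rwa [CW_bot]

omit [CharZero F] in
theorem Deg_map_YCx {W : Sb N} {G : Type v} [AddCommGroup G] (f : Xq G2 (OmN F N) q →+ G)
    (S : AddSubgroup G) (h : ∀ V : Sb N, V < W → ∀ x ∈ CW F V q, f x ∈ S)
    {x : Xq G2 (OmN F N) q} (hx : x ∈ Deg F W q) : f x ∈ S := by
  have h1 : Deg F W q ≤ S.comap f := iSup_le fun V y hy => h V V.2 y hy
  exact h1 hx

theorem qsmul_mem_Deg {W : Sb N} (c : ℚ) {x : Xq G2 (OmN F N) q} (hx : x ∈ Deg F W q) :
    c • x ∈ Deg F W q :=
  Deg_map_YCx (AddMonoidHom.mk' (fun y : Xq G2 (OmN F N) q => c • y) (smul_add c)) _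
    (fun _ hV _ hy => CW_le_Deg hV (qsmul_mem_CR c hy)) hx

theorem dX_mem_Deg {W : Sb N} {x : Xq G2 (OmN F N) (q + 1)} (hx : x ∈ Deg F W (q + 1)) :
    dX _ q x ∈ Deg F W q :=
  Deg_map_YCx (dX (OmN F N) q) (Deg F W q)
    (fun V hV _ hy => CW_le_Deg hV (dX_mem_CR (A := (OW F V).toSubring) hy)) hx

omit [CharZero F] in
theorem homOn_res_YCx (w : Fn N) {A : Subalgebra F (OmN F N)} (hA : A ≤ Oh F N) :
    HomOn (res F w).toAddMonoidHom (A.toSubring : Set (OmN F N)) :=
  ⟨(homOn_res w).1, fun a ha b hb => (homOn_res w).2 a (hA ha) b (hA hb)⟩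

theorem res_mem_CW (w : Fn N) {W : Sb N} {x : Xq G2 (OmN F N) q} (hx : x ∈ CW F W q) :
    pE (res F w) q x ∈ CW F (W ⊓ LinearMap.ker w) q :=
  push_mem_CR_of_homOn (A := (OW F W).toSubring)
    (homOn_res_YCx w fun _ ha => (mem_OW.1 ha).1) (fun _ ha => res_mem_OW w ha) hx

theorem res_eq_self_CW {w : Fn N} {W : Sb N} (hW : W ≤ LinearMap.ker w) {x : Xq G2 (OmN F N) q}
    (hx : x ∈ CW F W q) : pE (res F w) q x = x :=
  push_eq_self_of_mem (A := (OW F W).toSubring)
    (fun _ ha => res_eq_self hW (mem_OW.1 ha).2) (mem_CR.1 hx).1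

omit [CharZero F] in
theorem jump_apply_YCx (W W' : Sb N) (x : Xq G2 (OmN F N) q) :
    jump F W W' q x = pE (res F (cut W W')) q x - pE (res F (-cut W W')) q x := rfl

theorem jump_mem {W W' : Sb N} (h : Hyp W' W) {x : Xq G2 (OmN F N) q} (hx : x ∈ CW F W q) :
    jump F W W' q x ∈ CW F W' q := by
  rw [jump_apply_YCx]
  have h1 := res_mem_CW (cut W W') hx
  have h2 := res_mem_CW (-cut W W') hx
  rw [h.inf_ker] at h1
  rw [h.inf_ker_neg] at h2
  exact sub_mem h1 h2

theorem jump_deg {W W' : Sb N} (h : Hyp W' W) {x : Xq G2 (OmN F N) q} (hx : x ∈ Deg F W q) :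
    jump F W W' q x ∈ Deg F W' q := by
  refine Deg_map_YCx (jump F W W' q) _ (fun V hV y hy => ?_) hx
  rw [jump_apply_YCx]
  by_cases hle : V ≤ W'
  · have h1 : V ≤ LinearMap.ker (cut W W') := hle.trans (h.inf_ker.ge.trans inf_le_right)
    have h2 : V ≤ LinearMap.ker (-cut W W') := hle.trans (h.inf_ker_neg.ge.trans inf_le_right)
    rw [res_eq_self_CW h1 hy, res_eq_self_CW h2 hy, sub_self]
    exact zero_mem _
  · have key : ∀ w : Fn N, W ⊓ LinearMap.ker w = W' → pE (res F w) q y ∈ Deg F W' q := by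
      intro w hw
      refine CW_le_Deg (lt_of_le_of_ne ?_ ?_) (res_mem_CW w hy)
      · exact (inf_le_inf_right _ hV.le).trans hw.le
      · intro he
        exact hle (h.eq_of_le_of_lt (he.ge.trans inf_le_left) hV).le
    exact sub_mem (key _ h.inf_ker) (key _ h.inf_ker_neg)

omit [CharZero F] in
theorem CA_le_Oh_YCx (E : Set (Vec N)) : CA F E ≤ Oh F N :=
  fun _ ha => (mem_OW.1 (CA_le_OW E ha)).1

theorem res_mem_CA_YCx (w : Fn N) {E : Set (Vec N)} {x : Xq G2 (OmN F N) q}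
    (hx : x ∈ CR (CA F E).toSubring q) :
    pE (res F w) q x ∈ CR (CA F (E ∩ LinearMap.ker w)).toSubring q :=
  push_mem_CR_of_homOn (A := (CA F E).toSubring) (homOn_res_YCx w (CA_le_Oh_YCx E))
    (fun _ ha => res_mem_CA w ha) hx

theorem jump_low {W W' : Sb N} (h : Hyp W' W) {E : Set (Vec N)}
    (hE : Submodule.span ℚ (E ∩ W') ≠ W') {x : Xq G2 (OmN F N) q}
    (hx : x ∈ CR (CA F (E ∩ W)).toSubring q) : jump F W W' q x ∈ Deg F W' q := by
  rw [jump_apply_YCx]
  have hlt : Submodule.span ℚ (E ∩ W') < W' :=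
    lt_of_le_of_ne (Submodule.span_le.2 Set.inter_subset_right) hE
  have key : ∀ w : Fn N, W ⊓ LinearMap.ker w = W' → pE (res F w) q x ∈ Deg F W' q := by
    intro w hw
    refine CW_le_Deg hlt (CR_mono (fun a ha => ?_) (res_mem_CA_YCx w hx))
    refine CA_le_OW _ (CA_mono ?_ ha)
    rintro e ⟨⟨h1, h2⟩, h3⟩
    refine ⟨h1, ?_⟩
    rw [← hw]
    exact ⟨h2, h3⟩
  exact sub_mem (key _ h.inf_ker) (key _ h.inf_ker_neg)

theorem jump_const (W W' : Sb N) {x : Xq G2 (OmN F N) q}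
    (hx : x ∈ CR (⊥ : Subalgebra F (OmN F N)).toSubring q) : jump F W W' q x = 0 := by
  rw [jump_apply_YCx]
  have key : ∀ w : Fn N, pE (res F w) q x = x := fun w =>
    push_end_bot (res_one w) (mem_CR.1 hx).1
  rw [key, key, sub_self]

theorem exists_mem_CA {W : Sb N} {x : Xq G2 (OmN F N) q} (hx : x ∈ CW F W q) :
    ∃ E : Finset (Vec N), x ∈ CR (CA F ((E : Set (Vec N)) ∩ W)).toSubring q := by
  obtain ⟨s, hs, hs'⟩ := exists_finset_of_mem_Ch (mem_CR.1 hx).1
  obtain ⟨E, hE⟩ := exists_finset_le_CA s fun a ha => (mem_OW.1 (hs a ha)).1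
  refine ⟨E, mem_CR.2 ⟨hs' _ fun a ha => ?_, (mem_CR.1 hx).2⟩⟩
  have h1 : Algebra.adjoin F (s : Set (OmN F N)) ≤ CA F ((E : Set (Vec N)) ∩ W) :=
    le_CA_inter (Algebra.adjoin_le fun b hb => hE b hb)
      (Algebra.adjoin_le fun b hb => (mem_OW.1 (hs b hb)).2)
  exact h1 (Algebra.subset_adjoin ha)

omit [CharZero F] in
theorem dX_jump (W W' : Sb N) (x : Xq G2 (OmN F N) (q + 1)) :
    dX _ q (jump F W W' (q + 1) x) = jump F W W' q (dX _ q x) := by
  rw [jump_apply_YCx, jump_apply_YCx, map_sub, push_dX, push_dX]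

omit [CharZero F] in
open Classical in
theorem dY_eq_sum (c : Fam F N q) {s : Finset (Sb N)} (hs : c.support ⊆ s) (W' : Sb N) :
    dY F c W' = ∑ W ∈ s.filter (fun W => Hyp W' W), jump F W W' q (c W) := by
  rw [dY, Finsupp.sum_of_support_subset c hs _ (fun W _ => by simp), Finset.sum_filter]

omit [CharZero F] in
theorem dY_add (c c' : Fam F N q) (W : Sb N) : dY F (c + c') W = dY F c W + dY F c' W := by
  classical
  rw [dY_eq_sum (c + c') (s := c.support ∪ c'.support) Finsupp.support_add,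
    dY_eq_sum c (s := c.support ∪ c'.support) Finset.subset_union_left,
    dY_eq_sum c' (s := c.support ∪ c'.support) Finset.subset_union_right,
    ← Finset.sum_add_distrib]
  exact Finset.sum_congr rfl fun V _ => by rw [Finsupp.add_apply, map_add]

omit [CharZero F] in
theorem dY_neg (c : Fam F N q) (W : Sb N) : dY F (-c) W = -dY F c W := by
  rw [dY_eq_sum (-c) (s := c.support) (Finsupp.support_neg c).subset,
    dY_eq_sum c (s := c.support) subset_rfl, ← Finset.sum_neg_distrib]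
  exact Finset.sum_congr rfl fun V _ => by rw [Finsupp.neg_apply, map_neg]

omit [CharZero F] in
open Classical in
theorem dY_single (W W' : Sb N) (x : Xq G2 (OmN F N) q) :
    dY F (Finsupp.single W x) W' = if Hyp W' W then jump F W W' q x else 0 := by
  rw [dY, Finsupp.sum_single_index]
  simp

omit [CharZero F] in
theorem dX_dY (c : Fam F N (q + 1)) (W : Sb N) :
    dX _ q (dY F c W) = dY F (c.mapRange (dX _ q) (map_zero _)) W := by
  rw [dY_eq_sum c (s := c.support) subset_rfl,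
    dY_eq_sum (c.mapRange (dX _ q) (map_zero _)) (s := c.support) Finsupp.support_mapRange,
    map_sum]
  exact Finset.sum_congr rfl fun V _ => by rw [dX_jump, Finsupp.mapRange_apply]

theorem dY_deg {c : Fam F N q} (h : ∀ W, c W ∈ Deg F W q) (W : Sb N) : dY F c W ∈ Deg F W q := by
  classical
  rw [dY_eq_sum c (s := c.support) subset_rfl]
  exact sum_mem fun V hV => jump_deg (Finset.mem_filter.1 hV).2 (h V)

theorem exists_ctrl_YCx {c : Fam F N q} (h : ∀ W, c W ∈ CW F W q) :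
    ∃ E : Finset (Vec N), ∀ W : Sb N, c W ∈ CR (CA F ((E : Set (Vec N)) ∩ W)).toSubring q := by
  classical
  choose E hE using fun W => exists_mem_CA (h W)
  refine ⟨c.support.biUnion E, fun W => ?_⟩
  by_cases hW : W ∈ c.support
  · refine CR_mono (fun a ha => CA_mono ?_ ha) (hE W)
    refine Set.inter_subset_inter_left _ fun e he => ?_
    exact Finset.mem_coe.2 (Finset.mem_biUnion.2 ⟨W, hW, he⟩)
  · rw [Finsupp.notMem_support_iff.1 hW]
    exact zero_mem _

theorem exists_dY {p : ℕ} {c : Fam F N q} (h : YG F (p + 1) c) :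
    ∃ c' : Fam F N q, YG F p c' ∧ ∀ W, c' W - dY F c W ∈ Deg F W q := by
  classical
  obtain ⟨E, hE⟩ := exists_ctrl_YCx fun W => (h W).1
  let T : Finset (Sb N) := E.powerset.image fun s : Finset (Vec N) =>
    Submodule.span ℚ (s : Set (Vec N))
  let c' : Fam F N q := Finsupp.onFinset T (fun W => if W ∈ T then dY F c W else 0)
    fun W hW => by
      by_contra hc
      exact hW (if_neg hc)
  have hc' : ∀ W, c' W = if W ∈ T then dY F c W else 0 := fun _ => rfl
  refine ⟨c', fun W => ⟨?_, fun hW => ?_⟩, fun W => ?_⟩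
  · rw [hc']
    split_ifs
    · rw [dY_eq_sum c (s := c.support) subset_rfl]
      exact sum_mem fun V hV => jump_mem (Finset.mem_filter.1 hV).2 (h V).1
    · exact zero_mem _
  · rw [hc']
    split_ifs
    · rw [dY_eq_sum c (s := c.support) subset_rfl]
      refine Finset.sum_eq_zero fun V hV => ?_
      have h1 := (Finset.mem_filter.1 hV).2.2
      rw [(h V).2 (by omega), map_zero]
    · rfl
  · rw [hc']
    split_ifs with hT
    · rw [sub_self]
      exact zero_mem _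
    · rw [zero_sub, dY_eq_sum c (s := c.support) subset_rfl]
      refine neg_mem (sum_mem fun V hV => jump_low (Finset.mem_filter.1 hV).2 (fun he => ?_) (hE V))
      refine hT (Finset.mem_image.2 ⟨E.filter (· ∈ W),
        Finset.mem_powerset.2 (Finset.filter_subset _ _), ?_⟩)
      rw [Finset.coe_filter]
      exact he

theorem jump_jump_YCx {W W'' : Sb N} {E : Set (Vec N)} {x : Xq G2 (OmN F N) q}
    (hx : x ∈ CR (CA F (E ∩ W)).toSubring q) (𝓛 : Finset (Sb N))
    (h𝓛 : ∀ W' ∈ 𝓛, Hyp W'' W' ∧ Hyp W' W)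
    (hE : ∀ e ∈ E, Hyp W'' (W'' ⊔ Submodule.span ℚ {e}) → Hyp (W'' ⊔ Submodule.span ℚ {e}) W →
      W'' ⊔ Submodule.span ℚ {e} ∈ 𝓛) :
    ∑ W' ∈ 𝓛, jump F W' W'' q (jump F W W' q x) = 0 := by
  rcases 𝓛.eq_empty_or_nonempty with rfl | ⟨V, hV⟩
  · exact Finset.sum_empty
  obtain ⟨h1, h2⟩ := h𝓛 V hV
  have hle : W'' ≤ W := h1.1.trans h2.1
  have hd : Module.finrank ℚ W = Module.finrank ℚ W'' + 2 := by rw [h2.2, h1.2]
  have key := planar hle hd E 𝓛 h𝓛 (fun e he heW he' => ?_)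
    (fun w₁ w₂ => pE (res F w₂) q (pE (res F w₁) q x)) (fun w₁ w₂ w₁' w₂' hw => ?_)
  · rw [← key]
    refine Finset.sum_congr rfl fun W' _ => ?_
    rw [jump_apply_YCx, jump_apply_YCx, map_sub, map_sub]
    abel
  · have h3 := hyp_sup_span he'
    refine hE e he h3 ⟨sup_le hle ((Submodule.span_singleton_le_iff_mem e W).2 heW), ?_⟩
    rw [hd, h3.2]
  · rw [push_push, push_push]
    exact push_congr (A := (CA F (E ∩ W)).toSubring)
      (fun a ha => res_res_congr (fun e he => hw e he.1 he.2) ha) (mem_CR.1 hx).1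

theorem dY_dY {c c' : Fam F N q} (h : ∀ W, c W ∈ CW F W q)
    (h' : ∀ W, c' W - dY F c W ∈ Deg F W q) (W : Sb N) : dY F c' W ∈ Deg F W q := by
  classical
  obtain ⟨E, hE⟩ := exists_ctrl_YCx h
  let s : Finset (Sb N) := c'.support ∪ E.image fun e => W ⊔ Submodule.span ℚ {e}
  have h0 : ∑ V ∈ s.filter (fun V => Hyp W V), jump F V W q (dY F c V) = 0 := by
    have h1 : ∀ V ∈ s.filter (fun V => Hyp W V), jump F V W q (dY F c V) =
        ∑ U ∈ c.support, if Hyp V U then jump F V W q (jump F U V q (c U)) else 0 := by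
      intro V _
      rw [dY_eq_sum c (s := c.support) subset_rfl, map_sum, Finset.sum_filter]
    rw [Finset.sum_congr rfl h1, Finset.sum_comm]
    refine Finset.sum_eq_zero fun U _ => ?_
    rw [← Finset.sum_filter]
    refine jump_jump_YCx (hE U) _ (fun V hV => ?_) fun e he h2 h3 => ?_
    · exact ⟨(Finset.mem_filter.1 (Finset.mem_filter.1 hV).1).2, (Finset.mem_filter.1 hV).2⟩
    · refine Finset.mem_filter.2 ⟨Finset.mem_filter.2 ⟨?_, h2⟩, h3⟩
      exact Finset.mem_union_right _ (Finset.mem_image.2 ⟨e, he, rfl⟩)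
  rw [dY_eq_sum c' (s := s) Finset.subset_union_left, ← sub_zero (Finset.sum _ _), ← h0,
    ← Finset.sum_sub_distrib]
  refine sum_mem fun V hV => ?_
  rw [← map_sub]
  exact jump_deg (Finset.mem_filter.1 hV).2 (h' V)

end

end Pool.Agent.MP_e2821c_ag.Dg
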